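import Pool.Agent.TKN.St5

set_option autoImplicit false

open Finset hiding val

namespace Pool.Agent.TKN.ONE

open Pool.Agent.Lib_helper20.SRO (Agrees NBP Walk evenWeight)
open Pool.Agent.URG (VarA VarG VarX goodA goodF deg lg Pass pols)
open Pool.Agent.HPM (DecOs)
open Pool.Agent.HPM.Fn (Coord)

namespace MAUT

open Pool.Agent.HPM (elt val)
open Pool.Agent.URG (value Zero zs zs_le)

/-- An invariant of the fold. -/
theorem fold_inv {m : ℕ} {V : Type} (δ : Fin m → V → Bool → V) (s : V) (x : Fin m → Bool)
    (I : ℕ → V → Prop) (h0 : I 0 s)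
    (h1 : ∀ (j : Fin m) (s : V), I j.val s → I (j.val + 1) (δ j s (x j))) :
    I m (fold δ s x) := by
  have key : ∀ k, k ≤ m →
      I k (((List.finRange m).take k).foldl (fun s j => δ j s (x j)) s) := by
    intro k
    induction k with
    | zero => intro _; simpa using h0
    | succ k ih =>
      intro hk
      have hk' : k < (List.finRange m).length := by rw [List.length_finRange]; omega
      rw [List.take_succ_eq_append_getElem hk', List.foldl_append]
      have h2 := h1 ⟨k, by omega⟩ _ (ih (by omega))
      simpa using h2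
  have h2 := key m le_rfl
  rw [List.take_of_length_le (by rw [List.length_finRange])] at h2
  exact h2

section

variable {W : Type} [Fintype W] {m : ℕ} {F : Type} [AddCommMonoid F] (pos : W → Fin m)

open Classical in
/-- the sum over the cells before the position `k` -/
noncomputable def S (f : W → F) (k : ℕ) : F := ∑ w, if (pos w).val < k then f w else 0

open Classical in
/-- the sum over the cells at the position `j` -/
noncomputable def D (f : W → F) (j : Fin m) : F := ∑ w, if pos w = j then f w else 0

theorem S_zero (f : W → F) : S pos f 0 = 0 := by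
  unfold S
  refine sum_eq_zero fun w _ => ?_
  simp

theorem S_succ (f : W → F) (j : Fin m) : S pos f (j.val + 1) = S pos f j.val + D pos f j := by
  classical
  unfold S D
  rw [← sum_add_distrib]
  refine sum_congr rfl fun w _ => ?_
  by_cases h1 : (pos w).val < j.val
  · have h2 : (pos w).val < j.val + 1 := by omega
    have h3 : pos w ≠ j := fun h => by rw [h] at h1; omega
    rw [if_pos h1, if_pos h2, if_neg h3, add_zero]
  · by_cases h2 : pos w = j
    · have h3 : (pos w).val < j.val + 1 := by rw [h2]; omega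
      rw [if_neg h1, if_pos h3, if_pos h2, zero_add]
    · have h3 : ¬(pos w).val < j.val + 1 := by
        intro h
        exact h2 (Fin.ext (by omega))
      rw [if_neg h1, if_neg h3, if_neg h2, zero_add]

theorem S_all (f : W → F) (k : ℕ) (h : ∀ w, f w ≠ 0 → (pos w).val < k) : S pos f k = ∑ w, f w := by
  classical
  unfold S
  refine sum_congr rfl fun w _ => ?_
  by_cases h1 : (pos w).val < k
  · rw [if_pos h1]
  · rw [if_neg h1]
    by_contra h2
    exact h1 (h w fun h3 => h2 h3.symm)

theorem D_congr (f g : W → F) (j : Fin m) (h : ∀ w, pos w = j → f w = g w) :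
    D pos f j = D pos g j := by
  classical
  unfold D
  refine sum_congr rfl fun w _ => ?_
  by_cases h1 : pos w = j
  · rw [if_pos h1, if_pos h1, h w h1]
  · rw [if_neg h1, if_neg h1]

/-- Three sums, the second one depends on the first, the third one on the second. -/
theorem aut3 (c₁ : W → Bool → F) (c₂ c₃ : F → W → Bool → F) (P : (Fin m → Bool) → Prop)
    (acc : F → Prop)
    (h2 : ∀ (w w' : W) (b b' : Bool) (y : F), c₂ y w b ≠ c₂ 0 w b ∨ c₂ y w b ≠ 0 →
      c₁ w' b' ≠ 0 → pos w' < pos w)
    (h3 : ∀ (w w' : W) (b b' : Bool) (y y' : F), c₃ y w b ≠ 0 → c₂ y' w' b' ≠ 0 →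
      pos w' < pos w)
    (hP : ∀ x, P x ↔ acc (∑ w, c₃ (∑ w', c₂ (∑ w'', c₁ w'' (x (pos w''))) w' (x (pos w'))) w
      (x (pos w)))) : Aut m (F × F × F) P := by
  refine ⟨fun j σ b => (σ.1 + D pos (fun w => c₁ w b) j,
    σ.2.1 + D pos (fun w => c₂ σ.1 w b) j, σ.2.2 + D pos (fun w => c₃ σ.2.1 w b) j), (0, 0, 0),
    fun σ => acc σ.2.2, fun x => ?_⟩
  rw [hP]
  set A := ∑ w'', c₁ w'' (x (pos w'')) with hA
  set Y := ∑ w', c₂ A w' (x (pos w')) with hY
  have key := fold_inv (m := m) (V := F × F × F) (fun j σ b => (σ.1 + D pos (fun w => c₁ w b) j,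
    σ.2.1 + D pos (fun w => c₂ σ.1 w b) j, σ.2.2 + D pos (fun w => c₃ σ.2.1 w b) j)) (0, 0, 0) x
    (fun k σ => σ = (S pos (fun w => c₁ w (x (pos w))) k,
      S pos (fun w => c₂ A w (x (pos w))) k, S pos (fun w => c₃ Y w (x (pos w))) k))
    (by simp only [S_zero]) (by
      rintro j σ rfl
      simp only [S_succ]
      refine Prod.ext ?_ (Prod.ext ?_ ?_)
      · show S pos _ j.val + _ = S pos _ j.val + _
        congr 1
        exact D_congr pos _ _ j fun w hw => by rw [hw]
      · show S pos _ j.val + _ = S pos _ j.val + _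
        congr 1
        refine D_congr pos _ _ j fun w hw => ?_
        rw [hw]
        by_cases hc : ∀ y, c₂ y w (x j) = 0
        · rw [hc, hc]
        · push Not at hc
          obtain ⟨y, hy⟩ := hc
          have e1 : S pos (fun w => c₁ w (x (pos w))) j.val = A := by
            refine S_all pos _ _ fun w' hw' => ?_
            have := h2 w w' (x j) (x (pos w')) y (Or.inr hy) hw'
            rw [hw] at this
            exact this
          rw [e1]
      · show S pos _ j.val + _ = S pos _ j.val + _
        congr 1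
        refine D_congr pos _ _ j fun w hw => ?_
        rw [hw]
        by_cases hc : ∀ y, c₃ y w (x j) = 0
        · rw [hc, hc]
        · push Not at hc
          obtain ⟨y, hy⟩ := hc
          have e1 : S pos (fun w => c₂ A w (x (pos w))) j.val = Y := by
            refine S_all pos _ _ fun w' hw' => ?_
            have := h3 w w' (x j) (x (pos w')) y A hy hw'
            rw [hw] at this
            exact this
          rw [e1])
  rw [key]
  show acc _ ↔ acc (S pos _ m)
  rw [S_all pos (fun w => c₃ Y w (x (pos w))) m fun w _ => (pos w).isLt]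

end

section

variable {n e L : ℕ}

/-- contribution to `a` -/
noncomputable def ca (β : Coord (deg n e)) (t : Fin (pols n e)) :
    VarA n e L → Bool → GaloisField 2 (deg n e)
  | Sum.inl (t', Sum.inl i), b => if t' = t then (if b then β i else 0) else 0
  | Sum.inl (_, Sum.inr _), _ => 0
  | Sum.inr _, _ => 0

/-- contribution to `y` -/
noncomputable def cy (l : Fin L) (a : GaloisField 2 (deg n e)) :
    VarA n e L → Bool → GaloisField 2 (deg n e)
  | Sum.inl _, _ => 0
  | Sum.inr (l', j), b => if l' = l then (if b then a ^ (j : ℕ) else 0) else 0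

/-- contribution to the value -/
noncomputable def cs (β : Coord (deg n e)) (t : Fin (pols n e)) (y : GaloisField 2 (deg n e)) :
    VarA n e L → Bool → GaloisField 2 (deg n e)
  | Sum.inl (_, Sum.inl _), _ => 0
  | Sum.inl (t', Sum.inr (k, i)), b => if t' = t then (if b then β i * y ^ (k : ℕ) else 0) else 0
  | Sum.inr _, _ => 0

/-- contribution to the number of ones -/
noncomputable def cw (l : Fin L) : VarA n e L → Bool → GaloisField 2 (deg n e)
  | Sum.inl _, _ => 0
  | Sum.inr (l', _), b => if l' = l then (if b then 1 else 0) else 0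

theorem sum_ca (β : Coord (deg n e)) (t : Fin (pols n e)) (u : VarA n e L → Bool) :
    ∑ w, ca β t w (u w) = elt β (fun i => u (Sum.inl (t, Sum.inl i))) := by
  have h1 : ∀ p : Fin L × Fin n, ca β t (Sum.inr p : VarA n e L) (u (Sum.inr p)) = 0 :=
    fun _ => rfl
  rw [Fintype.sum_sum_type, sum_congr rfl fun i _ => h1 i, sum_const_zero, add_zero,
    Fintype.sum_prod_type, sum_eq_single t]
  · have h2 : ∀ q : Fin (4 ^ e) × Fin (deg n e),
        ca β t (Sum.inl (t, Sum.inr q) : VarA n e L) (u (Sum.inl (t, Sum.inr q))) = 0 :=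
      fun _ => rfl
    rw [Fintype.sum_sum_type, sum_congr rfl fun i _ => h2 i, sum_const_zero, add_zero]
    unfold elt
    refine sum_congr rfl fun i _ => ?_
    show (if t = t then _ else _) = _
    rw [if_pos rfl]
  · intro t' _ ht
    refine sum_eq_zero fun r _ => ?_
    rcases r with i | q
    · show (if t' = t then _ else _) = _
      rw [if_neg ht]
    · rfl
  · intro h
    exact absurd (mem_univ _) h

theorem sum_cy (l : Fin L) (a : GaloisField 2 (deg n e)) (u : VarA n e L → Bool) :
    ∑ w, cy l a w (u w) = val (fun j => u (Sum.inr (l, j))) a := by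
  have h0 : ∀ i : VarX n e, cy l a (Sum.inl i : VarA n e L) (u (Sum.inl i)) = 0 := fun i => rfl
  rw [Fintype.sum_sum_type, sum_congr rfl fun i _ => h0 i, sum_const_zero, zero_add,
    Fintype.sum_prod_type, sum_eq_single l]
  · unfold val
    refine sum_congr rfl fun j _ => ?_
    show (if l = l then _ else _) = _
    rw [if_pos rfl]
  · intro l' _ hl
    refine sum_eq_zero fun j _ => ?_
    show (if l' = l then _ else _) = _
    rw [if_neg hl]
  · intro h
    exact absurd (mem_univ _) h

theorem sum_cw (l : Fin L) (u : VarA n e L → Bool) :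
    ∑ w, cw (n := n) (e := e) l w (u w) =
      ∑ j, if u (Sum.inr (l, j)) then (1 : GaloisField 2 (deg n e)) else 0 := by
  have h0 : ∀ i : VarX n e, cw l (Sum.inl i : VarA n e L) (u (Sum.inl i)) = 0 := fun i => rfl
  rw [Fintype.sum_sum_type, sum_congr rfl fun i _ => h0 i, sum_const_zero, zero_add,
    Fintype.sum_prod_type, sum_eq_single l]
  · refine sum_congr rfl fun j _ => ?_
    show (if l = l then _ else _) = _
    rw [if_pos rfl]
  · intro l' _ hl
    refine sum_eq_zero fun j _ => ?_
    show (if l' = l then _ else _) = _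
    rw [if_neg hl]
  · intro h
    exact absurd (mem_univ _) h

theorem sum_cs (β : Coord (deg n e)) (t : Fin (pols n e)) (y : GaloisField 2 (deg n e))
    (u : VarA n e L → Bool) :
    ∑ w, cs β t y w (u w) =
      ∑ k : Fin (4 ^ e), elt β (fun i => u (Sum.inl (t, Sum.inr (k, i)))) * y ^ (k : ℕ) := by
  have h1 : ∀ p : Fin L × Fin n, cs β t y (Sum.inr p : VarA n e L) (u (Sum.inr p)) = 0 :=
    fun _ => rfl
  rw [Fintype.sum_sum_type, sum_congr rfl fun i _ => h1 i, sum_const_zero, add_zero,
    Fintype.sum_prod_type, sum_eq_single t]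
  · have h2 : ∀ q : Fin (deg n e),
        cs β t y (Sum.inl (t, Sum.inl q) : VarA n e L) (u (Sum.inl (t, Sum.inl q))) = 0 :=
      fun _ => rfl
    rw [Fintype.sum_sum_type, sum_congr rfl fun i _ => h2 i, sum_const_zero, zero_add,
      Fintype.sum_prod_type]
    refine sum_congr rfl fun k _ => ?_
    unfold elt
    rw [sum_mul]
    refine sum_congr rfl fun i _ => ?_
    show (if t = t then _ else _) = _
    rw [if_pos rfl]
    by_cases h : u (Sum.inl (t, Sum.inr (k, i))) = true
    · rw [if_pos h, if_pos h]
    · rw [if_neg h, if_neg h, zero_mul]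
  · intro t' _ ht
    refine sum_eq_zero fun r _ => ?_
    rcases r with i | q
    · rfl
    · show (if t' = t then _ else _) = _
      rw [if_neg ht]
  · intro h
    exact absurd (mem_univ _) h

theorem even_iff (y : Fin n → Bool) (h : ℕ) :
    evenWeight y = true ↔ (∑ j, if y j then (1 : GaloisField 2 h) else 0) = 0 := by
  have h1 : (∑ j, if y j = true then (1 : GaloisField 2 h) else 0) =
      (((univ.filter fun j => y j = true).card : ℕ) : GaloisField 2 h) := by
    rw [← sum_filter]
    simp
  rw [h1, CharP.cast_eq_zero_iff (GaloisField 2 h) 2, evenWeight, decide_eq_true_eq,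
    Nat.dvd_iff_mod_eq_zero]

theorem ca_ne {β : Coord (deg n e)} {t : Fin (pols n e)} {w : VarA n e L} {b : Bool}
    (h : ca β t w b ≠ 0) : ∃ t' i, w = Sum.inl (t', Sum.inl i) := by
  rcases w with ⟨t', i | q⟩ | p
  · exact ⟨t', i, rfl⟩
  · exact absurd rfl h
  · exact absurd rfl h

theorem cy_ne {l : Fin L} {a : GaloisField 2 (deg n e)} {w : VarA n e L} {b : Bool}
    (h : cy l a w b ≠ 0) : ∃ p, w = Sum.inr p := by
  rcases w with i | p
  · exact absurd rfl h
  · exact ⟨p, rfl⟩

theorem cs_ne {β : Coord (deg n e)} {t : Fin (pols n e)} {y : GaloisField 2 (deg n e)}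
    {w : VarA n e L} {b : Bool} (h : cs β t y w b ≠ 0) : ∃ t' q, w = Sum.inl (t', Sum.inr q) := by
  rcases w with ⟨t', i | q⟩ | p
  · exact absurd rfl h
  · exact ⟨t', q, rfl⟩
  · exact absurd rfl h

end

end MAUT

open MAUT in
theorem t_AUT : S_AUT := by
  intro n e L m β pos _ hp1 hp2 x
  rcases x with ⟨t, l⟩ | l
  · refine aut3 pos (ca β t) (cy l) (cs β t) _
      (fun s => ¬ ∀ i : Fin (Pool.Agent.URG.zs n e),
        β.repr s (Fin.castLE (Pool.Agent.URG.zs_le n e) i) = 0) ?_ ?_ ?_
    · intro w w' b b' y h h'
      obtain ⟨t', i, rfl⟩ := ca_ne h'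
      have h0 : cy l y w b ≠ 0 ∨ cy l 0 w b ≠ 0 := by
        rcases h with h | h
        · by_contra hc
          push Not at hc
          exact h (by rw [hc.1, hc.2])
        · exact Or.inl h
      rcases h0 with h0 | h0
      · obtain ⟨p, rfl⟩ := cy_ne h0
        exact hp1 t' i p
      · obtain ⟨p, rfl⟩ := cy_ne h0
        exact hp1 t' i p
    · intro w w' b b' y y' h h'
      obtain ⟨t', q, rfl⟩ := cs_ne h
      obtain ⟨p, rfl⟩ := cy_ne h'
      exact hp2 t' q p
    · intro v
      have e1 := sum_ca β t (fun w => v (pos w))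
      have e2 := sum_cy l (Pool.Agent.HPM.elt β fun i => v (pos (Sum.inl (t, Sum.inl i))))
        (fun w => v (pos w))
      have e3 := fun y => sum_cs β t y (fun w => v (pos w))
      rw [e1, e2, e3]
      exact Iff.rfl
  · refine aut3 pos (fun _ _ => 0) (fun _ _ _ => 0) (fun _ => cw l) _ (fun s => ¬ s = 0) ?_ ?_ ?_
    · intro w w' b b' y h h'
      exact absurd rfl h'
    · intro w w' b b' y y' h h'
      exact absurd rfl h'
    · intro v
      have e1 := sum_cw (n := n) (e := e) l (fun w => v (pos w))
      rw [e1]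
      show (¬ evenWeight _ = true) ↔ _
      rw [even_iff _ (deg n e)]

end Pool.Agent.TKN.ONE
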