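import Pool.Agent.TKN.Defs
import Pool.Agent.Lib_helper20.SRO.Defs

/-!
# Project TKN: statements, part 3 (the rectangle and the final contradiction)
-/

set_option autoImplicit false

open Finset
open scoped Classical

namespace Pool.Agent.TKN

open NCE
open Pool.Agent.Lib_helper20.SRO (RectFree Rigid flipAt)

/-- A probability space over `uni Z` with a random set `D` of bits which are undetermined given the
patterns outside `J1` (the conclusion of `S_D1`). -/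
structure DSp {n r : ℕ} (Z : Finset (Fin n → Bool)) (hZ : Z.Nonempty)
    (U : Fin r → (Fin n → Bool) → Finset (Fin n)) (V : Finset (Fin n)) (J1 : Finset (Fin r))
    {Ω' : Type} [Fintype Ω'] (P' : FP Ω') (π : Ω' → {z // z ∈ Z}) (D : Ω' → Finset (Fin n)) :
    Prop where
  law : SL P' π (uni Z hZ) id
  sub : ∀ q, P'.p q ≠ 0 → D q ⊆ V
  und : ∀ q, P'.p q ≠ 0 → ∀ v ∈ D q, ∃ ω' : {z // z ∈ Z},
    FJ Z U V J1ᶜ ω' = FJ Z U V J1ᶜ (π q) ∧ ω'.1 v ≠ (π q).1 v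
  det : ∀ q q', P'.p q ≠ 0 → P'.p q' ≠ 0 → FJ Z U V J1ᶜ (π q) = FJ Z U V J1ᶜ (π q') →
    D q = D q' → ∀ v, v ∉ D q → (π q).1 v = (π q').1 v
  low : ∑ v ∈ V, O (uni Z hZ) (FJ Z U V J1ᶜ) (bit Z v) ≤ ex P' (fun q => ((D q).card : ℝ))
  ent : Real.log 2 * ex P' (fun q => ((D q).card : ℝ)) -
      TC (uni Z hZ) (FJ Z U V J1ᶜ) V Subtype.val ≤
    CH P' (fun q => (FJ Z U V J1ᶜ (π q), D q)) (fun q => (π q).1)

/-- the level: `b / 2 < |D| ≤ b` -/
def Lev (b : ℝ) {n : ℕ} (D : Finset (Fin n)) : Prop := b / 2 < (D.card : ℝ) ∧ (D.card : ℝ) ≤ b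

section
variable {n r : ℕ} {Z : Finset (Fin n → Bool)} {Ω' : Type}

/-- the first side: `D` on the level, otherwise empty -/
noncomputable def S1 (b : ℝ) (D : Ω' → Finset (Fin n)) (q : Ω') : Finset (Fin n) :=
  if Lev b (D q) then D q else ∅

/-- the second side: what `J1` does not read in `S2` -/
noncomputable def T2 (U : Fin r → (Fin n → Bool) → Finset (Fin n)) (J1 : Finset (Fin r)) (b : ℝ)
    (E : Finset (Fin n → Bool)) (S2 : Finset (Fin n)) (π : Ω' → {z // z ∈ Z})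
    (D : Ω' → Finset (Fin n)) (q : Ω') : Finset (Fin n) :=
  if Lev b (D q) ∧ (π q).1 ∉ E then S2 \ UJ U J1 (π q).1 else ∅

/-- the class -/
noncomputable def KK (U : Fin r → (Fin n → Bool) → Finset (Fin n)) (J1 : Finset (Fin r)) (b : ℝ)
    (E : Finset (Fin n → Bool)) (S2 : Finset (Fin n)) (π : Ω' → {z // z ∈ Z})
    (D : Ω' → Finset (Fin n)) (q : Ω') :
    Finset (Fin n) × Finset (Fin n) × (Fin n → Option Bool) :=
  (S1 b D q, T2 U J1 b E S2 π D q, off (S1 b D q ∪ T2 U J1 b E S2 π D q) (π q).1)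

/-- the values of `X` in the class of `q` -/
noncomputable def vals [Fintype Ω'] (P' : FP Ω') {κ α : Type} (K : Ω' → κ) (X : Ω' → α) (q : Ω') :
    Finset α := (univ.filter fun q' => P'.p q' ≠ 0 ∧ K q' = K q).image X

end

/-- DSX (uses `S_D1`, given below as a hypothesis of this form).  Existence of `DSp`.
Proof: `S_D1` with `Ω = {z // z ∈ Z}`, `F = FJ Z U V J1ᶜ`, `z = val`. -/
def S_DSX : Prop := ∀ (n r : ℕ) (Z : Finset (Fin n → Bool)) (hZ : Z.Nonempty)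
  (U : Fin r → (Fin n → Bool) → Finset (Fin n)) (V : Finset (Fin n)) (J1 : Finset (Fin r)),
  ∃ (Ω' : Type) (_ : Fintype Ω') (P' : FP Ω') (π : Ω' → {z // z ∈ Z})
    (D : Ω' → Finset (Fin n)), DSp Z hZ U V J1 P' π D

/-- COV.  Every variable is read; `D` is read by `J1` only.
Proof: (1) if no `U j z` contains `v` then `flipAt z v` contains all the terms of `z`, so it is in
`Z` (`mix`), contradiction to `Rigid`.  (2) if `v ∈ D q` and `v ∈ U j (π q)` with `j ∉ J1` then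
`FJ Z U V J1ᶜ` determines the bit `v`: at `ω'` the component `j` is the same function, so
`pat .. v = some (z v)` for both; contradiction to `und`.  Then (3) by (1). -/
def S_COV : Prop := ∀ (n r w : ℕ) (Z : Finset (Fin n → Bool)) (hZ : Z.Nonempty)
  (U : Fin r → (Fin n → Bool) → Finset (Fin n)) (f : (Fin n → Bool) → Bool), Fam n r w Z U →
  (∀ z ∈ Z, f z = true) → Rigid f →
  (∀ z ∈ Z, ∀ v, ∃ j, v ∈ U j z) ∧
  ∀ (V : Finset (Fin n)) (J1 : Finset (Fin r)) (Ω' : Type) [Fintype Ω'] (P' : FP Ω')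
    (π : Ω' → {z // z ∈ Z}) (D : Ω' → Finset (Fin n)), DSp Z hZ U V J1 P' π D →
    ∀ q, P'.p q ≠ 0 → (∀ j, j ∉ J1 → Disjoint (D q) (U j (π q).1)) ∧
      D q ⊆ UJ U J1 (π q).1 ∩ V

/-- RCT (uses `S_COV`).  The rectangle.
Proof: let `(D1, D2, _)` be the class of `q`; `D1` and `D2` are disjoint (`D1 ⊆ UJ U J1 z`,
`D2 ⊆ S2 \ UJ U J1 z`).  If both sets of values have at least `M` elements apply `RectFree` with
`U = D1`, `X` = the values on `D1` (as words that are `false` outside), `Y` = the words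
`fun v => if v ∈ D1 then false else z' v` for `q'` in the class (they differ only in `D2`, and are
as many as the values on `D2`): for `a` from `q'`, `a'` from `q''` the word
`b = fun v => if v ∈ D1 then z' v else z'' v` is in `Z`: for `j ∈ J1` it agrees with `z'` on
`U j z'` (which is disjoint from `D2`; outside `D1 ∪ D2` all words of the class agree); for
`j ∉ J1` it agrees with `z''` on `U j z''` (disjoint from `D1`).  So `f b = true`. -/
def S_RCT : Prop := ∀ (n r w : ℕ) (Z : Finset (Fin n → Bool)) (hZ : Z.Nonempty)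
  (U : Fin r → (Fin n → Bool) → Finset (Fin n)) (f : (Fin n → Bool) → Bool) (M : ℕ),
  Fam n r w Z U → (∀ z ∈ Z, f z = true) → Rigid f → RectFree f M →
  ∀ (V : Finset (Fin n)) (J1 : Finset (Fin r)) (Ω' : Type) [Fintype Ω'] (P' : FP Ω')
    (π : Ω' → {z // z ∈ Z}) (D : Ω' → Finset (Fin n)), DSp Z hZ U V J1 P' π D →
  ∀ (b : ℝ) (E : Finset (Fin n → Bool)) (S2 : Finset (Fin n)) (q : Ω'), P'.p q ≠ 0 →
    M ≤ (vals P' (KK U J1 b E S2 π D) (fun q' => pat (S1 b D q') (π q').1) q).card →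
    (vals P' (KK U J1 b E S2 π D) (fun q' => pat (T2 U J1 b E S2 π D q') (π q').1) q).card < M

/-- UPP (uses `NCE.S_CNT` : `t_CNT t_GIB`).  Upper bound for the entropy of the first side.
Proof: CNT with `F k` = the values of `X` in the class `k`; at `q` its size is `≤ 2^|S1 q|`
(words supported in `S1 q`), it is `1` if `q` is not on the level (`S1 = ∅`), and on the level
`|S1 q| ≤ b`: `log card ≤ log M` if `card < M` (`1 ≤ M`), `≤ b log 2` otherwise. -/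
def S_UPP : Prop := ∀ (n r : ℕ) (Z : Finset (Fin n → Bool))
  (U : Fin r → (Fin n → Bool) → Finset (Fin n)) (J1 : Finset (Fin r)) (Ω' : Type) [Fintype Ω']
  (P' : FP Ω') (π : Ω' → {z // z ∈ Z}) (D : Ω' → Finset (Fin n)) (b : ℝ)
  (E : Finset (Fin n → Bool)) (S2 : Finset (Fin n)) (M : ℕ), 1 ≤ M → 0 ≤ b →
  CH P' (KK U J1 b E S2 π D) (fun q => pat (S1 b D q) (π q).1) ≤
    ex P' (fun q => if Lev b (D q) then Real.log M else 0) +
    b * Real.log 2 * ex P' (fun q => if Lev b (D q) ∧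
      M ≤ (vals P' (KK U J1 b E S2 π D) (fun q' => pat (S1 b D q') (π q').1) q).card
      then 1 else 0)

/-- LOW (uses `S_DTS`, `S_SBS`, `NCE.S_CNT`).  Lower bound for the entropy of the first side.
Proof: let `F = FJ Z U V J1ᶜ (π q)`, `Y = if Lev b (D q) then none else some z`,
`D2 = T2 ..`.  On the support `(F, D, D2, Y)` determines `KK`: on the level `z` outside `D` is a
function of `(F, D)` (`det`); off the level `Y` is `z`.  And `(F, D, D2, Y, pat S1 z)` determines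
`z`.  So `CH KK (pat S1 z) ≥ CH (F, D, D2, Y) (pat S1 z) = H (F, D, D2, Y, z) - H (F, D, D2, Y)
≥ H (F, D, z) - H (F, D) - CH (F, D) (D2, Y)`, and by CNT
`CH (F, D) (D2, Y) ≤ ex (if Lev then log |𝒟| else |D| log 2)`: given `(F, D)`, on the level
`(D2, Y)` has at most `|𝒟|` values, and off the level `D2 = ∅` and `Y` has at most `2^|D|` values
(`det`).  Finally `ent`. -/
def S_LOW : Prop := ∀ (n r : ℕ) (Z : Finset (Fin n → Bool)) (hZ : Z.Nonempty)
  (U : Fin r → (Fin n → Bool) → Finset (Fin n)) (V : Finset (Fin n)) (J1 : Finset (Fin r))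
  (Ω' : Type) [Fintype Ω'] (P' : FP Ω') (π : Ω' → {z // z ∈ Z}) (D : Ω' → Finset (Fin n)),
  DSp Z hZ U V J1 P' π D →
  ∀ (b : ℝ) (E : Finset (Fin n → Bool)) (S2 : Finset (Fin n)) (𝒟 : Finset (Finset (Fin n))),
  (∀ q, P'.p q ≠ 0 → Lev b (D q) → T2 U J1 b E S2 π D q ∈ 𝒟) →
  Real.log 2 * ex P' (fun q => ((S1 b D q).card : ℝ)) -
      TC (uni Z hZ) (FJ Z U V J1ᶜ) V Subtype.val -
      ex P' (fun q => if Lev b (D q) then Real.log 𝒟.card else 0) ≤
    CH P' (KK U J1 b E S2 π D) (fun q => pat (S1 b D q) (π q).1)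

/-- SUBS.  The number of small subsets.
Proof: `∑ i ≤ a N, N.choose i * a^i ≤ (1 + a)^N ≤ exp (a N)` and `a^i ≥ a^(a N)`; so the number is
`≤ exp (a N) * a^(- a N) = exp (N eta a)`. -/
def S_SUBS : Prop := ∀ (α : Type) (S : Finset α) (a : ℝ), 0 < a → a ≤ 1 →
  ((S.powerset.filter fun T => (T.card : ℝ) ≤ a * S.card).card : ℝ) ≤
    Real.exp (eta a * S.card)

/-- CTE (uses `S_COV`, `S_RCT`, `S_SUBS`).  The words in classes whose first side is large are few.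
Proof: for such a word `z ∉ E` choose `q` (`P'.p q ≠ 0`, `π q = z`, on the level, `M ≤` the number of
values).  `z` is determined by: `off S2 z` (`2^(n - |S2|)` values); `R = UJ U J1 z ∩ S2`, a
subset of `S2` of size `≤ α |S2|` (SUBS); `pat R z` (at most `2^(α |S2|)` values for given `R`);
`D q ⊆ V`, of size `≤ b ≤ β |V|` (SUBS); and the index of `pat (T2 q) z` in the set of the values of
the class, which has fewer than `M` elements (RCT; write the set as the image of `Fin M`, or use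
`Finset.equivFin`).  Indeed `T2 q = S2 \ R`, so `z` outside `T2 q` is known, hence also the class
`KK q = (D q, T2 q, off (D q ∪ T2 q) z)`.  Count (an injection into a product, or a bound for the
fibres). -/
def S_CTE : Prop := ∀ (n r w : ℕ) (Z : Finset (Fin n → Bool)) (hZ : Z.Nonempty)
  (U : Fin r → (Fin n → Bool) → Finset (Fin n)) (f : (Fin n → Bool) → Bool) (M : ℕ),
  Fam n r w Z U → (∀ z ∈ Z, f z = true) → Rigid f → RectFree f M →
  ∀ (V : Finset (Fin n)) (J1 : Finset (Fin r)) (Ω' : Type) [Fintype Ω'] (P' : FP Ω')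
    (π : Ω' → {z // z ∈ Z}) (D : Ω' → Finset (Fin n)), DSp Z hZ U V J1 P' π D →
  ∀ (b α β : ℝ) (E : Finset (Fin n → Bool)) (S2 : Finset (Fin n)), 0 < α → α ≤ 1 → 0 < β →
    β ≤ 1 → b ≤ β * V.card →
    (∀ z ∈ Z, z ∉ E → ((UJ U J1 z ∩ S2).card : ℝ) ≤ α * S2.card) →
    ((Z.filter fun z => z ∉ E ∧ ∃ q, P'.p q ≠ 0 ∧ (π q).1 = z ∧ Lev b (D q) ∧
      M ≤ (vals P' (KK U J1 b E S2 π D) (fun q' => pat (S1 b D q') (π q').1) q).card).card : ℝ) ≤
    Real.exp ((n - S2.card) * Real.log 2 + (eta α + α * Real.log 2) * S2.card + eta β * V.card) *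
      M

/-- LEV.  A good level.
Proof: levels `b_i = 2 ε m / 2^i`, `i = 0, 1, ...` while `b_i > μ m / 4`; they cover
`(μ m / 4, 2 ε m]`, their number is at most `log₂ (8 ε / μ) + 1 ≤ 4 (1 + log (1/μ))`, and
`ex (X; μ m / 4 < X ≤ 2 ε m) ≥ μ m - μ m / 4 - θ m ≥ μ m / 2`. -/
def S_LEV : Prop := ∀ (Ω' : Type) [Fintype Ω'] (P' : FP Ω') (X : Ω' → ℝ) (m μ ε θ : ℝ), 0 < m →
  0 < μ → μ ≤ 1 → 0 < ε → ε ≤ 1 / 2 → θ ≤ μ / 4 → (∀ q, P'.p q ≠ 0 → 0 ≤ X q ∧ X q ≤ m) →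
  μ * m ≤ ex P' X → ex P' (fun q => if 2 * ε * m < X q then 1 else 0) ≤ θ →
  ∃ b : ℝ, μ * m / 4 ≤ b ∧ b ≤ 2 * ε * m ∧
    μ * m / (8 * (1 + Real.log (1 / μ))) ≤
      ex P' (fun q => if b / 2 < X q ∧ X q ≤ b then X q else 0)

/-- CORE (uses `S_NUM`, `S_CHV`, `S_REC`, `S_START`, `S_DSX`, `S_COV`, `S_UPP`, `S_LOW`, `S_SUBS`,
`S_CTE`, `S_LEV`, `S_SMP`).  The core theorem.
Proof: NUM with `C = 10^4`: `r, m0, μ, ξ`; `ε = k m0 / r`; `l = 1 + log (1/μ)`;
`θ = μ / (1000 l)`, `ξ' = min (ξ / 8) (μ / (1000 l))`.  CHV gives `γ` and `V`, `m = |V| ≥ γ n`.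
`δ` small against `γ`, `μ`, `1/l` (`δ n ≤ c m`).  START with `d = δ n ≤ m / 10` and REC with
`t = ξ' m`, `κ = 4 k m` (divide by `m`), NUM: a set `J2` with `|J2| = r - m0` and
`∑ O ≥ μ m`; `J1 = J2ᶜ`, `|J1| w ≤ m0 w ≤ ε n`.  DSX: `DSp`.  `E1` = the `z` with
`2 ε m < |UJ U J1 z ∩ V|`, `|E1| ≤ θ |Z|`.  LEV for `X = |D|` (`X > 2 ε m` implies `z ∈ E1` by COV,
and the law of `π` is uniform): `b`.  `β = b / m ∈ [μ/4, 2 ε]`; `m2 = ⌈12 eta β m⌉ ≤ m` (`eta` is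
increasing on `(0, 1]`, `eta β ≤ eta (4 ε) ≤ 1/C`).  SMP on `S = V` with `W = Z \ E1`, `2 ε` in
place of `ε`: `S2 ⊆ V` with `|S2| = m2` and `E = E1 ∪ {z | 4 ε m2 < |UJ U J1 z ∩ S2|}` has
`|E| ≤ 2 θ |Z|` (for large `n`).  LOW with `𝒟` = the sets `S2 \ R`, `|R| ≤ 4 ε m2`, and `∅`:
`log |𝒟| ≤ eta (4 ε) m2 + log 2` (SUBS).  UPP, CTE with `α = 4 ε`: the last expectation of UPP is
at most `2 θ + exp (- (3/4) log 2 * m2 + 2 δ n) ≤ 3 θ` (as `eta α + α log 2 ≤ log 2 / 8`,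
`eta β m ≤ m2 / 12 ≤ (log 2 / 8) m2`).  With `Λ = P (Lev)`, `Y = ex |S1| ≥ Λ b / 2` and
`Y ≥ μ m / (8 l)`: `log 2 * Y ≤ ξ' m + Λ (eta (4 ε) m2 + log 2 + δ n) + 3 θ b log 2`, but
`Λ eta (4 ε) m2 ≤ (2 Y / b) eta (4 ε) (12 eta β m + 1) ≤ Y (24 eta (4 ε) (1 + log (4/μ)) + small)
≤ Y / 10`, and the other terms are `≤ Y / 10` each.  Contradiction. -/
def S_CORE : Prop := ∀ k : ℕ, 1 ≤ k → ∃ r : ℕ, 0 < r ∧ ∃ δ : ℝ, 0 < δ ∧ ∃ n0 : ℕ, ∀ n ≥ n0,
  ∀ (w : ℕ) (Z : Finset (Fin n → Bool)) (U : Fin r → (Fin n → Bool) → Finset (Fin n))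
    (f : (Fin n → Bool) → Bool) (M : ℕ), Fam n r w Z U → r * w ≤ k * n →
    (∀ z ∈ Z, f z = true) → Rigid f → RectFree f M → 1 ≤ M → (M : ℝ) ≤ Real.exp (δ * n) →
    (2 : ℝ) ^ n ≤ Real.exp (δ * n) * Z.card → False

end Pool.Agent.TKN
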