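import Pool.Agent.TKN.St5

/-!
# Project TKN/ONE: CLO (helper33), closure properties of the class `Aut`
-/

set_option autoImplicit false

namespace Pool.Agent.TKN.ONE

namespace MCLO

/-- (2) -/
theorem fold_bit {m : ℕ} (i : Fin m) (x : Fin m → Bool) (l : List (Fin m)) :
    ∀ s : Bool, l.foldl (fun (s : Bool) (j : Fin m) => if j = i then x j else s) s =
      if i ∈ l then x i else s := by
  induction l with
  | nil => intro s; simp
  | cons a l ih =>
    intro s
    rw [List.foldl_cons, ih]
    by_cases ha : a = i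
    · subst ha
      simp
    · have ha' : ¬ i = a := fun h => ha h.symm
      by_cases hl : i ∈ l <;> simp [ha, ha', hl]

/-- (3) -/
theorem fold_prod {m : ℕ} {V W : Type} (δ : Fin m → V → Bool → V) (ε : Fin m → W → Bool → W)
    (x : Fin m → Bool) (l : List (Fin m)) : ∀ (s : V) (t : W),
    l.foldl (fun (s : V × W) (j : Fin m) => (δ j s.1 (x j), ε j s.2 (x j))) (s, t) =
      (l.foldl (fun s j => δ j s (x j)) s, l.foldl (fun s j => ε j s (x j)) t) := by
  induction l with
  | nil => intro s t; rfl
  | cons a l ih =>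
    intro s t
    rw [List.foldl_cons, List.foldl_cons, List.foldl_cons, ih]

open Classical in
/-- (4): the transported step -/
noncomputable def tr {m : ℕ} {V V' : Type} (j : V → V') (δ : Fin m → V → Bool → V) (i : Fin m)
    (s : V') (b : Bool) : V' :=
  if h : ∃ t, j t = s then j (δ i h.choose b) else s

theorem tr_map {m : ℕ} {V V' : Type} {j : V → V'} (hj : Function.Injective j)
    (δ : Fin m → V → Bool → V) (i : Fin m) (t : V) (b : Bool) :
    tr j δ i (j t) b = j (δ i t b) := by
  have h : ∃ t', j t' = j t := ⟨t, rfl⟩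
  unfold tr
  rw [dif_pos h, hj h.choose_spec]

theorem fold_tr {m : ℕ} {V V' : Type} {j : V → V'} (hj : Function.Injective j)
    (δ : Fin m → V → Bool → V) (x : Fin m → Bool) (l : List (Fin m)) : ∀ s : V,
    l.foldl (fun s i => tr j δ i s (x i)) (j s) = j (l.foldl (fun s i => δ i s (x i)) s) := by
  induction l with
  | nil => intro s; rfl
  | cons a l ih =>
    intro s
    rw [List.foldl_cons, List.foldl_cons, tr_map hj, ih]

end MCLO

open MCLO in
/-- CLO -/
theorem t_CLO : S_CLO := by
  refine ⟨?_, ?_, ?_, ?_⟩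
  · intro m V hV Q
    obtain ⟨s⟩ := hV
    exact ⟨fun _ s _ => s, s, fun _ => Q, fun x => Iff.rfl⟩
  · intro m i Q
    refine ⟨fun j s b => if j = i then b else s, false, Q, fun x => ?_⟩
    have h : fold (fun (j : Fin m) (s b : Bool) => if j = i then b else s) false x = x i := by
      unfold fold
      rw [fold_bit i x (List.finRange m) false, if_pos (List.mem_finRange i)]
    rw [h]
  · intro m V W P Q R ⟨δ, s, acc, h⟩ ⟨ε, t, acc', h'⟩
    refine ⟨fun j s b => (δ j s.1 b, ε j s.2 b), (s, t), fun p => R (acc p.1) (acc' p.2),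
      fun x => ?_⟩
    have e : fold (fun (j : Fin m) (s : V × W) (b : Bool) => (δ j s.1 b, ε j s.2 b)) (s, t) x =
        (fold δ s x, fold ε t x) := fold_prod δ ε x (List.finRange m) s t
    rw [e]
    show R (P x) (Q x) ↔ R (acc (fold δ s x)) (acc' (fold ε t x))
    rw [propext (h x), propext (h' x)]
  · intro m V V' j P hj ⟨δ, s, acc, h⟩
    refine ⟨tr j δ, j s, fun v => ∃ t, j t = v ∧ acc t, fun x => ?_⟩
    have e : fold (tr j δ) (j s) x = j (fold δ s x) := fold_tr hj δ x (List.finRange m) s
    rw [e, h x]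
    constructor
    · intro ha
      exact ⟨_, rfl, ha⟩
    · rintro ⟨t, ht, ha⟩
      rwa [hj ht] at ha

end Pool.Agent.TKN.ONE
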