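import Pool.Agent.TKN.St5

/-!
# TKN/ONE: deterministic machines from automata (helper30)
-/

set_option autoImplicit false

open Finset

namespace Pool.Agent.TKN.ONE

open Pool.Agent.HPM (DecOs GMachs)

namespace MDEC

/-- the machine that simulates the automaton -/
def mach {m : ℕ} {V : Type} (hm : 0 < m) (δ : Fin m → V → Bool → V) (s : V) (acc : V → Prop) :
    GMachs 1 0 (Fin m) V where
  start := s
  query t _ := fun _ => if h : t < m then ⟨t, h⟩ else ⟨0, hm⟩
  next t v a _ := if h : t < m then δ ⟨t, h⟩ v (a 0) else v
  acc := acc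

theorem mach_state {m : ℕ} {V : Type} (hm : 0 < m) (δ : Fin m → V → Bool → V) (s : V)
    (acc : V → Prop) (x : Fin m → Bool) (c : ℕ → Fin 0 → Bool) (t : ℕ) (ht : t ≤ m) :
    (mach hm δ s acc).state x c t =
      ((List.finRange m).take t).foldl (fun s j => δ j s (x j)) s := by
  induction t with
  | zero => rfl
  | succ t ih =>
    have h1 : t < m := ht
    have h2 : t < (List.finRange m).length := by rw [List.length_finRange]; exact h1
    rw [List.take_succ_eq_append_getElem h2, List.foldl_append, ← ih h1.le]
    rw [List.getElem_finRange]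
    have h3 : (mach hm δ s acc).state x c (t + 1) = (mach hm δ s acc).next t
        ((mach hm δ s acc).state x c t)
        (fun i => x ((mach hm δ s acc).query t ((mach hm δ s acc).state x c t) i)) (c t) := rfl
    rw [h3]
    simp only [mach, h1, dif_pos, List.foldl_cons, List.foldl_nil]
    rfl

end MDEC

theorem t_DEC : S_DEC := by
  intro m V P hm ⟨δ, s, acc, h⟩
  refine ⟨MDEC.mach hm δ s acc, fun t v => ?_, fun x => ?_⟩
  · funext i
    show (if h : (t : ℕ) < m then (⟨t, h⟩ : Fin m) else ⟨0, hm⟩) = t
    rw [dif_pos t.2]
  · rw [h x, MDEC.mach_state hm δ s acc x _ m le_rfl]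
    have h1 : (List.finRange m).take m = List.finRange m := by
      rw [List.take_of_length_le]
      rw [List.length_finRange]
    rw [h1]
    rfl

end Pool.Agent.TKN.ONE
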