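import Pool.Agent.TKN.St5

/-!
# TKN/ONE, module LAY: layouts and bases exist
-/

set_option autoImplicit false

open Finset

namespace Pool.Agent.TKN.ONE

open Pool.Agent.URG (VarA deg pols)

namespace MLAY

/-- the position as a number -/
noncomputable def num {A B C D : Type} [Fintype A] [Fintype B] [Fintype C] [Fintype D] :
    (A × (B ⊕ C)) ⊕ D → ℕ
  | Sum.inl (a, Sum.inl b) => Fintype.equivFin (A × B) (a, b)
  | Sum.inr d => Fintype.card (A × B) + Fintype.equivFin D d
  | Sum.inl (a, Sum.inr c) => Fintype.card (A × B) + Fintype.card D +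
      Fintype.equivFin (A × C) (a, c)

variable {A B C D : Type} [Fintype A] [Fintype B] [Fintype C] [Fintype D]

lemma num_lt (w : (A × (B ⊕ C)) ⊕ D) : num w < Fintype.card ((A × (B ⊕ C)) ⊕ D) := by
  have hc : Fintype.card ((A × (B ⊕ C)) ⊕ D) = Fintype.card (A × B) + Fintype.card D +
      Fintype.card (A × C) := by
    simp only [Fintype.card_sum, Fintype.card_prod]
    ring
  rw [hc]
  rcases w with ⟨a, b | c⟩ | d
  · have := (Fintype.equivFin (A × B) (a, b)).2
    simp only [num]
    omega
  · have := (Fintype.equivFin (A × C) (a, c)).2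
    simp only [num]
    omega
  · have := (Fintype.equivFin D d).2
    simp only [num]
    omega

lemma num_inj : Function.Injective (num (A := A) (B := B) (C := C) (D := D)) := by
  rintro (⟨a, b | c⟩ | d) (⟨a', b' | c'⟩ | d') h
  · have h1 := (Fintype.equivFin (A × B)).injective (Fin.ext h)
    rw [Prod.mk.injEq] at h1
    rw [h1.1, h1.2]
  · have := (Fintype.equivFin (A × B) (a, b)).2
    simp only [num] at h
    omega
  · have := (Fintype.equivFin (A × B) (a, b)).2
    simp only [num] at h
    omega
  · have := (Fintype.equivFin (A × B) (a', b')).2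
    simp only [num] at h
    omega
  · simp only [num] at h
    have h1 := (Fintype.equivFin (A × C)).injective (Fin.ext (Nat.add_left_cancel h))
    rw [Prod.mk.injEq] at h1
    rw [h1.1, h1.2]
  · have := (Fintype.equivFin D d').2
    simp only [num] at h
    omega
  · have := (Fintype.equivFin (A × B) (a', b')).2
    simp only [num] at h
    omega
  · have := (Fintype.equivFin D d).2
    simp only [num] at h
    omega
  · simp only [num] at h
    have h1 := (Fintype.equivFin D).injective (Fin.ext (Nat.add_left_cancel h))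
    rw [h1]

lemma coord_nonempty (n e : ℕ) : Nonempty (Pool.Agent.HPM.Fn.Coord (deg n e)) := by
  have h0 : deg n e ≠ 0 := by
    have := Pool.Agent.URG.lg_pos n
    unfold deg
    omega
  exact ⟨Module.finBasisOfFinrankEq _ _ (GaloisField.finrank 2 h0)⟩

end MLAY

open MLAY

theorem t_LAY (hSIZ : S_SIZ) : S_LAY := by
  intro M hM
  obtain ⟨-, -, hsz⟩ := hSIZ M hM
  refine ⟨⟨fun e => (coord_nonempty _ _).some⟩, ⟨?_⟩⟩
  have hcard : ∀ e : Fin (blk M), Fintype.card (BV M (e.val + 1)) ≤ 2 * M := fun e =>
    (hsz (e.val + 1) (by omega) (by have := e.2; omega)).2.2.2.2.2.1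
  refine ⟨fun e w => ⟨num w, (num_lt w).trans_le (hcard e)⟩, ?_, ?_, ?_⟩
  · intro e x y h
    exact num_inj (congrArg Fin.val h)
  · intro e t i p
    rw [Fin.mk_lt_mk]
    have := (Fintype.equivFin (Fin (pols (pt M (e.val + 1)) (e.val + 1)) ×
      Fin (deg (pt M (e.val + 1)) (e.val + 1))) (t, i)).2
    simp only [num]
    omega
  · intro e t q p
    rw [Fin.mk_lt_mk]
    have := (Fintype.equivFin (Fin (cop (e.val + 1)) × Fin (pt M (e.val + 1))) p).2
    simp only [num]
    omega

end Pool.Agent.TKN.ONE
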