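import Pool.Agent.TKN.St5

/-!
# Project TKN, ONE: the sizes
-/

set_option autoImplicit false

open Finset

namespace Pool.Agent.TKN.ONE

open Pool.Agent.URG (VarA VarX deg lg pols)

namespace MSIZ

lemma le_lg {C n : ℕ} (h : 2 ^ C ≤ n) : C + 1 ≤ lg n := by
  have h1 : C ≤ Nat.log 2 n := Nat.le_log_of_pow_le (by norm_num) h
  unfold lg
  omega

lemma lg_le {n : ℕ} (hn : 2 ≤ n) : lg n ≤ n := by
  have h1 : Nat.log 2 n < n := Nat.log_lt_self 2 (by omega)
  unfold lg
  omega

lemma card_X (n e : ℕ) : Fintype.card (VarX n e) = pols n e * (deg n e * (4 ^ e + 1)) := by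
  rw [Fintype.card_prod, Fintype.card_sum, Fintype.card_prod, Fintype.card_fin, Fintype.card_fin,
    Fintype.card_fin]
  ring

lemma pols_lg {n : ℕ} (e : ℕ) (hn : 2 ≤ n) :
    pols n e * lg n ≤ (4 * (2 ^ e + 1) + 1) * n := by
  have h1 := lg_le hn
  have h2 : 4 * (2 ^ e + 1) * n / lg n * lg n ≤ 4 * (2 ^ e + 1) * n := Nat.div_mul_le_self _ _
  unfold pols
  rw [add_mul, one_mul, add_mul _ 1 n, one_mul]
  omega

lemma card_X_le {n e : ℕ} (hn : 2 ≤ n) (h : 4 * e ≤ lg n) :
    Fintype.card (VarX n e) + 1 ≤ cop e * n := by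
  rw [card_X]
  have h1 : deg n e ≤ 3 * lg n := by
    unfold deg
    omega
  have h2 := pols_lg e hn
  calc pols n e * (deg n e * (4 ^ e + 1)) + 1
      ≤ pols n e * (3 * lg n * (4 ^ e + 1)) + 1 * n := by
        refine Nat.add_le_add (Nat.mul_le_mul_left _ (Nat.mul_le_mul_right _ h1)) (by omega)
    _ = 3 * (4 ^ e + 1) * (pols n e * lg n) + 1 * n := by ring
    _ ≤ 3 * (4 ^ e + 1) * ((4 * (2 ^ e + 1) + 1) * n) + 1 * n := by gcongr
    _ = cop e * n := by
        unfold cop
        ring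

lemma cop_le (e : ℕ) : cop e ≤ 2 ^ (6 + 3 * e) := by
  have h1 : 1 ≤ 2 ^ e := Nat.one_le_two_pow
  have h4 : 4 ^ e = 2 ^ e * 2 ^ e := by
    rw [← mul_pow]
    norm_num
  have h8 : 2 ^ (6 + 3 * e) = 64 * (2 ^ e * (2 ^ e * 2 ^ e)) := by
    rw [pow_add, mul_comm 3 e, pow_mul]
    ring
  rw [h8]
  unfold cop
  rw [h4]
  generalize 2 ^ e = a at h1
  have h2 : a ≤ a * a := Nat.le_mul_of_pos_left a (by omega)
  have h3 : a * a ≤ a * (a * a) := Nat.le_mul_of_pos_left _ (by omega)
  have h5 : 3 * (a * a + 1) * (4 * (a + 1) + 1) + 1 =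
      12 * (a * (a * a)) + 15 * (a * a) + 12 * a + 16 := by ring
  rw [h5]
  omega

end MSIZ

theorem t_SIZ : S_SIZ := by
  intro M hM
  have hM2 : 2 ≤ M := le_trans (by norm_num) hM
  have hl : 57 ≤ lg M := MSIZ.le_lg hM
  have hlM : lg M ≤ M := MSIZ.lg_le hM2
  have hpow : 2 ^ (lg M - 1) ≤ M := by
    unfold lg
    rw [Nat.add_sub_cancel]
    exact Nat.pow_log_le_self 2 (by omega)
  refine ⟨?_, ?_, ?_⟩
  · unfold size blk
    omega
  · unfold blk
    omega
  · intro e he1 he
    have h8 : 8 * e ≤ lg M := by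
      unfold blk at he
      omega
    have hc := MSIZ.cop_le e
    have hc1 : 1 ≤ cop e := by
      unfold cop
      omega
    have hpt : 2 ^ (lg M - 7 - 3 * e) ≤ pt M e := by
      unfold pt
      rw [Nat.le_div_iff_mul_le (by omega)]
      calc 2 ^ (lg M - 7 - 3 * e) * cop e ≤ 2 ^ (lg M - 7 - 3 * e) * 2 ^ (6 + 3 * e) :=
            Nat.mul_le_mul_left _ hc
        _ = 2 ^ (lg M - 1) := by
            rw [← pow_add]
            congr 1
            omega
        _ ≤ M := hpow
    have hpt2 : 2 ≤ pt M e := by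
      refine le_trans ?_ hpt
      calc 2 = 2 ^ 1 := rfl
        _ ≤ 2 ^ (lg M - 7 - 3 * e) := Nat.pow_le_pow_right (by norm_num) (by omega)
    have hlg : 4 * e ≤ lg (pt M e) := by
      have := MSIZ.le_lg hpt
      omega
    have hcM : cop e ≤ M := by
      refine hc.trans (le_trans (Nat.pow_le_pow_right (by norm_num) ?_) hpow)
      omega
    have hmul : cop e * pt M e ≤ M := Nat.mul_div_le M (cop e)
    have hX := MSIZ.card_X_le (e := e) hpt2 hlg
    have hpols : pols (pt M e) e ≤ M := by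
      have h1 := MSIZ.pols_lg e hpt2
      have h2 : pols (pt M e) e ≤ pols (pt M e) e * lg (pt M e) := by
        apply Nat.le_mul_of_pos_right
        unfold lg
        omega
      have h3 : (4 * (2 ^ e + 1) + 1) * pt M e ≤ cop e * pt M e := by
        apply Nat.mul_le_mul_right
        unfold cop
        have h4 : 1 ≤ 3 * (4 ^ e + 1) := Nat.succ_le_of_lt (by positivity)
        have h5 := Nat.mul_le_mul_right (4 * (2 ^ e + 1) + 1) h4
        rw [one_mul] at h5
        exact h5.trans (Nat.le_succ _)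
      exact (h2.trans h1).trans (h3.trans hmul)
    have hle : lg (pt M e) ≤ lg M := by
      unfold lg pt
      exact Nat.add_le_add_right (Nat.log_mono_right (Nat.div_le_self _ _)) 1
    refine ⟨hpt2, hlg, hc1, hcM, hpols, ?_, ?_, ?_⟩
    · have h1 : Fintype.card (BV M e) = Fintype.card (VarX (pt M e) e) + cop e * pt M e := by
        have h2 : Fintype.card (Fin (cop e) × Fin (pt M e)) = cop e * pt M e := by
          rw [Fintype.card_prod, Fintype.card_fin, Fintype.card_fin]
        rw [Fintype.card_sum, h2]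
      omega
    · unfold deg
      omega
    · have h1 : M < cop e * (pt M e + 1) := Nat.lt_mul_div_succ M hc1
      have h2 : cop e * (pt M e + 1) = cop e * pt M e + cop e := by ring
      have h3 : cop e ≤ cop e * pt M e := Nat.le_mul_of_pos_right _ (by omega)
      rw [mul_comm (pt M e)]
      omega

end Pool.Agent.TKN.ONE
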