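import Pool.Agent.TKN.St3

/-!
# Project TKN: the number of small subsets
-/

set_option autoImplicit false

open Finset
open scoped Classical

namespace Pool.Agent.TKN

namespace MSUBS

/-- Weights of subsets. -/
lemma sum_pow (α : Type) (S : Finset α) (a : ℝ) :
    ∑ T ∈ S.powerset, a ^ T.card = (a + 1) ^ S.card := by
  rw [← Finset.sum_pow_mul_eq_add_pow a 1 S]
  simp

lemma exp_eq (a : ℝ) (N : ℕ) :
    Real.exp (eta a * N) * Real.exp (Real.log a * (a * N)) = Real.exp (a * N) := by
  rw [← Real.exp_add]
  congr 1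
  unfold eta
  rw [one_div, Real.log_inv]
  ring

end MSUBS

open MSUBS in
theorem t_SUBS : S_SUBS := by
  intro α S a ha ha1
  have h1 : ∀ T ∈ S.powerset.filter (fun T => (T.card : ℝ) ≤ a * S.card),
      Real.exp (Real.log a * (a * S.card)) ≤ a ^ T.card := by
    intro T hT
    have hT2 := (Finset.mem_filter.1 hT).2
    rw [← Real.rpow_natCast a T.card, Real.rpow_def_of_pos ha]
    exact Real.exp_le_exp.2 (mul_le_mul_of_nonpos_left hT2 (Real.log_nonpos ha.le ha1))
  have h2 : ((S.powerset.filter fun T => (T.card : ℝ) ≤ a * S.card).card : ℝ) *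
      Real.exp (Real.log a * (a * S.card)) ≤ Real.exp (a * S.card) := by
    calc ((S.powerset.filter fun T => (T.card : ℝ) ≤ a * S.card).card : ℝ) *
          Real.exp (Real.log a * (a * S.card))
        = ∑ T ∈ S.powerset.filter (fun T => (T.card : ℝ) ≤ a * S.card),
            Real.exp (Real.log a * (a * S.card)) := by
          rw [Finset.sum_const, nsmul_eq_mul]
      _ ≤ ∑ T ∈ S.powerset.filter (fun T => (T.card : ℝ) ≤ a * S.card), a ^ T.card :=
          Finset.sum_le_sum h1
      _ ≤ ∑ T ∈ S.powerset, a ^ T.card :=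
          Finset.sum_le_sum_of_subset_of_nonneg (Finset.filter_subset _ _)
            (fun _ _ _ => pow_nonneg ha.le _)
      _ = (a + 1) ^ S.card := sum_pow α S a
      _ ≤ (Real.exp a) ^ S.card :=
          pow_le_pow_left₀ (by linarith) (Real.add_one_le_exp a) _
      _ = Real.exp (a * S.card) := by
          rw [← Real.exp_nat_mul, mul_comm]
  rw [← exp_eq a] at h2
  exact le_of_mul_le_mul_right h2 (Real.exp_pos _)

end Pool.Agent.TKN
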