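import Pool.Agent.URG.Defs
import Pool.Agent.STK.Defs
import Pool.Agent.HPM.Sch

/-!
# Project TKN: statements, part 5 (ONE function for all `k`: the function, upper bounds)

The input has `N = blk M + 2 M` bits: `blk M` switches and `2 M` data bits. If the switch `e` is on,
the data bits are read as an input of `goodA` for the parameter `e + 1`, with `cop (e + 1)` points of
length `M / cop (e + 1)`; the value is `1` if all functions whose switch is on are `1`. All other
switches off: one of these functions. So one function contains the functions of all parameters, and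
loses only a constant factor in the number of variables for each of them.
-/

set_option autoImplicit false

open Finset

namespace Pool.Agent.TKN.ONE

open Pool.Agent.Lib_helper20.SRO (Agrees NBP Walk evenWeight)
open Pool.Agent.URG (VarA VarG VarX goodA goodF deg lg Pass pols)
open Pool.Agent.HPM (DecOs)
open Pool.Agent.HPM.Fn (Coord)

/-! ## The function -/

/-- the number of the points for the parameter `e` -/
def cop (e : ℕ) : ℕ := 3 * (4 ^ e + 1) * (4 * (2 ^ e + 1) + 1) + 1

/-- the length of the points for the parameter `e` -/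
def pt (M e : ℕ) : ℕ := M / cop e

/-- the number of the switches -/
def blk (M : ℕ) : ℕ := lg M / 8

/-- the number of the input bits -/
def size (M : ℕ) : ℕ := blk M + 2 * M

/-- the variables of the function with the parameter `e` -/
abbrev BV (M e : ℕ) : Type := VarA (pt M e) e (cop e)

/-- the bases of the fields -/
abbrev Bas (M : ℕ) : Type := ∀ e : Fin (blk M), Coord (deg (pt M (e.val + 1)) (e.val + 1))

/-- A layout of the variables of the functions in the data bits: for each function the elements `a`
of the tests come first, then the points, then the coefficients of the tests. -/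
structure Lay (M : ℕ) where
  pos : ∀ e : Fin (blk M), BV M (e.val + 1) → Fin (2 * M)
  inj : ∀ e, Function.Injective (pos e)
  lt₁ : ∀ e t i p, pos e (Sum.inl (t, Sum.inl i)) < pos e (Sum.inr p)
  lt₂ : ∀ e t q p, pos e (Sum.inr p) < pos e (Sum.inl (t, Sum.inr q))

/-- the switch `e` -/
def sw {M : ℕ} (e : Fin (blk M)) : Fin (size M) := Fin.castAdd (2 * M) e

/-- the data bit `j` -/
def dat {M : ℕ} (j : Fin (2 * M)) : Fin (size M) := Fin.natAdd (blk M) j

/-- the input of the function number `e` -/
def inp {M : ℕ} (ly : Lay M) (e : Fin (blk M)) (v : Fin (size M) → Bool) :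
    BV M (e.val + 1) → Bool := fun w => v (dat (ly.pos e w))

open Classical in
/-- the function without polarity bit -/
noncomputable def fA {M : ℕ} (β : Bas M) (ly : Lay M) (v : Fin (size M) → Bool) : Bool :=
  decide (∀ e : Fin (blk M), v (sw e) = true → goodA (β e) (inp ly e v) = true)

/-- The function with polarity bit, the last bit of the input: `fA` if it is `true`, the contrary if
it is `false`. -/
noncomputable def fF {M : ℕ} (β : Bas M) (ly : Lay M) (v : Fin (size M + 1) → Bool) : Bool :=
  decide (fA β ly (fun i => v i.castSucc) = true ↔ v (Fin.last _) = true)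

/-! ## Automata that read the input once from left to right -/

/-- the state after all bits have been read -/
def fold {m : ℕ} {V : Type} (δ : Fin m → V → Bool → V) (s : V) (x : Fin m → Bool) : V :=
  (List.finRange m).foldl (fun s j => δ j s (x j)) s

/-- The properties of the inputs that are decided by an automaton with the states `V` (it knows the
time), which reads the `m` bits once from left to right. -/
def Aut (m : ℕ) (V : Type) (P : (Fin m → Bool) → Prop) : Prop :=
  ∃ (δ : Fin m → V → Bool → V) (s : V) (acc : V → Prop), ∀ x, P x ↔ acc (fold δ s x)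

/-- CLO: closure properties.
Proof. (1) the constant automaton with the acceptance `fun _ => Q`; (2) `δ i' s b = if i' = i then b
else s`, start `false`, by induction on the list `List.finRange m` (it is duplicate free and contains
`i`: the fold over a duplicate free list from the state `s` is `x i` if `i` is in the list, `s` if
not); (3) the product automaton (fold of pairs = pair of folds); (4) for an injective `j : V → V'`:
`δ' i s b = if h : ∃ t, j t = s then j (δ i h.choose b) else s`. -/
def S_CLO : Prop :=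
  (∀ (m : ℕ) (V : Type) [Nonempty V] (Q : Prop), Aut m V fun _ => Q) ∧
  (∀ (m : ℕ) (i : Fin m) (Q : Bool → Prop), Aut m Bool fun x => Q (x i)) ∧
  (∀ (m : ℕ) (V W : Type) (P Q : (Fin m → Bool) → Prop) (R : Prop → Prop → Prop), Aut m V P →
    Aut m W Q → Aut m (V × W) fun x => R (P x) (Q x)) ∧
  ∀ (m : ℕ) (V V' : Type) (j : V → V') (P : (Fin m → Bool) → Prop), Function.Injective j →
    Aut m V P → Aut m V' P

/-- NBP: nondeterministic programs from automata.
Proof. Port of `URG.ROB.prg` (file Pool/Agent/URG/Rob.lean): guess `ω`, then simulate the automaton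
`ω`: nodes `Option (Option (Ω × Fin (m + 1) × V))`, edges `none → (ω, 0, s ω)`,
`(ω, i.castSucc, s) → (ω, i.succ, δ ω i s c)` with the test `(i, c)`, `(ω, last, s) → some none` if
`acc ω s`. The list of the variables that are tested from the node `(ω, i, s)` is a prefix of
`(List.finRange m).drop i`, and `List.finRange m` is sorted. -/
def S_NBP : Prop := ∀ (m : ℕ) (V Ω : Type) [Fintype V] [Fintype Ω] (P : Ω → (Fin m → Bool) → Prop),
  (∀ ω, Aut m V (P ω)) → ∃ (Q : Type) (_ : Fintype Q) (G : NBP (Fin m) Q),
    (∀ l, Walk G G.source G.sink l → (l.map Prod.fst).Pairwise (· < ·)) ∧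
    (∀ x, G.Accepts x ↔ ∃ ω, P ω x) ∧
    Fintype.card Q = Fintype.card Ω * ((m + 1) * Fintype.card V) + 2

/-- DEC: deterministic machines from automata.
Proof. `start = s`, `query t _ = fun _ => t` (for `t ≥ m` any bit, `0 < m`),
`next t v a _ = δ t v (a 0)` for `t < m`. The state after `t ≤ m` steps is the fold over
`(List.finRange m).take t`. -/
def S_DEC : Prop := ∀ (m : ℕ) (V : Type) (P : (Fin m → Bool) → Prop), 0 < m → Aut m V P →
  DecOs 1 (Fin m) V m (fun t _ => t) P

/-- The item `x` is bad: an item is a pair of a test and a point which does not pass the test, or a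
point with an odd number of ones. -/
def Bad {n e L : ℕ} (β : Coord (deg n e)) (x : (Fin (pols n e) × Fin L) ⊕ Fin L)
    (v : VarA n e L → Bool) : Prop :=
  match x with
  | Sum.inl (t, l) => ¬ Pass β (fun i => v (Sum.inl i)) t (fun j => v (Sum.inr (l, j)))
  | Sum.inr l => ¬ evenWeight (fun j => v (Sum.inr (l, j))) = true

/-- AUT: an automaton for one item.
Proof. For `Sum.inl (t, l)` the states are `(a, y, s)`, start `0`. If the position that is read is
`pos w` then: `w = inl (t, inl i)`: `a` becomes `a + (if b then β i else 0)`; `w = inr (l, j)`: `y`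
becomes `y + (if b then a ^ j else 0)`; `w = inl (t, inr (k, i))`: `s` becomes
`s + (if b then β i * y ^ k else 0)`; otherwise nothing changes. With
`a' = elt β (a-bits of t)`, `y' = val (point l) a'` the state after the positions `< p` is: `a` = the
sum over the `w = inl (t, inl i)` with `pos w < p`, `y` = the sum of `x_j a' ^ j` over the
`w = inr (l, j)` with `pos w < p`, `s` = the sum of `b β i y' ^ k` over the `w = inl (t, inr (k, i))`
with `pos w < p` (induction on `p`: when a bit of a point is read, all bits of `a` have been read, so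
`a = a'`; when a coefficient is read, all bits of the points have been read, so `y = y'`). At the end
`s = value β a q x` (`Finset.sum_mul`). For `Sum.inr l` the sum of the bits of the point in `ZMod 2`
(as in `URG.MEM.even_iff`, file Pool/Agent/URG/Mem.lean; in characteristic two the sum in the third
component is `0` or `1`). -/
def S_AUT : Prop := ∀ (n e L m : ℕ) (β : Coord (deg n e)) (pos : VarA n e L → Fin m),
  Function.Injective pos →
  (∀ t i p, pos (Sum.inl (t, Sum.inl i)) < pos (Sum.inr p)) →
  (∀ t q p, pos (Sum.inr p) < pos (Sum.inl (t, Sum.inr q))) →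
  ∀ x : (Fin (pols n e) × Fin L) ⊕ Fin L,
    Aut m (GaloisField 2 (deg n e) × GaloisField 2 (deg n e) × GaloisField 2 (deg n e))
      (fun v => Bad β x (fun w => v (pos w)))

/-! ## Sizes -/

/-- SIZ: the sizes.
Proof. `cop e ≤ 2 ^ (6 + 3 e)` (as `3 (4^e + 1) (4 (2^e + 1) + 1) + 1 ≤ 3 · 2 · 4^e · 9 · 2^e + 1`).
`8 e ≤ lg M`, `57 ≤ lg M`, `2 ^ (lg M - 1) ≤ M < 2 ^ lg M`. So `2 (cop e - 1) ≤ M`,
`M / cop e ≥ 2 ^ (lg M - 7 - 3 e)`, `4 e ≤ lg M - 6 - 3 e`.
`card (BV M e) = card (VarX (pt M e) e) + cop e * pt M e` and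
`card (VarX n e) + 1 ≤ cop e * n` (`URG.card_X_le`, file Pool/Agent/URG/Nume.lean, with `dd = cop`;
the proof there may be copied), so `card (BV M e) ≤ 2 (pt M e * cop e) ≤ 2 M`.
`deg (pt M e) e = 2 lg (pt M e) + 4 e ≤ 3 lg M`. `pols n e * lg n ≤ (4 (2^e + 1) + 1) n ≤ cop e * n ≤ M`
(`URG.pols_lg`). -/
def S_SIZ : Prop := ∀ M : ℕ, 2 ^ 56 ≤ M → (2 * M ≤ size M ∧ size M + 1 ≤ 3 * M) ∧ 1 ≤ blk M ∧
  ∀ e : ℕ, 1 ≤ e → e ≤ blk M → 2 ≤ pt M e ∧ 4 * e ≤ lg (pt M e) ∧ 1 ≤ cop e ∧ cop e ≤ M ∧
    pols (pt M e) e ≤ M ∧ Fintype.card (BV M e) ≤ 2 * M ∧ deg (pt M e) e ≤ 3 * lg M ∧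
    M ≤ 2 * (pt M e * cop e)

/-- LAY (uses `S_SIZ`): layouts exist.
Proof. The type `BV M e` is `(A × (Fin h ⊕ (Fin (4^e) × Fin h))) ⊕ (Fin L × Fin n)`, `A = Fin (pols ..)`.
Let `na = card (A × Fin h)`, `np = card (Fin L × Fin n)`, `nc = card (A × Fin (4^e) × Fin h)`, with
`na + np + nc = card (BV M e) ≤ 2 M`; the elements `a` get the positions `< na` (`Fintype.equivFin`),
the points the positions `na + i`, the coefficients the positions `na + np + i`. For the bases:
`GaloisField 2 h`, `h ≠ 0`, has dimension `h` (`URG.coord_nonempty` in Pool/Agent/URG, or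
`Module.finBasisOfFinrankEq` with `GaloisField.finrank`). -/
def S_LAY : Prop := ∀ M : ℕ, 2 ^ 56 ≤ M → Nonempty (Bas M) ∧ Nonempty (Lay M)

/-! ## Upper bounds -/

/-- UPA (uses `S_CLO`, `S_NBP`, `S_AUT`, `S_SIZ`): the complement of `fA` is easy.
Proof. `Ω = Σ e : Fin (blk M), (Fin (pols (pt M (e+1)) (e+1)) × Fin (cop (e+1))) ⊕ Fin (cop (e+1))`,
`P (e, x) v = (v (sw e) = true ∧ Bad (β e) x (inp ly e v))`, `V = Fin (2 ^ (9 * lg M + 1))` (by `S_CLO`
(2), (3), (4) from `S_AUT` for the positions `fun w => dat (ly.pos e w)`; the field has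
`2 ^ deg` elements, `deg ≤ 3 lg M`). `fA v` is false iff `P ω v` for some `ω` (`goodA`, `Good`).
`|Ω| ≤ blk M * (M * M + M)`, `size M + 1 ≤ 3 M`, `2 ^ (9 * lg M + 1) ≤ 2 * (2 M) ^ 9`, so
`size M ^ 24` is more than enough. -/
def S_UPA : Prop := ∀ M : ℕ, 2 ^ 56 ≤ M → ∀ (β : Bas M) (ly : Lay M),
  ∃ (Q : Type) (_ : Fintype Q) (G : NBP (Fin (size M)) Q),
    (∀ l, Walk G G.source G.sink l → (l.map Prod.fst).Pairwise (· < ·)) ∧
    G.Computes (fun v => !fA β ly v) ∧ Fintype.card Q ≤ size M ^ 24

/-- UPF (uses `S_CLO`, `S_DEC`, `S_AUT`, `S_SIZ`): `fF` is in PP mode of automata.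
Proof. As in `URG.t_ppu` (file Pool/Agent/URG/Ppu.lean), with `HPM.SCH.inPP_of_count`. `Ω`, `P` as in
UPA (for `fun i => v i.castSucc`), `K = card Ω ≥ 1`. The members: `P ω v ↔ v last = false` for
`ω : Ω`, and `K - 1` further members `v last = false`; threshold `R = K - 1`. If `v last = true`:
`fF v` iff no `P ω v` holds iff all `K` members accept. If `v last = false`: `fF v` iff some `P ω v`
holds iff more than `K - 1` members accept. `V = Fin (2 ^ (9 * lg M + 2))`. -/
def S_UPF : Prop := ∀ M : ℕ, 2 ^ 56 ≤ M → ∀ (β : Bas M) (ly : Lay M),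
  ∃ (V : Type) (_ : Fintype V) (w : ℕ), Fintype.card V ≤ size M ^ 24 ∧ 2 ^ w ≤ size M ^ 24 ∧
    UM.InPP (DecOs 1 (Fin (size M + 1)) V (size M + 1) (fun t _ => t)) w
      (fun v => fF β ly v = true)

end Pool.Agent.TKN.ONE
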