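import Pool.Agent.TKN.TwoDefs

/-!
# Project TKQ: superlinear lengths

From lower bounds for the length `k N` with `c = 1 / 2 ^ ((k + 1) ^ B)` to lower bounds
`2 ^ (N ^ (1 - ε))` for the length `N (log N) ^ (1 / (2 B + 2))`.
-/

set_option autoImplicit false

namespace Pool.Agent.TKN.TWO

open Pool.Agent.Lib_helper20.SRO (Agrees)
open Pool.Agent.CFT (FP)
open Pool.Agent.STK (Prog)
open Pool.Agent.TKN (TimeSR TimeFR)
open Pool.Agent.TKN.ONE (HardR)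

lemma timeSR_mono {V Γ N : Type} {k : ℕ} {G : Prog V k Γ N} {s T T' : ℕ} (h : TimeSR G s T)
    (hT : T ≤ T') : TimeSR G s T' := fun b hb => by
  obtain ⟨l, h1, h2, R, h3, h4⟩ := h b hb
  exact ⟨l, h1, h2, R, h3, h4.trans hT⟩

lemma timeFR_mono {V N : Type} {G : FP V N} {s T T' : ℕ} (h : TimeFR G s T)
    (hT : T ≤ T') : TimeFR G s T' := fun b hb => by
  obtain ⟨l, h1, h2, R, h3, h4⟩ := h b hb
  exact ⟨l, h1, h2, R, h3, h4.trans hT⟩

lemma long_of_hard {k N s T : ℕ} {c b : ℝ} {f : (Fin N → Bool) → Bool} (h : HardR k c N f)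
    (hs : (s : ℝ) ≤ c * N) (hT : T ≤ k * N) (hb : b ≤ c * N) : LongR N s T b f := by
  refine ⟨fun Γ Q _ G h1 h2 h3 => ?_, fun Q _ G h1 h2 h3 => ?_⟩
  · exact (Real.rpow_le_rpow_of_exponent_le (by norm_num) hb).trans
      (h.1 Γ Q G s hs h1 (timeSR_mono h2 hT) h3)
  · exact (Real.rpow_le_rpow_of_exponent_le (by norm_num) hb).trans
      (h.2 Q G s hs h1 (timeFR_mono h2 hT) h3)

/-- The numbers. -/
lemma numbers (B : ℕ) (ε : ℝ) (hε : 0 < ε) : ∃ N0 : ℕ, ∀ N M : ℕ, N0 ≤ N → N ≤ 3 * M →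
    ∃ k : ℕ, 1 ≤ k ∧ Real.log N ^ (1 / (2 * B + 2) : ℝ) ≤ k ∧ 2 ^ ((k + 1) ^ B) ≤ M ∧
      (N : ℝ) ^ (1 - ε) ≤ 1 / 2 ^ ((k + 1) ^ B) * N := by
  -- δ = min ε (1/2), and N0 with log N ≥ (3 ^ B / δ) ^ 2 and log N ≥ 4
  set δ : ℝ := min ε (1 / 2) with hδ
  have hδ0 : 0 < δ := lt_min hε (by norm_num)
  have hδ1 : δ ≤ ε := min_le_left _ _
  have hδ2 : δ ≤ 1 / 2 := min_le_right _ _
  set C : ℝ := max ((3 ^ B / δ) ^ 2) 4 with hC
  refine ⟨⌈Real.exp C⌉₊, fun N M hN hM => ?_⟩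
  have hN1 : Real.exp C ≤ N := (Nat.le_ceil _).trans (by exact_mod_cast hN)
  have hNpos : (0 : ℝ) < N := (Real.exp_pos C).trans_le hN1
  have hL : C ≤ Real.log N := by
    rw [Real.le_log_iff_exp_le hNpos]
    exact hN1
  set L : ℝ := Real.log N with hLdef
  have hL4 : 4 ≤ L := (le_max_right _ _).trans hL
  have hLs : (3 ^ B / δ) ^ 2 ≤ L := (le_max_left _ _).trans hL
  have hL0 : 0 ≤ L := by linarith
  have hL1 : 1 ≤ L := by linarith
  set a : ℝ := 1 / (2 * B + 2) with ha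
  have ha0 : 0 < a := by positivity
  have hLa : 1 ≤ L ^ a := Real.one_le_rpow hL1 ha0.le
  refine ⟨⌈L ^ a⌉₊, ?_, Nat.le_ceil _, ?_⟩
  · exact Nat.one_le_iff_ne_zero.2 (by
      rw [Ne, Nat.ceil_eq_zero]
      push Not
      linarith)
  set k : ℕ := ⌈L ^ a⌉₊ with hk
  have hk3 : ((k + 1 : ℕ) : ℝ) ≤ 3 * L ^ a := by
    have := (Nat.ceil_lt_add_one (by linarith : (0 : ℝ) ≤ L ^ a)).le
    push_cast
    linarith
  have hkB : (((k + 1) ^ B : ℕ) : ℝ) ≤ 3 ^ B * Real.sqrt L := by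
    push_cast
    calc ((k : ℝ) + 1) ^ B ≤ (3 * L ^ a) ^ B := by
          apply pow_le_pow_left₀ (by positivity)
          exact_mod_cast hk3
      _ = 3 ^ B * L ^ (a * B) := by
          rw [mul_pow, ← Real.rpow_natCast (L ^ a) B, ← Real.rpow_mul hL0]
      _ ≤ 3 ^ B * Real.sqrt L := by
          rw [Real.sqrt_eq_rpow]
          apply mul_le_mul_of_nonneg_left _ (by positivity)
          apply Real.rpow_le_rpow_of_exponent_le hL1
          rw [ha, div_mul_eq_mul_div, one_mul, div_le_div_iff₀ (by positivity) (by norm_num)]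
          nlinarith
  have hsq : 3 ^ B * Real.sqrt L ≤ δ * L := by
    have h1 : 3 ^ B / δ ≤ Real.sqrt L := by
      apply Real.le_sqrt_of_sq_le hLs
    have h2 : Real.sqrt L * Real.sqrt L = L := Real.mul_self_sqrt hL0
    rw [div_le_iff₀ hδ0] at h1
    calc 3 ^ B * Real.sqrt L ≤ Real.sqrt L * δ * Real.sqrt L :=
          mul_le_mul_of_nonneg_right h1 (Real.sqrt_nonneg _)
      _ = δ * L := by rw [mul_right_comm, h2, mul_comm]
  -- 2 ^ ((k+1)^B) ≤ N ^ δ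
  have hpow : (2 : ℝ) ^ ((k + 1) ^ B) ≤ (N : ℝ) ^ δ := by
    rw [← Real.rpow_natCast 2 ((k + 1) ^ B), Real.rpow_def_of_pos (by norm_num : (0 : ℝ) < 2),
      Real.rpow_def_of_pos hNpos]
    apply Real.exp_le_exp.2
    have hlog2 : Real.log 2 ≤ 1 := by
      have := Real.log_two_lt_d9
      linarith
    calc Real.log 2 * (((k + 1) ^ B : ℕ) : ℝ) ≤ 1 * (((k + 1) ^ B : ℕ) : ℝ) :=
          mul_le_mul_of_nonneg_right hlog2 (by positivity)
      _ ≤ L * δ := by rw [one_mul]; linarith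
  have hNδ : 0 < (N : ℝ) ^ δ := Real.rpow_pos_of_pos hNpos _
  have hN1' : (1 : ℝ) ≤ N := by
    have : (1 : ℝ) ≤ Real.exp C := Real.one_le_exp ((by norm_num : (0 : ℝ) ≤ 4).trans (le_max_right _ _))
    linarith
  constructor
  · -- M ≥ N / 3 ≥ N ^ δ
    have h1 : (N : ℝ) ^ δ ≤ N / 3 := by
      have h2 : (N : ℝ) ^ δ ≤ (N : ℝ) ^ (1 / 2 : ℝ) :=
        Real.rpow_le_rpow_of_exponent_le hN1' hδ2
      have h3 : (N : ℝ) ^ (1 / 2 : ℝ) * (N : ℝ) ^ (1 / 2 : ℝ) = N := by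
        rw [← Real.rpow_add hNpos]
        norm_num
      have h4 : (3 : ℝ) ≤ (N : ℝ) ^ (1 / 2 : ℝ) := by
        rw [Real.rpow_def_of_pos hNpos]
        have h5 : (2 : ℝ) ≤ L * (1 / 2) := by linarith
        have h6 : (3 : ℝ) ≤ Real.exp 2 := by
          have := Real.add_one_le_exp (2 : ℝ)
          linarith
        exact h6.trans (Real.exp_le_exp.2 h5)
      have h5 : 0 ≤ (N : ℝ) ^ (1 / 2 : ℝ) := by linarith
      nlinarith
    have h2 : (N : ℝ) ≤ 3 * M := by exact_mod_cast hM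
    have h3 : (2 : ℝ) ^ ((k + 1) ^ B) ≤ M := by linarith
    exact_mod_cast h3
  · have h1 : (N : ℝ) ^ (1 - ε) ≤ (N : ℝ) ^ (1 - δ) :=
      Real.rpow_le_rpow_of_exponent_le hN1' (by linarith)
    refine h1.trans ?_
    rw [Real.rpow_sub hNpos, Real.rpow_one, one_div, mul_comm, ← div_eq_mul_inv]
    exact div_le_div_of_nonneg_left hNpos.le (by positivity) hpow

/-- **Superlinear lengths.** -/
theorem longR {sz : ℕ → ℕ} (B : ℕ) (ε : ℝ) (hε : 0 < ε) : ∃ N0 : ℕ, ∀ M : ℕ,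
    N0 ≤ sz M → sz M ≤ 3 * M → ∀ f : (Fin (sz M) → Bool) → Bool,
    (∀ k : ℕ, 1 ≤ k → 2 ^ ((k + 1) ^ B) ≤ M → HardR k (1 / 2 ^ ((k + 1) ^ B)) (sz M) f) →
    ∀ s T : ℕ, (s : ℝ) ≤ (sz M : ℝ) ^ (1 - ε) →
      (T : ℝ) ≤ sz M * Real.log (sz M) ^ (1 / (2 * B + 2) : ℝ) →
      LongR (sz M) s T ((sz M : ℝ) ^ (1 - ε)) f := by
  obtain ⟨N0, h0⟩ := numbers B ε hε
  refine ⟨N0, fun M h1 h2 f hf s T hs hT => ?_⟩
  obtain ⟨k, hk1, hk2, hk3, hk4⟩ := h0 (sz M) M h1 h2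
  have hT' : (T : ℝ) ≤ ((k * sz M : ℕ) : ℝ) := by
    push_cast
    rw [mul_comm (k : ℝ)]
    exact hT.trans (mul_le_mul_of_nonneg_left hk2 (Nat.cast_nonneg _))
  exact long_of_hard (hf k hk1 hk3) (hs.trans hk4) (by exact_mod_cast hT') hk4

end Pool.Agent.TKN.TWO
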