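import Pool.Agent.TKN.St5

/-!
# TKN/ONE: the function itself is easy for deterministic oblivious machines (helper98)

`fA` is decided item by item: the input is read once for every item, by the automaton of the item.
-/

set_option autoImplicit false

open Finset

namespace Pool.Agent.TKN.ONE

open Pool.Agent.Lib_helper20.SRO (evenWeight)
open Pool.Agent.URG (VarA VarX goodA Good deg lg Pass pols)
open Pool.Agent.HPM (DecOs GMachs)
open Pool.Agent.HPM.Fn (Coord)

/-- DTA (uses `S_CLO`, `S_AUT`, `S_SIZ`): `fA` is decided by a deterministic machine with polynomially many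
states (it knows the time) in polynomial time; it reads the input again and again from left to right. -/
def S_DTA : Prop := ∀ M : ℕ, 2 ^ 56 ≤ M → ∀ (β : Bas M) (ly : Lay M),
  ∃ (V : Type) (_ : Fintype V) (T : ℕ) (σ : Fin T → Fin 1 → Fin (size M)),
    Fintype.card V ≤ size M ^ 24 ∧ T ≤ size M ^ 24 ∧
    (∀ (t t' : Fin T), (t' : ℕ) = t + 1 →
      (σ t' 0 : ℕ) = σ t 0 + 1 ∨ (σ t 0 + 1 = size M ∧ (σ t' 0 : ℕ) = 0)) ∧
    DecOs 1 (Fin (size M)) V T σ (fun v => fA β ly v = true)

namespace MDTA

section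
variable {m K : ℕ} {V : Type}

open Classical in
/-- one machine that runs `K` automata one after the other -/
noncomputable def mach (hm : 0 < m) (v₀ : V) (δ : ℕ → Fin m → V → Bool → V) (s : ℕ → V)
    (acc : ℕ → V → Prop) : GMachs 1 0 (Fin m) (Bool × V) where
  start := (true, v₀)
  query t _ := fun _ => ⟨t % m, Nat.mod_lt t hm⟩
  next t v a _ :=
    (if t % m + 1 = m then
        v.1 && decide (acc (t / m) (δ (t / m) ⟨t % m, Nat.mod_lt t hm⟩
          (if t % m = 0 then s (t / m) else v.2) (a 0)))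
      else v.1,
      δ (t / m) ⟨t % m, Nat.mod_lt t hm⟩ (if t % m = 0 then s (t / m) else v.2) (a 0))
  acc v := v.1 = true

/-- the invariant -/
theorem inv (hm : 0 < m) (v₀ : V) (δ : ℕ → Fin m → V → Bool → V) (s : ℕ → V)
    (acc : ℕ → V → Prop) (x : Fin m → Bool) (c : ℕ → Fin 0 → Bool) (t : ℕ) :
    ((((mach hm v₀ δ s acc).state x c t).1 = true) ↔
        ∀ ω < t / m, acc ω (fold (δ ω) (s ω) x)) ∧
      (t % m ≠ 0 → ((mach hm v₀ δ s acc).state x c t).2 =
        ((List.finRange m).take (t % m)).foldl (fun s j => δ (t / m) j s (x j)) (s (t / m))) := by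
  classical
  induction t with
  | zero =>
    refine ⟨?_, fun h => absurd (Nat.zero_mod m) h⟩
    rw [Nat.zero_div]
    refine ⟨fun _ ω h => absurd h (Nat.not_lt_zero ω), fun _ => rfl⟩
  | succ t ih =>
    obtain ⟨ih1, ih2⟩ := ih
    have hi : t % m < m := Nat.mod_lt t hm
    have hlen : t % m < (List.finRange m).length := by rw [List.length_finRange]; exact hi
    have hcur : (if t % m = 0 then s (t / m) else ((mach hm v₀ δ s acc).state x c t).2) =
        ((List.finRange m).take (t % m)).foldl (fun s j => δ (t / m) j s (x j)) (s (t / m)) := by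
      split_ifs with h
      · rw [h, List.take_zero]
        rfl
      · exact ih2 h
    have hnew : δ (t / m) ⟨t % m, hi⟩
        (if t % m = 0 then s (t / m) else ((mach hm v₀ δ s acc).state x c t).2)
        (x ⟨t % m, hi⟩) =
        ((List.finRange m).take (t % m + 1)).foldl (fun s j => δ (t / m) j s (x j)) (s (t / m)) := by
      rw [hcur, List.take_succ_eq_append_getElem hlen, List.foldl_append, List.getElem_finRange]
      simp only [List.foldl_cons, List.foldl_nil]
      rfl
    have h1 : ((mach hm v₀ δ s acc).state x c (t + 1)).1 =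
        if t % m + 1 = m then ((mach hm v₀ δ s acc).state x c t).1 &&
          decide (acc (t / m) (δ (t / m) ⟨t % m, hi⟩
            (if t % m = 0 then s (t / m) else ((mach hm v₀ δ s acc).state x c t).2)
            (x ⟨t % m, hi⟩)))
        else ((mach hm v₀ δ s acc).state x c t).1 := rfl
    have h2 : ((mach hm v₀ δ s acc).state x c (t + 1)).2 = δ (t / m) ⟨t % m, hi⟩
        (if t % m = 0 then s (t / m) else ((mach hm v₀ δ s acc).state x c t).2)
        (x ⟨t % m, hi⟩) := rfl
    rw [h1, h2, hnew]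
    by_cases hend : t % m + 1 = m
    · have hdiv : (t + 1) / m = t / m + 1 := by
        have h3 : t + 1 = m * (t / m + 1) := by
          have h4 := Nat.div_add_mod t m
          rw [mul_add, mul_one]
          omega
        rw [h3]
        exact Nat.mul_div_cancel_left _ hm
      have hmod : (t + 1) % m = 0 := by
        have h3 : t + 1 = m * (t / m + 1) := by
          have h4 := Nat.div_add_mod t m
          rw [mul_add, mul_one]
          omega
        rw [h3]
        exact Nat.mul_mod_right _ _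
      refine ⟨?_, fun h => absurd hmod h⟩
      rw [if_pos hend, Bool.and_eq_true, ih1, decide_eq_true_eq, hdiv, hend]
      have h5 : (List.finRange m).take m = List.finRange m := by
        rw [List.take_of_length_le]
        rw [List.length_finRange]
      rw [h5]
      constructor
      · rintro ⟨h6, h7⟩ ω hω
        rcases Nat.lt_succ_iff_lt_or_eq.1 hω with h8 | h8
        · exact h6 ω h8
        · rw [h8]
          exact h7
      · intro h6
        exact ⟨fun ω hω => h6 ω (Nat.lt_succ_of_lt hω), h6 _ (Nat.lt_succ_self _)⟩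
    · have hlt : t % m + 1 < m := by omega
      have h3 : t + 1 = m * (t / m) + (t % m + 1) := by
        have h4 := Nat.div_add_mod t m
        omega
      have hdiv : (t + 1) / m = t / m := by
        rw [h3, Nat.mul_add_div hm, Nat.div_eq_of_lt hlt, add_zero]
      have hmod : (t + 1) % m = t % m + 1 := by
        conv_lhs => rw [h3]
        rw [Nat.mul_add_mod, Nat.mod_eq_of_lt hlt]
      rw [if_neg hend, hdiv, hmod]
      exact ⟨ih1, fun _ => rfl⟩

/-- the conjunction of `K` automata -/
theorem many (hm : 0 < m) [Nonempty V] (P : Fin K → (Fin m → Bool) → Prop)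
    (h : ∀ ω, Aut m V (P ω)) :
    DecOs 1 (Fin m) (Bool × V) (K * m) (fun t _ => ⟨t % m, Nat.mod_lt t hm⟩)
      (fun x => ∀ ω, P ω x) := by
  classical
  choose δ s acc hP using h
  obtain ⟨v₀⟩ := ‹Nonempty V›
  refine ⟨mach hm v₀ (fun k => if hk : k < K then δ ⟨k, hk⟩ else fun _ v _ => v)
    (fun k => if hk : k < K then s ⟨k, hk⟩ else v₀)
    (fun k => if hk : k < K then acc ⟨k, hk⟩ else fun _ => True), fun t v => rfl, fun x => ?_⟩
  have h1 := (inv hm v₀ (fun k => if hk : k < K then δ ⟨k, hk⟩ else fun _ v _ => v)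
    (fun k => if hk : k < K then s ⟨k, hk⟩ else v₀)
    (fun k => if hk : k < K then acc ⟨k, hk⟩ else fun _ => True) x
    (fun _ _ => false) (K * m)).1
  rw [Nat.mul_div_cancel _ hm] at h1
  refine Iff.trans ?_ h1.symm
  constructor
  · intro h2 ω hω
    have h3 := (hP ⟨ω, hω⟩ x).1 (h2 ⟨ω, hω⟩)
    simpa only [dif_pos hω] using h3
  · intro h2 ω
    have h3 := h2 ω.val ω.2
    rw [hP ω x]
    simpa only [dif_pos ω.2] using h3

end

/-- the items -/
abbrev Om (M : ℕ) : Type := Σ e : Fin (blk M),
  (Fin (pols (pt M (e.val + 1)) (e.val + 1)) × Fin (cop (e.val + 1))) ⊕ Fin (cop (e.val + 1))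

/-- `fA` is the conjunction over the items -/
theorem fA_iff {M : ℕ} (β : Bas M) (ly : Lay M) (v : Fin (size M) → Bool) :
    fA β ly v = true ↔ ∀ ω : Om M, ¬ (v (sw ω.1) = true ∧ Bad (β ω.1) ω.2 (inp ly ω.1 v)) := by
  classical
  unfold fA
  rw [decide_eq_true_eq]
  constructor
  · rintro h ⟨e, x⟩ ⟨h1, h2⟩
    have h3 := h e h1
    unfold goodA at h3
    rw [decide_eq_true_eq] at h3
    rcases x with ⟨t, l⟩ | l
    · exact h2 ((h3 l).2 t)
    · exact h2 (h3 l).1
  · intro h e he
    unfold goodA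
    rw [decide_eq_true_eq]
    intro l
    refine ⟨?_, fun t => ?_⟩
    · by_contra hc
      exact h ⟨e, Sum.inr l⟩ ⟨he, hc⟩
    · by_contra hc
      exact h ⟨e, Sum.inl (t, l)⟩ ⟨he, hc⟩

theorem dat_lt {M : ℕ} {j j' : Fin (2 * M)} (h : j < j') :
    (dat j : Fin (size M)) < dat j' := by
  have h1 : j.val < j'.val := h
  show blk M + j.val < blk M + j'.val
  omega

/-- negation of an automaton -/
theorem aut_not {m : ℕ} {V : Type} {P : (Fin m → Bool) → Prop} (h : Aut m V P) :
    Aut m V fun x => ¬ P x := by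
  obtain ⟨δ, s, acc, h⟩ := h
  exact ⟨δ, s, fun v => ¬ acc v, fun x => not_congr (h x)⟩

/-- an automaton for one item, with a common set of states -/
theorem aut_item (h1 : S_CLO) (h2 : S_AUT) (h3 : S_SIZ) {M : ℕ} (hM : 2 ^ 56 ≤ M) (β : Bas M)
    (ly : Lay M) (ω : Om M) :
    Aut (size M) (Fin (2 ^ (9 * lg M + 1)))
      (fun v => ¬ (v (sw ω.1) = true ∧ Bad (β ω.1) ω.2 (inp ly ω.1 v))) := by
  obtain ⟨-, c2, c3, c4⟩ := h1
  obtain ⟨e, x⟩ := ω
  have hsz := (h3 M hM).2.2 (e.val + 1) (by omega) (by have := e.2; omega)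
  obtain ⟨-, -, -, -, -, -, hdeg, -⟩ := hsz
  have a1 : Aut (size M) Bool fun v => v (sw e) = true := c2 (size M) (sw e) (fun b => b = true)
  have a2 : Aut (size M) _ fun v => Bad (β e) x (fun w => v (dat (ly.pos e w))) :=
    h2 (pt M (e.val + 1)) (e.val + 1) (cop (e.val + 1)) (size M) (β e)
      (fun w => dat (ly.pos e w))
      (fun w w' h => ly.inj e (by
        have h4 := congrArg Fin.val h
        simp only [dat, Fin.val_natAdd] at h4
        exact Fin.ext (by omega)))
      (fun t i p => dat_lt (ly.lt₁ e t i p))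
      (fun t q p => dat_lt (ly.lt₂ e t q p)) x
  have a3 := c3 (size M) Bool _ _ _ (fun p q => ¬ (p ∧ q)) a1 a2
  have hd : deg (pt M (e.val + 1)) (e.val + 1) ≠ 0 := by
    unfold deg
    omega
  have : Fintype (GaloisField 2 (deg (pt M (e.val + 1)) (e.val + 1))) := Fintype.ofFinite _
  have hcard : Fintype.card (Bool × GaloisField 2 (deg (pt M (e.val + 1)) (e.val + 1)) ×
      GaloisField 2 (deg (pt M (e.val + 1)) (e.val + 1)) ×
      GaloisField 2 (deg (pt M (e.val + 1)) (e.val + 1))) ≤
      Fintype.card (Fin (2 ^ (9 * lg M + 1))) := by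
    have hg : Fintype.card (GaloisField 2 (deg (pt M (e.val + 1)) (e.val + 1))) =
        2 ^ (deg (pt M (e.val + 1)) (e.val + 1)) := by
      rw [← Nat.card_eq_fintype_card, GaloisField.card 2 _ hd]
    rw [Fintype.card_prod, Fintype.card_prod, Fintype.card_prod, hg, Fintype.card_bool,
      Fintype.card_fin]
    calc 2 * (2 ^ (deg (pt M (e.val + 1)) (e.val + 1)) *
          (2 ^ (deg (pt M (e.val + 1)) (e.val + 1)) * 2 ^ (deg (pt M (e.val + 1)) (e.val + 1))))
        = 2 ^ (deg (pt M (e.val + 1)) (e.val + 1) + deg (pt M (e.val + 1)) (e.val + 1) +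
            deg (pt M (e.val + 1)) (e.val + 1) + 1) := by ring
      _ ≤ 2 ^ (9 * lg M + 1) := Nat.pow_le_pow_right (by norm_num) (by omega)
  obtain ⟨j⟩ := Function.Embedding.nonempty_of_card_le hcard
  exact c4 (size M) _ _ j _ j.injective a3

/-- the number of the items -/
theorem card_Om (h3 : S_SIZ) {M : ℕ} (hM : 2 ^ 56 ≤ M) : Fintype.card (Om M) ≤ size M ^ 4 := by
  obtain ⟨⟨s1, s2⟩, s3, s4⟩ := h3 M hM
  have hM1 : 1 ≤ M := le_trans (by norm_num) hM
  have hblk : blk M ≤ size M := by
    unfold size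
    omega
  have hMs : M ≤ size M := by omega
  have hs2 : 2 ≤ size M := by omega
  rw [Fintype.card_sigma]
  have hterm : ∀ e : Fin (blk M), Fintype.card ((Fin (pols (pt M (e.val + 1)) (e.val + 1)) ×
      Fin (cop (e.val + 1))) ⊕ Fin (cop (e.val + 1))) ≤ size M ^ 3 := by
    intro e
    obtain ⟨-, -, -, hc, hp, -, -, -⟩ := s4 (e.val + 1) (by omega) (by have := e.2; omega)
    rw [Fintype.card_sum, Fintype.card_prod, Fintype.card_fin, Fintype.card_fin]
    have h5 : pols (pt M (e.val + 1)) (e.val + 1) * cop (e.val + 1) ≤ size M * size M :=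
      Nat.mul_le_mul (hp.trans hMs) (hc.trans hMs)
    have h6 : cop (e.val + 1) ≤ size M * size M := by
      calc cop (e.val + 1) ≤ size M := hc.trans hMs
        _ = size M * 1 := (mul_one _).symm
        _ ≤ size M * size M := Nat.mul_le_mul_left _ (by omega)
    calc pols (pt M (e.val + 1)) (e.val + 1) * cop (e.val + 1) + cop (e.val + 1)
        ≤ size M * size M + size M * size M := Nat.add_le_add h5 h6
      _ = size M ^ 2 * 2 := by ring
      _ ≤ size M ^ 2 * size M := Nat.mul_le_mul_left _ hs2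
      _ = size M ^ 3 := by ring
  calc ∑ e : Fin (blk M), Fintype.card ((Fin (pols (pt M (e.val + 1)) (e.val + 1)) ×
        Fin (cop (e.val + 1))) ⊕ Fin (cop (e.val + 1)))
      ≤ ∑ _e : Fin (blk M), size M ^ 3 := Finset.sum_le_sum fun e _ => hterm e
    _ = blk M * size M ^ 3 := by
        rw [Finset.sum_const, Finset.card_univ, Fintype.card_fin, smul_eq_mul]
    _ ≤ size M * size M ^ 3 := Nat.mul_le_mul_right _ hblk
    _ = size M ^ 4 := by ring

end MDTA

open MDTA in
theorem t_DTA (h1 : S_CLO) (h2 : S_AUT) (h3 : S_SIZ) : S_DTA := by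
  intro M hM β ly
  obtain ⟨⟨s1, s2⟩, s3, s4⟩ := h3 M hM
  have hM1 : 1 ≤ M := le_trans (by norm_num) hM
  have hpos : 0 < size M := by omega
  have hs2 : 2 ≤ size M := by omega
  have : Nonempty (Fin (2 ^ (9 * lg M + 1))) := ⟨⟨0, by positivity⟩⟩
  have key := many hpos
    (fun (k : Fin (Fintype.card (Om M))) (v : Fin (size M) → Bool) =>
      ¬ (v (sw ((Fintype.equivFin (Om M)).symm k).1) = true ∧
        Bad (β ((Fintype.equivFin (Om M)).symm k).1) ((Fintype.equivFin (Om M)).symm k).2
          (inp ly ((Fintype.equivFin (Om M)).symm k).1 v)))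
    (fun k => aut_item h1 h2 h3 hM β ly ((Fintype.equivFin (Om M)).symm k))
  refine ⟨Bool × Fin (2 ^ (9 * lg M + 1)), inferInstance, Fintype.card (Om M) * size M,
    fun t _ => ⟨t % size M, Nat.mod_lt t hpos⟩, ?_, ?_, ?_, ?_⟩
  · rw [Fintype.card_prod, Fintype.card_bool, Fintype.card_fin]
    have hlg : 2 ^ lg M ≤ size M := by
      have h4 : 2 ^ Nat.log 2 M ≤ M := Nat.pow_log_le_self 2 (by omega)
      unfold lg
      rw [pow_succ]
      omega
    calc 2 * 2 ^ (9 * lg M + 1) = 2 * 2 * (2 ^ lg M) ^ 9 := by rw [← pow_mul]; ring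
      _ ≤ size M * size M * size M ^ 9 :=
          Nat.mul_le_mul (Nat.mul_le_mul hs2 hs2) (Nat.pow_le_pow_left hlg 9)
      _ = size M ^ 11 := by ring
      _ ≤ size M ^ 24 := Nat.pow_le_pow_right hpos (by norm_num)
  · calc Fintype.card (Om M) * size M ≤ size M ^ 4 * size M :=
        Nat.mul_le_mul_right _ (card_Om h3 hM)
      _ = size M ^ 5 := by ring
      _ ≤ size M ^ 24 := Nat.pow_le_pow_right hpos (by norm_num)
  · intro t t' ht
    show ((t' : ℕ) % size M = t % size M + 1) ∨ (t % size M + 1 = size M ∧ (t' : ℕ) % size M = 0)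
    rw [ht]
    have hlt : (t : ℕ) % size M < size M := Nat.mod_lt _ hpos
    rcases Nat.lt_or_ge ((t : ℕ) % size M + 1) (size M) with h | h
    · left
      rw [Nat.add_mod, Nat.mod_eq_of_lt (show 1 < size M by omega), Nat.mod_eq_of_lt h]
    · right
      have h5 : (t : ℕ) % size M + 1 = size M := by omega
      refine ⟨h5, ?_⟩
      rw [Nat.add_mod, Nat.mod_eq_of_lt (show 1 < size M by omega), h5, Nat.mod_self]
  · obtain ⟨G, hq, hG⟩ := key
    refine ⟨G, hq, fun v => ?_⟩
    refine (fA_iff β ly v).trans (Iff.trans ?_ (hG v))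
    constructor
    · intro h k
      exact h _
    · intro h ω
      have h6 := h (Fintype.equivFin (Om M) ω)
      rwa [Equiv.symm_apply_apply] at h6

end Pool.Agent.TKN.ONE
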