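import Pool.Agent.TKN.St6
import Pool.Agent.STK.One

/-!
# Project TKN/ONE: fixing variables (module RED)
-/

set_option autoImplicit false

open Finset

namespace Pool.Agent.TKN.ONE

open Pool.Agent.Lib_helper20.SRO (Agrees)
open Pool.Agent.CFT (Der FP)

namespace MRED

variable {U V N : Type}

theorem put_apply {ι : U → V} (hι : Function.Injective ι) (a : V → Bool) (b : U → Bool) (x : U) :
    put ι a b (ι x) = b x := by
  classical
  unfold put
  have h : ∃ x', ι x' = ι x := ⟨x, rfl⟩
  rw [dif_pos h]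
  exact congrArg b (hι h.choose_spec)

theorem put_of_not {ι : U → V} (a : V → Bool) (b : U → Bool) {y : V} (h : ∀ x, ι x ≠ y) :
    put ι a b y = a y := by
  classical
  unfold put
  rw [dif_neg (fun ⟨x, hx⟩ => h x hx)]

open Classical in
/-- the tests of the variables in the range of `ι` -/
noncomputable def rst (ι : U → V) (t : List (V × Bool)) : List (U × Bool) :=
  t.filterMap fun p => if h : ∃ x, ι x = p.1 then some (h.choose, p.2) else none

/-- the program with the variables outside the range of `ι` fixed -/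
noncomputable def fixG (G : FP V N) (ι : U → V) (a : V → Bool) : FP U N where
  source := G.source
  edge v t' u := ∃ t, G.edge v t u ∧ (∀ p ∈ t, (∀ x, ι x ≠ p.1) → p.2 = a p.1) ∧ t' = rst ι t
  fork := G.fork
  fin := G.fin

theorem rst_append (ι : U → V) (l₁ l₂ : List (V × Bool)) :
    rst ι (l₁ ++ l₂) = rst ι l₁ ++ rst ι l₂ := by
  unfold rst
  exact List.filterMap_append

theorem rst_length_le (ι : U → V) (l : List (V × Bool)) :
    (rst ι l).length ≤ l.length := by
  unfold rst
  exact List.length_filterMap_le _ _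

theorem mem_rst {ι : U → V} {l : List (V × Bool)} {q : U × Bool}
    (h : q ∈ rst ι l) : (ι q.1, q.2) ∈ l := by
  unfold rst at h
  rw [List.mem_filterMap] at h
  obtain ⟨p, hp, hq⟩ := h
  split_ifs at hq with hx
  have hq' : (hx.choose, p.2) = q := Option.some.inj hq
  rw [← hq']
  have h1 : (ι hx.choose, p.2) = p := Prod.ext hx.choose_spec rfl
  rw [h1]
  exact hp

theorem mem_rst_of {ι : U → V} (hι : Function.Injective ι) {l : List (V × Bool)}
    {x : U} {c : Bool} (h : (ι x, c) ∈ l) : (x, c) ∈ rst ι l := by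
  unfold rst
  rw [List.mem_filterMap]
  have hx : ∃ x', ι x' = (ι x, c).1 := ⟨x, rfl⟩
  refine ⟨(ι x, c), h, ?_⟩
  rw [dif_pos hx]
  exact congrArg (fun z => some (z, c)) (hι hx.choose_spec)

theorem agrees_rst {ι : U → V} (hι : Function.Injective ι) {a : V → Bool}
    {b : U → Bool} {l : List (V × Bool)} (h : Agrees (put ι a b) l) :
    Agrees b (rst ι l) := by
  intro q hq
  have h1 := h _ (mem_rst hq)
  simp only [put_apply hι] at h1
  exact h1

theorem agrees_put {ι : U → V} (hι : Function.Injective ι) {a : V → Bool}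
    {b : U → Bool} {l : List (V × Bool)}
    (hl : ∀ p ∈ l, (∀ x, ι x ≠ p.1) → p.2 = a p.1) (h : Agrees b (rst ι l)) :
    Agrees (put ι a b) l := by
  rintro ⟨y, c⟩ hp
  by_cases hy : ∃ x, ι x = y
  · obtain ⟨x, rfl⟩ := hy
    have h1 := h _ (mem_rst_of hι hp)
    simp only [put_apply hι]
    exact h1
  · have hy' : ∀ x, ι x ≠ y := fun x hx => hy ⟨x, hx⟩
    have h2 := hl _ hp hy'
    simp only at h2 ⊢
    rw [put_of_not a b hy', h2]

theorem der_lift {G : FP V N} {ι : U → V} (hι : Function.Injective ι) {a : V → Bool}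
    {v : N} {l' : List (U × Bool)} (h : Der (fixG G ι a) v l') :
    ∃ l, Der G v l ∧ ∀ b, Agrees b l' → Agrees (put ι a b) l := by
  induction h with
  | fin hf => exact ⟨[], Der.fin hf, fun _ _ p hp => by simp at hp⟩
  | edge he _ ih =>
    obtain ⟨t, het, hta, rfl⟩ := he
    obtain ⟨l, hl, hp⟩ := ih
    refine ⟨t ++ l, Der.edge het hl, fun b hb p hp' => ?_⟩
    rcases List.mem_append.1 hp' with h' | h'
    · exact agrees_put hι hta (fun q hq => hb q (List.mem_append_left _ hq)) p h'
    · exact hp b (fun q hq => hb q (List.mem_append_right _ hq)) p h'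
  | fork hf _ _ ih₁ ih₂ =>
    obtain ⟨l₁, hl₁, hp₁⟩ := ih₁
    obtain ⟨l₂, hl₂, hp₂⟩ := ih₂
    refine ⟨l₁ ++ l₂, Der.fork hf hl₁ hl₂, fun b hb p hp' => ?_⟩
    rcases List.mem_append.1 hp' with h' | h'
    · exact hp₁ b (fun q hq => hb q (List.mem_append_left _ hq)) p h'
    · exact hp₂ b (fun q hq => hb q (List.mem_append_right _ hq)) p h'

theorem der_fix {G : FP V N} {ι : U → V} {a : V → Bool}
    {v : N} {l : List (V × Bool)} (h : Der G v l) :
    (∀ p ∈ l, (∀ x, ι x ≠ p.1) → p.2 = a p.1) → Der (fixG G ι a) v (rst ι l) := by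
  induction h with
  | fin hf => exact fun _ => Der.fin hf
  | edge he _ ih =>
    intro hl
    rw [rst_append]
    exact Der.edge ⟨_, he, fun p hp => hl p (List.mem_append_left _ hp), rfl⟩
      (ih fun p hp => hl p (List.mem_append_right _ hp))
  | fork hf _ _ ih₁ ih₂ =>
    intro hl
    rw [rst_append]
    exact Der.fork hf (ih₁ fun p hp => hl p (List.mem_append_left _ hp))
      (ih₂ fun p hp => hl p (List.mem_append_right _ hp))

theorem accepts_fix {G : FP V N} {ι : U → V} (hι : Function.Injective ι) (a : V → Bool)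
    (b : U → Bool) : (fixG G ι a).Accepts b ↔ G.Accepts (put ι a b) := by
  constructor
  · rintro ⟨l', hl', hb⟩
    obtain ⟨l, hl, hp⟩ := der_lift hι hl'
    exact ⟨l, hl, hp b hb⟩
  · rintro ⟨l, hl, hb⟩
    refine ⟨rst ι l, der_fix hl ?_, agrees_rst hι hb⟩
    intro p hp hx
    rw [← hb p hp, put_of_not a b hx]

theorem block_fix {G : FP V N} {ι : U → V} (a : V → Bool) {s : ℕ} (hs : G.Block s) :
    (fixG G ι a).Block s := by
  rintro v t' u ⟨t, het, _, rfl⟩
  exact (rst_length_le ι t).trans (hs v t u het)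

theorem time_fix {G : FP V N} {ι : U → V} (hι : Function.Injective ι) (a : V → Bool) {T T' : ℕ}
    (hT : TimeF G T) (h : T ≤ T') : TimeF (fixG G ι a) T' := by
  intro b hb
  obtain ⟨l, hl, hbl, hlen⟩ := hT _ ((accepts_fix hι a b).1 hb)
  refine ⟨rst ι l, der_fix hl ?_, agrees_rst hι hbl, (rst_length_le ι l).trans (hlen.trans h)⟩
  intro p hp hx
  rw [← hbl p hp, put_of_not a b hx]

end MRED

/-- Module RED. -/
theorem t_RED : S_RED := by
  intro K k n L N c0 c W f' f ι a hι hf hcore hkN hc h4 h1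
  have hle : c * (N : ℝ) ≤ c0 * n := by linarith
  -- fork programs
  have key : ∀ (Q : Type) [Fintype Q] (G : CFT.FP (Fin N) Q) (s : ℕ), (s : ℝ) ≤ c * N →
      G.Block s → TimeF G (k * N) → G.Computes f → (2 : ℝ) ^ (c0 * n) ≤ Fintype.card Q := by
    intro Q _ G s hs hB hT hC
    refine hcore s (hs.trans hle) Q (MRED.fixG G ι a) (MRED.block_fix a hB) ?_
      (MRED.time_fix hι a hT hkN)
    intro b
    rw [MRED.accepts_fix hι a b, hC, hf]
  refine ⟨?_, ?_⟩
  · intro Γ Q _ G s hs hB hT hC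
    by_contra hlt
    rw [not_le] at hlt
    have hT' : TimeF (STK.ONE.toFP G) (k * N) := by
      intro b hb
      obtain ⟨l, hl, hbl, hlen⟩ := hT b ((STK.ONE.accepts_iff G b).1 hb)
      exact ⟨l, (STK.ONE.full_iff G l).1 hl, hbl, hlen⟩
    have hC' : (STK.ONE.toFP G).Computes f := by
      intro b
      rw [STK.ONE.accepts_iff]
      exact hC b
    have h2 := key (Q ⊕ (Q × Q)) (STK.ONE.toFP G) s hs (STK.ONE.block hB) hT' hC'
    rw [STK.ONE.card_node] at h2
    push_cast at h2
    have h3 : ((2 : ℝ) ^ (c * N)) ^ 4 ≤ (2 : ℝ) ^ (c0 * n) := by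
      rw [← Real.rpow_natCast, ← Real.rpow_mul (by norm_num)]
      refine Real.rpow_le_rpow_of_exponent_le (by norm_num) ?_
      push_cast
      linarith
    have h5 : (2 : ℝ) ≤ (2 : ℝ) ^ (c * N) := by
      calc (2 : ℝ) = (2 : ℝ) ^ (1 : ℝ) := (Real.rpow_one 2).symm
        _ ≤ (2 : ℝ) ^ (c * N) := Real.rpow_le_rpow_of_exponent_le (by norm_num) h1
    generalize (2 : ℝ) ^ (c * N) = x at *
    generalize (2 : ℝ) ^ (c0 * n) = y at *
    have hq0 : (0 : ℝ) ≤ Fintype.card Q := Nat.cast_nonneg _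
    generalize (Fintype.card Q : ℝ) = q at *
    have h6 : q ^ 2 < x ^ 2 := pow_lt_pow_left₀ hlt hq0 (by norm_num)
    have h7 : x + x ^ 2 ≤ x ^ 4 := by
      have : x ^ 4 = x ^ 2 * x ^ 2 := by ring
      nlinarith [sq_nonneg x, mul_self_nonneg (x - 2)]
    linarith
  · intro Q _ G s hs hB hT hC
    refine le_trans ?_ (key Q G s hs hB hT hC)
    exact Real.rpow_le_rpow_of_exponent_le (by norm_num) hle

end Pool.Agent.TKN.ONE
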