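import Pool.Agent.TKN.St9

/-!
# TKQ, module LFQ: the lower bound for fork programs on `n` bits, with explicit constants
-/

set_option autoImplicit false

open Finset

namespace Pool.Agent.TKN

open Pool.Agent.Lib_helper20.SRO (RectFree Rigid Agrees)
open Pool.Agent.CFT (Der fixF)

namespace RLFQ

/-- the arithmetic of the parameters -/
lemma arith {k K n h s : ℕ} {c : ℝ} (hk : 1 ≤ k) (hn : 2 * (K + 1) ≤ n)
    (hc : c * ((K : ℝ) + 1) ≤ 1) (hs : (s : ℝ) ≤ c * n) (hh : h = k * n / (K + 1) + 1) :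
    k * n < h * (K + 1) ∧ (K + 1) * (2 * h + s) ≤ 4 * k * n := by
  have h1 : (K + 1) * s ≤ n := by
    have h2 : ((K : ℝ) + 1) * s ≤ n := by
      calc ((K : ℝ) + 1) * s ≤ ((K : ℝ) + 1) * (c * n) := by gcongr
        _ = c * ((K : ℝ) + 1) * n := by ring
        _ ≤ 1 * n := by gcongr
        _ = n := one_mul _
    exact_mod_cast h2
  have h3 : h * (K + 1) = k * n / (K + 1) * (K + 1) + (K + 1) := by rw [hh]; ring
  have h4 : k * n / (K + 1) * (K + 1) ≤ k * n := Nat.div_mul_le_self _ _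
  have h5 : k * n < k * n / (K + 1) * (K + 1) + (K + 1) := by
    have := Nat.lt_div_mul_add (a := k * n) (Nat.succ_pos K)
    exact this
  refine ⟨by omega, ?_⟩
  have h6 : (K + 1) * (2 * h + s) = 2 * (h * (K + 1)) + (K + 1) * s := by ring
  have h7 : n ≤ k * n := Nat.le_mul_of_pos_left n hk
  have h8 : 4 * k * n = 4 * (k * n) := by ring
  omega

/-- `4 k + 1 ≤ (k + 1) ^ 3` -/
lemma base {k : ℕ} (hk : 1 ≤ k) : 4 * k + 1 ≤ (k + 1) ^ 3 := by
  obtain ⟨j, rfl⟩ : ∃ j, k = j + 1 := ⟨k - 1, by omega⟩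
  have h : (j + 1 + 1) ^ 3 = j ^ 3 + 6 * j ^ 2 + 12 * j + 8 := by ring
  rw [h]
  have h1 : 0 ≤ j ^ 3 := Nat.zero_le _
  have h2 : 0 ≤ j ^ 2 := Nat.zero_le _
  linarith

/-- the exponents -/
lemma expo {k : ℕ} (hk : 1 ≤ k) (B1 : ℕ) : 2 * (4 * k + 1) ^ B1 ≤ (k + 1) ^ (3 * B1 + 1) := by
  calc 2 * (4 * k + 1) ^ B1 ≤ (k + 1) * ((k + 1) ^ 3) ^ B1 :=
        Nat.mul_le_mul (by omega) (Nat.pow_le_pow_left (base hk) _)
    _ = (k + 1) ^ (3 * B1 + 1) := by rw [← pow_mul, pow_succ, mul_comm]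

end RLFQ

open RLFQ in
theorem t_LFQ (hFAM : S_FAM) (hCOREQ : S_COREQ) : S_LFQ := by
  obtain ⟨B1, hCORE⟩ := hCOREQ
  refine ⟨3 * B1 + 1, fun k hk n hn N _ G f m s B0 hs hG hacc hrig hB hm hmc hrf hcard => ?_⟩
  obtain ⟨r, hr, hrX, hcore⟩ := hCORE (4 * k) (by omega)
  obtain ⟨K, rfl⟩ : ∃ K, r = K + 1 := ⟨r - 1, by omega⟩
  have hXY := expo hk B1
  set X : ℕ := (4 * k + 1) ^ B1 with hX
  set Y : ℕ := (k + 1) ^ (3 * B1 + 1) with hY
  set c : ℝ := 1 / 2 ^ Y with hc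
  have hX1 : 1 ≤ X := Nat.one_le_pow _ _ (by omega)
  have hX2 : X + 1 ≤ 2 ^ X := Nat.lt_two_pow_self
  have hXXY : 2 ^ X * 2 ^ X ≤ 2 ^ Y := by
    rw [← pow_add]
    exact Nat.pow_le_pow_right (by norm_num) (by omega)
  have hn1 : 2 ^ X ≤ n := by
    refine le_trans ?_ hn
    exact Nat.pow_le_pow_right (by norm_num) (by omega)
  have hn2 : 2 * (K + 1) ≤ n := by
    have h1 : 2 * (K + 1) ≤ 2 ^ X * 2 ^ X := by
      refine Nat.mul_le_mul (le_trans (by omega) hX2) (by omega)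
    omega
  have hc0 : 0 < c := by positivity
  have hYpos : (0 : ℝ) < 2 ^ Y := by positivity
  have hXpos : (0 : ℝ) < 2 ^ X := by positivity
  have hc1 : c * ((K : ℝ) + 1) ≤ 1 := by
    have h1 : K + 1 ≤ 2 ^ Y := by
      have : 2 ^ X * 1 ≤ 2 ^ X * 2 ^ X := Nat.mul_le_mul le_rfl Nat.one_le_two_pow
      omega
    have h2 : ((K : ℝ) + 1) ≤ 2 ^ Y := by exact_mod_cast h1
    rw [hc, div_mul_eq_mul_div, one_mul, div_le_one hYpos]
    exact h2
  have hc2 : c * ((K : ℝ) + 2) ≤ 1 / 2 ^ X := by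
    have h1 : (K + 2) * 2 ^ X ≤ 2 ^ Y :=
      le_trans (Nat.mul_le_mul (by omega) le_rfl) hXXY
    have h2 : ((K : ℝ) + 2) * 2 ^ X ≤ 2 ^ Y := by exact_mod_cast h1
    rw [hc, div_mul_eq_mul_div, one_mul, div_le_div_iff₀ hYpos hXpos]
    linarith
  by_contra hlt
  rw [not_le] at hlt
  obtain ⟨a1, a2⟩ := arith (h := k * n / (K + 1) + 1) hk hn2 hc1 hs rfl
  obtain ⟨Z, U, hfam, hZ, hBZ⟩ := hFAM n N G f (k * n / (K + 1) + 1) s K (k * n) B0 hG hacc hB a1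
  have key : ∀ t : ℝ, 0 ≤ t → t ≤ (K : ℝ) + 2 →
      (2 : ℝ) ^ (c * n * t) ≤ Real.exp ((n : ℝ) / 2 ^ X) := by
    intro t ht0 ht
    rw [Real.rpow_def_of_pos (by norm_num)]
    apply Real.exp_le_exp.2
    have hl : Real.log 2 ≤ 1 := by linarith [Real.log_two_lt_d9]
    have hl0 : 0 ≤ Real.log 2 := Real.log_nonneg (by norm_num)
    have h1 : 0 ≤ c * n * t := by positivity
    calc Real.log 2 * (c * n * t) ≤ 1 * (c * n * t) := by gcongr
      _ ≤ c * n * ((K : ℝ) + 2) := by rw [one_mul]; gcongr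
      _ = c * ((K : ℝ) + 2) * n := by ring
      _ ≤ 1 / 2 ^ X * n := by gcongr
      _ = (n : ℝ) / 2 ^ X := by ring
  refine hcore n hn1 (2 * (k * n / (K + 1) + 1) + s) Z U f m hfam a2 hZ hrig hrf hm ?_ ?_
  · calc (m : ℝ) ≤ 2 ^ (c * n) := hmc
      _ = (2 : ℝ) ^ (c * n * 1) := by rw [mul_one]
      _ ≤ _ := key 1 zero_le_one (by linarith [(Nat.cast_nonneg K : (0 : ℝ) ≤ K)])
  · have h1 : (B0.card : ℝ) ≤ (2 : ℝ) ^ (c * n * ((K : ℝ) + 1)) * Z.card := by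
      calc (B0.card : ℝ) ≤ ((Fintype.card N ^ (K + 1) * Z.card : ℕ) : ℝ) := by exact_mod_cast hBZ
        _ = (Fintype.card N : ℝ) ^ (K + 1) * Z.card := by push_cast; ring
        _ ≤ ((2 : ℝ) ^ (c * n)) ^ (K + 1) * Z.card := by gcongr
        _ = (2 : ℝ) ^ (c * n * ((K : ℝ) + 1)) * Z.card := by
          rw [Real.rpow_mul (by norm_num) (c * n), ← Real.rpow_natCast]
          push_cast
          ring
    calc (2 : ℝ) ^ n ≤ 2 ^ (c * n) * B0.card := hcard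
      _ ≤ 2 ^ (c * n) * ((2 : ℝ) ^ (c * n * ((K : ℝ) + 1)) * Z.card) := by gcongr
      _ = (2 : ℝ) ^ (c * n * ((K : ℝ) + 2)) * Z.card := by
        rw [← mul_assoc, ← Real.rpow_add (by norm_num)]
        congr 2
        ring
      _ ≤ Real.exp ((n : ℝ) / 2 ^ X) * Z.card := by
        gcongr
        exact key _ (by positivity) le_rfl

end Pool.Agent.TKN
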