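import Pool.Agent.TKN.St7

/-!
# TKN, EXC: the lower bound with few variables whose tests are not counted
-/

set_option autoImplicit false

open Finset

namespace Pool.Agent.TKN

open Pool.Agent.Lib_helper20.SRO (RectFree Rigid Agrees)
open Pool.Agent.CFT (Der)

namespace EXC54

section Prog

variable {n : ℕ} {N : Type}

/-- an edge of the new program -/
def edgeR (G : CFT.FP (Fin n) N) (R : Finset (Fin n)) (a : Fin n → Bool) :
    Option N → List (Fin n × Bool) → Option N → Prop
  | none, t, some u => u = G.source ∧ t = R.toList.map (fun x => (x, a x))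
  | some v, t, some u => ∃ t0, G.edge v t0 u ∧ (∀ p ∈ t0, p.1 ∈ R → p.2 = a p.1) ∧
      t = t0.filter (fun p => decide (p.1 ∉ R))
  | _, _, none => False

/-- a fork of the new program -/
def forkR (G : CFT.FP (Fin n) N) : Option N → Option N → Option N → Prop
  | some v, some u, some w => G.fork v u w
  | _, _, _ => False

/-- the final nodes of the new program -/
def finR (G : CFT.FP (Fin n) N) : Option N → Prop
  | some v => G.fin v
  | none => False

/-- the new program -/
def progR (G : CFT.FP (Fin n) N) (R : Finset (Fin n)) (a : Fin n → Bool) :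
    CFT.FP (Fin n) (Option N) where
  source := none
  edge := edgeR G R a
  fork := forkR G
  fin := finR G

theorem block {G : CFT.FP (Fin n) N} {s : ℕ} (hG : G.Block s) (R : Finset (Fin n))
    (a : Fin n → Bool) (hR : R.card ≤ s) : (progR G R a).Block s := by
  intro v t u h
  change edgeR G R a v t u at h
  cases v with
  | none =>
    cases u with
    | none => exact h.elim
    | some u =>
      obtain ⟨-, rfl⟩ := h
      rw [List.length_map, Finset.length_toList]
      exact hR
  | some v =>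
    cases u with
    | none => exact h.elim
    | some u =>
      obtain ⟨t0, h0, -, rfl⟩ := h
      exact (List.length_filter_le _ _).trans (hG _ _ _ h0)

theorem down {G : CFT.FP (Fin n) N} {R : Finset (Fin n)} {a : Fin n → Bool} {x : Option N}
    {l : List (Fin n × Bool)} (h : Der (progR G R a) x l) : ∀ v, x = some v →
    ∃ l0, Der G v l0 ∧ (∀ p ∈ l0, p.1 ∈ R → p.2 = a p.1) ∧
      l = l0.filter (fun p => decide (p.1 ∉ R)) := by
  induction h with
  | fin h =>
    rintro v rfl
    exact ⟨[], Der.fin h, by simp, by simp⟩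
  | @edge x u t l he _ ih =>
    rintro v rfl
    change edgeR G R a (some v) t u at he
    cases u with
    | none => exact he.elim
    | some u =>
      obtain ⟨t0, h0, h1, rfl⟩ := he
      obtain ⟨l0, h2, h3, rfl⟩ := ih u rfl
      refine ⟨t0 ++ l0, Der.edge h0 h2, fun p hp => ?_, ?_⟩
      · rcases List.mem_append.1 hp with h | h
        · exact h1 p h
        · exact h3 p h
      · rw [List.filter_append]
  | @fork x u w l₁ l₂ hf _ _ ih1 ih2 =>
    rintro v rfl
    change forkR G (some v) u w at hf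
    cases u with
    | none => exact hf.elim
    | some u =>
      cases w with
      | none => exact hf.elim
      | some w =>
        obtain ⟨m1, h1, h2, rfl⟩ := ih1 u rfl
        obtain ⟨m2, h3, h4, rfl⟩ := ih2 w rfl
        refine ⟨m1 ++ m2, Der.fork hf h1 h3, fun p hp => ?_, ?_⟩
        · rcases List.mem_append.1 hp with h | h
          · exact h2 p h
          · exact h4 p h
        · rw [List.filter_append]

theorem up {G : CFT.FP (Fin n) N} (R : Finset (Fin n)) (a : Fin n → Bool) {v : N}
    {l : List (Fin n × Bool)} (h : Der G v l) : (∀ p ∈ l, p.1 ∈ R → p.2 = a p.1) →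
    Der (progR G R a) (some v) (l.filter (fun p => decide (p.1 ∉ R))) := by
  induction h with
  | fin h =>
    intro _
    exact Der.fin (G := progR G R a) h
  | @edge x u t l he _ ih =>
    intro hp
    rw [List.filter_append]
    refine Der.edge (G := progR G R a) (u := some u) ?_ (ih fun p h => hp p (List.mem_append_right _ h))
    exact ⟨t, he, fun p h => hp p (List.mem_append_left _ h), rfl⟩
  | @fork x u w l₁ l₂ hf _ _ ih1 ih2 =>
    intro hp
    rw [List.filter_append]
    exact Der.fork (G := progR G R a) (v := some x) (u := some u) (w := some w) hf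
      (ih1 fun p h => hp p (List.mem_append_left _ h))
      (ih2 fun p h => hp p (List.mem_append_right _ h))

theorem sound {G : CFT.FP (Fin n) N} {R : Finset (Fin n)} {a : Fin n → Bool}
    {b : Fin n → Bool} (h : (progR G R a).Accepts b) : G.Accepts b := by
  obtain ⟨l, hl, hb⟩ := h
  change Der (progR G R a) none l at hl
  cases hl with
  | fin h => exact h.elim
  | @edge _ u t l he hd =>
    change edgeR G R a none t u at he
    cases u with
    | none => exact he.elim
    | some u =>
      obtain ⟨rfl, rfl⟩ := he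
      obtain ⟨l0, h2, h3, rfl⟩ := down hd _ rfl
      refine ⟨l0, h2, fun p hp => ?_⟩
      by_cases hR : p.1 ∈ R
      · have h5 := hb (p.1, a p.1) (List.mem_append_left _ (List.mem_map.2
          ⟨p.1, Finset.mem_toList.2 hR, rfl⟩))
        rw [h3 p hp hR]
        exact h5
      · exact hb p (List.mem_append_right _ (List.mem_filter.2 ⟨hp, by simpa using hR⟩))
  | @fork _ u w l₁ l₂ hf _ _ => exact hf.elim

theorem complete {G : CFT.FP (Fin n) N} (R : Finset (Fin n)) (a : Fin n → Bool)
    {b : Fin n → Bool} (hab : ∀ x ∈ R, b x = a x) {l : List (Fin n × Bool)}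
    (hl : Der G G.source l) (hb : Agrees b l) :
    ∃ l', Der (progR G R a) (progR G R a).source l' ∧ Agrees b l' ∧
      l'.length = R.card + Out R l := by
  have h1 : ∀ p ∈ l, p.1 ∈ R → p.2 = a p.1 := fun p hp hR => by
    rw [← hab _ hR]
    exact (hb p hp).symm
  have h2 := up R a hl h1
  refine ⟨R.toList.map (fun x => (x, a x)) ++ l.filter (fun p => decide (p.1 ∉ R)),
    Der.edge (G := progR G R a) (v := none) (u := some G.source) ⟨rfl, rfl⟩ h2, fun p hp => ?_, ?_⟩
  · rcases List.mem_append.1 hp with h | h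
    · obtain ⟨x, hx, rfl⟩ := List.mem_map.1 h
      exact hab x (Finset.mem_toList.1 hx)
    · exact hb p (List.mem_filter.1 h).1
  · rw [List.length_append, List.length_map, Finset.length_toList]
    unfold Out
    congr 2
    refine List.filter_congr fun p _ => ?_
    simp

end Prog

theorem eta_le {c : ℝ} (hc : 0 < c) : eta c ≤ 2 * Real.sqrt c := by
  have hs : 0 < Real.sqrt c := Real.sqrt_pos.2 hc
  have h1 : Real.sqrt c * Real.sqrt c = c := Real.mul_self_sqrt hc.le
  have h2 : Real.log (1 / c) = 2 * Real.log (1 / Real.sqrt c) := by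
    rw [← h1, one_div, one_div, Real.log_inv, Real.log_inv, Real.log_mul hs.ne' hs.ne']
    ring_nf
    rw [Real.sqrt_sq hs.le]
  have h3 : Real.log (1 / Real.sqrt c) ≤ 1 / Real.sqrt c - 1 :=
    Real.log_le_sub_one_of_pos (by positivity)
  have h4 : c * (1 / Real.sqrt c) = Real.sqrt c := by
    rw [mul_one_div, div_eq_iff hs.ne']
    exact h1.symm
  unfold eta
  rw [h2]
  have h5 : c * (1 + 2 * Real.log (1 / Real.sqrt c)) ≤ c * (1 + 2 * (1 / Real.sqrt c - 1)) := by
    refine mul_le_mul_of_nonneg_left ?_ hc.le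
    linarith
  have h6 : c * (1 + 2 * (1 / Real.sqrt c - 1)) = 2 * (c * (1 / Real.sqrt c)) - c := by ring
  rw [h6, h4] at h5
  linarith

theorem exists_c {c' : ℝ} (hc' : 0 < c') : ∃ c : ℝ, 0 < c ∧ c ≤ 1 ∧ c ≤ c' / 8 ∧ eta c ≤ c' / 8 := by
  refine ⟨min (min 1 (c' / 8)) ((c' / 16) ^ 2), by positivity, ?_, ?_, ?_⟩
  · exact (min_le_left _ _).trans (min_le_left _ _)
  · exact (min_le_left _ _).trans (min_le_right _ _)
  · refine (eta_le (by positivity)).trans ?_
    have h1 : Real.sqrt (min (min 1 (c' / 8)) ((c' / 16) ^ 2)) ≤ c' / 16 :=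
      (Real.sqrt_le_sqrt (min_le_right _ _)).trans (Real.sqrt_sq (by positivity)).le
    linarith

theorem exp_le {x : ℝ} (hx : 0 ≤ x) : Real.exp x ≤ (2 : ℝ) ^ (2 * x) := by
  rw [Real.rpow_def_of_pos (by norm_num : (0 : ℝ) < 2)]
  refine Real.exp_le_exp.2 ?_
  have h1 : (1 : ℝ) / 2 ≤ Real.log 2 := by
    have := Real.log_two_gt_d9
    linarith
  nlinarith

end EXC54

open EXC54 in
/-- EXC -/
theorem t_LOWR (h1 : S_LOWF) (h2 : S_SUBS) : S_LOWR := by
  classical
  intro k hk
  obtain ⟨c', hc', n0, hlow⟩ := h1 (k + 1) (by omega)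
  obtain ⟨c, hc, hc1, hc8, heta⟩ := exists_c hc'
  refine ⟨c, hc, max n0 ⌈2 / c'⌉₊, fun n hn N _ G f m s B0 hs hblock hsound hrig hB hm hm2 hrect
    hcard => ?_⟩
  have hn0 : n0 ≤ n := (le_max_left _ _).trans hn
  have hn1 : 2 / c' ≤ n := (Nat.le_ceil _).trans (by exact_mod_cast (le_max_right _ _).trans hn)
  have hnc : 2 ≤ c' * n := by
    have := mul_le_mul_of_nonneg_left hn1 hc'.le
    rwa [mul_div_cancel₀ _ hc'.ne'] at this
  have hnn : (0 : ℝ) ≤ n := Nat.cast_nonneg n
  obtain ⟨F, hF, hFc⟩ : ∃ F : Finset (Finset (Fin n)), (∀ T, T ∈ F ↔ (T.card : ℝ) ≤ c * n) ∧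
      (F.card : ℝ) ≤ Real.exp (eta c * n) :=
    ⟨(univ : Finset (Fin n)).powerset.filter fun T => (T.card : ℝ) ≤ c * (univ : Finset (Fin n)).card,
      fun T => by simp, by simpa using h2 (Fin n) univ c hc hc1⟩
  have hex : ∀ b : Fin n → Bool, ∃ R : Finset (Fin n), b ∈ B0 → R.card ≤ s ∧
      ∃ l, Der G G.source l ∧ Agrees b l ∧ Out R l ≤ k * n := by
    intro b
    by_cases hb : b ∈ B0
    · obtain ⟨l, g1, g2, R, g3, g4⟩ := hB b hb
      exact ⟨R, fun _ => ⟨g3, l, g1, g2, g4⟩⟩
    · exact ⟨∅, fun h => absurd h hb⟩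
  choose Rb hRb using hex
  have hmaps : ∀ b ∈ B0, (Rb b, (Rb b).filter fun x => b x = true) ∈ F ×ˢ F := by
    intro b hb
    have h3 : ((Rb b).card : ℝ) ≤ c * n := le_trans (by exact_mod_cast (hRb b hb).1) hs
    rw [Finset.mem_product]
    refine ⟨(hF _).2 h3, (hF _).2 (le_trans ?_ h3)⟩
    exact_mod_cast Finset.card_filter_le _ _
  have hne : (F ×ˢ F).Nonempty := by
    have h0 : (∅ : Finset (Fin n)) ∈ F := (hF _).2 (by
      rw [Finset.card_empty, Nat.cast_zero]
      positivity)
    exact ⟨(∅, ∅), Finset.mk_mem_product h0 h0⟩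
  have hFF : (0 : ℝ) < ((F ×ˢ F).card : ℝ) := by exact_mod_cast Finset.card_pos.2 hne
  obtain ⟨⟨R, S⟩, hRS, hfib⟩ := Finset.exists_le_card_fiber_of_nsmul_le_card_of_maps_to
    (b := (B0.card : ℝ) / ((F ×ˢ F).card : ℝ)) hmaps hne (by
      rw [nsmul_eq_mul, mul_div_cancel₀ _ hFF.ne'])
  set B1 : Finset (Fin n → Bool) :=
    B0.filter fun b => (Rb b, (Rb b).filter fun x => b x = true) = (R, S) with hB1
  have hB1c : (B0.card : ℝ) ≤ Real.exp (2 * (eta c * n)) * B1.card := by
    have h3 : (B0.card : ℝ) ≤ ((F ×ˢ F).card : ℝ) * B1.card := by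
      rw [div_le_iff₀ hFF, mul_comm] at hfib
      exact hfib
    refine h3.trans (mul_le_mul_of_nonneg_right ?_ (Nat.cast_nonneg _))
    rw [Finset.card_product, Nat.cast_mul, two_mul, Real.exp_add]
    exact mul_le_mul hFc hFc (Nat.cast_nonneg _) (Real.exp_pos _).le
  have hRs : R.card ≤ s ∨ B1 = ∅ := by
    rcases B1.eq_empty_or_nonempty with h | ⟨b, hb⟩
    · exact Or.inr h
    · left
      obtain ⟨hb0, hb1⟩ := Finset.mem_filter.1 hb
      have h3 := (hRb b hb0).1
      rwa [(Prod.mk.inj hb1).1] at h3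
  have hetan : eta c * n ≤ c' / 8 * n := mul_le_mul_of_nonneg_right heta hnn
  have heta0 : 0 ≤ eta c := by
    unfold eta
    have : 0 ≤ Real.log (1 / c) := Real.log_nonneg (by rw [le_div_iff₀ hc]; linarith)
    positivity
  have hmain : (2 : ℝ) ^ n ≤ 2 ^ (c' * n) * B1.card := by
    calc (2 : ℝ) ^ n ≤ 2 ^ (c * n) * B0.card := hcard
      _ ≤ 2 ^ (c * n) * (Real.exp (2 * (eta c * n)) * B1.card) := by
          refine mul_le_mul_of_nonneg_left hB1c (by positivity)
      _ = (2 ^ (c * n) * Real.exp (2 * (eta c * n))) * B1.card := by ring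
      _ ≤ (2 ^ (c * n) * 2 ^ (2 * (2 * (eta c * n)))) * B1.card := by
          refine mul_le_mul_of_nonneg_right (mul_le_mul_of_nonneg_left
            (exp_le (by positivity)) (by positivity)) (Nat.cast_nonneg _)
      _ ≤ 2 ^ (c' * n) * B1.card := by
          refine mul_le_mul_of_nonneg_right ?_ (Nat.cast_nonneg _)
          rw [← Real.rpow_add (by norm_num)]
          refine Real.rpow_le_rpow_of_exponent_le (by norm_num) ?_
          have : c * n ≤ c' / 8 * n := mul_le_mul_of_nonneg_right hc8 hnn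
          nlinarith
  have hB1ne : B1 ≠ ∅ := by
    intro h0
    rw [h0, Finset.card_empty, Nat.cast_zero, mul_zero] at hmain
    have : (0 : ℝ) < 2 ^ n := by positivity
    linarith
  have hR : R.card ≤ s := hRs.resolve_right hB1ne
  set a : Fin n → Bool := fun x => decide (x ∈ S) with ha
  have hab : ∀ b ∈ B1, ∀ x ∈ R, b x = a x := by
    intro b hb x hx
    obtain ⟨hb0, hb1⟩ := Finset.mem_filter.1 hb
    obtain ⟨e1, e2⟩ := Prod.mk.inj hb1
    rw [e1] at e2
    have h3 : x ∈ S ↔ b x = true := by
      rw [← e2, Finset.mem_filter]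
      exact ⟨fun h => h.2, fun h => ⟨hx, h⟩⟩
    rw [ha]
    cases hbx : b x with
    | true => simp [h3.2 hbx]
    | false =>
      have : x ∉ S := fun h => by
        rw [h3.1 h] at hbx
        exact absurd hbx (by simp)
      simp [this]
  have hfin := hlow n hn0 (Option N) (progR G R a) f m s B1
    (hs.trans (mul_le_mul_of_nonneg_right (by linarith) hnn)) (block hblock R a hR)
    (fun b hb => hsound b (sound hb)) hrig (by
      intro b hb
      obtain ⟨hb0, hb1⟩ := Finset.mem_filter.1 hb
      obtain ⟨-, l, g1, g2, g3⟩ := hRb b hb0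
      rw [(Prod.mk.inj hb1).1] at g3
      obtain ⟨l', g4, g5, g6⟩ := complete R a (hab b hb) g1 g2
      refine ⟨l', g4, g5, ?_⟩
      have h4 : (s : ℝ) ≤ n := hs.trans (by nlinarith)
      have h5 : s ≤ n := by exact_mod_cast h4
      rw [g6]
      nlinarith) hm
    (hm2.trans (Real.rpow_le_rpow_of_exponent_le (by norm_num)
      (mul_le_mul_of_nonneg_right (by linarith) hnn))) hrect hmain
  rw [Fintype.card_option, Nat.cast_add, Nat.cast_one] at hfin
  have h6 : (2 : ℝ) * 2 ^ (c * n) ≤ 2 ^ (c' * n) := by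
    calc (2 : ℝ) * 2 ^ (c * n) = 2 ^ (1 + c * n) := by
          rw [Real.rpow_add (by norm_num), Real.rpow_one]
      _ ≤ 2 ^ (c' * n) := by
          refine Real.rpow_le_rpow_of_exponent_le (by norm_num) ?_
          have : c * n ≤ c' / 8 * n := mul_le_mul_of_nonneg_right hc8 hnn
          nlinarith
  have h7 : (1 : ℝ) ≤ 2 ^ (c * n) := Real.one_le_rpow (by norm_num) (by positivity)
  linarith

end Pool.Agent.TKN
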