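import Pool.Agent.TKN.St2
import Pool.Agent.TKN.St3
import Pool.Agent.NCE.SLF

/-!
# CORE: the final assembly
-/

set_option autoImplicit false

open Finset
open scoped Classical

namespace Pool.Agent.TKN

open NCE
open Pool.Agent.Lib_helper20.SRO (RectFree Rigid flipAt)

namespace MCORE

/-! ### Expectations -/

theorem ex_mono {Ω : Type} [Fintype Ω] (P : FP Ω) (f g : Ω → ℝ)
    (h : ∀ ω, P.p ω ≠ 0 → f ω ≤ g ω) : ex P f ≤ ex P g := by
  unfold ex
  refine Finset.sum_le_sum fun ω _ => ?_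
  by_cases h0 : P.p ω = 0
  · rw [h0, zero_mul, zero_mul]
  · exact mul_le_mul_of_nonneg_left (h ω h0) (P.nn ω)

theorem ex_add {Ω : Type} [Fintype Ω] (P : FP Ω) (f g : Ω → ℝ) :
    ex P (fun ω => f ω + g ω) = ex P f + ex P g := by
  unfold ex
  rw [← Finset.sum_add_distrib]
  exact Finset.sum_congr rfl fun ω _ => by ring

theorem ex_mul {Ω : Type} [Fintype Ω] (P : FP Ω) (c : ℝ) (f : Ω → ℝ) :
    ex P (fun ω => c * f ω) = c * ex P f := by
  unfold ex
  rw [Finset.mul_sum]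
  exact Finset.sum_congr rfl fun ω _ => by ring

theorem ex_const {Ω : Type} [Fintype Ω] (P : FP Ω) (c : ℝ) : ex P (fun _ => c) = c := by
  unfold ex
  rw [← Finset.sum_mul, P.one, one_mul]

theorem ex_nonneg {Ω : Type} [Fintype Ω] (P : FP Ω) (f : Ω → ℝ) (h : ∀ ω, 0 ≤ f ω) :
    0 ≤ ex P f := Finset.sum_nonneg fun ω _ => mul_nonneg (P.nn ω) (h ω)

/-- the measure of a set of words -/
theorem ex_law {n : ℕ} (Z : Finset (Fin n → Bool)) (hZ : Z.Nonempty) {Ω' : Type} [Fintype Ω']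
    (P' : FP Ω') (π : Ω' → {z // z ∈ Z}) (h : SL P' π (uni Z hZ) id)
    (E : Finset (Fin n → Bool)) :
    ex P' (fun q => if (π q).1 ∈ E then 1 else 0) = ((Z.filter fun z => z ∈ E).card : ℝ) / Z.card := by
  have h1 := (t_SLF Ω' {z // z ∈ Z} P' (uni Z hZ) {z // z ∈ Z} Unit π id (fun _ => ())
    (fun ω => if ω.1 ∈ E then (1 : ℝ) else 0) h).2.2
  rw [h1]
  unfold ex uni
  simp only [id]
  rw [← Finset.mul_sum]
  have h2 : ∑ i : {z // z ∈ Z}, (if i.1 ∈ E then (1 : ℝ) else 0) =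
      ((Z.filter fun z => z ∈ E).card : ℝ) := by
    rw [Finset.sum_coe_sort Z (fun z => if z ∈ E then (1 : ℝ) else 0), ← Finset.sum_filter]
    simp
  rw [h2]
  ring

theorem law_le {n : ℕ} (Z : Finset (Fin n → Bool)) (hZ : Z.Nonempty) {Ω' : Type} [Fintype Ω']
    (P' : FP Ω') (π : Ω' → {z // z ∈ Z}) (h : SL P' π (uni Z hZ) id)
    (E : Finset (Fin n → Bool)) (t : ℝ) (hE : (E.card : ℝ) ≤ t * Z.card) :
    ex P' (fun q => if (π q).1 ∈ E then 1 else 0) ≤ t := by
  rw [ex_law Z hZ P' π h E]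
  have hc : (0 : ℝ) < Z.card := by exact_mod_cast Finset.card_pos.2 hZ
  rw [div_le_iff₀ hc]
  refine le_trans ?_ hE
  have : (Z.filter fun z => z ∈ E) ⊆ E := fun z hz => (mem_filter.1 hz).2
  exact_mod_cast card_le_card this

/-! ### Numerical facts -/

theorem eta_mono {a b : ℝ} (ha : 0 < a) (hab : a ≤ b) (hb : b ≤ 1) : eta a ≤ eta b := by
  have hb0 : 0 < b := lt_of_lt_of_le ha hab
  unfold eta
  have h1 : Real.log (1 / a) = Real.log (1 / b) + Real.log (b / a) := by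
    rw [Real.log_div one_ne_zero ha.ne', Real.log_div one_ne_zero hb0.ne',
      Real.log_div hb0.ne' ha.ne']
    ring
  have h2 : Real.log (b / a) ≤ b / a - 1 := Real.log_le_sub_one_of_pos (div_pos hb0 ha)
  have h3 : 0 ≤ Real.log (1 / b) := Real.log_nonneg (by rw [le_div_iff₀ hb0]; linarith)
  have h4 : a * Real.log (b / a) ≤ b - a := by
    calc a * Real.log (b / a) ≤ a * (b / a - 1) := mul_le_mul_of_nonneg_left h2 ha.le
      _ = b - a := by field_simp
  rw [h1]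
  nlinarith

theorem le_eta {a : ℝ} (ha : 0 < a) (h1 : a ≤ 1) : a ≤ eta a := by
  unfold eta
  have : 0 ≤ Real.log (1 / a) := Real.log_nonneg (by rw [le_div_iff₀ ha]; linarith)
  nlinarith

/-- the choice of `S2` -/
theorem choose_S2 (hSMP : S_SMP) {α ι : Type} (S : Finset α) (W : Finset ι) (U : ι → Finset α)
    (m : ℕ) (ε : ℝ) (hm : m ≤ S.card) (h1 : 1 ≤ m) (hε : 0 < ε)
    (hW : ∀ i ∈ W, ((U i ∩ S).card : ℝ) ≤ ε * S.card) :
    ∃ S2 : Finset α, S2 ⊆ S ∧ S2.card = m ∧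
      ((W.filter fun i => 2 * ε * m < ((U i ∩ S2).card : ℝ)).card : ℝ) ≤ W.card / (ε ^ 2 * m) := by
  have h := hSMP α ι S W U m ε hm h1 hε hW
  by_contra hcon
  push Not at hcon
  have hne : (powersetCard m S).Nonempty := powersetCard_nonempty.2 hm
  have h2 : ∑ V ∈ powersetCard m S, (W.card : ℝ) / (ε ^ 2 * m) <
      ∑ V ∈ powersetCard m S, ((W.filter fun i => 2 * ε * m < ((U i ∩ V).card : ℝ)).card : ℝ) := by
    refine Finset.sum_lt_sum_of_nonempty hne fun V hV => ?_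
    rw [mem_powersetCard] at hV
    exact hcon V hV.1 hV.2
  rw [Finset.sum_const, card_powersetCard, nsmul_eq_mul] at h2
  linarith

/-- the same for `Fin n`, with its own decidable equality -/
theorem choose_S2n (hSMP : S_SMP) {n : ℕ} {ι : Type} (S : Finset (Fin n)) (W : Finset ι)
    (U : ι → Finset (Fin n)) (m : ℕ) (ε : ℝ) (hm : m ≤ S.card) (h1 : 1 ≤ m) (hε : 0 < ε)
    (hW : ∀ i ∈ W, ((U i ∩ S).card : ℝ) ≤ ε * S.card) :
    ∃ S2 : Finset (Fin n), S2 ⊆ S ∧ S2.card = m ∧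
      ((W.filter fun i => 2 * ε * m < ((U i ∩ S2).card : ℝ)).card : ℝ) ≤ W.card / (ε ^ 2 * m) := by
  have key : ∀ A B : Finset (Fin n),
      @Inter.inter _ (@Finset.instInter _ (fun a b => Classical.propDecidable (a = b))) A B =
        A ∩ B := fun A B => by
    ext x
    simp only [Finset.mem_inter]
  obtain ⟨S2, a, b, c⟩ := choose_S2 hSMP S W U m ε hm h1 hε
    (fun i hi => by rw [key]; exact hW i hi)
  refine ⟨S2, a, b, ?_⟩
  simp only [key] at c
  exact c

/-- the final inequality of the count -/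
theorem count_small {n m m2 : ℕ} {A α β δ μ θ M Zc : ℝ} (hm2 : 3 * μ * m ≤ m2)
    (hA : A ≤ 1 / 10000) (hα : α ≤ 1 / 10000) (hβ : 12 * (eta β * m) ≤ m2)
    (hδ : δ * n ≤ μ * m / 400) (hμ : 0 < μ) (hM : M ≤ Real.exp (δ * n))
    (hZ : (2 : ℝ) ^ n ≤ Real.exp (δ * n) * Zc) (hθ : Real.exp (-(μ * m)) ≤ θ) :
    Real.exp ((n - (m2 : ℝ)) * Real.log 2 + (A + α * Real.log 2) * m2 + eta β * m) * M ≤
      θ * Zc := by
  have hl1 : Real.log 2 < 0.6931471808 := Real.log_two_lt_d9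
  have hl2 : 0.6931471803 < Real.log 2 := Real.log_two_gt_d9
  have hm20 : (0 : ℝ) ≤ m2 := Nat.cast_nonneg _
  have hm0 : (0 : ℝ) ≤ m := Nat.cast_nonneg _
  have h2n : (2 : ℝ) ^ n = Real.exp (n * Real.log 2) := by
    rw [Real.exp_nat_mul, Real.exp_log (by norm_num)]
  have hE : Real.exp (δ * n) * Real.exp (-(δ * n)) = 1 := by rw [← Real.exp_add]; simp
  have hZ2 : Real.exp (n * Real.log 2) * Real.exp (-(δ * n)) ≤ Zc := by
    rw [← h2n]
    calc (2 : ℝ) ^ n * Real.exp (-(δ * n)) ≤ (Real.exp (δ * n) * Zc) * Real.exp (-(δ * n)) :=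
          mul_le_mul_of_nonneg_right hZ (Real.exp_pos _).le
      _ = (Real.exp (δ * n) * Real.exp (-(δ * n))) * Zc := by ring
      _ = Zc := by rw [hE, one_mul]
  have hexp : (n - (m2 : ℝ)) * Real.log 2 + (A + α * Real.log 2) * m2 + eta β * m + δ * n ≤
      -(μ * m) + (n * Real.log 2 + -(δ * n)) := by
    have h1 : (A + α * Real.log 2) * m2 ≤ (2 / 10000) * m2 := by
      apply mul_le_mul_of_nonneg_right _ hm20
      nlinarith
    have h2 : 0 ≤ μ * m := by positivity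
    nlinarith
  calc Real.exp ((n - (m2 : ℝ)) * Real.log 2 + (A + α * Real.log 2) * m2 + eta β * m) * M
      ≤ Real.exp ((n - (m2 : ℝ)) * Real.log 2 + (A + α * Real.log 2) * m2 + eta β * m) *
        Real.exp (δ * n) := mul_le_mul_of_nonneg_left hM (Real.exp_pos _).le
    _ = Real.exp ((n - (m2 : ℝ)) * Real.log 2 + (A + α * Real.log 2) * m2 + eta β * m + δ * n) := by
        rw [← Real.exp_add]
    _ ≤ Real.exp (-(μ * m) + (n * Real.log 2 + -(δ * n))) := Real.exp_le_exp.2 hexp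
    _ = Real.exp (-(μ * m)) * (Real.exp (n * Real.log 2) * Real.exp (-(δ * n))) := by
        rw [Real.exp_add, Real.exp_add]
    _ ≤ θ * Zc := mul_le_mul hθ hZ2 (by positivity) (le_trans (Real.exp_pos _).le hθ)

/-- The end of the proof, when the level and `S2` are chosen. `Y` is the expected size of the first
side, `Λ` the probability of the level. -/
theorem final_num {m m2 : ℕ} {Y Λ b μ A l θ ξ T δn lM lD last : ℝ} (hμ : 0 < μ) (hμ1 : μ ≤ 1)
    (hl : l = 1 + Real.log (1 / μ)) (hm : 400 ≤ μ * m) (hb : μ * m / 4 ≤ b) (hbm : b ≤ m)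
    (hA0 : 0 ≤ A) (hA : 10000 * l * A ≤ 1) (hm2 : (m2 : ℝ) ≤ 12 * (eta (b / m) * m) + 1)
    (hY : μ * m / (8 * l) ≤ Y) (hΛ0 : 0 ≤ Λ) (hΛ : Λ * (b / 2) ≤ Y)
    (hT : T ≤ ξ * m) (hξ : ξ ≤ μ / (1000 * l)) (hθ : θ = μ / (1000 * l))
    (hδ : δn ≤ μ * m / 400) (hlM : lM ≤ δn) (hlD : lD ≤ A * m2 + Real.log 2)
    (hlast : last ≤ 3 * θ)
    (hfin : Real.log 2 * Y - T - Λ * lD ≤ Λ * lM + b * Real.log 2 * last) : False := by
  have hl1 : Real.log 2 < 0.6931471808 := Real.log_two_lt_d9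
  have hl2 : 0.6931471803 < Real.log 2 := Real.log_two_gt_d9
  have hlog : 0 ≤ Real.log (1 / μ) := Real.log_nonneg (by rw [le_div_iff₀ hμ]; linarith)
  have hl0 : 1 ≤ l := by rw [hl]; linarith
  have hm0 : (0 : ℝ) < m := by
    by_contra h
    have : (m : ℝ) ≤ 0 := not_lt.1 h
    nlinarith
  have hb0 : 0 < b := by
    have : 0 < μ * m / 4 := by positivity
    linarith
  have hY0 : 0 < Y := lt_of_lt_of_le (by positivity) hY
  -- m2 in terms of b
  have h1 : Real.log (1 / (b / m)) ≤ 1.4 + Real.log (1 / μ) := by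
    have h2 : 1 / (b / m) ≤ 4 * (1 / μ) := by
      rw [one_div_div, div_le_iff₀ hb0]
      have : μ * m / 4 * (4 * (1 / μ)) = m := by field_simp
      have h3 : μ * m / 4 * (4 * (1 / μ)) ≤ b * (4 * (1 / μ)) :=
        mul_le_mul_of_nonneg_right hb (by positivity)
      linarith
    have h3 : Real.log (1 / (b / m)) ≤ Real.log (4 * (1 / μ)) :=
      Real.log_le_log (by positivity) h2
    rw [Real.log_mul (by norm_num) (by positivity)] at h3
    have h4 : Real.log 4 = 2 * Real.log 2 := by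
      rw [show (4 : ℝ) = 2 ^ 2 by norm_num, Real.log_pow]
      norm_num
    rw [h4] at h3
    linarith
  have h2 : eta (b / m) * m ≤ 2.4 * l * b := by
    unfold eta
    have e : b / m * (1 + Real.log (1 / (b / m))) * m = b * (1 + Real.log (1 / (b / m))) := by
      field_simp
    rw [e]
    have h3 : 1 + Real.log (1 / (b / m)) ≤ 2.4 * l := by rw [hl]; linarith
    calc b * (1 + Real.log (1 / (b / m))) ≤ b * (2.4 * l) := mul_le_mul_of_nonneg_left h3 hb0.le
      _ = 2.4 * l * b := by ring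
  have h3 : A * m2 ≤ 0.003 * b + 0.0001 := by
    have hA1 : A ≤ 0.0001 := by nlinarith
    calc A * m2 ≤ A * (12 * (2.4 * l * b) + 1) :=
          mul_le_mul_of_nonneg_left (by linarith) hA0
      _ = 28.8 * (l * A) * b + A := by ring
      _ ≤ 0.003 * b + 0.0001 := by
          have : l * A ≤ 0.0001 := by linarith
          nlinarith
  -- all terms in terms of Y
  have hΛb : Λ * b ≤ 2 * Y := by linarith
  have hμb : Λ * (μ * m) ≤ 8 * Y := by
    have : Λ * (μ * m / 4) ≤ Λ * b := mul_le_mul_of_nonneg_left hb hΛ0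
    linarith
  have hΛ1 : Λ ≤ 0.02 * Y := by
    have : Λ * 400 ≤ Λ * (μ * m) := mul_le_mul_of_nonneg_left hm hΛ0
    linarith
  have t1 : Λ * lD ≤ 0.03 * Y := by
    have : lD ≤ 0.003 * b + 1 := by linarith
    calc Λ * lD ≤ Λ * (0.003 * b + 1) := mul_le_mul_of_nonneg_left this hΛ0
      _ = 0.003 * (Λ * b) + Λ := by ring
      _ ≤ 0.03 * Y := by linarith
  have t2 : Λ * lM ≤ 0.02 * Y := by
    calc Λ * lM ≤ Λ * (μ * m / 400) := mul_le_mul_of_nonneg_left (by linarith) hΛ0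
      _ = (Λ * (μ * m)) / 400 := by ring
      _ ≤ 0.02 * Y := by linarith
  have hYl : μ * m / l ≤ 8 * Y := by
    have : μ * m / (8 * l) = μ * m / l / 8 := by
      field_simp
    rw [this] at hY
    linarith
  have t3 : T ≤ 0.008 * Y := by
    have : ξ * m ≤ μ / (1000 * l) * m := mul_le_mul_of_nonneg_right hξ hm0.le
    have e : μ / (1000 * l) * m = μ * m / l / 1000 := by field_simp
    linarith
  have t4 : b * Real.log 2 * last ≤ 0.02 * Y := by
    have h4 : 0 ≤ b * Real.log 2 := by positivity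
    calc b * Real.log 2 * last ≤ b * Real.log 2 * (3 * θ) := mul_le_mul_of_nonneg_left hlast h4
      _ ≤ (m * 0.7) * (3 * θ) := by
          have hθ0 : 0 ≤ 3 * θ := by rw [hθ]; positivity
          refine mul_le_mul_of_nonneg_right ?_ hθ0
          nlinarith
      _ = 2.1 * (μ * m / l) / 1000 := by rw [hθ]; field_simp; ring
      _ ≤ 0.02 * Y := by linarith
  nlinarith

theorem S1_card {n : ℕ} {Ω' : Type} (b : ℝ) (D : Ω' → Finset (Fin n)) (q : Ω') :
    ((S1 b D q).card : ℝ) = if b / 2 < ((D q).card : ℝ) ∧ ((D q).card : ℝ) ≤ b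
      then ((D q).card : ℝ) else 0 := by
  unfold S1 Lev
  split_ifs with h
  · rfl
  · simp

theorem partB (hDSX : S_DSX) (hCOV : S_COV) (hUPP : S_UPP) (hLOW : S_LOW) (hSUBS : S_SUBS)
    (hCTE : S_CTE) (hLEV : S_LEV) (hSMP : S_SMP) {n r w : ℕ} (Z : Finset (Fin n → Bool))
    (hZ : Z.Nonempty) (U : Fin r → (Fin n → Bool) → Finset (Fin n))
    (f : (Fin n → Bool) → Bool) (M : ℕ) (hFam : Fam n r w Z U) (hf : ∀ z ∈ Z, f z = true)
    (hrig : Rigid f) (hrect : RectFree f M) (hM1 : 1 ≤ M) (V : Finset (Fin n))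
    (J1 : Finset (Fin r)) (μ ε θ ξ δ l : ℝ) (hμ : 0 < μ) (hμ1 : μ ≤ 1) (hε0 : 0 < ε)
    (hε : 4 * ε ≤ 1 / 10000) (hl : l = 1 + Real.log (1 / μ))
    (hη : 10000 * l * eta (4 * ε) ≤ 1) (hθ : θ = μ / (1000 * l)) (hξ : ξ ≤ μ / (1000 * l))
    (hTC : TC (uni Z hZ) (FJ Z U V J1ᶜ) V Subtype.val ≤ ξ * V.card)
    (hO : μ * V.card ≤ ∑ v ∈ V, O (uni Z hZ) (FJ Z U V J1ᶜ) (bit Z v))
    (hheavy : ((Z.filter fun z => 2 * ε * V.card < ((UJ U J1 z ∩ V).card : ℝ)).card : ℝ) ≤
      θ * Z.card)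
    (hm : 400 ≤ μ * V.card) (hm' : 1 / (4 * ε ^ 2 * θ) ≤ 3 * μ * V.card)
    (hθe : Real.exp (-(μ * V.card)) ≤ θ) (hδ : δ * n ≤ μ * V.card / 400)
    (hM : (M : ℝ) ≤ Real.exp (δ * n)) (hZ2 : (2 : ℝ) ^ n ≤ Real.exp (δ * n) * Z.card) :
    False := by
  have hlog : 0 ≤ Real.log (1 / μ) := Real.log_nonneg (by rw [le_div_iff₀ hμ]; linarith)
  have hl0 : 1 ≤ l := by rw [hl]; linarith
  have hθ0 : 0 < θ := by rw [hθ]; positivity
  have hθ4 : θ ≤ μ / 4 := by
    rw [hθ]
    apply div_le_div_of_nonneg_left hμ.le (by norm_num)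
    linarith
  have hm0 : (0 : ℝ) < V.card := by
    by_contra h
    have : (V.card : ℝ) ≤ 0 := not_lt.1 h
    nlinarith
  have hmV : (400 : ℝ) ≤ V.card := by nlinarith
  have hZc : (0 : ℝ) < Z.card := by exact_mod_cast Finset.card_pos.2 hZ
  obtain ⟨Ω', _, P', π, D, hD⟩ := hDSX n r Z hZ U V J1
  have hcov := (hCOV n r w Z hZ U f hFam hf hrig).2 V J1 Ω' P' π D hD
  have hXm : ∀ q, P'.p q ≠ 0 → 0 ≤ ((D q).card : ℝ) ∧ ((D q).card : ℝ) ≤ V.card := by
    intro q hq
    exact ⟨Nat.cast_nonneg _, by exact_mod_cast card_le_card (hD.sub q hq)⟩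
  set E1 := Z.filter fun z => 2 * ε * V.card < ((UJ U J1 z ∩ V).card : ℝ) with hE1
  have hbig : ex P' (fun q => if 2 * ε * V.card < ((D q).card : ℝ) then 1 else 0) ≤ θ := by
    refine le_trans (ex_mono P' _ (fun q => if (π q).1 ∈ E1 then 1 else 0) ?_)
      (law_le Z hZ P' π hD.law E1 θ hheavy)
    intro q hq
    by_cases h : 2 * ε * V.card < ((D q).card : ℝ)
    · have h2 : (π q).1 ∈ E1 := by
        rw [hE1, mem_filter]
        refine ⟨(π q).2, lt_of_lt_of_le h ?_⟩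
        exact_mod_cast card_le_card (hcov q hq).2
      rw [if_pos h, if_pos h2]
    · rw [if_neg h]
      split_ifs <;> norm_num
  obtain ⟨b, hb1, hb2, hb3⟩ := hLEV Ω' P' (fun q => ((D q).card : ℝ)) V.card μ ε θ hm0 hμ hμ1 hε0
    (by linarith) hθ4 hXm (hO.trans hD.low) hbig
  have hb0 : 0 < b := lt_of_lt_of_le (by positivity) hb1
  set β : ℝ := b / V.card with hβ
  have hβ0 : 0 < β := div_pos hb0 hm0
  have hβ2 : β ≤ 2 * ε := by
    rw [hβ, div_le_iff₀ hm0]
    exact hb2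
  have hβm : β * V.card = b := by rw [hβ]; field_simp
  have hA1 : eta (4 * ε) ≤ 1 / 10000 := by
    have h0 : 0 ≤ eta (4 * ε) := le_trans (by linarith) (le_eta (by linarith : 0 < 4 * ε)
      (by linarith))
    nlinarith
  have hA0 : 0 ≤ eta (4 * ε) := le_trans (by linarith) (le_eta (by linarith : 0 < 4 * ε)
    (by linarith))
  have hηβ : eta β ≤ eta (4 * ε) := eta_mono hβ0 (by linarith) (by linarith)
  have hββ : β ≤ eta β := le_eta hβ0 (by linarith)
  set m2 : ℕ := ⌈12 * (eta β * V.card)⌉₊ with hm2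
  have hx0 : 0 ≤ 12 * (eta β * V.card) := by
    have : 0 ≤ eta β := by linarith
    positivity
  have hm2a : 12 * (eta β * V.card) ≤ m2 := Nat.le_ceil _
  have hm2b : (m2 : ℝ) ≤ 12 * (eta β * V.card) + 1 := (Nat.ceil_lt_add_one hx0).le
  have hm2V : m2 ≤ V.card := by
    have h1 : (m2 : ℝ) ≤ V.card := by
      refine hm2b.trans ?_
      have : eta β * V.card ≤ 1 / 10000 * V.card :=
        mul_le_mul_of_nonneg_right (by linarith) hm0.le
      linarith
    exact_mod_cast h1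
  have hm2c : 3 * μ * V.card ≤ m2 := by
    refine le_trans ?_ hm2a
    have : β * V.card ≤ eta β * V.card := mul_le_mul_of_nonneg_right hββ hm0.le
    rw [hβm] at this
    linarith
  have hm21 : 1 ≤ m2 := by
    have : (1 : ℝ) ≤ m2 := by linarith
    exact_mod_cast this
  -- the set `S2`
  obtain ⟨S2, hS2V, hS2c, hS2⟩ := choose_S2n hSMP V (Z \ E1) (fun z => UJ U J1 z) m2 (2 * ε)
    hm2V hm21 (by linarith) (by
      intro z hz
      rw [mem_sdiff] at hz
      by_contra hcon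
      rw [not_le] at hcon
      refine hz.2 ?_
      rw [hE1, mem_filter]
      exact ⟨hz.1, hcon⟩)
  set E2 := (Z \ E1).filter fun z => 2 * (2 * ε) * m2 < ((UJ U J1 z ∩ S2).card : ℝ) with hE2
  have hE2c : (E2.card : ℝ) ≤ θ * Z.card := by
    refine hS2.trans ?_
    have h1 : ((Z \ E1).card : ℝ) ≤ Z.card := by exact_mod_cast card_le_card sdiff_subset
    have h2 : 1 ≤ θ * ((2 * ε) ^ 2 * m2) := by
      have h3 : 1 / (4 * ε ^ 2 * θ) ≤ m2 := hm'.trans hm2c
      rw [div_le_iff₀ (by positivity)] at h3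
      calc (1 : ℝ) ≤ m2 * (4 * ε ^ 2 * θ) := h3
        _ = θ * ((2 * ε) ^ 2 * m2) := by ring
    have h4 : (0 : ℝ) < (2 * ε) ^ 2 * m2 := by
      have : (0 : ℝ) < m2 := by exact_mod_cast hm21
      positivity
    rw [div_le_iff₀ h4]
    calc ((Z \ E1).card : ℝ) ≤ Z.card * 1 := by rw [mul_one]; exact h1
      _ ≤ Z.card * (θ * ((2 * ε) ^ 2 * m2)) := mul_le_mul_of_nonneg_left h2 hZc.le
      _ = θ * Z.card * ((2 * ε) ^ 2 * m2) := by ring
  set E := E1 ∪ E2 with hE
  have hEc : (E.card : ℝ) ≤ (2 * θ) * Z.card := by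
    have h1 : (E.card : ℝ) ≤ E1.card + E2.card := by exact_mod_cast card_union_le _ _
    linarith
  have hEn : ∀ z ∈ Z, z ∉ E → ((UJ U J1 z ∩ S2).card : ℝ) ≤ (4 * ε) * S2.card := by
    intro z hz hzE
    rw [hE, mem_union, not_or] at hzE
    by_contra hcon
    rw [not_le] at hcon
    refine hzE.2 ?_
    rw [hE2, mem_filter, mem_sdiff]
    refine ⟨⟨hz, hzE.1⟩, ?_⟩
    rw [hS2c] at hcon
    linarith
  -- the count
  have hcte := hCTE n r w Z hZ U f M hFam hf hrig hrect V J1 Ω' P' π D hD b (4 * ε) β E S2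
    (by linarith) (by linarith) hβ0 (by linarith) hβm.ge hEn
  set EE := Z.filter fun z => z ∉ E ∧ ∃ q, P'.p q ≠ 0 ∧ (π q).1 = z ∧ Lev b (D q) ∧
      M ≤ (vals P' (KK U J1 b E S2 π D) (fun q' => pat (S1 b D q') (π q').1) q).card with hEE
  rw [hS2c] at hcte
  have hEEc : (EE.card : ℝ) ≤ θ * Z.card :=
    hcte.trans (count_small hm2c hA1 hε hm2a hδ hμ hM hZ2 hθe)
  have hupp := hUPP n r Z U J1 Ω' P' π D b E S2 M hM1 hb0.le
  have hlast : ex P' (fun q => if Lev b (D q) ∧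
      M ≤ (vals P' (KK U J1 b E S2 π D) (fun q' => pat (S1 b D q') (π q').1) q).card
      then (1 : ℝ) else 0) ≤ 3 * θ := by
    have h1 := law_le Z hZ P' π hD.law E (2 * θ) hEc
    have h2 := law_le Z hZ P' π hD.law EE θ hEEc
    have h3 : ex P' (fun q => if Lev b (D q) ∧
      M ≤ (vals P' (KK U J1 b E S2 π D) (fun q' => pat (S1 b D q') (π q').1) q).card
      then (1 : ℝ) else 0) ≤ ex P' (fun q => (if (π q).1 ∈ E then (1 : ℝ) else 0) +
        if (π q).1 ∈ EE then 1 else 0) := by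
      refine ex_mono P' _ _ fun q hq => ?_
      split_ifs with h4 h5 h6 h7 h8 h9 h10
      · norm_num
      · norm_num
      · norm_num
      · exfalso
        apply h7
        rw [hEE, mem_filter]
        exact ⟨(π q).2, h5, q, hq, rfl, h4.1, h4.2⟩
      · norm_num
      · norm_num
      · norm_num
      · norm_num
    rw [ex_add] at h3
    linarith
  -- the lower bound
  set DD : Finset (Finset (Fin n)) := insert ∅ ((S2.powerset.filter fun T =>
    (T.card : ℝ) ≤ (4 * ε) * S2.card).image fun T => S2 \ T) with hDD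
  have hlow := hLOW n r Z hZ U V J1 Ω' P' π D hD b E S2 DD (by
    intro q _ hq
    unfold T2
    split_ifs with h
    · rw [hDD, mem_insert]
      right
      rw [mem_image]
      refine ⟨UJ U J1 (π q).1 ∩ S2, ?_, ?_⟩
      · rw [mem_filter, mem_powerset]
        exact ⟨inter_subset_right, hEn _ (π q).2 h.2⟩
      · ext x
        simp only [mem_sdiff, mem_inter, not_and]
        constructor
        · rintro ⟨h1, h2⟩
          exact ⟨h1, fun h3 => h2 h3 h1⟩
        · rintro ⟨h1, h2⟩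
          exact ⟨h1, fun h3 => absurd h3 h2⟩
    · rw [hDD]
      exact mem_insert_self _ _)
  have hDDc : Real.log DD.card ≤ eta (4 * ε) * m2 + Real.log 2 := by
    have h1 := hSUBS (Fin n) S2 (4 * ε) (by linarith) (by linarith)
    rw [hS2c] at h1
    have h2 : (DD.card : ℝ) ≤ 2 * Real.exp (eta (4 * ε) * m2) := by
      have h3 : DD.card ≤ (S2.powerset.filter fun T =>
          (T.card : ℝ) ≤ (4 * ε) * S2.card).card + 1 := by
        rw [hDD]
        exact (card_insert_le _ _).trans (Nat.add_le_add_right card_image_le 1)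
      have h4 : (DD.card : ℝ) ≤ ((S2.powerset.filter fun T =>
          (T.card : ℝ) ≤ (4 * ε) * S2.card).card : ℝ) + 1 := by exact_mod_cast h3
      rw [hS2c] at h4
      have h5 : 1 ≤ Real.exp (eta (4 * ε) * m2) := Real.one_le_exp (by positivity)
      linarith
    have h3 : (0 : ℝ) < DD.card := by
      have : 0 < DD.card := card_pos.2 ⟨∅, by rw [hDD]; exact mem_insert_self _ _⟩
      exact_mod_cast this
    calc Real.log DD.card ≤ Real.log (2 * Real.exp (eta (4 * ε) * m2)) := Real.log_le_log h3 h2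
      _ = eta (4 * ε) * m2 + Real.log 2 := by
          rw [Real.log_mul (by norm_num) (Real.exp_pos _).ne', Real.log_exp]
          ring
  have hscale : ∀ c : ℝ, ex P' (fun q => if Lev b (D q) then c else 0) =
      ex P' (fun q => if Lev b (D q) then 1 else 0) * c := by
    intro c
    rw [mul_comm, ← ex_mul]
    congr 1
    funext q
    split_ifs <;> simp
  set Lam : ℝ := ex P' (fun q => if Lev b (D q) then 1 else 0) with hLam
  rw [hscale] at hlow hupp
  have hLam0 : 0 ≤ Lam := ex_nonneg P' _ fun q => by split_ifs <;> norm_num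
  have hYΛ : Lam * (b / 2) ≤ ex P' (fun q => ((S1 b D q).card : ℝ)) := by
    rw [hLam, mul_comm, ← ex_mul]
    refine ex_mono P' _ _ fun q _ => ?_
    rw [S1_card]
    by_cases h : b / 2 < ((D q).card : ℝ) ∧ ((D q).card : ℝ) ≤ b
    · rw [if_pos (show Lev b (D q) from h), if_pos h]
      linarith [h.1]
    · rw [if_neg (show ¬ Lev b (D q) from h), if_neg h]
      simp
  have hY : μ * V.card / (8 * l) ≤ ex P' (fun q => ((S1 b D q).card : ℝ)) := by
    rw [hl]
    refine hb3.trans (le_of_eq ?_)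
    congr 1
    funext q
    rw [S1_card]
  have hlM : Real.log M ≤ δ * n := by
    have h1 : (0 : ℝ) < M := by exact_mod_cast hM1
    calc Real.log M ≤ Real.log (Real.exp (δ * n)) := Real.log_le_log h1 hM
      _ = δ * n := Real.log_exp _
  refine final_num (m := V.card) (m2 := m2) (b := b) (A := eta (4 * ε)) hμ hμ1 hl hm hb1 ?_ hA0 hη
    hm2b hY hLam0 hYΛ hTC hξ hθ hδ hlM hDDc hlast ?_
  · have : 2 * ε * V.card ≤ 1 * V.card := mul_le_mul_of_nonneg_right (by linarith) hm0.le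
    linarith
  · linarith [hlow, hupp]

end MCORE

open MCORE in
theorem t_CORE (hNUM : S_NUM) (hCHV : S_CHV) (hREC : S_REC) (hSTART : S_START) (hDSX : S_DSX)
    (hCOV : S_COV) (hUPP : S_UPP) (hLOW : S_LOW) (hSUBS : S_SUBS) (hCTE : S_CTE) (hLEV : S_LEV)
    (hSMP : S_SMP) : S_CORE := by
  intro k hk
  obtain ⟨r, m0, μ, ξ, hm0, hm0r, hμ, hμ1, hξ, hnum1, hnum2, hnum⟩ :=
    hNUM k 10000 hk (by norm_num)
  have hr0 : 0 < r := lt_trans hm0 hm0r
  have hr : (0 : ℝ) < r := by exact_mod_cast hr0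
  have hk' : (0 : ℝ) < k := by exact_mod_cast hk
  have hm0' : (0 : ℝ) < m0 := by exact_mod_cast hm0
  obtain ⟨ε, hε⟩ : ∃ ε : ℝ, ε = k * m0 / r := ⟨_, rfl⟩
  have hε0 : 0 < ε := by rw [hε]; positivity
  obtain ⟨l, hl⟩ : ∃ l : ℝ, l = 1 + Real.log (1 / μ) := ⟨_, rfl⟩
  have hl0 : 1 ≤ l := by
    rw [hl]
    have : 0 ≤ Real.log (1 / μ) := Real.log_nonneg (by rw [le_div_iff₀ hμ]; linarith)
    linarith
  have hlpos : 0 < l := by linarith
  obtain ⟨θ, hθ⟩ : ∃ θ : ℝ, θ = μ / (1000 * l) := ⟨_, rfl⟩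
  have hθ0 : 0 < θ := by rw [hθ]; positivity
  obtain ⟨ξ', hξ'⟩ : ∃ ξ' : ℝ, ξ' = min (ξ / 8) θ := ⟨_, rfl⟩
  have hξ'0 : 0 < ξ' := by rw [hξ']; exact lt_min (by positivity) hθ0
  have hξ'1 : ξ' ≤ ξ / 8 := by rw [hξ']; exact min_le_left _ _
  have hξ'2 : ξ' ≤ θ := by rw [hξ']; exact min_le_right _ _
  rw [← hε] at hnum1 hnum2
  rw [← hl] at hnum2
  obtain ⟨γ, hγ, n1, hchv⟩ := hCHV r k ξ' ε θ hξ'0 hε0 hθ0
  obtain ⟨n2, hn2⟩ := exists_nat_ge
    ((400 / μ + 1 / (4 * ε ^ 2 * θ) / (3 * μ) + |Real.log θ| / μ) / γ)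
  refine ⟨r, hr0, γ * μ / 400, by positivity, max n1 n2, ?_⟩
  intro n hn w Z U f M hFam hrw hf hrig hrect hM1 hM hZ2
  obtain ⟨δ, hδ⟩ : ∃ δ : ℝ, δ = γ * μ / 400 := ⟨_, rfl⟩
  rw [← hδ] at hM hZ2
  have hZ : Z.Nonempty := by
    rw [Finset.nonempty_iff_ne_empty]
    intro h
    rw [h, Finset.card_empty, Nat.cast_zero, mul_zero] at hZ2
    exact absurd hZ2 (not_le.2 (by positivity))
  have hZc : (0 : ℝ) < Z.card := by exact_mod_cast Finset.card_pos.2 hZ
  obtain ⟨V, hV1, hVγ, hVTC, hVcnt, hVheavy⟩ := hchv n (le_trans (le_max_left _ _) hn) w Z hZ U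
    hFam hrw
  have hmp : (0 : ℝ) < V.card := by exact_mod_cast hV1
  have hγn : 400 / μ + 1 / (4 * ε ^ 2 * θ) / (3 * μ) + |Real.log θ| / μ ≤ V.card := by
    refine le_trans ?_ hVγ
    have h1 : (n2 : ℝ) ≤ n := by exact_mod_cast le_trans (le_max_right _ _) hn
    have h2 := hn2.trans h1
    rw [div_le_iff₀ hγ] at h2
    linarith
  have ha : 0 < 400 / μ := by positivity
  have hb : 0 < 1 / (4 * ε ^ 2 * θ) / (3 * μ) := by positivity
  have hc : 0 ≤ |Real.log θ| / μ := by positivity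
  have hm400 : 400 ≤ μ * V.card := by
    have : 400 / μ ≤ V.card := by linarith
    rw [div_le_iff₀ hμ] at this
    linarith
  have hm' : 1 / (4 * ε ^ 2 * θ) ≤ 3 * μ * V.card := by
    have : 1 / (4 * ε ^ 2 * θ) / (3 * μ) ≤ V.card := by linarith
    rw [div_le_iff₀ (by positivity)] at this
    linarith
  have hθe : Real.exp (-(μ * V.card)) ≤ θ := by
    have : |Real.log θ| / μ ≤ V.card := by linarith
    rw [div_le_iff₀ hμ] at this
    have h2 : -(μ * V.card) ≤ Real.log θ := by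
      have := neg_abs_le (Real.log θ)
      linarith
    calc Real.exp (-(μ * V.card)) ≤ Real.exp (Real.log θ) := Real.exp_le_exp.2 h2
      _ = θ := Real.exp_log hθ0
  have hδn : δ * n ≤ μ * V.card / 400 := by
    have : μ * (γ * n) ≤ μ * V.card := mul_le_mul_of_nonneg_left hVγ hμ.le
    calc δ * n = μ * (γ * n) / 400 := by rw [hδ]; ring
      _ ≤ μ * V.card / 400 := by linarith
  -- the start
  have hstart := hSTART n r Z hZ U V (δ * n) (by
    have h1 := Real.log_le_log (by positivity) hZ2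
    rw [Real.log_mul (Real.exp_pos _).ne' hZc.ne', Real.log_exp, Real.log_pow] at h1
    linarith)
  -- the recursion
  obtain ⟨o, ho0, horec, hoJ⟩ := hREC n r w Z hZ U hFam V (ξ' * V.card) (4 * k * V.card) hVTC hVcnt
  have hmu := hnum (fun i => o i / V.card) (by
    show 2 / 5 ≤ o 0 / V.card
    rw [le_div_iff₀ hmp, ho0]
    refine le_trans ?_ hstart
    have : μ * V.card ≤ 1 * V.card := mul_le_mul_of_nonneg_right hμ1 hmp.le
    linarith) (by
    intro i hi c0
    have h := horec i hi c0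
    show o i / V.card - 12 / ((r : ℝ) - i) *
        (c0 * (o i / V.card) + 4 * k * (((r : ℝ) - i) / r) ^ c0) - ξ ≤ o (i + 1) / V.card
    rw [le_div_iff₀ hmp]
    refine le_trans ?_ h
    have e : (o i / V.card - 12 / ((r : ℝ) - i) *
        (c0 * (o i / V.card) + 4 * k * (((r : ℝ) - i) / r) ^ c0) - ξ) * V.card =
        o i - 12 / ((r : ℝ) - i) * (c0 * o i + 4 * k * V.card * (((r : ℝ) - i) / r) ^ c0) -
          ξ * V.card := by
      have h1 : o i / V.card * V.card = o i := div_mul_cancel₀ _ hmp.ne'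
      linear_combination (1 - 12 / ((r : ℝ) - i) * c0) * h1
    rw [e]
    have : 8 * ξ' * V.card ≤ ξ * V.card := mul_le_mul_of_nonneg_right (by linarith) hmp.le
    linarith)
  have hmu' : μ * V.card ≤ o (r - m0) := by
    have : μ ≤ o (r - m0) / V.card := hmu
    rwa [le_div_iff₀ hmp] at this
  obtain ⟨J, hJc, hJ⟩ := hoJ (r - m0) (Nat.sub_le _ _)
  have hJ1 : (Jᶜ).card = m0 := by
    rw [Finset.card_compl, Fintype.card_fin, hJc]
    omega
  have hJJ : (Jᶜ)ᶜ = J := compl_compl J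
  refine partB hDSX hCOV hUPP hLOW hSUBS hCTE hLEV hSMP Z hZ U f M hFam hf hrig hrect hM1 V Jᶜ
    μ ε θ ξ' δ l hμ hμ1 hε0 hnum1 hl (by linarith) hθ (hξ'2.trans_eq hθ) ?_ ?_ ?_ hm400 hm' hθe hδn
    hM hZ2
  · exact hVTC _
  · rw [hJJ]
    exact hmu'.trans hJ
  · refine hVheavy Jᶜ ?_
    rw [hJ1, hε]
    have h1 : ((r : ℝ) * w) ≤ k * n := by exact_mod_cast hrw
    calc (m0 : ℝ) * w = m0 / r * (r * w) := by field_simp
      _ ≤ m0 / r * (k * n) := mul_le_mul_of_nonneg_left h1 (by positivity)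
      _ = k * m0 / r * n := by ring

end Pool.Agent.TKN
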