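import Pool.Agent.TKN.St2

/-!
# Project TKN: module REC, the recursion for the average uncertainty
-/

set_option autoImplicit false

open Finset
open scoped Classical

namespace Pool.Agent.TKN

open NCE

namespace MREC

/-! ### Counting pairs -/

lemma pair_sum {r : ℕ} (i : ℕ) (f : Finset (Fin r) → ℝ) :
    ∑ J ∈ powersetCard i (univ : Finset (Fin r)), ∑ j ∈ univ.filter (fun j => j ∉ J),
      f (insert j J) = (i + 1) * ∑ J ∈ powersetCard (i + 1) (univ : Finset (Fin r)), f J := by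
  have h1 : ∀ J ∈ powersetCard (i + 1) (univ : Finset (Fin r)), ∑ j ∈ J, f J =
      (i + 1) * f J := by
    intro J hJ
    rw [sum_const, (mem_powersetCard.1 hJ).2, nsmul_eq_mul]
    push_cast
    ring
  rw [mul_sum, ← sum_congr rfl h1, sum_sigma', sum_sigma']
  refine sum_bij' (fun x _ => ⟨insert x.2 x.1, x.2⟩) (fun x _ => ⟨x.1.erase x.2, x.2⟩) ?_ ?_ ?_ ?_ ?_
  · rintro ⟨J, j⟩ h
    rw [mem_sigma, mem_powersetCard, mem_filter] at h
    rw [mem_sigma, mem_powersetCard]
    exact ⟨⟨subset_univ _, by rw [card_insert_of_notMem h.2.2, h.1.2]⟩, mem_insert_self _ _⟩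
  · rintro ⟨J, j⟩ h
    rw [mem_sigma, mem_powersetCard] at h
    rw [mem_sigma, mem_powersetCard, mem_filter]
    refine ⟨⟨subset_univ _, ?_⟩, mem_univ _, notMem_erase _ _⟩
    rw [card_erase_of_mem h.2, h.1.2]
    rfl
  · rintro ⟨J, j⟩ h
    rw [mem_sigma, mem_powersetCard, mem_filter] at h
    simp only [erase_insert h.2.2]
  · rintro ⟨J, j⟩ h
    rw [mem_sigma, mem_powersetCard] at h
    simp only [insert_erase h.2]
  · rintro ⟨J, j⟩ _
    rfl

lemma card_compl {r i : ℕ} {J : Finset (Fin r)} (hJ : J.card = i) :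
    ((univ.filter fun j => j ∉ J).card : ℝ) = (r : ℝ) - i := by
  have h1 : (univ.filter fun j => j ∉ J) = Jᶜ := by
    ext j
    simp
  have h2 : J.card ≤ r := by
    have := card_le_univ J
    rwa [Fintype.card_fin] at this
  rw [h1, Finset.card_compl, Fintype.card_fin, Nat.cast_sub h2, hJ]

/-! ### Expectations -/

section

variable {Ω : Type} [Fintype Ω] {γ : Type}

lemma ex_mono (P : FP Ω) {f g : Ω → ℝ} (h : ∀ ω, f ω ≤ g ω) : ex P f ≤ ex P g :=
  sum_le_sum fun ω _ => mul_le_mul_of_nonneg_left (h ω) (P.nn ω)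

lemma ex_sum (P : FP Ω) {ι : Type} (s : Finset ι) (f : ι → Ω → ℝ) :
    ∑ i ∈ s, ex P (f i) = ex P (fun ω => ∑ i ∈ s, f i ω) := by
  unfold ex
  rw [sum_comm]
  refine sum_congr rfl fun ω _ => ?_
  rw [mul_sum]

lemma ex_add (P : FP Ω) (f g : Ω → ℝ) : ex P (fun ω => f ω + g ω) = ex P f + ex P g := by
  unfold ex
  rw [← sum_add_distrib]
  exact sum_congr rfl fun ω _ => mul_add _ _ _

lemma ex_mul (P : FP Ω) (c : ℝ) (f : Ω → ℝ) : ex P (fun ω => c * f ω) = c * ex P f := by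
  unfold ex
  rw [mul_sum]
  exact sum_congr rfl fun ω _ => by ring

lemma pr_nonneg (P : FP Ω) {α : Type} (X : Ω → α) (x : α) : 0 ≤ pr P X x :=
  sum_nonneg fun ω _ => by
    split_ifs
    · exact P.nn ω
    · exact le_rfl

lemma opp_nonneg (P : FP Ω) (F : Ω → γ) (b : Ω → Bool) (ω : Ω) : 0 ≤ opp P F b ω :=
  div_nonneg (pr_nonneg _ _ _) (pr_nonneg _ _ _)

lemma opp_le_one (P : FP Ω) (F : Ω → γ) (b : Ω → Bool) (ω : Ω) : opp P F b ω ≤ 1 := by
  refine div_le_one_of_le₀ ?_ (pr_nonneg _ _ _)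
  refine sum_le_sum fun ω' _ => ?_
  by_cases h : (F ω', b ω') = (F ω, !b ω)
  · rw [if_pos h, if_pos (Prod.mk.inj h).1]
  · rw [if_neg h]
    split_ifs
    · exact P.nn ω'
    · exact le_rfl

lemma opp_zero (P : FP Ω) (F : Ω → γ) (b : Ω → Bool) (ω : Ω)
    (h : ∀ ω', F ω' = F ω → b ω' = b ω) : opp P F b ω = 0 := by
  unfold opp pr
  rw [sum_eq_zero, zero_div]
  intro ω' _
  rw [if_neg]
  intro h'
  obtain ⟨h1, h2⟩ := Prod.mk.inj h'
  rw [h ω' h1] at h2
  exact absurd h2 (by cases b ω <;> simp)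

end

/-! ### The pointwise bound -/

/-- a variable which is read by one of the patterns is determined -/
lemma opp_read {n r : ℕ} (Z : Finset (Fin n → Bool)) (hZ : Z.Nonempty)
    (U : Fin r → (Fin n → Bool) → Finset (Fin n)) (V : Finset (Fin n)) (J : Finset (Fin r))
    (v : Fin n) (ω : {z // z ∈ Z}) {j : Fin r} (hj : j ∈ J) (hv : v ∈ U j ω.1) :
    opp (uni Z hZ) (FJ Z U V J) (bit Z v) ω = 0 := by
  apply opp_zero
  intro ω' h
  have h1 := congrFun (congrArg Prod.snd h) j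
  have h2 := congrFun h1 v
  simp only [FJ, if_pos hj, pat, if_pos hv] at h2
  unfold bit
  by_cases h3 : v ∈ U j ω'.1
  · rw [if_pos h3] at h2
    exact Option.some_injective _ h2
  · rw [if_neg h3] at h2
    exact absurd h2 (by simp)

/-- the segments which read `v` -/
noncomputable def RR {n r : ℕ} (U : Fin r → (Fin n → Bool) → Finset (Fin n)) (z : Fin n → Bool)
    (v : Fin n) : Finset (Fin r) := univ.filter fun j => v ∈ U j z

lemma point {n r : ℕ} (Z : Finset (Fin n → Bool)) (hZ : Z.Nonempty)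
    (U : Fin r → (Fin n → Bool) → Finset (Fin n)) (V : Finset (Fin n)) (J : Finset (Fin r))
    (v : Fin n) (ω : {z // z ∈ Z}) (c0 : ℕ) :
    ∑ j ∈ univ.filter (fun j => j ∉ J), (if v ∈ U j ω.1 then
      opp (uni Z hZ) (FJ Z U V J) (bit Z v) ω else 0) ≤
      c0 * opp (uni Z hZ) (FJ Z U V J) (bit Z v) ω +
        (if Disjoint (RR U ω.1 v) J then max ((cnt U ω.1 v : ℝ) - c0) 0 else 0) := by
  obtain ⟨a, ha⟩ : ∃ a, a = opp (uni Z hZ) (FJ Z U V J) (bit Z v) ω := ⟨_, rfl⟩
  have ha0 : 0 ≤ a := by rw [ha]; exact opp_nonneg _ _ _ _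
  have ha1 : a ≤ 1 := by rw [ha]; exact opp_le_one _ _ _ _
  rw [← ha]
  by_cases hd : Disjoint (RR U ω.1 v) J
  · rw [if_pos hd]
    have h1 : ∑ j ∈ univ.filter (fun j => j ∉ J), (if v ∈ U j ω.1 then a else 0) ≤
        (cnt U ω.1 v : ℝ) * a := by
      rw [← sum_filter, sum_const, nsmul_eq_mul]
      refine mul_le_mul_of_nonneg_right ?_ ha0
      unfold cnt
      exact_mod_cast card_le_card (fun j hj => by
        rw [mem_filter] at hj ⊢
        exact ⟨mem_univ _, hj.2⟩)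
    refine h1.trans ?_
    rcases le_total (cnt U ω.1 v : ℝ) c0 with h | h
    · have h2 : (cnt U ω.1 v : ℝ) * a ≤ c0 * a := mul_le_mul_of_nonneg_right h ha0
      have h3 := le_max_right ((cnt U ω.1 v : ℝ) - c0) 0
      linarith
    · have h2 : ((cnt U ω.1 v : ℝ) - c0) * a ≤ (cnt U ω.1 v : ℝ) - c0 :=
        mul_le_of_le_one_right (by linarith) ha1
      have h3 := le_max_left ((cnt U ω.1 v : ℝ) - c0) 0
      linarith
  · rw [if_neg hd]
    obtain ⟨j, hj1, hj2⟩ := Finset.not_disjoint_iff.1 hd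
    have h0 : a = 0 := by
      rw [ha]
      exact opp_read Z hZ U V J v ω hj2 (mem_filter.1 hj1).2
    rw [h0]
    simp

/-- the average over the sets of segments -/
lemma avg (hCHO : S_CHO) {n r i : ℕ} (hi : i < r)
    (U : Fin r → (Fin n → Bool) → Finset (Fin n)) (z : Fin n → Bool) (v : Fin n) (c0 : ℕ) :
    ∑ J ∈ powersetCard i (univ : Finset (Fin r)),
      (if Disjoint (RR U z v) J then max ((cnt U z v : ℝ) - c0) 0 else 0) ≤
      ((((r : ℝ) - i) / r) ^ c0 * r.choose i) * (cnt U z v : ℝ) := by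
  have hr0 : 0 < r := by omega
  have hrR : (0 : ℝ) < r := by exact_mod_cast hr0
  have hiR : (i : ℝ) < r := by exact_mod_cast hi
  have hi0 : (0 : ℝ) ≤ i := Nat.cast_nonneg i
  obtain ⟨y, hy⟩ : ∃ y, y = ((r : ℝ) - i) / r := ⟨_, rfl⟩
  have hy0 : 0 ≤ y := by rw [hy]; exact div_nonneg (by linarith) hrR.le
  have hy1 : y ≤ 1 := by rw [hy]; exact div_le_one_of_le₀ (by linarith) hrR.le
  have h1 := hCHO r i (RR U z v) hi.le hr0
  rw [← hy] at h1 ⊢
  have hc : (RR U z v).card = cnt U z v := rfl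
  rw [hc] at h1
  rw [← sum_filter, sum_const, nsmul_eq_mul]
  have hC : (0 : ℝ) ≤ (r.choose i : ℝ) := Nat.cast_nonneg _
  rcases le_total (cnt U z v : ℝ) c0 with h | h
  · rw [max_eq_right (by linarith), mul_zero]
    positivity
  · rw [max_eq_left (by linarith)]
    have h2 : c0 ≤ cnt U z v := by exact_mod_cast h
    have h3 : y ^ cnt U z v ≤ y ^ c0 := pow_le_pow_of_le_one hy0 hy1 h2
    have hc0 : (0 : ℝ) ≤ c0 := Nat.cast_nonneg _
    calc (((powersetCard i (univ : Finset (Fin r))).filter fun J =>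
          Disjoint (RR U z v) J).card : ℝ) * ((cnt U z v : ℝ) - c0)
        ≤ (y ^ c0 * r.choose i) * ((cnt U z v : ℝ) - c0) :=
          mul_le_mul_of_nonneg_right (h1.trans (mul_le_mul_of_nonneg_right h3 hC)) (by linarith)
      _ ≤ (y ^ c0 * r.choose i) * (cnt U z v : ℝ) :=
          mul_le_mul_of_nonneg_left (by linarith) (by positivity)

/-- The last division. -/
theorem fin_step {S S' C C' d a c0 κ y t : ℝ} (hC0 : 0 < C) (hd : 0 < d)
    (h10 : d * S - (a + 1) * S' ≤ 12 * (c0 * S + y * C * κ) + 8 * (C * (d * t)))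
    (h11 : C' * (a + 1) = C * d) :
    S / C - 12 / d * (c0 * (S / C) + κ * y) - 8 * t ≤ S' / C' := by
  have e : S' / C' = (a + 1) * S' / (C * d) := by
    rw [← h11, mul_comm C' (a + 1)]
    have ha : (a + 1) ≠ 0 := by
      intro h
      rw [h, mul_zero] at h11
      exact (mul_pos hC0 hd).ne h11
    rw [mul_div_mul_left _ _ ha]
  rw [e, le_div_iff₀ (mul_pos hC0 hd)]
  have e2 : (S / C - 12 / d * (c0 * (S / C) + κ * y) - 8 * t) * (C * d) =
      d * S - 12 * (c0 * S + y * C * κ) - 8 * (C * (d * t)) := by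
    have hC := hC0.ne'
    have hd' := hd.ne'
    field_simp
    try ring
  rw [e2]
  linarith

end MREC

open MREC in
/-- REC -/
theorem t_REC (hSTEP : S_STEP) (hCHO : S_CHO) : S_REC := by
  intro n r w Z hZ U hF V t κ ht hκ
  obtain ⟨Φ, hΦ⟩ : ∃ Φ : Finset (Fin r) → ℝ, Φ = fun J =>
    ∑ v ∈ V, O (uni Z hZ) (FJ Z U V J) (bit Z v) := ⟨_, rfl⟩
  have hΦ' : ∀ J, ∑ v ∈ V, O (uni Z hZ) (FJ Z U V J) (bit Z v) = Φ J := fun J => by rw [hΦ]
  simp only [hΦ']
  refine ⟨fun i => (∑ J ∈ powersetCard i (univ : Finset (Fin r)), Φ J) / (r.choose i), ?_, ?_, ?_⟩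
  · simp
  · intro i hi c0
    obtain ⟨C, hC⟩ : ∃ C : ℝ, C = (r.choose i : ℝ) := ⟨_, rfl⟩
    have hC0 : 0 < C := by rw [hC]; exact_mod_cast Nat.choose_pos hi.le
    have hiR : (0 : ℝ) < (r : ℝ) - i := by
      have : (i : ℝ) < r := by exact_mod_cast hi
      linarith
    obtain ⟨S, hS⟩ : ∃ S : ℝ, S = ∑ J ∈ powersetCard i (univ : Finset (Fin r)), Φ J := ⟨_, rfl⟩
    obtain ⟨S', hS'⟩ : ∃ S' : ℝ, S' = ∑ J ∈ powersetCard (i + 1) (univ : Finset (Fin r)), Φ J :=
      ⟨_, rfl⟩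
    obtain ⟨y, hy⟩ : ∃ y, y = (((r : ℝ) - i) / r) ^ c0 := ⟨_, rfl⟩
    have hy0 : 0 ≤ y := by
      rw [hy]
      exact pow_nonneg (div_nonneg hiR.le (Nat.cast_nonneg _)) _
    -- the sum over all pairs
    have h1 : ∑ J ∈ powersetCard i (univ : Finset (Fin r)),
        ∑ j ∈ univ.filter (fun j => j ∉ J), (Φ J - Φ (insert j J)) =
        ((r : ℝ) - i) * S - (i + 1) * S' := by
      have h2 : ∀ J ∈ powersetCard i (univ : Finset (Fin r)),
          ∑ j ∈ univ.filter (fun j => j ∉ J), (Φ J - Φ (insert j J)) =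
          ((r : ℝ) - i) * Φ J - ∑ j ∈ univ.filter (fun j => j ∉ J), Φ (insert j J) := by
        intro J hJ
        rw [sum_sub_distrib, sum_const, nsmul_eq_mul, card_compl (mem_powersetCard.1 hJ).2]
      rw [sum_congr rfl h2, sum_sub_distrib, ← mul_sum, pair_sum, ← hS, ← hS']
    -- one set of segments
    have h3 : ∀ J ∈ powersetCard i (univ : Finset (Fin r)),
        ∑ j ∈ univ.filter (fun j => j ∉ J), (Φ J - Φ (insert j J)) ≤
        12 * (c0 * Φ J + ∑ v ∈ V, ex (uni Z hZ) (fun ω =>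
          if Disjoint (RR U ω.1 v) J then max ((cnt U ω.1 v : ℝ) - c0) 0 else 0)) +
          8 * (((r : ℝ) - i) * t) := by
      intro J hJ
      have h4 : ∀ j ∈ univ.filter (fun j => j ∉ J), Φ J - Φ (insert j J) ≤
          12 * (∑ v ∈ V, ex (uni Z hZ) (fun ω => if v ∈ U j ω.1 then
            opp (uni Z hZ) (FJ Z U V J) (bit Z v) ω else 0)) + 8 * t := by
        intro j hj
        have h5 := hSTEP n r w Z hZ U hF V J j (mem_filter.1 hj).2
        rw [sum_sub_distrib, hΦ', hΦ'] at h5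
        have h6 := ht J
        linarith
      refine (sum_le_sum h4).trans ?_
      rw [sum_add_distrib, sum_const, nsmul_eq_mul, card_compl (mem_powersetCard.1 hJ).2,
        ← mul_sum, sum_comm]
      have h7 : ∑ v ∈ V, ∑ j ∈ univ.filter (fun j => j ∉ J), ex (uni Z hZ) (fun ω =>
          if v ∈ U j ω.1 then opp (uni Z hZ) (FJ Z U V J) (bit Z v) ω else 0) ≤
          c0 * Φ J + ∑ v ∈ V, ex (uni Z hZ) (fun ω =>
            if Disjoint (RR U ω.1 v) J then max ((cnt U ω.1 v : ℝ) - c0) 0 else 0) := by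
        rw [← hΦ' J, mul_sum, ← sum_add_distrib]
        refine sum_le_sum fun v _ => ?_
        rw [ex_sum]
        unfold O
        rw [← ex_mul, ← ex_add]
        exact ex_mono _ fun ω => point Z hZ U V J v ω c0
      linarith
    have h8 : ∑ J ∈ powersetCard i (univ : Finset (Fin r)), ∑ v ∈ V, ex (uni Z hZ) (fun ω =>
          if Disjoint (RR U ω.1 v) J then max ((cnt U ω.1 v : ℝ) - c0) 0 else 0) ≤
        y * C * κ := by
      rw [sum_comm]
      have h9 : ∀ v ∈ V, ∑ J ∈ powersetCard i (univ : Finset (Fin r)), ex (uni Z hZ) (fun ω =>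
          if Disjoint (RR U ω.1 v) J then max ((cnt U ω.1 v : ℝ) - c0) 0 else 0) ≤
          y * C * ex (uni Z hZ) (fun ω => (cnt U ω.1 v : ℝ)) := by
        intro v _
        rw [ex_sum, ← ex_mul]
        refine ex_mono _ fun ω => ?_
        rw [hy, hC]
        exact avg hCHO hi U ω.1 v c0
      refine (sum_le_sum h9).trans ?_
      rw [← mul_sum]
      exact mul_le_mul_of_nonneg_left hκ (by positivity)
    have h10 : ((r : ℝ) - i) * S - (i + 1) * S' ≤
        12 * (c0 * S + y * C * κ) + 8 * (C * (((r : ℝ) - i) * t)) := by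
      rw [← h1]
      refine (sum_le_sum h3).trans ?_
      rw [sum_add_distrib, ← mul_sum, sum_add_distrib, ← mul_sum, ← hS, sum_const, nsmul_eq_mul,
        card_powersetCard, card_univ, Fintype.card_fin, ← hC]
      linarith
    -- the binomial coefficients
    have h11 : ((r.choose (i + 1) : ℕ) : ℝ) * (i + 1) = C * ((r : ℝ) - i) := by
      have h12 := Nat.choose_succ_right_eq r i
      rw [hC, ← Nat.cast_sub hi.le]
      exact_mod_cast h12
    have hC1 : (0 : ℝ) < (r.choose (i + 1) : ℕ) := by exact_mod_cast Nat.choose_pos (by omega)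
    beta_reduce
    rw [← hS, ← hS', ← hy, ← hC]
    exact fin_step hC0 hiR h10 h11
  · intro i hi
    have hC : (0 : ℝ) < (r.choose i : ℝ) := by exact_mod_cast Nat.choose_pos hi
    have hne : (powersetCard i (univ : Finset (Fin r))).Nonempty := by
      rw [powersetCard_nonempty, card_univ, Fintype.card_fin]
      exact hi
    obtain ⟨J, hJ, h1⟩ := exists_le_of_sum_le hne (f := fun _ =>
      (∑ J ∈ powersetCard i (univ : Finset (Fin r)), Φ J) / (r.choose i)) (g := Φ) (by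
        rw [sum_const, nsmul_eq_mul, card_powersetCard, card_univ, Fintype.card_fin]
        exact (mul_div_cancel₀ _ hC.ne').le)
    exact ⟨J, (mem_powersetCard.1 hJ).2, h1⟩

end Pool.Agent.TKN
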