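import Pool.Agent.TKN.St8
import Pool.Agent.TKN.P_CORE
import Pool.Agent.TKN.P_REC

/-!
# COREQ: the core theorem with explicit bounds
-/

set_option autoImplicit false

open Finset
open scoped Classical

namespace Pool.Agent.TKN

open NCE
open Pool.Agent.Lib_helper20.SRO (RectFree Rigid flipAt)

namespace MCOREQ

/-- the numbers -/
theorem numsQ {r : ℕ} {l P : ℝ} (hr0 : 1 ≤ r) (hr : (r : ℝ) ≤ P) (hl : l ≤ P) (hl1 : 1 ≤ l) :
    ∃ K L : ℕ, 16000 * r * l ^ 3 ≤ K ∧ (80 * r + 16000 * l) * Real.exp l ≤ L ∧ 2 ≤ L ∧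
      (L : ℝ) ^ (r * K) * (3200 * (16000 * (r : ℝ) ^ 2 * l * Real.exp (2 * l))) ≤
        Real.exp (200000 * P ^ 6) := by
  have hP : 1 ≤ P := hl1.trans hl
  have hr1 : (1 : ℝ) ≤ r := by exact_mod_cast hr0
  have hP0 : 0 < P := by linarith
  refine ⟨⌈16000 * (r : ℝ) * l ^ 3⌉₊, ⌈(80 * (r : ℝ) + 16000 * l) * Real.exp l⌉₊, Nat.le_ceil _,
    Nat.le_ceil _, ?_, ?_⟩
  · have h1 : (2 : ℝ) ≤ (80 * (r : ℝ) + 16000 * l) * Real.exp l := by
      have : 1 ≤ Real.exp l := Real.one_le_exp (by linarith)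
      nlinarith
    have h2 := h1.trans (Nat.le_ceil ((80 * (r : ℝ) + 16000 * l) * Real.exp l))
    exact_mod_cast h2
  set K := ⌈16000 * (r : ℝ) * l ^ 3⌉₊ with hK
  set L := ⌈(80 * (r : ℝ) + 16000 * l) * Real.exp l⌉₊ with hL
  have hK1 : (K : ℝ) ≤ 16001 * P ^ 4 := by
    have h1 := (Nat.ceil_lt_add_one (show (0 : ℝ) ≤ 16000 * (r : ℝ) * l ^ 3 by positivity)).le
    have h2 : 16000 * (r : ℝ) * l ^ 3 ≤ 16000 * P * P ^ 3 := by gcongr
    have h3 : 1 ≤ P ^ 4 := one_le_pow₀ hP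
    calc (K : ℝ) ≤ 16000 * (r : ℝ) * l ^ 3 + 1 := h1
      _ ≤ 16000 * P * P ^ 3 + P ^ 4 := by linarith
      _ = 16001 * P ^ 4 := by ring
  have hexp10 : (16081 : ℝ) ≤ Real.exp 10 := by
    have e6 : Real.exp 10 = Real.exp 1 ^ 10 := by rw [← Real.exp_nat_mul]; norm_num
    rw [e6]
    have e7 := Real.exp_one_gt_d9
    have e8 : (2.7182818283 : ℝ) ^ 10 ≤ Real.exp 1 ^ 10 := by gcongr
    norm_num at e8 ⊢
    linarith
  have hPe : P ≤ Real.exp P := by
    have := Real.add_one_le_exp P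
    linarith
  have hL1 : (L : ℝ) ≤ Real.exp (12 * P) := by
    have h1 := (Nat.ceil_lt_add_one (show (0 : ℝ) ≤ (80 * (r : ℝ) + 16000 * l) * Real.exp l by
      positivity)).le
    have h2 : (80 * (r : ℝ) + 16000 * l) * Real.exp l ≤ (80 * P + 16000 * P) * Real.exp P := by
      gcongr
    have h3 : 1 ≤ P * Real.exp P := by
      have : 1 ≤ Real.exp P := Real.one_le_exp (by linarith)
      nlinarith
    calc (L : ℝ) ≤ (80 * (r : ℝ) + 16000 * l) * Real.exp l + 1 := h1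
      _ ≤ (80 * P + 16000 * P) * Real.exp P + P * Real.exp P := by linarith
      _ = 16081 * P * Real.exp P := by ring
      _ ≤ Real.exp 10 * Real.exp P * Real.exp P := by gcongr
      _ = Real.exp (10 + P + P) := by rw [Real.exp_add, Real.exp_add]
      _ ≤ Real.exp (12 * P) := Real.exp_le_exp.2 (by linarith)
  have h1 : (L : ℝ) ^ (r * K) ≤ Real.exp (192012 * P ^ 6) := by
    calc (L : ℝ) ^ (r * K) ≤ (Real.exp (12 * P)) ^ (r * K) := by gcongr
      _ = Real.exp (((r * K : ℕ) : ℝ) * (12 * P)) := by rw [← Real.exp_nat_mul]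
      _ ≤ Real.exp (192012 * P ^ 6) := by
          apply Real.exp_le_exp.2
          push_cast
          calc (r : ℝ) * K * (12 * P) ≤ P * (16001 * P ^ 4) * (12 * P) := by gcongr
            _ = 192012 * P ^ 6 := by ring
  have h2 : 3200 * (16000 * (r : ℝ) ^ 2 * l * Real.exp (2 * l)) ≤ Real.exp (25 * P ^ 6) := by
    have e1 : (3200 * 16000 : ℝ) ≤ Real.exp 20 := by
      have e6 : Real.exp 20 = Real.exp 10 * Real.exp 10 := by rw [← Real.exp_add]; norm_num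
      rw [e6]
      nlinarith
    have e2 : P ≤ P ^ 6 := by
      calc P = P ^ 1 := (pow_one P).symm
        _ ≤ P ^ 6 := pow_le_pow_right₀ hP (by norm_num)
    calc 3200 * (16000 * (r : ℝ) ^ 2 * l * Real.exp (2 * l))
        ≤ 3200 * (16000 * P ^ 2 * P * Real.exp (2 * P)) := by gcongr
      _ = (3200 * 16000) * (P * P * P) * Real.exp (2 * P) := by ring
      _ ≤ Real.exp 20 * (Real.exp P * Real.exp P * Real.exp P) * Real.exp (2 * P) := by gcongr
      _ = Real.exp (20 + (P + P + P) + 2 * P) := by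
          rw [Real.exp_add, Real.exp_add, Real.exp_add, Real.exp_add]
      _ ≤ Real.exp (25 * P ^ 6) := by
          apply Real.exp_le_exp.2
          have : 1 ≤ P ^ 6 := one_le_pow₀ hP
          linarith
  calc (L : ℝ) ^ (r * K) * (3200 * (16000 * (r : ℝ) ^ 2 * l * Real.exp (2 * l)))
      ≤ Real.exp (192012 * P ^ 6) * Real.exp (25 * P ^ 6) := by gcongr
    _ = Real.exp (192012 * P ^ 6 + 25 * P ^ 6) := (Real.exp_add _ _).symm
    _ ≤ Real.exp (200000 * P ^ 6) := by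
        apply Real.exp_le_exp.2
        have : 0 ≤ P ^ 6 := by positivity
        linarith

/-- the exponent -/
theorem expB (k B1 : ℕ) (hk : 1 ≤ k) :
    Real.exp (200000 * ((k + 1 : ℝ) ^ B1) ^ 6) ≤ 2 ^ ((k + 1) ^ (19 + 6 * B1)) := by
  have h2 : (2 : ℝ) ≤ (k : ℝ) + 1 := by
    have : (1 : ℝ) ≤ k := by exact_mod_cast hk
    linarith
  have hl2 : 0.6931471803 < Real.log 2 := Real.log_two_gt_d9
  have e1 : ((2 : ℝ) ^ ((k + 1) ^ (19 + 6 * B1))) =
      Real.exp ((((k + 1) ^ (19 + 6 * B1) : ℕ) : ℝ) * Real.log 2) := by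
    rw [Real.exp_nat_mul, Real.exp_log (by norm_num)]
  rw [e1]
  apply Real.exp_le_exp.2
  push_cast
  have e2 : ((k : ℝ) + 1) ^ (19 + 6 * B1) = ((k : ℝ) + 1) ^ 19 * (((k : ℝ) + 1) ^ B1) ^ 6 := by
    rw [pow_add, ← pow_mul, mul_comm B1 6]
  rw [e2]
  have e3 : (2 : ℝ) ^ 19 ≤ ((k : ℝ) + 1) ^ 19 := by gcongr
  have e4 : 0 ≤ (((k : ℝ) + 1) ^ B1) ^ 6 := by positivity
  have e5 : (200000 : ℝ) ≤ ((k : ℝ) + 1) ^ 19 * Real.log 2 := by
    have : (2 : ℝ) ^ 19 * 0.6931471803 ≤ ((k : ℝ) + 1) ^ 19 * Real.log 2 := by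
      apply mul_le_mul e3 hl2.le (by norm_num) (by positivity)
    norm_num at this ⊢
    linarith
  calc 200000 * (((k : ℝ) + 1) ^ B1) ^ 6 ≤
        (((k : ℝ) + 1) ^ 19 * Real.log 2) * (((k : ℝ) + 1) ^ B1) ^ 6 :=
        mul_le_mul_of_nonneg_right e5 e4
    _ = _ := by ring

/-! ### The scales -/

theorem scale_low {n L S j : ℕ} (hL : 2 ≤ L) (hn : 2 * L ^ S ≤ n) (hj : j ≤ S) :
    (n : ℝ) / (2 * (L : ℝ) ^ S) ≤ ((n / L ^ j : ℕ) : ℝ) ∧ 1 ≤ n / L ^ j := by
  have hL0 : 0 < L := by omega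
  have hLS : 0 < L ^ S := Nat.pow_pos hL0
  have hLS' : (0 : ℝ) < (L : ℝ) ^ S := by positivity
  have h1 : n / L ^ S ≤ n / L ^ j :=
    Nat.div_le_div_left (Nat.pow_le_pow_right hL0 hj) (Nat.pow_pos hL0)
  have h2 : 2 ≤ n / L ^ S := by
    rw [Nat.le_div_iff_mul_le hLS]
    exact hn
  have h3 : (n : ℝ) / (L : ℝ) ^ S ≤ ((n / L ^ S : ℕ) : ℝ) + 1 := by
    rw [div_le_iff₀ hLS']
    have h4 : n < (n / L ^ S + 1) * L ^ S := by
      have := Nat.lt_div_mul_add (a := n) hLS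
      linarith
    have h5 : (n : ℝ) < ((n / L ^ S : ℕ) + 1 : ℝ) * (L : ℝ) ^ S := by exact_mod_cast h4
    linarith
  have h6 : (2 : ℝ) ≤ ((n / L ^ S : ℕ) : ℝ) := by exact_mod_cast h2
  have h7 : ((n / L ^ S : ℕ) : ℝ) ≤ ((n / L ^ j : ℕ) : ℝ) := by exact_mod_cast h1
  refine ⟨?_, by omega⟩
  have h8 : (n : ℝ) / (2 * (L : ℝ) ^ S) = (n : ℝ) / (L : ℝ) ^ S / 2 := by
    field_simp
  rw [h8]
  linarith

theorem scale_succ {n L j : ℕ} : n / L ^ (j + 1) ≤ n / L ^ j ∧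
    ((n / L ^ (j + 1) : ℕ) : ℝ) ≤ ((n / L ^ j : ℕ) : ℝ) / L := by
  rw [pow_succ, ← Nat.div_div_eq_div_mul]
  exact ⟨Nat.div_le_self _ _, Nat.cast_div_le⟩

theorem mono_up {n : ℕ} (f : ℕ → ℝ) (h : ∀ t, 1 ≤ t → t + 1 ≤ n → f t ≤ f (t + 1)) {t' t : ℕ}
    (h1 : 1 ≤ t') (h2 : t' ≤ t) (h3 : t ≤ n) : f t' ≤ f t := by
  induction t, h2 using Nat.le_induction with
  | base => exact le_rfl
  | succ t ht ih => exact (ih (by omega)).trans (h t (by omega) h3)

theorem O_le_one {Ω : Type} [Fintype Ω] (P : FP Ω) {γ : Type} (F : Ω → γ) (b : Ω → Bool) :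
    O P F b ≤ 1 := by
  unfold O
  rw [← MCORE.ex_const P 1]
  exact MCORE.ex_mono P _ _ fun ω _ => MREC.opp_le_one P F b ω

theorem PhiF_le {n r : ℕ} (Z : Finset (Fin n → Bool)) (hZ : Z.Nonempty)
    (U : Fin r → (Fin n → Bool) → Finset (Fin n)) (V : Finset (Fin n)) (J : Finset (Fin r)) :
    PhiF Z hZ U V J ≤ V.card := by
  unfold PhiF
  calc ∑ v ∈ V, O (uni Z hZ) (FJ Z U V J) (bit Z v) ≤ ∑ _v ∈ V, (1 : ℝ) :=
        Finset.sum_le_sum fun v _ => O_le_one _ _ _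
    _ = V.card := by simp

/-- The choice of `V` and `J`. -/
theorem chooseVJ (hCHAIN : S_CHAIN) (hAVO : S_AVO) (hAVX : S_AVX) (hAVB : S_AVB) (hRE2 : S_RE2)
    (hST2 : S_ST2) (hSEL : S_SEL) {n r w k m0 K L : ℕ} {l δ : ℝ} (Z : Finset (Fin n → Bool))
    (hZ : Z.Nonempty) (U : Fin r → (Fin n → Bool) → Finset (Fin n)) (hFam : Fam n r w Z U)
    (hrw : r * w ≤ k * n) (hk : 1 ≤ k) (hm0 : 0 < m0) (hm0r : m0 < r) (hl1 : 1 ≤ l)
    (hK : 16000 * r * l ^ 3 ≤ K) (hL : (80 * r + 16000 * l) * Real.exp l ≤ L) (hL2 : 2 ≤ L)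
    (hnum : ∀ b : ℕ → ℝ, 2 / 5 ≤ b 0 → (∀ i < r - m0, Real.exp (1 - l) ≤ b i → ∀ c0 : ℕ,
      b i - 12 / ((r : ℝ) - i) * ((c0 + 1) * b i + k * (((r : ℝ) - i) / r) ^ c0) -
        Real.exp (1 - l) / (10 * r) ≤ b (i + 1)) → Real.exp (1 - l) ≤ b (r - m0))
    (hn : (L : ℝ) ^ (r * K) * (3200 * (16000 * (r : ℝ) ^ 2 * l * Real.exp (2 * l))) ≤ n)
    (hδ : δ * ((L : ℝ) ^ (r * K) * (3200 * (16000 * (r : ℝ) ^ 2 * l * Real.exp (2 * l)))) ≤ 1)
    (hδ0 : 0 ≤ δ) (hZ2 : (2 : ℝ) ^ n ≤ Real.exp (δ * n) * Z.card) :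
    ∃ (V : Finset (Fin n)) (J : Finset (Fin r)), (n : ℝ) / (2 * (L : ℝ) ^ (r * K)) ≤ V.card ∧
      J.card = r - m0 ∧ Real.exp (1 - l) / 2 * V.card ≤ PhiF Z hZ U V J ∧
      TCF Z hZ U V J ≤ 1 / (2000 * l) * PhiF Z hZ U V J ∧
      ((Z.filter fun z => 2 * (k * m0 / r : ℝ) * V.card < ((UJ U Jᶜ z ∩ V).card : ℝ)).card : ℝ) ≤
        Real.exp (1 - l) / (4000 * l) * Z.card := by
  have hr0 : 1 ≤ r := by omega
  have hr1 : (1 : ℝ) ≤ r := by exact_mod_cast hr0
  have hrpos : (0 : ℝ) < r := by linarith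
  have hk1 : (1 : ℝ) ≤ k := by exact_mod_cast hk
  have hm1 : (1 : ℝ) ≤ m0 := by exact_mod_cast hm0
  have hl0 : 0 < l := by linarith
  have hZc : (0 : ℝ) < Z.card := by exact_mod_cast Finset.card_pos.2 hZ
  have hLpos : (0 : ℝ) < L := by
    have : (2 : ℝ) ≤ L := by exact_mod_cast hL2
    linarith
  set S := r * K with hS
  set X : ℝ := 16000 * (r : ℝ) ^ 2 * l * Real.exp (2 * l) with hX
  have hX0 : 0 < X := by positivity
  have hLS : (0 : ℝ) < (L : ℝ) ^ S := by positivity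
  have hX1 : 1 ≤ X := by
    have e1 : 1 ≤ Real.exp (2 * l) := Real.one_le_exp (by linarith)
    have e2 : (1 : ℝ) ≤ (r : ℝ) ^ 2 := one_le_pow₀ hr1
    calc (1 : ℝ) ≤ 16000 * 1 * 1 * 1 := by norm_num
      _ ≤ 16000 * (r : ℝ) ^ 2 * l * Real.exp (2 * l) := by gcongr
  have hn2 : 2 * L ^ S ≤ n := by
    have h1 : (2 : ℝ) * (L : ℝ) ^ S ≤ n := by
      refine le_trans ?_ hn
      nlinarith
    exact_mod_cast h1
  have hlow : ∀ j, j ≤ S → (n : ℝ) / (2 * (L : ℝ) ^ S) ≤ ((n / L ^ j : ℕ) : ℝ) ∧ 1 ≤ n / L ^ j :=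
    fun j hj => scale_low hL2 hn2 hj
  have hle : ∀ j, n / L ^ j ≤ n := fun j => Nat.div_le_self _ _
  have hXt : ∀ j, j ≤ S → 1600 * X ≤ ((n / L ^ j : ℕ) : ℝ) := by
    intro j hj
    refine le_trans ?_ (hlow j hj).1
    rw [le_div_iff₀ (by positivity)]
    linarith
  have hch := hCHAIN r m0 K L k l (fun j i => oA Z hZ U (n / L ^ j) i)
    (fun j i => xA Z hZ U (n / L ^ j) i) (fun j i => yA Z hZ U (n / L ^ j) i) hm0 hm0r hl1
    (by linarith) hK hL
    (by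
      intro j i hj hi
      have h1 := (hlow (j + 1) (by omega)).2
      exact ⟨mono_up (fun t => oA Z hZ U t i) (fun t a b => hAVO n r Z hZ U t i a b hi) h1
        scale_succ.1 (hle j),
        mono_up (fun t => xA Z hZ U t i) (fun t a b => (hAVX n r Z hZ U i hi).1 t a b) h1
        scale_succ.1 (hle j)⟩)
    (by
      intro j i hj hi
      exact hAVB n r Z hZ U _ i (hlow j hj).2 (hle j) hi)
    (by
      intro j i hj hi
      have h1 := (hlow (j + 1) (by omega)).2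
      have h0 := (hlow j (by omega)).2
      have h2 := (hAVX n r Z hZ U i hi).2.2 (n / L ^ j) (n / L ^ (j + 1)) h1 scale_succ.1 (hle j)
      obtain ⟨b1, b2, b3, -⟩ := hAVB n r Z hZ U (n / L ^ (j + 1)) i h1 (hle _) hi
      refine h2.trans ?_
      have h3 : ((n / L ^ (j + 1) : ℕ) : ℝ) / ((n / L ^ j : ℕ) : ℝ) *
          xA Z hZ U (n / L ^ (j + 1)) i ≤ 1 / L := by
        have h4 : (0 : ℝ) < ((n / L ^ j : ℕ) : ℝ) := by exact_mod_cast h0
        have h5 : ((n / L ^ (j + 1) : ℕ) : ℝ) / ((n / L ^ j : ℕ) : ℝ) ≤ 1 / L := by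
          rw [div_le_iff₀ h4]
          have := (scale_succ (n := n) (L := L) (j := j)).2
          calc ((n / L ^ (j + 1) : ℕ) : ℝ) ≤ ((n / L ^ j : ℕ) : ℝ) / L := this
            _ = 1 / L * ((n / L ^ j : ℕ) : ℝ) := by ring
        calc _ ≤ 1 / (L : ℝ) * 1 := by
              apply mul_le_mul h5 b3 (b1.trans b2) (by positivity)
          _ = 1 / L := mul_one _
      linarith)
    (by
      intro j i hj hi c0
      exact hRE2 n r w k Z hZ U hFam hrw _ i (hlow j hj).2 (hle j) hi c0)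
    (by
      intro j hj
      have h1 := hST2 n r Z hZ U (δ * n) (by
        have h1 := Real.log_le_log (by positivity) hZ2
        rw [Real.log_mul (Real.exp_pos _).ne' hZc.ne', Real.log_exp, Real.log_pow] at h1
        linarith) (n / L ^ j) (hlow j hj).2 (hle j)
      refine le_trans ?_ h1
      have h4 : (0 : ℝ) < ((n / L ^ j : ℕ) : ℝ) := by exact_mod_cast (hlow j hj).2
      have h5 : δ * n / ((n / L ^ j : ℕ) : ℝ) ≤ 1 / 10 := by
        rw [div_le_iff₀ h4]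
        have h6 := (hlow j hj).1
        rw [div_le_iff₀ (by positivity)] at h6
        have h7 : δ * n ≤ δ * (((n / L ^ j : ℕ) : ℝ) * (2 * (L : ℝ) ^ S)) :=
          mul_le_mul_of_nonneg_left h6 hδ0
        have h8 : δ * ((L : ℝ) ^ S * 20) ≤ 1 := by
          refine le_trans (mul_le_mul_of_nonneg_left ?_ hδ0) hδ
          apply mul_le_mul_of_nonneg_left _ hLS.le
          linarith
        have h9 : δ * ((L : ℝ) ^ S * 20) * ((n / L ^ j : ℕ) : ℝ) ≤ 1 * ((n / L ^ j : ℕ) : ℝ) :=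
          mul_le_mul_of_nonneg_right h8 h4.le
        linarith
      linarith)
    hnum
  obtain ⟨j, hj, hμ, hy⟩ := hch
  have hjS : j ≤ S := by omega
  obtain ⟨t, ht⟩ : ∃ t, t = n / L ^ j := ⟨_, rfl⟩
  have ht1 : 1 ≤ t := by rw [ht]; exact (hlow j hjS).2
  have htn : t ≤ n := by rw [ht]; exact hle j
  have htX : 1600 * X ≤ t := by rw [ht]; exact hXt j hjS
  have htlow : (n : ℝ) / (2 * (L : ℝ) ^ S) ≤ t := by rw [ht]; exact (hlow j hjS).1
  simp only [← ht] at hμ hy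
  have ht0 : (0 : ℝ) < t := by exact_mod_cast ht1
  obtain ⟨V, J, hV, hJ, h1, h2, h3⟩ := hSEL n r w Z hZ U hFam t (r - m0) (k * m0 / r)
    (Real.exp (1 - l) / (4000 * l)) (Real.exp (1 - l)) (1 / (2000 * l)) ht1 htn (Nat.sub_le _ _)
    (by positivity) (by positivity) (Real.exp_pos _) (by positivity)
    (by
      rw [Nat.cast_sub hm0r.le, sub_sub_cancel]
      have h1 : ((r : ℝ) * w) ≤ k * n := by exact_mod_cast hrw
      calc (m0 : ℝ) * w = m0 / r * (r * w) := by field_simp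
        _ ≤ m0 / r * (k * n) := mul_le_mul_of_nonneg_left h1 (by positivity)
        _ = k * m0 / r * n := by ring)
    hμ
    (by
      refine hy.trans (le_of_eq ?_)
      field_simp
      ring)
    (by
      have e0 : (1 / (r : ℝ)) ≤ k * m0 / r := by
        apply div_le_div_of_nonneg_right _ hrpos.le
        nlinarith
      have e1 : (1 / (r : ℝ)) ^ 2 ≤ ((k : ℝ) * m0 / r) ^ 2 := by gcongr
      have e2 : 1 / (((k : ℝ) * m0 / r) ^ 2 * t * (Real.exp (1 - l) / (4000 * l))) ≤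
          1 / ((1 / (r : ℝ)) ^ 2 * t * (Real.exp (1 - l) / (4000 * l))) := by
        apply one_div_le_one_div_of_le (by positivity)
        gcongr
      refine e2.trans ?_
      have e3 : 1 / ((1 / (r : ℝ)) ^ 2 * t * (Real.exp (1 - l) / (4000 * l))) =
          4000 * l * (r : ℝ) ^ 2 / (Real.exp (1 - l) * t) := by
        field_simp
      rw [e3, div_le_iff₀ (by positivity)]
      have e4 : Real.exp (1 - l) * Real.exp l = Real.exp 1 := by
        rw [← Real.exp_add]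
        congr 1
        ring
      have e5 : Real.exp (2 * l) = Real.exp l * Real.exp l := by
        rw [← Real.exp_add]
        congr 1
        ring
      have e6 : 1 ≤ Real.exp 1 := Real.one_le_exp (by norm_num)
      have e7 : Real.exp (1 - l) * (Real.exp (1 - l) * X) =
          16000 * (r : ℝ) ^ 2 * l * (Real.exp 1 * Real.exp 1) := by
        rw [hX, e5]
        calc Real.exp (1 - l) * (Real.exp (1 - l) *
              (16000 * (r : ℝ) ^ 2 * l * (Real.exp l * Real.exp l)))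
            = 16000 * (r : ℝ) ^ 2 * l * ((Real.exp (1 - l) * Real.exp l) *
              (Real.exp (1 - l) * Real.exp l)) := by ring
          _ = _ := by rw [e4]
      have e8 : 16000 * (r : ℝ) ^ 2 * l ≤ Real.exp (1 - l) * (Real.exp (1 - l) * X) := by
        rw [e7]
        have e10 : 0 ≤ 16000 * (r : ℝ) ^ 2 * l := by positivity
        have e11 : 1 ≤ Real.exp 1 * Real.exp 1 := by nlinarith
        exact le_mul_of_one_le_right e10 e11
      have e9 : Real.exp (1 - l) * (Real.exp (1 - l) * X) ≤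
          Real.exp (1 - l) * (Real.exp (1 - l) * t) := by
        have : X ≤ t := by linarith
        gcongr
      linarith)
  refine ⟨V, J, ?_, hJ, ?_, h2, ?_⟩
  · rw [hV]
    exact htlow
  · rw [hV]
    exact h1
  · rw [hV]
    exact h3

end MCOREQ

open MCOREQ in
theorem t_COREQ (hNUMQ : S_NUMQ) (hCHAIN : S_CHAIN) (hAVO : S_AVO) (hAVX : S_AVX) (hAVB : S_AVB)
    (hRE2 : S_RE2) (hST2 : S_ST2) (hSEL : S_SEL) (hDSX : S_DSX) (hCOV : S_COV) (hUPP : S_UPP)
    (hLOW : S_LOW) (hSUBS : S_SUBS) (hCTE : S_CTE) (hLEV : S_LEV) (hSMP : S_SMP) : S_COREQ := by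
  obtain ⟨B1, hB1⟩ := hNUMQ
  refine ⟨19 + 6 * B1, ?_⟩
  intro k hk
  obtain ⟨r, m0, l, hm0, hm0r, hl1, hrP, hlP, he1, he2, hnum⟩ := hB1 k hk
  have hr0 : 1 ≤ r := by omega
  have hr1 : (1 : ℝ) ≤ r := by exact_mod_cast hr0
  have hrpos : (0 : ℝ) < r := by linarith
  have hl0 : 0 < l := by linarith
  have hk1 : (1 : ℝ) ≤ k := by exact_mod_cast hk
  have hm1 : (1 : ℝ) ≤ m0 := by exact_mod_cast hm0
  refine ⟨r, by omega, ?_, ?_⟩
  · have h1 : (r : ℝ) ≤ ((k + 1) ^ (19 + 6 * B1) : ℕ) := by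
      refine hrP.trans ?_
      push_cast
      exact pow_le_pow_right₀ (by linarith) (by omega)
    exact_mod_cast h1
  intro n hn w Z U f M hFam hrw hf hrig hrect hM1 hM hZ2
  obtain ⟨K, L, hK, hL, hL2, hKL⟩ := numsQ hr0 hrP hlP hl1
  have hbig := hKL.trans (expB k B1 hk)
  obtain ⟨E, hE⟩ : ∃ E : ℝ, E = 2 ^ ((k + 1) ^ (19 + 6 * B1)) := ⟨_, rfl⟩
  rw [← hE] at hbig hM hZ2
  have hE0 : 0 < E := by rw [hE]; positivity
  have hnE : E ≤ n := by
    rw [hE]
    exact_mod_cast hn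
  obtain ⟨δ, hδ⟩ : ∃ δ : ℝ, δ = 1 / E := ⟨_, rfl⟩
  have hδ0 : 0 < δ := by rw [hδ]; positivity
  have hδn : (n : ℝ) / E = δ * n := by rw [hδ]; ring
  rw [hδn] at hM hZ2
  have hZ : Z.Nonempty := by
    rw [Finset.nonempty_iff_ne_empty]
    intro h
    rw [h, Finset.card_empty, Nat.cast_zero, mul_zero] at hZ2
    exact absurd hZ2 (not_le.2 (by positivity))
  have hLpos : (0 : ℝ) < L := by
    have : (2 : ℝ) ≤ L := by exact_mod_cast hL2
    linarith
  obtain ⟨X, hX⟩ : ∃ X : ℝ, X = 16000 * (r : ℝ) ^ 2 * l * Real.exp (2 * l) := ⟨_, rfl⟩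
  have hX0 : 0 < X := by rw [hX]; positivity
  rw [← hX] at hbig
  have hLS : (0 : ℝ) < (L : ℝ) ^ (r * K) := by positivity
  have hδbig : δ * ((L : ℝ) ^ (r * K) * (3200 * X)) ≤ 1 := by
    rw [hδ]
    calc 1 / E * ((L : ℝ) ^ (r * K) * (3200 * X)) ≤ 1 / E * E :=
          mul_le_mul_of_nonneg_left hbig (by positivity)
      _ = 1 := by field_simp
  obtain ⟨V, J, hV, hJ, hΦ, hTC, hheavy⟩ := chooseVJ hCHAIN hAVO hAVX hAVB hRE2 hST2 hSEL Z hZ U
    hFam hrw hk hm0 hm0r hl1 hK hL hL2 hnum (by rw [← hX]; exact hbig.trans hnE)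
    (by rw [← hX]; exact hδbig) hδ0.le hZ2
  have hVX : 1600 * X ≤ V.card := by
    refine le_trans ?_ hV
    rw [le_div_iff₀ (by positivity)]
    have := hbig.trans hnE
    linarith
  have hV0 : (0 : ℝ) < V.card := by
    have : 0 < 1600 * X := by positivity
    linarith
  -- the values
  have e4 : Real.exp (1 - l) * Real.exp l = Real.exp 1 := by
    rw [← Real.exp_add]
    congr 1
    ring
  have e5 : Real.exp (2 * l) = Real.exp l * Real.exp l := by
    rw [← Real.exp_add]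
    congr 1
    ring
  have e6 : 2 ≤ Real.exp 1 := by
    have := Real.add_one_le_exp (1 : ℝ)
    linarith
  have hel : 1 ≤ Real.exp l := Real.one_le_exp hl0.le
  obtain ⟨μ, hμ⟩ : ∃ μ : ℝ, μ = PhiF Z hZ U V J / V.card := ⟨_, rfl⟩
  have hμV : μ * V.card = PhiF Z hZ U V J := by rw [hμ]; field_simp
  have hμ2 : Real.exp (1 - l) / 2 ≤ μ := by
    rw [hμ, le_div_iff₀ hV0]
    exact hΦ
  have hμ0 : 0 < μ := lt_of_lt_of_le (by positivity) hμ2
  have hμ1 : μ ≤ 1 := by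
    rw [hμ, div_le_one hV0]
    exact PhiF_le Z hZ U V J
  obtain ⟨l', hl'⟩ : ∃ l' : ℝ, l' = 1 + Real.log (1 / μ) := ⟨_, rfl⟩
  have hlog : Real.log (1 / μ) ≤ Real.log 2 + (l - 1) := by
    have h1 : 1 / μ ≤ 2 * Real.exp (l - 1) := by
      rw [div_le_iff₀ hμ0]
      have h2 : Real.exp (l - 1) * Real.exp (1 - l) = 1 := by
        rw [← Real.exp_add]
        simp
      calc (1 : ℝ) = 2 * Real.exp (l - 1) * (Real.exp (1 - l) / 2) := by linarith
        _ ≤ 2 * Real.exp (l - 1) * μ := mul_le_mul_of_nonneg_left hμ2 (by positivity)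
    have h2 := Real.log_le_log (by positivity) h1
    rwa [Real.log_mul (by norm_num) (Real.exp_pos _).ne', Real.log_exp] at h2
  have hlog0 : 0 ≤ Real.log (1 / μ) := Real.log_nonneg (by rw [le_div_iff₀ hμ0]; linarith)
  have hl'1 : 1 ≤ l' := by rw [hl']; linarith
  have hl'2 : l' ≤ 2 * l := by
    rw [hl']
    have : Real.log 2 < 0.6931471808 := Real.log_two_lt_d9
    linarith
  have hl'0 : 0 < l' := by linarith
  obtain ⟨ε, hε⟩ : ∃ ε : ℝ, ε = k * m0 / r := ⟨_, rfl⟩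
  rw [← hε] at he1 he2 hheavy
  have hε0 : 0 < ε := by rw [hε]; positivity
  have hεr : 1 / (r : ℝ) ≤ ε := by
    rw [hε]
    apply div_le_div_of_nonneg_right _ hrpos.le
    nlinarith
  have hη0 : 0 ≤ eta (4 * ε) := le_trans (by linarith) (MCORE.le_eta (by linarith : 0 < 4 * ε)
    (by linarith))
  obtain ⟨θ, hθ⟩ : ∃ θ : ℝ, θ = μ / (1000 * l') := ⟨_, rfl⟩
  have hθlow : Real.exp (1 - l) / (4000 * l) ≤ θ := by
    rw [hθ]
    calc Real.exp (1 - l) / (4000 * l) = Real.exp (1 - l) / 2 / (1000 * (2 * l)) := by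
          field_simp
          ring
      _ ≤ μ / (1000 * l') := by gcongr
  have hθ0 : 0 < θ := by rw [hθ]; positivity
  have hJJ : (Jᶜ)ᶜ = J := compl_compl J
  -- μ V is large
  have hμX : Real.exp (1 - l) * Real.exp l * Real.exp l * (16000 * (r : ℝ) ^ 2 * l) * 800 ≤
      μ * V.card := by
    calc Real.exp (1 - l) * Real.exp l * Real.exp l * (16000 * (r : ℝ) ^ 2 * l) * 800
        = Real.exp (1 - l) / 2 * (1600 * X) := by rw [hX, e5]; ring
      _ ≤ μ * V.card := by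
          apply mul_le_mul hμ2 hVX (by positivity) hμ0.le
  have hr2 : (1 : ℝ) ≤ (r : ℝ) ^ 2 := one_le_pow₀ hr1
  have hbase : 16000 * (r : ℝ) ^ 2 * l * Real.exp l * 1600 ≤ μ * V.card := by
    refine le_trans ?_ hμX
    rw [e4]
    have : 0 ≤ Real.exp l * (16000 * (r : ℝ) ^ 2 * l) * 800 := by positivity
    nlinarith
  have hrl : 1 ≤ (r : ℝ) ^ 2 * l := by nlinarith
  have hrle : 1 ≤ (r : ℝ) ^ 2 * l * Real.exp l := by nlinarith
  refine MCORE.partB hDSX hCOV hUPP hLOW hSUBS hCTE hLEV hSMP Z hZ U f M hFam hf hrig hrect hM1 V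
    Jᶜ μ ε θ (1 / (2000 * l) * μ) δ l' hμ0 hμ1 hε0 (by linarith) hl' ?_ hθ ?_ ?_ ?_ ?_ ?_ ?_ ?_ ?_
    hM hZ2
  · calc 10000 * l' * eta (4 * ε) ≤ 10000 * (2 * l) * eta (4 * ε) := by gcongr
      _ = 20000 * l * eta (4 * ε) := by ring
      _ ≤ 1 := he2
  · rw [div_mul_eq_mul_div, one_mul]
    apply div_le_div_of_nonneg_left hμ0.le (by positivity)
    linarith
  · rw [hJJ]
    have h1 : 1 / (2000 * l) * μ * V.card = 1 / (2000 * l) * PhiF Z hZ U V J := by
      rw [mul_assoc, hμV]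
    rw [h1]
    exact hTC
  · rw [hJJ, hμV]
    exact le_rfl
  · refine hheavy.trans ?_
    exact mul_le_mul_of_nonneg_right hθlow (Nat.cast_nonneg _)
  · linarith
  · have h1 : 1 / (4 * ε ^ 2 * θ) ≤ 1 / (4 * (1 / (r : ℝ)) ^ 2 * (Real.exp (1 - l) / (4000 * l))) := by
      apply one_div_le_one_div_of_le (by positivity)
      gcongr
    refine h1.trans ?_
    have h2 : 1 / (4 * (1 / (r : ℝ)) ^ 2 * (Real.exp (1 - l) / (4000 * l))) =
        1000 * (r : ℝ) ^ 2 * l / Real.exp (1 - l) := by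
      field_simp
      ring
    have h3 : Real.exp (1 - l) * Real.exp l = Real.exp 1 := e4
    rw [h2, div_le_iff₀ (Real.exp_pos _)]
    have h4 : 1000 * (r : ℝ) ^ 2 * l ≤ 3 * (16000 * (r : ℝ) ^ 2 * l * Real.exp l * 1600) *
        Real.exp (1 - l) := by
      have h5 : 3 * (16000 * (r : ℝ) ^ 2 * l * Real.exp l * 1600) * Real.exp (1 - l) =
          3 * 16000 * 1600 * ((r : ℝ) ^ 2 * l) * (Real.exp (1 - l) * Real.exp l) := by ring
      rw [h5, h3]
      nlinarith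
    refine h4.trans ?_
    have h6 : 3 * (16000 * (r : ℝ) ^ 2 * l * Real.exp l * 1600) ≤ 3 * μ * V.card := by linarith
    exact mul_le_mul_of_nonneg_right h6 (Real.exp_pos _).le
  · -- `exp (- μ V) ≤ θ`
    refine le_trans ?_ hθlow
    have h1 : Real.exp (-(μ * V.card)) ≤ Real.exp (-(4000 * l) + (1 - l)) := by
      apply Real.exp_le_exp.2
      have h2 : l ≤ (r : ℝ) ^ 2 * l * Real.exp l := by
        have : l ≤ (r : ℝ) ^ 2 * l := by nlinarith
        nlinarith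
      linarith
    refine h1.trans ?_
    rw [Real.exp_add, mul_comm, div_eq_mul_inv]
    apply mul_le_mul_of_nonneg_left _ (Real.exp_pos _).le
    rw [Real.exp_neg]
    apply inv_anti₀ (by positivity)
    have := Real.add_one_le_exp (4000 * l)
    linarith
  · -- `δ n ≤ μ V / 400`
    have h1 : (n : ℝ) ≤ V.card * (2 * (L : ℝ) ^ (r * K)) := by
      rwa [div_le_iff₀ (by positivity)] at hV
    have h2 : δ * n ≤ δ * (V.card * (2 * (L : ℝ) ^ (r * K))) :=
      mul_le_mul_of_nonneg_left h1 hδ0.le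
    have h3 : δ * ((L : ℝ) ^ (r * K) * (3200 * X)) * (V.card * (μ / X)) ≤
        1 * (V.card * (μ / X)) := mul_le_mul_of_nonneg_right hδbig (by positivity)
    have h4 : δ * ((L : ℝ) ^ (r * K) * (3200 * X)) * (V.card * (μ / X)) =
        δ * (V.card * (2 * (L : ℝ) ^ (r * K))) * (1600 * μ) := by
      field_simp
      ring
    have h5 : δ * (V.card * (2 * (L : ℝ) ^ (r * K))) * (1600 * μ) * X ≤ V.card * μ := by
      rw [h4] at h3
      have h6 := mul_le_mul_of_nonneg_right h3 hX0.le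
      refine h6.trans (le_of_eq ?_)
      field_simp
    have h7 : 1 / 4 ≤ μ * X := by
      have h8 : Real.exp (1 - l) / 2 * X ≤ μ * X := mul_le_mul_of_nonneg_right hμ2 hX0.le
      refine le_trans ?_ h8
      have h9 : Real.exp (1 - l) / 2 * X =
          (Real.exp (1 - l) * Real.exp l) * (8000 * ((r : ℝ) ^ 2 * l * Real.exp l)) := by
        rw [hX, e5]
        ring
      rw [h9, e4]
      nlinarith
    have h10 : δ * (V.card * (2 * (L : ℝ) ^ (r * K))) * 400 ≤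
        δ * (V.card * (2 * (L : ℝ) ^ (r * K))) * (1600 * μ) * X := by
      have h11 : 0 ≤ δ * (V.card * (2 * (L : ℝ) ^ (r * K))) := by positivity
      have h12 : (400 : ℝ) ≤ (1600 * μ) * X := by linarith
      calc _ ≤ δ * (V.card * (2 * (L : ℝ) ^ (r * K))) * ((1600 * μ) * X) :=
            mul_le_mul_of_nonneg_left h12 h11
        _ = _ := by ring
    rw [le_div_iff₀ (by norm_num)]
    have h13 : δ * n * 400 ≤ δ * (V.card * (2 * (L : ℝ) ^ (r * K))) * 400 := by linarith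
    calc δ * n * 400 ≤ V.card * μ := h13.trans (h10.trans h5)
      _ = μ * V.card := mul_comm _ _

end Pool.Agent.TKN
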