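import Pool.Agent.TKN.St3

/-!
# Project TKN: CTE, the words in classes with a large first side are few
-/

set_option autoImplicit false

open Finset
open scoped Classical

namespace Pool.Agent.TKN

open NCE
open Pool.Agent.Lib_helper20.SRO (RectFree Rigid flipAt)

namespace MCTE

/-- words which are `false` on `A` -/
noncomputable def CW {n : ℕ} (A : Finset (Fin n)) : Finset (Fin n → Bool) :=
  univ.filter fun c => ∀ v ∈ A, c v = false

theorem mem_vals {Ω' : Type} [Fintype Ω'] (P' : FP Ω') {κ α : Type} (K : Ω' → κ) (X : Ω' → α)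
    (q : Ω') (x : α) : x ∈ vals P' K X q ↔ ∃ q', P'.p q' ≠ 0 ∧ K q' = K q ∧ X q' = x := by
  unfold vals
  simp only [mem_image, mem_filter, mem_univ, true_and, and_assoc]

theorem card_CW {n : ℕ} (A : Finset (Fin n)) : (CW A).card ≤ 2 ^ (Aᶜ).card := by
  have h : (CW A).card ≤ (univ : Finset (↥(Aᶜ) → Bool)).card := by
    apply Finset.card_le_card_of_injOn (fun c => fun v : ↥(Aᶜ) => c v.1)
    · intro c _
      exact mem_coe.2 (mem_univ _)
    · intro c hc c' hc' h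
      have hc1 := (mem_filter.1 (mem_coe.1 hc)).2
      have hc2 := (mem_filter.1 (mem_coe.1 hc')).2
      funext v
      by_cases hv : v ∈ A
      · rw [hc1 v hv, hc2 v hv]
      · exact congrFun h ⟨v, mem_compl.2 hv⟩
  rw [card_univ, Fintype.card_fun, Fintype.card_bool, Fintype.card_coe] at h
  exact h

theorem real_CW {n : ℕ} (S R : Finset (Fin n)) (hR : R ⊆ S) (α : ℝ)
    (hα : (R.card : ℝ) ≤ α * S.card) :
    ((CW (S \ R)).card : ℝ) ≤ Real.exp ((n - S.card) * Real.log 2 + α * Real.log 2 * S.card) := by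
  have h1 : ((CW (S \ R)).card : ℝ) ≤ (2 : ℝ) ^ ((S \ R)ᶜ).card := by
    exact_mod_cast card_CW (S \ R)
  refine h1.trans ?_
  have h2 : (((S \ R)ᶜ).card : ℝ) = n - (S.card - R.card) := by
    rw [Finset.card_compl, Fintype.card_fin, Finset.card_sdiff_of_subset hR]
    have h3 : R.card ≤ S.card := Finset.card_le_card hR
    have h4 : S.card ≤ n := by
      have := Finset.card_le_univ S
      rwa [Fintype.card_fin] at this
    have h5 : S.card - R.card ≤ n := (Nat.sub_le _ _).trans h4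
    rw [Nat.cast_sub h5, Nat.cast_sub h3]
  have h3 : (2 : ℝ) ^ ((S \ R)ᶜ).card = Real.exp (((S \ R)ᶜ).card * Real.log 2) := by
    rw [mul_comm, Real.exp_mul, Real.exp_log (by norm_num), Real.rpow_natCast]
  rw [h3, Real.exp_le_exp, h2]
  have h4 : 0 ≤ Real.log 2 := Real.log_nonneg (by norm_num)
  have h5 : (R.card : ℝ) * Real.log 2 ≤ α * S.card * Real.log 2 :=
    mul_le_mul_of_nonneg_right hα h4
  nlinarith [h5]

end MCTE

open MCTE

/-- CTE -/
theorem t_CTE (_hCOV : S_COV) (hRCT : S_RCT) (hSUBS : S_SUBS) : S_CTE := by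
  intro n r w Z hZ U f M hFam hf hRig hRF V J1 Ω' _ P' π D hDSp b α β E S2 hα0 hα1 hβ0 hβ1 hb hE
  set W := Z.filter fun z => z ∉ E ∧ ∃ q, P'.p q ≠ 0 ∧ (π q).1 = z ∧ Lev b (D q) ∧
      M ≤ (vals P' (KK U J1 b E S2 π D) (fun q' => pat (S1 b D q') (π q').1) q).card with hW
  have hne : Nonempty Ω' := by
    by_contra h
    have h1 := P'.one
    rw [not_nonempty_iff] at h
    simp at h1
  have hWq : ∀ z ∈ W, ∃ q, P'.p q ≠ 0 ∧ (π q).1 = z ∧ Lev b (D q) ∧
      M ≤ (vals P' (KK U J1 b E S2 π D) (fun q' => pat (S1 b D q') (π q').1) q).card :=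
    fun z hz => (mem_filter.1 hz).2.2
  choose! qf hq0 hqz hqL hqM using hWq
  have hWE : ∀ z ∈ W, z ∉ E := fun z hz => (mem_filter.1 hz).2.1
  have hWZ : ∀ z ∈ W, z ∈ Z := fun z hz => (mem_filter.1 hz).1
  -- the sides
  have hS1 : ∀ z ∈ W, S1 b D (qf z) = D (qf z) := fun z hz => by
    unfold S1
    rw [if_pos (hqL z hz)]
  have hT2 : ∀ z ∈ W, T2 U J1 b E S2 π D (qf z) = S2 \ (UJ U J1 z ∩ S2) := fun z hz => by
    have h : Lev b (D (qf z)) ∧ (π (qf z)).1 ∉ E := ⟨hqL z hz, by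
      rw [hqz z hz]; exact hWE z hz⟩
    unfold T2
    rw [if_pos h, hqz z hz]
    ext v
    simp only [mem_sdiff, mem_inter]
    tauto
  -- the code
  let κ : (Fin n → Bool) → Finset (Fin n) × Finset (Fin n) × (Fin n → Bool) := fun z =>
    (UJ U J1 z ∩ S2, D (qf z), fun v => if v ∈ S2 \ (UJ U J1 z ∩ S2) then false else z v)
  have hfib : ∀ a ∈ W.image κ, (W.filter fun z => κ z = a).card ≤ M := by
    intro a ha
    obtain ⟨z0, hz0, rfl⟩ := mem_image.1 ha
    have hlt := hRCT n r w Z hZ U f M hFam hf hRig hRF V J1 Ω' P' π D hDSp b E S2 (qf z0)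
      (hq0 z0 hz0) (hqM z0 hz0)
    refine le_trans ?_ hlt.le
    have hag : ∀ z ∈ W, κ z = κ z0 → UJ U J1 z ∩ S2 = UJ U J1 z0 ∩ S2 ∧ D (qf z) = D (qf z0) ∧
        ∀ v, v ∉ S2 \ (UJ U J1 z0 ∩ S2) → z v = z0 v := by
      intro z hz h
      have h1 : UJ U J1 z ∩ S2 = UJ U J1 z0 ∩ S2 := congrArg Prod.fst h
      have h2 : D (qf z) = D (qf z0) := congrArg (fun x => x.2.1) h
      refine ⟨h1, h2, fun v hv => ?_⟩
      have h3 := congrFun (congrArg (fun x => x.2.2) h) v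
      simp only [κ] at h3
      rw [h1, if_neg hv, if_neg hv] at h3
      exact h3
    apply Finset.card_le_card_of_injOn (fun z => pat (S2 \ (UJ U J1 z0 ∩ S2)) z)
    · intro z hz
      have hz' := mem_filter.1 (mem_coe.1 hz)
      obtain ⟨h1, h2, h3⟩ := hag z hz'.1 hz'.2
      refine mem_coe.2 ((mem_vals P' _ _ _ _).2 ⟨qf z, hq0 z hz'.1, ?_, ?_⟩)
      · unfold KK
        rw [hS1 z hz'.1, hT2 z hz'.1, hS1 z0 hz0, hT2 z0 hz0, hqz z hz'.1, hqz z0 hz0, h1, h2]
        have h4 : off (D (qf z0) ∪ S2 \ (UJ U J1 z0 ∩ S2)) z =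
            off (D (qf z0) ∪ S2 \ (UJ U J1 z0 ∩ S2)) z0 := by
          funext v
          unfold off
          by_cases hv : v ∈ D (qf z0) ∪ S2 \ (UJ U J1 z0 ∩ S2)
          · rw [if_pos hv, if_pos hv]
          · rw [if_neg hv, if_neg hv, h3 v (fun hh => hv (mem_union_right _ hh))]
        rw [h4]
      · show pat (T2 U J1 b E S2 π D (qf z)) (π (qf z)).1 = pat (S2 \ (UJ U J1 z0 ∩ S2)) z
        rw [hT2 z hz'.1, hqz z hz'.1, h1]
    · intro z hz z' hz' h
      have hz1 := mem_filter.1 (mem_coe.1 hz)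
      have hz2 := mem_filter.1 (mem_coe.1 hz')
      obtain ⟨_, _, h3⟩ := hag z hz1.1 hz1.2
      obtain ⟨_, _, h3'⟩ := hag z' hz2.1 hz2.2
      funext v
      by_cases hv : v ∈ S2 \ (UJ U J1 z0 ∩ S2)
      · have h4 := congrFun h v
        simp only [pat] at h4
        rw [if_pos hv, if_pos hv] at h4
        exact Option.some.inj h4
      · rw [h3 v hv, h3' v hv]
  have hcard := Finset.card_le_mul_card_image W M hfib
  -- the image
  let 𝓡 := S2.powerset.filter fun T => (T.card : ℝ) ≤ α * S2.card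
  let 𝓓 := V.powerset.filter fun T => (T.card : ℝ) ≤ β * V.card
  let T := (𝓡 ×ˢ 𝓓).biUnion fun p => (CW (S2 \ p.1)).image fun c => (p.1, p.2, c)
  have hsub : W.image κ ⊆ T := by
    intro a ha
    obtain ⟨z, hz, rfl⟩ := mem_image.1 ha
    refine mem_biUnion.2 ⟨(UJ U J1 z ∩ S2, D (qf z)), mem_product.2 ⟨?_, ?_⟩, ?_⟩
    · exact mem_filter.2 ⟨mem_powerset.2 inter_subset_right, hE z (hWZ z hz) (hWE z hz)⟩
    · refine mem_filter.2 ⟨mem_powerset.2 (hDSp.sub _ (hq0 z hz)), ?_⟩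
      exact ((hqL z hz).2).trans hb
    · refine mem_image.2 ⟨fun v => if v ∈ S2 \ (UJ U J1 z ∩ S2) then false else z v, ?_, rfl⟩
      refine mem_filter.2 ⟨mem_univ _, fun v hv => ?_⟩
      show (if v ∈ S2 \ (UJ U J1 z ∩ S2) then false else z v) = false
      rw [if_pos hv]
  set Q : ℝ := Real.exp ((n - S2.card) * Real.log 2 + α * Real.log 2 * S2.card) with hQ
  have hT : (T.card : ℝ) ≤ (𝓡.card : ℝ) * 𝓓.card * Q := by
    have h1 : (T.card : ℝ) ≤ ∑ p ∈ 𝓡 ×ˢ 𝓓, ((CW (S2 \ p.1)).card : ℝ) := by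
      have h2 : T.card ≤ ∑ p ∈ 𝓡 ×ˢ 𝓓, (CW (S2 \ p.1)).card :=
        Finset.card_biUnion_le.trans (Finset.sum_le_sum fun p _ => Finset.card_image_le)
      exact_mod_cast h2
    refine h1.trans ?_
    have h2 : ∀ p ∈ 𝓡 ×ˢ 𝓓, ((CW (S2 \ p.1)).card : ℝ) ≤ Q := by
      intro p hp
      have h3 := mem_filter.1 (mem_product.1 hp).1
      exact real_CW S2 p.1 (mem_powerset.1 h3.1) α h3.2
    refine (Finset.sum_le_sum h2).trans ?_
    rw [Finset.sum_const, card_product, nsmul_eq_mul, Nat.cast_mul]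
  have hR1 : (𝓡.card : ℝ) ≤ Real.exp (eta α * S2.card) := hSUBS (Fin n) S2 α hα0 hα1
  have hD1 : (𝓓.card : ℝ) ≤ Real.exp (eta β * V.card) := hSUBS (Fin n) V β hβ0 hβ1
  have h1 : (W.card : ℝ) ≤ M * T.card := by
    have h2 : W.card ≤ M * T.card :=
      hcard.trans (Nat.mul_le_mul_left _ (Finset.card_le_card hsub))
    exact_mod_cast h2
  have h2 : (𝓡.card : ℝ) * 𝓓.card * Q ≤
      Real.exp (eta α * S2.card) * Real.exp (eta β * V.card) * Q := by
    have hQ0 : 0 ≤ Q := (Real.exp_pos _).le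
    refine mul_le_mul_of_nonneg_right ?_ hQ0
    exact mul_le_mul hR1 hD1 (by positivity) (Real.exp_pos _).le
  have h3 : Real.exp (eta α * S2.card) * Real.exp (eta β * V.card) * Q =
      Real.exp ((n - S2.card) * Real.log 2 + (eta α + α * Real.log 2) * S2.card +
        eta β * V.card) := by
    rw [hQ, ← Real.exp_add, ← Real.exp_add]
    congr 1
    ring
  calc (W.card : ℝ) ≤ M * T.card := h1
    _ ≤ M * (Real.exp ((n - S2.card) * Real.log 2 + (eta α + α * Real.log 2) * S2.card +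
        eta β * V.card)) := by
        refine mul_le_mul_of_nonneg_left ?_ (Nat.cast_nonneg _)
        rw [← h3]
        exact hT.trans h2
    _ = _ := mul_comm _ _

end Pool.Agent.TKN
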