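import Pool.Agent.TKN.St7
import Pool.Agent.TKN.O_RED

/-!
# Project TKN/ONE: fixing variables, the tests of few variables are not counted (module REDR)
-/

set_option autoImplicit false

open Finset

namespace Pool.Agent.TKN.ONE

open Pool.Agent.Lib_helper20.SRO (Agrees)
open Pool.Agent.CFT (Der FP)

namespace MREDR

open MRED

variable {U V N : Type}

open Classical in
/-- the tests that are counted after the restriction are counted before -/
theorem out_rst {ι : U → V} (R : Finset V) (R' : Finset U)
    (hR : ∀ u, u ∈ R' ↔ ι u ∈ R) (l : List (V × Bool)) : Out R' (rst ι l) ≤ Out R l := by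
  unfold Out
  induction l with
  | nil => exact le_rfl
  | cons p l ih =>
    by_cases hx : ∃ x, ι x = p.1
    · have h1 : rst ι (p :: l) = (hx.choose, p.2) :: rst ι l := by
        unfold rst
        rw [List.filterMap_cons, dif_pos hx]
      rw [h1]
      by_cases hp : p.1 ∈ R
      · have h2 : hx.choose ∈ R' := by
          rw [hR, hx.choose_spec]
          exact hp
        rw [List.filter_cons_of_neg (by simpa using h2), List.filter_cons_of_neg (by simpa using hp)]
        exact ih
      · have h2 : hx.choose ∉ R' := by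
          rw [hR, hx.choose_spec]
          exact hp
        rw [List.filter_cons_of_pos (by simpa using h2), List.filter_cons_of_pos (by simpa using hp),
          List.length_cons, List.length_cons]
        exact Nat.succ_le_succ ih
    · have h1 : rst ι (p :: l) = rst ι l := by
        unfold rst
        rw [List.filterMap_cons, dif_neg hx]
      rw [h1]
      refine ih.trans ?_
      exact List.Sublist.length_le (List.Sublist.filter _ (List.sublist_cons_self p l))

theorem time_fixR {G : FP V N} {ι : U → V} (hι : Function.Injective ι) (a : V → Bool)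
    {s T T' : ℕ} (hT : TimeFR G s T) (h : T ≤ T') : TimeFR (fixG G ι a) s T' := by
  classical
  intro b hb
  obtain ⟨l, hl, hbl, R, hR, hlen⟩ := hT _ ((accepts_fix hι a b).1 hb)
  refine ⟨rst ι l, der_fix hl ?_, agrees_rst hι hbl, R.preimage ι hι.injOn, ?_, ?_⟩
  · intro p hp hx
    rw [← hbl p hp, put_of_not a b hx]
  · refine le_trans ?_ hR
    exact Finset.card_le_card_of_injOn ι (fun u hu => Finset.mem_preimage.1 hu) hι.injOn
  · exact (out_rst R _ (fun u => Finset.mem_preimage) l).trans (hlen.trans h)

end MREDR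

/-- Module REDR. -/
theorem t_REDR : S_REDR := by
  intro K k n L N c0 c W f' f ι a hι hf hcore hkN hc h4 h1
  have hle : c * (N : ℝ) ≤ c0 * n := by linarith
  -- fork programs
  have key : ∀ (Q : Type) [Fintype Q] (G : CFT.FP (Fin N) Q) (s : ℕ), (s : ℝ) ≤ c * N →
      G.Block s → TimeFR G s (k * N) → G.Computes f → (2 : ℝ) ^ (c0 * n) ≤ Fintype.card Q := by
    intro Q _ G s hs hB hT hC
    refine hcore s (hs.trans hle) Q (MRED.fixG G ι a) (MRED.block_fix a hB) ?_
      (MREDR.time_fixR hι a hT hkN)
    intro b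
    rw [MRED.accepts_fix hι a b, hC, hf]
  refine ⟨?_, ?_⟩
  · intro Γ Q _ G s hs hB hT hC
    by_contra hlt
    rw [not_le] at hlt
    have hT' : TimeFR (STK.ONE.toFP G) s (k * N) := by
      intro b hb
      obtain ⟨l, hl, hbl, hlen⟩ := hT b ((STK.ONE.accepts_iff G b).1 hb)
      exact ⟨l, (STK.ONE.full_iff G l).1 hl, hbl, hlen⟩
    have hC' : (STK.ONE.toFP G).Computes f := by
      intro b
      rw [STK.ONE.accepts_iff]
      exact hC b
    have h2 := key (Q ⊕ (Q × Q)) (STK.ONE.toFP G) s hs (STK.ONE.block hB) hT' hC'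
    rw [STK.ONE.card_node] at h2
    push_cast at h2
    have h3 : ((2 : ℝ) ^ (c * N)) ^ 4 ≤ (2 : ℝ) ^ (c0 * n) := by
      rw [← Real.rpow_natCast, ← Real.rpow_mul (by norm_num)]
      refine Real.rpow_le_rpow_of_exponent_le (by norm_num) ?_
      push_cast
      linarith
    have h5 : (2 : ℝ) ≤ (2 : ℝ) ^ (c * N) := by
      calc (2 : ℝ) = (2 : ℝ) ^ (1 : ℝ) := (Real.rpow_one 2).symm
        _ ≤ (2 : ℝ) ^ (c * N) := Real.rpow_le_rpow_of_exponent_le (by norm_num) h1
    generalize (2 : ℝ) ^ (c * N) = x at *
    generalize (2 : ℝ) ^ (c0 * n) = y at *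
    have hq0 : (0 : ℝ) ≤ Fintype.card Q := Nat.cast_nonneg _
    generalize (Fintype.card Q : ℝ) = q at *
    have h6 : q ^ 2 < x ^ 2 := pow_lt_pow_left₀ hlt hq0 (by norm_num)
    have h7 : x + x ^ 2 ≤ x ^ 4 := by
      have : x ^ 4 = x ^ 2 * x ^ 2 := by ring
      nlinarith [sq_nonneg x, mul_self_nonneg (x - 2)]
    linarith
  · intro Q _ G s hs hB hT hC
    refine le_trans ?_ (key Q G s hs hB hT hC)
    exact Real.rpow_le_rpow_of_exponent_le (by norm_num) hle

end Pool.Agent.TKN.ONE
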