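import Pool.Agent.TKN.St3

/-!
# Project TKN: the rectangle
-/

set_option autoImplicit false

open Finset
open scoped Classical

namespace Pool.Agent.TKN

open NCE
open Pool.Agent.Lib_helper20.SRO (RectFree Rigid flipAt)

namespace MRCT

variable {n r : ℕ} {Z : Finset (Fin n → Bool)} {Ω' : Type}

theorem S1_sub (b : ℝ) (D : Ω' → Finset (Fin n)) (q : Ω') : S1 b D q ⊆ D q := by
  unfold S1
  split_ifs
  · exact Finset.Subset.refl _
  · exact Finset.empty_subset _

theorem T2_notin (U : Fin r → (Fin n → Bool) → Finset (Fin n)) (J1 : Finset (Fin r)) (b : ℝ)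
    (E : Finset (Fin n → Bool)) (S2 : Finset (Fin n)) (π : Ω' → {z // z ∈ Z})
    (D : Ω' → Finset (Fin n)) (q : Ω') (x : Fin n) (hx : x ∈ UJ U J1 (π q).1) :
    x ∉ T2 U J1 b E S2 π D q := by
  unfold T2
  split_ifs
  · intro h
    exact (Finset.mem_sdiff.1 h).2 hx
  · exact Finset.notMem_empty _

theorem off_eq {V : Finset (Fin n)} {z z' : Fin n → Bool} (h : off V z = off V z') {x : Fin n}
    (hx : x ∉ V) : z x = z' x := by
  have h1 := congrFun h x
  unfold off at h1
  rw [if_neg hx, if_neg hx] at h1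
  exact Option.some.inj h1

theorem pat_congr {V : Finset (Fin n)} {z z' : Fin n → Bool} (h : ∀ x ∈ V, z x = z' x) :
    pat V z = pat V z' := by
  funext x
  unfold pat
  by_cases hx : x ∈ V
  · rw [if_pos hx, if_pos hx, h x hx]
  · rw [if_neg hx, if_neg hx]

/-- The values of `X` in the class are at most as many as those of a word which determines it. -/
theorem card_vals_le [Fintype Ω'] (P' : FP Ω') {κ α β : Type} [DecidableEq β] (K : Ω' → κ)
    (X : Ω' → α) (q : Ω') (C : Finset Ω') (hC : ∀ q', P'.p q' ≠ 0 → K q' = K q → q' ∈ C)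
    (y : Ω' → β) (g : β → α) (h : ∀ q', P'.p q' ≠ 0 → K q' = K q → X q' = g (y q')) :
    (vals P' K X q).card ≤ (C.image y).card := by
  have h1 : vals P' K X q ⊆ (C.image y).image g := by
    intro w hw
    unfold vals at hw
    obtain ⟨q', hq', rfl⟩ := Finset.mem_image.1 hw
    obtain ⟨_, h2, h3⟩ := Finset.mem_filter.1 hq'
    exact Finset.mem_image.2 ⟨y q', Finset.mem_image_of_mem _ (hC q' h2 h3), (h q' h2 h3).symm⟩
  exact (Finset.card_le_card h1).trans Finset.card_image_le

end MRCT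

open MRCT in
theorem t_RCT (hCOV : S_COV) : S_RCT := by
  intro n r w Z hZ U f M hFam hf hRig hRF V J1 Ω' _ P' π D hD b E S2 q hq hM
  have hcov := (hCOV n r w Z hZ U f hFam hf hRig).2 V J1 Ω' P' π D hD
  by_contra hM2
  rw [not_lt] at hM2
  set K := KK U J1 b E S2 π D with hK
  set C : Finset Ω' := univ.filter fun q' => P'.p q' ≠ 0 ∧ K q' = K q with hC
  set D1 := S1 b D q with hD1
  set D2 := T2 U J1 b E S2 π D q with hD2
  have hCp : ∀ q' ∈ C, P'.p q' ≠ 0 := fun q' h => (Finset.mem_filter.1 h).2.1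
  have hCK : ∀ q' ∈ C, K q' = K q := fun q' h => (Finset.mem_filter.1 h).2.2
  have hC1 : ∀ q' ∈ C, S1 b D q' = D1 := fun q' h => congrArg (fun t => t.1) (hCK q' h)
  have hC2 : ∀ q' ∈ C, T2 U J1 b E S2 π D q' = D2 := fun q' h =>
    congrArg (fun t => t.2.1) (hCK q' h)
  have hC3 : ∀ q' ∈ C, off (D1 ∪ D2) (π q').1 = off (D1 ∪ D2) (π q).1 := by
    intro q' h
    have h3 : off (S1 b D q' ∪ T2 U J1 b E S2 π D q') (π q').1 =
        off (S1 b D q ∪ T2 U J1 b E S2 π D q) (π q).1 := congrArg (fun t => t.2.2) (hCK q' h)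
    rw [hC1 q' h, hC2 q' h] at h3
    exact h3
  -- the sides are disjoint
  have hdis : ∀ x, x ∈ D1 → x ∉ D2 := by
    intro x hx
    refine T2_notin U J1 b E S2 π D q x ?_
    exact (Finset.mem_inter.1 ((hcov q hq).2 (S1_sub b D q hx))).1
  let y1 : Ω' → Fin n → Bool := fun q' v => if v ∈ D1 then (π q').1 v else false
  let y2 : Ω' → Fin n → Bool := fun q' v => if v ∈ D1 then false else (π q').1 v
  have hCm : ∀ q', P'.p q' ≠ 0 → K q' = K q → q' ∈ C := fun q' h h' =>
    Finset.mem_filter.2 ⟨Finset.mem_univ _, h, h'⟩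
  have hX : M ≤ (C.image y1).card := by
    refine hM.trans ?_
    refine card_vals_le P' K _ q C hCm y1 (pat D1) fun q' h h' => ?_
    show pat (S1 b D q') (π q').1 = pat D1 (y1 q')
    rw [hC1 q' (hCm q' h h')]
    refine pat_congr fun x hx => ?_
    show (π q').1 x = if x ∈ D1 then (π q').1 x else false
    rw [if_pos hx]
  have hY : M ≤ (C.image y2).card := by
    refine hM2.trans ?_
    refine card_vals_le P' K _ q C hCm y2 (pat D2) fun q' h h' => ?_
    show pat (T2 U J1 b E S2 π D q') (π q').1 = pat D2 (y2 q')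
    rw [hC2 q' (hCm q' h h')]
    refine pat_congr fun x hx => ?_
    show (π q').1 x = if x ∈ D1 then false else (π q').1 x
    rw [if_neg fun h => hdis x h hx]
  obtain ⟨a, ha, a', ha', hfa⟩ := hRF D1 (C.image y1) (C.image y2)
    (by
      intro a ha x hx
      obtain ⟨q', _, rfl⟩ := Finset.mem_image.1 ha
      show (if x ∈ D1 then (π q').1 x else false) = false
      rw [if_neg hx])
    (by
      intro a ha x hx
      obtain ⟨q', _, rfl⟩ := Finset.mem_image.1 ha
      show (if x ∈ D1 then false else (π q').1 x) = false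
      rw [if_pos hx])
    hX hY
  obtain ⟨q1, hq1, rfl⟩ := Finset.mem_image.1 ha
  obtain ⟨q2, hq2, rfl⟩ := Finset.mem_image.1 ha'
  have hmem : (fun x => if x ∈ D1 then y1 q1 x else y2 q2 x) ∈ Z := by
    refine hFam.mix _ fun j => ?_
    by_cases hj : j ∈ J1
    · refine ⟨(π q1).1, (π q1).2, fun x hx => ?_⟩
      show (if x ∈ D1 then y1 q1 x else y2 q2 x) = (π q1).1 x
      by_cases hx1 : x ∈ D1
      · rw [if_pos hx1]
        show (if x ∈ D1 then (π q1).1 x else false) = (π q1).1 x
        rw [if_pos hx1]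
      · rw [if_neg hx1]
        show (if x ∈ D1 then false else (π q2).1 x) = (π q1).1 x
        rw [if_neg hx1]
        have hx2 : x ∉ D2 := by
          rw [← hC2 q1 hq1]
          exact T2_notin U J1 b E S2 π D q1 x (Finset.mem_biUnion.2 ⟨j, hj, hx⟩)
        refine off_eq (V := D1 ∪ D2) ((hC3 q2 hq2).trans (hC3 q1 hq1).symm) ?_
        rw [Finset.mem_union]
        exact fun h => h.elim hx1 hx2
    · refine ⟨(π q2).1, (π q2).2, fun x hx => ?_⟩
      show (if x ∈ D1 then y1 q1 x else y2 q2 x) = (π q2).1 x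
      have hx1 : x ∉ D1 := by
        rw [← hC1 q2 hq2]
        intro h
        exact Finset.disjoint_left.1 ((hcov q2 (hCp q2 hq2)).1 j hj) (S1_sub b D q2 h) hx
      rw [if_neg hx1]
      show (if x ∈ D1 then false else (π q2).1 x) = (π q2).1 x
      rw [if_neg hx1]
  rw [hf _ hmem] at hfa
  exact absurd hfa (by decide)

end Pool.Agent.TKN
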