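import Pool.Agent.TKN.St5

/-!
# Project TKN, one function for all `k`: module UPA

The complement of `fA` is easy.
-/

set_option autoImplicit false

open Finset

namespace Pool.Agent.TKN.ONE

open Pool.Agent.Lib_helper20.SRO (Agrees NBP Walk evenWeight)
open Pool.Agent.URG (VarA VarG VarX goodA goodF deg lg Pass pols Good)
open Pool.Agent.HPM.Fn (Coord)

namespace MUPA

lemma bad_iff {n e L : ℕ} (β : Coord (deg n e)) (u : VarA n e L → Bool) :
    (∃ x, Bad β x u) ↔ ¬ goodA β u = true := by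
  have h0 : goodA β u = true ↔ ∀ l, evenWeight (fun j => u (Sum.inr (l, j))) = true ∧
      ∀ t, Pass β (fun i => u (Sum.inl i)) t (fun j => u (Sum.inr (l, j))) := by
    unfold goodA
    exact @decide_eq_true_iff _ (Classical.propDecidable _)
  rw [h0, not_forall]
  constructor
  · rintro ⟨x, hx⟩
    rcases x with ⟨t, l⟩ | l
    · exact ⟨l, fun h => hx (h.2 t)⟩
    · exact ⟨l, fun h => hx h.1⟩
  · rintro ⟨l, hl⟩
    by_cases h : evenWeight (fun j => u (Sum.inr (l, j))) = true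
    · by_contra hc
      apply hl
      refine ⟨h, fun t => ?_⟩
      by_contra ht
      exact hc ⟨Sum.inl (t, l), ht⟩
    · exact ⟨Sum.inr l, h⟩

lemma card_gf {h : ℕ} (h0 : h ≠ 0) : Nat.card (GaloisField 2 h) = 2 ^ h := GaloisField.card 2 h h0

lemma two_pow_lg {M : ℕ} (hM : M ≠ 0) : 2 ^ lg M ≤ 2 * M := by
  unfold lg
  rw [pow_succ, mul_comm]
  exact Nat.mul_le_mul_left 2 (Nat.pow_log_le_self 2 hM)

lemma lg_le {M : ℕ} (hM : M ≠ 0) : lg M ≤ M := by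
  unfold lg
  have h1 := Nat.pow_log_le_self 2 hM
  have h2 : Nat.log 2 M < 2 ^ Nat.log 2 M := Nat.lt_two_pow_self
  omega

lemma exists_inj (h k : ℕ) (h0 : h ≠ 0) (hk : 3 * h + 1 ≤ k) :
    ∃ j : Bool × (GaloisField 2 h × GaloisField 2 h × GaloisField 2 h) → Fin (2 ^ k),
      Function.Injective j := by
  have : Fintype (GaloisField 2 h) := Fintype.ofFinite _
  have hc : Fintype.card (GaloisField 2 h) = 2 ^ h := by
    rw [← Nat.card_eq_fintype_card, card_gf h0]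
  have h1 : Fintype.card (Bool × (GaloisField 2 h × GaloisField 2 h × GaloisField 2 h)) ≤
      Fintype.card (Fin (2 ^ k)) := by
    rw [Fintype.card_prod, Fintype.card_prod, Fintype.card_prod, hc, Fintype.card_bool,
      Fintype.card_fin]
    have h2 : 2 * (2 ^ h * (2 ^ h * 2 ^ h)) = 2 ^ (3 * h + 1) := by
      rw [pow_succ, ← pow_add, ← pow_add, mul_comm]
      congr 2
      ring
    rw [h2]
    exact Nat.pow_le_pow_right (by norm_num) hk
  obtain ⟨j⟩ := Function.Embedding.nonempty_of_card_le h1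
  exact ⟨j, j.injective⟩

/-- the items -/
abbrev Om (M : ℕ) : Type := Σ e : Fin (blk M),
  (Fin (pols (pt M (e.val + 1)) (e.val + 1)) × Fin (cop (e.val + 1))) ⊕ Fin (cop (e.val + 1))

/-- the item is bad and its switch is on -/
def PP {M : ℕ} (β : Bas M) (ly : Lay M) (ω : Om M) (v : Fin (size M) → Bool) : Prop :=
  v (sw ω.1) = true ∧ Bad (β ω.1) ω.2 (inp ly ω.1 v)

lemma fA_iff {M : ℕ} (β : Bas M) (ly : Lay M) (v : Fin (size M) → Bool) :
    (∃ ω, PP β ly ω v) ↔ ¬ fA β ly v = true := by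
  unfold fA
  rw [decide_eq_true_eq]
  push Not
  constructor
  · rintro ⟨⟨e, x⟩, h1, h2⟩
    exact ⟨e, h1, (bad_iff _ _).1 ⟨x, h2⟩⟩
  · rintro ⟨e, h1, h2⟩
    obtain ⟨x, hx⟩ := (bad_iff _ _).2 h2
    exact ⟨⟨e, x⟩, h1, hx⟩

lemma aut (hCLO : S_CLO) (hAUT : S_AUT) {M : ℕ} (hd : ∀ e : ℕ, 1 ≤ e → e ≤ blk M →
    deg (pt M e) e ≤ 3 * lg M) (β : Bas M) (ly : Lay M) (ω : Om M) :
    Aut (size M) (Fin (2 ^ (9 * lg M + 1))) (PP β ly ω) := by
  obtain ⟨e, x⟩ := ω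
  have h1 := hAUT (pt M (e.val + 1)) (e.val + 1) (cop (e.val + 1)) (size M) (β e)
    (fun w => dat (ly.pos e w))
    (fun a b h => ly.inj e (Fin.natAdd_injective _ _ h))
    (fun t i p => (Fin.natAdd_lt_natAdd_iff _).2 (ly.lt₁ e t i p))
    (fun t q p => (Fin.natAdd_lt_natAdd_iff _).2 (ly.lt₂ e t q p)) x
  have h2 := hCLO.2.1 (size M) (sw e) (fun b => b = true)
  have h3 := hCLO.2.2.1 (size M) _ _ _ _ And h2 h1
  have hlg := Pool.Agent.URG.lg_pos (pt M (e.val + 1))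
  have hdeg := hd (e.val + 1) (by omega) (by have := e.isLt; omega)
  obtain ⟨j, hj⟩ := exists_inj (deg (pt M (e.val + 1)) (e.val + 1)) (9 * lg M + 1)
    (by unfold deg; omega) (by omega)
  exact hCLO.2.2.2 (size M) _ _ j _ hj h3

lemma card_Om {M : ℕ} (hM : M ≠ 0) (hc : ∀ e : ℕ, 1 ≤ e → e ≤ blk M → cop e ≤ M ∧
    pols (pt M e) e ≤ M) : Fintype.card (Om M) ≤ M * (M * M + M) := by
  rw [Fintype.card_sigma]
  have h1 : ∀ e : Fin (blk M), Fintype.card ((Fin (pols (pt M (e.val + 1)) (e.val + 1)) ×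
      Fin (cop (e.val + 1))) ⊕ Fin (cop (e.val + 1))) ≤ M * M + M := by
    intro e
    rw [Fintype.card_sum, Fintype.card_prod, Fintype.card_fin, Fintype.card_fin]
    obtain ⟨h2, h3⟩ := hc (e.val + 1) (by omega) (by have := e.isLt; omega)
    exact Nat.add_le_add (Nat.mul_le_mul h3 h2) h2
  refine (Finset.sum_le_card_nsmul _ _ _ fun e _ => h1 e).trans ?_
  rw [Finset.card_univ, Fintype.card_fin, smul_eq_mul]
  refine Nat.mul_le_mul_right _ ?_
  have := lg_le hM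
  unfold blk
  omega

lemma num {M s c : ℕ} (hM : 2 ^ 56 ≤ M) (hs1 : 2 * M ≤ s) (hs2 : s + 1 ≤ 3 * M)
    (hc : c ≤ M * (M * M + M)) : c * ((s + 1) * 2 ^ (9 * lg M + 1)) + 2 ≤ s ^ 24 := by
  have hM1 : 1 ≤ M := le_trans (by norm_num) hM
  have hM0 : M ≠ 0 := by omega
  have h1 : 2 ^ (9 * lg M + 1) ≤ 2 * (2 * M) ^ 9 := by
    rw [pow_succ, mul_comm 9, pow_mul, mul_comm]
    exact Nat.mul_le_mul_left 2 (Nat.pow_le_pow_left (two_pow_lg hM0) 9)
  have h2 : M * (M * M + M) ≤ 2 * M ^ 3 := by nlinarith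
  have h3 : c * ((s + 1) * 2 ^ (9 * lg M + 1)) ≤ (2 * M ^ 3) * ((3 * M) * (2 * (2 * M) ^ 9)) :=
    Nat.mul_le_mul (hc.trans h2) (Nat.mul_le_mul hs2 h1)
  have h4 : (2 * M ^ 3) * ((3 * M) * (2 * (2 * M) ^ 9)) = 6144 * M ^ 13 := by ring
  have h5 : (2 * M) ^ 24 ≤ s ^ 24 := Nat.pow_le_pow_left hs1 24
  have h6 : (2 * M) ^ 24 = 16777216 * M ^ 24 := by ring
  have h7 : M ^ 13 ≤ M ^ 24 := Nat.pow_le_pow_right hM1 (by norm_num)
  have h8 : 1 ≤ M ^ 24 := Nat.one_le_pow _ _ hM1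
  omega

end MUPA

open MUPA in
theorem t_UPA (hCLO : S_CLO) (hNBP : S_NBP) (hAUT : S_AUT) (hSIZ : S_SIZ) : S_UPA := by
  intro M hM β ly
  obtain ⟨⟨hs1, hs2⟩, -, hsz⟩ := hSIZ M hM
  have hM0 : M ≠ 0 := by
    have : 1 ≤ M := le_trans (by norm_num) hM
    omega
  have hP : ∀ ω : Om M, Aut (size M) (Fin (2 ^ (9 * lg M + 1))) (PP β ly ω) := fun ω =>
    aut hCLO hAUT (fun e h1 h2 => (hsz e h1 h2).2.2.2.2.2.2.1) β ly ω
  obtain ⟨Q, hQ, G, h1, h2, h3⟩ := hNBP (size M) (Fin (2 ^ (9 * lg M + 1))) (Om M) (PP β ly) hP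
  refine ⟨Q, hQ, G, h1, fun v => ?_, ?_⟩
  · rw [h2 v, fA_iff β ly v]
    cases hf : fA β ly v <;> simp [hf]
  · rw [h3, Fintype.card_fin]
    exact num hM hs1 hs2 (card_Om hM0 fun e h4 h5 =>
      ⟨(hsz e h4 h5).2.2.2.1, (hsz e h4 h5).2.2.2.2.1⟩)

end Pool.Agent.TKN.ONE
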