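import Pool.Agent.TKN.St2
import Pool.Agent.TKN.St3

/-!
# Project TKQ: statements, part 8 (explicit dependence on `k`: the core)

The aim: a constant `B` such that for all `k ≥ 1` and `N ≥ 2 ^ ((k + 1) ^ B)` programs of length `k N`
need `2 ^ (N / 2 ^ ((k + 1) ^ B))` nodes. All quantities of the proof are averages over the sets `V` of
size `t` and the sets `J` of size `i`; they are monotone in `t`, and the size `t` changes along the chain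
`i = 0, 1, ...`, so that the errors are relative.
-/

set_option autoImplicit false

open Finset
open scoped Classical

namespace Pool.Agent.TKN

open NCE
open Pool.Agent.Lib_helper20.SRO (RectFree Rigid flipAt)

/-- the average over the sets `V` of size `t` and the sets `J` of size `i` -/
noncomputable def av (n r t i : ℕ) (g : Finset (Fin n) → Finset (Fin r) → ℝ) : ℝ :=
  (∑ V ∈ powersetCard t (univ : Finset (Fin n)), ∑ J ∈ powersetCard i (univ : Finset (Fin r)), g V J) /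
    ((n.choose t : ℝ) * (r.choose i : ℝ))

section
variable {n r : ℕ} (Z : Finset (Fin n → Bool)) (hZ : Z.Nonempty)
  (U : Fin r → (Fin n → Bool) → Finset (Fin n))

/-- the sum of the uncertainties -/
noncomputable def PhiF (V : Finset (Fin n)) (J : Finset (Fin r)) : ℝ :=
  ∑ v ∈ V, O (uni Z hZ) (FJ Z U V J) (bit Z v)

/-- the sum of the conditional entropies -/
noncomputable def EntF (V : Finset (Fin n)) (J : Finset (Fin r)) : ℝ :=
  ∑ v ∈ V, CH (uni Z hZ) (FJ Z U V J) (bit Z v)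

/-- the total correlation -/
noncomputable def TCF (V : Finset (Fin n)) (J : Finset (Fin r)) : ℝ :=
  TC (uni Z hZ) (FJ Z U V J) V Subtype.val

/-- the average uncertainty of a bit -/
noncomputable def oA (t i : ℕ) : ℝ := av n r t i (PhiF Z hZ U) / t

/-- the average entropy of a bit -/
noncomputable def xA (t i : ℕ) : ℝ := av n r t i (EntF Z hZ U) / t

/-- the average total correlation per bit -/
noncomputable def yA (t i : ℕ) : ℝ := av n r t i (TCF Z hZ U) / t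

end

/-- OM.  The uncertainty decreases if the information increases.
Proof: `O P F b = ∑ f, 2 m₁ m₀ / (m₁ + m₀)` (see the doc string of SBI and the file P_SBI.lean) and
`(a, b) ↦ 2 a b / (a + b)` is superadditive: `a b/(a+b) + a' b'/(a'+b') ≤ (a+a')(b+b')/(a+a'+b+b')`;
on the support `F` is a function of `G`, so the mass of `F = f`, bit `= c` is the sum over the values
`g` of `G` on `F = f`. -/
def S_OM : Prop := ∀ (Ω : Type) [Fintype Ω] (P : FP Ω) (γ δ : Type) (F : Ω → γ) (G : Ω → δ)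
  (b : Ω → Bool), DetS P G F → O P G b ≤ O P F b

/-- OX (uses `S_BIN`, `S_HE3`).  Uncertainty and entropy of a bit.
Proof: `O P F b = ex (2 opp (1 - opp))` (given `F = f` both sides are `2 π₁ π₀`), `CH = ex h(opp)` by
BIN; then pointwise, for `p = opp ∈ [0, 1]`: `2 p (1 - p) ≤ 4 log 2 p (1 - p) ≤ h p` (HE3),
`h p ≤ log 2 ≤ 1`, and `h p ≤ a + 2 p (1 - p) log (1/a)`: both sides are symmetric in `p`, so let
`p ≤ 1/2`; `h p ≤ p log (1/p) + p` (as `(1-p) log (1/(1-p)) ≤ p`), `2 p (1 - p) ≥ p`, and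
`p log (1/p) + p ≤ a + p log (1/a)` is `p log (a/p) ≤ a - p`. -/
def S_OX : Prop := ∀ (Ω : Type) [Fintype Ω] (P : FP Ω) (γ : Type) (F : Ω → γ) (b : Ω → Bool),
  0 ≤ O P F b ∧ O P F b ≤ CH P F b ∧ CH P F b ≤ 1 ∧
    ∀ a : ℝ, 0 < a → a ≤ 1 → CH P F b ≤ a + Real.log (1 / a) * O P F b

/-- AVO (uses `S_OM`).  `oA` is increasing in `t`.
Proof: `∑ v₀ ∈ V, Φ (V.erase v₀, J) ≤ (|V| - 1) Φ (V, J)` as `FJ (V.erase v₀) J` determines `FJ V J`
(OM) for every `v ∈ V`, `v ≠ v₀`; sum over the `V` with `|V| = t + 1`: every `V'` with `|V'| = t` is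
`V.erase v₀` for `n - t` pairs, and `(t + 1) choose n (t+1) = (n - t) choose n t`. -/
def S_AVO : Prop := ∀ (n r : ℕ) (Z : Finset (Fin n → Bool)) (hZ : Z.Nonempty)
  (U : Fin r → (Fin n → Bool) → Finset (Fin n)) (t i : ℕ), 1 ≤ t → t + 1 ≤ n → i ≤ r →
  oA Z hZ U t i ≤ oA Z hZ U (t + 1) i

/-- AVX (uses `S_DTS`, `S_SBS`).  `xA` is increasing, and the total correlation is small if `xA` is
nearly constant.
Proof: let `A V J = CH (FJ V J) val = H id - H (FJ V J)` as in TCA (file P_TCA.lean contains these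
facts for one `J`): `CH (FJ V J) (bit v) = A V J - A (V.erase v) J` for `v ∈ V`, `A ∅ J = 0`, and `A`
is supermodular. With `a t = av (A)`: `t xA t = t (a t - a (t-1))` for `1 ≤ t` (count pairs), so
`xA t = a t - a (t - 1)`; supermodularity gives `xA t ≤ xA (t + 1)`; and
`t yA t = t xA t - a t`, `a t = ∑ s ≤ t, xA s ≥ (t - t') xA t'` (`xA ≥ 0`). `yA ≥ 0`: `TC ≥ 0` is a
part of `S_TCA` (for one `J` it is `a t ≤ t xA t` resp. the proof there). -/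
def S_AVX : Prop := ∀ (n r : ℕ) (Z : Finset (Fin n → Bool)) (hZ : Z.Nonempty)
  (U : Fin r → (Fin n → Bool) → Finset (Fin n)) (i : ℕ), i ≤ r →
  (∀ t, 1 ≤ t → t + 1 ≤ n → xA Z hZ U t i ≤ xA Z hZ U (t + 1) i) ∧
  (∀ V J, 0 ≤ TCF Z hZ U V J) ∧
  ∀ t t' : ℕ, 1 ≤ t' → t' ≤ t → t ≤ n →
    yA Z hZ U t i ≤ xA Z hZ U t i - xA Z hZ U t' i + (t' : ℝ) / t * xA Z hZ U t' i

/-- AVB (uses `S_OX`).  Bounds; averages of OX. -/
def S_AVB : Prop := ∀ (n r : ℕ) (Z : Finset (Fin n → Bool)) (hZ : Z.Nonempty)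
  (U : Fin r → (Fin n → Bool) → Finset (Fin n)) (t i : ℕ), 1 ≤ t → t ≤ n → i ≤ r →
  0 ≤ oA Z hZ U t i ∧ oA Z hZ U t i ≤ xA Z hZ U t i ∧ xA Z hZ U t i ≤ 1 ∧
    ∀ a : ℝ, 0 < a → a ≤ 1 → xA Z hZ U t i ≤ a + Real.log (1 / a) * oA Z hZ U t i

/-- RE2 (uses `S_STEP`, `S_CHO`).  The recursion, averaged over `V` and `J`.
Proof: for fixed `V` as in REC (file P_REC.lean), with the sum of the `TC (V, J)` over the `J` with
`|J| = i` in place of the bound `t`: with `Φ_i = (∑ J, Φ (V, J)) / choose r i` and `T_i` the same for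
`TC`, `Φ_i - 12/(r-i) (c0 Φ_i + κ_V ((r-i)/r)^c0) - 8 T_i ≤ Φ_{i+1}`, `κ_V = ∑ v ∈ V, ex (cnt v)`.
Then sum over the `V` with `|V| = t`; `∑ V, κ_V = choose (n-1) (t-1) * ∑ v, ex (cnt v)
= (t/n) choose n t * ex (∑ j, |U j z|) ≤ (t/n) choose n t * r w ≤ t k choose n t`. -/
def S_RE2 : Prop := ∀ (n r w k : ℕ) (Z : Finset (Fin n → Bool)) (hZ : Z.Nonempty)
  (U : Fin r → (Fin n → Bool) → Finset (Fin n)), Fam n r w Z U → r * w ≤ k * n →
  ∀ t i : ℕ, 1 ≤ t → t ≤ n → i < r → ∀ c0 : ℕ,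
    oA Z hZ U t i - 12 / ((r : ℝ) - i) * (c0 * oA Z hZ U t i + k * (((r : ℝ) - i) / r) ^ c0) -
      8 * yA Z hZ U t i ≤ oA Z hZ U t (i + 1)

/-- ST2 (uses `S_START`).  The start: average of START over `V`; `powersetCard 0 univ = {∅}`. -/
def S_ST2 : Prop := ∀ (n r : ℕ) (Z : Finset (Fin n → Bool)) (hZ : Z.Nonempty)
  (U : Fin r → (Fin n → Bool) → Finset (Fin n)) (d : ℝ),
  n * Real.log 2 - d ≤ Real.log Z.card → ∀ t : ℕ, 1 ≤ t → t ≤ n → 1 / 2 - d / t ≤ oA Z hZ U t 0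

/-- SEL (uses `S_SMP`, `S_AVX`).  The choice of `V` and `J` at the end.
Proof: let `bad V J = 1` if `θ |Z| <` the number of heavy words, else `0`. For each `J` with `|J| = i`
SMP (`S = univ`, `W = Z`, `U = UJ U Jᶜ`) and `|UJ U Jᶜ z| ≤ |Jᶜ| w ≤ ε n` give
`∑ V, #heavy ≤ |Z| / (ε^2 t) choose n t`, so `∑ V, bad V J ≤ choose n t / (θ ε^2 t) ≤ (μ/4) choose n t`.
Hence the average of `Φ - TC / ρ - t bad` is at least `t (oA - oA/4 - μ/4) ≥ t oA / 2 ≥ t μ / 2`; take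
`V`, `J` with at least this value. As `Φ ≤ t` and `TC ≥ 0` (AVX), `bad V J = 0`. -/
def S_SEL : Prop := ∀ (n r w : ℕ) (Z : Finset (Fin n → Bool)) (hZ : Z.Nonempty)
  (U : Fin r → (Fin n → Bool) → Finset (Fin n)), Fam n r w Z U →
  ∀ (t i : ℕ) (ε θ μ ρ : ℝ), 1 ≤ t → t ≤ n → i ≤ r → 0 < ε → 0 < θ → 0 < μ → 0 < ρ →
  ((r : ℝ) - i) * w ≤ ε * n → μ ≤ oA Z hZ U t i → yA Z hZ U t i ≤ ρ * oA Z hZ U t i / 4 →
  1 / (ε ^ 2 * t * θ) ≤ μ / 4 →
  ∃ (V : Finset (Fin n)) (J : Finset (Fin r)), V.card = t ∧ J.card = i ∧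
    μ / 2 * t ≤ PhiF Z hZ U V J ∧ TCF Z hZ U V J ≤ ρ * PhiF Z hZ U V J ∧
    ((Z.filter fun z => 2 * ε * t < ((UJ U Jᶜ z ∩ V).card : ℝ)).card : ℝ) ≤ θ * Z.card

/-- CHAIN (pure analysis).  The chain of scales; `j` is the number of the scale (`t = n / L ^ j`).
Proof: let `μ = exp (1 - l)`, `J i = (r - i) K`, `b i = o (J i) i`. Claim: if `i < r - m0` and
`μ ≤ b i` then the recursion of the last hypothesis holds at `i` (then it gives `μ ≤ b (r - m0)`).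
Indeed `o j i ≥ b i ≥ μ` for `j ≤ J i`. There is a `j` with `J (i + 1) ≤ j < J i` and
`x j i - x (j+1) i ≤ τ x j i`, `τ = 1 / (r l)`: otherwise `x (J i) i < (1 - τ)^K ≤ exp (- τ K) ≤ μ`
(`τ K ≥ l`), but `x (J i) i ≥ o (J i) i ≥ μ`. For this `j`, `x j i ≤ μ + (l - 1) o j i ≤ l o j i`, so
`8 y j i ≤ 8 τ l o j i + 8 / L ≤ 12 / (r - i) * o j i + μ / (10 r)`, and
`b (i + 1) ≥ o j (i + 1) ≥ (1 - 12 (c0 + 1) / (r - i)) o j i - 12 / (r - i) k g^c0 - μ / (10 r)`; if the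
bracket is `≥ 0` use `o j i ≥ b i`, otherwise the right side of the claim is `≤ 0 ≤ b (i + 1)`.
At the end `i = r - m0`: in the same way there is `j < K` with `x j i - x (j+1) i ≤ τ' x j i`,
`τ' = 1 / (16000 l^2)`, and `y j i ≤ τ' l o j i + 1 / L ≤ o j i / (8000 l)`, as `1 / L ≤ μ / (16000 l)`. -/
def S_CHAIN : Prop := ∀ (r m0 K L : ℕ) (k l : ℝ) (o x y : ℕ → ℕ → ℝ), 0 < m0 → m0 < r → 1 ≤ l →
  0 ≤ k → 16000 * r * l ^ 3 ≤ K → (80 * r + 16000 * l) * Real.exp l ≤ L →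
  (∀ j i, j < r * K → i ≤ r → o (j + 1) i ≤ o j i ∧ x (j + 1) i ≤ x j i) →
  (∀ j i, j ≤ r * K → i ≤ r → 0 ≤ o j i ∧ o j i ≤ x j i ∧ x j i ≤ 1 ∧
    ∀ a : ℝ, 0 < a → a ≤ 1 → x j i ≤ a + Real.log (1 / a) * o j i) →
  (∀ j i, j < r * K → i ≤ r → y j i ≤ x j i - x (j + 1) i + 1 / L) →
  (∀ j i, j ≤ r * K → i < r → ∀ c0 : ℕ, o j i - 12 / ((r : ℝ) - i) *
    (c0 * o j i + k * (((r : ℝ) - i) / r) ^ c0) - 8 * y j i ≤ o j (i + 1)) →
  (∀ j, j ≤ r * K → 2 / 5 ≤ o j 0) →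
  (∀ b : ℕ → ℝ, 2 / 5 ≤ b 0 → (∀ i < r - m0, Real.exp (1 - l) ≤ b i → ∀ c0 : ℕ,
    b i - 12 / ((r : ℝ) - i) * ((c0 + 1) * b i + k * (((r : ℝ) - i) / r) ^ c0) -
      Real.exp (1 - l) / (10 * r) ≤ b (i + 1)) → Real.exp (1 - l) ≤ b (r - m0)) →
  ∃ j < r * K, Real.exp (1 - l) ≤ o j (r - m0) ∧ y j (r - m0) ≤ o j (r - m0) / (8000 * l)

/-- NUMQ (pure analysis).  The numerical recursion with explicit bounds.
Proof: as in P_NUM.lean (helper45): the lower bound `exp (- D (log (r / (r - i))) ^ 25)` with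
`D = 24 K / l0 ^ 25 + ...`, `l0 = 1 / (500 k)`, is polynomial in `k`; `r = R m0` with `R`, `m0`
polynomial in `k`; `l = 1 + D (log R) ^ 25`. -/
def S_NUMQ : Prop := ∃ B : ℕ, ∀ k : ℕ, 1 ≤ k → ∃ (r m0 : ℕ) (l : ℝ), 0 < m0 ∧ m0 < r ∧ 1 ≤ l ∧
  (r : ℝ) ≤ (k + 1 : ℝ) ^ B ∧ l ≤ (k + 1 : ℝ) ^ B ∧ 4 * (k * m0 / r : ℝ) ≤ 1 / 20000 ∧
  20000 * l * eta (4 * (k * m0 / r)) ≤ 1 ∧
  ∀ b : ℕ → ℝ, 2 / 5 ≤ b 0 → (∀ i < r - m0, Real.exp (1 - l) ≤ b i → ∀ c0 : ℕ,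
    b i - 12 / ((r : ℝ) - i) * ((c0 + 1) * b i + k * (((r : ℝ) - i) / r) ^ c0) -
      Real.exp (1 - l) / (10 * r) ≤ b (i + 1)) → Real.exp (1 - l) ≤ b (r - m0)

/-- COREQ (uses `S_NUMQ`, `S_CHAIN`, `S_AVO`, `S_AVX`, `S_AVB`, `S_RE2`, `S_ST2`, `S_SEL`, and the
hypotheses `S_DSX`, `S_COV`, `S_UPP`, `S_LOW`, `S_SUBS`, `S_CTE`, `S_LEV`, `S_SMP` of `MCORE.partB`,
file P_CORE.lean).  The core theorem with explicit bounds (helper83).
Proof: `r, m0, l` from NUMQ, `K = ⌈16000 r l^3⌉`, `L = ⌈(80 r + 16000 l) exp l⌉`, the scales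
`t j = n / L ^ j` for `j ≤ r K`; CHAIN for `o j i = oA (t j) i` etc. gives `j`; SEL for `t = t j`,
`i = r - m0`, `ε = k m0 / r`, `ρ = 1 / (2000 l)`, `θ = exp (1 - l) / (4000 l)` gives `V`, `J`; partB with
`μ = Φ (V, J) / t ≥ exp (1 - l) / 2`, `1 + log (1/μ) ≤ 2 l`. -/
def S_COREQ : Prop := ∃ B : ℕ, ∀ k : ℕ, 1 ≤ k → ∃ r : ℕ, 0 < r ∧ r ≤ (k + 1) ^ B ∧
  ∀ n : ℕ, 2 ^ ((k + 1) ^ B) ≤ n →
  ∀ (w : ℕ) (Z : Finset (Fin n → Bool)) (U : Fin r → (Fin n → Bool) → Finset (Fin n))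
    (f : (Fin n → Bool) → Bool) (M : ℕ), Fam n r w Z U → r * w ≤ k * n →
    (∀ z ∈ Z, f z = true) → Rigid f → RectFree f M → 1 ≤ M →
    (M : ℝ) ≤ Real.exp ((n : ℝ) / 2 ^ ((k + 1) ^ B)) →
    (2 : ℝ) ^ n ≤ Real.exp ((n : ℝ) / 2 ^ ((k + 1) ^ B)) * Z.card → False

end Pool.Agent.TKN
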