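import Pool.Agent.TKN.St7
import Pool.Agent.TKN.St8

/-!
# Project TKQ: statements, part 9 (explicit dependence on `k`: programs on `n` bits)

`LF`, `LR`, `AR` are the bodies of `S_LOWF`, `S_LOWR`, `S_AVR` for one `k`, `c`, `n`. Here `CFT.FP` is the
type of the fork programs and `NCE.FP` is not used.
-/

set_option autoImplicit false

open Finset

namespace Pool.Agent.TKN

open Pool.Agent.Lib_helper20.SRO (RectFree Rigid Agrees)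
open Pool.Agent.CFT (Der fixF)

/-- the body of `S_LOWF` -/
def LF (k : ℕ) (c : ℝ) (n : ℕ) : Prop := ∀ (N : Type) [Fintype N]
  (G : CFT.FP (Fin n) N) (f : (Fin n → Bool) → Bool) (m s : ℕ) (B0 : Finset (Fin n → Bool)),
  (s : ℝ) ≤ c * n → G.Block s → (∀ b, G.Accepts b → f b = true) → Rigid f →
  (∀ b ∈ B0, ∃ l, Der G G.source l ∧ Agrees b l ∧ l.length ≤ k * n) →
  1 ≤ m → (m : ℝ) ≤ 2 ^ (c * n) → RectFree f m →
  (2 : ℝ) ^ n ≤ 2 ^ (c * n) * B0.card → (2 : ℝ) ^ (c * n) ≤ Fintype.card N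

/-- the body of `S_LOWR` -/
def LR (k : ℕ) (c : ℝ) (n : ℕ) : Prop := ∀ (N : Type) [Fintype N]
  (G : CFT.FP (Fin n) N) (f : (Fin n → Bool) → Bool) (m s : ℕ) (B0 : Finset (Fin n → Bool)),
  (s : ℝ) ≤ c * n → G.Block s → (∀ b, G.Accepts b → f b = true) → Rigid f →
  (∀ b ∈ B0, ∃ l, Der G G.source l ∧ Agrees b l ∧ ∃ R : Finset (Fin n), R.card ≤ s ∧
    Out R l ≤ k * n) →
  1 ≤ m → (m : ℝ) ≤ 2 ^ (c * n) → RectFree f m →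
  (2 : ℝ) ^ n ≤ 2 ^ (c * n) * B0.card → (2 : ℝ) ^ (c * n) ≤ Fintype.card N

/-- the body of `S_AVR` -/
def AR (k : ℕ) (c : ℝ) (n : ℕ) : Prop :=
  ∀ (L m s : ℕ) (W Q : Type) [Fintype Q] [DecidableEq W] (G : CFT.FP (W ⊕ (Fin L × Fin n)) Q)
    (w : W → Bool) (g : (Fin n → Bool) → Bool), 1 ≤ L → Rigid g → RectFree g m → 1 ≤ m →
    (m : ℝ) ≤ 2 ^ (c * n) →
    (2 : ℝ) ^ n * L ≤ 2 ^ (c * n) * (univ.filter fun x => g x = true).card →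
    (s : ℝ) ≤ c * n → G.Block s →
    (∀ b : Fin L × Fin n → Bool, G.Accepts (Sum.elim w b) ↔ ∀ l, g (fun j => b (l, j)) = true) →
    (∀ b : Fin L × Fin n → Bool, G.Accepts (Sum.elim w b) → ∃ l, Der G G.source l ∧
      Agrees (Sum.elim w b) l ∧ ∃ R : Finset (W ⊕ (Fin L × Fin n)), R.card ≤ s ∧
        Out R l ≤ k * (n * L)) →
    (2 : ℝ) ^ (c * n) ≤ Fintype.card Q

/-- LFQ (uses `S_FAM`, `S_COREQ`).
Proof: as P_LOWF.lean. COREQ for `4 k` gives `B1` and `r ≤ (4 k + 1) ^ B1 ≤ (k + 1) ^ B2`; with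
`D = 2 ^ ((4 k + 1) ^ B1)` the numbers `c ≤ 1 / r` and `c (r + 1) log 2 ≤ 1 / D` hold for
`c = 1 / 2 ^ ((k + 1) ^ B)` if `B` is large (`(4 k + 1) ≤ (k + 1) ^ 3`, `r + 1 ≤ 2 ^ (...)`). -/
def S_LFQ : Prop := ∃ B : ℕ, ∀ k : ℕ, 1 ≤ k → ∀ n : ℕ, 2 ^ ((k + 1) ^ B) ≤ n →
  LF k (1 / 2 ^ ((k + 1) ^ B)) n

/-- LRQ (uses `S_LFQ`, `S_SUBS`).
Proof: as Q_LOWR.lean (file of `t_LOWR`), with `c' = 1 / 2 ^ ((k + 2) ^ B')` (LFQ for `k + 1`) and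
`c ≤ (c' / 16) ^ 2`, which gives `eta c ≤ 2 √c ≤ c' / 8`. -/
def S_LRQ : Prop := ∃ B : ℕ, ∀ k : ℕ, 1 ≤ k → ∀ n : ℕ, 2 ^ ((k + 1) ^ B) ≤ n →
  LR k (1 / 2 ^ ((k + 1) ^ B)) n

/-- ARP (uses `CFT.Stmt_FIX`): `t_AVR` (file Q_AVR.lean) for one `n`; the constant does not change. -/
def S_ARP : Prop := ∀ (k : ℕ) (c : ℝ) (n : ℕ), 1 ≤ k → 0 < c → c ≤ 1 → LR k c n → AR k c n

end Pool.Agent.TKN
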