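import Pool.Agent.TKN.St9
import Pool.Agent.URG.Low

/-!
# Project TKQ: statements, part 10 (the function, and the lower bound with explicit dependence on `k`)

The function is that of part 5, but for large `e` (if `lg (lg n) < 2 e`) the tests are of a second
kind: a point passes the test if NOT all of the first `ss n e = 2 e - lg (lg n)` coordinates of
`q(x(a))` are zero. The tests of the first kind have density `2 ^ (- n / √(log n))` at best, those of the
second kind have density `2 ^ (- 24 n / 2 ^ e)` for all `e`. The numbers `lg`, `deg`, `zs`, `pols`, the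
variables, the layouts and the sizes do not change.
-/

set_option autoImplicit false

open Finset

namespace Pool.Agent.TKN.TWO

open Pool.Agent.Lib_helper20.SRO (RectFree Rigid Agrees evenWeight NBP Walk)
open Pool.Agent.URG (VarA VarG VarX deg lg pols zs zs_le Zero)
open Pool.Agent.HPM (DecOs)
open Pool.Agent.HPM.Fn (Coord)
open Pool.Agent.TKN.ONE (cop pt blk size BV Bas Lay sw dat inp Aut HardR)

/-! ## The function -/

/-- the number of the coordinates for the tests of the second kind; if it is `0` the tests are of the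
first kind -/
def ss (n e : ℕ) : ℕ := 2 * e - lg (lg n)

lemma ss_le (n e : ℕ) : ss n e ≤ deg n e := by
  unfold ss deg
  omega

/-- The point `x` passes the test `t` of the tests `u`. -/
def Pass {n e : ℕ} (β : Coord (deg n e)) (u : VarX n e → Bool) (t : Fin (pols n e))
    (x : Fin n → Bool) : Prop :=
  if ss n e = 0 then
    Zero β (zs_le n e) (fun i => u (t, Sum.inl i)) (fun k i => u (t, Sum.inr (k, i))) x
  else ¬ Zero β (ss_le n e) (fun i => u (t, Sum.inl i)) (fun k i => u (t, Sum.inr (k, i))) x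

/-- Each of the points `y` has an even number of ones and passes all tests. -/
def Good {n e L : ℕ} (β : Coord (deg n e)) (u : VarX n e → Bool) (y : Fin L × Fin n → Bool) :
    Prop :=
  ∀ l, evenWeight (fun j => y (l, j)) = true ∧ ∀ t, Pass β u t (fun j => y (l, j))

open Classical in
/-- the function for one `e`, without polarity bit -/
noncomputable def goodA {n e L : ℕ} (β : Coord (deg n e)) (v : VarA n e L → Bool) : Bool :=
  decide (Good β (fun i => v (Sum.inl i)) fun p => v (Sum.inr p))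

open Classical in
/-- the function for one `e`, with polarity bit -/
noncomputable def goodF {n e L : ℕ} (β : Coord (deg n e)) (v : VarG n e L → Bool) : Bool :=
  decide (Good β (fun i => v (Sum.inl (Sum.inl i))) (fun p => v (Sum.inr p)) ↔
    v (Sum.inl (Sum.inr ())) = true)

open Classical in
/-- the function without polarity bit -/
noncomputable def fA {M : ℕ} (β : Bas M) (ly : Lay M) (v : Fin (size M) → Bool) : Bool :=
  decide (∀ e : Fin (blk M), v (sw e) = true → goodA (β e) (inp ly e v) = true)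

/-- The function with polarity bit, the last bit of the input: `fA` if it is `true`, the contrary if
it is `false`. -/
noncomputable def fF {M : ℕ} (β : Bas M) (ly : Lay M) (v : Fin (size M + 1) → Bool) : Bool :=
  decide (fA β ly (fun i => v i.castSucc) = true ↔ v (Fin.last _) = true)

/-! ## Good tests -/

/-- UNQ: the union bound for tests that are passed with probability `1 - 2 ^ (- s)`.
Proof: as `URG.UNI.t_uni` (file Pool/Agent/URG/Uni.lean; `UNI.rect` can be used): for random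
`P : Fin K → S` the probability that some rectangle survives is at most `2 ^ (n + 2 n m - w K) ≤
2 ^ (- K - 2) ≤ (1/4) (1 - 2 ^ (- s)) ^ K`, and the expected number of survivors is
`|E| (1 - 2 ^ (- s)) ^ K`. -/
def S_UNQ : Prop := ∀ (n : ℕ) (S : Type) [Fintype S] [Nonempty S] (s w K m : ℕ)
  (g : S → (Fin n → Bool) → Bool) (E : Finset (Fin n → Bool)), 1 ≤ s → 0 < E.card →
  (∀ z, 2 ^ s * (univ.filter fun σ => g σ z = true).card = (2 ^ s - 1) * Fintype.card S) →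
  (∀ Z : Finset (Fin n → Bool), Z.card = m * m →
    2 ^ w * (univ.filter fun σ => ∀ z ∈ Z, g σ z = true).card ≤ Fintype.card S) →
  K + 2 + n + 2 * (n * m) ≤ w * K →
  ∃ P : Fin K → S, RectFree (fun x => decide (∀ t, g (P t) x = true)) m ∧
    (2 ^ s - 1) ^ K * E.card ≤ 2 ^ (s * K + 1) *
      (E.filter fun x : Fin n → Bool => decide (∀ t, g (P t) x = true) = true).card

open Classical in
/-- BKQ: the numbers of the tests of the second kind.
Proof: as `URG.BLK.card_one`, `URG.BLK.card_many` (file Pool/Agent/URG/Blk.lean), from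
`BLK.card_ev` (any predicate `A`) and `BLK.card_zero`: for a fixed `a` that separates the points of
`Z`, `#{q | all pass} = (1 - 2 ^ (- s)) ^ |Z| * #{q}`; the number of the `a` that do not separate `Z`
is at most `|Z| ^ 2 n ≤ 2 ^ (4 e) n ≤ 2 ^ deg / 2 ^ lg n`. For `|Z| = 4 ^ e` and `s = ss n e ≥ 1`,
`4 ^ e = 2 ^ s * 2 ^ lg (lg n)` and `(1 - 2 ^ (- s)) ^ (4 ^ e) ≤ exp (- 2 ^ lg (lg n)) ≤ 2 ^ (- lg n)`
(`m < 2 ^ lg m`; in integers: `(2^s - 1) ^ (2^s) * 2 ≤ (2^s) ^ (2^s)` (Bernoulli), and then the power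
`2 ^ lg (lg n)`). -/
def S_BKQ : Prop := ∀ (n e : ℕ) (β : Coord (deg n e)), 2 ≤ n → 1 ≤ e → 1 ≤ ss n e →
  (∀ z : Fin n → Bool, 2 ^ ss n e * (univ.filter fun σ : (Fin (deg n e) → Bool) ×
      (Fin (4 ^ e) → Fin (deg n e) → Bool) => ¬ Zero β (ss_le n e) σ.1 σ.2 z).card =
    (2 ^ ss n e - 1) * Fintype.card ((Fin (deg n e) → Bool) ×
      (Fin (4 ^ e) → Fin (deg n e) → Bool))) ∧
  ∀ Z : Finset (Fin n → Bool), Z.card = 4 ^ e →
    2 ^ (lg n - 1) * (univ.filter fun σ : (Fin (deg n e) → Bool) ×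
      (Fin (4 ^ e) → Fin (deg n e) → Bool) => ∀ z ∈ Z, ¬ Zero β (ss_le n e) σ.1 σ.2 z).card ≤
    Fintype.card ((Fin (deg n e) → Bool) × (Fin (4 ^ e) → Fin (deg n e) → Bool))

open Classical in
/-- the one-point function: the number of ones is even and all tests are passed -/
noncomputable def one {n e : ℕ} (β : Coord (deg n e)) (u : VarX n e → Bool) (x : Fin n → Bool) :
    Bool := evenWeight x && decide (∀ t, Pass β u t x)

/-- GOOQ (uses `S_UNQ`, `S_BKQ`): good tests.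
Proof: (1) as `URG.rigid_one`. (2) If `ss n e = 0` then `Pass` is `URG.Pass`, use `URG.t_good`; here
`2 e ≤ lg (lg n)`, so `4 ^ e ≤ 2 ^ lg (lg n) ≤ 2 lg n` and `zs n e ≤ lg n / 4^e + 1 ≤ 3 lg n / 4^e`
(real quotients), `zs n e * pols n e + 2 ≤ 12 (2^e + 1) n / 4^e + 3 lg n / 4^e + 2
≤ 24 n / 2^e + 2 lg n`. If `ss n e ≥ 1` use UNQ with `s = ss n e`, `w = lg n - 1`, `K = pols n e`,
`m = 2 ^ e`, `E` = the words of even weight, as in `URG.t_good` (`pols n e * lg n ≥ 4 (2^e + 1) n`);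
`(1 - 2 ^ (- s)) ^ K ≥ 2 ^ (- 2 K / 2 ^ s)`, `2 ^ s = 4 ^ e / 2 ^ lg (lg n) ≥ 4 ^ e / (2 lg n)`, so
`2 K / 2 ^ s ≤ 4 lg n K / 4 ^ e ≤ 16 (2^e + 1) n / 4^e + 4 lg n / 4^e ≤ 24 n / 2^e + lg n`. -/
def S_GOOQ : Prop := ∀ (n e : ℕ) (β : Coord (deg n e)), 2 ≤ n → 1 ≤ e → 8 ≤ lg n →
  (∀ u, Rigid (one β u)) ∧
  ∃ u : VarX n e → Bool, RectFree (one β u) (2 ^ e) ∧
    (2 : ℝ) ^ n ≤ 2 ^ (24 * (n : ℝ) / 2 ^ e + 2 * lg n) *
      (univ.filter fun x : Fin n → Bool => one β u x = true).card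

/-- the numeric conditions for the constant `c` -/
structure NumQ (c : ℝ) (n e L : ℕ) : Prop where
  hn : 2 ≤ n
  he : 1 ≤ e
  hl : 8 ≤ lg n
  hL : 1 ≤ L
  hd : 24 * (n : ℝ) / 2 ^ e + 2 * lg n ≤ c * n / 2
  hm : ((2 : ℝ) ^ e) ≤ 2 ^ (c * n)
  h4 : (L : ℝ) ≤ 2 ^ (c * n / 2)

/-- CRQ (uses `S_GOOQ`): port of `t_COR` (file Q_COR.lean) for one `n`. -/
def S_CRQ : Prop := ∀ (k : ℕ) (c : ℝ) (n : ℕ), 0 < c → AR k c n →
  ∀ (e L : ℕ) (β : Coord (deg n e)), NumQ c n e L →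
    CoreR k c n L (goodA (L := L) β) ∧ CoreR k c n L (goodF (L := L) β) ∧
      CoreR k c n L (fun v : VarG n e L → Bool => !goodF β v)

/-- NMQ: the numbers. Proof. `24 / 2 ^ (D + 7) ≤ 1 / (4 2 ^ D)`; `n ≥ 2 ^ (4 D + 40)` gives
`2 lg n ≤ n / 2 ^ (D + 2)` and `3 (D + 7) + 6 ≤ n / 2 ^ (D + 1)`; `cop e ≤ 2 ^ (6 + 3 e)`. -/
def S_NMQ : Prop := ∀ D n : ℕ, 2 ^ (4 * D + 40) ≤ n → NumQ (1 / 2 ^ D) n (D + 7) (cop (D + 7))

/-- LWQ (uses `S_LRQ`, `S_ARP`, `S_CRQ`, `S_NMQ`, `ONE.S_SIZ`, `ONE.S_REDR`): the lower bounds.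
Proof. Port of O_LOW1.lean, Q_LOWR1.lean. LRQ for `6 k`: `D = (6 k + 1) ^ B1`, `c0 = 1 / 2 ^ D`,
`e = D + 7`, `n = pt M e`, `L = cop e`. If `B` is large then `(k + 1) ^ B ≥ 100 D + 1000`, so for
`M ≥ 2 ^ ((k + 1) ^ B)`: `e ≤ blk M`, `n ≥ M / 2 ^ (7 + 3 e) ≥ 2 ^ (4 D + 40)`; REDR with `K = 6 k`,
`c = 1 / 2 ^ ((k + 1) ^ B)`, `N ≤ 3 M ≤ 6 n L`, `4 c N ≤ 24 c n L ≤ c0 n` as `L ≤ 2 ^ (6 + 3 e)`,
`1 ≤ c N`. -/
def S_LWQ : Prop := ∃ B : ℕ, ∀ k M : ℕ, 1 ≤ k → 2 ^ ((k + 1) ^ B) ≤ M → ∀ (β : Bas M)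
  (ly : Lay M), HardR k (1 / 2 ^ ((k + 1) ^ B)) (size M) (fA β ly) ∧
    HardR k (1 / 2 ^ ((k + 1) ^ B)) (size M + 1) (fF β ly) ∧
    HardR k (1 / 2 ^ ((k + 1) ^ B)) (size M + 1) (fun v => !fF β ly v)

/-! ## Upper bounds (ports of part 5) -/

/-- The item `x` is bad: an item is a pair of a test and a point which does not pass the test, or a
point with an odd number of ones. -/
def Bad {n e L : ℕ} (β : Coord (deg n e)) (x : (Fin (pols n e) × Fin L) ⊕ Fin L)
    (v : VarA n e L → Bool) : Prop :=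
  match x with
  | Sum.inl (t, l) => ¬ Pass β (fun i => v (Sum.inl i)) t (fun j => v (Sum.inr (l, j)))
  | Sum.inr l => ¬ evenWeight (fun j => v (Sum.inr (l, j))) = true

/-- AUQ: port of `ONE.t_AUT` (file O_AUT.lean): the automaton computes the value `q(x(a))`; only the
acceptance condition changes if `ss n e ≠ 0`. -/
def S_AUQ : Prop := ∀ (n e L m : ℕ) (β : Coord (deg n e)) (pos : VarA n e L → Fin m),
  Function.Injective pos →
  (∀ t i p, pos (Sum.inl (t, Sum.inl i)) < pos (Sum.inr p)) →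
  (∀ t q p, pos (Sum.inr p) < pos (Sum.inl (t, Sum.inr q))) →
  ∀ x : (Fin (pols n e) × Fin L) ⊕ Fin L,
    Aut m (GaloisField 2 (deg n e) × GaloisField 2 (deg n e) × GaloisField 2 (deg n e))
      (fun v => Bad β x (fun w => v (pos w)))

/-- UAQ (uses `ONE.S_CLO`, `ONE.S_NBP`, `S_AUQ`, `ONE.S_SIZ`): port of O_UPA.lean. -/
def S_UAQ : Prop := ∀ M : ℕ, 2 ^ 56 ≤ M → ∀ (β : Bas M) (ly : Lay M),
  ∃ (Q : Type) (_ : Fintype Q) (G : NBP (Fin (size M)) Q),
    (∀ l, Walk G G.source G.sink l → (l.map Prod.fst).Pairwise (· < ·)) ∧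
    G.Computes (fun v => !fA β ly v) ∧ Fintype.card Q ≤ size M ^ 24

/-- UFQ (uses `ONE.S_CLO`, `ONE.S_DEC`, `S_AUQ`, `ONE.S_SIZ`): port of O_UPF.lean. -/
def S_UFQ : Prop := ∀ M : ℕ, 2 ^ 56 ≤ M → ∀ (β : Bas M) (ly : Lay M),
  ∃ (V : Type) (_ : Fintype V) (w : ℕ), Fintype.card V ≤ size M ^ 24 ∧ 2 ^ w ≤ size M ^ 24 ∧
    UM.InPP (DecOs 1 (Fin (size M + 1)) V (size M + 1) (fun t _ => t)) w
      (fun v => fF β ly v = true)

/-- DTQ (uses `ONE.S_CLO`, `S_AUQ`, `ONE.S_SIZ`): port of O_DTA.lean. -/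
def S_DTQ : Prop := ∀ M : ℕ, 2 ^ 56 ≤ M → ∀ (β : Bas M) (ly : Lay M),
  ∃ (V : Type) (_ : Fintype V) (T : ℕ) (σ : Fin T → Fin 1 → Fin (size M)),
    Fintype.card V ≤ size M ^ 24 ∧ T ≤ size M ^ 24 ∧
    DecOs 1 (Fin (size M)) V T σ (fun v => fA β ly v = true)

end Pool.Agent.TKN.TWO
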