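import Pool.Agent.NCE.Stmts

/-!
# Nondeterministic programs of length `k N`: definitions

Project TKN (helper83).  Entropies are those of the library NCE (finite probability spaces `FP Ω`,
`H P X`, natural logarithms).
-/

set_option autoImplicit false

open Finset
open scoped Classical

namespace Pool.Agent.TKN

open NCE

section
variable {Ω : Type} [Fintype Ω] {γ α : Type}

/-- `W` is a function of `V` on the points of positive weight. -/
def DetS (P : FP Ω) (V : Ω → γ) (W : Ω → α) : Prop :=
  ∀ ω ω', P.p ω ≠ 0 → P.p ω' ≠ 0 → V ω = V ω' → W ω = W ω'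

/-- conditional entropy -/
noncomputable def CH (P : FP Ω) (F : Ω → γ) (X : Ω → α) : ℝ := H P (fun ω => (F ω, X ω)) - H P F

/-- The conditional probability, given the value of `F` at `ω`, that the bit `b` has the value
`! b ω`. -/
noncomputable def opp (P : FP Ω) (F : Ω → γ) (b : Ω → Bool) (ω : Ω) : ℝ :=
  pr P (fun ω' => (F ω', b ω')) (F ω, !b ω) / pr P F (F ω)

/-- The uncertainty of the bit `b` given `F`. -/
noncomputable def O (P : FP Ω) (F : Ω → γ) (b : Ω → Bool) : ℝ := ex P (opp P F b)

/-- The total correlation of the bits `z v`, `v ∈ V`, given `F` (if `F` determines the other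
bits). -/
noncomputable def TC {n : ℕ} (P : FP Ω) (F : Ω → γ) (V : Finset (Fin n)) (z : Ω → Fin n → Bool) :
    ℝ := ∑ v ∈ V, CH P F (fun ω => z ω v) - CH P F z

end

/-- the restriction of `z` to `U` -/
noncomputable def pat {n : ℕ} (U : Finset (Fin n)) (z : Fin n → Bool) : Fin n → Option Bool :=
  fun v => if v ∈ U then some (z v) else none

/-- the word `z` outside `V` -/
noncomputable def off {n : ℕ} (V : Finset (Fin n)) (z : Fin n → Bool) : Fin n → Option Bool :=
  fun v => if v ∈ V then none else some (z v)

/-- `Z` is an intersection of `r` unions of subcubes: `U j z` is the set of the variables of the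
first term of the union `j` that contains `z`; it has at most `w` elements. -/
structure Fam (n r w : ℕ) (Z : Finset (Fin n → Bool))
    (U : Fin r → (Fin n → Bool) → Finset (Fin n)) : Prop where
  width : ∀ j, ∀ z ∈ Z, (U j z).card ≤ w
  canon : ∀ j, ∀ z ∈ Z, ∀ z' ∈ Z, (∀ x ∈ U j z, z x = z' x) → (∀ x ∈ U j z', z x = z' x) →
    U j z = U j z'
  mix : ∀ b : Fin n → Bool, (∀ j, ∃ z ∈ Z, ∀ x ∈ U j z, b x = z x) → b ∈ Z

/-- The uniform probability on `Z`. -/
noncomputable def uni {n : ℕ} (Z : Finset (Fin n → Bool)) (hZ : Z.Nonempty) : FP {z // z ∈ Z} where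
  p := fun _ => 1 / Z.card
  nn := fun _ => by positivity
  one := by
    have h : (Z.card : ℝ) ≠ 0 := by exact_mod_cast (Finset.card_pos.2 hZ).ne'
    rw [Finset.sum_const, Finset.card_univ, Fintype.card_coe, nsmul_eq_mul]
    field_simp

/-- The information: the bits outside `V` and the patterns `j ∈ J`. -/
noncomputable def FJ {n r : ℕ} (Z : Finset (Fin n → Bool))
    (U : Fin r → (Fin n → Bool) → Finset (Fin n)) (V : Finset (Fin n)) (J : Finset (Fin r))
    (ω : {z // z ∈ Z}) : (Fin n → Option Bool) × (Fin r → Fin n → Option Bool) :=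
  (off V ω.1, fun j => if j ∈ J then pat (U j ω.1) ω.1 else fun _ => none)

/-- the bit `v` -/
def bit {n : ℕ} (Z : Finset (Fin n → Bool)) (v : Fin n) (ω : {z // z ∈ Z}) : Bool := ω.1 v

/-- the number of the `j` whose term contains the variable `v` -/
noncomputable def cnt {n r : ℕ} (U : Fin r → (Fin n → Bool) → Finset (Fin n)) (z : Fin n → Bool)
    (v : Fin n) : ℕ := (univ.filter fun j => v ∈ U j z).card

/-- the variables of the terms `j ∈ J` -/
noncomputable def UJ {n r : ℕ} (U : Fin r → (Fin n → Bool) → Finset (Fin n)) (J : Finset (Fin r))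
    (z : Fin n → Bool) : Finset (Fin n) := J.biUnion fun j => U j z

/-- `a (1 + log (1 / a))`, a bound for the entropy of a set of relative size `a` -/
noncomputable def eta (a : ℝ) : ℝ := a * (1 + Real.log (1 / a))

end Pool.Agent.TKN
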