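import Pool.Agent.TKN.St1

/-!
# Project TKN, module BIN: the conditional entropy of a bit
-/

set_option autoImplicit false

open Finset
open scoped Classical

namespace Pool.Agent.TKN

open NCE

namespace MBIN

variable {Ω : Type} [Fintype Ω] {γ : Type}

theorem le_pr {α : Type} (P : FP Ω) (X : Ω → α) (ω : Ω) : P.p ω ≤ pr P X (X ω) := by
  unfold pr
  have h := Finset.single_le_sum (f := fun ω' => if X ω' = X ω then P.p ω' else 0)
    (fun ω' _ => by
      show 0 ≤ if X ω' = X ω then P.p ω' else 0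
      split_ifs
      · exact P.nn ω'
      · exact le_rfl) (Finset.mem_univ ω)
  simpa using h

theorem pr_pos {α : Type} (P : FP Ω) (X : Ω → α) (ω : Ω) (h : P.p ω ≠ 0) : 0 < pr P X (X ω) :=
  lt_of_lt_of_le (lt_of_le_of_ne (P.nn ω) (Ne.symm h)) (le_pr P X ω)

/-- The law of `F` is the sum of the two laws of `(F, b)`. -/
theorem pr_add (P : FP Ω) (F : Ω → γ) (b : Ω → Bool) (f : γ) (c : Bool) :
    pr P (fun ω => (F ω, b ω)) (f, c) + pr P (fun ω => (F ω, b ω)) (f, !c) = pr P F f := by
  unfold pr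
  rw [← Finset.sum_add_distrib]
  refine Finset.sum_congr rfl fun ω _ => ?_
  simp only [Prod.mk.injEq]
  by_cases h : F ω = f
  · cases hb : b ω <;> cases c <;> simp [h]
  · simp [h]

/-- The conditional expectation. -/
theorem condexp (P : FP Ω) (F : Ω → γ) (b : Ω → Bool) (g : γ → ℝ) (c : Bool) :
    ex P (fun ω => pr P (fun ω' => (F ω', b ω')) (F ω, c) / pr P F (F ω) * g (F ω)) =
      ex P (fun ω => if b ω = c then g (F ω) else 0) := by
  have h1 : ∀ ω, P.p ω * (pr P (fun ω' => (F ω', b ω')) (F ω, c) / pr P F (F ω) * g (F ω)) =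
      ∑ ω', (if b ω' = c then P.p ω' else 0) *
        ((if F ω = F ω' then P.p ω else 0) * (g (F ω') / pr P F (F ω'))) := by
    intro ω
    have e1 : P.p ω * (pr P (fun ω' => (F ω', b ω')) (F ω, c) / pr P F (F ω) * g (F ω)) =
        pr P (fun ω' => (F ω', b ω')) (F ω, c) * (P.p ω * (g (F ω) / pr P F (F ω))) := by ring
    rw [e1]
    unfold pr
    rw [Finset.sum_mul]
    refine Finset.sum_congr rfl fun ω' _ => ?_
    simp only [Prod.mk.injEq]
    by_cases hF : F ω' = F ω
    · by_cases hb : b ω' = c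
      · rw [if_pos ⟨hF, hb⟩, if_pos hb, if_pos hF.symm, hF]
      · rw [if_neg (fun h => hb h.2), if_neg hb]
        ring
    · have hF' : ¬ F ω = F ω' := fun h => hF h.symm
      rw [if_neg (fun h => hF h.1), if_neg hF']
      ring
  have h2 : ∀ ω', ∑ ω, (if b ω' = c then P.p ω' else 0) *
      ((if F ω = F ω' then P.p ω else 0) * (g (F ω') / pr P F (F ω'))) =
      P.p ω' * (if b ω' = c then g (F ω') else 0) := by
    intro ω'
    rw [← Finset.mul_sum, ← Finset.sum_mul]
    have e2 : ∑ ω, (if F ω = F ω' then P.p ω else 0) = pr P F (F ω') := rfl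
    rw [e2]
    by_cases hb : b ω' = c
    · rw [if_pos hb, if_pos hb]
      by_cases hp : P.p ω' = 0
      · rw [hp]
        ring
      · have h3 := (pr_pos P F ω' hp).ne'
        field_simp
    · rw [if_neg hb, if_neg hb]
      ring
  unfold ex
  rw [Finset.sum_congr rfl fun ω _ => h1 ω, Finset.sum_comm]
  exact Finset.sum_congr rfl fun ω' _ => h2 ω'

end MBIN

open MBIN in
theorem t_BIN : S_BIN := by
  intro Ω _ P γ F b
  set m : γ → Bool → ℝ := fun f c => pr P (fun ω' => (F ω', b ω')) (f, c) with hm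
  set M : γ → ℝ := fun f => pr P F f with hM
  set g : Bool → γ → ℝ := fun c f => Real.log (m f c / M f)⁻¹ with hg
  -- the left side
  have hL : CH P F b = ex P (fun ω => g (b ω) (F ω)) := by
    unfold CH H ex
    rw [← Finset.sum_sub_distrib]
    refine Finset.sum_congr rfl fun ω _ => ?_
    by_cases hp : P.p ω = 0
    · rw [hp]
      ring
    · have h1 : 0 < pr P (fun ω' => (F ω', b ω')) (F ω, b ω) :=
        pr_pos P (fun ω' => (F ω', b ω')) ω hp
      have h2 : 0 < pr P F (F ω) := pr_pos P F ω hp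
      show _ = P.p ω * Real.log (pr P (fun ω' => (F ω', b ω')) (F ω, b ω) / pr P F (F ω))⁻¹
      rw [inv_div, Real.log_div h2.ne' h1.ne']
      ring
  -- the right side
  have hR : ex P (fun ω => Real.binEntropy (opp P F b ω)) =
      ∑ c : Bool, ex P (fun ω => m (F ω) c / M (F ω) * g c (F ω)) := by
    unfold ex
    rw [Finset.sum_comm]
    refine Finset.sum_congr rfl fun ω _ => ?_
    rw [← Finset.mul_sum]
    by_cases hp : P.p ω = 0
    · rw [hp, zero_mul, zero_mul]
    · have h2 : 0 < M (F ω) := pr_pos P F ω hp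
      have h3 : m (F ω) (b ω) + m (F ω) (!b ω) = M (F ω) := pr_add P F b (F ω) (b ω)
      have h4 : 1 - m (F ω) (!b ω) / M (F ω) = m (F ω) (b ω) / M (F ω) := by
        rw [← h3] at h2 ⊢
        field_simp
        ring
      have h5 : ∑ c : Bool, m (F ω) c / M (F ω) * g c (F ω) =
          m (F ω) (b ω) / M (F ω) * g (b ω) (F ω) +
            m (F ω) (!b ω) / M (F ω) * g (!b ω) (F ω) := by
        cases b ω <;> simp [add_comm]
      have h6 : opp P F b ω = m (F ω) (!b ω) / M (F ω) := rfl
      show P.p ω * Real.binEntropy (opp P F b ω) = _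
      rw [h5, h6]
      unfold Real.binEntropy
      rw [h4]
      congr 1
      exact add_comm _ _
  rw [hL, hR, Finset.sum_congr rfl fun c _ => condexp P F b (g c) c]
  unfold ex
  rw [Finset.sum_comm]
  refine Finset.sum_congr rfl fun ω _ => ?_
  rw [← Finset.mul_sum]
  congr 1
  rw [Finset.sum_ite_eq]
  simp

end Pool.Agent.TKN
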