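import Pool.Agent.TKN.St2

/-!
# TKN, CHO: random sets of segments avoid a given set
-/

set_option autoImplicit false

open Finset

namespace Pool.Agent.TKN

theorem MCHO.aux (r i : ℕ) (hi : i ≤ r) (hr : 0 < r) : ∀ c ≤ r,
    ((r - c).choose i : ℝ) ≤ (((r : ℝ) - i) / r) ^ c * (r.choose i) := by
  have hr' : (0 : ℝ) < r := by exact_mod_cast hr
  have hi' : (i : ℝ) ≤ r := by exact_mod_cast hi
  have hq : 0 ≤ ((r : ℝ) - i) / r := div_nonneg (by linarith) hr'.le
  intro c
  induction c with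
  | zero => intro _; simp
  | succ c ih =>
    intro hc
    have h1 := ih (by omega)
    obtain ⟨n, hn⟩ : ∃ n, r - c = n + 1 := ⟨r - c - 1, by omega⟩
    have hn2 : r - (c + 1) = n := by omega
    have hnr : ((n : ℝ) + 1) ≤ r := by
      have : n + 1 ≤ r := by omega
      exact_mod_cast this
    rw [hn2]
    rw [hn] at h1
    have h2 : ((n.choose i : ℕ) : ℝ) * ((n : ℝ) + 1) = ((n + 1).choose i : ℝ) * ((n + 1 - i : ℕ) : ℝ) := by
      have := Nat.choose_mul_succ_eq n i
      exact_mod_cast this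
    have hn0 : (0 : ℝ) < (n : ℝ) + 1 := by positivity
    have h3 : ((n + 1 - i : ℕ) : ℝ) ≤ ((r : ℝ) - i) / r * ((n : ℝ) + 1) := by
      rcases le_or_gt i (n + 1) with h | h
      · rw [Nat.cast_sub h]
        push_cast
        have : ((r : ℝ) - i) / r * ((n : ℝ) + 1) = ((n : ℝ) + 1) - i * (((n : ℝ) + 1) / r) := by
          field_simp
        rw [this]
        have h5 : ((n : ℝ) + 1) / r ≤ 1 := (div_le_one hr').2 hnr
        have h6 : (i : ℝ) * (((n : ℝ) + 1) / r) ≤ i * 1 := mul_le_mul_of_nonneg_left h5 (by positivity)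
        linarith
      · have : n + 1 - i = 0 := by omega
        rw [this]
        simpa using mul_nonneg hq hn0.le
    have h4 : ((n.choose i : ℕ) : ℝ) ≤ ((r : ℝ) - i) / r * ((n + 1).choose i : ℝ) := by
      have h5 : ((n.choose i : ℕ) : ℝ) * ((n : ℝ) + 1) ≤
          (((r : ℝ) - i) / r * ((n + 1).choose i : ℝ)) * ((n : ℝ) + 1) := by
        rw [h2]
        calc ((n + 1).choose i : ℝ) * ((n + 1 - i : ℕ) : ℝ)
            ≤ ((n + 1).choose i : ℝ) * (((r : ℝ) - i) / r * ((n : ℝ) + 1)) :=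
              mul_le_mul_of_nonneg_left h3 (by positivity)
          _ = _ := by ring
      exact le_of_mul_le_mul_right h5 hn0
    calc ((n.choose i : ℕ) : ℝ) ≤ ((r : ℝ) - i) / r * ((n + 1).choose i : ℝ) := h4
      _ ≤ ((r : ℝ) - i) / r * ((((r : ℝ) - i) / r) ^ c * (r.choose i)) :=
          mul_le_mul_of_nonneg_left h1 hq
      _ = _ := by rw [pow_succ]; ring

theorem t_CHO : S_CHO := by
  intro r i R hi hr
  have h1 : ((powersetCard i (univ : Finset (Fin r))).filter fun J => Disjoint R J) =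
      powersetCard i (Rᶜ) := by
    ext J
    rw [mem_filter, mem_powersetCard, mem_powersetCard]
    constructor
    · rintro ⟨⟨_, h2⟩, h3⟩
      refine ⟨fun x hx => ?_, h2⟩
      rw [mem_compl]
      exact fun hxR => (Finset.disjoint_left.1 h3 hxR hx)
    · rintro ⟨h2, h3⟩
      refine ⟨⟨subset_univ _, h3⟩, Finset.disjoint_left.2 fun x hxR hx => ?_⟩
      exact (mem_compl.1 (h2 hx)) hxR
  rw [h1, card_powersetCard, card_compl, Fintype.card_fin]
  exact MCHO.aux r i hi hr R.card (by simpa using card_le_univ R)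

end Pool.Agent.TKN
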