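import Pool.Agent.TKN.St4

/-!
# Module COT: the three functions
-/

set_option autoImplicit false

open Finset

namespace Pool.Agent.TKN

open Pool.Agent.Lib_helper20.SRO (RectFree Rigid Agrees)
open Pool.Agent.CFT (Der)
open Pool.Agent.URG
open Pool.Agent.HPM.Fn (Coord)

namespace MCOT

/-- The lower bound if the tests are suitable. -/
theorem lowW (hAVT : S_AVT) (k : ℕ) (hk : 1 ≤ k) : ∃ c : ℝ, 0 < c ∧ c ≤ 1 ∧ ∃ n0 : ℕ, ∀ n ≥ n0,
    ∀ (e L s : ℕ) (β : Coord (deg n e)), Num c n e L 0 → (s : ℝ) ≤ c * n →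
    ∃ u : VarX n e → Bool, ∀ (W Q : Type) [Fintype Q] [DecidableEq W]
      (G : CFT.FP (W ⊕ (Fin L × Fin n)) Q) (w : W → Bool), G.Block s →
      (∀ y : Fin L × Fin n → Bool, G.Accepts (Sum.elim w y) ↔ Good β u y) →
      TimeF G (k * (n * L)) → (2 : ℝ) ^ (c * n) ≤ Fintype.card Q := by
  obtain ⟨c, hc0, hc1, n0, hlow⟩ := hAVT k hk
  refine ⟨c, hc0, hc1, n0, ?_⟩
  intro n hn0 e L s β hN hs
  obtain ⟨u, hrect, hdense⟩ := t_good n e β hN.hn hN.he hN.hl
  refine ⟨u, ?_⟩
  intro W Q _ _ G w hblk hacc' htime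
  have hacc : ∀ y : Fin L × Fin n → Bool, G.Accepts (Sum.elim w y) ↔
      ∀ l, one β u (fun j => y (l, j)) = true := by
    intro y
    rw [hacc']
    unfold Good one
    simp only [Bool.and_eq_true, decide_eq_true_eq]
  have hnn : (0 : ℝ) ≤ n := Nat.cast_nonneg n
  refine hlow n hn0 L (2 ^ e) s W Q G w (one β u) hN.hL (rigid_one β u) hrect
    Nat.one_le_two_pow (by exact_mod_cast hN.hm) ?_ hs hblk hacc ?_
  · have h1 : (2 : ℝ) ^ n ≤ 2 ^ (zs n e * pols n e + 2) *
        (univ.filter fun x : Fin n → Bool => one β u x = true).card := by exact_mod_cast hdense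
    have h3 : (2 : ℝ) ^ (zs n e * pols n e + 2) * L ≤ 2 ^ (c * n) := by
      have e1 : (2 : ℝ) ^ (zs n e * pols n e) ≤ 2 ^ (c * n / 2) := by
        rw [← Real.rpow_natCast]
        exact Real.rpow_le_rpow_of_exponent_le one_le_two hN.hzs
      calc (2 : ℝ) ^ (zs n e * pols n e + 2) * L = 2 ^ (zs n e * pols n e) * (4 * L) := by
            rw [pow_add]
            ring
        _ ≤ 2 ^ (c * n / 2) * 2 ^ (c * n / 2) := by
            apply mul_le_mul e1 hN.h4 (by positivity) (by positivity)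
        _ = 2 ^ (c * n) := by
            rw [← Real.rpow_add (by norm_num)]
            congr 1
            ring
    calc (2 : ℝ) ^ n * L ≤ (2 ^ (zs n e * pols n e + 2) *
          (univ.filter fun x : Fin n → Bool => one β u x = true).card) * L :=
          mul_le_mul_of_nonneg_right h1 (by positivity)
      _ = (2 ^ (zs n e * pols n e + 2) * L) *
          (univ.filter fun x : Fin n → Bool => one β u x = true).card := by ring
      _ ≤ _ := mul_le_mul_of_nonneg_right h3 (by positivity)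
  · intro b hb
    exact htime _ hb

end MCOT

open MCOT in
theorem t_COT (hAVT : S_AVT) : S_COT := by
  intro k hk
  obtain ⟨c, hc0, hc1, n0, hlow⟩ := lowW hAVT k hk
  refine ⟨c, hc0, hc1, n0, ?_⟩
  intro n hn e L β hN
  refine ⟨fun s hs Q _ G hblk hcomp htime => ?_, fun s hs Q _ G hblk hcomp htime => ?_,
    fun s hs Q _ G hblk hcomp htime => ?_⟩
  · obtain ⟨u, h⟩ := hlow n hn e L s β hN hs
    refine h _ Q G u hblk (fun y => ?_) htime
    rw [hcomp]
    exact goodA_iff β _
  · obtain ⟨u, h⟩ := hlow n hn e L s β hN hs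
    refine h _ Q G (Sum.elim u fun _ => true) hblk (fun y => ?_) htime
    rw [hcomp]
    exact goodF_true β _ rfl
  · obtain ⟨u, h⟩ := hlow n hn e L s β hN hs
    refine h _ Q G (Sum.elim u fun _ => false) hblk (fun y => ?_) htime
    rw [hcomp]
    exact goodF_false β _ rfl

end Pool.Agent.TKN
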