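import Pool.Agent.TKN.St3

/-!
# Module TKN_COV: every variable is read
-/

set_option autoImplicit false

open Finset
open scoped Classical

namespace Pool.Agent.TKN

open NCE
open Pool.Agent.Lib_helper20.SRO (RectFree Rigid flipAt)

theorem t_COV : S_COV := by
  intro n r w Z hZ U f hF hZf hR
  have h1 : ∀ z ∈ Z, ∀ v, ∃ j, v ∈ U j z := by
    intro z hz v
    by_contra hc
    push Not at hc
    have hb : flipAt z v ∈ Z := by
      refine hF.mix _ fun j => ⟨z, hz, fun x hx => ?_⟩
      have hxv : x ≠ v := fun h => hc j (h ▸ hx)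
      simp [flipAt, Function.update_of_ne hxv]
    have h2 := hR z v (hZf z hz)
    have h3 := hZf _ hb
    have h4 : f (flipAt z v) = true := by convert h3
    rw [h4] at h2
    exact absurd h2 (by simp)
  refine ⟨h1, ?_⟩
  intro V J1 Ω' _ P' π D hD q hq
  have h2 : ∀ j, j ∉ J1 → Disjoint (D q) (U j (π q).1) := by
    intro j hj
    rw [Finset.disjoint_left]
    intro v hv hvU
    obtain ⟨ω', hω, hne⟩ := hD.und q hq v hv
    have h3 := congrFun (congrFun (congrArg Prod.snd hω) j) v
    have hj' : j ∈ J1ᶜ := Finset.mem_compl.2 hj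
    simp only [FJ, if_pos hj', pat, if_pos hvU] at h3
    split_ifs at h3 with h4
    exact hne (Option.some.inj h3)
  refine ⟨h2, fun v hv => ?_⟩
  rw [Finset.mem_inter]
  refine ⟨?_, hD.sub q hq hv⟩
  obtain ⟨j, hj⟩ := h1 (π q).1 (π q).2 v
  by_cases hJ : j ∈ J1
  · exact Finset.mem_biUnion.2 ⟨j, hJ, hj⟩
  · exact absurd hj (Finset.disjoint_left.1 (h2 j hJ) hv)

end Pool.Agent.TKN
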