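import Pool.Agent.TKN.St1
import Pool.Agent.NCE.SLF
import Pool.Agent.NCE.DET

/-!
# Project TKN, module D1: the random set of undetermined bits
-/

set_option autoImplicit false

open Finset
open scoped Classical

namespace Pool.Agent.TKN

open NCE

namespace MD1

section basics
variable {Ω : Type} [Fintype Ω]

lemma pr_nn (P : FP Ω) {α : Type} (X : Ω → α) (x : α) : 0 ≤ pr P X x := by
  unfold pr
  refine Finset.sum_nonneg fun ω _ => ?_
  split_ifs
  · exact P.nn ω
  · exact le_refl 0

lemma pr_pos (P : FP Ω) {α : Type} (X : Ω → α) (ω : Ω) (h : P.p ω ≠ 0) : 0 < pr P X (X ω) :=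
  lt_of_lt_of_le (lt_of_le_of_ne (P.nn ω) (Ne.symm h)) (NCE.MDET.le_pr P X ω)

/-- a value of positive probability is attained on the support -/
lemma exists_of_pr (P : FP Ω) {α : Type} (X : Ω → α) (x : α) (h : pr P X x ≠ 0) :
    ∃ ω, P.p ω ≠ 0 ∧ X ω = x := by
  by_contra hc
  push Not at hc
  apply h
  unfold pr
  refine Finset.sum_eq_zero fun ω _ => ?_
  by_cases h1 : X ω = x
  · rw [if_pos h1]
    by_contra h2
    exact hc ω h2 h1
  · rw [if_neg h1]

lemma pr_add (P : FP Ω) {α : Type} (X : Ω → α) (b : Ω → Bool) (x : α) (c : Bool) :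
    pr P (fun ω => (X ω, b ω)) (x, c) + pr P (fun ω => (X ω, b ω)) (x, !c) = pr P X x := by
  unfold pr
  rw [← Finset.sum_add_distrib]
  refine Finset.sum_congr rfl fun ω _ => ?_
  by_cases h : X ω = x
  · cases hb : b ω <;> cases c <;> simp [h, hb]
  · simp [h]

lemma pr_three (P : FP Ω) {α : Type} (X : Ω → α) (b s : Ω → Bool) (x : α) (c t : Bool) :
    pr P (fun ω => ((X ω, b ω), s ω)) ((x, c), t) +
      pr P (fun ω => ((X ω, b ω), s ω)) ((x, !c), t) = pr P (fun ω => (X ω, s ω)) (x, t) := by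
  unfold pr
  rw [← Finset.sum_add_distrib]
  refine Finset.sum_congr rfl fun ω _ => ?_
  by_cases h : X ω = x
  · cases hb : b ω <;> cases hs : s ω <;> cases c <;> cases t <;> simp [h, hb, hs]
  · simp [h]

lemma ex_mono (P : FP Ω) (f g : Ω → ℝ) (h : ∀ ω, P.p ω ≠ 0 → f ω ≤ g ω) : ex P f ≤ ex P g := by
  unfold ex
  refine Finset.sum_le_sum fun ω _ => ?_
  by_cases h0 : P.p ω = 0
  · rw [h0, zero_mul, zero_mul]
  · exact mul_le_mul_of_nonneg_left (h ω h0) (P.nn ω)

lemma ex_congr (P : FP Ω) (f g : Ω → ℝ) (h : ∀ ω, P.p ω ≠ 0 → f ω = g ω) : ex P f = ex P g :=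
  le_antisymm (ex_mono P f g fun ω h0 => (h ω h0).le) (ex_mono P g f fun ω h0 => (h ω h0).ge)

lemma ex_add (P : FP Ω) (f g : Ω → ℝ) : ex P (fun ω => f ω + g ω) = ex P f + ex P g := by
  unfold ex
  rw [← Finset.sum_add_distrib]
  exact Finset.sum_congr rfl fun ω _ => mul_add _ _ _

lemma ex_mul (P : FP Ω) (c : ℝ) (f : Ω → ℝ) : ex P (fun ω => c * f ω) = c * ex P f := by
  unfold ex
  rw [Finset.mul_sum]
  exact Finset.sum_congr rfl fun ω _ => mul_left_comm _ _ _

lemma ex_sum (P : FP Ω) {κ : Type} (S : Finset κ) (f : κ → Ω → ℝ) :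
    ex P (fun ω => ∑ v ∈ S, f v ω) = ∑ v ∈ S, ex P (f v) := by
  unfold ex
  rw [Finset.sum_comm]
  exact Finset.sum_congr rfl fun ω _ => Finset.mul_sum _ _ _

end basics

section noise

/-- the probability of the noise -/
noncomputable def gg (x : ℝ) : ℝ := if 1 / 2 ≤ x then 1 else x / (1 - x)

lemma gg_nonneg {x : ℝ} (h : 0 ≤ x) : 0 ≤ gg x := by
  unfold gg
  split_ifs with h1
  · exact zero_le_one
  · exact div_nonneg h (by linarith)

lemma gg_le_one {x : ℝ} : gg x ≤ 1 := by
  unfold gg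
  split_ifs with h1
  · exact le_refl 1
  · rw [div_le_one (by linarith)]
    linarith

lemma le_gg {x : ℝ} (h0 : 0 ≤ x) (h1 : x ≤ 1) : x ≤ gg x := by
  unfold gg
  split_ifs with h2
  · exact h1
  · rw [le_div_iff₀ (by linarith)]
    nlinarith

lemma gg_zero : gg 0 = 0 := by
  unfold gg
  rw [if_neg (by norm_num), zero_div]

lemma lt_half {x : ℝ} (h : gg x ≠ 1) : x < 1 / 2 := by
  by_contra h1
  exact h (by unfold gg; rw [if_pos (not_lt.1 h1)])

lemma mul_gg {m m' : ℝ} (hm : 0 < m) (hm' : 0 ≤ m') : m * gg (m' / (m + m')) = min m m' := by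
  have hM : 0 < m + m' := by linarith
  unfold gg
  by_cases h : 1 / 2 ≤ m' / (m + m')
  · rw [if_pos h, mul_one]
    rw [le_div_iff₀ hM] at h
    exact (min_eq_left (by linarith)).symm
  · rw [if_neg h]
    rw [le_div_iff₀ hM] at h
    rw [min_eq_right (by linarith)]
    have h1 : 1 - m' / (m + m') = m / (m + m') := by
      field_simp
      ring
    rw [h1, div_div_div_cancel_right₀ hM.ne']
    field_simp

end noise

section opposite
variable {Ω : Type} [Fintype Ω] {γ : Type}

lemma opp_nn (P : FP Ω) (F : Ω → γ) (b : Ω → Bool) (ω : Ω) : 0 ≤ opp P F b ω :=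
  div_nonneg (pr_nn _ _ _) (pr_nn _ _ _)

lemma opp_le (P : FP Ω) (F : Ω → γ) (b : Ω → Bool) (ω : Ω) : opp P F b ω ≤ 1 := by
  unfold opp
  refine div_le_one_of_le₀ ?_ (pr_nn _ _ _)
  rw [← pr_add P F b (F ω) (b ω)]
  have := pr_nn P (fun ω => (F ω, b ω)) (F ω, b ω)
  linarith

lemma opp_congr (P : FP Ω) (F : Ω → γ) (b : Ω → Bool) (ω ω' : Ω) (h : F ω = F ω')
    (hb : b ω = b ω') : opp P F b ω = opp P F b ω' := by
  unfold opp
  rw [h, hb]

/-- the noise of both values of the bit has the same probability -/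
lemma min_eq (P : FP Ω) (F : Ω → γ) (b : Ω → Bool) (ω : Ω) (h : P.p ω ≠ 0) :
    pr P (fun ω => (F ω, b ω)) (F ω, b ω) * gg (opp P F b ω) =
      min (pr P (fun ω => (F ω, b ω)) (F ω, b ω)) (pr P (fun ω => (F ω, b ω)) (F ω, !b ω)) := by
  have h1 := mul_gg (pr_pos P (fun ω => (F ω, b ω)) ω h)
    (pr_nn P (fun ω => (F ω, b ω)) (F ω, !b ω))
  rw [pr_add P F b (F ω) (b ω)] at h1
  exact h1

/-- the two conditional probabilities have sum one -/
lemma opp_add (P : FP Ω) (F : Ω → γ) (b : Ω → Bool) (ω ω' : Ω) (h : P.p ω ≠ 0) (hF : F ω = F ω')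
    (hb : b ω ≠ b ω') : opp P F b ω + opp P F b ω' = 1 := by
  have h1 : b ω' = !b ω := by
    cases hc : b ω <;> cases hd : b ω' <;> simp_all
  unfold opp
  rw [← hF, h1, Bool.not_not, ← add_div, add_comm, pr_add P F b (F ω) (b ω)]
  exact div_self (pr_pos P F ω h).ne'

end opposite

section single
variable {Ω Ω' : Type} [Fintype Ω] [Fintype Ω'] {γ : Type}

lemma joint (P : FP Ω) (P' : FP Ω') (F : Ω → γ) (b : Ω → Bool) (π : Ω' → Ω) (s : Ω' → Bool)
    (hN : ∀ f : Ω → Bool → ℝ, ex P' (fun q => f (π q) (s q)) =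
      ex P (fun ω => gg (opp P F b ω) * f ω true + (1 - gg (opp P F b ω)) * f ω false))
    (ω₀ : Ω) (t : Bool) :
    pr P' (fun q => ((F (π q), b (π q)), s q)) ((F ω₀, b ω₀), t) =
      pr P (fun ω => (F ω, b ω)) (F ω₀, b ω₀) *
        (if t = true then gg (opp P F b ω₀) else 1 - gg (opp P F b ω₀)) := by
  have h0 := hN (fun ω t' => if ((F ω, b ω), t') = ((F ω₀, b ω₀), t) then 1 else 0)
  have h1 : pr P' (fun q => ((F (π q), b (π q)), s q)) ((F ω₀, b ω₀), t) =
      ex P' (fun q => if ((F (π q), b (π q)), s q) = ((F ω₀, b ω₀), t) then 1 else 0) := by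
    unfold pr ex
    refine Finset.sum_congr rfl fun q _ => ?_
    beta_reduce
    by_cases h : ((F (π q), b (π q)), s q) = ((F ω₀, b ω₀), t)
    · rw [if_pos h, if_pos h, mul_one]
    · rw [if_neg h, if_neg h, mul_zero]
  rw [h1, h0]
  unfold ex pr
  rw [Finset.sum_mul]
  refine Finset.sum_congr rfl fun ω _ => ?_
  beta_reduce
  by_cases h : (F ω, b ω) = (F ω₀, b ω₀)
  · have h1 : opp P F b ω = opp P F b ω₀ :=
      opp_congr P F b ω ω₀ (congrArg Prod.fst h) (congrArg Prod.snd h)
    rw [h1]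
    cases t <;> simp [h]
  · simp only [Prod.mk.injEq] at h
    simp [h]

lemma K1 (P : FP Ω) (P' : FP Ω') (F : Ω → γ) (b : Ω → Bool) (π : Ω' → Ω) (s : Ω' → Bool)
    (hN : ∀ f : Ω → Bool → ℝ, ex P' (fun q => f (π q) (s q)) =
      ex P (fun ω => gg (opp P F b ω) * f ω true + (1 - gg (opp P F b ω)) * f ω false))
    (hs : ∀ q, P'.p q ≠ 0 → P.p (π q) ≠ 0 ∧ (s q = true → gg (opp P F b (π q)) ≠ 0) ∧
      (s q = false → gg (opp P F b (π q)) ≠ 1)) :
    H P' (fun q => ((F (π q), b (π q)), s q)) = H P (fun ω => (F ω, b ω)) +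
      ex P (fun ω => Real.binEntropy (gg (opp P F b ω))) := by
  unfold H
  rw [← ex_add]
  have h1 : ex P' (fun q => -Real.log (pr P' (fun q => ((F (π q), b (π q)), s q))
      ((F (π q), b (π q)), s q))) =
      ex P' (fun q => (fun (ω : Ω) (t : Bool) =>
        -Real.log (pr P (fun ω => (F ω, b ω)) (F ω, b ω)) -
          Real.log (if t = true then gg (opp P F b ω) else 1 - gg (opp P F b ω))) (π q) (s q)) := by
    refine ex_congr P' _ _ fun q hq => ?_
    obtain ⟨h0, h1, h2⟩ := hs q hq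
    beta_reduce
    rw [joint P P' F b π s hN (π q) (s q), Real.log_mul (pr_pos P (fun ω => (F ω, b ω)) (π q) h0).ne']
    · ring
    · cases hc : s q
      · simpa using sub_ne_zero.2 (h2 hc).symm
      · simpa using h1 hc
  rw [h1]
  refine (hN (fun (ω : Ω) (t : Bool) =>
        -Real.log (pr P (fun ω => (F ω, b ω)) (F ω, b ω)) -
          Real.log (if t = true then gg (opp P F b ω) else 1 - gg (opp P F b ω)))).trans ?_
  refine ex_congr P _ _ fun ω _ => ?_
  unfold Real.binEntropy
  rw [Real.log_inv, Real.log_inv]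
  simp only [if_true, Bool.false_eq_true, if_false]
  ring

lemma K2 (P : FP Ω) (P' : FP Ω') (F : Ω → γ) (b : Ω → Bool) (π : Ω' → Ω) (s : Ω' → Bool)
    (hN : ∀ f : Ω → Bool → ℝ, ex P' (fun q => f (π q) (s q)) =
      ex P (fun ω => gg (opp P F b ω) * f ω true + (1 - gg (opp P F b ω)) * f ω false))
    (hs : ∀ q, P'.p q ≠ 0 → P.p (π q) ≠ 0 ∧ (s q = true → gg (opp P F b (π q)) ≠ 0) ∧
      (s q = false → gg (opp P F b (π q)) ≠ 1)) :
    H P' (fun q => (F (π q), s q)) + Real.log 2 * ex P' (fun q => if s q = true then 1 else 0) ≤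
      H P' (fun q => ((F (π q), b (π q)), s q)) := by
  unfold H
  rw [← ex_mul, ← ex_add]
  refine ex_mono P' _ _ fun q hq => ?_
  obtain ⟨h0, h1, h2⟩ := hs q hq
  have hpos := pr_pos P' (fun q => ((F (π q), b (π q)), s q)) q hq
  have h3 := pr_three P' (fun q => F (π q)) (fun q => b (π q)) s (F (π q)) (b (π q)) (s q)
  beta_reduce at hpos ⊢
  cases hc : s q
  · rw [hc] at h3 hpos
    simp only [Bool.false_eq_true, if_false, mul_zero, add_zero]
    refine neg_le_neg (Real.log_le_log hpos ?_)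
    rw [← h3]
    have := pr_nn P' (fun q => ((F (π q), b (π q)), s q)) ((F (π q), !b (π q)), false)
    linarith
  · rw [hc] at h3 hpos
    have hopp : opp P F b (π q) ≠ 0 := by
      intro h
      apply h1 hc
      rw [h, gg_zero]
    have hpr : pr P (fun ω => (F ω, b ω)) (F (π q), !b (π q)) ≠ 0 := by
      intro h
      apply hopp
      unfold opp
      rw [h, zero_div]
    obtain ⟨ω', hω', h4⟩ := exists_of_pr P _ _ hpr
    have hF : F ω' = F (π q) := congrArg Prod.fst h4
    have hb : b ω' = !b (π q) := congrArg Prod.snd h4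
    have h5 := joint P P' F b π s hN ω' true
    have h6 := joint P P' F b π s hN (π q) true
    rw [if_pos rfl, min_eq P F b ω' hω', hF, hb, Bool.not_not] at h5
    rw [if_pos rfl, min_eq P F b (π q) h0] at h6
    have h7 : pr P' (fun q => (F (π q), s q)) (F (π q), true) =
        2 * pr P' (fun q => ((F (π q), b (π q)), s q)) ((F (π q), b (π q)), true) := by
      rw [← h3, h5, h6, min_comm]
      ring
    rw [h7, if_pos rfl, mul_one, Real.log_mul two_ne_zero hpos.ne']
    linarith

end single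

end MD1

open MD1 in
theorem t_D1 (hDTS : S_DTS) (_hSBS : S_SBS) (hSBA : S_SBA) (_hBIN : S_BIN) (hNOI : S_NOI) :
    S_D1 := by
  intro Ω _ P γ F n z V hz hF
  obtain ⟨Ω', _, P', π, ζ, hSL, hsup, hlaw, hent⟩ := hNOI Ω P n
    (fun ω v => if v ∈ V then gg (opp P F (fun ω' => z ω' v) ω) else 0) (fun ω v => by
      split_ifs
      · exact ⟨gg_nonneg (opp_nn _ _ _ _), gg_le_one⟩
      · exact ⟨le_refl 0, zero_le_one⟩)
  have hV : ∀ q, P'.p q ≠ 0 → ∀ v, v ∉ V → ζ q v = false := by
    intro q hq v hv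
    by_contra h
    rw [Bool.not_eq_false] at h
    have := ((hsup q hq).2 v).1 h
    rw [if_neg hv] at this
    exact this rfl
  have hs : ∀ v ∈ V, ∀ q, P'.p q ≠ 0 → P.p (π q) ≠ 0 ∧
      (ζ q v = true → gg (opp P F (fun ω' => z ω' v) (π q)) ≠ 0) ∧
      (ζ q v = false → gg (opp P F (fun ω' => z ω' v) (π q)) ≠ 1) := by
    intro v hv q hq
    have h := hsup q hq
    have h1 := h.2 v
    rw [if_pos hv] at h1
    exact ⟨h.1, h1⟩
  have hN : ∀ v ∈ V, ∀ f : Ω → Bool → ℝ, ex P' (fun q => f (π q) (ζ q v)) =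
      ex P (fun ω => gg (opp P F (fun ω' => z ω' v) ω) * f ω true +
        (1 - gg (opp P F (fun ω' => z ω' v) ω)) * f ω false) := by
    intro v hv f
    rw [hlaw v f]
    refine ex_congr P _ _ fun ω _ => ?_
    rw [if_pos hv]
  have hcard : ex P' (fun q => (((V.filter fun v => ζ q v = true).card : ℕ) : ℝ)) =
      ∑ v ∈ V, ex P' (fun q => if ζ q v = true then 1 else 0) := by
    rw [← ex_sum]
    refine ex_congr P' _ _ fun q _ => ?_
    rw [Finset.card_filter]
    push_cast
    rfl
  refine ⟨Ω', inferInstance, P', π, fun q => V.filter fun v => ζ q v = true, hSL, ?_, ?_, ?_, ?_⟩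
  · intro q hq
    refine ⟨(hsup q hq).1, Finset.filter_subset _ _, fun v hv => ?_⟩
    obtain ⟨hv1, hv2⟩ := Finset.mem_filter.1 hv
    have h1 := ((hs v hv1 q hq).2).1 hv2
    have hpr : pr P (fun ω => (F ω, z ω v)) (F (π q), !z (π q) v) ≠ 0 := by
      intro h
      apply h1
      have h2 : opp P F (fun ω' => z ω' v) (π q) = 0 := by
        unfold opp
        rw [h, zero_div]
      rw [h2, gg_zero]
    obtain ⟨ω', h2, h3⟩ := exists_of_pr P _ _ hpr
    refine ⟨ω', h2, congrArg Prod.fst h3, ?_⟩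
    have h4 : z ω' v = !z (π q) v := congrArg Prod.snd h3
    rw [h4]
    exact Bool.not_ne_self _
  · intro q q' hq hq' hFF hD v hv
    by_cases hvV : v ∈ V
    · have h1 : ζ q v = false := by
        by_contra h
        rw [Bool.not_eq_false] at h
        exact hv (Finset.mem_filter.2 ⟨hvV, h⟩)
      have h2 : ζ q' v = false := by
        by_contra h
        rw [Bool.not_eq_false] at h
        rw [hD] at hv
        exact hv (Finset.mem_filter.2 ⟨hvV, h⟩)
      by_contra hne
      have h3 := opp_add P F (fun ω' => z ω' v) (π q) (π q') (hsup q hq).1 hFF hne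
      have h4 := lt_half (((hs v hvV q hq).2).2 h1)
      have h5 := lt_half (((hs v hvV q' hq').2).2 h2)
      linarith
    · exact hF _ _ hFF v hvV
  · rw [hcard]
    refine Finset.sum_le_sum fun v hv => ?_
    rw [hN v hv (fun _ t => if t = true then 1 else 0)]
    unfold O
    refine ex_mono P _ _ fun ω _ => ?_
    simp only [if_true, Bool.false_eq_true, if_false, mul_one, mul_zero, add_zero]
    exact le_gg (opp_nn _ _ _ _) (opp_le _ _ _ _)
  · rw [hcard]
    have e1 : H P' (fun q => (π q, ζ q)) ≤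
        H P' (fun q => ((F (π q), V.filter fun v => ζ q v = true), z (π q))) := by
      refine hDTS Ω' P' _ _ _ _ fun q q' hq hq' h => ?_
      have h1 : z (π q) = z (π q') := congrArg Prod.snd h
      have h2 : (V.filter fun v => ζ q v = true) = V.filter fun v => ζ q' v = true :=
        congrArg (fun x => x.1.2) h
      refine Prod.ext (hz h1) (funext fun v => ?_)
      by_cases hv : v ∈ V
      · have h3 : v ∈ (V.filter fun v => ζ q v = true) ↔ v ∈ V.filter fun v => ζ q' v = true := by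
          rw [h2]
        rw [Finset.mem_filter, Finset.mem_filter, and_iff_right hv, and_iff_right hv] at h3
        change ζ q v = ζ q' v
        cases hc : ζ q v <;> cases hd : ζ q' v <;> simp_all
      · change ζ q v = ζ q' v
        rw [hV q hq v hv, hV q' hq' v hv]
    have e2 : H P' (fun q => (F (π q), V.filter fun v => ζ q v = true)) ≤
        H P' (fun q => (F (π q), ζ q)) := by
      refine hDTS Ω' P' _ _ _ _ fun q q' _ _ h => ?_
      have h1 : F (π q) = F (π q') := congrArg Prod.fst h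
      have h2 : ζ q = ζ q' := congrArg Prod.snd h
      change (F (π q), V.filter fun v => ζ q v = true) = (F (π q'), V.filter fun v => ζ q' v = true)
      rw [h1, h2]
    have e3 : CH P' (fun q => F (π q)) ζ ≤ ∑ v ∈ V, CH P' (fun q => F (π q)) (fun q => ζ q v) :=
      hSBA Ω' P' γ Bool (fun q => F (π q)) n ζ V fun v hv q q' hq hq' _ => by
        change ζ q v = ζ q' v
        rw [hV q hq v hv, hV q' hq' v hv]
    have e4 : H P' (fun q => F (π q)) = H P F :=
      (NCE.t_SLF Ω' Ω P' P Ω γ π id F (fun _ => 0) hSL).2.1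
    have e5 : H P (fun ω => (F ω, z ω)) ≤ H P id := by
      refine hDTS Ω P _ _ _ _ fun ω ω' _ _ h => ?_
      have h1 : ω = ω' := h
      rw [h1]
    have e6 : ∑ v, ex P (fun ω => Real.binEntropy
        (if v ∈ V then gg (opp P F (fun ω' => z ω' v) ω) else 0)) =
        ∑ v ∈ V, ex P (fun ω => Real.binEntropy (gg (opp P F (fun ω' => z ω' v) ω))) := by
      rw [← Finset.sum_subset (Finset.subset_univ V)]
      · refine Finset.sum_congr rfl fun v hv => ?_
        refine ex_congr P _ _ fun ω _ => ?_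
        rw [if_pos hv]
      · intro v _ hv
        unfold ex
        refine Finset.sum_eq_zero fun ω _ => ?_
        beta_reduce
        rw [if_neg hv, Real.binEntropy_zero, mul_zero]
    have e7 : ∑ v ∈ V, Real.log 2 * ex P' (fun q => if ζ q v = true then 1 else 0) ≤
        ∑ v ∈ V, (H P (fun ω => (F ω, z ω v)) +
          ex P (fun ω => Real.binEntropy (gg (opp P F (fun ω' => z ω' v) ω))) -
          H P' (fun q => (F (π q), ζ q v))) := by
      refine Finset.sum_le_sum fun v hv => ?_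
      have k1 := K1 P P' F (fun ω' => z ω' v) π (fun q => ζ q v) (hN v hv) (hs v hv)
      have k2 := K2 P P' F (fun ω' => z ω' v) π (fun q => ζ q v) (hN v hv) (hs v hv)
      beta_reduce at k1 k2
      linarith
    rw [e6] at hent
    unfold TC CH at *
    rw [Finset.sum_sub_distrib] at e3 ⊢
    rw [Finset.sum_sub_distrib, Finset.sum_add_distrib] at e7
    rw [← Finset.mul_sum] at e7
    simp only [Finset.sum_const, nsmul_eq_mul] at e3 ⊢
    rw [e4] at e3
    linarith

end Pool.Agent.TKN
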