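import Pool.Agent.TKN.St1
import Pool.Agent.TKN.St3

/-!
# TKN, module DSX: existence of the random set of undetermined bits
-/

set_option autoImplicit false

open Finset
open scoped Classical

namespace Pool.Agent.TKN

open NCE

theorem t_DSX (hD1 : S_D1) : S_DSX := by
  intro n r Z hZ U V J1
  obtain ⟨Ω', hf, P', π, D, h1, h2, h3, h4, h5⟩ := hD1 {z // z ∈ Z} (uni Z hZ) _ (FJ Z U V J1ᶜ) n
    Subtype.val V Subtype.val_injective (by
      intro ω ω' h v hv
      have h2 := congrFun (congrArg Prod.fst h) v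
      have h3 : off V ω.1 v = off V ω'.1 v := h2
      unfold off at h3
      rw [if_neg hv, if_neg hv] at h3
      exact Option.some.inj h3)
  refine ⟨Ω', hf, P', π, D, h1, fun q hq => (h2 q hq).2.1, fun q hq v hv => ?_, h3, h4, h5⟩
  obtain ⟨ω', -, h6, h7⟩ := (h2 q hq).2.2 v hv
  exact ⟨ω', h6, h7⟩

end Pool.Agent.TKN
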