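import Pool.Agent.TKN.St4
import Pool.Agent.CFT.ASM
import Pool.Agent.CFT.CUT

/-!
# Project TKN, module FAM: from fork programs to an intersection of unions of subcubes
-/

set_option autoImplicit false

open Finset

namespace Pool.Agent.TKN

open Pool.Agent.Lib_helper20.SRO (RectFree Rigid Agrees)
open Pool.Agent.CFT (Der fixF Ctx Dec)

namespace MFAM

variable {n : ℕ} {N : Type}

/-- the pieces with the root `root i` that are short and agree with `b` -/
def GoodL (G : CFT.FP (Fin n) N) {K : ℕ} (w : ℕ) (root : Fin K → N) (i : Fin K)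
    (b : Fin n → Bool) (l : List (Fin n × Bool)) : Prop :=
  Ctx G (fun u => ∃ j, i < j ∧ root j = u) (root i) l ∧ l.length ≤ w ∧ Agrees b l

theorem exists_least (P : List (Fin n × Bool) → Prop) (h : ∃ l, P l) :
    ∃ l, P l ∧ ∀ l', P l' → Encodable.encode l ≤ Encodable.encode l' := by
  classical
  have h1 : ∃ m, ∃ l, P l ∧ Encodable.encode l = m := by
    obtain ⟨l, hl⟩ := h
    exact ⟨_, l, hl, rfl⟩
  obtain ⟨l, hl, hm⟩ := Nat.find_spec h1
  refine ⟨l, hl, fun l' hl' => ?_⟩
  rw [hm]
  exact Nat.find_min' h1 ⟨l', hl', rfl⟩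

open Classical in
/-- the least list with the property -/
noncomputable def pick (P : List (Fin n × Bool) → Prop) : List (Fin n × Bool) :=
  if h : ∃ l, P l then (exists_least P h).choose else []

theorem pick_spec (P : List (Fin n × Bool) → Prop) (h : ∃ l, P l) : P (pick P) := by
  rw [pick, dif_pos h]
  exact (exists_least P h).choose_spec.1

theorem pick_le (P : List (Fin n × Bool) → Prop) (h : ∃ l, P l) (l' : List (Fin n × Bool))
    (hl' : P l') : Encodable.encode (pick P) ≤ Encodable.encode l' := by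
  rw [pick, dif_pos h]
  exact (exists_least P h).choose_spec.2 l' hl'

/-- the variables of a list of tests -/
def vars (l : List (Fin n × Bool)) : Finset (Fin n) := (l.map Prod.fst).toFinset

theorem vars_card (l : List (Fin n × Bool)) : (vars l).card ≤ l.length := by
  have h := List.toFinset_card_le (l.map Prod.fst)
  rwa [List.length_map] at h

theorem mem_vars {l : List (Fin n × Bool)} {p : Fin n × Bool} (hp : p ∈ l) : p.1 ∈ vars l := by
  rw [vars, List.mem_toFinset]
  exact List.mem_map_of_mem hp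

theorem GoodL.transfer {G : CFT.FP (Fin n) N} {K w : ℕ} {root : Fin K → N} {i : Fin K}
    {b b' : Fin n → Bool} {l : List (Fin n × Bool)} (h : GoodL G w root i b l)
    (hb : ∀ x ∈ vars l, b' x = b x) : GoodL G w root i b' l :=
  ⟨h.1, h.2.1, fun p hp => by rw [hb _ (mem_vars hp)]; exact h.2.2 p hp⟩

end MFAM

open MFAM

theorem t_FAM : S_FAM := by
  classical
  intro n N _ G f h s K T B hblock hf hB hT
  obtain ⟨w, hw⟩ : ∃ w, w = 2 * h + s := ⟨_, rfl⟩
  obtain ⟨R, hR⟩ : ∃ R : Finset (Fin (K + 1) → N), R = univ.filter fun r => r 0 = G.source :=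
    ⟨_, rfl⟩
  obtain ⟨Zf, hZf⟩ : ∃ Zf : (Fin (K + 1) → N) → Finset (Fin n → Bool),
    Zf = fun r => univ.filter fun b => ∀ i, ∃ l, GoodL G w r i b l := ⟨_, rfl⟩
  have hZmem : ∀ r b, b ∈ Zf r ↔ ∀ i, ∃ l, GoodL G w r i b l := by
    intro r b; rw [hZf]; simp
  have hRne : R.Nonempty := ⟨fun _ => G.source, by rw [hR]; simp⟩
  obtain ⟨root, hrootR, hmax⟩ := Finset.exists_max_image R (fun r => (Zf r).card) hRne
  have hroot0 : root 0 = G.source := by
    rw [hR] at hrootR
    exact (mem_filter.1 hrootR).2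
  have hcover : B ⊆ R.biUnion Zf := by
    intro b hb
    obtain ⟨l, hl, hag, hlen⟩ := hB b hb
    obtain ⟨r, ls, h0, hdec, hlen2, -, hmem⟩ :=
      CFT.t_CUT (Fin n) N G h s K G.source l hblock hl (lt_of_le_of_lt hlen hT)
    rw [mem_biUnion]
    refine ⟨r, by rw [hR]; exact mem_filter.2 ⟨mem_univ _, h0⟩, ?_⟩
    rw [hZmem]
    intro i
    exact ⟨ls i, hdec i, by rw [hw]; exact hlen2 i, fun p hp => hag p (hmem i p hp)⟩
  refine ⟨Zf root, fun i z => vars (pick (GoodL G w root i z)), ?_, ?_, ?_⟩
  · refine ⟨?_, ?_, ?_⟩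
    · intro j z hz
      have h1 := pick_spec _ ((hZmem root z).1 hz j)
      exact (vars_card _).trans (by rw [← hw]; exact h1.2.1)
    · intro j z hz z' hz' h1 h2
      have e1 := (hZmem root z).1 hz j
      have e2 := (hZmem root z').1 hz' j
      have g1 : GoodL G w root j z' (pick (GoodL G w root j z)) :=
        (pick_spec _ e1).transfer fun x hx => (h1 x hx).symm
      have g2 : GoodL G w root j z (pick (GoodL G w root j z')) :=
        (pick_spec _ e2).transfer fun x hx => h2 x hx
      have g3 := Encodable.encode_injective (le_antisymm (pick_le _ e1 _ g2) (pick_le _ e2 _ g1))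
      rw [g3]
    · intro b hb
      rw [hZmem]
      intro j
      obtain ⟨z, hz, hzx⟩ := hb j
      exact ⟨_, (pick_spec _ ((hZmem root z).1 hz j)).transfer hzx⟩
  · intro z hz
    have h1 := (hZmem root z).1 hz
    choose ls hls using h1
    have hdec : Dec G root ls := fun i => (hls i).1
    obtain ⟨l, hl, hmem⟩ := CFT.t_ASM (Fin n) N G (K + 1) root ls hdec 0
    apply hf
    refine ⟨l, by rw [← hroot0]; exact hl, fun p hp => ?_⟩
    obtain ⟨j, hj⟩ := hmem p hp
    exact (hls j).2.2 p hj
  · calc B.card ≤ (R.biUnion Zf).card := card_le_card hcover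
      _ ≤ ∑ r ∈ R, (Zf r).card := card_biUnion_le
      _ ≤ ∑ r ∈ R, (Zf root).card := sum_le_sum fun r hr => hmax r hr
      _ = R.card * (Zf root).card := by rw [sum_const, smul_eq_mul]
      _ ≤ Fintype.card N ^ (K + 1) * (Zf root).card := by
        refine Nat.mul_le_mul_right _ ?_
        calc R.card ≤ (univ : Finset (Fin (K + 1) → N)).card := card_le_card (subset_univ _)
          _ = Fintype.card N ^ (K + 1) := by
            rw [card_univ, Fintype.card_fun, Fintype.card_fin]

end Pool.Agent.TKN
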