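import Pool.Agent.TKN.St1

namespace Pool.Agent.TKN

theorem MHE1.he1_aux (x e : ℝ) (hx0 : 0 ≤ x) (hx1 : x ≤ 1) (he0 : 0 ≤ e) (he1 : e ≤ 1 / 2) :
    Real.binEntropy (x * e) - x * Real.binEntropy e ≤ (1 - x) * (2 * Real.log 2 * e) := by
  have hlog2 : 0 < Real.log 2 := Real.log_pos (by norm_num)
  rcases hx0.eq_or_lt with hx | hx
  · subst hx
    simp only [zero_mul, Real.binEntropy_zero, sub_zero, one_mul]
    positivity
  rcases he0.eq_or_lt with he | he
  · subst he
    simp
  have h1e : 0 < 1 - e := by linarith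
  have hxe0 : 0 < x * e := mul_pos hx he
  have hxe : x * e ≤ e := by nlinarith
  have h1xe : 0 < 1 - x * e := by linarith
  have gibbs : ∀ a b : ℝ, 0 < a → 0 < b → a * (Real.log b - Real.log a) ≤ b - a := by
    intro a b ha hb
    have h1 : Real.log (b / a) ≤ b / a - 1 := Real.log_le_sub_one_of_pos (div_pos hb ha)
    rw [Real.log_div hb.ne' ha.ne'] at h1
    have h2 := mul_le_mul_of_nonneg_left h1 ha.le
    have h3 : a * (b / a - 1) = b - a := by field_simp
    linarith
  have g1 := gibbs (x * e) e hxe0 he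
  have g2 := gibbs (1 - x * e) (1 - e) h1xe h1e
  have g3 : -(2 * e * Real.log 2) ≤ Real.log (1 - e) := by
    have hc := (strictConcaveOn_log_Ioi.concaveOn).2 (Set.mem_Ioi.2 (show (0 : ℝ) < 1 by norm_num))
      (Set.mem_Ioi.2 (show (0 : ℝ) < 1 / 2 by norm_num)) (show 0 ≤ 1 - 2 * e by linarith)
      (show 0 ≤ 2 * e by linarith) (by ring)
    simp only [smul_eq_mul, Real.log_one, mul_zero, zero_add, mul_one, one_div, Real.log_inv] at hc
    have h4 : 1 - 2 * e + 2 * e * (2 : ℝ)⁻¹ = 1 - e := by ring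
    rw [h4] at hc
    linarith
  have g4 := mul_le_mul_of_nonneg_left g3 (show 0 ≤ 1 - x by linarith)
  simp only [Real.binEntropy, Real.log_inv]
  nlinarith [g1, g2, g4]

theorem t_HE1 : S_HE1 := fun x e hx0 hx1 he0 he1 => MHE1.he1_aux x e hx0 hx1 he0 he1

end Pool.Agent.TKN
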