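import Pool.Agent.TKN.St1

/-!
# TKN, HE2: the quadratic lower bound for the deficit of the binary entropy
-/

set_option autoImplicit false

namespace Pool.Agent.TKN

namespace MHE2

open Real

theorem conc : ConcaveOn ℝ (Set.Icc (0 : ℝ) 1)
    (fun p => Real.binEntropy p + 2 * (p - 1 / 2) ^ 2) := by
  refine concaveOn_of_hasDerivWithinAt2_nonpos (convex_Icc 0 1)
    (f' := fun p => Real.log (1 - p) - Real.log p + 4 * (p - 1 / 2))
    (f'' := fun p => -(1 - p)⁻¹ - p⁻¹ + 4) ?_ ?_ ?_ ?_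
  · exact (Real.binEntropy_continuous.add (by fun_prop)).continuousOn
  · intro x hx
    rw [interior_Icc] at hx
    have h1 : HasDerivAt Real.binEntropy (Real.log (1 - x) - Real.log x) x :=
      Real.hasDerivAt_binEntropy hx.1.ne' hx.2.ne
    have h2 : HasDerivAt (fun p : ℝ => 2 * (p - 1 / 2) ^ 2) (4 * (x - 1 / 2)) x := by
      have := (((hasDerivAt_id x).sub_const (1 / 2 : ℝ)).pow 2).const_mul 2
      refine this.congr_deriv ?_
      simp
      ring
    exact (h1.add h2).hasDerivWithinAt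
  · intro x hx
    rw [interior_Icc] at hx
    have h1 : HasDerivAt (fun p : ℝ => Real.log (1 - p)) (-(1 - x)⁻¹) x := by
      have h0 : HasDerivAt (fun p : ℝ => 1 - p) (-1) x := (hasDerivAt_id x).const_sub 1
      have := h0.log (sub_ne_zero.2 hx.2.ne')
      refine this.congr_deriv ?_
      rw [neg_div, one_div]
    have h2 : HasDerivAt Real.log x⁻¹ x := Real.hasDerivAt_log hx.1.ne'
    have h3 : HasDerivAt (fun p : ℝ => 4 * (p - 1 / 2)) 4 x := by
      have := ((hasDerivAt_id x).sub_const (1 / 2 : ℝ)).const_mul 4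
      refine this.congr_deriv ?_
      ring
    exact ((h1.sub h2).add h3).hasDerivWithinAt
  · intro x hx
    rw [interior_Icc] at hx
    have h1 : 0 < x := hx.1
    have h2 : 0 < 1 - x := sub_pos.2 hx.2
    have h3 : (1 - x)⁻¹ + x⁻¹ = 1 / (x * (1 - x)) := by
      field_simp
      ring
    have h4 : (4 : ℝ) ≤ 1 / (x * (1 - x)) := by
      rw [le_div_iff₀ (mul_pos h1 h2)]
      nlinarith [sq_nonneg (2 * x - 1)]
    show -(1 - x)⁻¹ - x⁻¹ + 4 ≤ 0
    linarith

end MHE2

open MHE2 in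
/-- HE2 -/
theorem t_HE2 : S_HE2 := by
  intro p hp0 hp1
  have hm1 : p ∈ Set.Icc (0 : ℝ) 1 := ⟨hp0, hp1⟩
  have hm2 : 1 - p ∈ Set.Icc (0 : ℝ) 1 := ⟨by linarith, by linarith⟩
  have hc := conc.2 hm1 hm2 (show (0 : ℝ) ≤ 1 / 2 by norm_num) (show (0 : ℝ) ≤ 1 / 2 by norm_num)
    (by norm_num)
  simp only [smul_eq_mul] at hc
  have e1 : (1 / 2 * p + 1 / 2 * (1 - p) : ℝ) = 1 / 2 := by ring
  rw [e1, Real.binEntropy_one_sub] at hc
  have e2 : Real.binEntropy (1 / 2) = Real.log 2 := by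
    rw [one_div]
    exact Real.binEntropy_two_inv
  rw [e2] at hc
  nlinarith [hc]

end Pool.Agent.TKN
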