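import Pool.Agent.TKN.St1

/-!
# Module HE3: an upper bound for `log 2 - binEntropy p`
-/

set_option autoImplicit false

open Finset

namespace Pool.Agent.TKN

namespace MHE3

/-- The derivative of `g`. -/
noncomputable def k (p : ℝ) : ℝ := Real.log (1 - p) - Real.log p - 4 * Real.log 2 * (1 - 2 * p)

/-- The difference. -/
noncomputable def g (p : ℝ) : ℝ := Real.binEntropy p - 4 * Real.log 2 * (p * (1 - p))

lemma g_deriv {p : ℝ} (h0 : 0 < p) (h1 : p < 1) : HasDerivAt g (k p) p := by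
  have h := Real.hasDerivAt_binEntropy h0.ne' h1.ne
  have h2 : HasDerivAt (fun q : ℝ => 4 * Real.log 2 * (q * (1 - q)))
      (4 * Real.log 2 * (1 * (1 - p) + p * (0 - 1))) p :=
    ((hasDerivAt_id' p).mul ((hasDerivAt_const p (1 : ℝ)).sub (hasDerivAt_id' p))).const_mul _
  have h3 := h.sub h2
  have h4 : Real.log (1 - p) - Real.log p -
      4 * Real.log 2 * (1 * (1 - p) + p * (0 - 1)) = k p := by
    unfold k
    ring
  rw [h4] at h3
  exact h3

lemma g_cont : Continuous g := by
  unfold g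
  exact Real.binEntropy_continuous.sub (by fun_prop)

lemma g_zero : g 0 = 0 := by
  unfold g
  rw [Real.binEntropy_zero]
  ring

lemma g_half : g (1 / 2) = 0 := by
  unfold g
  rw [one_div, Real.binEntropy_two_inv]
  ring

lemma k_half : k (1 / 2) = 0 := by
  unfold k
  norm_num

lemma k_convex {a : ℝ} (ha : 0 < a) : ConvexOn ℝ (Set.Icc a (1 / 2)) k := by
  refine convexOn_of_hasDerivWithinAt2_nonneg (convex_Icc _ _)
    (f' := fun p => -(1 / (1 - p)) - 1 / p + 8 * Real.log 2)
    (f'' := fun p => -(1 / (1 - p) ^ 2) + 1 / p ^ 2) ?_ ?_ ?_ ?_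
  · unfold k
    refine ContinuousOn.sub (ContinuousOn.sub ?_ ?_) (by fun_prop)
    · refine ContinuousOn.log (by fun_prop) fun x hx => ?_
      have := hx.2
      linarith
    · exact ContinuousOn.log (by fun_prop) fun x hx => (ha.trans_le hx.1).ne'
  · rw [interior_Icc]
    intro x hx
    have h0 : 0 < x := ha.trans hx.1
    have h1 : x < 1 / 2 := hx.2
    have h2 : (1 : ℝ) - x ≠ 0 := by linarith
    refine HasDerivAt.hasDerivWithinAt ?_
    have e1 : HasDerivAt (fun q : ℝ => Real.log (1 - q)) ((0 - 1) / (1 - x)) x :=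
      ((hasDerivAt_const x (1 : ℝ)).sub (hasDerivAt_id' x)).log h2
    have e2 : HasDerivAt (fun q : ℝ => Real.log q) (1 / x) x := (hasDerivAt_id' x).log h0.ne'
    have e3 : HasDerivAt (fun q : ℝ => 4 * Real.log 2 * (1 - 2 * q))
        (4 * Real.log 2 * (0 - 2 * 1)) x :=
      ((hasDerivAt_const x (1 : ℝ)).sub ((hasDerivAt_id' x).const_mul 2)).const_mul _
    have e4 := (e1.sub e2).sub e3
    refine HasDerivAt.congr_deriv e4 ?_
    field_simp
    ring
  · rw [interior_Icc]
    intro x hx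
    have h0 : 0 < x := ha.trans hx.1
    have h1 : x < 1 / 2 := hx.2
    have h2 : (1 : ℝ) - x ≠ 0 := by linarith
    refine HasDerivAt.hasDerivWithinAt ?_
    have e0 : HasDerivAt (fun q : ℝ => 1 - q) (0 - 1) x :=
      (hasDerivAt_const x (1 : ℝ)).sub (hasDerivAt_id' x)
    have e1 : HasDerivAt (fun q : ℝ => 1 / (1 - q)) ((0 * (1 - x) - 1 * (0 - 1)) / (1 - x) ^ 2) x :=
      (hasDerivAt_const x (1 : ℝ)).div e0 h2
    have e2 : HasDerivAt (fun q : ℝ => 1 / q) ((0 * x - 1 * 1) / x ^ 2) x :=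
      (hasDerivAt_const x (1 : ℝ)).div (hasDerivAt_id' x) h0.ne'
    have e4 := ((e1.neg).sub e2).add_const (8 * Real.log 2)
    refine HasDerivAt.congr_deriv e4 ?_
    field_simp
    ring
  · rw [interior_Icc]
    intro x hx
    have h0 : 0 < x := ha.trans hx.1
    have h1 : x < 1 / 2 := hx.2
    have h3 : 1 / (1 - x) ^ 2 ≤ 1 / x ^ 2 := by
      apply one_div_le_one_div_of_le (by positivity)
      apply pow_le_pow_left₀ h0.le
      linarith
    linarith

lemma g_nonneg_left {p : ℝ} (h0 : 0 < p) (h1 : p < 1 / 2) : 0 ≤ g p := by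
  by_contra hneg
  push Not at hneg
  obtain ⟨a, ha, ha'⟩ := exists_hasDerivAt_eq_slope g k h0 g_cont.continuousOn
    (fun x hx => g_deriv hx.1 (by linarith [hx.2]))
  obtain ⟨b, hb, hb'⟩ := exists_hasDerivAt_eq_slope g k h1 g_cont.continuousOn
    (fun x hx => g_deriv (h0.trans hx.1) (by linarith [hx.2]))
  have h2 : k a < 0 := by
    rw [ha', g_zero]
    exact div_neg_of_neg_of_pos (by linarith) (by linarith)
  have h3 : 0 < k b := by
    rw [hb', g_half]
    exact div_pos (by linarith) (by linarith)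
  have ha0 : 0 < a := ha.1
  have hab : a < b := ha.2.trans hb.1
  have hc := k_convex ha0
  have h4 : k b ≤ max (k a) (k (1 / 2)) := by
    refine hc.le_max_of_mem_Icc ⟨le_refl _, by linarith [hb.2]⟩ ⟨by linarith [hb.2], le_refl _⟩
      ⟨hab.le, hb.2.le⟩
  rw [k_half, max_eq_right h2.le] at h4
  linarith

lemma g_symm (p : ℝ) : g (1 - p) = g p := by
  unfold g
  rw [Real.binEntropy_one_sub]
  ring

lemma g_nonneg {p : ℝ} (h0 : 0 ≤ p) (h1 : p ≤ 1) : 0 ≤ g p := by
  rcases h0.eq_or_lt with h | h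
  · rw [← h, g_zero]
  rcases lt_trichotomy p (1 / 2) with h2 | h2 | h2
  · exact g_nonneg_left h h2
  · rw [h2, g_half]
  · rcases h1.eq_or_lt with h3 | h3
    · rw [h3, ← g_symm, sub_self, g_zero]
    · rw [← g_symm]
      exact g_nonneg_left (by linarith) (by linarith)

end MHE3

open MHE3 in
theorem t_HE3 : S_HE3 := by
  intro p h0 h1
  have h := g_nonneg h0 h1
  unfold g at h
  nlinarith [h]

end Pool.Agent.TKN
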