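import Pool.Agent.TKN.St2

/-!
# TKN: module HYP (second moment of the hypergeometric distribution)
-/

set_option autoImplicit false

open Finset
open scoped Classical

namespace Pool.Agent.TKN

namespace MHYP

variable {α : Type}

lemma cnt1 (S : Finset α) (m : ℕ) (hm : 1 ≤ m) (x : α) (hx : x ∈ S) :
    ((powersetCard m S).filter fun V => x ∈ V ∧ x ∈ V).card = (S.card - 1).choose (m - 1) := by
  have h := card_filter_powersetCard_subset {x} S m (by simpa using hx) (by simpa using hm)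
  rw [card_singleton] at h
  rw [← h]
  congr 1
  apply filter_congr
  intro V _
  simp

lemma cnt2 (S : Finset α) (m : ℕ) (x y : α) (hx : x ∈ S) (hy : y ∈ S) (hxy : x ≠ y) :
    ((powersetCard m S).filter fun V => x ∈ V ∧ y ∈ V).card =
      if 2 ≤ m then (S.card - 2).choose (m - 2) else 0 := by
  split_ifs with hm
  · have h := card_filter_powersetCard_subset {x, y} S m
      (by intro z hz; simp at hz; rcases hz with rfl | rfl <;> assumption)
      (by rw [card_pair hxy]; exact hm)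
    rw [card_pair hxy] at h
    rw [← h]
    congr 1
    apply filter_congr
    intro V _
    simp [insert_subset_iff]
  · rw [card_eq_zero, filter_eq_empty_iff]
    rintro V hV ⟨h1, h2⟩
    rw [mem_powersetCard] at hV
    have : ({x, y} : Finset α).card ≤ V.card := card_le_card (by
      intro z hz; simp at hz; rcases hz with rfl | rfl <;> assumption)
    rw [card_pair hxy, hV.2] at this
    exact hm this

lemma expand (S : Finset α) (m : ℕ) (hm : 1 ≤ m) (g : α → ℝ) :
    ∑ V ∈ powersetCard m S, (∑ x ∈ V, g x) ^ 2 =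
      ((if 2 ≤ m then (S.card - 2).choose (m - 2) else 0 : ℕ) : ℝ) * (∑ x ∈ S, g x) ^ 2 +
      (((S.card - 1).choose (m - 1) : ℕ) -
        ((if 2 ≤ m then (S.card - 2).choose (m - 2) else 0 : ℕ) : ℝ)) * ∑ x ∈ S, g x ^ 2 := by
  set p2 : ℕ := if 2 ≤ m then (S.card - 2).choose (m - 2) else 0 with hp2
  have h1 : ∀ V ∈ powersetCard m S, (∑ x ∈ V, g x) ^ 2 =
      ∑ x ∈ S, ∑ y ∈ S, (if x ∈ V ∧ y ∈ V then g x * g y else 0) := by
    intro V hV
    have hVS : V ⊆ S := (mem_powersetCard.1 hV).1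
    have h2 : ∑ x ∈ V, g x = ∑ x ∈ S, if x ∈ V then g x else 0 := by
      rw [← sum_filter, filter_mem_eq_inter, inter_eq_right.2 hVS]
    rw [sq, h2, sum_mul_sum]
    refine sum_congr rfl fun x _ => sum_congr rfl fun y _ => ?_
    by_cases hx : x ∈ V <;> by_cases hy : y ∈ V <;> simp [hx, hy]
  rw [sum_congr rfl h1, sum_comm]
  have h3 : ∀ x ∈ S, ∑ V ∈ powersetCard m S, ∑ y ∈ S, (if x ∈ V ∧ y ∈ V then g x * g y else 0) =
      ∑ y ∈ S, ((p2 : ℝ) * (g x * g y) +
        if y = x then (((S.card - 1).choose (m - 1) : ℕ) - (p2 : ℝ)) * (g x * g y) else 0) := by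
    intro x hx
    rw [sum_comm]
    refine sum_congr rfl fun y hy => ?_
    rw [← sum_filter, sum_const, nsmul_eq_mul]
    by_cases hxy : y = x
    · subst hxy
      rw [cnt1 S m hm y hy, if_pos rfl]
      ring
    · rw [cnt2 S m x y hx hy (Ne.symm hxy), if_neg hxy]
      simp [hp2]
  rw [sum_congr rfl h3]
  have h4 : ∀ x ∈ S, ∑ y ∈ S, ((p2 : ℝ) * (g x * g y) +
        if y = x then (((S.card - 1).choose (m - 1) : ℕ) - (p2 : ℝ)) * (g x * g y) else 0) =
      (p2 : ℝ) * (g x * ∑ y ∈ S, g y) +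
        (((S.card - 1).choose (m - 1) : ℕ) - (p2 : ℝ)) * g x ^ 2 := by
    intro x hx
    rw [sum_add_distrib, sum_ite_eq' S x, if_pos hx, mul_sum, mul_sum]
    ring
  rw [sum_congr rfl h4, sum_add_distrib, ← mul_sum, ← sum_mul, ← mul_sum, sq]

end MHYP

open MHYP in
theorem t_HYP : S_HYP := by
  intro α S U m hm
  rcases Nat.eq_zero_or_pos m with rfl | hm1
  · simp
  have hN : 0 < S.card := lt_of_lt_of_le hm1 hm
  have hN' : (0 : ℝ) < S.card := by exact_mod_cast hN
  set g : α → ℝ := fun x => (if x ∈ U then 1 else 0) - ((U ∩ S).card : ℝ) / S.card with hg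
  have h1 : ∀ V ∈ powersetCard m S,
      (((U ∩ V).card : ℝ) - m * (U ∩ S).card / S.card) ^ 2 = (∑ x ∈ V, g x) ^ 2 := by
    intro V hV
    have hVm : V.card = m := (mem_powersetCard.1 hV).2
    congr 1
    simp only [hg]
    rw [sum_sub_distrib, sum_const, nsmul_eq_mul, hVm, ← sum_filter, sum_const, nsmul_eq_mul,
      mul_one, filter_mem_eq_inter, inter_comm V U]
    ring
  have h2 : ∑ x ∈ S, g x = 0 := by
    simp only [hg]
    rw [sum_sub_distrib, sum_const, nsmul_eq_mul, ← sum_filter, sum_const, nsmul_eq_mul,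
      mul_one, filter_mem_eq_inter, inter_comm S U]
    field_simp
    ring
  have h3 : ∀ x ∈ S, g x ^ 2 ≤ 1 := by
    intro x _
    have a1 : 0 ≤ ((U ∩ S).card : ℝ) / S.card := by positivity
    have a2 : ((U ∩ S).card : ℝ) / S.card ≤ 1 := by
      rw [div_le_one hN']
      exact_mod_cast card_le_card inter_subset_right
    simp only [hg]
    split_ifs <;> nlinarith
  rw [sum_congr rfl h1, expand S m hm1 g, h2]
  have h4 : ∑ x ∈ S, g x ^ 2 ≤ S.card := by
    have := sum_le_sum h3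
    simpa using this
  have h5 : 0 ≤ ∑ x ∈ S, g x ^ 2 := sum_nonneg fun x _ => sq_nonneg _
  have h6 : (0 : ℝ) ≤ ((if 2 ≤ m then (S.card - 2).choose (m - 2) else 0 : ℕ) : ℝ) :=
    Nat.cast_nonneg _
  have h7 : (S.card : ℝ) * ((S.card - 1).choose (m - 1) : ℕ) = m * (S.card.choose m : ℕ) := by
    obtain ⟨n, hn⟩ : ∃ n, S.card = n + 1 := ⟨S.card - 1, by omega⟩
    obtain ⟨k, rfl⟩ : ∃ k, m = k + 1 := ⟨m - 1, by omega⟩
    rw [hn, Nat.add_sub_cancel, Nat.add_sub_cancel]
    have := Nat.add_one_mul_choose_eq n k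
    have h8 : ((n + 1 : ℕ) : ℝ) * (n.choose k : ℕ) = ((n + 1).choose (k + 1) : ℕ) * ((k + 1 : ℕ) : ℝ) := by
      exact_mod_cast this
    rw [h8]; ring
  have h8 : (0 : ℝ) ≤ ((S.card - 1).choose (m - 1) : ℕ) := Nat.cast_nonneg _
  nlinarith [mul_nonneg h6 h5, mul_nonneg h8 (sub_nonneg.2 h4)]

end Pool.Agent.TKN
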