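import Pool.Agent.TKN.St1
import Pool.Agent.NCE.SLF

/-!
# Project TKN, module HZ: the hazard inequality
-/

set_option autoImplicit false

open Finset
open scoped Classical

namespace Pool.Agent.TKN

open NCE

namespace MHZ

variable {Ω : Type} [Fintype Ω] {γ : Type}

lemma pr_nonneg {α : Type} (P : FP Ω) (X : Ω → α) (x : α) : 0 ≤ pr P X x := by
  unfold pr
  refine Finset.sum_nonneg fun ω _ => ?_
  split_ifs
  · exact P.nn ω
  · exact le_rfl

lemma opp_nonneg (P : FP Ω) (F : Ω → γ) (b : Ω → Bool) (ω : Ω) : 0 ≤ opp P F b ω := by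
  unfold opp
  exact div_nonneg (pr_nonneg _ _ _) (pr_nonneg _ _ _)

lemma opp_le_one (P : FP Ω) (F : Ω → γ) (b : Ω → Bool) (ω : Ω) : opp P F b ω ≤ 1 := by
  unfold opp
  refine div_le_one_of_le₀ ?_ (pr_nonneg _ _ _)
  unfold pr
  refine Finset.sum_le_sum fun ω' _ => ?_
  by_cases h : (F ω', b ω') = (F ω, !b ω)
  · rw [if_pos h, if_pos (Prod.ext_iff.1 h).1]
  · rw [if_neg h]
    split_ifs
    · exact P.nn ω'
    · exact le_rfl

lemma ex_nonneg (P : FP Ω) (f : Ω → ℝ) (hf : ∀ ω, 0 ≤ f ω) : 0 ≤ ex P f := by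
  unfold ex
  exact Finset.sum_nonneg fun ω _ => mul_nonneg (P.nn ω) (hf ω)

lemma pat_mem {n : ℕ} {A B : Finset (Fin n)} {x y : Fin n → Bool} (h : pat A x = pat B y)
    (v : Fin n) : (v ∈ A ↔ v ∈ B) ∧ (v ∈ A → x v = y v) := by
  have h1 := congrFun h v
  unfold pat at h1
  by_cases hA : v ∈ A
  · rw [if_pos hA] at h1
    by_cases hB : v ∈ B
    · rw [if_pos hB] at h1
      exact ⟨⟨fun _ => hB, fun _ => hA⟩, fun _ => Option.some.inj h1⟩
    · rw [if_neg hB] at h1
      exact absurd h1 (by simp)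
  · rw [if_neg hA] at h1
    by_cases hB : v ∈ B
    · rw [if_pos hB] at h1
      exact absurd h1 (by simp)
    · exact ⟨⟨fun h => absurd h hA, fun h => absurd h hB⟩, fun h => absurd h hA⟩

end MHZ

open MHZ

theorem t_HZ (hDTS : S_DTS) (hSBS : S_SBS) (hSBA : S_SBA) (hNOI : S_NOI) (hSBI : S_SBI) :
    S_HZ := by
  intro Ω _ P γ F n z V U hz h1 h2
  set e : Ω → Fin n → ℝ := fun ω v =>
    if v ∈ V ∧ v ∉ U ω then opp P F (fun ω' => z ω' v) ω / 2 else 0 with he
  have he01 : ∀ ω v, 0 ≤ e ω v ∧ e ω v ≤ 1 := by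
    intro ω v
    simp only [he]
    have ha := opp_nonneg P F (fun ω' => z ω' v) ω
    have hb := opp_le_one P F (fun ω' => z ω' v) ω
    split_ifs
    · constructor <;> linarith
    · constructor <;> norm_num
  obtain ⟨Ω', _, P', π, ζ, hSL, hsupp, hexf, hent⟩ := hNOI Ω P n e he01
  -- the erased word, the pattern
  set F' : Ω' → γ := fun q => F (π q) with hF'
  set W : Ω' → Fin n → Option Bool := fun q v => if ζ q v then none else some (z (π q) v) with hW
  set T : Ω → Fin n → Option Bool := fun ω => pat (U ω) (z ω) with hT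
  have hWtrue : ∀ q v, ζ q v = true → W q v = none := fun q v h => by simp [hW, h]
  have hWfalse : ∀ q v, ζ q v = false → W q v = some (z (π q) v) := fun q v h => by simp [hW, h]
  have hU : ∀ q, P'.p q ≠ 0 → ∀ v, (v ∉ V ∨ v ∈ U (π q)) → ζ q v = false := by
    intro q hq v hv
    by_contra hc
    have hc' : ζ q v = true := by simpa using hc
    have := ((hsupp q hq).2 v).1 hc'
    apply this
    simp only [he]
    rw [if_neg]
    rintro ⟨a, b⟩
    rcases hv with hv | hv
    · exact hv a
    · exact b hv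
  -- (a)
  have ha : DetS P' (fun q => (F' q, W q)) (fun q => T (π q)) := by
    intro q q' hq hq' hqq
    rw [Prod.ext_iff] at hqq
    obtain ⟨hf, hw⟩ := hqq
    simp only at hf hw
    have k1 : ∀ v ∈ U (π q), z (π q) v = z (π q') v := by
      intro v hv
      have e1 := hWfalse q v (hU q hq v (Or.inr hv))
      have e2 := congrFun hw v
      rw [e1] at e2
      by_cases hζ : ζ q' v = true
      · rw [hWtrue q' v hζ] at e2
        exact absurd e2 (by simp)
      · rw [hWfalse q' v (by simpa using hζ)] at e2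
        exact Option.some.inj e2
    have k2 : ∀ v ∈ U (π q'), z (π q) v = z (π q') v := by
      intro v hv
      have e1 := hWfalse q' v (hU q' hq' v (Or.inr hv))
      have e2 := congrFun hw v
      rw [e1] at e2
      by_cases hζ : ζ q v = true
      · rw [hWtrue q v hζ] at e2
        exact absurd e2.symm (by simp)
      · rw [hWfalse q v (by simpa using hζ)] at e2
        exact Option.some.inj e2
    have k3 := h2 _ _ hf k1 k2
    show pat (U (π q)) (z (π q)) = pat (U (π q')) (z (π q'))
    funext v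
    unfold pat
    rw [← k3]
    by_cases hv : v ∈ U (π q)
    · rw [if_pos hv, if_pos hv, k1 v hv]
    · rw [if_neg hv, if_neg hv]
  -- (b)
  have hb : CH P' F' W ≤ ∑ v ∈ V, CH P' F' (fun q => W q v) := by
    refine hSBA Ω' P' γ (Option Bool) F' n W V fun v hv q q' hq hq' hf => ?_
    show W q v = W q' v
    rw [hWfalse q v (hU q hq v (Or.inl hv)), hWfalse q' v (hU q' hq' v (Or.inl hv)),
      h1 _ _ hf v hv]
  -- (d)
  have hd1 : H P' (fun q => (F' q, W q, T (π q))) ≤ H P' (fun q => (F' q, W q)) := by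
    refine hDTS Ω' P' _ _ (fun q => (F' q, W q)) (fun q => (F' q, W q, T (π q))) ?_
    intro q q' hq hq' hqq
    have k := ha q q' hq hq' hqq
    simp only at k
    rw [Prod.ext_iff] at hqq
    simp only at hqq ⊢
    rw [hqq.1, hqq.2, k]
  have hd2 : H P' (fun q => ((F' q, W q), z (π q))) ≤
      H P' (fun q => ((F' q, W q, T (π q)), z (π q))) := by
    refine hDTS Ω' P' _ _ (fun q => ((F' q, W q, T (π q)), z (π q)))
      (fun q => ((F' q, W q), z (π q))) ?_
    intro q q' _ _ hqq
    simp only [Prod.mk.injEq] at hqq ⊢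
    exact ⟨⟨hqq.1.1, hqq.1.2.1⟩, hqq.2⟩
  have hd3 : CH P' (fun q => (F' q, W q, T (π q))) (fun q => z (π q)) ≤
      ∑ v ∈ V, CH P' (fun q => (F' q, W q, T (π q))) (fun q => z (π q) v) := by
    refine hSBA Ω' P' _ Bool (fun q => (F' q, W q, T (π q))) n (fun q => z (π q)) V
      fun v hv q q' _ _ hf => ?_
    simp only [Prod.mk.injEq] at hf
    exact h1 _ _ hf.1 v hv
  have hd4 : ∀ v ∈ V, CH P' (fun q => (F' q, W q, T (π q))) (fun q => z (π q) v) ≤
      CH P' (fun q => (F' q, W q v, T (π q))) (fun q => z (π q) v) := by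
    intro v _
    have k := hSBS Ω' P' _ _ _ _ (fun q => (F' q, W q v, T (π q)))
      (fun q => (F' q, W q, T (π q)))
      (fun q => ((F' q, W q v, T (π q)), z (π q) v))
      (fun q => ((F' q, W q, T (π q)), z (π q) v))
      (by
        intro q q' _ _ hf
        simp only [Prod.mk.injEq] at hf ⊢
        exact ⟨hf.1, by rw [hf.2.1], hf.2.2⟩)
      (by
        intro q q' _ _ hf
        simp only [Prod.mk.injEq] at hf ⊢
        exact hf.1)
      (by
        intro q q' _ _ hf
        simp only [Prod.mk.injEq] at hf ⊢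
        exact ⟨hf.1, hf.2.2⟩)
    unfold CH
    linarith
  -- (c)
  have hc1 : H P' (fun q => (π q, ζ q)) ≤ H P' (fun q => ((F' q, W q), z (π q))) := by
    refine hDTS Ω' P' _ _ (fun q => ((F' q, W q), z (π q))) (fun q => (π q, ζ q)) ?_
    intro q q' _ _ hqq
    simp only [Prod.mk.injEq] at hqq ⊢
    refine ⟨hz hqq.2, ?_⟩
    funext v
    have e2 := congrFun hqq.1.2 v
    by_cases hζ : ζ q v = true
    · rw [hWtrue q v hζ] at e2
      by_cases hζ' : ζ q' v = true
      · rw [hζ, hζ']
      · rw [hWfalse q' v (by simpa using hζ')] at e2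
        exact absurd e2 (by simp)
    · rw [hWfalse q v (by simpa using hζ)] at e2
      by_cases hζ' : ζ q' v = true
      · rw [hWtrue q' v hζ'] at e2
        exact absurd e2 (by simp)
      · have x1 : ζ q v = false := by simpa using hζ
        have x2 : ζ q' v = false := by simpa using hζ'
        rw [x1, x2]
  have hc2 : H P (fun ω => (F ω, z ω)) ≤ H P id := by
    refine hDTS Ω P _ _ id (fun ω => (F ω, z ω)) ?_
    intro ω ω' _ _ hωω
    have : ω = ω' := hωω
    rw [this]
  have hc3 : H P' F' = H P F := by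
    have := (NCE.t_SLF Ω' Ω P' P Ω γ π id F (fun _ => 0) hSL).2.1
    exact this
  have hc4 : ∑ v, ex P (fun ω => Real.binEntropy (e ω v)) =
      ∑ v ∈ V, ex P (fun ω => Real.binEntropy (e ω v)) := by
    symm
    refine Finset.sum_subset (Finset.subset_univ V) fun v _ hv => ?_
    unfold ex
    refine Finset.sum_eq_zero fun ω _ => ?_
    simp only [he]
    rw [if_neg (fun h => hv h.1), Real.binEntropy_zero, mul_zero]
  -- the sum
  have key : CH P F z + ∑ v ∈ V, ex P (fun ω => Real.binEntropy (e ω v)) ≤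
      ∑ v ∈ V, CH P' F' (fun q => W q v) +
        ∑ v ∈ V, CH P' (fun q => (F' q, W q v, T (π q))) (fun q => z (π q) v) := by
    have k1 := Finset.sum_le_sum hd4
    have k2 : CH P' F' W = H P' (fun q => (F' q, W q)) - H P' F' := rfl
    have k3 : CH P F z = H P (fun ω => (F ω, z ω)) - H P F := rfl
    have k4 : CH P' (fun q => (F' q, W q, T (π q))) (fun q => z (π q)) =
      H P' (fun q => ((F' q, W q, T (π q)), z (π q))) - H P' (fun q => (F' q, W q, T (π q))) := rfl
    rw [hc4] at hent
    linarith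
  have hsbi : ∀ v ∈ V, (1 / 8) * (O P F (fun ω => z ω v) -
      O P (fun ω => (F ω, T ω)) (fun ω => z ω v)) -
      (13 / 10) * ex P (fun ω => if v ∈ U ω then opp P F (fun ω' => z ω' v) ω else 0) ≤
      CH P F (fun ω => z ω v) + ex P (fun ω => Real.binEntropy (e ω v)) -
        CH P' F' (fun q => W q v) -
        CH P' (fun q => (F' q, W q v, T (π q))) (fun q => z (π q) v) := by
    intro v hv
    have hev : ∀ ω, e ω v = if v ∈ U ω then 0 else opp P F (fun ω' => z ω' v) ω / 2 := by
      intro ω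
      simp only [he]
      by_cases hvu : v ∈ U ω
      · rw [if_neg (fun h => h.2 hvu), if_pos hvu]
      · rw [if_pos ⟨hv, hvu⟩, if_neg hvu]
    have hite : ∀ (ω : Ω) (a b : ℝ), @ite ℝ (v ∈ U ω) (Classical.propDecidable (v ∈ U ω)) a b =
        if v ∈ U ω then a else b := by
      intro ω a b
      by_cases hvu : v ∈ U ω
      · rw [if_pos hvu, if_pos hvu]
      · rw [if_neg hvu, if_neg hvu]
    have k := hSBI Ω Ω' P P' γ (Fin n → Option Bool) F (fun ω => z ω v) T (fun ω => v ∈ U ω) π
      (fun q => ζ q v)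
      (fun ω ω' h => (pat_mem h v).1)
      (fun ω ω' h hu => (pat_mem h v).2 hu)
      hSL
      (by
        intro f
        rw [hexf v f]
        simp only [hev, hite])
    simp only [hite] at k
    simp only [hev]
    exact k
  have hsum := Finset.sum_le_sum hsbi
  simp only [Finset.sum_sub_distrib, Finset.sum_add_distrib, ← Finset.mul_sum] at hsum
  have hpos : 0 ≤ ∑ v ∈ V, ex P (fun ω => if v ∈ U ω then opp P F (fun ω' => z ω' v) ω else 0) := by
    refine Finset.sum_nonneg fun v _ => ex_nonneg P _ fun ω => ?_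
    split_ifs
    · exact opp_nonneg _ _ _ _
    · exact le_rfl
  have hTC : TC P F V z = ∑ v ∈ V, CH P F (fun ω => z ω v) - CH P F z := rfl
  rw [Finset.sum_sub_distrib, hTC]
  linarith

end Pool.Agent.TKN
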