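import Pool.Agent.TKN.St3

/-!
# TKN: a good level (`S_LEV`)
-/

set_option autoImplicit false

open Finset
open scoped Classical

namespace Pool.Agent.TKN

open NCE

namespace MLEV

lemma ex_mono {Ω : Type} [Fintype Ω] (P : FP Ω) (f g : Ω → ℝ)
    (h : ∀ ω, P.p ω ≠ 0 → f ω ≤ g ω) : ex P f ≤ ex P g := by
  unfold ex
  refine Finset.sum_le_sum fun ω _ => ?_
  by_cases h0 : P.p ω = 0
  · rw [h0]; simp
  · exact mul_le_mul_of_nonneg_left (h ω h0) (P.nn ω)

lemma ex_add {Ω : Type} [Fintype Ω] (P : FP Ω) (f g : Ω → ℝ) :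
    ex P (fun ω => f ω + g ω) = ex P f + ex P g := by
  unfold ex
  rw [← Finset.sum_add_distrib]
  exact Finset.sum_congr rfl fun ω _ => by ring

lemma ex_smul {Ω : Type} [Fintype Ω] (P : FP Ω) (c : ℝ) (f : Ω → ℝ) :
    ex P (fun ω => c * f ω) = c * ex P f := by
  unfold ex
  rw [Finset.mul_sum]
  exact Finset.sum_congr rfl fun ω _ => by ring

lemma ex_const {Ω : Type} [Fintype Ω] (P : FP Ω) (c : ℝ) :
    ex P (fun _ => c) = c := by
  unfold ex
  rw [← Finset.sum_mul, P.one, one_mul]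

lemma ex_sum {Ω : Type} [Fintype Ω] (P : FP Ω) (K : ℕ) (f : ℕ → Ω → ℝ) :
    ex P (fun ω => ∑ i ∈ Finset.range K, f i ω) = ∑ i ∈ Finset.range K, ex P (f i) := by
  unfold ex
  rw [Finset.sum_comm]
  exact Finset.sum_congr rfl fun ω _ => by rw [Finset.mul_sum]

/-- the dyadic level of a number -/
lemma level (A a x : ℝ) (K : ℕ) (hK : A / 2 ^ K ≤ a) (h1 : a < x) (h2 : x ≤ A) :
    ∃ i < K, A / 2 ^ i / 2 < x ∧ x ≤ A / 2 ^ i := by
  have hex : ∃ j, A / 2 ^ j < x := ⟨K, lt_of_le_of_lt hK h1⟩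
  have hj := Nat.find_spec hex
  have hle : Nat.find hex ≤ K := Nat.find_min' hex (lt_of_le_of_lt hK h1)
  rcases Nat.eq_zero_or_pos (Nat.find hex) with h0 | h0
  · rw [h0] at hj
    simp only [pow_zero, div_one] at hj
    exact absurd h2 (not_le.2 hj)
  · obtain ⟨i, hi⟩ := Nat.exists_eq_succ_of_ne_zero h0.ne'
    refine ⟨i, by omega, ?_, ?_⟩
    · rw [hi] at hj
      have : A / 2 ^ i / 2 = A / 2 ^ (Nat.succ i) := by
        rw [Nat.succ_eq_add_one, pow_succ, div_div]
      rw [this]; exact hj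
    · by_contra hc
      exact Nat.find_min hex (m := i) (by omega) (not_le.1 hc)

end MLEV

open MLEV in
theorem t_LEV : S_LEV := by
  intro Ω' _ P' X m μ ε θ hm hμ hμ1 hε hε1 hθ hX hex hout
  set L := Real.log (1 / μ) with hL
  have hL0 : 0 ≤ L := Real.log_nonneg (by rw [le_div_iff₀ hμ]; linarith)
  set A := 2 * ε * m with hA
  have hA0 : 0 < A := by positivity
  set a := μ * m / 4 with ha
  have ha0 : 0 < a := by positivity
  -- `a < A`
  have hAa : 3 * a ≤ A := by
    have h1 : ex P' X ≤ ex P' (fun q => A + m * (if 2 * ε * m < X q then 1 else 0)) := by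
      refine ex_mono P' _ _ fun q hq => ?_
      obtain ⟨h0, h1⟩ := hX q hq
      by_cases h : 2 * ε * m < X q
      · rw [if_pos h]; linarith
      · rw [if_neg h]; push Not at h; rw [hA]; linarith
    rw [ex_add, ex_const, ex_smul] at h1
    have h2 : m * ex P' (fun q => if 2 * ε * m < X q then 1 else 0) ≤ m * (μ / 4) :=
      mul_le_mul_of_nonneg_left (hout.trans hθ) hm.le
    have h3 : m * (μ / 4) = a := by rw [ha]; ring
    have h4 : μ * m = 4 * a := by rw [ha]; ring
    linarith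
  -- the number of levels
  have hex2 : ∃ K : ℕ, A / 2 ^ K ≤ a := by
    obtain ⟨K, hK⟩ := pow_unbounded_of_one_lt (A / a) (by norm_num : (1 : ℝ) < 2)
    refine ⟨K, ?_⟩
    rw [div_le_iff₀ (by positivity)]
    rw [div_lt_iff₀ ha0] at hK
    linarith
  set K := Nat.find hex2 with hKdef
  have hKs : A / 2 ^ K ≤ a := Nat.find_spec hex2
  have hK0 : 0 < K := by
    rcases Nat.eq_zero_or_pos K with h | h
    · rw [h] at hKs; simp only [pow_zero, div_one] at hKs; linarith
    · exact h
  have hKlt : ∀ i < K, a < A / 2 ^ i := fun i hi => not_le.1 (Nat.find_min hex2 hi)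
  have hKb : (K : ℝ) ≤ 4 * (1 + L) := by
    have h1 := hKlt (K - 1) (by omega)
    have h2 : (2 : ℝ) ^ (K - 1) < A / a := by
      rw [lt_div_iff₀ ha0]
      rw [lt_div_iff₀ (by positivity)] at h1
      linarith
    have h3 : A / a ≤ 4 / μ := by
      rw [div_le_div_iff₀ ha0 hμ, hA, ha]
      have : ε * (m * μ) ≤ 1 / 2 * (m * μ) := mul_le_mul_of_nonneg_right hε1 (by positivity)
      nlinarith
    have h4 : ((K - 1 : ℕ) : ℝ) * Real.log 2 ≤ 2 * Real.log 2 + L := by
      have h5 := Real.log_le_log (by positivity) (h2.le.trans h3)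
      rw [Real.log_pow] at h5
      have h6 : Real.log (4 / μ) = 2 * Real.log 2 + L := by
        rw [hL, show (4 : ℝ) / μ = 4 * (1 / μ) by ring,
          Real.log_mul (by norm_num) (by positivity), show (4 : ℝ) = 2 ^ 2 by norm_num,
          Real.log_pow]
        push_cast; ring
      rw [h6] at h5; exact h5
    have h7 : (0.6931471803 : ℝ) < Real.log 2 := Real.log_two_gt_d9
    have h8 : ((K - 1 : ℕ) : ℝ) = (K : ℝ) - 1 := by
      rw [Nat.cast_sub hK0]; norm_num
    rw [h8] at h4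
    have h9 : ((K : ℝ) - 3) * Real.log 2 ≤ L := by linarith
    by_contra hc
    push Not at hc
    have h10 : (0 : ℝ) ≤ (K : ℝ) - 3 := by linarith
    have h11 : ((K : ℝ) - 3) * 0.6931471803 ≤ ((K : ℝ) - 3) * Real.log 2 :=
      mul_le_mul_of_nonneg_left h7.le h10
    nlinarith
  by_contra hno
  push Not at hno
  set c := μ * m / (8 * (1 + L)) with hc
  have hc0 : 0 < c := by positivity
  set g : ℕ → Ω' → ℝ := fun i q =>
    if A / 2 ^ i / 2 < X q ∧ X q ≤ A / 2 ^ i then X q else 0 with hg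
  have hlev : ∀ i ∈ Finset.range K, ex P' (g i) < c := by
    intro i hi
    rw [Finset.mem_range] at hi
    have h1 : a ≤ A / 2 ^ i := (hKlt i hi).le
    have h2 : A / 2 ^ i ≤ A := div_le_self hA0.le (one_le_pow₀ (by norm_num))
    exact hno (A / 2 ^ i) h1 h2
  have hsum : ∑ i ∈ Finset.range K, ex P' (g i) < K * c := by
    have h1 := Finset.sum_lt_sum_of_nonempty (s := Finset.range K)
      (f := fun i => ex P' (g i)) (g := fun _ => c) ⟨0, Finset.mem_range.2 hK0⟩ hlev
    simpa using h1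
  have hpt : ex P' X ≤ ex P' (fun q => (a + m * (if 2 * ε * m < X q then 1 else 0)) +
      ∑ i ∈ Finset.range K, g i q) := by
    refine ex_mono P' _ _ fun q hq => ?_
    obtain ⟨h0, h1⟩ := hX q hq
    have hgn : ∀ i, 0 ≤ g i q := by
      intro i; simp only [hg]; split_ifs
      · exact h0
      · exact le_rfl
    have hs0 : 0 ≤ ∑ i ∈ Finset.range K, g i q := Finset.sum_nonneg fun i _ => hgn i
    by_cases h : 2 * ε * m < X q
    · rw [if_pos h]; linarith
    · rw [if_neg h]
      push Not at h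
      rcases le_or_gt (X q) a with h2 | h2
      · linarith
      · obtain ⟨i, hi, h3, h4⟩ := level A a (X q) K hKs h2 h
        have h5 : g i q ≤ ∑ i ∈ Finset.range K, g i q :=
          Finset.single_le_sum (f := fun i => g i q) (fun j _ => hgn j) (Finset.mem_range.2 hi)
        have h6 : g i q = X q := by simp only [hg]; rw [if_pos ⟨h3, h4⟩]
        linarith
  rw [ex_add, ex_add, ex_const, ex_smul, ex_sum] at hpt
  have h2 : m * ex P' (fun q => if 2 * ε * m < X q then 1 else 0) ≤ m * (μ / 4) :=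
    mul_le_mul_of_nonneg_left (hout.trans hθ) hm.le
  have h3 : m * (μ / 4) = a := by rw [ha]; ring
  have h4 : μ * m = 4 * a := by rw [ha]; ring
  have h5 : (K : ℝ) * c ≤ 2 * a := by
    have h6 : (K : ℝ) * c ≤ 4 * (1 + L) * c := mul_le_mul_of_nonneg_right hKb hc0.le
    have h7 : 4 * (1 + L) * c = 2 * a := by
      rw [hc, ha]; field_simp; ring
    linarith
  linarith

end Pool.Agent.TKN
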