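import Pool.Agent.TKN.St1
import Pool.Agent.TKN.St3
import Pool.Agent.NCE.CNT
import Pool.Agent.NCE.GIB

/-!
# LOW: lower bound for the entropy of the first side
-/

set_option autoImplicit false

open Finset
open scoped Classical

namespace Pool.Agent.TKN

open NCE

namespace MLOW

theorem ex_mono {Ω : Type} [Fintype Ω] (P : FP Ω) (f g : Ω → ℝ)
    (h : ∀ ω, P.p ω ≠ 0 → f ω ≤ g ω) : ex P f ≤ ex P g := by
  unfold ex
  refine Finset.sum_le_sum fun ω _ => ?_
  by_cases h0 : P.p ω = 0
  · simp [h0]
  · exact mul_le_mul_of_nonneg_left (h ω h0) (P.nn ω)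

theorem ex_add {Ω : Type} [Fintype Ω] (P : FP Ω) (f g : Ω → ℝ) :
    ex P (fun ω => f ω + g ω) = ex P f + ex P g := by
  unfold ex
  rw [← Finset.sum_add_distrib]
  exact Finset.sum_congr rfl fun ω _ => by ring

theorem ex_mul {Ω : Type} [Fintype Ω] (P : FP Ω) (c : ℝ) (f : Ω → ℝ) :
    ex P (fun ω => c * f ω) = c * ex P f := by
  unfold ex
  rw [Finset.mul_sum]
  exact Finset.sum_congr rfl fun ω _ => by ring

/-- words which agree outside `d` are at most `2 ^ |d|` -/
theorem card_words {n : ℕ} (d : Finset (Fin n)) (S : Finset (Fin n → Bool))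
    (h : ∀ z ∈ S, ∀ z' ∈ S, ∀ v, v ∉ d → z v = z' v) : S.card ≤ 2 ^ d.card := by
  rw [← Finset.card_powerset]
  refine Finset.card_le_card_of_injOn (fun z => d.filter fun v => z v = true) ?_ ?_
  · intro z _
    exact Finset.mem_coe.2 (Finset.mem_powerset.2 (Finset.filter_subset _ _))
  · intro z hz z' hz' he
    funext v
    by_cases hv : v ∈ d
    · have h1 : v ∈ d.filter (fun v => z v = true) ↔ v ∈ d.filter (fun v => z' v = true) := by
        have he' : d.filter (fun v => z v = true) = d.filter (fun v => z' v = true) := he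
        rw [he']
      rw [Finset.mem_filter, Finset.mem_filter] at h1
      have h2 : z v = true ↔ z' v = true := by
        constructor
        · intro h; exact (h1.1 ⟨hv, h⟩).2
        · intro h; exact (h1.2 ⟨hv, h⟩).2
      cases h3 : z v <;> cases h4 : z' v <;> simp_all
    · exact h z (Finset.mem_coe.1 hz) z' (Finset.mem_coe.1 hz') v hv

end MLOW

open MLOW in
theorem t_LOW (h1 : S_DTS) (h2 : S_SBS) : S_LOW := by
  intro n r Z hZ U V J1 Ω' _ P' π D hD b E S2 𝒟 h𝒟
  have hC : S_CNT := t_CNT t_GIB
  set F : Ω' → (Fin n → Option Bool) × (Fin r → Fin n → Option Bool) :=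
    fun q => FJ Z U V J1ᶜ (π q) with hF
  set A : Ω' → ((Fin n → Option Bool) × (Fin r → Fin n → Option Bool)) × Finset (Fin n) :=
    fun q => (F q, D q) with hA
  set z : Ω' → Fin n → Bool := fun q => (π q).1 with hz
  set Y : Ω' → Option (Fin n → Bool) := fun q => if Lev b (D q) then none else some (z q) with hY
  set D2 : Ω' → Finset (Fin n) := T2 U J1 b E S2 π D with hD2
  set B : Ω' → Finset (Fin n) × Option (Fin n → Bool) := fun q => (D2 q, Y q) with hB
  set K := KK U J1 b E S2 π D with hK
  set X : Ω' → Fin n → Option Bool := fun q => pat (S1 b D q) (z q) with hX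
  -- facts
  have hLY : ∀ q, Lev b (D q) → Y q = none := fun q h => by simp only [hY, if_pos h]
  have hNY : ∀ q, ¬ Lev b (D q) → Y q = some (z q) := fun q h => by simp only [hY, if_neg h]
  have hdet : ∀ q q', P'.p q ≠ 0 → P'.p q' ≠ 0 → A q = A q' → ∀ v, v ∉ D q → z q v = z q' v := by
    intro q q' hq hq' h v hv
    exact hD.det q q' hq hq' (congrArg Prod.fst h) (congrArg Prod.snd h) v hv
  -- step 1
  have s1 : DetS P' (fun q => (A q, B q)) K := by
    intro q q' hq hq' h
    have hAA : A q = A q' := congrArg Prod.fst h
    have hBB : B q = B q' := congrArg Prod.snd h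
    have hDD : D q = D q' := congrArg Prod.snd hAA
    have hYY : Y q = Y q' := congrArg Prod.snd hBB
    have hTT : D2 q = D2 q' := congrArg Prod.fst hBB
    have hSS : S1 b D q = S1 b D q' := by
      unfold S1
      rw [hDD]
    show (S1 b D q, D2 q, off (S1 b D q ∪ D2 q) (z q)) =
      (S1 b D q', D2 q', off (S1 b D q' ∪ D2 q') (z q'))
    rw [← hSS, ← hTT]
    have hoff : off (S1 b D q ∪ D2 q) (z q) = off (S1 b D q ∪ D2 q) (z q') := by
      funext v
      unfold off
      by_cases hv : v ∈ S1 b D q ∪ D2 q
      · rw [if_pos hv, if_pos hv]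
      · rw [if_neg hv, if_neg hv]
        by_cases hl : Lev b (D q)
        · have hv' : v ∉ D q := by
            intro hv'
            apply hv
            rw [Finset.mem_union]
            left
            unfold S1
            rw [if_pos hl]
            exact hv'
          rw [hdet q q' hq hq' hAA v hv']
        · have hl' : ¬ Lev b (D q') := by rw [← hDD]; exact hl
          rw [hNY q hl, hNY q' hl'] at hYY
          rw [Option.some.inj hYY]
    rw [hoff]
  -- step 2
  have s2 : DetS P' (fun q => ((A q, B q), X q)) (fun q => (A q, z q)) := by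
    intro q q' hq hq' h
    have hAB : (A q, B q) = (A q', B q') := congrArg Prod.fst h
    have hXX : X q = X q' := congrArg Prod.snd h
    have hAA : A q = A q' := congrArg Prod.fst hAB
    have hBB : B q = B q' := congrArg Prod.snd hAB
    have hDD : D q = D q' := congrArg Prod.snd hAA
    have hYY : Y q = Y q' := congrArg Prod.snd hBB
    have hzz : z q = z q' := by
      by_cases hl : Lev b (D q)
      · funext v
        by_cases hv : v ∈ D q
        · have h3 := congrFun hXX v
          have hl' : Lev b (D q') := by rw [← hDD]; exact hl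
          have e1 : X q v = some (z q v) := by
            show pat (S1 b D q) (z q) v = some (z q v)
            unfold pat S1
            rw [if_pos hl, if_pos hv]
          have e2 : X q' v = some (z q' v) := by
            show pat (S1 b D q') (z q') v = some (z q' v)
            unfold pat S1
            rw [if_pos hl', if_pos (hDD ▸ hv)]
          rw [e1, e2] at h3
          exact Option.some.inj h3
        · exact hdet q q' hq hq' hAA v hv
      · have hl' : ¬ Lev b (D q') := by rw [← hDD]; exact hl
        rw [hNY q hl, hNY q' hl'] at hYY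
        exact Option.some.inj hYY
    show (A q, z q) = (A q', z q')
    rw [hAA, hzz]
  -- step 3
  have s3 := h2 Ω' P' _ _ _ _ K (fun q => (K q, X q)) (fun q => (A q, B q))
    (fun q => ((A q, B q), X q))
    (fun q q' _ _ h => congrArg Prod.fst h) s1
    (fun q q' _ _ h => by
      have e1 : (K q, X q) = (K q', X q') := congrArg Prod.fst h
      have e2 : (A q, B q) = (A q', B q') := congrArg Prod.snd h
      show ((A q, B q), X q) = ((A q', B q'), X q')
      have e3 : X q = X q' := congrArg Prod.snd e1
      rw [e2, e3])
  -- step 4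
  have s4 := h1 Ω' P' _ _ _ _ s2
  -- step 5
  set G : ((Fin n → Option Bool) × (Fin r → Fin n → Option Bool)) × Finset (Fin n) →
      Finset (Finset (Fin n) × Option (Fin n → Bool)) := fun a =>
    if Lev b a.2 then 𝒟 ×ˢ {none} else
      {∅} ×ˢ (((univ.filter fun q => P'.p q ≠ 0 ∧ A q = a).image z).image some) with hG
  have s5 := hC Ω' P' _ _ A B G (fun q hq => by
    by_cases hl : Lev b (D q)
    · have e : G (A q) = 𝒟 ×ˢ {none} := by
        simp only [hG]
        exact if_pos hl
      rw [e, Finset.mem_product]
      exact ⟨h𝒟 q hq hl, by rw [Finset.mem_singleton]; exact hLY q hl⟩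
    · have e : G (A q) = {∅} ×ˢ (((univ.filter fun q' => P'.p q' ≠ 0 ∧ A q' = A q).image
          z).image some) := by
        simp only [hG]
        exact if_neg hl
      rw [e, Finset.mem_product]
      refine ⟨?_, ?_⟩
      · rw [Finset.mem_singleton]
        show T2 U J1 b E S2 π D q = ∅
        unfold T2
        rw [if_neg (fun h => hl h.1)]
      · show Y q ∈ _
        rw [hNY q hl]
        refine Finset.mem_image_of_mem _ (Finset.mem_image_of_mem _ ?_)
        rw [Finset.mem_filter]
        exact ⟨Finset.mem_univ _, hq, rfl⟩)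
  have s6 : ex P' (fun q => Real.log (G (A q)).card) ≤
      ex P' (fun q => (if Lev b (D q) then Real.log 𝒟.card else 0) +
        Real.log 2 * (((D q).card : ℝ) - ((S1 b D q).card : ℝ))) := by
    refine ex_mono P' _ _ fun q hq => ?_
    by_cases hl : Lev b (D q)
    · have e : G (A q) = 𝒟 ×ˢ {none} := by
        simp only [hG]
        exact if_pos hl
      have e2 : S1 b D q = D q := by unfold S1; rw [if_pos hl]
      rw [e, e2, if_pos hl, Finset.card_product, Finset.card_singleton, mul_one, sub_self, mul_zero,
        add_zero]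
    · have e : G (A q) = {∅} ×ˢ (((univ.filter fun q' => P'.p q' ≠ 0 ∧ A q' = A q).image
          z).image some) := by
        simp only [hG]
        exact if_neg hl
      have e2 : S1 b D q = ∅ := by unfold S1; rw [if_neg hl]
      rw [e, e2, if_neg hl, Finset.card_product, Finset.card_singleton, one_mul, zero_add,
        Finset.card_empty, Nat.cast_zero, sub_zero]
      set S : Finset (Fin n → Bool) :=
        (univ.filter fun q' => P'.p q' ≠ 0 ∧ A q' = A q).image z with hS
      have c1 : (S.image some).card = S.card :=
        Finset.card_image_of_injective _ (Option.some_injective _)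
      have c2 : S.card ≤ 2 ^ (D q).card := by
        refine card_words (D q) S ?_
        intro w hw w' hw' v hv
        rw [hS, Finset.mem_image] at hw hw'
        obtain ⟨q1, hq1, rfl⟩ := hw
        obtain ⟨q2, hq2, rfl⟩ := hw'
        rw [Finset.mem_filter] at hq1 hq2
        refine hdet q1 q2 hq1.2.1 hq2.2.1 (hq1.2.2.trans hq2.2.2.symm) v ?_
        have hDD : D q1 = D q := congrArg Prod.snd hq1.2.2
        rw [hDD]
        exact hv
      rw [c1]
      have c3 : 0 < S.card := by
        rw [Finset.card_pos]
        refine ⟨z q, ?_⟩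
        rw [hS]
        refine Finset.mem_image_of_mem _ ?_
        rw [Finset.mem_filter]
        exact ⟨Finset.mem_univ _, hq, rfl⟩
      have c4 : Real.log (S.card : ℝ) ≤ Real.log ((2 : ℝ) ^ (D q).card) := by
        refine Real.log_le_log (by exact_mod_cast c3) ?_
        exact_mod_cast c2
      rw [Real.log_pow] at c4
      linarith
  rw [ex_add, ex_mul] at s6
  have s7 : ex P' (fun q => ((D q).card : ℝ) - ((S1 b D q).card : ℝ)) =
      ex P' (fun q => ((D q).card : ℝ)) - ex P' (fun q => ((S1 b D q).card : ℝ)) := by
    unfold ex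
    rw [← Finset.sum_sub_distrib]
    exact Finset.sum_congr rfl fun ω _ => by ring
  rw [s7] at s6
  have s8 := hD.ent
  have s8' : Real.log 2 * ex P' (fun q => ((D q).card : ℝ)) -
      TC (uni Z hZ) (FJ Z U V J1ᶜ) V Subtype.val ≤ H P' (fun q => (A q, z q)) - H P' A := s8
  show _ ≤ H P' (fun q => (K q, X q)) - H P' K
  linarith

end Pool.Agent.TKN
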