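import Pool.Agent.TKN.St4

/-!
# TKN, module LOWF: the lower bound for fork programs on `n` bits
-/

set_option autoImplicit false

open Finset

namespace Pool.Agent.TKN

open Pool.Agent.Lib_helper20.SRO (RectFree Rigid Agrees)
open Pool.Agent.CFT (Der fixF)

namespace MLOWF

/-- the arithmetic of the parameters -/
lemma arith {k K n h s : ℕ} {c : ℝ} (hk : 1 ≤ k) (hn : 2 * (K + 1) ≤ n)
    (hc : c * ((K : ℝ) + 1) ≤ 1) (hs : (s : ℝ) ≤ c * n) (hh : h = k * n / (K + 1) + 1) :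
    k * n < h * (K + 1) ∧ (K + 1) * (2 * h + s) ≤ 4 * k * n := by
  have h1 : (K + 1) * s ≤ n := by
    have h2 : ((K : ℝ) + 1) * s ≤ n := by
      calc ((K : ℝ) + 1) * s ≤ ((K : ℝ) + 1) * (c * n) := by gcongr
        _ = c * ((K : ℝ) + 1) * n := by ring
        _ ≤ 1 * n := by gcongr
        _ = n := one_mul _
    exact_mod_cast h2
  have h3 : h * (K + 1) = k * n / (K + 1) * (K + 1) + (K + 1) := by rw [hh]; ring
  have h4 : k * n / (K + 1) * (K + 1) ≤ k * n := Nat.div_mul_le_self _ _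
  have h5 : k * n < k * n / (K + 1) * (K + 1) + (K + 1) := by
    have := Nat.lt_div_mul_add (a := k * n) (Nat.succ_pos K)
    exact this
  refine ⟨by omega, ?_⟩
  have h6 : (K + 1) * (2 * h + s) = 2 * (h * (K + 1)) + (K + 1) * s := by ring
  have h7 : n ≤ k * n := Nat.le_mul_of_pos_left n hk
  have h8 : 4 * k * n = 4 * (k * n) := by ring
  omega

end MLOWF

open MLOWF in
theorem t_LOWF (hFAM : S_FAM) (hCORE : S_CORE) : S_LOWF := by
  intro k hk
  obtain ⟨r, hr, δ, hδ, n0, hcore⟩ := hCORE (4 * k) (by omega)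
  obtain ⟨K, rfl⟩ : ∃ K, r = K + 1 := ⟨r - 1, by omega⟩
  have hK0 : (0 : ℝ) < (K : ℝ) + 1 := by positivity
  refine ⟨min (1 / ((K : ℝ) + 1)) (δ / ((K : ℝ) + 2)), by positivity, max n0 (2 * (K + 1)), ?_⟩
  set c : ℝ := min (1 / ((K : ℝ) + 1)) (δ / ((K : ℝ) + 2)) with hc
  have hc0 : 0 < c := by positivity
  have hc1 : c * ((K : ℝ) + 1) ≤ 1 := by
    have : c ≤ 1 / ((K : ℝ) + 1) := min_le_left _ _
    rwa [le_div_iff₀ hK0] at this
  have hc2 : c * ((K : ℝ) + 2) ≤ δ := by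
    have : c ≤ δ / ((K : ℝ) + 2) := min_le_right _ _
    rwa [le_div_iff₀ (by positivity)] at this
  intro n hn N _ G f m s B0 hs hG hacc hrig hB hm hmc hrf hcard
  have hn1 : n0 ≤ n := le_trans (le_max_left _ _) hn
  have hn2 : 2 * (K + 1) ≤ n := le_trans (le_max_right _ _) hn
  by_contra hlt
  rw [not_le] at hlt
  obtain ⟨a1, a2⟩ := arith (h := k * n / (K + 1) + 1) hk hn2 hc1 hs rfl
  obtain ⟨Z, U, hfam, hZ, hBZ⟩ := hFAM n N G f (k * n / (K + 1) + 1) s K (k * n) B0 hG hacc hB a1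
  have key : ∀ t : ℝ, 0 ≤ t → t ≤ (K : ℝ) + 2 → (2 : ℝ) ^ (c * n * t) ≤ Real.exp (δ * n) := by
    intro t ht0 ht
    rw [Real.rpow_def_of_pos (by norm_num)]
    apply Real.exp_le_exp.2
    have hl : Real.log 2 ≤ 1 := by linarith [Real.log_two_lt_d9]
    have hl0 : 0 ≤ Real.log 2 := Real.log_nonneg (by norm_num)
    have h1 : 0 ≤ c * n * t := by positivity
    calc Real.log 2 * (c * n * t) ≤ 1 * (c * n * t) := by gcongr
      _ ≤ c * n * ((K : ℝ) + 2) := by rw [one_mul]; gcongr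
      _ = c * ((K : ℝ) + 2) * n := by ring
      _ ≤ δ * n := by gcongr
  refine hcore n hn1 (2 * (k * n / (K + 1) + 1) + s) Z U f m hfam a2 hZ hrig hrf hm ?_ ?_
  · calc (m : ℝ) ≤ 2 ^ (c * n) := hmc
      _ = (2 : ℝ) ^ (c * n * 1) := by rw [mul_one]
      _ ≤ _ := key 1 zero_le_one (by linarith)
  · have h1 : (B0.card : ℝ) ≤ (2 : ℝ) ^ (c * n * ((K : ℝ) + 1)) * Z.card := by
      calc (B0.card : ℝ) ≤ ((Fintype.card N ^ (K + 1) * Z.card : ℕ) : ℝ) := by exact_mod_cast hBZ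
        _ = (Fintype.card N : ℝ) ^ (K + 1) * Z.card := by push_cast; ring
        _ ≤ ((2 : ℝ) ^ (c * n)) ^ (K + 1) * Z.card := by gcongr
        _ = (2 : ℝ) ^ (c * n * ((K : ℝ) + 1)) * Z.card := by
          rw [Real.rpow_mul (by norm_num) (c * n), ← Real.rpow_natCast]
          push_cast
          ring
    calc (2 : ℝ) ^ n ≤ 2 ^ (c * n) * B0.card := hcard
      _ ≤ 2 ^ (c * n) * ((2 : ℝ) ^ (c * n * ((K : ℝ) + 1)) * Z.card) := by gcongr
      _ = (2 : ℝ) ^ (c * n * ((K : ℝ) + 2)) * Z.card := by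
        rw [← mul_assoc, ← Real.rpow_add (by norm_num)]
        congr 2
        ring
      _ ≤ Real.exp (δ * n) * Z.card := by
        gcongr
        exact key _ (by positivity) le_rfl

end Pool.Agent.TKN
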