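import Pool.Agent.TKN.St4

/-!
# TKN, module MAT: the main theorem, from the core
-/

set_option autoImplicit false

namespace Pool.Agent.TKN

open Finset Pool.Agent.URG
open Pool.Agent.Lib_helper20.SRO (Agrees NBP)
open Pool.Agent.CFT (Der)
open Pool.Agent.STK (Prog ofNBP blocks_ofNBP readOnce_ofNBP computes_ofNBP)
open Pool.Agent.HPM (DecOs)
open Pool.Agent.HPM.Fn (Coord)
open Pool.Agent.UM (InPP)

namespace MMAT

variable {W : Type} [Fintype W] {n L : ℕ}

/-- The lower bound for programs with one stack. -/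
def HardTS (c : ℝ) (k N : ℕ) (f : (W ⊕ (Fin L × Fin n) → Bool) → Bool) : Prop :=
  ∀ (Γ Q : Type) [Fintype Q] (G : Prog (W ⊕ (Fin L × Fin n)) 1 Γ Q) (s : ℕ), (s : ℝ) ≤ c * N →
    G.Blocks s → TimeS G (k * N) → G.Computes f → (2 : ℝ) ^ (c * N) ≤ Fintype.card Q

/-- The lower bound for programs with forks. -/
def HardTC (c : ℝ) (k N : ℕ) (f : (W ⊕ (Fin L × Fin n) → Bool) → Bool) : Prop :=
  ∀ (Q : Type) [Fintype Q] (G : CFT.FP (W ⊕ (Fin L × Fin n)) Q) (s : ℕ), (s : ℝ) ≤ c * N →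
    G.Block s → TimeF G (k * N) → G.Computes f → (2 : ℝ) ^ (c * N) ≤ Fintype.card Q

omit [Fintype W] in
lemma timeF_mono {V Q : Type} {G : CFT.FP V Q} {T T' : ℕ} (h : TimeF G T) (hT : T ≤ T') :
    TimeF G T' := by
  intro b hb
  obtain ⟨l, hl, ha, hc⟩ := h b hb
  exact ⟨l, hl, ha, hc.trans hT⟩

omit [Fintype W] in
lemma timeF_toFP {V Γ Q : Type} {G : Prog V 1 Γ Q} {T : ℕ} (h : TimeS G T) :
    TimeF (STK.ONE.toFP G) T := by
  intro b hb
  obtain ⟨l, hl, ha, hc⟩ := h b ((STK.ONE.accepts_iff G b).1 hb)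
  exact ⟨l, (STK.ONE.full_iff G l).1 hl, ha, hc⟩

lemma hardTS_of (k : ℕ) (c0 : ℝ) (h0 : 0 < c0) (h1 : c0 ≤ 1) (hL : 1 ≤ L) (hn : 2 ≤ n)
    (hW : (Fintype.card W : ℝ) ≤ c0 / 4 * (n * L))
    (h12 : (12 * (n * L) : ℝ) ≤ 2 ^ (c0 / 4 * n)) (f : (W ⊕ (Fin L × Fin n) → Bool) → Bool)
    (hlow : CoreT (2 * k) c0 n L f) :
    HardTS (c0 / (16 * L)) k (Fintype.card (W ⊕ (Fin L × Fin n))) f := by
  have hLR : (1 : ℝ) ≤ L := by exact_mod_cast hL
  have hL0 : (0 : ℝ) < L := by linarith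
  have hnR : (2 : ℝ) ≤ n := by exact_mod_cast hn
  have hn0 : (0 : ℝ) < n := by linarith
  set N := Fintype.card (W ⊕ (Fin L × Fin n)) with hN
  have hNeq : (N : ℝ) = Fintype.card W + n * L := by
    rw [hN, card_all]
    push_cast
    ring
  have hW0 : (0 : ℝ) ≤ Fintype.card W := Nat.cast_nonneg _
  have hnL0 : (0 : ℝ) < n * L := by positivity
  have hN2 : (N : ℝ) ≤ 2 * (n * L) := by
    rw [hNeq]
    nlinarith
  have hN2' : N ≤ 2 * (n * L) := by exact_mod_cast hN2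
  have hT : k * N ≤ 2 * k * (n * L) := by
    calc k * N ≤ k * (2 * (n * L)) := Nat.mul_le_mul_left _ hN2'
      _ = 2 * k * (n * L) := by ring
  set c : ℝ := c0 / (16 * L) with hc
  have hc0 : 0 < c := by positivity
  have hcN : c * N ≤ c0 / 8 * n := by
    calc c * N ≤ c * (2 * (n * L)) := by gcongr
      _ = c0 / 8 * n := by
        rw [hc]
        field_simp
        ring
  intro Γ Q _ G s hs hB hG hcomp
  have hcompF : (STK.ONE.toFP G).Computes f :=
    fun b => (STK.ONE.accepts_iff G b).trans (hcomp b)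
  have hrs : (s : ℝ) ≤ c0 * n := hs.trans (hcN.trans (by nlinarith))
  have key : (2 : ℝ) ^ (c0 * n) ≤ Fintype.card (Q ⊕ (Q × Q)) :=
    hlow s hrs _ (STK.ONE.toFP G) (STK.ONE.block hB) hcompF (timeF_mono (timeF_toFP hG) hT)
  rw [STK.ONE.card_node] at key
  push_cast at key
  set q : ℝ := (Fintype.card Q : ℝ) with hq
  have hq0 : 0 ≤ q := Nat.cast_nonneg _
  by_contra hcon
  rw [not_le] at hcon
  have h3 : q < 2 ^ (c0 / 8 * n) :=
    hcon.trans_le (Real.rpow_le_rpow_of_exponent_le one_le_two hcN)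
  have h4 : (1 : ℝ) ≤ 2 ^ (c0 / 8 * n) := Real.one_le_rpow one_le_two (by positivity)
  have h5 : (2 : ℝ) ≤ 2 ^ (c0 / 4 * n) := by
    refine le_trans ?_ h12
    nlinarith
  have h6 : (2 : ℝ) ^ (c0 / 4 * n) = 2 ^ (c0 / 8 * n) * 2 ^ (c0 / 8 * n) := by
    rw [← Real.rpow_add (by norm_num)]
    congr 1
    ring
  have h7 : q + q ^ 2 < 2 * 2 ^ (c0 / 4 * n) := by
    rw [h6]
    nlinarith
  have h8 : (2 : ℝ) * 2 ^ (c0 / 4 * n) ≤ 2 ^ (c0 * n) := by
    calc (2 : ℝ) * 2 ^ (c0 / 4 * n) ≤ 2 ^ (c0 / 4 * n) * 2 ^ (c0 / 4 * n) := by gcongr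
      _ = 2 ^ (c0 / 2 * n) := by
        rw [← Real.rpow_add (by norm_num)]
        congr 1
        ring
      _ ≤ _ := Real.rpow_le_rpow_of_exponent_le one_le_two (by nlinarith)
  linarith

lemma hardTC_of (k : ℕ) (c0 : ℝ) (h0 : 0 < c0) (h1 : c0 ≤ 1) (hL : 1 ≤ L) (hn : 2 ≤ n)
    (hW : (Fintype.card W : ℝ) ≤ c0 / 4 * (n * L)) (f : (W ⊕ (Fin L × Fin n) → Bool) → Bool)
    (hlow : CoreT (2 * k) c0 n L f) :
    HardTC (c0 / (16 * L)) k (Fintype.card (W ⊕ (Fin L × Fin n))) f := by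
  have hLR : (1 : ℝ) ≤ L := by exact_mod_cast hL
  have hL0 : (0 : ℝ) < L := by linarith
  have hnR : (2 : ℝ) ≤ n := by exact_mod_cast hn
  have hn0 : (0 : ℝ) < n := by linarith
  set N := Fintype.card (W ⊕ (Fin L × Fin n)) with hN
  have hNeq : (N : ℝ) = Fintype.card W + n * L := by
    rw [hN, card_all]
    push_cast
    ring
  have hW0 : (0 : ℝ) ≤ Fintype.card W := Nat.cast_nonneg _
  have hnL0 : (0 : ℝ) < n * L := by positivity
  have hN2 : (N : ℝ) ≤ 2 * (n * L) := by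
    rw [hNeq]
    nlinarith
  have hN2' : N ≤ 2 * (n * L) := by exact_mod_cast hN2
  have hT : k * N ≤ 2 * k * (n * L) := by
    calc k * N ≤ k * (2 * (n * L)) := Nat.mul_le_mul_left _ hN2'
      _ = 2 * k * (n * L) := by ring
  set c : ℝ := c0 / (16 * L) with hc
  have hc0 : 0 < c := by positivity
  have hcN : c * N ≤ c0 / 8 * n := by
    calc c * N ≤ c * (2 * (n * L)) := by gcongr
      _ = c0 / 8 * n := by
        rw [hc]
        field_simp
        ring
  intro Q _ G s hs hB hG hcomp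
  have hrs : (s : ℝ) ≤ c0 * n := hs.trans (hcN.trans (by nlinarith))
  refine (Real.rpow_le_rpow_of_exponent_le one_le_two (hcN.trans (by nlinarith) :
    c * N ≤ c0 * n)).trans ?_
  exact hlow s hrs _ G hB hcomp (timeF_mono hG hT)

end MMAT

open MMAT in
theorem t_MAT : S_COT → S_MAT := by
  intro hCOT k hk
  obtain ⟨c0, h0, h1, n2, hlow⟩ := hCOT (2 * k) (by omega)
  obtain ⟨e, L, he, hL, n1, hnum⟩ := t_num c0 h0 h1
  have hLR : (1 : ℝ) ≤ L := by exact_mod_cast hL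
  refine ⟨c0 / (16 * L), by positivity, e, L, 6 * 4 ^ e + 18, n1 + n2, ?_⟩
  intro n hn
  obtain ⟨hn2, hW, hNum, hbits, hdeg, hrob, h12⟩ := hnum n (by omega)
  have hNum0 : Num c0 n e L 0 := hNum 0 (by
    push_cast
    positivity)
  refine ⟨coord_nonempty n e, ?_, ?_⟩
  · intro β N hN
    obtain ⟨hA, -, -⟩ := hlow n (by omega) e L β hNum0
    have hW' : ((Fintype.card (VarX n e) : ℕ) : ℝ) ≤ c0 / 4 * (n * L) := by
      refine le_trans ?_ hW
      push_cast
      linarith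
    have hNle : n * L ≤ N := by
      rw [hN, card_all]
      omega
    have hN2 : N ≤ 2 * (n * L) := by
      have e1 : (N : ℝ) ≤ 2 * (n * L) := by
        rw [hN, card_all]
        push_cast
        have : (0 : ℝ) ≤ n * L := by positivity
        nlinarith
      exact_mod_cast e1
    have hH : HardTS (c0 / (16 * L)) k N (goodA (L := L) β) := by
      rw [hN]
      exact hardTS_of k c0 h0 h1 hL hn2 hW' h12 _ hA
    have hC : HardTC (c0 / (16 * L)) k N (goodA (L := L) β) := by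
      rw [hN]
      exact hardTC_of k c0 h0 h1 hL hn2 hW' _ hA
    refine ⟨⟨hNle, hN2⟩, ?_, fun Γ Q _ G s hs hB hG hcomp => hH Γ Q G s hs hB hG hcomp,
      fun Q _ G s hs hB hG hcomp => hC Q G s hs hB hG hcomp⟩
    obtain ⟨Q, _, G, hG1, hG2, hG3⟩ := t_rob n e L β
    refine ⟨Q, inferInstance, ofNBP 0 Empty G, blocks_ofNBP G, readOnce_ofNBP.2 hG1,
      computes_ofNBP.2 hG2, ?_⟩
    rw [hG3]
    exact hrob.trans (Nat.pow_le_pow_left hNle _)
  · intro β N hN
    obtain ⟨-, hF1, hF2⟩ := hlow n (by omega) e L β hNum0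
    have hcW : Fintype.card (VarX n e ⊕ Unit) = Fintype.card (VarX n e) + 1 := by
      rw [Fintype.card_sum, Fintype.card_unit]
    have hW' : ((Fintype.card (VarX n e ⊕ Unit) : ℕ) : ℝ) ≤ c0 / 4 * (n * L) := by
      rw [hcW]
      exact hW
    have hNle : n * L ≤ N := by
      rw [hN, card_all]
      omega
    have hN2 : N ≤ 2 * (n * L) := by
      have e1 : (N : ℝ) ≤ 2 * (n * L) := by
        rw [hN, card_all]
        push_cast
        have : (0 : ℝ) ≤ n * L := by positivity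
        nlinarith
      exact_mod_cast e1
    have hH1 : HardTS (c0 / (16 * L)) k N (goodF (L := L) β) := by
      rw [hN]
      exact hardTS_of k c0 h0 h1 hL hn2 hW' h12 _ hF1
    have hH2 : HardTS (c0 / (16 * L)) k N (fun v : VarG n e L → Bool => !goodF β v) := by
      rw [hN]
      exact hardTS_of k c0 h0 h1 hL hn2 hW' h12 _ hF2
    refine ⟨⟨hNle, hN2⟩, ?_, ?_⟩
    · intro Γ Q _ G s hs hB hG hcomp
      rcases hcomp with hcomp | hcomp
      · exact hH1 Γ Q G s hs hB hG hcomp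
      · exact hH2 Γ Q G s hs hB hG hcomp
    · obtain ⟨V, _, hV, hP⟩ := t_ppu n e L hL β
      refine ⟨V, inferInstance, bits n e L, ?_, ?_, hP⟩
      · rw [hV]
        exact hdeg.trans (Nat.pow_le_pow_left hNle _)
      · exact hbits.trans (Nat.pow_le_pow_left hNle _)

end Pool.Agent.TKN
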