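import Pool.Agent.TKN.St1

/-!
# Project TKN: product noise (`S_NOI`)
-/

set_option autoImplicit false

open Finset
open scoped Classical

namespace Pool.Agent.TKN.MNOI

open NCE

/-- the weight of one noise bit -/
noncomputable def wt (x : ℝ) (b : Bool) : ℝ := if b = true then x else 1 - x

theorem wt_true (x : ℝ) : wt x true = x := by simp [wt]

theorem wt_false (x : ℝ) : wt x false = 1 - x := by simp [wt]

theorem wt_nonneg {x : ℝ} (h0 : 0 ≤ x) (h1 : x ≤ 1) (b : Bool) : 0 ≤ wt x b := by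
  cases b
  · rw [wt_false]; linarith
  · rw [wt_true]; exact h0

/-- the weight of a noise vector -/
noncomputable def K {n : ℕ} (e : Fin n → ℝ) (ζ : Fin n → Bool) : ℝ := ∏ w, wt (e w) (ζ w)

theorem K_nonneg {n : ℕ} {e : Fin n → ℝ} (he : ∀ v, 0 ≤ e v ∧ e v ≤ 1) (ζ : Fin n → Bool) :
    0 ≤ K e ζ := Finset.prod_nonneg fun w _ => wt_nonneg (he w).1 (he w).2 _

theorem sum_K_fun {n : ℕ} (F : Fin n → Bool → ℝ) :
    ∑ ζ : Fin n → Bool, ∏ w, F w (ζ w) = ∏ w, (F w true + F w false) := by
  have h := Finset.prod_univ_sum (fun _ : Fin n => (Finset.univ : Finset Bool)) F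
  rw [Fintype.piFinset_univ] at h
  rw [← h]
  refine Finset.prod_congr rfl fun w _ => ?_
  rw [Fintype.sum_bool]

theorem sum_K {n : ℕ} (e : Fin n → ℝ) : ∑ ζ : Fin n → Bool, K e ζ = 1 := by
  unfold K
  rw [sum_K_fun (fun w b => wt (e w) b)]
  refine Finset.prod_eq_one fun w _ => ?_
  rw [wt_true, wt_false]; ring

theorem sum_K_mul {n : ℕ} (e : Fin n → ℝ) (v : Fin n) (g : Bool → ℝ) :
    ∑ ζ : Fin n → Bool, K e ζ * g (ζ v) = e v * g true + (1 - e v) * g false := by
  have h1 : ∀ ζ : Fin n → Bool, K e ζ * g (ζ v) =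
      ∏ w, (wt (e w) (ζ w) * (if w = v then g (ζ w) else 1)) := by
    intro ζ
    rw [Finset.prod_mul_distrib, Finset.prod_ite_eq' Finset.univ v (fun w => g (ζ w)),
      if_pos (Finset.mem_univ v)]
    rfl
  rw [Finset.sum_congr rfl fun ζ _ => h1 ζ,
    sum_K_fun (fun w b => wt (e w) b * (if w = v then g b else 1))]
  have h2 : ∀ w : Fin n, (wt (e w) true * (if w = v then g true else 1) +
      wt (e w) false * (if w = v then g false else 1)) =
      if w = v then (e w * g true + (1 - e w) * g false) else 1 := by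
    intro w
    rw [wt_true, wt_false]
    by_cases hw : w = v
    · simp only [hw, if_true]
    · simp only [hw, if_false]; ring
  rw [Finset.prod_congr rfl fun w _ => h2 w,
    Finset.prod_ite_eq' Finset.univ v (fun w => e w * g true + (1 - e w) * g false),
    if_pos (Finset.mem_univ v)]

theorem K_log {n : ℕ} (e : Fin n → ℝ) (ζ : Fin n → Bool) (a : ℝ) :
    a * K e ζ * (- Real.log (a * K e ζ)) =
      a * (- Real.log a) * K e ζ + a * ∑ v, K e ζ * (- Real.log (wt (e v) (ζ v))) := by
  by_cases ha : a = 0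
  · simp [ha]
  by_cases hK : K e ζ = 0
  · simp [hK]
  have hw : ∀ w ∈ (Finset.univ : Finset (Fin n)), wt (e w) (ζ w) ≠ 0 := by
    intro w hw h0
    exact hK (Finset.prod_eq_zero hw h0)
  have hl : Real.log (K e ζ) = ∑ v, Real.log (wt (e v) (ζ v)) := by
    unfold K
    exact Real.log_prod hw
  rw [Real.log_mul ha hK, ← Finset.mul_sum, Finset.sum_neg_distrib, ← hl]
  ring

theorem sum_K_log {n : ℕ} (e : Fin n → ℝ) (v : Fin n) :
    ∑ ζ : Fin n → Bool, K e ζ * (- Real.log (wt (e v) (ζ v))) = Real.binEntropy (e v) := by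
  rw [sum_K_mul e v (fun b => - Real.log (wt (e v) b)), wt_true, wt_false, Real.binEntropy,
    Real.log_inv, Real.log_inv]

end Pool.Agent.TKN.MNOI

namespace Pool.Agent.TKN

open NCE MNOI

theorem t_NOI : S_NOI := by
  intro Ω _ P n e he
  have hone : ∑ q : Ω × (Fin n → Bool), P.p q.1 * K (e q.1) q.2 = 1 := by
    rw [Fintype.sum_prod_type]
    have : ∀ ω : Ω, ∑ ζ : Fin n → Bool, P.p ω * K (e ω) ζ = P.p ω := by
      intro ω
      rw [← Finset.mul_sum, sum_K, mul_one]
    rw [Finset.sum_congr rfl fun ω _ => this ω]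
    exact P.one
  let P' : FP (Ω × (Fin n → Bool)) :=
    { p := fun q => P.p q.1 * K (e q.1) q.2
      nn := fun q => mul_nonneg (P.nn _) (K_nonneg (he _) _)
      one := hone }
  have hp : ∀ q, P'.p q = P.p q.1 * K (e q.1) q.2 := fun q => rfl
  refine ⟨Ω × (Fin n → Bool), inferInstance, P', Prod.fst, Prod.snd, ?_, ?_, ?_, ?_⟩
  · intro x
    unfold pr
    rw [Fintype.sum_prod_type]
    refine Finset.sum_congr rfl fun ω _ => ?_
    by_cases h : ω = x
    · simp only [h, id, if_true, hp]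
      rw [← Finset.mul_sum, sum_K, mul_one]
    · simp only [h, id, if_false, Finset.sum_const_zero]
  · intro q hq
    rw [hp] at hq
    refine ⟨left_ne_zero_of_mul hq, fun v => ?_⟩
    have hK := right_ne_zero_of_mul hq
    have hw : wt (e q.1 v) (q.2 v) ≠ 0 := by
      intro h0
      exact hK (Finset.prod_eq_zero (Finset.mem_univ v) h0)
    refine ⟨fun h => ?_, fun h => ?_⟩
    · rw [h, wt_true] at hw; exact hw
    · rw [h, wt_false] at hw
      intro h1
      exact hw (by rw [h1]; ring)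
  · intro v f
    unfold ex
    rw [Fintype.sum_prod_type]
    refine Finset.sum_congr rfl fun ω _ => ?_
    beta_reduce
    rw [← sum_K_mul (e ω) v (f ω), Finset.mul_sum]
    refine Finset.sum_congr rfl fun ζ _ => ?_
    rw [hp]; ring
  · have h1 : ∀ q : Ω × (Fin n → Bool),
        pr P' (fun q : Ω × (Fin n → Bool) => (q.1, q.2)) (q.1, q.2) = P'.p q := by
      intro q
      unfold pr
      simp only [Prod.mk.eta]
      rw [Finset.sum_ite_eq' Finset.univ q (fun ω => P'.p ω), if_pos (Finset.mem_univ q)]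
    have h2 : ∀ ω : Ω, pr P id ω = P.p ω := by
      intro ω
      unfold pr
      simp only [id]
      rw [Finset.sum_ite_eq' Finset.univ ω (fun ω => P.p ω), if_pos (Finset.mem_univ ω)]
    unfold H
    unfold ex
    simp only [h1, id, hp]
    have h2' : ∀ ω : Ω, pr P (fun x => x) ω = P.p ω := h2
    have h3 : ∀ ω : Ω, pr P id ω = P.p ω := h2
    simp only [h3]
    rw [Fintype.sum_prod_type]
    have h4 : ∀ ω : Ω, ∑ ζ : Fin n → Bool, P.p ω * K (e ω) ζ * (- Real.log (P.p ω * K (e ω) ζ)) =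
        P.p ω * (- Real.log (P.p ω)) + ∑ v, P.p ω * Real.binEntropy (e ω v) := by
      intro ω
      rw [Finset.sum_congr rfl fun ζ _ => K_log (e ω) ζ (P.p ω), Finset.sum_add_distrib,
        ← Finset.mul_sum, sum_K, mul_one, ← Finset.mul_sum, Finset.sum_comm]
      rw [Finset.sum_congr rfl fun v _ => sum_K_log (e ω) v, Finset.mul_sum]
    rw [Finset.sum_congr rfl fun ω _ => h4 ω, Finset.sum_add_distrib]
    congr 1
    exact Finset.sum_comm

end Pool.Agent.TKN
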