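import Pool.Agent.TKN.St2

/-!
# TKN, module NUM: the recursion (helper45)

The recursion of the averages of the undetermined bits: one-step induction with the lower bound
`exp (- D (log (r / (r - i))) ^ 25)`.
-/

set_option autoImplicit false

open Filter Topology

namespace Pool.Agent.TKN.NUMx

lemma exists_R (k1 C D : ℝ) (hk : 1 ≤ k1) (hC : 0 < C) (hD : 0 < D) :
    ∃ R : ℕ, 8 * k1 ≤ R ∧ 4 * k1 * C ≤ R ∧
      C * (1 + D * Real.log R ^ 25) * eta (4 * k1 / R) ≤ 1 := by
  have h1 : ∀ n : ℕ, Tendsto (fun x : ℝ => Real.log x ^ n / x) atTop (𝓝 0) := fun n =>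
    (Real.isLittleO_pow_log_id_atTop (n := n)).tendsto_div_nhds_zero
  have h2 : Tendsto (fun x : ℝ => C * (4 * k1) * (Real.log x ^ 0 / x + Real.log x ^ 1 / x +
      D * (Real.log x ^ 25 / x) + D * (Real.log x ^ 26 / x))) atTop (𝓝 0) := by
    have := (((h1 0).add (h1 1)).add ((h1 25).const_mul D)).add ((h1 26).const_mul D)
    have := this.const_mul (C * (4 * k1))
    simpa using this
  have h3 := (h2.comp tendsto_natCast_atTop_atTop).eventually (ge_mem_nhds (show (0 : ℝ) < 1 by norm_num))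
  have h4 : ∀ᶠ R : ℕ in atTop, 8 * k1 ≤ (R : ℝ) :=
    tendsto_natCast_atTop_atTop.eventually (eventually_ge_atTop (8 * k1))
  have h4' : ∀ᶠ R : ℕ in atTop, 4 * k1 * C ≤ (R : ℝ) :=
    tendsto_natCast_atTop_atTop.eventually (eventually_ge_atTop (4 * k1 * C))
  obtain ⟨R, ⟨h5, h6⟩, h6'⟩ := ((h3.and h4).and h4').exists
  refine ⟨R, h6, h6', le_trans ?_ h5⟩
  have hR : (0 : ℝ) < R := by linarith
  have hR1 : (1 : ℝ) ≤ R := by linarith
  have hl : 0 ≤ Real.log R := Real.log_nonneg hR1
  have h7 : 1 + Real.log (1 / (4 * k1 / R)) ≤ 1 + Real.log R := by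
    have : Real.log (1 / (4 * k1 / R)) ≤ Real.log R := by
      apply Real.log_le_log (by positivity)
      rw [one_div_div, div_le_iff₀ (by positivity)]
      nlinarith
    linarith
  unfold eta
  have h8 : C * (1 + D * Real.log R ^ 25) * (4 * k1 / R * (1 + Real.log (1 / (4 * k1 / R)))) ≤
      C * (1 + D * Real.log R ^ 25) * (4 * k1 / R * (1 + Real.log R)) := by
    gcongr
  refine h8.trans (le_of_eq ?_)
  simp only [Function.comp]
  field_simp
  ring

lemma one_sub_ge (y : ℝ) (h0 : 0 ≤ y) (h1 : y ≤ 1 / 2) : Real.exp (-(2 * y)) ≤ 1 - y := by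
  have h2 : 1 + 2 * y ≤ Real.exp (2 * y) := by
    have := Real.add_one_le_exp (2 * y); linarith
  rw [Real.exp_neg, inv_le_comm₀ (Real.exp_pos _) (by linarith)]
  refine le_trans ?_ h2
  rw [inv_le_iff_one_le_mul₀ (by linarith)]
  nlinarith

theorem main (k1 C : ℝ) (hk : 1 ≤ k1) (hC : 0 < C) :
    ∃ (r m0 : ℕ) (mu xi : ℝ), 0 < m0 ∧ m0 < r ∧ 0 < mu ∧ mu ≤ 1 ∧ 0 < xi ∧
      C * (1 + Real.log (1 / mu)) * eta (4 * k1 * m0 / r) ≤ 1 ∧ 4 * k1 * m0 / r ≤ 1 / C ∧
      ∀ o : ℕ → ℝ, 2 / 5 ≤ o 0 →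
        (∀ i, i < r - m0 → ∀ c0 : ℕ,
          o i - 12 / ((r : ℝ) - i) * (c0 * o i + 4 * k1 * (((r : ℝ) - i) / r) ^ c0) - 8 * xi ≤
            o (i + 1)) → mu ≤ o (r - m0) := by
  -- constants
  set K : ℝ := Real.log (4 * k1) with hK
  have hK0 : 0 < K := Real.log_pos (by linarith)
  set l0 : ℝ := 1 / (400 * k1) with hl0
  have hl0p : 0 < l0 := by positivity
  set D : ℝ := 24 * K / l0 ^ 25 + 72 / l0 ^ 24 + 3 / l0 ^ 25 with hDdef
  have hD0 : 0 < D := by positivity
  have hDl : ∀ l : ℝ, l0 ≤ l → 24 * K + 72 * l + 3 ≤ D * l ^ 25 := by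
    intro l hl
    have hl' : 0 < l := lt_of_lt_of_le hl0p hl
    have e1 : l0 ^ 25 ≤ l ^ 25 := by gcongr
    have e2 : l0 ^ 24 ≤ l ^ 24 := by gcongr
    have e3 : 24 * K ≤ 24 * K / l0 ^ 25 * l ^ 25 := by
      rw [div_mul_eq_mul_div, le_div_iff₀ (by positivity)]
      gcongr
    have e4 : 72 * l ≤ 72 / l0 ^ 24 * l ^ 25 := by
      rw [div_mul_eq_mul_div, le_div_iff₀ (by positivity)]
      calc 72 * l * l0 ^ 24 ≤ 72 * l * l ^ 24 := by gcongr
        _ = 72 * l ^ 25 := by ring
    have e5 : 3 ≤ 3 / l0 ^ 25 * l ^ 25 := by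
      rw [div_mul_eq_mul_div, le_div_iff₀ (by positivity)]
      gcongr
    calc 24 * K + 72 * l + 3 ≤ 24 * K / l0 ^ 25 * l ^ 25 + 72 / l0 ^ 24 * l ^ 25 +
          3 / l0 ^ 25 * l ^ 25 := by linarith
      _ = D * l ^ 25 := by rw [hDdef]; ring
  obtain ⟨R, hR8, hR4, hRC⟩ := exists_R k1 C D hk hC hD0
  have hR8' : (8 : ℝ) ≤ R := by linarith
  have hRp : (0 : ℝ) < R := by linarith
  have hlR : 0 ≤ Real.log R := Real.log_nonneg (by linarith)
  -- m0
  obtain ⟨m0, hm0⟩ := exists_nat_ge (24 * (D * Real.log R ^ 24 + K / l0 + 3) + 500 * k1)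
  have hm0p : (0 : ℝ) < m0 := by
    have : 0 ≤ 24 * (D * Real.log R ^ 24 + K / l0 + 3) := by positivity
    linarith
  have hm0a : 24 * (D * Real.log R ^ 24 + K / l0 + 3) ≤ m0 := by linarith
  have hm0b : 500 * k1 ≤ m0 := by
    have : 0 ≤ 24 * (D * Real.log R ^ 24 + K / l0 + 3) := by positivity
    linarith
  have hm0n : 0 < m0 := by exact_mod_cast hm0p
  set r : ℕ := R * m0 with hr
  have hrR : (r : ℝ) = R * m0 := by rw [hr]; push_cast; ring
  have hrp : (0 : ℝ) < r := by rw [hrR]; positivity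
  have hr8 : 8 * (m0 : ℝ) ≤ r := by rw [hrR]; gcongr
  have hr4000 : 4000 * k1 ≤ r := by linarith
  have hm0r : m0 < r := by
    have : (m0 : ℝ) < r := by linarith
    exact_mod_cast this
  set mu : ℝ := Real.exp (-(D * Real.log R ^ 25)) with hmu
  have hmu0 : 0 < mu := Real.exp_pos _
  have hmu1 : mu ≤ 1 := by
    rw [hmu, Real.exp_le_one_iff]
    have : 0 ≤ D * Real.log R ^ 25 := by positivity
    linarith
  set xi : ℝ := mu / (80 * r) with hxi
  have hxi0 : 0 < xi := by positivity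
  have hxir : 8 * xi = mu / (10 * r) := by rw [hxi]; field_simp; ring
  have hratio : ∀ a : ℝ, a * m0 / r = a / R := by
    intro a
    rw [hrR]
    field_simp
  refine ⟨r, m0, mu, xi, hm0n, hm0r, hmu0, hmu1, hxi0, ?_, ?_, ?_⟩
  · rw [hratio, hmu, one_div, Real.log_inv, Real.log_exp, neg_neg]
    exact hRC
  · rw [hratio, div_le_div_iff₀ hRp hC, one_mul]
    exact hR4
  intro o ho0 hstep
  -- first stage
  obtain ⟨i0, hi0a, hi0b⟩ : ∃ i0 : ℕ, (r : ℝ) * l0 ≤ i0 ∧ (i0 : ℝ) ≤ r * l0 + 1 :=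
    ⟨⌈(r : ℝ) * l0⌉₊, Nat.le_ceil _, (Nat.ceil_lt_add_one (by positivity)).le⟩
  have hl0s : l0 ≤ 1 / 400 := by
    rw [hl0]
    apply one_div_le_one_div_of_le (by norm_num)
    linarith
  have hi0c : (i0 : ℝ) ≤ r / 100 := by nlinarith
  have hi0d : i0 < r - m0 := by
    have : (i0 : ℝ) + m0 < r := by linarith
    have : i0 + m0 < r := by exact_mod_cast this
    omega
  have hfirst : ∀ i, i ≤ i0 → 2 / 5 - i * (48 * k1 / ((r : ℝ) - i0) + 8 * xi) ≤ o i := by
    intro i
    induction i with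
    | zero => intro _; simpa using ho0
    | succ i ih =>
      intro hi
      have h1 := ih (by omega)
      have h2 := hstep i (by omega) 0
      have h3 : (i : ℝ) ≤ i0 := by exact_mod_cast (by omega : i ≤ i0)
      have h4 : 12 / ((r : ℝ) - i) * (((0 : ℕ) : ℝ) * o i + 4 * k1 * (((r : ℝ) - i) / r) ^ 0) ≤
          48 * k1 / ((r : ℝ) - i0) := by
        rw [pow_zero, Nat.cast_zero, zero_mul, zero_add, mul_one, div_mul_eq_mul_div]
        rw [show 12 * (4 * k1) = 48 * k1 by ring]
        have : (0 : ℝ) < r - i0 := by linarith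
        gcongr
      push_cast
      linarith
  have hstart : 1 / 10 ≤ o i0 := by
    have h1 := hfirst i0 le_rfl
    have h2 : (i0 : ℝ) * (48 * k1 / ((r : ℝ) - i0)) ≤ 1 / 5 := by
      rw [mul_div_assoc', div_le_iff₀ (by linarith)]
      have e1 : k1 * (r * l0) = r / 400 := by rw [hl0]; field_simp
      nlinarith
    have h3 : (i0 : ℝ) * (8 * xi) ≤ 1 / 10 := by
      rw [hxir, mul_div_assoc', div_le_iff₀ (by positivity)]
      have : (i0 : ℝ) * mu ≤ r * 1 := by
        have : (i0 : ℝ) ≤ r := by linarith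
        gcongr
      linarith
    have h4 : (i0 : ℝ) * (48 * k1 / ((r : ℝ) - i0) + 8 * xi) =
      i0 * (48 * k1 / ((r : ℝ) - i0)) + i0 * (8 * xi) := by ring
    linarith
  -- the main induction
  have hmain : ∀ i, i0 ≤ i → i ≤ r - m0 →
      Real.exp (-(D * Real.log (r / ((r : ℝ) - i)) ^ 25)) ≤ o i := by
    intro i hi
    induction i, hi using Nat.le_induction with
    | base =>
      intro _
      refine le_trans ?_ hstart
      have h1 : l0 ≤ Real.log (r / ((r : ℝ) - i0)) := by
        have e1 : Real.log (r / ((r : ℝ) - i0)) = -Real.log (((r : ℝ) - i0) / r) := by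
          rw [← Real.log_inv, inv_div]
        have e2 := Real.log_le_sub_one_of_pos (x := ((r : ℝ) - i0) / r)
          (div_pos (by linarith) hrp)
        have e3 : ((r : ℝ) - i0) / r - 1 = -(i0 / r) := by field_simp; ring
        have e4 : l0 ≤ i0 / r := by rw [le_div_iff₀ hrp]; linarith
        linarith
      have h2 := hDl _ h1
      have h3 : Real.exp (-(D * Real.log (r / ((r : ℝ) - i0)) ^ 25)) ≤ Real.exp (-3) := by
        rw [Real.exp_le_exp]
        linarith
      refine h3.trans ?_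
      have e5 : (10 : ℝ) ≤ Real.exp 3 := by
        have e6 : Real.exp 3 = Real.exp 1 ^ 3 := by rw [← Real.exp_nat_mul]; norm_num
        rw [e6]
        have e7 := Real.exp_one_gt_d9
        have e8 : (2.7182818283 : ℝ) ^ 3 ≤ Real.exp 1 ^ 3 := by gcongr
        norm_num at e8 ⊢
        linarith
      rw [Real.exp_neg, inv_le_comm₀ (Real.exp_pos _) (by norm_num)]
      norm_num
      exact e5
    | succ i hi ih =>
      intro hir
      have hir' : i < r - m0 := by omega
      have hprev := ih (by omega)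
      have hst := hstep i hir'
      have hi' : (i0 : ℝ) ≤ i := by exact_mod_cast hi
      set p : ℝ := (r : ℝ) - i with hp
      have hpm : (m0 : ℝ) + 1 ≤ p := by
        have h1 : i + m0 + 1 ≤ r := by omega
        have h2 : (i : ℝ) + m0 + 1 ≤ r := by exact_mod_cast h1
        rw [hp]; linarith
      have hpp : 0 < p := by linarith
      have hp1 : 0 < p - 1 := by linarith
      have hpr : p ≤ r := by rw [hp]; have : (0 : ℝ) ≤ i := Nat.cast_nonneg i; linarith
      set l : ℝ := Real.log (r / p) with hl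
      have hll0 : l0 ≤ l := by
        have e1 : l = -Real.log (p / r) := by
          rw [hl, ← Real.log_inv, inv_div]
        have e2 := Real.log_le_sub_one_of_pos (x := p / r) (div_pos hpp hrp)
        have e3 : p / r - 1 = -(i / r) := by rw [hp]; field_simp; ring
        have e4 : l0 ≤ i / r := by rw [le_div_iff₀ hrp]; linarith
        linarith
      have hlp : 0 < l := lt_of_lt_of_le hl0p hll0
      have hlR' : l ≤ Real.log R := by
        rw [hl]
        apply Real.log_le_log (by positivity)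
        rw [div_le_iff₀ hpp, hrR]
        have : (R : ℝ) * m0 ≤ R * p := by
          have : (m0 : ℝ) ≤ p := by linarith
          gcongr
        exact this
      set Φ : ℝ := D * l ^ 25 with hΦ
      have hΦ0 : 0 ≤ Φ := by positivity
      -- the choice of c0
      set c0 : ℕ := ⌈(Φ + K) / l⌉₊ with hc0
      have hc1 : (Φ + K) / l ≤ c0 := Nat.le_ceil _
      have hc2 : (c0 : ℝ) ≤ (Φ + K) / l + 1 := (Nat.ceil_lt_add_one (by positivity)).le
      have hΦl : Φ / l = D * l ^ 24 := by rw [hΦ]; field_simp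
      have hc3 : (c0 : ℝ) ≤ D * l ^ 24 + K / l + 1 := by
        rw [add_div, hΦl] at hc2
        exact hc2
      have hpow : (p / r) ^ c0 ≤ Real.exp (-Φ) / (4 * k1) := by
        have e1 : p / r = Real.exp (-l) := by
          rw [hl, ← Real.log_inv, inv_div, Real.exp_log (div_pos hpp hrp)]
        have e2 : Real.exp (-Φ) / (4 * k1) = Real.exp (-(Φ + K)) := by
          rw [neg_add, Real.exp_add, Real.exp_neg K, hK, Real.exp_log (by linarith)]
          rfl
        rw [e1, e2, ← Real.exp_nat_mul, Real.exp_le_exp]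
        have : Φ + K ≤ c0 * l := by rwa [div_le_iff₀ hlp] at hc1
        linarith
      have h1 := hst c0
      have h2 : 4 * k1 * (p / r) ^ c0 ≤ Real.exp (-Φ) := by
        calc 4 * k1 * (p / r) ^ c0 ≤ 4 * k1 * (Real.exp (-Φ) / (4 * k1)) := by gcongr
          _ = Real.exp (-Φ) := by field_simp
      have h3 : 8 * xi ≤ 12 / p * Real.exp (-Φ) := by
        have e1 : mu ≤ Real.exp (-Φ) := by
          rw [hmu, Real.exp_le_exp, hΦ]
          have : l ^ 25 ≤ Real.log R ^ 25 := by gcongr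
          nlinarith
        have e2 : mu / (10 * r) ≤ 12 / p * mu := by
          rw [div_mul_eq_mul_div, div_le_div_iff₀ (by positivity) hpp]
          nlinarith
        rw [hxir]
        refine e2.trans ?_
        gcongr
      have hy0 : 12 * ((c0 : ℝ) + 2) / p ≤ 1 / 2 := by
        rw [div_le_iff₀ hpp]
        have e1 : l ^ 24 ≤ Real.log R ^ 24 := by gcongr
        have e2 : K / l ≤ K / l0 := by gcongr
        have e3 : D * l ^ 24 ≤ D * Real.log R ^ 24 := by gcongr
        linarith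
      have hy1 : 0 ≤ 12 * ((c0 : ℝ) + 2) / p := by positivity
      have h4 : Real.exp (-Φ) * (1 - 12 * ((c0 : ℝ) + 2) / p) ≤ o (i + 1) := by
        have e0 : 0 ≤ 1 - 12 * (c0 : ℝ) / p := by
          have : 12 * ((c0 : ℝ) + 2) / p = 12 * (c0 : ℝ) / p + 24 / p := by ring
          have : 0 < 24 / p := by positivity
          linarith
        have e1 : Real.exp (-Φ) * (1 - 12 * (c0 : ℝ) / p) ≤ o i * (1 - 12 * (c0 : ℝ) / p) := by
          gcongr
        have e2 : 12 / p * (c0 * o i + 4 * k1 * (p / r) ^ c0) ≤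
            12 / p * (c0 * o i + Real.exp (-Φ)) := by gcongr
        have e3 : Real.exp (-Φ) * (1 - 12 * ((c0 : ℝ) + 2) / p) =
          Real.exp (-Φ) * (1 - 12 * (c0 : ℝ) / p) - 12 / p * Real.exp (-Φ) -
            12 / p * Real.exp (-Φ) := by ring
        have e4 : 12 / p * (c0 * o i + Real.exp (-Φ)) =
          o i - o i * (1 - 12 * (c0 : ℝ) / p) + 12 / p * Real.exp (-Φ) := by ring
        linarith
      refine le_trans ?_ h4
      have h5 := one_sub_ge _ hy1 hy0
      refine le_trans ?_ (mul_le_mul_of_nonneg_left h5 (Real.exp_pos (-Φ)).le)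
      rw [← Real.exp_add, Real.exp_le_exp]
      -- the increment of the exponent
      set l' : ℝ := Real.log (r / ((r : ℝ) - ((i + 1 : ℕ) : ℝ))) with hl'
      have hl'l : l + 1 / p ≤ l' := by
        have e1 : (r : ℝ) - ((i + 1 : ℕ) : ℝ) = p - 1 := by rw [hp]; push_cast; ring
        have e2 : r / (p - 1) = r / p * (p / (p - 1)) := by field_simp
        rw [hl', e1, e2, Real.log_mul (by positivity) (by positivity), ← hl]
        have e3 : Real.log (p / (p - 1)) = -Real.log ((p - 1) / p) := by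
          rw [← Real.log_inv, inv_div]
        have e4 := Real.log_le_sub_one_of_pos (x := (p - 1) / p) (by positivity)
        have e5 : (p - 1) / p - 1 = -(1 / p) := by field_simp; ring
        linarith
      have h6 : l ^ 25 + 25 * l ^ 24 * (1 / p) ≤ l' ^ 25 := by
        have e1 : (l + 1 / p) ^ 25 ≤ l' ^ 25 := by gcongr
        refine le_trans ?_ e1
        have e2 := one_add_mul_le_pow (a := 1 / (p * l)) (by
          have : 0 < 1 / (p * l) := by positivity
          linarith) 25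
        have e3 : (l + 1 / p) ^ 25 = l ^ 25 * (1 + 1 / (p * l)) ^ 25 := by
          rw [← mul_pow]; congr 1; field_simp
        have e4 : l ^ 25 + 25 * l ^ 24 * (1 / p) = l ^ 25 * (1 + 25 * (1 / (p * l))) := by
          field_simp
        rw [e3, e4]
        push_cast at e2
        gcongr
      have h7 : 24 * ((c0 : ℝ) + 2) ≤ 25 * (D * l ^ 24) := by
        have e1 := hDl l hll0
        have e2 : 24 * (K / l) + 72 ≤ D * l ^ 24 := by
          have : 24 * (K / l) + 72 = (24 * K + 72 * l) / l := by field_simp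
          rw [this, div_le_iff₀ hlp]
          calc 24 * K + 72 * l ≤ D * l ^ 25 := by linarith
            _ = D * l ^ 24 * l := by ring
        linarith
      have h8 : 2 * (12 * ((c0 : ℝ) + 2) / p) ≤ 25 * (D * l ^ 24) * (1 / p) := by
        calc 2 * (12 * ((c0 : ℝ) + 2) / p) = 24 * ((c0 : ℝ) + 2) * (1 / p) := by ring
          _ ≤ 25 * (D * l ^ 24) * (1 / p) := by gcongr
      have h9 : D * (l ^ 25 + 25 * l ^ 24 * (1 / p)) ≤ D * l' ^ 25 := by gcongr
      have h10 : D * (l ^ 25 + 25 * l ^ 24 * (1 / p)) = Φ + 25 * (D * l ^ 24) * (1 / p) := by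
        rw [hΦ]; ring
      linarith
  have hfin := hmain (r - m0) hi0d.le le_rfl
  have e1 : (r : ℝ) / ((r : ℝ) - ((r - m0 : ℕ) : ℝ)) = R := by
    rw [Nat.cast_sub hm0r.le]
    rw [sub_sub_cancel, hrR]
    field_simp
  rw [e1] at hfin
  exact hfin

end Pool.Agent.TKN.NUMx

namespace Pool.Agent.TKN

theorem t_NUM : S_NUM := by
  intro k C hk hC
  obtain ⟨r, m0, mu, xi, h1, h2, h3, h4, h5, h6, h7, h8⟩ :=
    NUMx.main (k : ℝ) C (by exact_mod_cast hk) hC
  have e : (4 * (k * m0 / r) : ℝ) = 4 * k * m0 / r := by ring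
  refine ⟨r, m0, mu, 8 * xi, h1, h2, h3, h4, by positivity, ?_, ?_, ?_⟩
  · rw [e]; exact h7
  · rw [e]; exact h6
  · intro o ho hst
    exact h8 o ho fun i hi c0 => hst i (by omega) c0

end Pool.Agent.TKN
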