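import Pool.Agent.TKN.St1

/-!
# Project TKN: the inequality for one bit (RI)
-/

set_option autoImplicit false

open Finset
open scoped Classical

namespace Pool.Agent.TKN

open NCE

namespace MRI

/-- HE1 for masses. -/
theorem lam1 (h1 : S_HE1) {m A e : ℝ} (hm : 0 < m) (hA : 0 ≤ A) (hAm : A ≤ m) (he : 0 ≤ e)
    (he2 : e ≤ 1 / 2) :
    -((m - A) * (2 * Real.log 2 * e)) ≤ A * Real.binEntropy e - m * Real.binEntropy (A * e / m) := by
  have h := h1 (A / m) e (by positivity) ((div_le_one hm).2 hAm) he he2
  have e1 : A / m * e = A * e / m := by ring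
  rw [e1] at h
  have h' := mul_le_mul_of_nonneg_left h hm.le
  have e2 : m * (Real.binEntropy (A * e / m) - A / m * Real.binEntropy e) =
      m * Real.binEntropy (A * e / m) - A * Real.binEntropy e := by
    field_simp
  have e3 : m * ((1 - A / m) * (2 * Real.log 2 * e)) = (m - A) * (2 * Real.log 2 * e) := by
    field_simp
  rw [e2, e3] at h'
  linarith

/-- HE2 for pairs. -/
theorem lam2 (h2 : S_HE2) {u v : ℝ} (hu : 0 ≤ u) (hv : 0 ≤ v) :
    (u - v) ^ 2 / (u + v) / 2 ≤ (u + v) * (Real.log 2 - Real.binEntropy (u / (u + v))) := by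
  rcases eq_or_lt_of_le (add_nonneg hu hv) with h0 | h0
  · rw [← h0]
    simp
  · have h := h2 (u / (u + v)) (by positivity) ((div_le_one h0).2 (by linarith))
    have h' := mul_le_mul_of_nonneg_left h h0.le
    have e1 : (u + v) * (2 * (u / (u + v) - 1 / 2) ^ 2) = (u - v) ^ 2 / (u + v) / 2 := by
      field_simp
      ring
    rw [e1] at h'
    exact h'

/-- HE3 for pairs. -/
theorem lam3 (h3 : S_HE3) {u v : ℝ} (hu : 0 ≤ u) (hv : 0 ≤ v) (hu1 : u ≤ 1) (hv1 : v ≤ 1) :
    (u + v) * (Real.log 2 - Real.binEntropy (u / (u + v))) ≤ Real.log 2 * (2 - u - v) := by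
  have hL : 0 ≤ Real.log 2 := Real.log_nonneg (by norm_num)
  rcases eq_or_lt_of_le (add_nonneg hu hv) with h0 | h0
  · rw [← h0, zero_mul]
    exact mul_nonneg hL (by linarith)
  · have h := h3 (u / (u + v)) (by positivity) ((div_le_one h0).2 (by linarith))
    have h' := mul_le_mul_of_nonneg_left h h0.le
    refine h'.trans ?_
    have e1 : (u + v) * (4 * Real.log 2 * (u / (u + v) - 1 / 2) ^ 2) =
        Real.log 2 * ((u - v) ^ 2 / (u + v)) := by
      field_simp
      ring
    rw [e1]
    refine mul_le_mul_of_nonneg_left ?_ hL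
    rw [div_le_iff₀ h0]
    nlinarith [mul_nonneg hu (sub_nonneg.2 hu1), mul_nonneg hv (sub_nonneg.2 hv1)]

/-- The loss for one pattern. -/
theorem lam4 {p q s t : ℝ} (hp : 0 ≤ p) (hq : 0 ≤ q) (hs : 0 < s) (ht : 0 < t) (hst : s + t = 1) :
    s * q + t * p - (p - q) ^ 2 / (p + q) ≤ p * q / (s * p + t * q) := by
  rcases eq_or_lt_of_le (add_nonneg hp hq) with h0 | h0
  · have hp0 : p = 0 := by linarith
    have hq0 : q = 0 := by linarith
    rw [hp0, hq0]
    simp
  · have hd : 0 < s * p + t * q := by
      rcases eq_or_lt_of_le hp with hp0 | hp0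
      · rw [← hp0] at h0 ⊢
        have : 0 < q := by linarith
        nlinarith [mul_pos ht this]
      · nlinarith [mul_pos hs hp0, mul_nonneg ht.le hq]
    have e1 : s * q + t * p - p * q / (s * p + t * q) = s * t * (p - q) ^ 2 / (s * p + t * q) := by
      have ht' : t = 1 - s := by linarith
      rw [sub_eq_iff_eq_add, ← add_div, eq_div_iff hd.ne', ht']
      ring
    have h2 : s * t * (p - q) ^ 2 / (s * p + t * q) ≤ (p - q) ^ 2 / (p + q) := by
      rw [div_le_div_iff₀ hd h0]
      have h3 : s * t * (p + q) ≤ s * p + t * q := by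
        have hs1 : s ≤ 1 := by linarith
        have ht1 : t ≤ 1 := by linarith
        nlinarith [mul_nonneg (mul_nonneg hs.le hp) (sub_nonneg.2 ht1),
          mul_nonneg (mul_nonneg ht.le hq) (sub_nonneg.2 hs1)]
      have h4 := mul_le_mul_of_nonneg_left h3 (sq_nonneg (p - q))
      nlinarith [h4]
    linarith

end MRI

open MRI in
theorem t_RI (h1 : S_HE1) (h2 : S_HE2) (h3 : S_HE3) : S_RI := by
  intro ι T a r A m e M ha hr hA hm hM he
  have hL : 0 ≤ Real.log 2 := Real.log_nonneg (by norm_num)
  have hL2 : Real.log 2 < 0.6931471808 := Real.log_two_lt_d9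
  have hA0 : ∀ c, 0 ≤ A c := fun c => by
    rw [hA c]
    exact Finset.sum_nonneg (ha c)
  have hm0 : ∀ c, 0 ≤ m c := fun c => by
    rw [hm c]
    exact add_nonneg (hA0 c) (hr c)
  -- the degenerate cases
  have hzero : ∀ c, m c = 0 → A c = 0 ∧ r c = 0 ∧ e (!c) = 0 ∧ ∀ t ∈ T, a c t = 0 := by
    intro c hc
    have h4 := hm c
    have h5 : A c = 0 := by linarith [hA0 c, hr c]
    refine ⟨h5, by linarith [hA0 c, hr c], ?_, ?_⟩
    · rw [he (!c), Bool.not_not, hc, zero_div]
    · rw [hA c] at h5
      exact (Finset.sum_eq_zero_iff_of_nonneg (ha c)).1 h5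
  rcases eq_or_lt_of_le (hm0 true) with ht | ht
  · obtain ⟨z1, z2, z3, z4⟩ := hzero true ht.symm
    rw [Bool.not_true] at z3
    have s1 : ∑ t ∈ T, 2 * a true t * a false t / (a true t + a false t) = 0 :=
      Finset.sum_eq_zero fun t h => by rw [z4 t h]; simp
    have s2 : ∑ t ∈ T, (a true t * e true + a false t * e false) *
        Real.binEntropy (a true t * e true / (a true t * e true + a false t * e false)) = 0 :=
      Finset.sum_eq_zero fun t h => by rw [z4 t h, z3]; simp
    rw [s1, s2, z1, z2, z3, ← ht]
    simp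
  rcases eq_or_lt_of_le (hm0 false) with hf | hf
  · obtain ⟨z1, z2, z3, z4⟩ := hzero false hf.symm
    rw [Bool.not_false] at z3
    have s1 : ∑ t ∈ T, 2 * a true t * a false t / (a true t + a false t) = 0 :=
      Finset.sum_eq_zero fun t h => by rw [z4 t h]; simp
    have s2 : ∑ t ∈ T, (a true t * e true + a false t * e false) *
        Real.binEntropy (a true t * e true / (a true t * e true + a false t * e false)) = 0 :=
      Finset.sum_eq_zero fun t h => by rw [z4 t h, z3]; simp
    rw [s1, s2, z1, z2, z3, ← hf]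
    simp
  -- the main case
  have hMp : 0 < M := by rw [hM]; linarith
  obtain ⟨k, hk⟩ : ∃ k : ℝ, k = m true * m false / M := ⟨_, rfl⟩
  have hkp : 0 < k := by rw [hk]; positivity
  obtain ⟨x, hx⟩ : ∃ x : Bool → ℝ, ∀ c, x c = A c / m c := ⟨fun c => A c / m c, fun _ => rfl⟩
  obtain ⟨p, hp⟩ : ∃ p : Bool → ι → ℝ, ∀ c t, p c t = a c t / m c :=
    ⟨fun c t => a c t / m c, fun _ _ => rfl⟩
  have hmp : ∀ c, 0 < m c := by
    intro c
    cases c
    · exact hf
    · exact ht
  have hp0 : ∀ c, ∀ t ∈ T, 0 ≤ p c t := fun c t h => by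
    rw [hp]
    exact div_nonneg (ha c t h) (hm0 c)
  have hxs : ∀ c, x c = ∑ t ∈ T, p c t := fun c => by
    rw [hx c, hA c, Finset.sum_div]
    exact Finset.sum_congr rfl fun t _ => (hp c t).symm
  have hx0 : ∀ c, 0 ≤ x c := fun c => by
    rw [hx c]
    exact div_nonneg (hA0 c) (hm0 c)
  have hx1 : ∀ c, x c ≤ 1 := fun c => by
    rw [hx c, div_le_one (hmp c), hm c]
    linarith [hr c]
  have hAe : ∀ c, A c * e c = k / 2 * x c := by
    intro c
    rw [he c, hx c, hk]
    have := hmp true
    have := hmp false
    cases c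
    · rw [Bool.not_false]; field_simp
    · rw [Bool.not_true]; field_simp
  have hae : ∀ c t, a c t * e c = k / 2 * p c t := by
    intro c t
    rw [he c, hp c t, hk]
    have := hmp true
    have := hmp false
    cases c
    · rw [Bool.not_false]; field_simp
    · rw [Bool.not_true]; field_simp
  -- R
  obtain ⟨R, hR⟩ : ∃ R : ℝ, R = k * (2 - x true - x false) := ⟨_, rfl⟩
  have hR0 : 0 ≤ R := by
    rw [hR]
    exact mul_nonneg hkp.le (by linarith [hx1 true, hx1 false])
  have hrx : ∀ c, r c = m c * (1 - x c) := by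
    intro c
    have h4 := hm c
    rw [hx c]
    have := hmp c
    field_simp
    linarith
  have hRe : r true * m false / M + r false * m true / M = R := by
    rw [hR, hrx true, hrx false, hk]
    field_simp
    ring
  -- the first two terms
  have hehalf : ∀ c, 0 ≤ e c ∧ e c ≤ 1 / 2 := by
    intro c
    rw [he c]
    have h4 : m (!c) ≤ M := by
      rw [hM]
      cases c
      · rw [Bool.not_false]; linarith [hm0 false]
      · rw [Bool.not_true]; linarith [hm0 true]
    refine ⟨div_nonneg (hm0 _) (by linarith), ?_⟩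
    rw [div_le_div_iff₀ (by linarith) (by norm_num)]
    linarith
  have hAm : ∀ c, A c ≤ m c := fun c => by rw [hm c]; linarith [hr c]
  have k1 : ∀ c, (m c - A c) * (2 * Real.log 2 * e c) = Real.log 2 * (k * (1 - x c)) := by
    intro c
    have h4 : m c - A c = m c * (1 - x c) := by
      rw [hx c]
      have := hmp c
      field_simp
    rw [h4, he c, hk]
    cases c
    · rw [Bool.not_false]; field_simp
    · rw [Bool.not_true]; field_simp
  have T1 := lam1 h1 (hmp true) (hA0 true) (hAm true) (hehalf true).1 (hehalf true).2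
  have T2 := lam1 h1 (hmp false) (hA0 false) (hAm false) (hehalf false).1 (hehalf false).2
  rw [k1 true] at T1
  rw [k1 false] at T2
  -- the mutual information
  have hk2 : (k / 2 : ℝ) ≠ 0 := by positivity
  have a1 : (A true * e true + A false * e false) *
      Real.binEntropy (A true * e true / (A true * e true + A false * e false)) =
      k / 2 * ((x true + x false) * Real.binEntropy (x true / (x true + x false))) := by
    rw [hAe, hAe, ← mul_add, mul_div_mul_left _ _ hk2, mul_assoc]
  have a2 : ∑ t ∈ T, (a true t * e true + a false t * e false) *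
      Real.binEntropy (a true t * e true / (a true t * e true + a false t * e false)) =
      k / 2 * ∑ t ∈ T, (p true t + p false t) *
        Real.binEntropy (p true t / (p true t + p false t)) := by
    rw [Finset.mul_sum]
    refine Finset.sum_congr rfl fun t _ => ?_
    rw [hae, hae, ← mul_add, mul_div_mul_left _ _ hk2, mul_assoc]
  obtain ⟨S, hS⟩ : ∃ S : ℝ, S = ∑ t ∈ T, (p true t - p false t) ^ 2 / (p true t + p false t) :=
    ⟨_, rfl⟩
  have T3 : S / 2 ≤ ∑ t ∈ T, (p true t + p false t) *
      (Real.log 2 - Real.binEntropy (p true t / (p true t + p false t))) := by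
    rw [hS, Finset.sum_div]
    exact Finset.sum_le_sum fun t h => lam2 h2 (hp0 true t h) (hp0 false t h)
  have e3 : ∑ t ∈ T, (p true t + p false t) *
      (Real.log 2 - Real.binEntropy (p true t / (p true t + p false t))) =
      (x true + x false) * Real.log 2 - ∑ t ∈ T, (p true t + p false t) *
        Real.binEntropy (p true t / (p true t + p false t)) := by
    rw [hxs true, hxs false, ← Finset.sum_add_distrib, Finset.sum_mul, ← Finset.sum_sub_distrib]
    exact Finset.sum_congr rfl fun t _ => by ring
  rw [e3] at T3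
  have T4 := lam3 h3 (hx0 true) (hx0 false) (hx1 true) (hx1 false)
  -- the loss
  have hπ : m true / M + m false / M = 1 := by
    rw [← add_div, ← hM]
    exact div_self hMp.ne'
  have T5 : ∑ t ∈ T, (m true / M * p false t + m false / M * p true t -
      (p true t - p false t) ^ 2 / (p true t + p false t)) ≤
      ∑ t ∈ T, p true t * p false t / (m true / M * p true t + m false / M * p false t) :=
    Finset.sum_le_sum fun t h => lam4 (hp0 true t h) (hp0 false t h) (div_pos ht hMp)
      (div_pos hf hMp) hπ
  have e5 : ∑ t ∈ T, (m true / M * p false t + m false / M * p true t -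
      (p true t - p false t) ^ 2 / (p true t + p false t)) =
      m true / M * x false + m false / M * x true - S := by
    rw [hxs true, hxs false, hS, Finset.mul_sum, Finset.mul_sum, ← Finset.sum_add_distrib,
      ← Finset.sum_sub_distrib]
  rw [e5] at T5
  have e6 : ∑ t ∈ T, 2 * a true t * a false t / (a true t + a false t) =
      2 * k * ∑ t ∈ T, p true t * p false t / (m true / M * p true t + m false / M * p false t) := by
    rw [Finset.mul_sum]
    refine Finset.sum_congr rfl fun t _ => ?_
    have g1 : a true t = m true * p true t := by rw [hp]; field_simp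
    have g0 : a false t = m false * p false t := by rw [hp]; field_simp
    have g2 : m true / M * p true t + m false / M * p false t =
        (m true * p true t + m false * p false t) / M := by ring
    rw [g1, g0, g2, hk, div_div_eq_mul_div]
    rcases eq_or_ne (m true * p true t + m false * p false t) 0 with hz | hz
    · rw [hz]; simp
    · field_simp
  have hπ1 : m true / M ≤ 1 := (div_le_one hMp).2 (by rw [hM]; linarith)
  have hπ0 : m false / M ≤ 1 := (div_le_one hMp).2 (by rw [hM]; linarith)
  have T6 : x true + x false - 1 - S ≤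
      ∑ t ∈ T, p true t * p false t / (m true / M * p true t + m false / M * p false t) := by
    refine le_trans ?_ T5
    nlinarith [mul_nonneg (sub_nonneg.2 hπ1) (sub_nonneg.2 (hx1 false)),
      mul_nonneg (sub_nonneg.2 hπ0) (sub_nonneg.2 (hx1 true))]
  rw [a1, a2, e6, hRe]
  have g1 : 2 * m true * m false / M = 2 * k := by rw [hk]; ring
  rw [g1]
  -- collect
  have T6' := mul_le_mul_of_nonneg_left T6 hkp.le
  have T3' := mul_le_mul_of_nonneg_left T3 hkp.le
  have T4' := mul_le_mul_of_nonneg_left T4 hkp.le
  have hRk : k * (2 - x true - x false) = R := hR.symm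
  have hLR : Real.log 2 * R ≤ 0.6931471808 * R := mul_le_mul_of_nonneg_right hL2.le hR0
  have hLR' : k * (Real.log 2 * (2 - x true - x false)) = Real.log 2 * R := by rw [hR]; ring
  have hLR2 : Real.log 2 * (k * (1 - x true)) + Real.log 2 * (k * (1 - x false)) =
      Real.log 2 * R := by rw [hR]; ring
  rw [hLR'] at T4'
  nlinarith [T1, T2, T3', T4', T6', hLR, hLR2, hR0, hRk]

end Pool.Agent.TKN
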