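import Pool.Agent.TKN.St1

/-!
# Project TKN, module SBA: subadditivity of the conditional entropy of a word
-/

set_option autoImplicit false

open Finset
open scoped Classical

namespace Pool.Agent.TKN

open NCE

namespace MSBA

/-- the word restricted to `W` -/
noncomputable def R {Ω β : Type} {n : ℕ} (X : Ω → Fin n → β) (W : Finset (Fin n)) (ω : Ω) :
    Fin n → Option β := fun v => if v ∈ W then some (X ω v) else none

theorem main (hD : S_DTS) (hS : S_SBS) (Ω : Type) [Fintype Ω] (P : FP Ω) (γ β : Type) (F : Ω → γ)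
    (n : ℕ) (X : Ω → Fin n → β) (W : Finset (Fin n)) :
    CH P F (R X W) ≤ ∑ v ∈ W, CH P F (fun ω => X ω v) := by
  induction W using Finset.induction_on with
  | empty =>
    rw [Finset.sum_empty]
    unfold CH
    have h : H P (fun ω => (F ω, R X ∅ ω)) ≤ H P F := by
      refine hD Ω P _ _ F _ fun ω ω' _ _ h => ?_
      refine Prod.ext h ?_
      funext v
      simp [R]
    linarith
  | insert a W ha ih =>
    rw [Finset.sum_insert ha]
    have h := hS Ω P γ (γ × (Fin n → Option β)) (γ × β) (γ × (Fin n → Option β)) F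
      (fun ω => (F ω, R X W ω)) (fun ω => (F ω, X ω a)) (fun ω => (F ω, R X (insert a W) ω))
      (fun ω ω' _ _ h => (Prod.mk.inj h).1) (fun ω ω' _ _ h => (Prod.mk.inj h).1)
      (fun ω ω' _ _ h => by
        obtain ⟨h1, h2⟩ := Prod.mk.inj h
        obtain ⟨h3, h4⟩ := Prod.mk.inj h1
        obtain ⟨_, h5⟩ := Prod.mk.inj h2
        refine Prod.ext h3 ?_
        funext v
        show R X (insert a W) ω v = R X (insert a W) ω' v
        unfold R
        by_cases hv : v = a
        · subst hv
          rw [if_pos (Finset.mem_insert_self _ _), if_pos (Finset.mem_insert_self _ _), h5]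
        · have h6 := congrFun h4 v
          unfold R at h6
          simp only [Finset.mem_insert, hv, false_or]
          exact h6)
    unfold CH at ih ⊢
    linarith

end MSBA

theorem t_SBA (hD : S_DTS) (hS : S_SBS) : S_SBA := by
  intro Ω _ P γ β F n X V hX
  refine le_trans ?_ (MSBA.main hD hS Ω P γ β F n X V)
  unfold CH
  have h : H P (fun ω => (F ω, X ω)) ≤ H P (fun ω => (F ω, MSBA.R X V ω)) := by
    refine hD Ω P _ _ _ _ fun ω ω' h0 h0' h => ?_
    obtain ⟨h1, h2⟩ := Prod.mk.inj h
    refine Prod.ext h1 ?_
    funext v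
    show X ω v = X ω' v
    by_cases hv : v ∈ V
    · have h3 := congrFun h2 v
      unfold MSBA.R at h3
      rw [if_pos hv, if_pos hv] at h3
      exact Option.some.inj h3
    · exact hX v hv ω ω' h0 h0' h1
  linarith

end Pool.Agent.TKN
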