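import Pool.Agent.TKN.St1

/-!
# Module TKN_SBI: the inequality for one bit
-/

set_option autoImplicit false

open Finset
open scoped Classical

namespace Pool.Agent.TKN

open NCE

namespace MSBI

section
variable {Ω Ω' : Type} [Fintype Ω] [Fintype Ω'] {γ β α : Type}

/-- indicator -/
noncomputable def ind (p : Prop) : ℝ := if p then 1 else 0

lemma ind_pos {p : Prop} (h : p) : ind p = 1 := if_pos h
lemma ind_neg {p : Prop} (h : ¬p) : ind p = 0 := if_neg h
lemma ind_nn (p : Prop) : 0 ≤ ind p := by
  unfold ind
  split_ifs <;> norm_num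

/-- the part of the expectation over `F = f` -/
noncomputable def sf (P : FP Ω) (F : Ω → γ) (f : γ) (g : Ω → ℝ) : ℝ :=
  ∑ ω, ind (F ω = f) * (P.p ω * g ω)

lemma ex_sf (P : FP Ω) (F : Ω → γ) (g : Ω → ℝ) :
    ex P g = ∑ f ∈ univ.image F, sf P F f g := by
  unfold ex sf
  rw [Finset.sum_comm]
  refine Finset.sum_congr rfl fun ω _ => ?_
  rw [← Finset.sum_mul]
  have : ∑ f ∈ univ.image F, ind (F ω = f) = 1 := by
    unfold ind
    rw [Finset.sum_ite_eq, if_pos (Finset.mem_image_of_mem F (Finset.mem_univ ω))]
  rw [this, one_mul]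

lemma sf_congr (P : FP Ω) (F : Ω → γ) (f : γ) {g g' : Ω → ℝ}
    (h : ∀ ω, F ω = f → g ω = g' ω) : sf P F f g = sf P F f g' := by
  unfold sf
  refine Finset.sum_congr rfl fun ω _ => ?_
  by_cases h1 : F ω = f
  · rw [h ω h1]
  · rw [ind_neg h1, zero_mul, zero_mul]

lemma sf_add (P : FP Ω) (F : Ω → γ) (f : γ) (g g' : Ω → ℝ) :
    sf P F f (fun ω => g ω + g' ω) = sf P F f g + sf P F f g' := by
  unfold sf
  rw [← Finset.sum_add_distrib]
  refine Finset.sum_congr rfl fun ω _ => ?_
  ring

lemma sf_mul (P : FP Ω) (F : Ω → γ) (f : γ) (g : Ω → ℝ) (k : ℝ) :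
    sf P F f (fun ω => g ω * k) = sf P F f g * k := by
  unfold sf
  rw [Finset.sum_mul]
  refine Finset.sum_congr rfl fun ω _ => ?_
  ring

lemma sf_sum (P : FP Ω) (F : Ω → γ) (f : γ) (S : Finset β) (g : β → Ω → ℝ) :
    sf P F f (fun ω => ∑ t ∈ S, g t ω) = ∑ t ∈ S, sf P F f (g t) := by
  unfold sf
  rw [Finset.sum_comm]
  refine Finset.sum_congr rfl fun ω _ => ?_
  rw [Finset.mul_sum, Finset.mul_sum]

lemma sf_nonneg (P : FP Ω) (F : Ω → γ) (f : γ) {g : Ω → ℝ} (h : ∀ ω, 0 ≤ g ω) :
    0 ≤ sf P F f g := by
  unfold sf
  exact Finset.sum_nonneg fun ω _ => mul_nonneg (ind_nn _) (mul_nonneg (P.nn ω) (h ω))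

lemma pr_ex (P : FP Ω) (X : Ω → α) (x : α) : pr P X x = ex P (fun ω => ind (X ω = x)) := by
  unfold pr ex ind
  refine Finset.sum_congr rfl fun ω _ => ?_
  by_cases h : X ω = x <;> simp [h]

/-- probabilities as expectations over one value of the first variable -/
lemma pr_pair (P : FP Ω) (F : Ω → γ) (X : Ω → α) (f : γ) (x : α) :
    pr P (fun ω => (F ω, X ω)) (f, x) = sf P F f (fun ω => ind (X ω = x)) := by
  unfold pr sf ind
  refine Finset.sum_congr rfl fun ω _ => ?_
  by_cases h1 : F ω = f <;> by_cases h2 : X ω = x <;> simp [h1, h2]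

lemma pr_one (P : FP Ω) (F : Ω → γ) (f : γ) : pr P F f = sf P F f (fun _ => 1) := by
  unfold pr sf ind
  refine Finset.sum_congr rfl fun ω _ => ?_
  by_cases h : F ω = f <;> simp [h]

lemma bsplit (P : FP Ω) (F : Ω → γ) (f : γ) (b : Ω → Bool) (k : Ω → ℝ) (g : Bool → ℝ) :
    sf P F f (fun ω => k ω * g (b ω)) =
      sf P F f (fun ω => ind (b ω = true) * k ω) * g true +
      sf P F f (fun ω => ind (b ω = false) * k ω) * g false := by
  rw [← sf_mul, ← sf_mul, ← sf_add]
  refine sf_congr P F f fun ω _ => ?_
  cases b ω <;> simp [ind]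

lemma tsplit (P : FP Ω) (F : Ω → γ) (f : γ) (b : Ω → Bool) (T : Ω → β) (S : Finset β)
    (k : Ω → ℝ) (hk : ∀ ω, T ω ∉ S → k ω = 0) (g : Bool → β → ℝ) :
    sf P F f (fun ω => k ω * g (b ω) (T ω)) =
      ∑ t ∈ S, (sf P F f (fun ω => ind (b ω = true ∧ T ω = t) * k ω) * g true t +
        sf P F f (fun ω => ind (b ω = false ∧ T ω = t) * k ω) * g false t) := by
  have h : ∀ t ∈ S, sf P F f (fun ω => ind (b ω = true ∧ T ω = t) * k ω) * g true t +
      sf P F f (fun ω => ind (b ω = false ∧ T ω = t) * k ω) * g false t =
      sf P F f (fun ω => if T ω = t then k ω * g (b ω) t else 0) := by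
    intro t _
    rw [← sf_mul, ← sf_mul, ← sf_add]
    refine sf_congr P F f fun ω _ => ?_
    cases b ω <;> by_cases h2 : T ω = t <;> simp [ind, h2]
  rw [Finset.sum_congr rfl h, ← sf_sum]
  refine sf_congr P F f fun ω _ => ?_
  rw [Finset.sum_ite_eq S (T ω) (fun t => k ω * g (b ω) t)]
  split_ifs with h1
  · rfl
  · rw [hk ω h1, zero_mul]

lemma sym (x y : ℝ) :
    x * Real.binEntropy (y / (x + y)) + y * Real.binEntropy (x / (x + y)) =
      (x + y) * Real.binEntropy (x / (x + y)) := by
  by_cases h : x + y = 0
  · simp [h]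
  · have e : y / (x + y) = 1 - x / (x + y) := by
      field_simp
      ring
    rw [e, Real.binEntropy_one_sub]
    ring

end

end MSBI

open MSBI in
theorem t_SBI (hDTS : S_DTS) (hBIN : S_BIN) (hRI : S_RI) : S_SBI := by
  intro Ω Ω' _ _ P P' γ β F b T u π ζ hu hub hlaw hN
  -- the noise
  set e : Ω → ℝ := fun ω => if u ω then 0 else opp P F b ω / 2 with he
  have hN' : ∀ f : Ω → Bool → ℝ, ex P' (fun q => f (π q) (ζ q)) =
      ex P (fun ω => e ω * f ω true + (1 - e ω) * f ω false) := hN
  have hπ : ∀ g : Ω → ℝ, ex P' (fun q => g (π q)) = ex P g := by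
    intro g
    rw [hN' fun ω _ => g ω]
    congr 1
    funext ω
    ring
  have hprπ : ∀ (α : Type) (X : Ω → α) (x : α), pr P' (fun q => X (π q)) x = pr P X x := by
    intro α X x
    rw [pr_ex, pr_ex]
    exact hπ fun ω => ind (X ω = x)
  have hprN : ∀ (α : Type) (X : Ω → Bool → α) (x : α), pr P' (fun q => X (π q) (ζ q)) x =
      ex P (fun ω => e ω * ind (X ω true = x) + (1 - e ω) * ind (X ω false = x)) := by
    intro α X x
    rw [pr_ex]
    exact hN' fun ω s => ind (X ω s = x)
  have hH : ∀ (α : Type) (X : Ω → α), H P' (fun q => X (π q)) = H P X := by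
    intro α X
    unfold H
    simp only [hprπ]
    exact hπ fun ω => - Real.log (pr P X (X ω))
  -- the quantities
  set NT : Finset β := (univ.filter fun ω => ¬u ω).image T with hNT
  have hNTm : ∀ ω, T ω ∈ NT ↔ ¬u ω := by
    intro ω
    rw [hNT, Finset.mem_image]
    constructor
    · rintro ⟨ω', hω', h1⟩
      rw [Finset.mem_filter] at hω'
      exact fun h2 => hω'.2 ((hu ω' ω h1).2 h2)
    · intro h
      exact ⟨ω, Finset.mem_filter.2 ⟨Finset.mem_univ _, h⟩, rfl⟩
  set M : γ → ℝ := fun f => pr P F f with hM
  set m : γ → Bool → ℝ := fun f c => sf P F f (fun ω => ind (b ω = c)) with hm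
  set a : γ → Bool → β → ℝ := fun f c t => sf P F f (fun ω => ind (b ω = c ∧ T ω = t)) with ha
  set A : γ → Bool → ℝ := fun f c => sf P F f (fun ω => ind (b ω = c) * ind (¬u ω)) with hA
  set r : γ → Bool → ℝ := fun f c => sf P F f (fun ω => ind (b ω = c) * ind (u ω)) with hr
  set ef : γ → Bool → ℝ := fun f c => m f (!c) / (2 * M f) with hef
  set N : γ → Bool → ℝ := fun f c => sf P F f (fun ω => ind (b ω = c) * e ω) with hNd
  set NN : γ → Bool → β → ℝ :=
    fun f c t => sf P F f (fun ω => ind (b ω = c ∧ T ω = t) * e ω) with hNN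
  have hMm : ∀ f, M f = m f true + m f false := by
    intro f
    simp only [hM, hm, pr_one]
    rw [← sf_add]
    refine sf_congr P F f fun ω _ => ?_
    cases b ω <;> simp [ind]
  have hmA : ∀ f c, m f c = A f c + r f c := by
    intro f c
    simp only [hm, hA, hr]
    rw [← sf_add]
    refine sf_congr P F f fun ω _ => ?_
    by_cases h1 : b ω = c <;> by_cases h2 : u ω <;> simp [ind, h1, h2]
  have hAa : ∀ f c, A f c = ∑ t ∈ NT, a f c t := by
    intro f c
    simp only [hA, ha]
    rw [← sf_sum]
    refine sf_congr P F f fun ω _ => ?_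
    have h3 : ∑ t ∈ NT, ind (b ω = c ∧ T ω = t) =
        ∑ t ∈ NT, if T ω = t then ind (b ω = c) else 0 := by
      refine Finset.sum_congr rfl fun t _ => ?_
      by_cases h1 : b ω = c <;> by_cases h2 : T ω = t <;> simp [ind, h1, h2]
    rw [h3, Finset.sum_ite_eq NT (T ω) (fun _ => ind (b ω = c))]
    by_cases h2 : u ω
    · rw [ind_neg (not_not.2 h2), if_neg (fun h => (hNTm ω).1 h h2), mul_zero]
    · rw [ind_pos h2, if_pos ((hNTm ω).2 h2), mul_one]
  have hopp : ∀ ω, opp P F b ω = m (F ω) (!b ω) / M (F ω) := by
    intro ω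
    unfold opp
    rw [pr_pair]
  have he' : ∀ ω, e ω = if u ω then 0 else ef (F ω) (b ω) := by
    intro ω
    simp only [he, hopp, hef]
    split_ifs
    · rfl
    · rw [div_div, mul_comm (M (F ω)) 2]
  have hNA : ∀ f c, N f c = A f c * ef f c := by
    intro f c
    simp only [hNd, hA]
    rw [← sf_mul]
    refine sf_congr P F f fun ω hω => ?_
    rw [he' ω, hω]
    by_cases h1 : b ω = c <;> by_cases h2 : u ω <;> simp [ind, h1, h2]
  have hNNa : ∀ f c, ∀ t ∈ NT, NN f c t = a f c t * ef f c := by
    intro f c t ht
    simp only [hNN, ha]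
    rw [← sf_mul]
    refine sf_congr P F f fun ω hω => ?_
    rw [he' ω, hω]
    by_cases h1 : b ω = c ∧ T ω = t
    · have h2 : ¬u ω := (hNTm ω).1 (by rw [h1.2]; exact ht)
      rw [ind_pos h1, if_neg h2, h1.1]
    · rw [ind_neg h1, zero_mul, zero_mul]
  -- the terms for `P`
  have t1 : O P F b = ∑ f ∈ univ.image F, 2 * m f true * m f false / M f := by
    unfold O
    rw [ex_sf P F]
    refine Finset.sum_congr rfl fun f _ => ?_
    have h1 : sf P F f (opp P F b) = sf P F f (fun ω => 1 * (m f (!b ω) / M f)) := by
      refine sf_congr P F f fun ω hω => ?_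
      rw [hopp ω, hω, one_mul]
    rw [h1, bsplit P F f b (fun _ => 1) fun c => m f (!c) / M f]
    simp only [mul_one]
    show m f true * (m f false / M f) + m f false * (m f true / M f) = _
    ring
  have t2 : O P (fun ω => (F ω, T ω)) b =
      ∑ f ∈ univ.image F, ∑ t ∈ NT, 2 * a f true t * a f false t / (a f true t + a f false t) := by
    have hden : ∀ f t, pr P (fun ω => (F ω, T ω)) (f, t) = a f true t + a f false t := by
      intro f t
      rw [pr_pair]
      simp only [ha]
      rw [← sf_add]
      refine sf_congr P F f fun ω _ => ?_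
      cases b ω <;> by_cases h2 : T ω = t <;> simp [ind, h2]
    have hnum : ∀ f t c, pr P (fun ω => ((F ω, T ω), b ω)) ((f, t), c) = a f c t := by
      intro f t c
      unfold pr
      simp only [ha, sf]
      refine Finset.sum_congr rfl fun ω _ => ?_
      by_cases h1 : F ω = f <;> by_cases h2 : T ω = t <;> by_cases h3 : b ω = c <;>
        simp [ind, h1, h2, h3]
    have h0 : ∀ ω, u ω → a (F ω) (!b ω) (T ω) = 0 := by
      intro ω hω
      simp only [ha]
      have h4 : sf P F (F ω) (fun ω' => ind (b ω' = (!b ω) ∧ T ω' = T ω)) =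
          sf P F (F ω) (fun ω' => 0 * 0) := by
        refine sf_congr P F _ fun ω' _ => ?_
        rw [ind_neg, zero_mul]
        rintro ⟨h5, h6⟩
        have h7 := hub ω ω' h6.symm hω
        rw [← h7] at h5
        cases hb : b ω <;> rw [hb] at h5 <;> simp at h5
      rw [h4, sf_mul, mul_zero]
    unfold O
    rw [ex_sf P F]
    refine Finset.sum_congr rfl fun f _ => ?_
    have h1 : sf P F f (opp P (fun ω => (F ω, T ω)) b) = sf P F f (fun ω =>
        ind (¬u ω) * (a f (!b ω) (T ω) / (a f true (T ω) + a f false (T ω)))) := by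
      refine sf_congr P F f fun ω hω => ?_
      unfold opp
      rw [hden, hnum, hω]
      by_cases h2 : u ω
      · have h3 := h0 ω h2
        rw [hω] at h3
        rw [h3, zero_div, mul_zero]
      · rw [ind_pos h2, one_mul]
    rw [h1, tsplit P F f b T NT (fun ω => ind (¬u ω)) (fun ω hω => by
      have : u ω := by
        by_contra h
        exact hω ((hNTm ω).2 h)
      exact ind_neg (not_not.2 this)) fun c t => a f (!c) t / (a f true t + a f false t)]
    refine Finset.sum_congr rfl fun t ht => ?_
    have h5 : ∀ c, sf P F f (fun ω => ind (b ω = c ∧ T ω = t) * ind (¬u ω)) = a f c t := by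
      intro c
      simp only [ha]
      refine sf_congr P F f fun ω _ => ?_
      by_cases h6 : b ω = c ∧ T ω = t
      · have h2 : ¬u ω := (hNTm ω).1 (by rw [h6.2]; exact ht)
        rw [ind_pos h2, mul_one]
      · rw [ind_neg h6, zero_mul]
    rw [h5, h5]
    show a f true t * (a f false t / (a f true t + a f false t)) +
      a f false t * (a f true t / (a f true t + a f false t)) = _
    ring
  have t3 : ex P (fun ω => if u ω then opp P F b ω else 0) =
      ∑ f ∈ univ.image F, (r f true * m f false / M f + r f false * m f true / M f) := by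
    rw [ex_sf P F]
    refine Finset.sum_congr rfl fun f _ => ?_
    have h1 : sf P F f (fun ω => if u ω then opp P F b ω else 0) = sf P F f (fun ω =>
        ind (u ω) * (m f (!b ω) / M f)) := by
      refine sf_congr P F f fun ω hω => ?_
      rw [hopp ω, hω]
      by_cases h2 : u ω
      · rw [if_pos h2, ind_pos h2, one_mul]
      · rw [if_neg h2, ind_neg h2, zero_mul]
    rw [h1, bsplit P F f b (fun ω => ind (u ω)) fun c => m f (!c) / M f]
    show r f true * (m f false / M f) + r f false * (m f true / M f) = _
    ring
  have t4 : ex P (fun ω => Real.binEntropy (e ω)) =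
      ∑ f ∈ univ.image F, (A f true * Real.binEntropy (ef f true) +
        A f false * Real.binEntropy (ef f false)) := by
    rw [ex_sf P F]
    refine Finset.sum_congr rfl fun f _ => ?_
    have h1 : sf P F f (fun ω => Real.binEntropy (e ω)) =
        sf P F f (fun ω => ind (¬u ω) * Real.binEntropy (ef f (b ω))) := by
      refine sf_congr P F f fun ω hω => ?_
      rw [he' ω, hω]
      by_cases h2 : u ω
      · rw [if_pos h2, ind_neg (not_not.2 h2), zero_mul, Real.binEntropy_zero]
      · rw [if_neg h2, ind_pos h2, one_mul]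
    rw [h1, bsplit P F f b (fun ω => ind (¬u ω)) fun c => Real.binEntropy (ef f c)]
  -- the terms for `P'`
  have q2 : CH P' (fun q => (F (π q), b (π q))) ζ =
      ∑ f ∈ univ.image F, (m f true * Real.binEntropy (N f true / m f true) +
        m f false * Real.binEntropy (N f false / m f false)) := by
    rw [hBIN]
    have hden : ∀ f c, pr P' (fun q => (F (π q), b (π q))) (f, c) = m f c := by
      intro f c
      refine (hprπ _ (fun ω => (F ω, b ω)) (f, c)).trans ?_
      rw [pr_pair]
    have hnumt : ∀ f c, pr P' (fun q => ((F (π q), b (π q)), ζ q)) ((f, c), true) = N f c := by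
      intro f c
      refine (hprN _ (fun ω s' => ((F ω, b ω), s')) ((f, c), true)).trans ?_
      simp only [hNd]
      unfold ex sf
      refine Finset.sum_congr rfl fun ω _ => ?_
      by_cases h1 : F ω = f <;> by_cases h2 : b ω = c <;> simp [ind, h1, h2]
    have hnumf : ∀ f c, pr P' (fun q => ((F (π q), b (π q)), ζ q)) ((f, c), false) =
        m f c - N f c := by
      intro f c
      refine (hprN _ (fun ω s' => ((F ω, b ω), s')) ((f, c), false)).trans ?_
      rw [eq_sub_iff_add_eq]
      simp only [hNd, hm]
      unfold ex sf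
      rw [← Finset.sum_add_distrib]
      refine Finset.sum_congr rfl fun ω _ => ?_
      by_cases h1 : F ω = f <;> by_cases h2 : b ω = c <;> simp [ind, h1, h2] <;> ring
    have h1 : (fun q => Real.binEntropy (opp P' (fun q => (F (π q), b (π q))) ζ q)) =
        fun q => Real.binEntropy (N (F (π q)) (b (π q)) / m (F (π q)) (b (π q))) := by
      funext q
      unfold opp
      rw [hden]
      by_cases hz : ζ q = true
      · rw [hz, Bool.not_true, hnumf]
        by_cases h0 : m (F (π q)) (b (π q)) = 0
        · simp [h0]
        · rw [← Real.binEntropy_one_sub]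
          congr 1
          field_simp
          ring
      · have hz' : ζ q = false := by simpa using hz
        rw [hz', Bool.not_false, hnumt]
    rw [h1, hπ fun ω => Real.binEntropy (N (F ω) (b ω) / m (F ω) (b ω)), ex_sf P F]
    refine Finset.sum_congr rfl fun f _ => ?_
    have h2 : sf P F f (fun ω => Real.binEntropy (N (F ω) (b ω) / m (F ω) (b ω))) =
        sf P F f (fun ω => 1 * Real.binEntropy (N f (b ω) / m f (b ω))) := by
      refine sf_congr P F f fun ω hω => ?_
      rw [hω, one_mul]
    rw [h2, bsplit P F f b (fun _ => 1) fun c => Real.binEntropy (N f c / m f c)]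
    simp only [mul_one]
    rfl
  have q3 : CH P' (fun q => (F (π q), (if ζ q then none else some (b (π q)) : Option Bool)))
      (fun q => b (π q)) =
      ∑ f ∈ univ.image F, (N f true + N f false) *
        Real.binEntropy (N f true / (N f true + N f false)) := by
    rw [hBIN]
    have hden : ∀ f, pr P' (fun q => (F (π q), (if ζ q then none else some (b (π q)) :
        Option Bool))) (f, none) = N f true + N f false := by
      intro f
      refine (hprN _ (fun ω s' => (F ω, (if s' then none else some (b ω) : Option Bool)))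
        (f, none)).trans ?_
      simp only [hNd]
      rw [← sf_add]
      unfold ex sf
      refine Finset.sum_congr rfl fun ω _ => ?_
      by_cases h1 : F ω = f <;> cases hb : b ω <;> simp [ind, h1, hb]
    have hnum : ∀ f c, pr P' (fun q => ((F (π q), (if ζ q then none else some (b (π q)) :
        Option Bool)), b (π q))) ((f, none), c) = N f c := by
      intro f c
      refine (hprN _ (fun ω s' => ((F ω, (if s' then none else some (b ω) : Option Bool)), b ω))
        ((f, none), c)).trans ?_
      simp only [hNd]
      unfold ex sf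
      refine Finset.sum_congr rfl fun ω _ => ?_
      by_cases h1 : F ω = f <;> by_cases h2 : b ω = c <;> simp [ind, h1, h2]
    have hnum0 : ∀ f c, pr P' (fun q => ((F (π q), (if ζ q then none else some (b (π q)) :
        Option Bool)), b (π q))) ((f, some c), !c) = 0 := by
      intro f c
      unfold pr
      refine Finset.sum_eq_zero fun q _ => ?_
      rw [if_neg]
      intro h
      have h1 := congrArg Prod.snd h
      have h2 := congrArg (fun x => x.1.2) h
      simp only at h1 h2
      split_ifs at h2
      have h3 := Option.some.inj h2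
      rw [h3] at h1
      cases c <;> simp at h1
    obtain ⟨Gf, hGf⟩ : ∃ Gf : Ω → Bool → ℝ, ∀ ω s, Gf ω s = if s = true then
        Real.binEntropy (N (F ω) (!b ω) / (N (F ω) true + N (F ω) false)) else 0 :=
      ⟨_, fun _ _ => rfl⟩
    have h1 : (fun q => Real.binEntropy (opp P' (fun q => (F (π q),
        (if ζ q then none else some (b (π q)) : Option Bool))) (fun q => b (π q)) q)) =
        fun q => Gf (π q) (ζ q) := by
      funext q
      rw [hGf]
      unfold opp
      by_cases hz : ζ q = true
      · simp only [hz, if_true]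
        have h3 := hnum (F (π q)) (!b (π q))
        have h4 := hden (F (π q))
        rw [h3, h4]
      · have hz' : ζ q = false := by simpa using hz
        simp only [hz', Bool.false_eq_true, if_false]
        have h3 := hnum0 (F (π q)) (b (π q))
        rw [h3]
        simp
    rw [h1, hN' Gf, ex_sf P F]
    refine Finset.sum_congr rfl fun f _ => ?_
    have h2 : sf P F f (fun ω => e ω * Gf ω true + (1 - e ω) * Gf ω false) =
        sf P F f (fun ω => e ω * Real.binEntropy (N f (!b ω) / (N f true + N f false))) := by
      refine sf_congr P F f fun ω hω => ?_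
      rw [hGf, hGf, hω]
      simp
    rw [h2, bsplit P F f b e fun c => Real.binEntropy (N f (!c) / (N f true + N f false))]
    show N f true * Real.binEntropy (N f false / (N f true + N f false)) +
      N f false * Real.binEntropy (N f true / (N f true + N f false)) = _
    exact sym _ _
  have q4 : CH P' (fun q => (F (π q), (if ζ q then none else some (b (π q)) : Option Bool),
      T (π q))) (fun q => b (π q)) =
      ∑ f ∈ univ.image F, ∑ t ∈ NT, (NN f true t + NN f false t) *
        Real.binEntropy (NN f true t / (NN f true t + NN f false t)) := by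
    rw [hBIN]
    have hden : ∀ f t, pr P' (fun q => (F (π q), (if ζ q then none else some (b (π q)) :
        Option Bool), T (π q))) (f, none, t) = NN f true t + NN f false t := by
      intro f t
      refine (hprN _ (fun ω s' => (F ω, (if s' then none else some (b ω) : Option Bool), T ω))
        (f, none, t)).trans ?_
      simp only [hNN]
      rw [← sf_add]
      unfold ex sf
      refine Finset.sum_congr rfl fun ω _ => ?_
      by_cases h1 : F ω = f <;> by_cases h2 : T ω = t <;> cases hb : b ω <;> simp [ind, h1, h2, hb]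
    have hnum : ∀ f t c, pr P' (fun q => ((F (π q), (if ζ q then none else some (b (π q)) :
        Option Bool), T (π q)), b (π q))) ((f, none, t), c) = NN f c t := by
      intro f t c
      refine (hprN _ (fun ω s' => ((F ω, (if s' then none else some (b ω) : Option Bool), T ω),
        b ω)) ((f, none, t), c)).trans ?_
      simp only [hNN]
      unfold ex sf
      refine Finset.sum_congr rfl fun ω _ => ?_
      by_cases h1 : F ω = f <;> by_cases h2 : b ω = c <;> by_cases h3 : T ω = t <;>
        simp [ind, h1, h2, h3]
    have hnum0 : ∀ f t c, pr P' (fun q => ((F (π q), (if ζ q then none else some (b (π q)) :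
        Option Bool), T (π q)), b (π q))) ((f, some c, t), !c) = 0 := by
      intro f t c
      unfold pr
      refine Finset.sum_eq_zero fun q _ => ?_
      rw [if_neg]
      intro h
      have h1 := congrArg Prod.snd h
      have h2 := congrArg (fun x => x.1.2.1) h
      simp only at h1 h2
      split_ifs at h2
      have h3 := Option.some.inj h2
      rw [h3] at h1
      cases c <;> simp at h1
    obtain ⟨Gf, hGf⟩ : ∃ Gf : Ω → Bool → ℝ, ∀ ω s, Gf ω s = if s = true then
        Real.binEntropy (NN (F ω) (!b ω) (T ω) /
          (NN (F ω) true (T ω) + NN (F ω) false (T ω))) else 0 := ⟨_, fun _ _ => rfl⟩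
    have h1 : (fun q => Real.binEntropy (opp P' (fun q => (F (π q),
        (if ζ q then none else some (b (π q)) : Option Bool), T (π q))) (fun q => b (π q)) q)) =
        fun q => Gf (π q) (ζ q) := by
      funext q
      rw [hGf]
      unfold opp
      by_cases hz : ζ q = true
      · simp only [hz, if_true]
        have h3 := hnum (F (π q)) (T (π q)) (!b (π q))
        have h4 := hden (F (π q)) (T (π q))
        rw [h3, h4]
      · have hz' : ζ q = false := by simpa using hz
        simp only [hz', Bool.false_eq_true, if_false]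
        have h3 := hnum0 (F (π q)) (T (π q)) (b (π q))
        rw [h3]
        simp
    rw [h1, hN' Gf, ex_sf P F]
    refine Finset.sum_congr rfl fun f _ => ?_
    have h2 : sf P F f (fun ω => e ω * Gf ω true + (1 - e ω) * Gf ω false) =
        sf P F f (fun ω => e ω * Real.binEntropy (NN f (!b ω) (T ω) /
          (NN f true (T ω) + NN f false (T ω)))) := by
      refine sf_congr P F f fun ω hω => ?_
      rw [hGf, hGf, hω]
      simp
    rw [h2, tsplit P F f b T NT e (fun ω hω => by
      have : u ω := by
        by_contra h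
        exact hω ((hNTm ω).2 h)
      simp [he, this]) fun c t => Real.binEntropy (NN f (!c) t / (NN f true t + NN f false t))]
    refine Finset.sum_congr rfl fun t _ => ?_
    show NN f true t * Real.binEntropy (NN f false t / (NN f true t + NN f false t)) +
      NN f false t * Real.binEntropy (NN f true t / (NN f true t + NN f false t)) = _
    exact sym _ _
  -- the entropies
  have hdet : H P' (fun q => ((F (π q), (if ζ q then none else some (b (π q)) : Option Bool)),
      b (π q))) = H P' (fun q => ((F (π q), b (π q)), ζ q)) := by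
    apply le_antisymm
    · apply hDTS
      intro q q' _ _ h
      simp only [Prod.mk.injEq] at h ⊢
      obtain ⟨⟨h1, h2⟩, h3⟩ := h
      rw [h1, h2, h3]
      exact ⟨⟨rfl, rfl⟩, rfl⟩
    · apply hDTS
      intro q q' _ _ h
      simp only [Prod.mk.injEq] at h ⊢
      obtain ⟨⟨h1, h2⟩, h3⟩ := h
      refine ⟨⟨h1, h3⟩, ?_⟩
      cases hz : ζ q <;> cases hz' : ζ q' <;> rw [hz, hz'] at h2 <;> simp at h2 ⊢
  have e1 : CH P' (fun q => F (π q)) (fun q => (if ζ q then none else some (b (π q)) :
      Option Bool)) + CH P' (fun q => (F (π q), (if ζ q then none else some (b (π q)) :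
      Option Bool))) (fun q => b (π q)) = CH P F b + CH P' (fun q => (F (π q), b (π q))) ζ := by
    unfold CH
    rw [hdet, ← hH _ (fun ω => (F ω, b ω)), ← hH _ F]
    ring
  -- the sum over the values of `F`
  have key : ∑ f ∈ univ.image F, ((1 / 8) * (2 * m f true * m f false / M f -
      ∑ t ∈ NT, 2 * a f true t * a f false t / (a f true t + a f false t)) -
      (13 / 10) * (r f true * m f false / M f + r f false * m f true / M f)) ≤
      ∑ f ∈ univ.image F, ((A f true * Real.binEntropy (ef f true) -
        m f true * Real.binEntropy (N f true / m f true)) +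
      (A f false * Real.binEntropy (ef f false) -
        m f false * Real.binEntropy (N f false / m f false)) +
      (N f true + N f false) * Real.binEntropy (N f true / (N f true + N f false)) -
      ∑ t ∈ NT, (NN f true t + NN f false t) *
        Real.binEntropy (NN f true t / (NN f true t + NN f false t))) := by
    refine Finset.sum_le_sum fun f _ => ?_
    have h := hRI β NT (a f) (r f) (A f) (m f) (ef f) (M f)
      (fun c t _ => sf_nonneg P F f fun ω => ind_nn _)
      (fun c => sf_nonneg P F f fun ω => mul_nonneg (ind_nn _) (ind_nn _))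
      (hAa f) (hmA f) (hMm f) (fun c => rfl)
    refine h.trans (le_of_eq ?_)
    rw [hNA f true, hNA f false]
    congr 1
    refine Finset.sum_congr rfl fun t ht => ?_
    rw [hNNa f true t ht, hNNa f false t ht]
  have lhs : (1 / 8) * (O P F b - O P (fun ω => (F ω, T ω)) b) -
      (13 / 10) * ex P (fun ω => if u ω then opp P F b ω else 0) =
      ∑ f ∈ univ.image F, ((1 / 8) * (2 * m f true * m f false / M f -
      ∑ t ∈ NT, 2 * a f true t * a f false t / (a f true t + a f false t)) -
      (13 / 10) * (r f true * m f false / M f + r f false * m f true / M f)) := by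
    rw [t1, t2, t3, Finset.sum_sub_distrib, ← Finset.mul_sum, ← Finset.mul_sum,
      Finset.sum_sub_distrib]
  rw [lhs]
  refine key.trans (le_of_eq ?_)
  rw [Finset.sum_sub_distrib, Finset.sum_add_distrib, Finset.sum_add_distrib,
    Finset.sum_sub_distrib, Finset.sum_sub_distrib, ← q4, ← q3]
  have q2' := q2
  rw [Finset.sum_add_distrib] at q2'
  have t4' := t4
  rw [Finset.sum_add_distrib] at t4'
  linarith

end Pool.Agent.TKN
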