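import Pool.Agent.TKN.St1
import Pool.Agent.NCE.SUB
import Pool.Agent.NCE.DET

/-!
# TKN, module SBS: submodularity on the support
-/

set_option autoImplicit false

open Finset
open scoped Classical

namespace Pool.Agent.TKN

open NCE

namespace MSBS

/-- The retraction to the support. -/
noncomputable def ret {Ω : Type} [Fintype Ω] (P : FP Ω) (ω₀ ω : Ω) : Ω :=
  if P.p ω = 0 then ω₀ else ω

theorem ret_pos {Ω : Type} [Fintype Ω] (P : FP Ω) (ω₀ ω : Ω) (h : P.p ω ≠ 0) :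
    ret P ω₀ ω = ω := if_neg h

theorem p_ret {Ω : Type} [Fintype Ω] (P : FP Ω) (ω₀ ω : Ω) (h₀ : P.p ω₀ ≠ 0) :
    P.p (ret P ω₀ ω) ≠ 0 := by
  by_cases h : P.p ω = 0
  · rw [ret, if_pos h]
    exact h₀
  · rw [ret, if_neg h]
    exact h

theorem exists_pos {Ω : Type} [Fintype Ω] (P : FP Ω) : ∃ ω, P.p ω ≠ 0 := by
  by_contra hc
  push Not at hc
  have h := P.one
  rw [Finset.sum_eq_zero fun ω _ => hc ω] at h
  exact zero_ne_one h

theorem H_ret (h : S_DTS) {Ω : Type} [Fintype Ω] (P : FP Ω) (ω₀ : Ω) {α : Type} (X : Ω → α) :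
    H P (fun ω => X (ret P ω₀ ω)) = H P X := by
  apply le_antisymm
  · refine h Ω P α α X (fun ω => X (ret P ω₀ ω)) fun ω ω' hω hω' he => ?_
    show X (ret P ω₀ ω) = X (ret P ω₀ ω')
    rw [ret_pos P ω₀ ω hω, ret_pos P ω₀ ω' hω', he]
  · refine h Ω P α α (fun ω => X (ret P ω₀ ω)) X fun ω ω' hω hω' he => ?_
    have he' : X (ret P ω₀ ω) = X (ret P ω₀ ω') := he
    rw [ret_pos P ω₀ ω hω, ret_pos P ω₀ ω' hω'] at he'
    exact he'

end MSBS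

open MSBS in
theorem t_SBS (h : S_DTS) : S_SBS := by
  intro Ω _ P α β γ δ U V₁ V₂ W h1 h2 h3
  obtain ⟨ω₀, h₀⟩ := exists_pos P
  have hS := (NCE.t_SUB NCE.t_DET) Ω P α β γ δ (fun ω => U (ret P ω₀ ω))
    (fun ω => V₁ (ret P ω₀ ω)) (fun ω => V₂ (ret P ω₀ ω)) (fun ω => W (ret P ω₀ ω))
    (fun ω ω' he => h1 _ _ (p_ret P ω₀ ω h₀) (p_ret P ω₀ ω' h₀) he)
    (fun ω ω' he => h2 _ _ (p_ret P ω₀ ω h₀) (p_ret P ω₀ ω' h₀) he)
    (fun ω ω' he he' => h3 _ _ (p_ret P ω₀ ω h₀) (p_ret P ω₀ ω' h₀) (Prod.ext he he'))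
  rw [H_ret h P ω₀ U, H_ret h P ω₀ V₁, H_ret h P ω₀ V₂, H_ret h P ω₀ W] at hS
  exact hS

end Pool.Agent.TKN
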