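import Pool.Agent.TKN.St2

/-!
# Project TKN, module SCALE: selection of the scale (helper85)
-/

set_option autoImplicit false

open Finset

namespace Pool.Agent.TKN

namespace MSCALE

/-- counting the pairs `(V, v)`, `v ∈ V` -/
theorem dc {n : ℕ} (F : Finset (Fin n) → ℝ) (t : ℕ) :
    ∑ V ∈ powersetCard (t + 1) (univ : Finset (Fin n)), ∑ v ∈ V, F (V.erase v) =
      ((n : ℝ) - t) * ∑ W ∈ powersetCard t (univ : Finset (Fin n)), F W := by
  have h1 : ((n : ℝ) - t) * ∑ W ∈ powersetCard t (univ : Finset (Fin n)), F W =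
      ∑ W ∈ powersetCard t (univ : Finset (Fin n)), ∑ _v ∈ Wᶜ, F W := by
    rw [mul_sum]
    refine sum_congr rfl fun W hW => ?_
    rw [mem_powersetCard] at hW
    have h2 : W.card ≤ n := by
      have := card_le_univ W
      rwa [Fintype.card_fin] at this
    rw [sum_const, card_compl, Fintype.card_fin, nsmul_eq_mul, Nat.cast_sub h2, hW.2]
  rw [h1, sum_sigma', sum_sigma']
  refine sum_bij' (fun x _ => ⟨x.1.erase x.2, x.2⟩) (fun x _ => ⟨insert x.2 x.1, x.2⟩)
    ?_ ?_ ?_ ?_ ?_
  · rintro ⟨V, v⟩ hx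
    simp only [mem_sigma, mem_powersetCard, subset_univ, true_and] at hx ⊢
    refine ⟨by rw [card_erase_of_mem hx.2, hx.1]; rfl, ?_⟩
    simp
  · rintro ⟨W, v⟩ hx
    simp only [mem_sigma, mem_powersetCard, subset_univ, true_and, mem_compl] at hx ⊢
    exact ⟨by rw [card_insert_of_notMem hx.2, hx.1], mem_insert_self _ _⟩
  · rintro ⟨V, v⟩ hx
    simp only [mem_sigma, mem_powersetCard, subset_univ, true_and] at hx
    simp only [insert_erase hx.2]
  · rintro ⟨W, v⟩ hx
    simp only [mem_sigma, mem_powersetCard, subset_univ, true_and, mem_compl] at hx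
    simp only [erase_insert hx.2]
  · rintro ⟨V, v⟩ _
    rfl

/-- the numerical part -/
theorem num (R ξ : ℝ) (hξ : 0 < ξ) : ∃ γ : ℝ, 0 < γ ∧ ∃ n0 : ℕ, ∀ n ≥ n0,
    ∀ α : ℕ → ℝ, α 0 = 0 → (∀ s < n, 0 ≤ α (s + 1) - α s ∧ α (s + 1) - α s ≤ R) →
    (∀ s, s + 2 ≤ n → 2 * α (s + 1) ≤ α (s + 2) + α s) →
    ∃ t : ℕ, t + 1 ≤ n ∧ γ * n ≤ (t + 1 : ℕ) ∧
      ((t : ℝ) + 1) * (α (t + 1) - α t) - α (t + 1) ≤ ξ * (t + 1) := by
  obtain ⟨L, hL2, hL⟩ : ∃ L : ℕ, 2 ≤ L ∧ R ≤ L * (ξ / 2) := by
    refine ⟨⌈R / (ξ / 2)⌉₊ + 2, by omega, ?_⟩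
    have h1 : R / (ξ / 2) ≤ ((⌈R / (ξ / 2)⌉₊ + 2 : ℕ) : ℝ) := by
      push_cast
      have := Nat.le_ceil (R / (ξ / 2))
      linarith
    rwa [div_le_iff₀ (by linarith)] at h1
  have hL0 : 0 < L := by omega
  have hLL : 0 < L ^ L := pow_pos hL0 L
  refine ⟨1 / (2 * L ^ L), by positivity, L ^ L, fun n hn α h0 hinc hconv => ?_⟩
  -- facts about `α`
  have hmono : ∀ s t, s ≤ t → t < n → α (s + 1) - α s ≤ α (t + 1) - α t := by
    intro s t hst
    induction t, hst using Nat.le_induction with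
    | base => intro _; exact le_rfl
    | succ t hst ih =>
      intro ht
      have h1 := ih (by omega)
      have h2 := hconv t (by omega)
      have e : t + 1 + 1 = t + 2 := rfl
      rw [e]
      linarith
  have hpos : ∀ t, t ≤ n → 0 ≤ α t := by
    intro t
    induction t with
    | zero => intro _; rw [h0]
    | succ t ih =>
      intro ht
      have h1 := ih (by omega)
      have h2 := (hinc t (by omega)).1
      linarith
  have hlow : ∀ s t, s + 1 ≤ t → t ≤ n →
      ((t : ℝ) - (s + 1 : ℕ)) * (α (s + 1) - α s) ≤ α t - α (s + 1) := by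
    intro s t hst
    induction t, hst using Nat.le_induction with
    | base => intro _; simp
    | succ t hst ih =>
      intro ht
      have h1 := ih (by omega)
      have h2 := hmono s t (by omega) (by omega)
      push_cast at h1 ⊢
      nlinarith
  -- the scales
  have hdp : ∀ i ≤ L, 1 ≤ n / L ^ i := by
    intro i hi
    exact Nat.div_pos ((Nat.pow_le_pow_right hL0 hi).trans hn) (pow_pos hL0 i)
  have hdn : ∀ i, n / L ^ i ≤ n := fun i => Nat.div_le_self _ _
  have hdd : ∀ i, n / L ^ (i + 1) * L ≤ n / L ^ i := by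
    intro i
    rw [pow_succ, ← Nat.div_div_eq_div_mul]
    exact Nat.div_mul_le_self _ _
  have hds : ∀ i, n / L ^ (i + 1) ≤ n / L ^ i := by
    intro i
    exact (Nat.le_mul_of_pos_right _ hL0).trans (hdd i)
  set a : ℕ → ℝ := fun i => α (n / L ^ i) - α (n / L ^ i - 1) with ha
  have hn1 : 1 ≤ n := le_trans hLL hn
  have ha0 : a 0 ≤ R := by
    have h1 := (hinc (n - 1) (by omega)).2
    rw [Nat.sub_add_cancel hn1] at h1
    simpa [ha] using h1
  have haL : 0 ≤ a L := by
    have h1 := (hinc (n / L ^ L - 1) (by have := hdn L; have := hdp L le_rfl; omega)).1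
    rw [Nat.sub_add_cancel (hdp L le_rfl)] at h1
    simpa [ha] using h1
  obtain ⟨i, hi, hia⟩ : ∃ i, i < L ∧ a i - a (i + 1) ≤ ξ / 2 := by
    by_contra hcon
    push Not at hcon
    have h1 : ∑ i ∈ range L, (ξ / 2) < ∑ i ∈ range L, (a i - a (i + 1)) := by
      refine sum_lt_sum_of_nonempty ⟨0, mem_range.2 hL0⟩ fun i hi => ?_
      exact hcon i (mem_range.1 hi)
    rw [sum_range_sub', sum_const, card_range, nsmul_eq_mul] at h1
    linarith
  obtain ⟨t, ht⟩ : ∃ t, n / L ^ i = t + 1 := ⟨n / L ^ i - 1, by have := hdp i hi.le; omega⟩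
  obtain ⟨s, hs⟩ : ∃ s, n / L ^ (i + 1) = s + 1 :=
    ⟨n / L ^ (i + 1) - 1, by have := hdp (i + 1) hi; omega⟩
  have hst : (s + 1) * L ≤ t + 1 := by
    have := hdd i
    rwa [hs, ht] at this
  have hst' : s + 1 ≤ t + 1 := by
    have := hds i
    rwa [hs, ht] at this
  have htn : t + 1 ≤ n := ht ▸ hdn i
  have hai : a i = α (t + 1) - α t := by simp [ha, ht]
  have hai' : a (i + 1) = α (s + 1) - α s := by simp [ha, hs]
  rw [hai, hai'] at hia
  refine ⟨t, htn, ?_, ?_⟩
  · have h1 : n / L ^ L ≤ t + 1 := by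
      rw [← ht]
      exact Nat.div_le_div_left (Nat.pow_le_pow_right hL0 hi.le) (pow_pos hL0 i)
    have h2 : n ≤ 2 * L ^ L * (n / L ^ L) := by
      have h3 := Nat.div_add_mod n (L ^ L)
      have h4 := Nat.mod_lt n hLL
      have h5 := hdp L le_rfl
      nlinarith
    have h6 : n ≤ 2 * L ^ L * (t + 1) := h2.trans (Nat.mul_le_mul_left _ h1)
    have h7 : (n : ℝ) ≤ 2 * L ^ L * ((t + 1 : ℕ) : ℝ) := by exact_mod_cast h6
    rw [one_div, inv_mul_le_iff₀ (by positivity)]
    exact h7
  · have h1 := hlow s (t + 1) hst' htn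
    have h2 := hpos (s + 1) (by omega)
    have h3 := (hinc s (by omega)).2
    have h4 : ((s : ℝ) + 1) * L ≤ t + 1 := by exact_mod_cast hst
    have h5 : ((s : ℝ) + 1) * (α (s + 1) - α s) ≤ (t + 1) * (ξ / 2) := by
      calc ((s : ℝ) + 1) * (α (s + 1) - α s) ≤ (s + 1) * R :=
            mul_le_mul_of_nonneg_left h3 (by positivity)
        _ ≤ (s + 1) * (L * (ξ / 2)) := mul_le_mul_of_nonneg_left hL (by positivity)
        _ = ((s : ℝ) + 1) * L * (ξ / 2) := by ring
        _ ≤ _ := mul_le_mul_of_nonneg_right h4 (by linarith)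
    have h6 : ((t : ℝ) + 1) * ((α (t + 1) - α t) - (α (s + 1) - α s)) ≤ (t + 1) * (ξ / 2) :=
      mul_le_mul_of_nonneg_left hia (by positivity)
    push_cast at h1
    nlinarith

end MSCALE

open MSCALE in
theorem t_SCALE : S_SCALE := by
  intro R ξ hR hξ
  obtain ⟨γ, hγ, n0, hnum⟩ := num R ξ hξ
  refine ⟨γ, hγ, n0, fun n hn A hA0 hinc hsup => ?_⟩
  set S : ℕ → ℝ := fun t => ∑ V ∈ powersetCard t (univ : Finset (Fin n)), A V with hS
  set c : ℕ → ℝ := fun t => (n.choose t : ℝ) with hc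
  have hc0 : ∀ t ≤ n, 0 < c t := fun t ht => by
    simp only [hc]
    exact_mod_cast Nat.choose_pos ht
  have hcc : ∀ t ≤ n, c (t + 1) * (t + 1) = c t * (n - t) := by
    intro t ht
    have h1 := Nat.choose_succ_right_eq n t
    have h2 : ((n.choose (t + 1) * (t + 1) : ℕ) : ℝ) = ((n.choose t * (n - t) : ℕ) : ℝ) := by
      rw [h1]
    push_cast [Nat.cast_sub ht] at h2
    exact h2
  have hSα : ∀ t ≤ n, S t = S t / c t * c t := fun t ht => by
    rw [div_mul_cancel₀ _ (hc0 t ht).ne']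
  have hcard : ∀ t, ((powersetCard t (univ : Finset (Fin n))).card : ℝ) = c t := by
    intro t
    rw [card_powersetCard, card_univ, Fintype.card_fin]
  -- the sum of the increments
  have hD : ∀ t, t + 1 ≤ n → ∑ V ∈ powersetCard (t + 1) (univ : Finset (Fin n)),
      ∑ v ∈ V, (A V - A (V.erase v)) =
      (t + 1) * c (t + 1) * (S (t + 1) / c (t + 1) - S t / c t) := by
    intro t ht
    have h1 : ∑ V ∈ powersetCard (t + 1) (univ : Finset (Fin n)),
        ∑ v ∈ V, (A V - A (V.erase v)) = (t + 1) * S (t + 1) - (n - t) * S t := by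
      have h2 : ∑ V ∈ powersetCard (t + 1) (univ : Finset (Fin n)), ∑ _v ∈ V, A V =
          (t + 1) * S (t + 1) := by
        rw [hS, mul_sum]
        refine sum_congr rfl fun V hV => ?_
        rw [mem_powersetCard] at hV
        rw [sum_const, hV.2, nsmul_eq_mul]
        push_cast
        ring
      simp only [sum_sub_distrib]
      rw [h2, dc A t]
    rw [h1]
    have h3 := hcc t (by omega)
    have h4 := (hc0 (t + 1) ht).ne'
    have h5 := (hc0 t (by omega)).ne'
    field_simp
    linear_combination (S t) * h3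
  have g0 : S 0 / c 0 = 0 := by
    simp only [hS, powersetCard_zero, sum_singleton, hA0, zero_div]
  have g1 : ∀ s < n, 0 ≤ S (s + 1) / c (s + 1) - S s / c s ∧
      S (s + 1) / c (s + 1) - S s / c s ≤ R := by
    intro s hs
    have h1 := hD s hs
    have hk : (0 : ℝ) < ((s : ℝ) + 1) * c (s + 1) :=
      mul_pos (by positivity) (hc0 (s + 1) hs)
    constructor
    · have h2 : 0 ≤ ∑ V ∈ powersetCard (s + 1) (univ : Finset (Fin n)),
          ∑ v ∈ V, (A V - A (V.erase v)) :=
        sum_nonneg fun V _ => sum_nonneg fun v hv => (hinc V v hv).1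
      rw [h1] at h2
      exact nonneg_of_mul_nonneg_right h2 hk
    · have h2 : ∑ V ∈ powersetCard (s + 1) (univ : Finset (Fin n)),
          ∑ v ∈ V, (A V - A (V.erase v)) ≤ (s + 1) * c (s + 1) * R := by
        calc _ ≤ ∑ V ∈ powersetCard (s + 1) (univ : Finset (Fin n)), ((s : ℝ) + 1) * R := by
              refine sum_le_sum fun V hV => ?_
              rw [mem_powersetCard] at hV
              refine (sum_le_card_nsmul _ _ _ fun v hv => (hinc V v hv).2).trans (le_of_eq ?_)
              rw [hV.2, nsmul_eq_mul]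
              push_cast
              ring
          _ = _ := by
              rw [sum_const, nsmul_eq_mul, hcard]
              ring
      rw [h1] at h2
      exact le_of_mul_le_mul_left h2 hk
  have g2 : ∀ s, s + 2 ≤ n → 2 * (S (s + 1) / c (s + 1)) ≤ S (s + 2) / c (s + 2) + S s / c s := by
    intro s hs
    have h1 : ∀ V ∈ powersetCard (s + 2) (univ : Finset (Fin n)),
        2 * ((s : ℝ) + 1) * ∑ u ∈ V, A (V.erase u) ≤ (s + 2) * (s + 1) * A V +
          ∑ u ∈ V, ∑ v ∈ V.erase u, A ((V.erase u).erase v) := by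
      intro V hV
      rw [mem_powersetCard] at hV
      have h2 : ∑ u ∈ V, ∑ v ∈ V.erase u, (A (V.erase u) + A (V.erase v)) ≤
          ∑ u ∈ V, ∑ v ∈ V.erase u, (A V + A ((V.erase u).erase v)) := by
        refine sum_le_sum fun u hu => sum_le_sum fun v hv => ?_
        exact hsup V u hu v (mem_of_mem_erase hv) (ne_of_mem_erase hv).symm
      have h3 : ∀ u ∈ V, ∑ _v ∈ V.erase u, A (V.erase u) = ((s : ℝ) + 1) * A (V.erase u) := by
        intro u hu
        rw [sum_const, card_erase_of_mem hu, hV.2, nsmul_eq_mul]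
        congr 1
        have : s + 2 - 1 = s + 1 := rfl
        rw [this]
        push_cast
        ring
      have h4 : ∀ u ∈ V, ∑ v ∈ V.erase u, A (V.erase v) =
          ∑ v ∈ V, A (V.erase v) - A (V.erase u) := fun u hu => sum_erase_eq_sub hu
      have h5 : ∀ u ∈ V, ∑ _v ∈ V.erase u, A V = ((s : ℝ) + 1) * A V := by
        intro u hu
        rw [sum_const, card_erase_of_mem hu, hV.2, nsmul_eq_mul]
        congr 1
        have : s + 2 - 1 = s + 1 := rfl
        rw [this]
        push_cast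
        ring
      simp only [sum_add_distrib] at h2
      rw [sum_congr rfl h3, sum_congr rfl h4, sum_congr rfl h5, sum_sub_distrib, sum_const,
        sum_const, hV.2, nsmul_eq_mul, nsmul_eq_mul, ← mul_sum] at h2
      push_cast at h2
      linarith
    have h2 := sum_le_sum h1
    rw [← mul_sum, sum_add_distrib, ← mul_sum, dc A (s + 1),
      dc (fun W => ∑ v ∈ W, A (W.erase v)) (s + 1), dc A s] at h2
    have e1 : ∑ V ∈ powersetCard (s + 2) (univ : Finset (Fin n)), A V =
        S (s + 2) / c (s + 2) * c (s + 2) := hSα (s + 2) hs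
    have e2 : ∑ V ∈ powersetCard (s + 1) (univ : Finset (Fin n)), A V =
        S (s + 1) / c (s + 1) * c (s + 1) := hSα (s + 1) (by omega)
    have e3 : ∑ V ∈ powersetCard s (univ : Finset (Fin n)), A V =
        S s / c s * c s := hSα s (by omega)
    rw [e1, e2, e3] at h2
    have c1 := hcc (s + 1) (by omega)
    have c2 := hcc s (by omega)
    push_cast at c1 h2
    have e : (s : ℝ) + 1 + 1 = s + 2 := by ring
    have e' : s + 1 + 1 = s + 2 := rfl
    rw [e, e'] at c1
    have hk : (0 : ℝ) < ((s : ℝ) + 1) * (s + 2) * c (s + 2) :=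
      mul_pos (by positivity) (hc0 (s + 2) hs)
    have h3 : ((s : ℝ) + 1) * (s + 2) * c (s + 2) * (2 * (S (s + 1) / c (s + 1))) ≤
        ((s : ℝ) + 1) * (s + 2) * c (s + 2) * (S (s + 2) / c (s + 2) + S s / c s) := by
      have l1 : 2 * ((s : ℝ) + 1) * (((n : ℝ) - (s + 1)) * (S (s + 1) / c (s + 1) * c (s + 1))) =
          ((s : ℝ) + 1) * (s + 2) * c (s + 2) * (2 * (S (s + 1) / c (s + 1))) := by
        linear_combination (-(2 * ((s : ℝ) + 1) * (S (s + 1) / c (s + 1)))) * c1
      have l2 : ((s : ℝ) + 2) * (s + 1) * (S (s + 2) / c (s + 2) * c (s + 2)) +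
          ((n : ℝ) - (s + 1)) * (((n : ℝ) - s) * (S s / c s * c s)) =
          ((s : ℝ) + 1) * (s + 2) * c (s + 2) * (S (s + 2) / c (s + 2) + S s / c s) := by
        linear_combination (-(((n : ℝ) - (s + 1)) * (S s / c s))) * c2 +
          (-((s + 1) * (S s / c s))) * c1
      rw [← l1, ← l2]
      exact h2
    exact le_of_mul_le_mul_left h3 hk
  obtain ⟨t, ht, hγt, hfin⟩ := hnum n hn (fun t => S t / c t) g0 g1 g2
  refine ⟨t + 1, by omega, hγt, ht, ?_⟩
  have h1 : ∑ V ∈ powersetCard (t + 1) (univ : Finset (Fin n)),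
      (∑ v ∈ V, (A V - A (V.erase v)) - A V) =
      c (t + 1) * (((t : ℝ) + 1) * (S (t + 1) / c (t + 1) - S t / c t) -
        S (t + 1) / c (t + 1)) := by
    rw [sum_sub_distrib, hD t ht]
    have h2 : ∑ V ∈ powersetCard (t + 1) (univ : Finset (Fin n)), A V =
        S (t + 1) / c (t + 1) * c (t + 1) := hSα (t + 1) ht
    rw [h2]
    ring
  rw [h1]
  have h2 := mul_le_mul_of_nonneg_left hfin (hc0 (t + 1) ht).le
  refine h2.trans (le_of_eq ?_)
  simp only [hc]
  push_cast
  ring

end Pool.Agent.TKN
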