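import Pool.Agent.TKN.St2

/-!
# Project TKN: sampling
-/

set_option autoImplicit false

open Finset
open scoped Classical

namespace Pool.Agent.TKN

theorem t_SMP (h : S_HYP) : S_SMP := by
  intro α ι S W U m ε hm hm1 hε hU
  have hm0 : (0 : ℝ) < m := by exact_mod_cast hm1
  have hS0 : (0 : ℝ) < S.card := by exact_mod_cast lt_of_lt_of_le hm1 hm
  have e1 : ∑ V ∈ powersetCard m S,
      ((W.filter fun i => 2 * ε * m < ((U i ∩ V).card : ℝ)).card : ℝ) =
      ∑ i ∈ W, (((powersetCard m S).filter fun V => 2 * ε * m < ((U i ∩ V).card : ℝ)).card : ℝ) := by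
    simp only [Finset.card_filter]
    push_cast
    rw [Finset.sum_comm]
  rw [e1]
  have e2 : ∀ i ∈ W,
      (((powersetCard m S).filter fun V => 2 * ε * m < ((U i ∩ V).card : ℝ)).card : ℝ) ≤
        (S.card.choose m : ℝ) / (ε ^ 2 * m) := by
    intro i hi
    rw [le_div_iff₀ (by positivity)]
    have h1 := h α S (U i) m hm
    have h2 : (((powersetCard m S).filter fun V => 2 * ε * m < ((U i ∩ V).card : ℝ)).card : ℝ) *
        (ε * m) ^ 2 ≤
        ∑ V ∈ powersetCard m S, (((U i ∩ V).card : ℝ) - m * (U i ∩ S).card / S.card) ^ 2 := by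
      calc (((powersetCard m S).filter fun V =>
            2 * ε * m < ((U i ∩ V).card : ℝ)).card : ℝ) * (ε * m) ^ 2
          = ∑ V ∈ (powersetCard m S).filter fun V => 2 * ε * m < ((U i ∩ V).card : ℝ),
              (ε * m) ^ 2 := by rw [Finset.sum_const, nsmul_eq_mul]
        _ ≤ ∑ V ∈ (powersetCard m S).filter fun V => 2 * ε * m < ((U i ∩ V).card : ℝ),
              (((U i ∩ V).card : ℝ) - m * (U i ∩ S).card / S.card) ^ 2 := by
            refine Finset.sum_le_sum fun V hV => ?_
            have hV2 := (Finset.mem_filter.1 hV).2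
            have h3 : (m : ℝ) * (U i ∩ S).card / S.card ≤ ε * m := by
              rw [div_le_iff₀ hS0]
              nlinarith [hU i hi]
            have h4 : 0 < ε * m := by positivity
            refine pow_le_pow_left₀ h4.le ?_ 2
            linarith
        _ ≤ ∑ V ∈ powersetCard m S,
              (((U i ∩ V).card : ℝ) - m * (U i ∩ S).card / S.card) ^ 2 :=
            Finset.sum_le_sum_of_subset_of_nonneg (Finset.filter_subset _ _)
              fun _ _ _ => sq_nonneg _
    have h3 := h2.trans h1
    generalize (((powersetCard m S).filter fun V =>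
      2 * ε * m < ((U i ∩ V).card : ℝ)).card : ℝ) = c at h3 ⊢
    have h4 : c * (ε ^ 2 * m) * m ≤ (S.card.choose m : ℝ) * m := by
      have e3 : c * (ε ^ 2 * m) * m = c * (ε * m) ^ 2 := by ring
      rw [e3, mul_comm (S.card.choose m : ℝ)]
      exact h3
    exact le_of_mul_le_mul_right h4 hm0
  calc ∑ i ∈ W, (((powersetCard m S).filter fun V =>
        2 * ε * m < ((U i ∩ V).card : ℝ)).card : ℝ)
      ≤ ∑ i ∈ W, (S.card.choose m : ℝ) / (ε ^ 2 * m) := Finset.sum_le_sum e2
    _ = W.card / (ε ^ 2 * m) * (S.card.choose m) := by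
        rw [Finset.sum_const, nsmul_eq_mul]
        ring

end Pool.Agent.TKN
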