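import Pool.Agent.TKN.Defs

/-!
# Project TKN: statements, part 2 (scale, sampling, averaging, recursion)
-/

set_option autoImplicit false

open Finset
open scoped Classical

namespace Pool.Agent.TKN

open NCE

/-- SCALE.  Selection of the scale, for a supermodular set function with bounded increments.
Proof: let `Abar t` be the average of `A V` over `V` with `|V| = t` (`powersetCard t univ`) and
`a t = Abar t - Abar (t - 1)` for `1 ≤ t ≤ n`.  Counting pairs `(V, v)`: the average over `|V| = t` of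
`∑ v ∈ V, A (V.erase v)` is `t * Abar (t - 1)`, so the average of
`∑ v ∈ V, (A V - A (V.erase v)) - A V` is `t * a t - Abar t`.  Supermodularity, averaged over
`|V| = t + 1` and pairs `u ≠ v` in `V`, gives `a t ≤ a (t + 1)`; `0 ≤ a t ≤ R`.  For `t' ≤ t`:
`Abar t ≥ (t - t') * a t'` (as `Abar 0 = 0`, `a ≥ 0`), so
`t * a t - Abar t ≤ t * (a t - a t') + t' * a t' ≤ t * (a t - a t') + t' * R`.
Let `q = min (1/2) (ξ / (4 R))`, `t_i = ⌊n q^i⌋` for `i ≤ M`, `M ≥ 4 R / ξ + 1`: the sum of the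
`a t_i - a t_{i+1}` is at most `R`, so one of them is `≤ ξ / 4`; and `t_{i+1} ≤ (ξ / (2 R)) t_i` for
large `n`.  `γ = q^M / 2`. -/
def S_SCALE : Prop := ∀ R ξ : ℝ, 0 < R → 0 < ξ → ∃ γ : ℝ, 0 < γ ∧ ∃ n0 : ℕ, ∀ n ≥ n0,
  ∀ A : Finset (Fin n) → ℝ, A ∅ = 0 →
  (∀ V, ∀ v ∈ V, 0 ≤ A V - A (V.erase v) ∧ A V - A (V.erase v) ≤ R) →
  (∀ V, ∀ u ∈ V, ∀ v ∈ V, u ≠ v →
    A (V.erase u) + A (V.erase v) ≤ A V + A ((V.erase u).erase v)) →
  ∃ m : ℕ, 1 ≤ m ∧ γ * n ≤ m ∧ m ≤ n ∧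
    ∑ V ∈ powersetCard m (univ : Finset (Fin n)), (∑ v ∈ V, (A V - A (V.erase v)) - A V) ≤
      ξ * m * (n.choose m)

/-- HYP.  Second moment of the hypergeometric distribution.
Proof: with `N = |S|`, `s = |U ∩ S|`: `∑ V |U ∩ V| = s * (N-1).choose (m-1)`,
`∑ V |U ∩ V| (|U ∩ V| - 1) = s (s - 1) * (N-2).choose (m-2)` (count the pairs), so the variance is
`m (s/N) (1 - s/N) (N-m)/(N-1) ≤ m`.  (Cases `N = 0, 1`, `m = 0, 1` separately.) -/
def S_HYP : Prop := ∀ (α : Type) (S U : Finset α) (m : ℕ), m ≤ S.card →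
  ∑ V ∈ powersetCard m S, (((U ∩ V).card : ℝ) - m * (U ∩ S).card / S.card) ^ 2 ≤
    m * (S.card.choose m)

/-- SMP (uses `S_HYP`).  Sampling: few members of the family `W` are heavy on `V`.
Proof: Chebyshev: if `|U i ∩ S| ≤ ε |S|` and `|U i ∩ V| > 2 ε m` then the deviation is `> ε m`;
so the number of pairs `(V, i)` is at most `|W| * m * choose / (ε m)^2`. -/
def S_SMP : Prop := ∀ (α ι : Type) (S : Finset α) (W : Finset ι) (U : ι → Finset α) (m : ℕ)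
  (ε : ℝ), m ≤ S.card → 1 ≤ m → 0 < ε → (∀ i ∈ W, ((U i ∩ S).card : ℝ) ≤ ε * S.card) →
  ∑ V ∈ powersetCard m S, ((W.filter fun i => 2 * ε * m < ((U i ∩ V).card : ℝ)).card : ℝ) ≤
    W.card / (ε ^ 2 * m) * (S.card.choose m)

/-- TCA (uses `S_DTS`, `S_SBS`).  The set function of the scale selection.
Proof: `A_J V = H id - H (FJ V J)` (`H` for `uni Z`): `A_J ∅ = 0` (`off ∅ z = some ∘ z`);
`A_J V - A_J (V.erase v) = H (FJ (V.erase v) J) - H (FJ V J) = CH (FJ V J) (bit v)` for `v ∈ V`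
(`(FJ V J, bit v)` and `FJ (V.erase v) J` determine each other), which is in `[0, log 2]`;
supermodularity is SBS; `CH (FJ V J) val = A_J V`.  Sum over `J`; each `TC ≥ 0` by SBA-like
induction, or from supermodularity and `A_J ∅ = 0`. -/
def S_TCA : Prop := ∀ (n r : ℕ) (Z : Finset (Fin n → Bool)) (hZ : Z.Nonempty)
  (U : Fin r → (Fin n → Bool) → Finset (Fin n)), ∃ A : Finset (Fin n) → ℝ,
  A ∅ = 0 ∧
  (∀ V, ∀ v ∈ V, 0 ≤ A V - A (V.erase v) ∧ A V - A (V.erase v) ≤ 2 ^ r * Real.log 2) ∧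
  (∀ V, ∀ u ∈ V, ∀ v ∈ V, u ≠ v →
    A (V.erase u) + A (V.erase v) ≤ A V + A ((V.erase u).erase v)) ∧
  (∀ V J, 0 ≤ TC (uni Z hZ) (FJ Z U V J) V Subtype.val) ∧
  ∀ V, ∑ J : Finset (Fin r), TC (uni Z hZ) (FJ Z U V J) V Subtype.val =
    ∑ v ∈ V, (A V - A (V.erase v)) - A V

/-- CHV (uses `S_SCALE`, `S_SMP`, `S_TCA`).  The choice of `V`.
Proof: `R = 2^r log 2` (use `2^r`), SCALE with `ξ / 4` gives `m`; three averages over `|V| = m`:
`∑ V, ∑ J, TC ≤ (ξ/4) m choose`; `∑ V, ∑ v ∈ V, ∑ z ∈ Z, cnt z v = (m/n) * choose * ∑ z, ∑ v, cnt z v`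
and `∑ v, cnt U z v = ∑ j, |U j z| ≤ r w ≤ k n`; and for each `J` with `|J| * w ≤ ε n`, SMP with
`S = univ`, `W = Z`, `U = UJ U J`, `ε`.  Markov: each of the properties fails for at most
`1/4 * choose` sets `V` (for the last ones, in total, for large `n`). -/
def S_CHV : Prop := ∀ (r k : ℕ) (ξ ε θ : ℝ), 0 < ξ → 0 < ε → 0 < θ →
  ∃ γ : ℝ, 0 < γ ∧ ∃ n0 : ℕ, ∀ n ≥ n0, ∀ (w : ℕ) (Z : Finset (Fin n → Bool)) (hZ : Z.Nonempty)
    (U : Fin r → (Fin n → Bool) → Finset (Fin n)), Fam n r w Z U → r * w ≤ k * n →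
    ∃ V : Finset (Fin n), 1 ≤ V.card ∧ γ * n ≤ V.card ∧
      (∀ J, TC (uni Z hZ) (FJ Z U V J) V Subtype.val ≤ ξ * V.card) ∧
      (∑ v ∈ V, ex (uni Z hZ) (fun ω => (cnt U ω.1 v : ℝ)) ≤ 4 * k * V.card) ∧
      ∀ J : Finset (Fin r), (J.card : ℝ) * w ≤ ε * n →
        ((Z.filter fun z => 2 * ε * V.card < ((UJ U J z ∩ V).card : ℝ)).card : ℝ) ≤ θ * Z.card

/-- STEP (uses `S_DTS`, `S_HZ`).  One more pattern, for the spaces `uni Z`.
Proof: HZ with `Ω = {z // z ∈ Z}`, `z = val`, `F = FJ V J`, `U ω = U j ω.1` (canonicity is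
`Fam.canon`), and `O (FJ V (insert j J)) = O (FJ V J, pat (U j) z)` since the two variables
determine each other (`j ∉ J`; `opp` only depends on the partition). -/
def S_STEP : Prop := ∀ (n r w : ℕ) (Z : Finset (Fin n → Bool)) (hZ : Z.Nonempty)
  (U : Fin r → (Fin n → Bool) → Finset (Fin n)), Fam n r w Z U →
  ∀ (V : Finset (Fin n)) (J : Finset (Fin r)) (j : Fin r), j ∉ J →
  ∑ v ∈ V, (O (uni Z hZ) (FJ Z U V J) (bit Z v) - O (uni Z hZ) (FJ Z U V (insert j J)) (bit Z v)) ≤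
    12 * (∑ v ∈ V, ex (uni Z hZ) (fun ω => if v ∈ U j ω.1 then
      opp (uni Z hZ) (FJ Z U V J) (bit Z v) ω else 0)) +
      8 * TC (uni Z hZ) (FJ Z U V J) V Subtype.val

/-- CHO.  Random sets of segments avoid a given set.
Proof: the number is `(r - R.card).choose i`, and
`(r - c).choose i / r.choose i = ∏ t < c, (r - i - t)/(r - t) ≤ ((r - i)/r)^c`. -/
def S_CHO : Prop := ∀ (r i : ℕ) (R : Finset (Fin r)), i ≤ r → 0 < r →
  (((powersetCard i (univ : Finset (Fin r))).filter fun J => Disjoint R J).card : ℝ) ≤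
    (((r : ℝ) - i) / r) ^ R.card * (r.choose i)

/-- REC (uses `S_STEP`, `S_CHO`).  The recursion for the average uncertainty.
Proof: `o i` = the average over `|J| = i` of `Φ J = ∑ v ∈ V, O (FJ V J) (bit v)`.  Pairs `(J, j)`,
`j ∉ J`, `|J| = i`: `(r - i) * choose r i * (o i - o (i+1)) = ∑ J, ∑ j ∉ J, (Φ J - Φ (insert j J))`.
By STEP it is at most `∑ J (12 ∑ v ∈ V, ex (opp v * #{j ∉ J | v ∈ U j}) + 8 (r - i) t)`.  If
`v ∈ U j ω.1` for some `j ∈ J` then `opp = 0` (the bit is a function of `FJ V J`); otherwise the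
number is `cnt v ≤ c0 + (cnt v - c0)^+` and `0 ≤ opp ≤ 1`.  So for fixed `J`, `v`:
`≤ c0 * O + ex ((cnt v - c0)^+ * 1[no j ∈ J reads v])`; average over `J` with CHO
(`R` = the set of the `j` with `v ∈ U j z`): `(cnt - c0)^+ * λ^cnt ≤ cnt * λ^c0`,
`λ = (r - i)/r ≤ 1`. -/
def S_REC : Prop := ∀ (n r w : ℕ) (Z : Finset (Fin n → Bool)) (hZ : Z.Nonempty)
  (U : Fin r → (Fin n → Bool) → Finset (Fin n)), Fam n r w Z U →
  ∀ (V : Finset (Fin n)) (t κ : ℝ),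
  (∀ J, TC (uni Z hZ) (FJ Z U V J) V Subtype.val ≤ t) →
  ∑ v ∈ V, ex (uni Z hZ) (fun ω => (cnt U ω.1 v : ℝ)) ≤ κ →
  ∃ o : ℕ → ℝ, o 0 = ∑ v ∈ V, O (uni Z hZ) (FJ Z U V ∅) (bit Z v) ∧
    (∀ i < r, ∀ c0 : ℕ, o i - 12 / ((r : ℝ) - i) * (c0 * o i + κ * (((r : ℝ) - i) / r) ^ c0) -
      8 * t ≤ o (i + 1)) ∧
    ∀ i ≤ r, ∃ J : Finset (Fin r), J.card = i ∧
      o i ≤ ∑ v ∈ V, O (uni Z hZ) (FJ Z U V J) (bit Z v)

/-- START (uses `S_DTS`, `S_SBA`, `S_BIN`, `S_HE2`).  The uncertainty at the beginning.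
Proof: `log |Z| = H id ≤ H (FJ V ∅) + ∑ v ∈ V, CH (FJ V ∅) (bit v)` (SBA) and
`H (FJ V ∅) ≤ (n - |V|) log 2` (at most `2^(n - |V|)` values: `NCE.S_CNT`).  So
`∑ v ∈ V, (log 2 - CH (bit v)) ≤ n log 2 - log |Z| ≤ d`; by BIN and HE2
`log 2 - CH (bit v) = ex (log 2 - h(opp)) ≥ ex (2 (opp - 1/2)^2)`, and
`∑ over the value of the bit`: `O = ex opp = 1/2 - 2 ex (opp - 1/2)^2` (for each value of `F` with
`π₁`, `π₀`: `opp` is `π₀` with probability `π₁` and `π₁` with probability `π₀`,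
`2 π₁ π₀ = 1/2 - 2 (π₁ - 1/2)^2`). -/
def S_START : Prop := ∀ (n r : ℕ) (Z : Finset (Fin n → Bool)) (hZ : Z.Nonempty)
  (U : Fin r → (Fin n → Bool) → Finset (Fin n)) (V : Finset (Fin n)) (d : ℝ),
  n * Real.log 2 - d ≤ Real.log Z.card →
  (V.card : ℝ) / 2 - d ≤ ∑ v ∈ V, O (uni Z hZ) (FJ Z U V ∅) (bit Z v)

/-- NUM.  The recursion keeps a positive value at a small fraction of the segments; `C` is any
constant.
Proof (note TKN (3)).  Let `p = r - i`, `a p = o (r - p)`: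
`a (p - 1) ≥ a p - 12/p (c0 a p + 4 k (p/r)^c0) - ξ` for every `c0`.
First stage, `c0 = 0`: from `p = r` to `p = r (1 - 1/(C₁ k))` the value stays `≥ 1/10`
(`12/p * 4 k` per step; `C₁ = 600` is enough).
Block from `p_b` to `p_{b+1}`, with `g = p_b / r < 1` and `p_{b+1}/p_b ≥ g^(1/48)`: if
`24 c0 / p_{b+1} ≤ 1` then `1 - 12 c0/p ≥ ((p-1)/p)^(24 c0)`, so the product over the block is
`≥ (p_{b+1}/p_b)^(24 c0) ≥ g^(c0/2)`, the additive loss is `≤ 48 k g^c0 (p_b/p_{b+1} - 1) + r ξ`;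
with `c0` minimal such that `96 k g^(c0/2) ≤ a_b / 4` one gets `a_{b+1} ≥ (a_b/4) g^(c0/2)
≥ a_b^2 g / (2000 k)` (the blocks have ratio `≥ 1/2`).  So `y_b = log (1/a_b)` satisfies
`y_{b+1} ≤ 2 y_b + log (2000 k) + x_b`, `x_b = log (r/p_b)`, and `x_{b+1} = (1 + 1/49) x_b` (or so):
`y_b ≤ 2^b * const`, `x_b = x_1 (50/49)^(b-1)`.  The condition on `C` is
`C (1 + y) eta(4 k e^{-x}) ≤ 1`, true for large `b` since `2^b = O(x_b^35)` and `eta(4 k e^{-x})` is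
exponentially small in `x`.  Choose `b`, then `r` large (integer parts of `r e^{-x_b}`; `c0` is
bounded, so `24 c0 ≤ p` is true for large `r`), `ξ` small against `1/r`, `a_b`.  (Any other way to
prove the statement is fine; `r` may be taken from a suitable sequence.) -/
def S_NUM : Prop := ∀ (k : ℕ) (C : ℝ), 1 ≤ k → 0 < C →
  ∃ (r m0 : ℕ) (μ ξ : ℝ), 0 < m0 ∧ m0 < r ∧ 0 < μ ∧ μ ≤ 1 ∧ 0 < ξ ∧
    4 * (k * m0 / r : ℝ) ≤ 1 / C ∧ C * (1 + Real.log (1 / μ)) * eta (4 * (k * m0 / r)) ≤ 1 ∧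
    ∀ o : ℕ → ℝ, 2 / 5 ≤ o 0 →
      (∀ i < r, ∀ c0 : ℕ, o i - 12 / ((r : ℝ) - i) *
        (c0 * o i + 4 * k * (((r : ℝ) - i) / r) ^ c0) - ξ ≤ o (i + 1)) →
      μ ≤ o (r - m0)

end Pool.Agent.TKN
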