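import Pool.Agent.TKN.St1
import Pool.Agent.TKN.St2
import Pool.Agent.NCE.GIB

/-!
# Project TKN: the uncertainty at the beginning
-/

set_option autoImplicit false

open Finset
open scoped Classical

namespace Pool.Agent.TKN

open NCE

namespace MSTART

section

variable {Ω : Type} [Fintype Ω] {γ α : Type}

theorem pr_nonneg (P : FP Ω) (X : Ω → α) (x : α) : 0 ≤ pr P X x := by
  unfold pr
  apply Finset.sum_nonneg
  intro ω _
  split_ifs
  · exact P.nn ω
  · exact le_rfl

theorem pr_pos (P : FP Ω) (X : Ω → α) {ω : Ω} (h : P.p ω ≠ 0) : 0 < pr P X (X ω) := by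
  have h0 : 0 < P.p ω := lt_of_le_of_ne (P.nn ω) (Ne.symm h)
  have h1 : (if X ω = X ω then P.p ω else 0) ≤ pr P X (X ω) := by
    unfold pr
    refine Finset.single_le_sum (f := fun ω' => if X ω' = X ω then P.p ω' else 0) ?_
      (Finset.mem_univ ω)
    intro i _
    show 0 ≤ if X i = X ω then P.p i else 0
    split_ifs
    · exact P.nn i
    · exact le_rfl
  rw [if_pos rfl] at h1
  linarith

/-- The two values of a bit. -/
theorem pr_split (P : FP Ω) (F : Ω → γ) (b : Ω → Bool) (f : γ) (c : Bool) :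
    pr P F f = pr P (fun ω => (F ω, b ω)) (f, c) + pr P (fun ω => (F ω, b ω)) (f, !c) := by
  unfold pr
  rw [← Finset.sum_add_distrib]
  apply Finset.sum_congr rfl
  intro ω _
  by_cases h1 : F ω = f
  · by_cases h2 : b ω = c
    · have h3 : ¬ (b ω = !c) := by
        rw [h2]
        cases c <;> decide
      rw [if_pos h1, if_pos (Prod.ext h1 h2), if_neg (fun h => h3 (Prod.mk.inj h).2), add_zero]
    · have h3 : b ω = !c := by
        revert h2
        cases b ω <;> cases c <;> decide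
      rw [if_pos h1, if_neg (fun h => h2 (Prod.mk.inj h).2), if_pos (Prod.ext h1 h3), zero_add]
  · rw [if_neg h1, if_neg (fun h => h1 (Prod.mk.inj h).1), if_neg (fun h => h1 (Prod.mk.inj h).1),
      add_zero]

theorem opp_nonneg (P : FP Ω) (F : Ω → γ) (b : Ω → Bool) (ω : Ω) : 0 ≤ opp P F b ω :=
  div_nonneg (pr_nonneg P _ _) (pr_nonneg P _ _)

theorem opp_le_one (P : FP Ω) (F : Ω → γ) (b : Ω → Bool) (ω : Ω) : opp P F b ω ≤ 1 := by
  unfold opp
  apply div_le_one_of_le₀ _ (pr_nonneg P _ _)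
  rw [pr_split P F b (F ω) (b ω)]
  have := pr_nonneg P (fun ω' => (F ω', b ω')) (F ω, b ω)
  linarith

/-- The symmetry between the two values of the bit. -/
theorem ex_swap (P : FP Ω) (F : Ω → γ) (b : Ω → Bool) (g : γ → ℝ) :
    ∑ ω, P.p ω * (pr P (fun ω' => (F ω', b ω')) (F ω, b ω) *
        pr P (fun ω' => (F ω', b ω')) (F ω, !b ω) * g (F ω)) =
      ∑ ω, P.p ω * (pr P (fun ω' => (F ω', b ω')) (F ω, !b ω) *
        pr P (fun ω' => (F ω', b ω')) (F ω, !b ω) * g (F ω)) := by
  set m : γ → Bool → ℝ := fun f c => pr P (fun ω' => (F ω', b ω')) (f, c) with hm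
  have h1 : ∀ h : γ → Bool → ℝ, ∑ ω, P.p ω * (h (F ω) (b ω) * m (F ω) (!b ω)) =
      ∑ ω, ∑ ω', if F ω' = F ω ∧ b ω' = !b ω then P.p ω * P.p ω' * h (F ω) (b ω) else 0 := by
    intro h
    apply Finset.sum_congr rfl
    intro ω _
    have h2 : m (F ω) (!b ω) = ∑ ω', if F ω' = F ω ∧ b ω' = !b ω then P.p ω' else 0 := by
      simp only [hm, pr, Prod.mk.injEq]
    rw [h2, Finset.mul_sum, Finset.mul_sum]
    apply Finset.sum_congr rfl
    intro ω' _
    split_ifs
    · ring
    · ring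
  have h3 := h1 fun f c => m f c * g f
  have h4 := h1 fun f c => m f (!c) * g f
  have e3 : ∑ ω, P.p ω * (m (F ω) (b ω) * m (F ω) (!b ω) * g (F ω)) =
      ∑ ω, P.p ω * (m (F ω) (b ω) * g (F ω) * m (F ω) (!b ω)) :=
    Finset.sum_congr rfl fun ω _ => by ring
  have e4 : ∑ ω, P.p ω * (m (F ω) (!b ω) * m (F ω) (!b ω) * g (F ω)) =
      ∑ ω, P.p ω * (m (F ω) (!b ω) * g (F ω) * m (F ω) (!b ω)) :=
    Finset.sum_congr rfl fun ω _ => by ring
  show ∑ ω, P.p ω * (m (F ω) (b ω) * m (F ω) (!b ω) * g (F ω)) =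
    ∑ ω, P.p ω * (m (F ω) (!b ω) * m (F ω) (!b ω) * g (F ω))
  rw [e3, e4, h3, h4, Finset.sum_comm]
  apply Finset.sum_congr rfl
  intro ω _
  apply Finset.sum_congr rfl
  intro ω' _
  by_cases h5 : F ω = F ω' ∧ b ω = !b ω'
  · have h6 : F ω' = F ω ∧ b ω' = !b ω := by
      refine ⟨h5.1.symm, ?_⟩
      rw [h5.2, Bool.not_not]
    rw [if_pos h5, if_pos h6, h5.1, h5.2, Bool.not_not]
    ring
  · have h6 : ¬ (F ω' = F ω ∧ b ω' = !b ω) := by
      rintro ⟨h7, h8⟩
      apply h5
      refine ⟨h7.symm, ?_⟩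
      rw [h8, Bool.not_not]
    rw [if_neg h5, if_neg h6]

/-- The uncertainty is twice the second moment. -/
theorem ex_opp (P : FP Ω) (F : Ω → γ) (b : Ω → Bool) :
    ex P (opp P F b) = 2 * ex P (fun ω => opp P F b ω ^ 2) := by
  set m : γ → Bool → ℝ := fun f c => pr P (fun ω' => (F ω', b ω')) (f, c) with hm
  have h1 := ex_swap P F b fun f => 1 / (pr P F f) ^ 2
  have h2 : ex P (opp P F b) =
      ∑ ω, P.p ω * (m (F ω) (b ω) * m (F ω) (!b ω) * (1 / (pr P F (F ω)) ^ 2)) +
        ∑ ω, P.p ω * (m (F ω) (!b ω) * m (F ω) (!b ω) * (1 / (pr P F (F ω)) ^ 2)) := by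
    rw [← Finset.sum_add_distrib]
    unfold ex
    apply Finset.sum_congr rfl
    intro ω _
    by_cases h3 : P.p ω = 0
    · rw [h3]
      ring
    · have h4 : pr P F (F ω) ≠ 0 := (pr_pos P F h3).ne'
      have h5 : pr P F (F ω) = m (F ω) (b ω) + m (F ω) (!b ω) := pr_split P F b (F ω) (b ω)
      have h6 : opp P F b ω = m (F ω) (!b ω) / pr P F (F ω) := rfl
      rw [h6]
      have h7 : m (F ω) (!b ω) / pr P F (F ω) =
          (m (F ω) (b ω) + m (F ω) (!b ω)) * m (F ω) (!b ω) / (pr P F (F ω)) ^ 2 := by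
        rw [← h5]
        field_simp
      rw [h7]
      ring
  have h8 : ex P (fun ω => opp P F b ω ^ 2) =
      ∑ ω, P.p ω * (m (F ω) (!b ω) * m (F ω) (!b ω) * (1 / (pr P F (F ω)) ^ 2)) := by
    unfold ex
    apply Finset.sum_congr rfl
    intro ω _
    show P.p ω * (m (F ω) (!b ω) / pr P F (F ω)) ^ 2 = _
    rw [div_pow]
    ring
  have h9 : ∑ ω, P.p ω * (m (F ω) (b ω) * m (F ω) (!b ω) * (1 / (pr P F (F ω)) ^ 2)) =
      ∑ ω, P.p ω * (m (F ω) (!b ω) * m (F ω) (!b ω) * (1 / (pr P F (F ω)) ^ 2)) := h1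
  rw [h2, h8, h9]
  ring

theorem ex_const (P : FP Ω) (c : ℝ) : ex P (fun _ => c) = c := by
  unfold ex
  rw [← Finset.sum_mul, P.one, one_mul]

theorem ex_mono (P : FP Ω) {f g : Ω → ℝ} (h : ∀ ω, f ω ≤ g ω) : ex P f ≤ ex P g := by
  unfold ex
  exact Finset.sum_le_sum fun ω _ => mul_le_mul_of_nonneg_left (h ω) (P.nn ω)

/-- One bit. -/
theorem one_bit (hBIN : S_BIN) (hHE2 : S_HE2) (P : FP Ω) (F : Ω → γ) (b : Ω → Bool) :
    1 / 2 - (Real.log 2 - CH P F b) ≤ O P F b := by
  have h1 : ex P (fun ω => 2 * (opp P F b ω - 1 / 2) ^ 2) ≤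
      ex P (fun ω => Real.log 2 - Real.binEntropy (opp P F b ω)) :=
    ex_mono P fun ω => hHE2 _ (opp_nonneg P F b ω) (opp_le_one P F b ω)
  have h2 : ex P (fun ω => Real.log 2 - Real.binEntropy (opp P F b ω)) =
      Real.log 2 - CH P F b := by
    rw [hBIN Ω P γ F b]
    have h3 : ex P (fun ω => Real.log 2 - Real.binEntropy (opp P F b ω)) =
        ex P (fun _ => Real.log 2) - ex P (fun ω => Real.binEntropy (opp P F b ω)) := by
      unfold ex
      rw [← Finset.sum_sub_distrib]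
      exact Finset.sum_congr rfl fun ω _ => by ring
    rw [h3, ex_const]
  have h4 : ex P (fun ω => 2 * (opp P F b ω - 1 / 2) ^ 2) =
      2 * ex P (fun ω => opp P F b ω ^ 2) - 2 * ex P (opp P F b) + 1 / 2 := by
    have h5 : ex P (fun ω => 2 * (opp P F b ω - 1 / 2) ^ 2) =
        2 * ex P (fun ω => opp P F b ω ^ 2) - 2 * ex P (opp P F b) + ex P (fun _ => (1 : ℝ) / 2) := by
      unfold ex
      rw [Finset.mul_sum, Finset.mul_sum, ← Finset.sum_sub_distrib, ← Finset.sum_add_distrib]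
      exact Finset.sum_congr rfl fun ω _ => by ring
    rw [h5, ex_const]
  have h6 := ex_opp P F b
  have h7 : O P F b = ex P (opp P F b) := rfl
  rw [h7]
  linarith

/-- The entropy of an injective function of a uniform point. -/
theorem H_inj (P : FP Ω) (X : Ω → α) (hX : Function.Injective X) (c : ℝ)
    (hc : ∀ ω, P.p ω = 1 / c) : H P X = Real.log c := by
  have h1 : ∀ ω, pr P X (X ω) = 1 / c := by
    intro ω
    unfold pr
    rw [Finset.sum_eq_single ω]
    · rw [if_pos rfl, hc]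
    · intro ω' _ hne
      rw [if_neg]
      intro h
      exact hne (hX h)
    · intro h
      exact absurd (Finset.mem_univ ω) h
  have h2 : H P X = ex P (fun _ => Real.log c) := by
    unfold H
    congr 1
    funext ω
    rw [h1, one_div, Real.log_inv, neg_neg]
  rw [h2, ex_const]

end

/-- The entropy of the bits outside `V`. -/
theorem H_off {Ω : Type} [Fintype Ω] (P : FP Ω) {n : ℕ} (V : Finset (Fin n))
    (z : Ω → Fin n → Bool) : H P (fun ω => off V (z ω)) ≤ (n - V.card) * Real.log 2 := by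
  have h1 := t_GIB Ω P (Fin n → Option Bool) (fun ω => off V (z ω))
    (Fintype.piFinset fun v => if v ∈ V then {none} else {some false, some true})
    (fun _ => 1) (fun _ _ => one_pos) (by
      intro ω _
      rw [Fintype.mem_piFinset]
      intro v
      unfold off
      by_cases hv : v ∈ V
      · rw [if_pos hv, if_pos hv, Finset.mem_singleton]
      · rw [if_neg hv, if_neg hv]
        cases z ω v
        · simp
        · simp)
  have h2 : ex P (fun _ => Real.log (1 : ℝ)) = 0 := by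
    rw [ex_const, Real.log_one]
  rw [h2, add_zero, Finset.sum_const, Fintype.card_piFinset, nsmul_eq_mul, mul_one] at h1
  have h3 : (∏ v : Fin n, (if v ∈ V then ({none} : Finset (Option Bool))
      else {some false, some true}).card) = 2 ^ (n - V.card) := by
    have h4 : ∀ v : Fin n, (if v ∈ V then ({none} : Finset (Option Bool))
        else {some false, some true}).card = if v ∈ V then 1 else 2 := by
      intro v
      split_ifs
      · rfl
      · rfl
    simp_rw [h4]
    rw [Finset.prod_ite, Finset.prod_const_one, one_mul, Finset.prod_const]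
    congr 1
    have h5 : (univ.filter fun v : Fin n => v ∉ V) = univ \ V := by
      ext v
      simp
    rw [h5, Finset.card_sdiff_of_subset (Finset.subset_univ V), Finset.card_univ,
      Fintype.card_fin]
  rw [h3] at h1
  have h6 : V.card ≤ n := by
    have := Finset.card_le_univ V
    rwa [Fintype.card_fin] at this
  push_cast at h1
  rw [Real.log_pow, Nat.cast_sub h6] at h1
  exact h1

end MSTART

open MSTART

theorem t_START (hDTS : S_DTS) (hSBA : S_SBA) (hBIN : S_BIN) (hHE2 : S_HE2) : S_START := by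
  intro n r Z hZ U V d hd
  set P := uni Z hZ with hP
  set F := FJ Z U V ∅ with hF
  have hX : H P (Subtype.val : {z // z ∈ Z} → Fin n → Bool) = Real.log Z.card :=
    H_inj P _ Subtype.val_injective _ fun _ => rfl
  have h1 : H P (Subtype.val : {z // z ∈ Z} → Fin n → Bool) ≤
      H P (fun ω : {z // z ∈ Z} => (F ω, ω.1)) := by
    apply hDTS
    intro ω ω' _ _ h
    exact (Prod.mk.inj h).2
  have h2 : CH P F (Subtype.val : {z // z ∈ Z} → Fin n → Bool) ≤
      ∑ v ∈ V, CH P F (fun ω : {z // z ∈ Z} => ω.1 v) := by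
    apply hSBA
    intro v hv ω ω' _ _ h
    have h3 := congrFun (Prod.mk.inj h).1 v
    unfold off at h3
    rw [if_neg hv, if_neg hv] at h3
    exact Option.some_injective _ h3
  have h4 : H P F ≤ (n - V.card) * Real.log 2 := by
    refine le_trans ?_ (H_off P V fun ω : {z // z ∈ Z} => ω.1)
    apply hDTS
    intro ω ω' _ _ h
    show FJ Z U V ∅ ω = FJ Z U V ∅ ω'
    unfold FJ
    refine Prod.ext h ?_
    funext j
    simp only [Finset.notMem_empty, if_false]
  have h5 : CH P F (Subtype.val : {z // z ∈ Z} → Fin n → Bool) =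
      H P (fun ω : {z // z ∈ Z} => (F ω, ω.1)) - H P F := rfl
  have h6 : ∑ v ∈ V, (1 / 2 - (Real.log 2 - CH P F (bit Z v))) ≤ ∑ v ∈ V, O P F (bit Z v) :=
    Finset.sum_le_sum fun v _ => one_bit hBIN hHE2 P F (bit Z v)
  have h7 : ∑ v ∈ V, (1 / 2 - (Real.log 2 - CH P F (bit Z v))) =
      V.card * (1 / 2 - Real.log 2) + ∑ v ∈ V, CH P F (bit Z v) := by
    have h8 : ∑ v ∈ V, (1 / 2 - (Real.log 2 - CH P F (bit Z v))) =
        ∑ v ∈ V, ((1 / 2 - Real.log 2) + CH P F (bit Z v)) :=
      Finset.sum_congr rfl fun v _ => by ring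
    rw [h8, Finset.sum_add_distrib, Finset.sum_const, nsmul_eq_mul]
  have h9 : ∑ v ∈ V, CH P F (fun ω : {z // z ∈ Z} => ω.1 v) =
      ∑ v ∈ V, CH P F (bit Z v) := rfl
  rw [h9] at h2
  rw [h7] at h6
  rw [hX] at h1
  rw [h5] at h2
  linarith

end Pool.Agent.TKN
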