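import Pool.Agent.TKN.St1
import Pool.Agent.TKN.St2

/-!
# TKN_STEP: one more pattern, for the spaces `uni Z` (helper30)
-/

set_option autoImplicit false

open Finset
open scoped Classical

namespace Pool.Agent.TKN

open NCE

namespace MSTEP

theorem O_congr {Ω γ δ : Type} [Fintype Ω] (P : FP Ω) (F : Ω → γ) (G : Ω → δ) (b : Ω → Bool)
    (h : ∀ ω ω', F ω = F ω' ↔ G ω = G ω') : O P F b = O P G b := by
  unfold O
  congr 1
  funext ω
  unfold opp pr
  congr 1
  · refine Finset.sum_congr rfl fun x _ => ?_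
    have h1 : (F x, b x) = (F ω, !b ω) ↔ (G x, b x) = (G ω, !b ω) := by
      rw [Prod.mk.injEq, Prod.mk.injEq, h]
    by_cases hc : (F x, b x) = (F ω, !b ω)
    · rw [if_pos hc, if_pos (h1.1 hc)]
    · rw [if_neg hc, if_neg fun h2 => hc (h1.2 h2)]
  · refine Finset.sum_congr rfl fun x _ => ?_
    by_cases hc : F x = F ω
    · rw [if_pos hc, if_pos ((h x ω).1 hc)]
    · rw [if_neg hc, if_neg fun h2 => hc ((h x ω).2 h2)]

theorem FJ_insert {n r : ℕ} (Z : Finset (Fin n → Bool))
    (U : Fin r → (Fin n → Bool) → Finset (Fin n)) (V : Finset (Fin n)) (J : Finset (Fin r))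
    (j : Fin r) (ω ω' : {z // z ∈ Z}) :
    FJ Z U V (insert j J) ω = FJ Z U V (insert j J) ω' ↔
      (FJ Z U V J ω, pat (U j ω.1) ω.1) = (FJ Z U V J ω', pat (U j ω'.1) ω'.1) := by
  unfold FJ
  simp only [Prod.mk.injEq]
  constructor
  · rintro ⟨h1, h2⟩
    refine ⟨⟨h1, funext fun i => ?_⟩, ?_⟩
    · by_cases hi : i ∈ J
      · have := congrFun h2 i
        simp only [Finset.mem_insert, hi, or_true, if_true] at this
        simp only [hi, if_true, this]
      · simp only [hi, if_false]
    · have := congrFun h2 j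
      simpa only [Finset.mem_insert, true_or, if_true] using this
  · rintro ⟨⟨h1, h2⟩, h3⟩
    refine ⟨h1, funext fun i => ?_⟩
    by_cases hij : i = j
    · subst hij
      simp only [Finset.mem_insert, true_or, if_true, h3]
    · have := congrFun h2 i
      simpa only [Finset.mem_insert, hij, false_or] using this

end MSTEP

theorem t_STEP (_h1 : S_DTS) (h2 : S_HZ) : S_STEP := by
  intro n r w Z hZ U hF V J j _
  have key := h2 {z // z ∈ Z} (uni Z hZ) _ (FJ Z U V J) n Subtype.val V
    (fun ω => U j ω.1) Subtype.val_injective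
    (by
      intro ω ω' h v hv
      have h3 := congrFun (congrArg Prod.fst h) v
      simp only [FJ, off, hv, if_false, Option.some.injEq] at h3
      exact h3)
    (by
      intro ω ω' _ h3 h4
      exact hF.canon j ω.1 ω.2 ω'.1 ω'.2 h3 h4)
  have e : ∀ v : Fin n, O (uni Z hZ) (FJ Z U V (insert j J)) (bit Z v) =
      O (uni Z hZ) (fun ω => (FJ Z U V J ω, pat (U j ω.1) ω.1)) (bit Z v) := fun v =>
    MSTEP.O_congr _ _ _ _ fun ω ω' => MSTEP.FJ_insert Z U V J j ω ω'
  simp only [e]
  exact key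

end Pool.Agent.TKN
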