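import Pool.Agent.TKN.St1
import Pool.Agent.TKN.St2
import Pool.Agent.NCE.DET
import Pool.Agent.NCE.GIB
import Pool.Agent.NCE.CNT

/-!
# TCA: the set function of the scale selection

Project TKN.  `A V = ∑ J, (H id - H (FJ V J))` for the uniform probability on `Z`.
-/

set_option autoImplicit false

open Finset
open scoped Classical

namespace Pool.Agent.TKN

open NCE

namespace MTCA

section
variable {n r : ℕ} (Z : Finset (Fin n → Bool)) (U : Fin r → (Fin n → Bool) → Finset (Fin n))

/-- a larger set gives less information -/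
theorem det_mono {S V : Finset (Fin n)} (h : S ⊆ V) (J : Finset (Fin r)) :
    Det (FJ Z U S J) (FJ Z U V J) := by
  intro ω ω' e
  have e1 : off S ω.1 = off S ω'.1 := congrArg Prod.fst e
  refine Prod.ext ?_ (congrArg Prod.snd e :)
  funext x
  show off V ω.1 x = off V ω'.1 x
  have e3 := congrFun e1 x
  unfold off at e3 ⊢
  by_cases hx : x ∈ V
  · rw [if_pos hx, if_pos hx]
  · have hx' : x ∉ S := fun hs => hx (h hs)
    rw [if_neg hx', if_neg hx'] at e3
    rw [if_neg hx, if_neg hx, e3]

/-- the information for two sets determines the information for their intersection -/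
theorem det_inter (S T : Finset (Fin n)) (J : Finset (Fin r)) :
    Det (fun ω => (FJ Z U S J ω, FJ Z U T J ω)) (FJ Z U (S ∩ T) J) := by
  intro ω ω' e
  have e1 : FJ Z U S J ω = FJ Z U S J ω' := congrArg Prod.fst e
  have e2 : FJ Z U T J ω = FJ Z U T J ω' := congrArg Prod.snd e
  have a1 : off S ω.1 = off S ω'.1 := congrArg Prod.fst e1
  have a2 : off T ω.1 = off T ω'.1 := congrArg Prod.fst e2
  refine Prod.ext ?_ (congrArg Prod.snd e1 :)
  funext x
  show off (S ∩ T) ω.1 x = off (S ∩ T) ω'.1 x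
  have b1 := congrFun a1 x
  have b2 := congrFun a2 x
  unfold off at b1 b2 ⊢
  by_cases h : x ∈ S ∩ T
  · rw [if_pos h, if_pos h]
  · rw [if_neg h, if_neg h]
    by_cases h1 : x ∈ S
    · have h2 : x ∉ T := fun h2 => h (mem_inter.2 ⟨h1, h2⟩)
      rw [if_neg h2, if_neg h2] at b2
      exact b2
    · rw [if_neg h1, if_neg h1] at b1
      exact b1

/-- the information for `V.erase v` determines the bit `v` -/
theorem det_bit (V : Finset (Fin n)) (v : Fin n) (J : Finset (Fin r)) :
    Det (FJ Z U (V.erase v) J) (bit Z v) := by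
  intro ω ω' e
  have e1 : off (V.erase v) ω.1 = off (V.erase v) ω'.1 := congrArg Prod.fst e
  have e3 := congrFun e1 v
  unfold off at e3
  rw [if_neg (notMem_erase v V), if_neg (notMem_erase v V)] at e3
  exact Option.some.inj e3

/-- the information for `V` and the bit `v` determine the information for `V.erase v` -/
theorem det_erase (V : Finset (Fin n)) (v : Fin n) (J : Finset (Fin r)) :
    Det (fun ω => (FJ Z U V J ω, bit Z v ω)) (FJ Z U (V.erase v) J) := by
  intro ω ω' e
  have e1 : FJ Z U V J ω = FJ Z U V J ω' := congrArg Prod.fst e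
  have e2 : ω.1 v = ω'.1 v := congrArg Prod.snd e
  have a1 : off V ω.1 = off V ω'.1 := congrArg Prod.fst e1
  refine Prod.ext ?_ (congrArg Prod.snd e1 :)
  funext x
  show off (V.erase v) ω.1 x = off (V.erase v) ω'.1 x
  have b1 := congrFun a1 x
  unfold off at b1 ⊢
  by_cases h : x ∈ V.erase v
  · rw [if_pos h, if_pos h]
  · rw [if_neg h, if_neg h]
    by_cases h1 : x ∈ V
    · have h2 : x = v := by
        by_contra h2
        exact h (mem_erase.2 ⟨h2, h1⟩)
      rw [h2, e2]
    · rw [if_neg h1, if_neg h1] at b1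
      exact b1

/-- the information for the empty set determines the word -/
theorem det_empty (J : Finset (Fin r)) {β : Type} (X : {z // z ∈ Z} → β) :
    Det (FJ Z U ∅ J) X := by
  intro ω ω' e
  have e1 : off ∅ ω.1 = off ∅ ω'.1 := congrArg Prod.fst e
  have e2 : ω = ω' := by
    apply Subtype.ext
    funext x
    have e3 := congrFun e1 x
    unfold off at e3
    rw [if_neg (notMem_empty x), if_neg (notMem_empty x)] at e3
    exact Option.some.inj e3
  rw [e2]

end

/-- the conditional entropy of a bit is at most `log 2` -/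
theorem ch_le {Ω γ : Type} [Fintype Ω] (P : FP Ω) (F : Ω → γ) (b : Ω → Bool) :
    CH P F b ≤ Real.log 2 := by
  have h := t_CNT t_GIB Ω P γ Bool F b (fun _ => univ) (fun _ _ => mem_univ _)
  have e : ex P (fun ω => Real.log (((fun _ : γ => (univ : Finset Bool)) (F ω)).card : ℝ)) =
      Real.log 2 := by
    unfold ex
    rw [← sum_mul, P.one, one_mul, Finset.card_univ, Fintype.card_bool]
    norm_num
  rw [e] at h
  unfold CH
  linarith

theorem detS {Ω α β : Type} [Fintype Ω] (P : FP Ω) {V : Ω → α} {W : Ω → β} (h : Det V W) :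
    DetS P V W := fun ω ω' _ _ e => h ω ω' e

theorem H_congr (h1 : S_DTS) {Ω α β : Type} [Fintype Ω] (P : FP Ω) {V : Ω → α} {W : Ω → β}
    (h : Det V W) (h' : Det W V) : H P V = H P W :=
  le_antisymm (h1 Ω P β α W V (detS P h')) (h1 Ω P α β V W (detS P h))

section
variable {n r : ℕ} (Z : Finset (Fin n → Bool)) (hZ : Z.Nonempty)
  (U : Fin r → (Fin n → Bool) → Finset (Fin n))

/-- the part of the set function that belongs to `J` -/
noncomputable def AJ (J : Finset (Fin r)) (V : Finset (Fin n)) : ℝ :=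
  H (uni Z hZ) (Subtype.val : {z // z ∈ Z} → (Fin n → Bool)) - H (uni Z hZ) (FJ Z U V J)

theorem AJ_empty (h1 : S_DTS) (J : Finset (Fin r)) : AJ Z hZ U J ∅ = 0 := by
  unfold AJ
  rw [H_congr h1 (uni Z hZ) (V := FJ Z U ∅ J)
    (W := (Subtype.val : {z // z ∈ Z} → (Fin n → Bool))) (det_empty Z U J _) ?_, sub_self]
  intro ω ω' e
  rw [Subtype.ext e]

theorem AJ_sub (h1 : S_DTS) (J : Finset (Fin r)) (V : Finset (Fin n)) (v : Fin n) :
    AJ Z hZ U J V - AJ Z hZ U J (V.erase v) = CH (uni Z hZ) (FJ Z U V J) (bit Z v) := by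
  unfold AJ CH
  have e : H (uni Z hZ) (fun ω => (FJ Z U V J ω, bit Z v ω)) =
      H (uni Z hZ) (FJ Z U (V.erase v) J) := by
    refine H_congr h1 (uni Z hZ) (det_erase Z U V v J) ?_
    intro ω ω' e
    exact Prod.ext (det_mono Z U (erase_subset v V) J ω ω' e) (det_bit Z U V v J ω ω' e)
  rw [e]
  ring

theorem AJ_nn (h1 : S_DTS) (J : Finset (Fin r)) (V : Finset (Fin n)) (v : Fin n) :
    0 ≤ AJ Z hZ U J V - AJ Z hZ U J (V.erase v) := by
  unfold AJ
  have := h1 _ (uni Z hZ) _ _ (FJ Z U (V.erase v) J) (FJ Z U V J)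
    (detS _ (det_mono Z U (erase_subset v V) J))
  linarith

theorem AJ_le (h1 : S_DTS) (J : Finset (Fin r)) (V : Finset (Fin n)) (v : Fin n) :
    AJ Z hZ U J V - AJ Z hZ U J (V.erase v) ≤ Real.log 2 := by
  rw [AJ_sub Z hZ U h1 J V v]
  exact ch_le _ _ _

/-- supermodularity -/
theorem AJ_sup (h2 : S_SBS) (J : Finset (Fin r)) {S T V : Finset (Fin n)} (hS : S ⊆ V)
    (hT : T ⊆ V) :
    AJ Z hZ U J S + AJ Z hZ U J T ≤ AJ Z hZ U J V + AJ Z hZ U J (S ∩ T) := by
  unfold AJ
  have := h2 _ (uni Z hZ) _ _ _ _ (FJ Z U V J) (FJ Z U S J) (FJ Z U T J) (FJ Z U (S ∩ T) J)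
    (detS _ (det_mono Z U hS J)) (detS _ (det_mono Z U hT J)) (detS _ (det_inter Z U S T J))
  linarith

theorem AJ_le_sum (h1 : S_DTS) (h2 : S_SBS) (J : Finset (Fin r)) (V : Finset (Fin n)) :
    AJ Z hZ U J V ≤ ∑ v ∈ V, (AJ Z hZ U J V - AJ Z hZ U J (V.erase v)) := by
  have key : ∀ S : Finset (Fin n), S ⊆ V →
      AJ Z hZ U J S ≤ ∑ v ∈ S, (AJ Z hZ U J V - AJ Z hZ U J (V.erase v)) := by
    intro S
    induction S using Finset.induction_on with
    | empty =>
      intro _
      rw [AJ_empty Z hZ U h1 J, sum_empty]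
    | insert a S ha ih =>
      intro hS
      have hS' : S ⊆ V := (subset_insert a S).trans hS
      have haV : a ∈ V := hS (mem_insert_self a S)
      rw [sum_insert ha]
      have h3 := AJ_sup Z hZ U h2 J hS (erase_subset a V)
      have e : insert a S ∩ V.erase a = S := by
        ext x
        rw [mem_inter, mem_insert, mem_erase]
        constructor
        · rintro ⟨h4 | h4, h5, _⟩
          · exact absurd h4 h5
          · exact h4
        · intro h4
          exact ⟨Or.inr h4, fun h5 => ha (h5 ▸ h4), hS' h4⟩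
      rw [e] at h3
      have h4 := ih hS'
      linarith
  exact key V (Subset.refl V)

theorem TC_eq (h1 : S_DTS) (J : Finset (Fin r)) (V : Finset (Fin n)) :
    TC (uni Z hZ) (FJ Z U V J) V Subtype.val =
      ∑ v ∈ V, (AJ Z hZ U J V - AJ Z hZ U J (V.erase v)) - AJ Z hZ U J V := by
  unfold TC
  have e1 : ∑ v ∈ V, CH (uni Z hZ) (FJ Z U V J)
        (fun ω => (Subtype.val : {z // z ∈ Z} → (Fin n → Bool)) ω v) =
      ∑ v ∈ V, (AJ Z hZ U J V - AJ Z hZ U J (V.erase v)) :=
    sum_congr rfl fun v _ => (AJ_sub Z hZ U h1 J V v).symm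
  have e2 : CH (uni Z hZ) (FJ Z U V J) (Subtype.val : {z // z ∈ Z} → (Fin n → Bool)) =
      AJ Z hZ U J V := by
    unfold CH AJ
    have e : H (uni Z hZ) (fun ω => (FJ Z U V J ω, (ω.1 : Fin n → Bool))) =
        H (uni Z hZ) (Subtype.val : {z // z ∈ Z} → (Fin n → Bool)) := by
      refine H_congr h1 (uni Z hZ) (fun ω ω' e => congrArg Prod.snd e) ?_
      intro ω ω' e
      rw [Subtype.ext e]
    rw [e]
  rw [e1, e2]

end

end MTCA

open MTCA in
theorem t_TCA (h1 : S_DTS) (h2 : S_SBS) : S_TCA := by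
  intro n r Z hZ U
  refine ⟨fun V => ∑ J : Finset (Fin r), AJ Z hZ U J V, ?_, ?_, ?_, ?_, ?_⟩
  · exact sum_eq_zero fun J _ => AJ_empty Z hZ U h1 J
  · intro V v _
    rw [← sum_sub_distrib]
    constructor
    · exact sum_nonneg fun J _ => AJ_nn Z hZ U h1 J V v
    · calc ∑ J : Finset (Fin r), (AJ Z hZ U J V - AJ Z hZ U J (V.erase v))
          ≤ ∑ _J : Finset (Fin r), Real.log 2 := sum_le_sum fun J _ => AJ_le Z hZ U h1 J V v
        _ = 2 ^ r * Real.log 2 := by
          rw [sum_const, Finset.card_univ, Fintype.card_finset, Fintype.card_fin, nsmul_eq_mul]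
          push_cast
          ring
  · intro V u _ v _ _
    rw [← sum_add_distrib, ← sum_add_distrib]
    refine sum_le_sum fun J _ => ?_
    have h3 := AJ_sup Z hZ U h2 J (erase_subset u V) (erase_subset v V)
    have e : V.erase u ∩ V.erase v = (V.erase u).erase v := by
      ext x
      simp only [mem_inter, mem_erase]
      tauto
    rw [e] at h3
    exact h3
  · intro V J
    rw [TC_eq Z hZ U h1 J V]
    have := AJ_le_sum Z hZ U h1 h2 J V
    linarith
  · intro V
    rw [sum_congr rfl fun J _ => TC_eq Z hZ U h1 J V, sum_sub_distrib, sum_comm]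
    congr 1
    refine sum_congr rfl fun v _ => ?_
    rw [sum_sub_distrib]

end Pool.Agent.TKN
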