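import Pool.Agent.TKN.St3
import Pool.Agent.NCE.CNT
import Pool.Agent.NCE.GIB

/-!
# UPP: upper bound for the entropy of the first side
-/

set_option autoImplicit false

open Finset
open scoped Classical

namespace Pool.Agent.TKN

open NCE

namespace MUPP

/-- a function of the bits in `S` -/
noncomputable def ext {n : ℕ} (S : Finset (Fin n)) (a : {v // v ∈ S} → Bool) :
    Fin n → Option Bool :=
  fun v => if h : v ∈ S then some (a ⟨v, h⟩) else none

theorem pat_eq {n : ℕ} (S : Finset (Fin n)) (z : Fin n → Bool) :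
    pat S z = ext S fun v => z v.1 := by
  funext v
  unfold pat ext
  by_cases h : v ∈ S
  · rw [if_pos h, dif_pos h]
  · rw [if_neg h, dif_neg h]

theorem card_le {n : ℕ} (S : Finset (Fin n)) (T : Finset (Fin n → Option Bool))
    (hT : ∀ t ∈ T, ∃ z, t = pat S z) : T.card ≤ 2 ^ S.card := by
  have h1 : T ⊆ (univ : Finset ({v // v ∈ S} → Bool)).image (ext S) := by
    intro t ht
    obtain ⟨z, rfl⟩ := hT t ht
    rw [pat_eq]
    exact Finset.mem_image_of_mem _ (Finset.mem_univ _)
  refine (Finset.card_le_card h1).trans (Finset.card_image_le.trans ?_)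
  rw [Finset.card_univ, Fintype.card_fun, Fintype.card_bool, Fintype.card_coe]

theorem ex_mono {Ω : Type} [Fintype Ω] (P : FP Ω) (f g : Ω → ℝ)
    (h : ∀ ω, P.p ω ≠ 0 → f ω ≤ g ω) : ex P f ≤ ex P g := by
  unfold ex
  refine Finset.sum_le_sum fun ω _ => ?_
  by_cases h0 : P.p ω = 0
  · rw [h0, zero_mul, zero_mul]
  · exact mul_le_mul_of_nonneg_left (h ω h0) (P.nn ω)

theorem ex_add_mul {Ω : Type} [Fintype Ω] (P : FP Ω) (f g : Ω → ℝ) (c : ℝ) :
    ex P f + c * ex P g = ex P fun ω => f ω + c * g ω := by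
  unfold ex
  rw [Finset.mul_sum, ← Finset.sum_add_distrib]
  refine Finset.sum_congr rfl fun ω _ => ?_
  ring

/-- the values of `X` on the class `k` -/
noncomputable def vk {Ω : Type} [Fintype Ω] (P : FP Ω) {κ α : Type} (K : Ω → κ) (X : Ω → α) (k : κ) :
    Finset α := (univ.filter fun q => P.p q ≠ 0 ∧ K q = k).image X

theorem mem_vk {Ω : Type} [Fintype Ω] (P : FP Ω) {κ α : Type} (K : Ω → κ) (X : Ω → α) (ω : Ω)
    (h : P.p ω ≠ 0) : X ω ∈ vk P K X (K ω) :=
  Finset.mem_image_of_mem X (Finset.mem_filter.2 ⟨Finset.mem_univ ω, h, rfl⟩)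

theorem of_mem_vals {Ω : Type} [Fintype Ω] (P : FP Ω) {κ α : Type} (K : Ω → κ) (X : Ω → α) (q : Ω)
    (t : α) (h : t ∈ vals P K X q) : ∃ q', K q' = K q ∧ X q' = t := by
  unfold vals at h
  obtain ⟨q', hq', h1⟩ := Finset.mem_image.1 h
  exact ⟨q', (Finset.mem_filter.1 hq').2.2, h1⟩

theorem ch_le {Ω : Type} [Fintype Ω] (P : FP Ω) {κ α : Type} (K : Ω → κ) (X : Ω → α) :
    CH P K X ≤ ex P fun q => Real.log (vals P K X q).card := by
  have h1 := t_CNT t_GIB Ω P κ α K X (vk P K X) (fun ω hω => mem_vk P K X ω hω)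
  have h2 : (ex P fun q => Real.log ((vals P K X q).card : ℝ)) =
      ex P fun q => Real.log ((vk P K X (K q)).card : ℝ) := rfl
  rw [h2]
  unfold CH
  linarith

end MUPP

theorem t_UPP : S_UPP := by
  intro n r Z U J1 Ω' _ P' π D b E S2 M hM hb
  set K := KK U J1 b E S2 π D with hK
  set X : Ω' → Fin n → Option Bool := fun q => pat (S1 b D q) (π q).1 with hX
  refine (MUPP.ch_le P' K X).trans ?_
  rw [MUPP.ex_add_mul]
  refine MUPP.ex_mono P' _ _ fun q _ => ?_
  -- all values in the class of `q` are patterns on `S1 q`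
  have hval : ∀ t ∈ vals P' K X q, ∃ z, t = pat (S1 b D q) z := by
    intro t ht
    obtain ⟨q', h3, rfl⟩ := MUPP.of_mem_vals P' K X q t ht
    have h4 : S1 b D q' = S1 b D q := congrArg Prod.fst h3
    exact ⟨(π q').1, by rw [hX]; simp only [h4]⟩
  have hc := MUPP.card_le (S1 b D q) (vals P' K X q) hval
  have hlogM : 0 ≤ Real.log (M : ℝ) := Real.log_natCast_nonneg M
  have hlog : Real.log ((vals P' K X q).card : ℝ) ≤ ((S1 b D q).card : ℝ) * Real.log 2 := by
    rcases Nat.eq_zero_or_pos (vals P' K X q).card with h0 | h0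
    · rw [h0, Nat.cast_zero, Real.log_zero]
      exact mul_nonneg (Nat.cast_nonneg _) (Real.log_nonneg (by norm_num))
    · rw [← Real.log_pow]
      exact Real.log_le_log (by exact_mod_cast h0) (by exact_mod_cast hc)
  by_cases hL : Lev b (D q)
  · rw [if_pos hL]
    by_cases hM2 : M ≤ (vals P' K X q).card
    · rw [if_pos ⟨hL, hM2⟩]
      have h5 : S1 b D q = D q := by
        unfold S1
        rw [if_pos hL]
      rw [h5] at hlog
      have h6 : ((D q).card : ℝ) * Real.log 2 ≤ b * Real.log 2 :=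
        mul_le_mul_of_nonneg_right hL.2 (Real.log_nonneg (by norm_num))
      linarith
    · rw [if_neg fun h => hM2 h.2, mul_zero, add_zero]
      rcases Nat.eq_zero_or_pos (vals P' K X q).card with h0 | h0
      · rw [h0, Nat.cast_zero, Real.log_zero]
        exact hlogM
      · exact Real.log_le_log (by exact_mod_cast h0) (by exact_mod_cast (not_le.1 hM2).le)
  · rw [if_neg hL, if_neg fun h => hL h.1, mul_zero, add_zero]
    have h5 : S1 b D q = ∅ := by
      unfold S1
      rw [if_neg hL]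
    rw [h5, Finset.card_empty, Nat.cast_zero, zero_mul] at hlog
    exact hlog

end Pool.Agent.TKN
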