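import Pool.Agent.TKN.P_DTS
import Pool.Agent.TKN.P_SBS
import Pool.Agent.TKN.P_SBA
import Pool.Agent.TKN.P_BIN
import Pool.Agent.TKN.P_NOI
import Pool.Agent.TKN.P_HE1
import Pool.Agent.TKN.P_HE2
import Pool.Agent.TKN.P_HE3
import Pool.Agent.TKN.P_RI
import Pool.Agent.TKN.P_SBI
import Pool.Agent.TKN.P_HZ
import Pool.Agent.TKN.P_D1
import Pool.Agent.TKN.P_SCALE
import Pool.Agent.TKN.P_HYP
import Pool.Agent.TKN.P_SMP
import Pool.Agent.TKN.P_TCA
import Pool.Agent.TKN.P_CHV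
import Pool.Agent.TKN.P_STEP
import Pool.Agent.TKN.P_CHO
import Pool.Agent.TKN.P_REC
import Pool.Agent.TKN.P_START
import Pool.Agent.TKN.P_NUM
import Pool.Agent.TKN.P_DSX
import Pool.Agent.TKN.P_COV
import Pool.Agent.TKN.P_RCT
import Pool.Agent.TKN.P_UPP
import Pool.Agent.TKN.P_LOW
import Pool.Agent.TKN.P_SUBS
import Pool.Agent.TKN.P_CTE
import Pool.Agent.TKN.P_LEV
import Pool.Agent.TKN.P_CORE
import Pool.Agent.TKN.P_FAM
import Pool.Agent.TKN.P_LOWF
import Pool.Agent.TKN.P_AVT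
import Pool.Agent.TKN.P_COT
import Pool.Agent.TKN.P_MAT
import Pool.Agent.CFT.FIX

/-!
# Project TKN: assembly

The closed theorems: `core : S_CORE` (the core theorem about intersections of `r` unions of
subcubes), `lowF : S_LOWF` (fork programs on `n` bits), `avt : S_AVT`, `cot : S_COT`.
-/

set_option autoImplicit false

namespace Pool.Agent.TKN

theorem hz : S_HZ :=
  have hSBS : S_SBS := t_SBS t_DTS
  t_HZ t_DTS hSBS (t_SBA t_DTS hSBS) t_NOI (t_SBI t_DTS t_BIN (t_RI t_HE1 t_HE2 t_HE3))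

theorem core : S_CORE :=
  have hSBS : S_SBS := t_SBS t_DTS
  have hSBA : S_SBA := t_SBA t_DTS hSBS
  have hSMP : S_SMP := t_SMP t_HYP
  have hCHV : S_CHV := t_CHV t_SCALE hSMP (t_TCA t_DTS hSBS)
  have hREC : S_REC := t_REC (t_STEP t_DTS hz) t_CHO
  have hSTART : S_START := t_START t_DTS hSBA t_BIN t_HE2
  have hDSX : S_DSX := t_DSX (t_D1 t_DTS hSBS hSBA t_BIN t_NOI)
  t_CORE t_NUM hCHV hREC hSTART hDSX t_COV t_UPP (t_LOW t_DTS hSBS) t_SUBS
    (t_CTE t_COV (t_RCT t_COV) t_SUBS) t_LEV hSMP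

theorem lowF : S_LOWF := t_LOWF t_FAM core

theorem avt : S_AVT := t_AVT lowF CFT.t_FIX

theorem cot : S_COT := t_COT avt

end Pool.Agent.TKN
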