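import Pool.Agent.TKN.St6

/-!
# TKN/ONE, module LOW1: the lower bounds for the one function
-/

set_option autoImplicit false

open Finset

namespace Pool.Agent.TKN.ONE

open Pool.Agent.Lib_helper20.SRO (Agrees)
open Pool.Agent.URG (VarA VarG VarX goodA goodF Good pol deg Num lg)
open Pool.Agent.HPM.Fn (Coord)

namespace MLOW1

lemma put_apply {U V : Type} {ι : U → V} (hι : Function.Injective ι) (a : V → Bool)
    (b : U → Bool) (x : U) : put ι a b (ι x) = b x := by
  unfold put
  have h : ∃ x', ι x' = ι x := ⟨x, rfl⟩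
  rw [dif_pos h]
  exact congrArg b (hι h.choose_spec)

lemma put_of_not {U V : Type} {ι : U → V} (a : V → Bool) (b : U → Bool) {y : V}
    (h : ∀ x, ι x ≠ y) : put ι a b y = a y := by
  unfold put
  rw [dif_neg]
  rintro ⟨x, hx⟩
  exact h x hx

lemma dat_ne_sw {M : ℕ} (j : Fin (2 * M)) (e : Fin (blk M)) : dat j ≠ sw e := by
  intro h
  have h1 := congrArg Fin.val h
  unfold dat sw at h1
  rw [Fin.val_natAdd, Fin.val_castAdd] at h1
  have := e.2
  omega

lemma dat_inj {M : ℕ} : Function.Injective (dat (M := M)) := Fin.natAdd_injective _ _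

lemma sw_inj {M : ℕ} : Function.Injective (sw (M := M)) := Fin.castAdd_injective _ _

/-- the restriction of `fA` to the inputs with only one switch on -/
lemma fA_put {M : ℕ} (β : Bas M) (ly : Lay M) (e : Fin (blk M)) (b : BV M (e.val + 1) → Bool) :
    fA β ly (put (fun w => dat (ly.pos e w)) (fun i => decide (i = sw e)) b) =
      goodA (β e) b := by
  classical
  have hι : Function.Injective fun w => dat (ly.pos e w) := fun x y h => ly.inj e (dat_inj h)
  have h1 : ∀ e' : Fin (blk M), put (fun w => dat (ly.pos e w)) (fun i => decide (i = sw e)) b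
      (sw e') = decide (e' = e) := by
    intro e'
    rw [put_of_not _ _ (fun x => dat_ne_sw _ e')]
    by_cases h : e' = e
    · rw [h]
      simp
    · have h2 : sw e' ≠ sw e := fun h' => h (sw_inj h')
      simp [h, h2]
  have h2 : inp ly e (put (fun w => dat (ly.pos e w)) (fun i => decide (i = sw e)) b) = b := by
    funext w
    exact put_apply hι _ b w
  unfold fA
  have h3 : (∀ e' : Fin (blk M), put (fun w => dat (ly.pos e w)) (fun i => decide (i = sw e)) b
      (sw e') = true → goodA (β e')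
        (inp ly e' (put (fun w => dat (ly.pos e w)) (fun i => decide (i = sw e)) b)) = true) ↔
      goodA (β e) b = true := by
    constructor
    · intro h
      have h4 := h e (by rw [h1]; simp)
      rwa [h2] at h4
    · intro h e' he'
      rw [h1, decide_eq_true_iff] at he'
      subst he'
      rwa [h2]
  rw [Bool.eq_iff_iff, decide_eq_true_iff]
  exact h3

/-- the variables of `goodF` -/
def pos' {M : ℕ} (ly : Lay M) (e : Fin (blk M)) :
    VarG (pt M (e.val + 1)) (e.val + 1) (cop (e.val + 1)) → Fin (size M + 1)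
  | Sum.inl (Sum.inl i) => (dat (ly.pos e (Sum.inl i))).castSucc
  | Sum.inl (Sum.inr _) => Fin.last _
  | Sum.inr p => (dat (ly.pos e (Sum.inr p))).castSucc

lemma pos'_inj {M : ℕ} (ly : Lay M) (e : Fin (blk M)) : Function.Injective (pos' ly e) := by
  rintro ((x | x) | x) ((y | y) | y) h
  · have h1 := ly.inj e (dat_inj (Fin.castSucc_injective _ h))
    rw [Sum.inl.injEq] at h1
    rw [h1]
  · exact absurd h (Fin.castSucc_lt_last _).ne
  · have h1 := ly.inj e (dat_inj (Fin.castSucc_injective _ h))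
    exact absurd h1 (by simp)
  · exact absurd h.symm (Fin.castSucc_lt_last _).ne
  · rfl
  · exact absurd h.symm (Fin.castSucc_lt_last _).ne
  · have h1 := ly.inj e (dat_inj (Fin.castSucc_injective _ h))
    exact absurd h1 (by simp)
  · exact absurd h (Fin.castSucc_lt_last _).ne
  · have h1 := ly.inj e (dat_inj (Fin.castSucc_injective _ h))
    rw [Sum.inr.injEq] at h1
    rw [h1]

/-- the input without the polarity bit -/
def cut {n e L : ℕ} (b : VarG n e L → Bool) : VarA n e L → Bool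
  | Sum.inl i => b (Sum.inl (Sum.inl i))
  | Sum.inr p => b (Sum.inr p)

lemma goodF_cut {n e L : ℕ} (β : Coord (deg n e)) (b : VarG n e L → Bool) :
    goodF β b = decide (goodA β (cut b) = true ↔ b (Sum.inl (Sum.inr ())) = true) := by
  classical
  unfold goodF goodA
  rw [decide_eq_decide, decide_eq_true_iff]
  exact Iff.rfl

lemma fF_put {M : ℕ} (β : Bas M) (ly : Lay M) (e : Fin (blk M))
    (b : VarG (pt M (e.val + 1)) (e.val + 1) (cop (e.val + 1)) → Bool) :
    fF β ly (put (pos' ly e) (fun i => decide (i = (sw e).castSucc)) b) = goodF (β e) b := by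
  classical
  have h1 : (fun i : Fin (size M) => put (pos' ly e) (fun i => decide (i = (sw e).castSucc)) b
      i.castSucc) = put (fun w => dat (ly.pos e w)) (fun i => decide (i = sw e)) (cut b) := by
    funext i
    by_cases h : ∃ w, dat (ly.pos e w) = i
    · obtain ⟨w, rfl⟩ := h
      have hι : Function.Injective fun w => dat (ly.pos e w) := fun x y h => ly.inj e (dat_inj h)
      have e1 : put (fun w => dat (ly.pos e w)) (fun i => decide (i = sw e)) (cut b)
          (dat (ly.pos e w)) = cut b w := put_apply hι (fun i => decide (i = sw e)) (cut b) w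
      rw [e1]
      rcases w with w | w
      · exact put_apply (pos'_inj ly e) (fun i => decide (i = (sw e).castSucc)) b
          (Sum.inl (Sum.inl w))
      · exact put_apply (pos'_inj ly e) (fun i => decide (i = (sw e).castSucc)) b (Sum.inr w)
    · have h' : ∀ w, dat (ly.pos e w) ≠ i := fun w hw => h ⟨w, hw⟩
      rw [put_of_not _ _ h', put_of_not]
      · have : (i.castSucc = (sw e).castSucc) ↔ i = sw e :=
          ⟨fun h => Fin.castSucc_injective _ h, fun h => by rw [h]⟩
        rw [decide_eq_decide]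
        exact this
      · rintro ((w | w) | w) hw
        · exact h' _ (Fin.castSucc_injective _ hw)
        · exact (Fin.castSucc_lt_last _).ne hw.symm
        · exact h' _ (Fin.castSucc_injective _ hw)
  have h2 : put (pos' ly e) (fun i => decide (i = (sw e).castSucc)) b (Fin.last _) =
      b (Sum.inl (Sum.inr ())) :=
    put_apply (pos'_inj ly e) (fun i => decide (i = (sw e).castSucc)) b (Sum.inl (Sum.inr ()))
  unfold fF
  rw [h1, h2, fA_put, goodF_cut]

lemma dl_inj {M : ℕ} (ly : Lay M) (e : Fin (blk M)) :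
    Function.Injective fun w => dat (ly.pos e w) := fun _ _ h => ly.inj e (dat_inj h)

/-- the three lower bounds, from the block number `e` -/
lemma red_all (hRED : S_RED) {M : ℕ} (β : Bas M) (ly : Lay M) (e : Fin (blk M)) (K k : ℕ)
    (c0 c : ℝ) (hc : 0 < c)
    (g : CoreT K c0 (pt M (e.val + 1)) (cop (e.val + 1))
        (goodA (L := cop (e.val + 1)) (β e)) ∧
      CoreT K c0 (pt M (e.val + 1)) (cop (e.val + 1)) (goodF (L := cop (e.val + 1)) (β e)) ∧
      CoreT K c0 (pt M (e.val + 1)) (cop (e.val + 1))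
        (fun v : VarG (pt M (e.val + 1)) (e.val + 1) (cop (e.val + 1)) → Bool =>
          !goodF (β e) v))
    (h : ∀ N : ℕ, 2 * M ≤ N → N ≤ 3 * M →
      k * N ≤ K * (pt M (e.val + 1) * cop (e.val + 1)) ∧
      4 * (c * N) ≤ c0 * (pt M (e.val + 1) : ℕ) ∧ 1 ≤ c * (N : ℝ))
    (hs1 : 2 * M ≤ size M) (hs2 : size M + 1 ≤ 3 * M) :
    HardT k c (size M) (fA β ly) ∧ HardT k c (size M + 1) (fF β ly) ∧
      HardT k c (size M + 1) (fun v => !fF β ly v) := by
  obtain ⟨g1, g2, g3⟩ := g
  obtain ⟨a1, a2, a3⟩ := h (size M) hs1 (by omega)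
  obtain ⟨b1, b2, b3⟩ := h (size M + 1) (by omega) hs2
  refine ⟨?_, ?_, ?_⟩
  · exact hRED K k _ _ (size M) c0 c _ (goodA (β e)) (fA β ly)
      (fun w => dat (ly.pos e w)) (fun i => decide (i = sw e))
      (dl_inj ly e) (fA_put β ly e) g1 a1 hc a2 a3
  · exact hRED K k _ _ (size M + 1) c0 c _ (goodF (β e)) (fF β ly)
      (pos' ly e) (fun i => decide (i = (sw e).castSucc))
      (pos'_inj ly e) (fF_put β ly e) g2 b1 hc b2 b3
  · exact hRED K k _ _ (size M + 1) c0 c _ (fun b => !goodF (β e) b) (fun v => !fF β ly v)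
      (pos' ly e) (fun i => decide (i = (sw e).castSucc))
      (pos'_inj ly e) (fun b => by rw [fF_put β ly e b]) g3 b1 hc b2 b3

end MLOW1

open MLOW1

theorem t_LOW1 (hCOT : S_COT) (hNM2 : S_NM2) (hSIZ : S_SIZ) (hRED : S_RED) : S_LOW1 := by
  intro k hk
  obtain ⟨c0, h0, h1, n0, hcot⟩ := hCOT (6 * k) (by omega)
  obtain ⟨e, he1, hnum⟩ := hNM2 c0 h0 h1
  obtain ⟨f, rfl⟩ : ∃ f, e = f + 1 := ⟨e - 1, by omega⟩
  have hcop : 1 ≤ cop (f + 1) := by
    unfold cop
    omega
  obtain ⟨n1, hnum⟩ := hnum (cop (f + 1)) hcop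
  have hDR : (1 : ℝ) ≤ cop (f + 1) := by exact_mod_cast hcop
  have hc : 0 < c0 / (24 * cop (f + 1)) := by positivity
  refine ⟨c0 / (24 * cop (f + 1)), hc, 2 ^ 56 + 2 ^ (8 * (f + 1)) +
    (n0 + n1 + 1) * cop (f + 1) + ⌈24 * cop (f + 1) / c0⌉₊, ?_⟩
  intro M hM β ly
  have hsum : ∀ a b c d : ℕ, a + b + c + d ≤ M → a ≤ M ∧ b ≤ M ∧ c ≤ M ∧ d ≤ M := by
    intro a b c d h
    omega
  obtain ⟨hM56, hMe, hMn, hMc⟩ := hsum _ _ _ _ hM
  obtain ⟨⟨hs1, hs2⟩, -, hsz⟩ := hSIZ M hM56
  have heb : f + 1 ≤ blk M := by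
    unfold blk lg
    have : 8 * (f + 1) ≤ Nat.log 2 M := Nat.le_log_of_pow_le (by norm_num) hMe
    omega
  obtain ⟨hp2, -, -, -, -, -, -, hM2⟩ := hsz (f + 1) (by omega) heb
  have hpn : n0 + n1 + 1 ≤ pt M (f + 1) := by
    unfold pt
    exact (Nat.le_div_iff_mul_le (by omega)).2 hMn
  have hMR : (M : ℝ) ≤ 2 * ((pt M (f + 1) : ℕ) * (cop (f + 1) : ℕ)) := by exact_mod_cast hM2
  have hMc' : 24 * (cop (f + 1) : ℝ) / c0 ≤ M := (Nat.le_ceil _).trans (by exact_mod_cast hMc)
  refine red_all hRED β ly ⟨f, heb⟩ (6 * k) k c0 _ hc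
    (hcot (pt M (f + 1)) (by omega) (f + 1) (cop (f + 1)) (β ⟨f, heb⟩)
      (hnum (pt M (f + 1)) (by omega))) ?_ hs1 hs2
  intro N hN1 hN2
  show k * N ≤ 6 * k * (pt M (f + 1) * cop (f + 1)) ∧
    4 * (c0 / (24 * cop (f + 1)) * N) ≤ c0 * (pt M (f + 1) : ℕ) ∧
    1 ≤ c0 / (24 * cop (f + 1)) * (N : ℝ)
  have hN1R : 2 * (M : ℝ) ≤ N := by exact_mod_cast hN1
  have hN2R : (N : ℝ) ≤ 3 * M := by exact_mod_cast hN2
  generalize pt M (f + 1) = n at hM2 hMR ⊢
  refine ⟨?_, ?_, ?_⟩
  · calc k * N ≤ k * (3 * M) := Nat.mul_le_mul_left _ hN2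
      _ ≤ k * (3 * (2 * (n * cop (f + 1)))) := by gcongr
      _ = _ := by ring
  · have e1 : (N : ℝ) ≤ 6 * (n * cop (f + 1)) := by linarith
    calc 4 * (c0 / (24 * cop (f + 1)) * (N : ℝ))
        ≤ 4 * (c0 / (24 * cop (f + 1)) * (6 * (n * cop (f + 1)))) := by gcongr
      _ = c0 * n := by
        field_simp
        ring
  · rw [div_le_iff₀ h0] at hMc'
    rw [div_mul_eq_mul_div, le_div_iff₀ (by positivity)]
    have : (M : ℝ) * c0 ≤ c0 * N := by
      have hM0 : (0 : ℝ) ≤ M := Nat.cast_nonneg _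
      nlinarith
    linarith

end Pool.Agent.TKN.ONE
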