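import Pool.Agent.TKN.St5

/-!
# Project TKN/ONE, module NBP: nondeterministic programs from automata
-/

set_option autoImplicit false

open Finset

namespace Pool.Agent.TKN.ONE

open Pool.Agent.Lib_helper20.SRO (Agrees NBP Walk)

namespace MNBP

variable {Ω V : Type} {m : ℕ}

/-- The program that guesses `ω` and simulates the automaton number `ω`. -/
def prg (δ : Ω → Fin m → V → Bool → V) (s : Ω → V) (acc : Ω → V → Prop) :
    NBP (Fin m) (Option (Option (Ω × Fin (m + 1) × V))) where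
  source := none
  sink := some none
  edge u v o :=
    (∃ ω, u = none ∧ v = some (some (ω, 0, s ω)) ∧ o = none) ∨
    (∃ (ω : Ω) (i : Fin m) (a : V) (c : Bool), u = some (some (ω, i.castSucc, a)) ∧
      v = some (some (ω, i.succ, δ ω i a c)) ∧ o = some (i, c)) ∨
    (∃ ω a, acc ω a ∧ u = some (some (ω, Fin.last m, a)) ∧ v = some none ∧ o = none)

lemma drop_eq (i : Fin m) : (List.finRange m).drop i = i :: (List.finRange m).drop (i + 1) := by
  rw [List.drop_eq_getElem_cons (by simp)]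
  simp

variable {δ : Ω → Fin m → V → Bool → V} {s : Ω → V} {acc : Ω → V → Prop}

lemma walk_sink {w : Option (Option (Ω × Fin (m + 1) × V))} {l : List (Fin m × Bool)}
    (h : Walk (prg δ s acc) (some none) w l) : l = [] ∧ w = some none := by
  rcases h with _ | ⟨he, -⟩ | ⟨y, c, he, -⟩
  · exact ⟨rfl, rfl⟩
  · rcases he with ⟨_, h1, _⟩ | ⟨_, _, _, _, h1, _⟩ | ⟨_, _, _, h1, _⟩ <;>
      exact absurd h1 (by simp)
  · rcases he with ⟨_, h1, _⟩ | ⟨_, _, _, _, h1, _⟩ | ⟨_, _, _, h1, _⟩ <;>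
      exact absurd h1 (by simp)

/-- the last state if the state before the bit `i` is `a` -/
def tot (δ : Ω → Fin m → V → Bool → V) (ω : Ω) (x : Fin m → Bool) (i : ℕ) (a : V) : V :=
  ((List.finRange m).drop i).foldl (fun s j => δ ω j s (x j)) a

lemma tot_eq (ω : Ω) (x : Fin m → Bool) (i : Fin m) (a : V) :
    tot δ ω x i a = tot δ ω x (i + 1) (δ ω i a (x i)) := by
  unfold tot
  rw [drop_eq, List.foldl_cons]

lemma tot_last (ω : Ω) (x : Fin m → Bool) (a : V) : tot δ ω x m a = a := by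
  unfold tot
  rw [List.drop_of_length_le (by simp)]
  rfl

lemma walk_inner {u w : Option (Option (Ω × Fin (m + 1) × V))} {l : List (Fin m × Bool)}
    (h : Walk (prg δ s acc) u w l) : ∀ (ω : Ω) (i : Fin (m + 1)) (a : V),
      u = some (some (ω, i, a)) → l.map Prod.fst <+: (List.finRange m).drop i ∧
      (∀ x, Agrees x l → w = some none → acc ω (tot δ ω x i a)) := by
  induction h with
  | nil u =>
    intro ω i a hu
    refine ⟨List.nil_prefix, fun x _ hw => ?_⟩
    rw [hu] at hw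
    exact absurd hw (by simp)
  | @free u v w l he hw ih =>
    intro ω i a hu
    rcases he with ⟨_, h1, _⟩ | ⟨_, _, _, _, _, _, h1⟩ | ⟨ω', a', ha, h1, h2, -⟩
    · rw [hu] at h1
      exact absurd h1 (by simp)
    · exact absurd h1 (by simp)
    · rw [hu] at h1
      have h3 := Option.some.inj (Option.some.inj h1)
      rw [Prod.mk.injEq, Prod.mk.injEq] at h3
      obtain ⟨rfl, rfl, rfl⟩ := h3
      rw [h2] at hw
      obtain ⟨rfl, -⟩ := walk_sink hw
      refine ⟨List.nil_prefix, fun x _ _ => ?_⟩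
      rw [Fin.val_last, tot_last]
      exact ha
  | @test u v w l y c he hw ih =>
    intro ω i a hu
    rcases he with ⟨_, _, _, h1⟩ | ⟨ω', j, a', c', h1, h2, h3⟩ | ⟨_, _, _, _, _, h1⟩
    · exact absurd h1 (by simp)
    · rw [hu] at h1
      have h4 := Option.some.inj (Option.some.inj h1)
      rw [Prod.mk.injEq, Prod.mk.injEq] at h4
      obtain ⟨rfl, rfl, rfl⟩ := h4
      have h5 := Option.some.inj h3
      rw [Prod.mk.injEq] at h5
      obtain ⟨rfl, rfl⟩ := h5
      obtain ⟨i1, i2⟩ := ih _ _ _ h2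
      rw [Fin.val_succ] at i1 i2
      rw [Fin.val_castSucc]
      refine ⟨?_, fun x hx hw0 => ?_⟩
      · rw [drop_eq, List.map_cons]
        exact (List.cons_prefix_cons).2 ⟨rfl, i1⟩
      · have h6 : Agrees x l := fun p hp => hx p (List.mem_cons_of_mem _ hp)
        have h7 : x y = c := hx (y, c) List.mem_cons_self
        rw [tot_eq, h7]
        exact i2 x h6 hw0
    · exact absurd h1 (by simp)

lemma walk_source {w : Option (Option (Ω × Fin (m + 1) × V))} {l : List (Fin m × Bool)}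
    (h : Walk (prg δ s acc) none w l) : l.map Prod.fst <+: List.finRange m ∧
      (∀ x, Agrees x l → w = some none → ∃ ω, acc ω (tot δ ω x 0 (s ω))) := by
  rcases h with _ | ⟨he, hw⟩ | ⟨y, c, he, -⟩
  · exact ⟨List.nil_prefix, fun x _ h => absurd h (by simp)⟩
  · rcases he with ⟨ω, -, h1, -⟩ | ⟨_, _, _, _, h1, _⟩ | ⟨_, _, _, h1, _⟩
    · obtain ⟨i1, i2⟩ := walk_inner hw ω 0 (s ω) h1
      exact ⟨i1, fun x hx hw0 => ⟨ω, i2 x hx hw0⟩⟩
    · exact absurd h1 (by simp)
    · exact absurd h1 (by simp)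
  · rcases he with ⟨_, _, _, h1⟩ | ⟨_, _, _, _, h1, _⟩ | ⟨_, _, _, h1, _⟩ <;>
      exact absurd h1 (by simp)

lemma run (x : Fin m → Bool) (ω : Ω) : ∀ (k : ℕ) (i : Fin (m + 1)) (a : V), i.val + k = m →
    acc ω (tot δ ω x i a) →
    ∃ l, Walk (prg δ s acc) (some (some (ω, i, a))) (some none) l ∧ Agrees x l := by
  intro k
  induction k with
  | zero =>
    intro i a hi ha
    have hi' : i = Fin.last m := Fin.ext (by simpa using hi)
    subst hi'
    rw [Fin.val_last, tot_last] at ha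
    exact ⟨[], Walk.free (v := some none) (Or.inr (Or.inr ⟨ω, a, ha, rfl, rfl, rfl⟩)) (Walk.nil _),
      fun p hp => absurd hp (by simp)⟩
  | succ k ih =>
    intro i a hi ha
    have hi' : i.val < m := by omega
    obtain ⟨j, rfl⟩ : ∃ j : Fin m, i = j.castSucc := ⟨⟨i, hi'⟩, rfl⟩
    rw [Fin.val_castSucc] at ha hi
    rw [tot_eq] at ha
    obtain ⟨l, hw, hl⟩ := ih j.succ _ (by rw [Fin.val_succ]; omega)
      (by rw [Fin.val_succ]; exact ha)
    refine ⟨(j, x j) :: l, Walk.test _ _ (Or.inr (Or.inl ⟨ω, j, a, x j, rfl, rfl,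
      rfl⟩)) hw, ?_⟩
    intro p hp
    rcases List.mem_cons.1 hp with rfl | hp
    · rfl
    · exact hl p hp

end MNBP

open MNBP in
theorem t_NBP : S_NBP := by
  intro m V Ω _ _ P hP
  choose δ s acc h using hP
  refine ⟨_, inferInstance, prg δ s acc, fun l hl => ?_, fun x => ⟨?_, ?_⟩, ?_⟩
  · exact (List.pairwise_lt_finRange m).sublist (walk_source hl).1.sublist
  · rintro ⟨l, hw, hl⟩
    obtain ⟨ω, h1⟩ := (walk_source hw).2 x hl rfl
    exact ⟨ω, (h ω x).2 h1⟩
  · rintro ⟨ω, h1⟩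
    obtain ⟨l, hw, hl⟩ := run (δ := δ) (s := s) (acc := acc) x ω m 0 (s ω) (by simp)
      ((h ω x).1 h1)
    exact ⟨l, Walk.free (v := some (some (ω, 0, s ω))) (Or.inl ⟨ω, rfl, rfl, rfl⟩) hw, hl⟩
  · rw [Fintype.card_option, Fintype.card_option, Fintype.card_prod, Fintype.card_prod,
      Fintype.card_fin]

end Pool.Agent.TKN.ONE
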