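import Pool.Agent.TKN.St6
import Pool.Agent.URG.Nume

/-!
# NM2: the numeric conditions with a free number of points
-/

set_option autoImplicit false

open Finset

namespace Pool.Agent.TKN.ONE

open Pool.Agent.URG

theorem t_NM2 : S_NM2 := by
  intro c0 h0 h1
  -- `2 ^ e ≥ 36 / c0`
  obtain ⟨e, he⟩ := pow_unbounded_of_one_lt (36 / c0) (one_lt_two (α := ℝ))
  have he36 : 36 < c0 * 2 ^ e := by
    rw [div_lt_iff₀ h0] at he
    linarith
  have he1 : 1 ≤ e := by
    rcases Nat.eq_zero_or_pos e with h | h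
    · rw [h] at he36
      norm_num at he36
      linarith
    · exact h
  refine ⟨e, he1, fun L hL1 => ?_⟩
  obtain ⟨C, hC⟩ := exists_nat_ge (4 * (4 * (2 ^ e + 1) + 1 : ℝ) / c0)
  obtain ⟨a2, ha2⟩ := big (2 ^ e) c0 h0
  obtain ⟨a3, ha3⟩ := big (4 * L) (c0 / 2) (by positivity)
  refine ⟨2 ^ (C + 4 * e + (4 * (2 ^ e + 1) + 1) + 8) + a2 + a3, ?_⟩
  intro n hn
  have hnpow : 2 ^ (C + 4 * e + (4 * (2 ^ e + 1) + 1) + 8) ≤ n :=
    ((Nat.le_add_right _ a2).trans (Nat.le_add_right _ a3)).trans hn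
  have hlg : C + 4 * e + (4 * (2 ^ e + 1) + 1) + 8 ≤ lg n := le_lg hnpow
  have hn8 : 2 ^ 8 ≤ n := (Nat.pow_le_pow_right (by norm_num) (by omega)).trans hnpow
  have hn2 : 2 ≤ n := le_trans (by norm_num) hn8
  have hnR : (2 : ℝ) ≤ n := by exact_mod_cast hn2
  have hn1 : (1 : ℝ) ≤ n := by linarith
  have hn0 : (0 : ℝ) < n := by linarith
  have hLR : (1 : ℝ) ≤ L := by exact_mod_cast hL1
  have hlgR : (0 : ℝ) < lg n := by exact_mod_cast lg_pos n
  have ha2' := ha2 n (((Nat.le_add_left a2 _).trans (Nat.le_add_right _ a3)).trans hn)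
  have ha3' := ha3 n ((Nat.le_add_left a3 _).trans hn)
  have hpl := pols_lg e hn2
  have hplR : (pols n e : ℝ) * lg n ≤ (4 * (2 ^ e + 1) + 1) * n := by exact_mod_cast hpl
  have hCl : (4 * (4 * (2 ^ e + 1) + 1 : ℝ)) ≤ c0 * lg n := by
    have e1 : (C : ℝ) ≤ lg n := by exact_mod_cast (by omega : C ≤ lg n)
    rw [div_le_iff₀ h0] at hC
    nlinarith
  -- the number of polynomials
  have hpols : (pols n e : ℝ) ≤ c0 * n / 4 := by
    have e1 : (pols n e : ℝ) * lg n ≤ (c0 * n / 4) * lg n := by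
      calc (pols n e : ℝ) * lg n ≤ (4 * (2 ^ e + 1) + 1) * n := hplR
        _ ≤ (c0 * lg n / 4) * n := by
            apply mul_le_mul_of_nonneg_right _ hn0.le
            linarith
        _ = _ := by ring
    exact le_of_mul_le_mul_right e1 hlgR
  have hzs : ((zs n e * pols n e : ℕ) : ℝ) ≤ c0 * n / 2 := by
    have e1 : 4 ^ e * zs n e ≤ lg n + 4 ^ e := by
      unfold zs
      rw [mul_add, mul_one]
      exact Nat.add_le_add_right (Nat.mul_div_le _ _) _
    have e2 : 4 ^ e * (zs n e * pols n e) ≤ (4 * (2 ^ e + 1) + 1) * n + 4 ^ e * pols n e := by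
      calc 4 ^ e * (zs n e * pols n e) = (4 ^ e * zs n e) * pols n e := by ring
        _ ≤ (lg n + 4 ^ e) * pols n e := Nat.mul_le_mul_right _ e1
        _ = pols n e * lg n + 4 ^ e * pols n e := by ring
        _ ≤ _ := Nat.add_le_add_right hpl _
    have e3 : (4 : ℝ) ^ e * ((zs n e * pols n e : ℕ) : ℝ) ≤
        (4 * (2 ^ e + 1) + 1) * n + 4 ^ e * pols n e := by exact_mod_cast e2
    have h2e : (1 : ℝ) ≤ 2 ^ e := one_le_pow₀ (by norm_num)
    have h4e : (4 : ℝ) ^ e = 2 ^ e * 2 ^ e := by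
      rw [← mul_pow]
      norm_num
    have e4 : (4 * (2 ^ e + 1) + 1 : ℝ) ≤ (c0 / 4) * 4 ^ e := by
      rw [h4e]
      nlinarith
    have e5 : (4 : ℝ) ^ e * ((zs n e * pols n e : ℕ) : ℝ) ≤ 4 ^ e * (c0 * n / 2) := by
      calc (4 : ℝ) ^ e * ((zs n e * pols n e : ℕ) : ℝ)
          ≤ (4 * (2 ^ e + 1) + 1) * n + 4 ^ e * pols n e := e3
        _ ≤ ((c0 / 4) * 4 ^ e) * n + 4 ^ e * (c0 * n / 4) := by gcongr
        _ = _ := by ring
    exact le_of_mul_le_mul_left e5 (by positivity)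
  refine ⟨hn2, he1, by omega, hL1, hzs, ?_, ?_, ?_⟩
  · refine le_trans ?_ ha2'
    have : (0 : ℝ) < 2 ^ e := by positivity
    nlinarith
  · have e1 : c0 / 2 * n = c0 * n / 2 := by ring
    rw [← e1]
    refine le_trans ?_ ha3'
    nlinarith
  · rw [Nat.cast_zero]
    positivity

end Pool.Agent.TKN.ONE
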