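import Pool.Agent.TKN.St5

/-!
# Project TKN/ONE: `fF` is in PP mode of automata
-/

set_option autoImplicit false

open Finset

namespace Pool.Agent.TKN.ONE

open Pool.Agent.URG (VarA VarG VarX goodA goodF deg lg Pass pols Good)
open Pool.Agent.HPM (DecOs)
open Pool.Agent.HPM.SCH (inPP_of_count)
open Pool.Agent.HPM.Fn (Coord)
open Pool.Agent.Lib_helper20.SRO (evenWeight)

namespace MUPF

/-- the items of the function with the parameter `e` -/
abbrev It (M e : ℕ) : Type := (Fin (pols (pt M e) e) × Fin (cop e)) ⊕ Fin (cop e)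

/-- all items -/
abbrev Om (M : ℕ) : Type := Σ e : Fin (blk M), It M (e.val + 1)

/-- the switch is on and the item is bad -/
def Ps {M : ℕ} (β : Bas M) (ly : Lay M) (ω : Om M) (v : Fin (size M) → Bool) : Prop :=
  v (sw ω.1) = true ∧ Bad (β ω.1) ω.2 (inp ly ω.1 v)

lemma good_iff {n e L : ℕ} (β : Coord (deg n e)) (u : VarA n e L → Bool) :
    goodA β u = true ↔ ∀ x, ¬ Bad β x u := by
  classical
  unfold goodA
  rw [decide_eq_true_iff]
  unfold Good
  constructor
  · rintro h (⟨t, l⟩ | l) hb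
    · exact hb ((h l).2 t)
    · exact hb (h l).1
  · intro h l
    refine ⟨?_, fun t => ?_⟩
    · by_contra hc
      exact h (Sum.inr l) hc
    · by_contra hc
      exact h (Sum.inl (t, l)) hc

lemma fA_iff {M : ℕ} (β : Bas M) (ly : Lay M) (v : Fin (size M) → Bool) :
    fA β ly v = true ↔ ∀ ω, ¬ Ps β ly ω v := by
  classical
  unfold fA
  rw [decide_eq_true_iff]
  constructor
  · rintro h ⟨e, x⟩ ⟨h1, h2⟩
    exact (good_iff _ _).1 (h e h1) x h2
  · intro h e he
    rw [good_iff]
    intro x hx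
    exact h ⟨e, x⟩ ⟨he, hx⟩

lemma fF_iff {M : ℕ} (β : Bas M) (ly : Lay M) (v : Fin (size M + 1) → Bool) :
    fF β ly v = true ↔
      ((∀ ω, ¬ Ps β ly ω (fun i => v i.castSucc)) ↔ v (Fin.last _) = true) := by
  classical
  unfold fF
  rw [decide_eq_true_iff, fA_iff]

/-- the members -/
def Mem {M : ℕ} (β : Bas M) (ly : Lay M) (k : ℕ) :
    Om M ⊕ Fin k → (Fin (size M + 1) → Bool) → Prop
  | Sum.inl ω, v => Ps β ly ω (fun i => v i.castSucc) ↔ v (Fin.last _) = false
  | Sum.inr _, v => v (Fin.last _) = false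

lemma count_iff {M : ℕ} (β : Bas M) (ly : Lay M) (hne : 1 ≤ Fintype.card (Om M))
    (v : Fin (size M + 1) → Bool) :
    fF β ly v = true ↔ Fintype.card (Om M) - 1 <
      Nat.card {ω // Mem β ly (Fintype.card (Om M) - 1) ω v} := by
  classical
  rw [fF_iff, Nat.card_congr (Equiv.subtypeSum), Nat.card_sum]
  have e1 : Nat.card {ω : Om M // Mem β ly (Fintype.card (Om M) - 1) (Sum.inl ω) v} =
      (univ.filter fun ω : Om M => Ps β ly ω (fun i => v i.castSucc) ↔
        v (Fin.last _) = false).card := by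
    rw [Nat.card_eq_fintype_card, Fintype.card_subtype]
    congr 1
    ext ω
    rw [mem_filter, mem_filter]
    exact Iff.rfl
  rw [e1]
  rcases hp : v (Fin.last _) with _ | _
  · have e2 : Nat.card {a : Fin (Fintype.card (Om M) - 1) //
        Mem β ly (Fintype.card (Om M) - 1) (Sum.inr a) v} = Fintype.card (Om M) - 1 := by
      have : ∀ a : Fin (Fintype.card (Om M) - 1),
          Mem β ly (Fintype.card (Om M) - 1) (Sum.inr a) v := fun a => hp
      rw [Nat.card_congr (Equiv.subtypeUnivEquiv this), Nat.card_fin]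
    rw [e2]
    simp only [Bool.false_eq_true, iff_false, not_forall, not_not, iff_true]
    constructor
    · rintro ⟨ω, hω⟩
      have : 0 < (univ.filter fun ω : Om M => Ps β ly ω (fun i => v i.castSucc)).card :=
        card_pos.2 ⟨ω, mem_filter.2 ⟨mem_univ _, hω⟩⟩
      omega
    · intro h
      have : 0 < (univ.filter fun ω : Om M => Ps β ly ω (fun i => v i.castSucc)).card := by
        omega
      obtain ⟨ω, hω⟩ := card_pos.1 this
      exact ⟨ω, (mem_filter.1 hω).2⟩
  · have e2 : Nat.card {a : Fin (Fintype.card (Om M) - 1) //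
        Mem β ly (Fintype.card (Om M) - 1) (Sum.inr a) v} = 0 := by
      rw [Nat.card_eq_zero]
      left
      refine ⟨fun a => ?_⟩
      have h1 : v (Fin.last _) = false := a.2
      rw [hp] at h1
      exact absurd h1 (by simp)
    rw [e2]
    simp only [iff_true, Bool.true_eq_false, iff_false, add_zero]
    have h1 := card_filter_le (univ : Finset (Om M)) (fun ω => ¬ Ps β ly ω (fun i => v i.castSucc))
    have h2 : (univ.filter fun ω : Om M => ¬ Ps β ly ω (fun i => v i.castSucc)).card =
        (univ : Finset (Om M)).card ↔ ∀ ω : Om M, ¬ Ps β ly ω (fun i => v i.castSucc) := by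
      rw [card_filter_eq_iff]
      simp
    rw [← h2]
    rw [card_univ] at h1 ⊢
    omega

lemma lg_le (M : ℕ) (hM : 1 ≤ M) : lg M ≤ M := by
  unfold lg
  exact Nat.log_lt_self 2 (by omega)

lemma two_pow_lg (M : ℕ) (hM : 1 ≤ M) : 2 ^ lg M ≤ 2 * M := by
  unfold lg
  rw [pow_succ, mul_comm]
  exact Nat.mul_le_mul_left 2 (Nat.pow_log_le_self 2 (by omega))

end MUPF

open MUPF in
theorem t_UPF (hCLO : S_CLO) (hDEC : S_DEC) (hAUT : S_AUT) (hSIZ : S_SIZ) : S_UPF := by
  classical
  intro M hM β ly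
  obtain ⟨⟨hs1, hs2⟩, hb1, hsz⟩ := hSIZ M hM
  obtain ⟨c1, c2, c3, c4⟩ := hCLO
  have hM1 : 1 ≤ M := le_trans Nat.one_le_two_pow hM
  have hMbig : 4 ≤ M := le_trans (by norm_num) hM
  have hsM : 2 * M ≤ size M := hs1
  -- the number of the items
  have hK : Fintype.card (Om M) ≤ M * (M * M + M) := by
    rw [Fintype.card_sigma]
    calc ∑ e : Fin (blk M), Fintype.card (It M (e.val + 1))
        ≤ ∑ e : Fin (blk M), (M * M + M) := by
          refine sum_le_sum fun e _ => ?_
          obtain ⟨-, -, -, h1, h2, -⟩ := hsz (e.val + 1) (by omega) (by have := e.2; omega)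
          rw [Fintype.card_sum, Fintype.card_prod, Fintype.card_fin, Fintype.card_fin]
          exact Nat.add_le_add (Nat.mul_le_mul h2 h1) h1
      _ = blk M * (M * M + M) := by simp
      _ ≤ M * (M * M + M) := Nat.mul_le_mul_right _
          (((Nat.div_le_self _ _).trans (lg_le M hM1)))
  have hne : 1 ≤ Fintype.card (Om M) := by
    have h1 := (hsz 1 le_rfl hb1).2.2.1
    exact Fintype.card_pos_iff.2 ⟨⟨⟨0, hb1⟩, Sum.inr ⟨0, h1⟩⟩⟩
  set K := Fintype.card (Om M) with hKdef
  -- the automata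
  obtain ⟨V, hV⟩ : ∃ V : Type, V = Fin (2 ^ (9 * lg M + 2)) := ⟨_, rfl⟩
  have hVf : Fintype V := by rw [hV]; infer_instance
  have hVc : Fintype.card V = 2 ^ (9 * lg M + 2) := by
    subst hV
    rw [← Nat.card_eq_fintype_card, Nat.card_fin]
  have hVn : Nonempty V := by
    rw [← Fintype.card_pos_iff, hVc]
    positivity
  have emb : ∀ (U : Type) [Finite U] (P : (Fin (size M + 1) → Bool) → Prop),
      Nat.card U ≤ 2 ^ (9 * lg M + 2) → Aut (size M + 1) U P → Aut (size M + 1) V P := by
    intro U _ P hU hA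
    have : Fintype U := Fintype.ofFinite U
    rw [Nat.card_eq_fintype_card, ← hVc] at hU
    obtain ⟨j⟩ := Function.Embedding.nonempty_of_card_le hU
    exact c4 _ _ _ j P j.injective hA
  have hpos : 0 < size M + 1 := Nat.succ_pos _
  have hlast : Aut (size M + 1) Bool (fun v => v (Fin.last _) = false) :=
    c2 _ (Fin.last _) (fun b => b = false)
  have hmem : ∀ ω, Aut (size M + 1) V (Mem β ly (K - 1) ω) := by
    rintro (⟨e, x⟩ | p)
    · obtain ⟨h2, -, -, -, -, -, hdeg, -⟩ := hsz (e.val + 1) (by omega) (by have := e.2; omega)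
      have hA := hAUT (pt M (e.val + 1)) (e.val + 1) (cop (e.val + 1)) (size M + 1) (β e)
        (fun w => (dat (ly.pos e w)).castSucc) (fun w w' h => ly.inj e (by
          have h3 := Fin.castSucc_injective _ h
          exact Fin.natAdd_injective _ _ h3))
        (fun t i p => by
          have := ly.lt₁ e t i p
          rw [Fin.lt_def] at this ⊢
          simp only [dat, Fin.val_castSucc, Fin.val_natAdd]
          omega)
        (fun t q p => by
          have := ly.lt₂ e t q p
          rw [Fin.lt_def] at this ⊢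
          simp only [dat, Fin.val_castSucc, Fin.val_natAdd]
          omega) x
      have hS : Aut (size M + 1) Bool (fun v => v (sw e).castSucc = true) :=
        c2 _ (sw e).castSucc (fun b => b = true)
      have h4 := c3 _ _ _ _ _ (fun A B => (A ↔ B))
        (c3 _ _ _ _ _ (fun A B => A ∧ B) hS hA) hlast
      refine emb _ _ ?_ h4
      have hne0 : deg (pt M (e.val + 1)) (e.val + 1) ≠ 0 := by
        unfold Pool.Agent.URG.deg Pool.Agent.URG.lg
        omega
      rw [Nat.card_prod, Nat.card_prod, Nat.card_prod, Nat.card_prod, GaloisField.card 2 _ hne0,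
        Nat.card_eq_fintype_card, Fintype.card_bool]
      calc 2 * (2 ^ deg (pt M (e.val + 1)) (e.val + 1) * (2 ^ deg (pt M (e.val + 1)) (e.val + 1) *
            2 ^ deg (pt M (e.val + 1)) (e.val + 1))) * 2
          = 2 ^ (3 * deg (pt M (e.val + 1)) (e.val + 1) + 2) := by ring
        _ ≤ 2 ^ (9 * lg M + 2) := Nat.pow_le_pow_right (by norm_num) (by omega)
    · refine emb Bool _ ?_ hlast
      rw [Nat.card_eq_fintype_card, Fintype.card_bool]
      calc 2 = 2 ^ 1 := rfl
        _ ≤ _ := Nat.pow_le_pow_right (by norm_num) (by omega)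
  refine ⟨V, hVf, (Nat.log 2 K + 1) + 1, ?_, ?_, ?_⟩
  · rw [hVc]
    have h1 := two_pow_lg M hM1
    calc 2 ^ (9 * lg M + 2) = (2 ^ lg M) ^ 9 * 4 := by rw [pow_add, mul_comm 9, pow_mul]; norm_num
      _ ≤ (size M) ^ 9 * (size M) ^ 15 := by
          refine Nat.mul_le_mul (Nat.pow_le_pow_left (h1.trans hsM) 9) ?_
          calc 4 ≤ size M := by omega
            _ = size M ^ 1 := (pow_one _).symm
            _ ≤ size M ^ 15 := Nat.pow_le_pow_right (by omega) (by norm_num)
      _ = size M ^ 24 := by rw [← pow_add]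
  · have h1 : 2 ^ Nat.log 2 K ≤ K := Nat.pow_log_le_self 2 (by omega)
    calc 2 ^ (Nat.log 2 K + 1 + 1) = 4 * 2 ^ Nat.log 2 K := by ring
      _ ≤ 4 * (M * (M * M + M)) := Nat.mul_le_mul_left _ (h1.trans hK)
      _ ≤ (2 * M) ^ 3 := by
          have : M ≤ M * M := Nat.le_mul_of_pos_left M hM1
          calc 4 * (M * (M * M + M)) ≤ 4 * (M * (M * M + M * M)) :=
                Nat.mul_le_mul_left _ (Nat.mul_le_mul_left _ (Nat.add_le_add_left this _))
            _ = (2 * M) ^ 3 := by ring
      _ ≤ size M ^ 3 := Nat.pow_le_pow_left hsM 3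
      _ ≤ size M ^ 24 := Nat.pow_le_pow_right (by omega) (by norm_num)
  · have hlog : K < 2 ^ (Nat.log 2 K + 1) := Nat.lt_pow_succ_log_self (by norm_num) _
    refine inPP_of_count (hDEC _ _ _ hpos (c1 _ _ True)) (hDEC _ _ _ hpos (c1 _ _ False))
      (Mem β ly (K - 1)) (fun ω => hDEC _ _ _ hpos (hmem ω)) (Nat.log 2 K + 1) (K - 1) ?_ ?_ _
      fun x => count_iff β ly hne x
    · omega
    · rw [Fintype.card_sum, Fintype.card_fin, ← hKdef]
      omega

end Pool.Agent.TKN.ONE
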