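import Pool.Agent.TKN.Main
import Pool.Agent.TKN.O_CLO
import Pool.Agent.TKN.O_NBP
import Pool.Agent.TKN.O_DEC
import Pool.Agent.TKN.O_AUT
import Pool.Agent.TKN.O_SIZ
import Pool.Agent.TKN.O_LAY
import Pool.Agent.TKN.O_UPA
import Pool.Agent.TKN.O_UPF
import Pool.Agent.TKN.O_NM2
import Pool.Agent.TKN.O_RED
import Pool.Agent.TKN.O_LOW1

/-!
# One function for all `k`: the theorems
-/

set_option autoImplicit false

namespace Pool.Agent.TKN.ONE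

open Pool.Agent.STK (Prog ofNBP blocks_ofNBP full_ofNBP computes_ofNBP)
open Pool.Agent.HPM (DecOs)

theorem low : S_LOW1 := t_LOW1 cot t_NM2 t_SIZ t_RED

theorem upA : S_UPA := t_UPA t_CLO t_NBP t_AUT t_SIZ

theorem upF : S_UPF := t_UPF t_CLO t_DEC t_AUT t_SIZ

theorem lay : S_LAY := t_LAY t_SIZ

/-- The theorem without polarity bit. -/
theorem mainA : (∀ M : ℕ, 2 ^ 56 ≤ M → (2 * M ≤ size M ∧ size M ≤ 3 * M) ∧ Nonempty (Bas M) ∧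
      Nonempty (Lay M) ∧ ∀ (β : Bas M) (ly : Lay M),
      ∃ (Q : Type) (_ : Fintype Q) (G : Prog (Fin (size M)) 0 Empty Q), G.Blocks 1 ∧
        (∀ l, G.Full l → (l.map Prod.fst).Pairwise (· < ·)) ∧
        G.Computes (fun v => !fA β ly v) ∧ Fintype.card Q ≤ size M ^ 24) ∧
    ∀ k : ℕ, 1 ≤ k → ∃ c : ℝ, 0 < c ∧ ∃ M0 : ℕ, ∀ M ≥ M0, ∀ (β : Bas M) (ly : Lay M),
      HardT k c (size M) (fA β ly) := by
  refine ⟨fun M hM => ?_, fun k hk => ?_⟩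
  · obtain ⟨⟨h1, h2⟩, -, -⟩ := t_SIZ M hM
    refine ⟨⟨h1, by omega⟩, (lay M hM).1, (lay M hM).2, fun β ly => ?_⟩
    obtain ⟨Q, _, G, g1, g2, g3⟩ := upA M hM β ly
    exact ⟨Q, inferInstance, ofNBP 0 Empty G, blocks_ofNBP G,
      fun l hl => g1 l (full_ofNBP.1 hl), computes_ofNBP.2 g2, g3⟩
  · obtain ⟨c, hc, M0, h⟩ := low k hk
    exact ⟨c, hc, M0, fun M hM β ly => (h M hM β ly).1⟩

/-- The theorem with polarity bit. -/
theorem mainF : (∀ M : ℕ, 2 ^ 56 ≤ M → (2 * M ≤ size M + 1 ∧ size M + 1 ≤ 3 * M) ∧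
      Nonempty (Bas M) ∧ Nonempty (Lay M) ∧ ∀ (β : Bas M) (ly : Lay M),
      ∃ (V : Type) (_ : Fintype V) (w : ℕ), Fintype.card V ≤ size M ^ 24 ∧
        2 ^ w ≤ size M ^ 24 ∧
        UM.InPP (DecOs 1 (Fin (size M + 1)) V (size M + 1) (fun t _ => t)) w
          (fun v => fF β ly v = true)) ∧
    ∀ k : ℕ, 1 ≤ k → ∃ c : ℝ, 0 < c ∧ ∃ M0 : ℕ, ∀ M ≥ M0, ∀ (β : Bas M) (ly : Lay M),
      HardT k c (size M + 1) (fF β ly) ∧ HardT k c (size M + 1) (fun v => !fF β ly v) := by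
  refine ⟨fun M hM => ?_, fun k hk => ?_⟩
  · obtain ⟨⟨h1, h2⟩, -, -⟩ := t_SIZ M hM
    exact ⟨⟨by omega, h2⟩, (lay M hM).1, (lay M hM).2, fun β ly => upF M hM β ly⟩
  · obtain ⟨c, hc, M0, h⟩ := low k hk
    exact ⟨c, hc, M0, fun M hM β ly => (h M hM β ly).2⟩

end Pool.Agent.TKN.ONE
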