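import Pool.Agent.TKN.St4

/-!
# TKN, module AVT: from one point to many points
-/

set_option autoImplicit false

open Finset

namespace Pool.Agent.TKN

open Pool.Agent.Lib_helper20.SRO
open Pool.Agent.CFT (Der fixF restr)
open Pool.Agent.URG (unc pigeon ext_unc)

namespace MAVT

/-- the length of the restriction of a list to the bits of the point `i` -/
noncomputable def len {W : Type} {L n : ℕ} (i : Fin L)
    (l : List ((W ⊕ (Fin L × Fin n)) × Bool)) : ℕ :=
  (restr (fun j : Fin n => (Sum.inr (i, j) : W ⊕ (Fin L × Fin n))) l).length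

theorem sum_len {W : Type} {L n : ℕ} (l : List ((W ⊕ (Fin L × Fin n)) × Bool)) :
    ∑ i : Fin L, len i l ≤ l.length := by
  classical
  induction l with
  | nil => simp [len, restr]
  | cons p l ih =>
    have h1 : ∀ i : Fin L, len i (p :: l) ≤ (if (∃ j, p.1 = Sum.inr (i, j)) then 1 else 0) +
        len i l := by
      intro i
      unfold len restr
      by_cases hx : ∃ x : Fin n, (Sum.inr (i, x) : W ⊕ (Fin L × Fin n)) = p.1
      · have h2 : ∃ j, p.1 = Sum.inr (i, j) := ⟨hx.choose, hx.choose_spec.symm⟩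
        rw [if_pos h2, List.filterMap_cons_some (b := (hx.choose, p.2)) (dif_pos hx)]
        simp only [List.length_cons]
        omega
      · rw [List.filterMap_cons_none (dif_neg hx)]
        omega
    have h3 : ∑ i : Fin L, (if (∃ j, p.1 = Sum.inr (i, j)) then 1 else 0) ≤ 1 := by
      rw [← card_filter, card_le_one]
      intro a ha b hb
      obtain ⟨j, hj⟩ := (mem_filter.1 ha).2
      obtain ⟨j', hj'⟩ := (mem_filter.1 hb).2
      rw [hj] at hj'
      simp only [Sum.inr.injEq, Prod.mk.injEq] at hj'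
      exact hj'.1
    calc ∑ i : Fin L, len i (p :: l)
        ≤ ∑ i : Fin L, ((if (∃ j, p.1 = Sum.inr (i, j)) then 1 else 0) + len i l) :=
          sum_le_sum fun i _ => h1 i
      _ = ∑ i : Fin L, (if (∃ j, p.1 = Sum.inr (i, j)) then 1 else 0) + ∑ i : Fin L, len i l :=
          sum_add_distrib
      _ ≤ 1 + l.length := add_le_add h3 ih
      _ = (p :: l).length := by rw [List.length_cons, add_comm]

end MAVT

open MAVT

theorem t_AVT (hM : S_LOWF) (hF : CFT.Stmt_FIX) : S_AVT := by
  classical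
  intro k hk
  obtain ⟨c1, hc1, n0, hcore⟩ := hM k hk
  set c : ℝ := min c1 1 with hc
  have hc0 : 0 < c := lt_min hc1 one_pos
  have hcc1 : c ≤ c1 := min_le_left _ _
  refine ⟨c, hc0, min_le_right _ _, n0, ?_⟩
  intro n hn L m s W Q _ _ G w g hL hrig hrf hm1 hm hdense hs hblk hacc hfew
  have hn0 : (0 : ℝ) ≤ n := Nat.cast_nonneg n
  have hLR : (0 : ℝ) < L := by exact_mod_cast hL
  have hcn : c * n ≤ c1 * n := mul_le_mul_of_nonneg_right hcc1 hn0
  have hpw : (2 : ℝ) ^ (c * n) ≤ 2 ^ (c1 * n) := Real.rpow_le_rpow_of_exponent_le one_le_two hcn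
  set A := univ.filter fun x : Fin n → Bool => g x = true with hA
  have hAne : A.Nonempty := by
    rw [← card_pos]
    rcases Nat.eq_zero_or_pos A.card with h | h
    · rw [h] at hdense
      simp only [Nat.cast_zero, mul_zero] at hdense
      have : (0 : ℝ) < 2 ^ n * L := by positivity
      linarith
    · exact h
  have hdiv : k * (n * L) / L = k * n := by
    rw [← mul_assoc, Nat.mul_div_cancel _ hL]
  let R : (Fin L → Fin n → Bool) → Fin L → ℕ → Prop := fun y i t =>
    ∃ l, Der G G.source l ∧ Agrees (Sum.elim w (unc y)) l ∧ len i l ≤ t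
  have hR : ∀ y ∈ Fintype.piFinset (fun _ : Fin L => A), ∃ i, R y i (k * (n * L) / L) := by
    intro y hy
    have h1 : G.Accepts (Sum.elim w (unc y)) := by
      rw [hacc]
      intro l
      exact (mem_filter.1 (Fintype.mem_piFinset.1 hy l)).2
    obtain ⟨l, hl, hbl, hcl⟩ := hfew _ h1
    by_contra hcon
    push Not at hcon
    have h2 : ∀ i : Fin L, k * (n * L) / L + 1 ≤ len i l := by
      intro i
      by_contra h3
      exact hcon i ⟨l, hl, hbl, by omega⟩
    have h4 : ∑ _i : Fin L, (k * (n * L) / L + 1) ≤ ∑ i : Fin L, len i l :=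
      sum_le_sum fun i _ => h2 i
    rw [sum_const, smul_eq_mul, card_univ, Fintype.card_fin] at h4
    have h5 : k * (n * L) < L * (k * (n * L) / L + 1) := Nat.lt_mul_div_succ _ hL
    have h6 := sum_len l
    omega
  obtain ⟨i, y, hy, B0, hB0A, hB0, hcard⟩ := pigeon hL A hAne R hR
  have hι : Function.Injective (fun j : Fin n => (Sum.inr (i, j) : W ⊕ (Fin L × Fin n))) := by
    intro j j' h
    simpa using h
  obtain ⟨f1, f2, f3, f4, f5⟩ := hF (W ⊕ (Fin L × Fin n)) Q n G
    (fun j : Fin n => (Sum.inr (i, j) : W ⊕ (Fin L × Fin n))) (Sum.elim w (unc y)) hι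
  refine hpw.trans (hcore n hn Q (fixF G (fun j : Fin n => (Sum.inr (i, j) :
    W ⊕ (Fin L × Fin n))) (Sum.elim w (unc y))) g m s B0 (hs.trans hcn) (f2 s hblk) ?_
    hrig ?_ hm1 (hm.trans hpw) hrf ?_)
  · intro b hb
    rw [f1, ext_unc, hacc] at hb
    have := hb i
    simpa [unc] using this
  · intro b hb
    obtain ⟨l, hl, hbl, hcl⟩ := hB0 b hb
    rw [hdiv] at hcl
    exact ⟨restr (fun j : Fin n => (Sum.inr (i, j) : W ⊕ (Fin L × Fin n))) l,
      f3 _ l hl (by
        intro p hp hx
        rw [← hbl p hp, ← ext_unc, ext_of_not _ _ hx]), f4 b l (by rw [ext_unc]; exact hbl), hcl⟩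
  · have h1 : (A.card : ℝ) ≤ L * B0.card := by exact_mod_cast hcard
    have h2 : (0 : ℝ) ≤ 2 ^ (c * n) := Real.rpow_nonneg (by norm_num) _
    have h3 : (2 : ℝ) ^ n * L ≤ (2 ^ (c * n) * B0.card) * L := by
      refine hdense.trans ((mul_le_mul_of_nonneg_left h1 h2).trans (le_of_eq ?_))
      ring
    refine (le_of_mul_le_mul_right h3 hLR).trans ?_
    exact mul_le_mul_of_nonneg_right hpw (Nat.cast_nonneg _)

end Pool.Agent.TKN
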