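import Pool.Agent.TKN.St7
import Pool.Agent.TKN.P_AVT

/-!
# TKN, module AVR: from one point to many points, the tests of few variables are not counted
-/

set_option autoImplicit false

open Finset

namespace Pool.Agent.TKN

open Pool.Agent.Lib_helper20.SRO
open Pool.Agent.CFT (Der fixF restr)
open Pool.Agent.URG (unc pigeon ext_unc)

namespace MAVR

open Classical in
/-- the part of the exceptional set in the point `i` -/
noncomputable def ex {W : Type} {L n : ℕ} (i : Fin L) (R : Finset (W ⊕ (Fin L × Fin n))) :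
    Finset (Fin n) := univ.filter fun j => (Sum.inr (i, j) : W ⊕ (Fin L × Fin n)) ∈ R

theorem ex_card {W : Type} {L n : ℕ} (i : Fin L) (R : Finset (W ⊕ (Fin L × Fin n))) :
    (ex i R).card ≤ R.card := by
  classical
  refine card_le_card_of_injOn (fun j => (Sum.inr (i, j) : W ⊕ (Fin L × Fin n))) ?_ ?_
  · intro j hj
    exact (mem_filter.1 hj).2
  · intro j _ j' _ h
    simpa using h

theorem out_restr {W : Type} {L n : ℕ} (i : Fin L) (R : Finset (W ⊕ (Fin L × Fin n)))
    (l : List ((W ⊕ (Fin L × Fin n)) × Bool)) :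
    Out (ex i R) (restr (fun j : Fin n => (Sum.inr (i, j) : W ⊕ (Fin L × Fin n))) l) ≤
      MAVT.len i (l.filter fun p => @decide (p.1 ∉ R) (Classical.propDecidable _)) := by
  classical
  unfold Out MAVT.len
  induction l with
  | nil => simp [restr]
  | cons p l ih =>
    by_cases hx : ∃ x : Fin n, (Sum.inr (i, x) : W ⊕ (Fin L × Fin n)) = p.1
    · have e1 : restr (fun j : Fin n => (Sum.inr (i, j) : W ⊕ (Fin L × Fin n))) (p :: l) =
          (hx.choose, p.2) :: restr (fun j : Fin n => (Sum.inr (i, j) : W ⊕ (Fin L × Fin n))) l := by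
        unfold restr
        exact List.filterMap_cons_some (dif_pos hx)
      rw [e1]
      by_cases hR : p.1 ∈ R
      · have h2 : hx.choose ∈ ex i R := by
          refine mem_filter.2 ⟨mem_univ _, ?_⟩
          rw [hx.choose_spec]; exact hR
        rw [List.filter_cons_of_neg (by simpa using h2),
          List.filter_cons_of_neg (by simpa using hR)]
        exact ih
      · have h2 : hx.choose ∉ ex i R := by
          intro h
          have := (mem_filter.1 h).2
          rw [hx.choose_spec] at this
          exact hR this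
        rw [List.filter_cons_of_pos (by simpa using h2),
          List.filter_cons_of_pos (by simpa using hR)]
        have e2 : ∀ l', restr (fun j : Fin n => (Sum.inr (i, j) : W ⊕ (Fin L × Fin n))) (p :: l') =
            (hx.choose, p.2) ::
              restr (fun j : Fin n => (Sum.inr (i, j) : W ⊕ (Fin L × Fin n))) l' := by
          intro l'
          unfold restr
          exact List.filterMap_cons_some (dif_pos hx)
        rw [e2, List.length_cons, List.length_cons]
        exact Nat.succ_le_succ ih
    · have e1 : ∀ l', restr (fun j : Fin n => (Sum.inr (i, j) : W ⊕ (Fin L × Fin n))) (p :: l') =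
          restr (fun j : Fin n => (Sum.inr (i, j) : W ⊕ (Fin L × Fin n))) l' := by
        intro l'
        unfold restr
        exact List.filterMap_cons_none (dif_neg hx)
      rw [e1]
      by_cases hR : p.1 ∈ R
      · rw [List.filter_cons_of_neg (by simpa using hR)]
        exact ih
      · rw [List.filter_cons_of_pos (by simpa using hR), e1]
        exact ih

theorem out_eq {V : Type} (R : Finset V) (l : List (V × Bool)) :
    (l.filter fun p => @decide (p.1 ∉ R) (Classical.propDecidable _)).length = Out R l := by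
  unfold Out
  congr 1
  refine List.filter_congr fun p _ => ?_
  exact decide_eq_decide.2 Iff.rfl

end MAVR

open MAVR

theorem t_AVR (hM : S_LOWR) (hF : CFT.Stmt_FIX) : S_AVR := by
  classical
  intro k hk
  obtain ⟨c1, hc1, n0, hcore⟩ := hM k hk
  set c : ℝ := min c1 1 with hc
  have hc0 : 0 < c := lt_min hc1 one_pos
  have hcc1 : c ≤ c1 := min_le_left _ _
  refine ⟨c, hc0, min_le_right _ _, n0, ?_⟩
  intro n hn L m s W Q _ _ G w g hL hrig hrf hm1 hm hdense hs hblk hacc hfew
  have hn0 : (0 : ℝ) ≤ n := Nat.cast_nonneg n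
  have hLR : (0 : ℝ) < L := by exact_mod_cast hL
  have hcn : c * n ≤ c1 * n := mul_le_mul_of_nonneg_right hcc1 hn0
  have hpw : (2 : ℝ) ^ (c * n) ≤ 2 ^ (c1 * n) := Real.rpow_le_rpow_of_exponent_le one_le_two hcn
  set A := univ.filter fun x : Fin n → Bool => g x = true with hA
  have hAne : A.Nonempty := by
    rw [← card_pos]
    rcases Nat.eq_zero_or_pos A.card with h | h
    · rw [h] at hdense
      simp only [Nat.cast_zero, mul_zero] at hdense
      have : (0 : ℝ) < 2 ^ n * L := by positivity
      linarith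
    · exact h
  have hdiv : k * (n * L) / L = k * n := by
    rw [← mul_assoc, Nat.mul_div_cancel _ hL]
  let R : (Fin L → Fin n → Bool) → Fin L → ℕ → Prop := fun y i t =>
    ∃ l, Der G G.source l ∧ Agrees (Sum.elim w (unc y)) l ∧
      ∃ S : Finset (W ⊕ (Fin L × Fin n)), S.card ≤ s ∧
        MAVT.len i (l.filter fun p => @decide (p.1 ∉ S) (Classical.propDecidable _)) ≤ t
  have hR : ∀ y ∈ Fintype.piFinset (fun _ : Fin L => A), ∃ i, R y i (k * (n * L) / L) := by
    intro y hy
    have h1 : G.Accepts (Sum.elim w (unc y)) := by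
      rw [hacc]
      intro l
      exact (mem_filter.1 (Fintype.mem_piFinset.1 hy l)).2
    obtain ⟨l, hl, hbl, S, hS, hcl⟩ := hfew _ h1
    set l' := l.filter fun p => @decide (p.1 ∉ S) (Classical.propDecidable _) with hl'
    by_contra hcon
    push Not at hcon
    have h2 : ∀ i : Fin L, k * (n * L) / L + 1 ≤ MAVT.len i l' := by
      intro i
      by_contra h3
      have h9 : MAVT.len i l' ≤ k * (n * L) / L := by omega
      exact hcon i ⟨l, hl, hbl, S, hS, h9⟩
    have h4 : ∑ _i : Fin L, (k * (n * L) / L + 1) ≤ ∑ i : Fin L, MAVT.len i l' :=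
      sum_le_sum fun i _ => h2 i
    rw [sum_const, smul_eq_mul, card_univ, Fintype.card_fin] at h4
    have h5 : k * (n * L) < L * (k * (n * L) / L + 1) := Nat.lt_mul_div_succ _ hL
    have h6 := MAVT.sum_len l'
    have h7 : l'.length = Out S l := out_eq S l
    omega
  obtain ⟨i, y, hy, B0, hB0A, hB0, hcard⟩ := pigeon hL A hAne R hR
  have hι : Function.Injective (fun j : Fin n => (Sum.inr (i, j) : W ⊕ (Fin L × Fin n))) := by
    intro j j' h
    simpa using h
  obtain ⟨f1, f2, f3, f4, f5⟩ := hF (W ⊕ (Fin L × Fin n)) Q n G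
    (fun j : Fin n => (Sum.inr (i, j) : W ⊕ (Fin L × Fin n))) (Sum.elim w (unc y)) hι
  refine hpw.trans (hcore n hn Q (fixF G (fun j : Fin n => (Sum.inr (i, j) :
    W ⊕ (Fin L × Fin n))) (Sum.elim w (unc y))) g m s B0 (hs.trans hcn) (f2 s hblk) ?_
    hrig ?_ hm1 (hm.trans hpw) hrf ?_)
  · intro b hb
    rw [f1, ext_unc, hacc] at hb
    have := hb i
    simpa [unc] using this
  · intro b hb
    obtain ⟨l, hl, hbl, S, hS, hcl⟩ := hB0 b hb
    rw [hdiv] at hcl
    exact ⟨restr (fun j : Fin n => (Sum.inr (i, j) : W ⊕ (Fin L × Fin n))) l,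
      f3 _ l hl (by
        intro p hp hx
        rw [← hbl p hp, ← ext_unc, ext_of_not _ _ hx]), f4 b l (by rw [ext_unc]; exact hbl), ex i S,
      (ex_card i S).trans hS, (out_restr i S l).trans hcl⟩
  · have h1 : (A.card : ℝ) ≤ L * B0.card := by exact_mod_cast hcard
    have h2 : (0 : ℝ) ≤ 2 ^ (c * n) := Real.rpow_nonneg (by norm_num) _
    have h3 : (2 : ℝ) ^ n * L ≤ (2 ^ (c * n) * B0.card) * L := by
      refine hdense.trans ((mul_le_mul_of_nonneg_left h1 h2).trans (le_of_eq ?_))
      ring
    refine (le_of_mul_le_mul_right h3 hLR).trans ?_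
    exact mul_le_mul_of_nonneg_right hpw (Nat.cast_nonneg _)

end Pool.Agent.TKN
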