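import Pool.Agent.TKN.St7
import Pool.Agent.TKN.O_LOW1

/-!
# TKN/ONE, module LOWR1: the lower bounds for the one function, some tests not counted
-/

set_option autoImplicit false

open Finset

namespace Pool.Agent.TKN.ONE

open Pool.Agent.Lib_helper20.SRO (Agrees)
open Pool.Agent.URG (VarA VarG VarX goodA goodF Good pol deg Num lg)
open Pool.Agent.HPM.Fn (Coord)

namespace MLOWR1

open MLOW1 (fA_put dl_inj pos' pos'_inj fF_put)

/-- the three lower bounds, from the block number `e` -/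
lemma red_all (hREDR : S_REDR) {M : ℕ} (β : Bas M) (ly : Lay M) (e : Fin (blk M)) (K k : ℕ)
    (c0 c : ℝ) (hc : 0 < c)
    (g : CoreR K c0 (pt M (e.val + 1)) (cop (e.val + 1))
        (goodA (L := cop (e.val + 1)) (β e)) ∧
      CoreR K c0 (pt M (e.val + 1)) (cop (e.val + 1)) (goodF (L := cop (e.val + 1)) (β e)) ∧
      CoreR K c0 (pt M (e.val + 1)) (cop (e.val + 1))
        (fun v : VarG (pt M (e.val + 1)) (e.val + 1) (cop (e.val + 1)) → Bool =>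
          !goodF (β e) v))
    (h : ∀ N : ℕ, 2 * M ≤ N → N ≤ 3 * M →
      k * N ≤ K * (pt M (e.val + 1) * cop (e.val + 1)) ∧
      4 * (c * N) ≤ c0 * (pt M (e.val + 1) : ℕ) ∧ 1 ≤ c * (N : ℝ))
    (hs1 : 2 * M ≤ size M) (hs2 : size M + 1 ≤ 3 * M) :
    HardR k c (size M) (fA β ly) ∧ HardR k c (size M + 1) (fF β ly) ∧
      HardR k c (size M + 1) (fun v => !fF β ly v) := by
  obtain ⟨g1, g2, g3⟩ := g
  obtain ⟨a1, a2, a3⟩ := h (size M) hs1 (by omega)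
  obtain ⟨b1, b2, b3⟩ := h (size M + 1) (by omega) hs2
  refine ⟨?_, ?_, ?_⟩
  · exact hREDR K k _ _ (size M) c0 c _ (goodA (β e)) (fA β ly)
      (fun w => dat (ly.pos e w)) (fun i => decide (i = sw e))
      (dl_inj ly e) (fA_put β ly e) g1 a1 hc a2 a3
  · exact hREDR K k _ _ (size M + 1) c0 c _ (goodF (β e)) (fF β ly)
      (pos' ly e) (fun i => decide (i = (sw e).castSucc))
      (pos'_inj ly e) (fF_put β ly e) g2 b1 hc b2 b3
  · exact hREDR K k _ _ (size M + 1) c0 c _ (fun b => !goodF (β e) b) (fun v => !fF β ly v)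
      (pos' ly e) (fun i => decide (i = (sw e).castSucc))
      (pos'_inj ly e) (fun b => by rw [fF_put β ly e b]) g3 b1 hc b2 b3

end MLOWR1

open MLOWR1

theorem t_LOWR1 (hCOR : S_COR) (hNM2 : S_NM2) (hSIZ : S_SIZ) (hREDR : S_REDR) : S_LOWR1 := by
  intro k hk
  obtain ⟨c0, h0, h1, n0, hcor⟩ := hCOR (6 * k) (by omega)
  obtain ⟨e, he1, hnum⟩ := hNM2 c0 h0 h1
  obtain ⟨f, rfl⟩ : ∃ f, e = f + 1 := ⟨e - 1, by omega⟩
  have hcop : 1 ≤ cop (f + 1) := by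
    unfold cop
    omega
  obtain ⟨n1, hnum⟩ := hnum (cop (f + 1)) hcop
  have hDR : (1 : ℝ) ≤ cop (f + 1) := by exact_mod_cast hcop
  have hc : 0 < c0 / (24 * cop (f + 1)) := by positivity
  refine ⟨c0 / (24 * cop (f + 1)), hc, 2 ^ 56 + 2 ^ (8 * (f + 1)) +
    (n0 + n1 + 1) * cop (f + 1) + ⌈24 * cop (f + 1) / c0⌉₊, ?_⟩
  intro M hM β ly
  have hsum : ∀ a b c d : ℕ, a + b + c + d ≤ M → a ≤ M ∧ b ≤ M ∧ c ≤ M ∧ d ≤ M := by
    intro a b c d h
    omega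
  obtain ⟨hM56, hMe, hMn, hMc⟩ := hsum _ _ _ _ hM
  obtain ⟨⟨hs1, hs2⟩, -, hsz⟩ := hSIZ M hM56
  have heb : f + 1 ≤ blk M := by
    unfold blk lg
    have : 8 * (f + 1) ≤ Nat.log 2 M := Nat.le_log_of_pow_le (by norm_num) hMe
    omega
  obtain ⟨hp2, -, -, -, -, -, -, hM2⟩ := hsz (f + 1) (by omega) heb
  have hpn : n0 + n1 + 1 ≤ pt M (f + 1) := by
    unfold pt
    exact (Nat.le_div_iff_mul_le (by omega)).2 hMn
  have hMR : (M : ℝ) ≤ 2 * ((pt M (f + 1) : ℕ) * (cop (f + 1) : ℕ)) := by exact_mod_cast hM2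
  have hMc' : 24 * (cop (f + 1) : ℝ) / c0 ≤ M := (Nat.le_ceil _).trans (by exact_mod_cast hMc)
  refine red_all hREDR β ly ⟨f, heb⟩ (6 * k) k c0 _ hc
    (hcor (pt M (f + 1)) (by omega) (f + 1) (cop (f + 1)) (β ⟨f, heb⟩)
      (hnum (pt M (f + 1)) (by omega))) ?_ hs1 hs2
  intro N hN1 hN2
  show k * N ≤ 6 * k * (pt M (f + 1) * cop (f + 1)) ∧
    4 * (c0 / (24 * cop (f + 1)) * N) ≤ c0 * (pt M (f + 1) : ℕ) ∧
    1 ≤ c0 / (24 * cop (f + 1)) * (N : ℝ)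
  have hN1R : 2 * (M : ℝ) ≤ N := by exact_mod_cast hN1
  have hN2R : (N : ℝ) ≤ 3 * M := by exact_mod_cast hN2
  generalize pt M (f + 1) = n at hM2 hMR ⊢
  refine ⟨?_, ?_, ?_⟩
  · calc k * N ≤ k * (3 * M) := Nat.mul_le_mul_left _ hN2
      _ ≤ k * (3 * (2 * (n * cop (f + 1)))) := by gcongr
      _ = _ := by ring
  · have e1 : (N : ℝ) ≤ 6 * (n * cop (f + 1)) := by linarith
    calc 4 * (c0 / (24 * cop (f + 1)) * (N : ℝ))
        ≤ 4 * (c0 / (24 * cop (f + 1)) * (6 * (n * cop (f + 1)))) := by gcongr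
      _ = c0 * n := by
        field_simp
        ring
  · rw [div_le_iff₀ h0] at hMc'
    rw [div_mul_eq_mul_div, le_div_iff₀ (by positivity)]
    have : (M : ℝ) * c0 ≤ c0 * N := by
      have hM0 : (0 : ℝ) ≤ M := Nat.cast_nonneg _
      nlinarith
    linarith

end Pool.Agent.TKN.ONE
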