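import Pool.Agent.TKN.St2

/-!
# TKN_CHV: the choice of `V`
-/

set_option autoImplicit false

open Finset
open scoped Classical

namespace Pool.Agent.TKN

open NCE

namespace MCHV

/-- Markov's inequality. -/
theorem markov {β : Type} (S : Finset β) (f : β → ℝ) (c : ℝ) (hf : ∀ x ∈ S, 0 ≤ f x) :
    ((S.filter fun x => c < f x).card : ℝ) * c ≤ ∑ x ∈ S, f x := by
  calc ((S.filter fun x => c < f x).card : ℝ) * c
      = ∑ x ∈ S.filter fun x => c < f x, c := by rw [Finset.sum_const, nsmul_eq_mul]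
    _ ≤ ∑ x ∈ S.filter fun x => c < f x, f x :=
        Finset.sum_le_sum fun x hx => (Finset.mem_filter.1 hx).2.le
    _ ≤ ∑ x ∈ S, f x :=
        Finset.sum_le_sum_of_subset_of_nonneg (Finset.filter_subset _ _) fun x hx _ => hf x hx

theorem card_mem {n m : ℕ} (v : Fin n) :
    ((powersetCard (m + 1) (univ : Finset (Fin n))).filter (fun V => v ∈ V)).card =
      (n - 1).choose m := by
  have h1 : (univ : Finset (Fin n)) = insert v (univ.erase v) := by
    rw [Finset.insert_erase (Finset.mem_univ v)]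
  rw [h1, Finset.powersetCard_succ_insert (Finset.notMem_erase v _), Finset.filter_union]
  have h2 : (powersetCard (m + 1) ((univ : Finset (Fin n)).erase v)).filter (fun V => v ∈ V) = ∅ := by
    rw [Finset.filter_eq_empty_iff]
    intro V hV hv
    have h3 := (Finset.mem_powersetCard.1 hV).1 hv
    exact Finset.notMem_erase v _ h3
  have h3 : ((powersetCard m ((univ : Finset (Fin n)).erase v)).image (insert v)).filter
      (fun V => v ∈ V) = (powersetCard m ((univ : Finset (Fin n)).erase v)).image (insert v) := by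
    rw [Finset.filter_eq_self]
    intro V hV
    obtain ⟨V', _, rfl⟩ := Finset.mem_image.1 hV
    exact Finset.mem_insert_self _ _
  rw [h2, h3, Finset.empty_union, Finset.card_image_of_injOn, Finset.card_powersetCard,
    Finset.card_erase_of_mem (Finset.mem_univ v), Finset.card_univ, Fintype.card_fin]
  intro A hA B hB hAB
  have hA' : v ∉ A := fun h =>
    Finset.notMem_erase v _ ((Finset.mem_powersetCard.1 (Finset.mem_coe.1 hA)).1 h)
  have hB' : v ∉ B := fun h =>
    Finset.notMem_erase v _ ((Finset.mem_powersetCard.1 (Finset.mem_coe.1 hB)).1 h)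
  have h4 := congrArg (fun C : Finset (Fin n) => C.erase v) hAB
  simpa [Finset.erase_insert hA', Finset.erase_insert hB'] using h4

theorem double {n m : ℕ} (h : Fin n → ℝ) (hm : 1 ≤ m) (hn : 1 ≤ n) :
    (n : ℝ) * ∑ V ∈ powersetCard m (univ : Finset (Fin n)), ∑ v ∈ V, h v =
      m * (n.choose m) * ∑ v, h v := by
  obtain ⟨m', rfl⟩ : ∃ m', m = m' + 1 := ⟨m - 1, by omega⟩
  obtain ⟨n', rfl⟩ : ∃ n', n = n' + 1 := ⟨n - 1, by omega⟩
  have h1 : ∑ V ∈ powersetCard (m' + 1) (univ : Finset (Fin (n' + 1))), ∑ v ∈ V, h v =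
      ∑ v, h v * ((n' + 1 - 1).choose m' : ℕ) := by
    have e1 : ∀ V ∈ powersetCard (m' + 1) (univ : Finset (Fin (n' + 1))), ∑ v ∈ V, h v =
        ∑ v, if v ∈ V then h v else 0 := by
      intro V _
      rw [← Finset.sum_filter]
      apply Finset.sum_congr _ (fun _ _ => rfl)
      ext v
      simp
    rw [Finset.sum_congr rfl e1, Finset.sum_comm]
    apply Finset.sum_congr rfl
    intro v _
    rw [← Finset.sum_filter, Finset.sum_const, nsmul_eq_mul, card_mem v, mul_comm]
  rw [h1, ← Finset.sum_mul]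
  have h2 : ((n' + 1 : ℕ) : ℝ) * ((n' + 1 - 1).choose m' : ℕ) =
      ((m' + 1 : ℕ) : ℝ) * ((n' + 1).choose (m' + 1) : ℕ) := by
    have h3 := Nat.add_one_mul_choose_eq n' m'
    have h4 : (n' + 1) * (n' + 1 - 1).choose m' = (m' + 1) * (n' + 1).choose (m' + 1) := by
      rw [Nat.add_sub_cancel, mul_comm (m' + 1)]
      exact h3
    exact_mod_cast h4
  calc ((n' + 1 : ℕ) : ℝ) * ((∑ v, h v) * ((n' + 1 - 1).choose m' : ℕ))
      = (((n' + 1 : ℕ) : ℝ) * ((n' + 1 - 1).choose m' : ℕ)) * ∑ v, h v := by ring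
    _ = _ := by rw [h2]

theorem ex_le {n : ℕ} (Z : Finset (Fin n → Bool)) (hZ : Z.Nonempty) (f : {z // z ∈ Z} → ℝ) (c : ℝ)
    (h : ∀ ω, f ω ≤ c) : ex (uni Z hZ) f ≤ c := by
  have h1 : ex (uni Z hZ) f ≤ ∑ ω, (uni Z hZ).p ω * c :=
    Finset.sum_le_sum fun ω _ => mul_le_mul_of_nonneg_left (h ω) ((uni Z hZ).nn ω)
  rw [← Finset.sum_mul, (uni Z hZ).one, one_mul] at h1
  exact h1

theorem ex_nonneg {n : ℕ} (Z : Finset (Fin n → Bool)) (hZ : Z.Nonempty) (f : {z // z ∈ Z} → ℝ)
    (h : ∀ ω, 0 ≤ f ω) : 0 ≤ ex (uni Z hZ) f :=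
  Finset.sum_nonneg fun ω _ => mul_nonneg ((uni Z hZ).nn ω) (h ω)

theorem sum_cnt {n r w : ℕ} {Z : Finset (Fin n → Bool)}
    {U : Fin r → (Fin n → Bool) → Finset (Fin n)} (hU : Fam n r w Z U) (z : Fin n → Bool)
    (hz : z ∈ Z) : ∑ v, cnt U z v ≤ r * w := by
  have h1 : ∑ v, cnt U z v = ∑ j, (U j z).card := by
    have e1 : ∀ v ∈ (univ : Finset (Fin n)), cnt U z v = ∑ j : Fin r, if v ∈ U j z then 1 else 0 := by
      intro v _
      unfold cnt
      rw [Finset.card_filter]
    rw [Finset.sum_congr rfl e1, Finset.sum_comm]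
    apply Finset.sum_congr rfl
    intro j _
    rw [← Finset.card_filter]
    congr 1
    ext v
    simp
  rw [h1]
  calc ∑ j, (U j z).card ≤ ∑ _j : Fin r, w := Finset.sum_le_sum fun j _ => hU.width j z hz
    _ = r * w := by simp

theorem sum_ex_cnt {n r w k : ℕ} {Z : Finset (Fin n → Bool)} (hZ : Z.Nonempty)
    {U : Fin r → (Fin n → Bool) → Finset (Fin n)} (hU : Fam n r w Z U) (h : r * w ≤ k * n) :
    ∑ v, ex (uni Z hZ) (fun ω => (cnt U ω.1 v : ℝ)) ≤ k * n := by
  have h1 : ∑ v, ex (uni Z hZ) (fun ω => (cnt U ω.1 v : ℝ)) =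
      ex (uni Z hZ) (fun ω => ((∑ v, cnt U ω.1 v : ℕ) : ℝ)) := by
    unfold ex
    rw [Finset.sum_comm]
    apply Finset.sum_congr rfl
    intro ω _
    rw [← Finset.mul_sum]
    push_cast
    rfl
  rw [h1]
  apply ex_le
  intro ω
  have h2 := (sum_cnt hU ω.1 ω.2).trans h
  exact_mod_cast h2

end MCHV

open MCHV

theorem t_CHV (hSCALE : S_SCALE) (hSMP : S_SMP) (hTCA : S_TCA) : S_CHV := by
  intro r k ξ ε θ hξ hε hθ
  have hlog : 0 < Real.log 2 := Real.log_pos (by norm_num)
  have hR : 0 < (2 : ℝ) ^ r * Real.log 2 := by positivity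
  obtain ⟨γ, hγ, n1, hn1⟩ := hSCALE ((2 : ℝ) ^ r * Real.log 2) (ξ / 4) hR (by positivity)
  obtain ⟨n2, hn2⟩ := exists_nat_ge ((4 * 2 ^ r / (θ * ε ^ 2)) / γ)
  refine ⟨γ, hγ, max n1 n2, ?_⟩
  intro n hn w Z hZ U hU hrw
  have hn1' : n1 ≤ n := (le_max_left _ _).trans hn
  have hn2' : n2 ≤ n := (le_max_right _ _).trans hn
  obtain ⟨A, hA0, hA1, hA2, hTC0, hTCs⟩ := hTCA n r Z hZ U
  obtain ⟨m, hm1, hmγ, hmn, hm⟩ := hn1 n hn1' A hA0 hA1 hA2
  have hn0 : 1 ≤ n := hm1.trans hmn
  have hmR : (0 : ℝ) < m := by exact_mod_cast hm1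
  have hnR : (0 : ℝ) < n := by exact_mod_cast hn0
  have hcard : (powersetCard m (univ : Finset (Fin n))).card = n.choose m := by
    rw [Finset.card_powersetCard, Finset.card_univ, Fintype.card_fin]
  have hch : (0 : ℝ) < (n.choose m : ℕ) := by exact_mod_cast Nat.choose_pos hmn
  have hZR : (0 : ℝ) < Z.card := by exact_mod_cast Finset.card_pos.2 hZ
  set S := powersetCard m (univ : Finset (Fin n)) with hS
  set T : Finset (Fin n) → ℝ := fun V =>
    ∑ J : Finset (Fin r), TC (uni Z hZ) (FJ Z U V J) V Subtype.val with hT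
  set g : Finset (Fin n) → ℝ := fun V =>
    ∑ v ∈ V, ex (uni Z hZ) (fun ω => (cnt U ω.1 v : ℝ)) with hg
  set b : Finset (Fin r) → Finset (Fin n) → ℝ := fun J V =>
    ((Z.filter fun z => 2 * ε * m < ((UJ U J z ∩ V).card : ℝ)).card : ℝ) with hb
  have hexnn : ∀ v, 0 ≤ ex (uni Z hZ) (fun ω => (cnt U ω.1 v : ℝ)) := fun v =>
    ex_nonneg Z hZ _ fun ω => Nat.cast_nonneg _
  -- the first average
  have hB1 : ((S.filter fun V => ξ * m < T V).card : ℝ) ≤ (n.choose m : ℕ) / 4 := by
    have h1 := markov S T (ξ * m) (fun V _ => Finset.sum_nonneg fun J _ => hTC0 V J)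
    have h2 : ∑ V ∈ S, T V ≤ ξ / 4 * m * (n.choose m : ℕ) := by
      refine le_trans (le_of_eq ?_) hm
      exact Finset.sum_congr rfl fun V _ => hTCs V
    have h3 : 0 < ξ * m := by positivity
    have h4 : ((S.filter fun V => ξ * m < T V).card : ℝ) * (ξ * m) ≤
        ((n.choose m : ℕ) / 4 : ℝ) * (ξ * m) := by
      refine (h1.trans h2).trans (le_of_eq ?_)
      ring
    exact le_of_mul_le_mul_right h4 h3
  -- the second average
  have hsumg : ∑ V ∈ S, g V ≤ k * m * (n.choose m : ℕ) := by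
    have h1 := double (fun v => ex (uni Z hZ) (fun ω => (cnt U ω.1 v : ℝ))) hm1 hn0
    have h2 := sum_ex_cnt (k := k) hZ hU hrw
    have h3 : (n : ℝ) * ∑ V ∈ S, g V ≤ (n : ℝ) * (k * m * (n.choose m : ℕ)) := by
      refine (le_of_eq h1).trans ?_
      refine (mul_le_mul_of_nonneg_left h2 (by positivity)).trans (le_of_eq ?_)
      ring
    exact le_of_mul_le_mul_left h3 hnR
  have hB2 : ((S.filter fun V => 4 * k * m < g V).card : ℝ) ≤ (n.choose m : ℕ) / 4 := by
    have hgnn : ∀ V ∈ S, 0 ≤ g V := fun V _ => Finset.sum_nonneg fun v _ => hexnn v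
    rcases Nat.eq_zero_or_pos k with hk | hk
    · have h1 : (S.filter fun V => 4 * (k : ℝ) * m < g V) = ∅ := by
        rw [Finset.filter_eq_empty_iff]
        intro V hV
        rw [not_lt]
        have h2 : g V ≤ ∑ V ∈ S, g V := Finset.single_le_sum hgnn hV
        refine h2.trans (hsumg.trans ?_)
        rw [hk]
        simp
      rw [h1]
      simp only [Finset.card_empty, Nat.cast_zero]
      positivity
    · have hkR : (0 : ℝ) < k := by exact_mod_cast hk
      have h1 := markov S g (4 * k * m) hgnn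
      have h3 : 0 < 4 * (k : ℝ) * m := by positivity
      have h4 : ((S.filter fun V => 4 * (k : ℝ) * m < g V).card : ℝ) * (4 * k * m) ≤
          ((n.choose m : ℕ) / 4 : ℝ) * (4 * k * m) := by
        refine (h1.trans hsumg).trans (le_of_eq ?_)
        ring
      exact le_of_mul_le_mul_right h4 h3
  -- the third average
  have hB3 : ∀ J : Finset (Fin r), (J.card : ℝ) * w ≤ ε * n →
      ((S.filter fun V => θ * Z.card < b J V).card : ℝ) ≤
        (n.choose m : ℕ) / (θ * ε ^ 2 * m) := by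
    intro J hJ
    have h1 := markov S (b J) (θ * Z.card) (fun V _ => Nat.cast_nonneg _)
    have h2 : ∑ V ∈ S, b J V ≤ (Z.card : ℝ) / (ε ^ 2 * m) * (n.choose m : ℕ) := by
      have hcu : (univ : Finset (Fin n)).card = n := by rw [Finset.card_univ, Fintype.card_fin]
      have h2 := hSMP (Fin n) (Fin n → Bool) univ Z (UJ U J) m ε (by rw [hcu]; exact hmn) hm1 hε (by
        intro z hz
        rw [hcu]
        refine le_trans ?_ hJ
        have h3 : (UJ U J z).card ≤ J.card * w := by
          unfold UJ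
          exact Finset.card_biUnion_le_card_mul _ _ _ fun j _ => hU.width j z hz
        have h4 := (Finset.card_le_card (Finset.inter_subset_left
          (s₁ := UJ U J z) (s₂ := (univ : Finset (Fin n))))).trans h3
        have h5 : (((UJ U J z ∩ (univ : Finset (Fin n))).card : ℕ) : ℝ) ≤ (J.card : ℝ) * w := by
          exact_mod_cast h4
        refine le_trans (le_of_eq ?_) h5
        congr 2
        ext v
        simp only [Finset.mem_inter])
      rw [hcu] at h2
      refine le_trans (le_of_eq ?_) h2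
      apply Finset.sum_congr rfl
      intro V _
      simp only [hb]
      congr 2
      apply Finset.filter_congr
      intro z _
      have h6 : ((UJ U J z ∩ V).card : ℝ) = ((@Inter.inter (Finset (Fin n))
          (@Finset.instInter (Fin n) fun a b => Classical.propDecidable (a = b)) (UJ U J z)
          V).card : ℝ) := by
        congr 2
        ext v
        simp only [Finset.mem_inter]
      rw [h6]
    have h3 : 0 < θ * (Z.card : ℝ) := by positivity
    have h4 : ((S.filter fun V => θ * Z.card < b J V).card : ℝ) * (θ * Z.card) ≤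
        ((n.choose m : ℕ) / (θ * ε ^ 2 * m)) * (θ * Z.card) := by
      refine (h1.trans h2).trans (le_of_eq ?_)
      field_simp
    exact le_of_mul_le_mul_right h4 h3
  -- the bad sets
  set B3 : Finset (Finset (Fin n)) := (univ.filter fun J : Finset (Fin r) =>
    (J.card : ℝ) * w ≤ ε * n).biUnion fun J => S.filter fun V => θ * Z.card < b J V with hB3def
  have hB3card : (B3.card : ℝ) ≤ (n.choose m : ℕ) / 4 := by
    have h1 : (B3.card : ℝ) ≤ ∑ J ∈ univ.filter fun J : Finset (Fin r) =>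
        (J.card : ℝ) * w ≤ ε * n, ((S.filter fun V => θ * Z.card < b J V).card : ℝ) := by
      have h2 : B3.card ≤ ∑ J ∈ univ.filter fun J : Finset (Fin r) =>
          (J.card : ℝ) * w ≤ ε * n, (S.filter fun V => θ * Z.card < b J V).card :=
        Finset.card_biUnion_le
      exact_mod_cast h2
    have h2 : ∑ J ∈ univ.filter fun J : Finset (Fin r) => (J.card : ℝ) * w ≤ ε * n,
        ((S.filter fun V => θ * Z.card < b J V).card : ℝ) ≤
        ∑ _J ∈ univ.filter fun J : Finset (Fin r) => (J.card : ℝ) * w ≤ ε * n,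
          (n.choose m : ℕ) / (θ * ε ^ 2 * m) :=
      Finset.sum_le_sum fun J hJ => hB3 J (Finset.mem_filter.1 hJ).2
    have h3 : ∑ _J ∈ univ.filter fun J : Finset (Fin r) => (J.card : ℝ) * w ≤ ε * n,
        ((n.choose m : ℕ) / (θ * ε ^ 2 * m) : ℝ) ≤
        (2 : ℝ) ^ r * ((n.choose m : ℕ) / (θ * ε ^ 2 * m)) := by
      rw [Finset.sum_const, nsmul_eq_mul]
      apply mul_le_mul_of_nonneg_right _ (by positivity)
      have h4 : (univ.filter fun J : Finset (Fin r) => (J.card : ℝ) * w ≤ ε * n).card ≤ 2 ^ r := by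
        refine (Finset.card_filter_le _ _).trans ?_
        rw [Finset.card_univ, Fintype.card_finset, Fintype.card_fin]
      exact_mod_cast h4
    have h5 : 4 * 2 ^ r / (θ * ε ^ 2) ≤ (m : ℝ) := by
      have h6 : (4 * 2 ^ r / (θ * ε ^ 2)) / γ ≤ (n : ℝ) := hn2.trans (by exact_mod_cast hn2')
      rw [div_le_iff₀ hγ] at h6
      refine h6.trans ?_
      rw [mul_comm]
      exact hmγ
    refine (h1.trans (h2.trans h3)).trans ?_
    have h6 : 0 < θ * ε ^ 2 := by positivity
    rw [div_le_iff₀ h6] at h5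
    rw [← mul_div_assoc, div_le_div_iff₀ (by positivity) (by norm_num)]
    nlinarith [mul_le_mul_of_nonneg_left h5 hch.le]
  -- a good set
  have hex : ∃ V ∈ S, V ∉ (S.filter fun V => ξ * m < T V) ∧
      V ∉ (S.filter fun V => 4 * (k : ℝ) * m < g V) ∧ V ∉ B3 := by
    by_contra hcon
    push Not at hcon
    have h1 : S ⊆ (S.filter fun V => ξ * m < T V) ∪
        ((S.filter fun V => 4 * (k : ℝ) * m < g V) ∪ B3) := by
      intro V hV
      by_cases ha : V ∈ (S.filter fun V => ξ * m < T V)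
      · exact Finset.mem_union_left _ ha
      · by_cases hb' : V ∈ (S.filter fun V => 4 * (k : ℝ) * m < g V)
        · exact Finset.mem_union_right _ (Finset.mem_union_left _ hb')
        · exact Finset.mem_union_right _ (Finset.mem_union_right _ (hcon V hV ha hb'))
    have h2 := Finset.card_le_card h1
    have h3 := h2.trans ((Finset.card_union_le _ _).trans
      (Nat.add_le_add_left (Finset.card_union_le _ _) _))
    rw [hcard] at h3
    have h4 : ((n.choose m : ℕ) : ℝ) ≤ ((S.filter fun V => ξ * m < T V).card : ℝ) +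
        (((S.filter fun V => 4 * (k : ℝ) * m < g V).card : ℝ) + (B3.card : ℝ)) := by
      exact_mod_cast h3
    linarith
  obtain ⟨V, hV, hV1, hV2, hV3⟩ := hex
  have hVm : V.card = m := (Finset.mem_powersetCard.1 hV).2
  have hV1' : T V ≤ ξ * m := by
    by_contra h
    exact hV1 (Finset.mem_filter.2 ⟨hV, not_le.1 h⟩)
  have hV2' : g V ≤ 4 * k * m := by
    by_contra h
    exact hV2 (Finset.mem_filter.2 ⟨hV, not_le.1 h⟩)
  refine ⟨V, by rw [hVm]; exact hm1, by rw [hVm]; exact hmγ, ?_, by rw [hVm]; exact hV2', ?_⟩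
  · intro J
    rw [hVm]
    refine le_trans ?_ hV1'
    exact Finset.single_le_sum (f := fun J => TC (uni Z hZ) (FJ Z U V J) V Subtype.val)
      (fun J _ => hTC0 V J) (Finset.mem_univ J)
  · intro J hJ
    rw [hVm]
    by_contra h
    apply hV3
    rw [hB3def, Finset.mem_biUnion]
    exact ⟨J, Finset.mem_filter.2 ⟨Finset.mem_univ _, hJ⟩, Finset.mem_filter.2 ⟨hV, not_le.1 h⟩⟩

end Pool.Agent.TKN
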