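import Pool.Agent.TKN.St1
import Pool.Agent.NCE.DET

/-!
# DTS: the entropy of a function (on the support) of a random variable
-/

set_option autoImplicit false

open Finset NCE
open scoped Classical

namespace Pool.Agent.TKN

namespace MDTS

/-- on the support, the fibre of `V` lies in the fibre of `W` -/
theorem pr_le {Ω : Type} [Fintype Ω] (P : FP Ω) {α β : Type} (V : Ω → α) (W : Ω → β)
    (h : DetS P V W) (ω : Ω) (h0 : P.p ω ≠ 0) : pr P V (V ω) ≤ pr P W (W ω) := by
  unfold pr
  refine Finset.sum_le_sum fun ω' _ => ?_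
  by_cases h1 : V ω' = V ω
  · rw [if_pos h1]
    by_cases h2 : P.p ω' = 0
    · rw [h2]
      split_ifs
      · exact le_refl 0
      · exact le_refl 0
    · rw [if_pos (h ω' ω h2 h0 h1)]
  · rw [if_neg h1]
    split_ifs
    · exact P.nn ω'
    · exact le_refl 0

end MDTS

theorem t_DTS : S_DTS := by
  intro Ω _ P α β V W h
  unfold H ex
  refine Finset.sum_le_sum fun ω _ => ?_
  rcases (P.nn ω).eq_or_lt with h0 | h0
  · rw [← h0, zero_mul, zero_mul]
  · have h1 : 0 < pr P V (V ω) := lt_of_lt_of_le h0 (NCE.MDET.le_pr P V ω)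
    exact mul_le_mul_of_nonneg_left
      (neg_le_neg (Real.log_le_log h1 (MDTS.pr_le P V W h ω h0.ne'))) h0.le

end Pool.Agent.TKN
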