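import Pool.Agent.TKN.St9
import Pool.Agent.TKN.Q_AVR

/-!
# TKQ, module ARP: from one point to many points for one `n`
-/

set_option autoImplicit false

open Finset

namespace Pool.Agent.TKN

open Pool.Agent.Lib_helper20.SRO
open Pool.Agent.CFT (Der fixF restr)
open Pool.Agent.URG (unc pigeon ext_unc)
open MAVR

theorem t_ARP (hF : CFT.Stmt_FIX) : S_ARP := by
  classical
  intro k c n _ hc0 _ hcore L m s W Q _ _ G w g hL hrig hrf hm1 hm hdense hs hblk hacc hfew
  have hLR : (0 : ℝ) < L := by exact_mod_cast hL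
  set A := univ.filter fun x : Fin n → Bool => g x = true with hA
  have hAne : A.Nonempty := by
    rw [← card_pos]
    rcases Nat.eq_zero_or_pos A.card with h | h
    · rw [h] at hdense
      simp only [Nat.cast_zero, mul_zero] at hdense
      have : (0 : ℝ) < 2 ^ n * L := by positivity
      linarith
    · exact h
  have hdiv : k * (n * L) / L = k * n := by
    rw [← mul_assoc, Nat.mul_div_cancel _ hL]
  let R : (Fin L → Fin n → Bool) → Fin L → ℕ → Prop := fun y i t =>
    ∃ l, Der G G.source l ∧ Agrees (Sum.elim w (unc y)) l ∧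
      ∃ S : Finset (W ⊕ (Fin L × Fin n)), S.card ≤ s ∧
        MAVT.len i (l.filter fun p => @decide (p.1 ∉ S) (Classical.propDecidable _)) ≤ t
  have hR : ∀ y ∈ Fintype.piFinset (fun _ : Fin L => A), ∃ i, R y i (k * (n * L) / L) := by
    intro y hy
    have h1 : G.Accepts (Sum.elim w (unc y)) := by
      rw [hacc]
      intro l
      exact (mem_filter.1 (Fintype.mem_piFinset.1 hy l)).2
    obtain ⟨l, hl, hbl, S, hS, hcl⟩ := hfew _ h1
    set l' := l.filter fun p => @decide (p.1 ∉ S) (Classical.propDecidable _) with hl'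
    by_contra hcon
    push Not at hcon
    have h2 : ∀ i : Fin L, k * (n * L) / L + 1 ≤ MAVT.len i l' := by
      intro i
      by_contra h3
      have h9 : MAVT.len i l' ≤ k * (n * L) / L := by omega
      exact hcon i ⟨l, hl, hbl, S, hS, h9⟩
    have h4 : ∑ _i : Fin L, (k * (n * L) / L + 1) ≤ ∑ i : Fin L, MAVT.len i l' :=
      sum_le_sum fun i _ => h2 i
    rw [sum_const, smul_eq_mul, card_univ, Fintype.card_fin] at h4
    have h5 : k * (n * L) < L * (k * (n * L) / L + 1) := Nat.lt_mul_div_succ _ hL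
    have h6 := MAVT.sum_len l'
    have h7 : l'.length = Out S l := out_eq S l
    omega
  obtain ⟨i, y, hy, B0, hB0A, hB0, hcard⟩ := pigeon hL A hAne R hR
  have hι : Function.Injective (fun j : Fin n => (Sum.inr (i, j) : W ⊕ (Fin L × Fin n))) := by
    intro j j' h
    simpa using h
  obtain ⟨f1, f2, f3, f4, f5⟩ := hF (W ⊕ (Fin L × Fin n)) Q n G
    (fun j : Fin n => (Sum.inr (i, j) : W ⊕ (Fin L × Fin n))) (Sum.elim w (unc y)) hι
  refine hcore Q (fixF G (fun j : Fin n => (Sum.inr (i, j) :
    W ⊕ (Fin L × Fin n))) (Sum.elim w (unc y))) g m s B0 hs (f2 s hblk) ?_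
    hrig ?_ hm1 hm hrf ?_
  · intro b hb
    rw [f1, ext_unc, hacc] at hb
    have := hb i
    simpa [unc] using this
  · intro b hb
    obtain ⟨l, hl, hbl, S, hS, hcl⟩ := hB0 b hb
    rw [hdiv] at hcl
    exact ⟨restr (fun j : Fin n => (Sum.inr (i, j) : W ⊕ (Fin L × Fin n))) l,
      f3 _ l hl (by
        intro p hp hx
        rw [← hbl p hp, ← ext_unc, ext_of_not _ _ hx]), f4 b l (by rw [ext_unc]; exact hbl), ex i S,
      (ex_card i S).trans hS, (out_restr i S l).trans hcl⟩
  · have h1 : (A.card : ℝ) ≤ L * B0.card := by exact_mod_cast hcard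
    have h2 : (0 : ℝ) ≤ 2 ^ (c * n) := Real.rpow_nonneg (by norm_num) _
    have h3 : (2 : ℝ) ^ n * L ≤ (2 ^ (c * n) * B0.card) * L := by
      refine hdense.trans ((mul_le_mul_of_nonneg_left h1 h2).trans (le_of_eq ?_))
      ring
    exact le_of_mul_le_mul_right h3 hLR

end Pool.Agent.TKN
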