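import Pool.Agent.TKN.St10
import Pool.Agent.TKN.O_AUT

/-!
# Project TKQ: automata for the bad items
-/

set_option autoImplicit false

open Finset hiding val

namespace Pool.Agent.TKN.TWO

open Pool.Agent.Lib_helper20.SRO (evenWeight)
open Pool.Agent.URG (VarA VarX deg pols)
open Pool.Agent.HPM.Fn (Coord)
open Pool.Agent.TKN.ONE (Aut)

open Pool.Agent.TKN.ONE.MAUT in
theorem t_AUQ : S_AUQ := by
  intro n e L m β pos _ hp1 hp2 x
  rcases x with ⟨t, l⟩ | l
  · refine aut3 pos (ca β t) (cy l) (cs β t) _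
      (fun s => ¬ (if ss n e = 0 then
        ∀ i : Fin (Pool.Agent.URG.zs n e),
          β.repr s (Fin.castLE (Pool.Agent.URG.zs_le n e) i) = 0
        else ¬ ∀ i : Fin (ss n e), β.repr s (Fin.castLE (ss_le n e) i) = 0)) ?_ ?_ ?_
    · intro w w' b b' y h h'
      obtain ⟨t', i, rfl⟩ := ca_ne h'
      have h0 : cy l y w b ≠ 0 ∨ cy l 0 w b ≠ 0 := by
        rcases h with h | h
        · by_contra hc
          push Not at hc
          exact h (by rw [hc.1, hc.2])
        · exact Or.inl h
      rcases h0 with h0 | h0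
      · obtain ⟨p, rfl⟩ := cy_ne h0
        exact hp1 t' i p
      · obtain ⟨p, rfl⟩ := cy_ne h0
        exact hp1 t' i p
    · intro w w' b b' y y' h h'
      obtain ⟨t', q, rfl⟩ := cs_ne h
      obtain ⟨p, rfl⟩ := cy_ne h'
      exact hp2 t' q p
    · intro v
      have e1 := sum_ca β t (fun w => v (pos w))
      have e2 := sum_cy l (Pool.Agent.HPM.elt β fun i => v (pos (Sum.inl (t, Sum.inl i))))
        (fun w => v (pos w))
      have e3 := fun y => sum_cs β t y (fun w => v (pos w))
      rw [e1, e2, e3]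
      exact Iff.rfl
  · refine aut3 pos (fun _ _ => 0) (fun _ _ _ => 0) (fun _ => cw l) _ (fun s => ¬ s = 0) ?_ ?_ ?_
    · intro w w' b b' y h h'
      exact absurd rfl h'
    · intro w w' b b' y y' h h'
      exact absurd rfl h'
    · intro v
      have e1 := sum_cw (n := n) (e := e) l (fun w => v (pos w))
      rw [e1]
      show (¬ evenWeight _ = true) ↔ _
      rw [even_iff _ (deg n e)]

end Pool.Agent.TKN.TWO
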