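import Pool.Agent.TKN.St8

/-!
# Project TKQ, module AVB: bounds for the averages
-/

set_option autoImplicit false

open Finset
open scoped Classical

namespace Pool.Agent.TKN

open NCE

namespace RAVB

theorem av_mono {n r t i : ℕ} {g h : Finset (Fin n) → Finset (Fin r) → ℝ}
    (H : ∀ V J, V.card = t → J.card = i → g V J ≤ h V J) : av n r t i g ≤ av n r t i h := by
  unfold av
  refine div_le_div_of_nonneg_right ?_ (by positivity)
  refine Finset.sum_le_sum fun V hV => Finset.sum_le_sum fun J hJ => ?_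
  exact H V J (mem_powersetCard.1 hV).2 (mem_powersetCard.1 hJ).2

theorem av_affine {n r t i : ℕ} (ht : t ≤ n) (hi : i ≤ r)
    (g : Finset (Fin n) → Finset (Fin r) → ℝ) (c d : ℝ) :
    av n r t i (fun V J => c + d * g V J) = c + d * av n r t i g := by
  have h1 : (0 : ℝ) < (n.choose t : ℝ) := by exact_mod_cast Nat.choose_pos ht
  have h2 : (0 : ℝ) < (r.choose i : ℝ) := by exact_mod_cast Nat.choose_pos hi
  unfold av
  simp only [Finset.sum_add_distrib, Finset.sum_const, card_powersetCard, card_univ,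
    Fintype.card_fin, nsmul_eq_mul, ← Finset.mul_sum]
  field_simp

theorem av_zero (n r t i : ℕ) : av n r t i (fun _ _ => (0 : ℝ)) = 0 := by
  unfold av
  simp

end RAVB

open RAVB in
theorem t_AVB (hOX : S_OX) : S_AVB := by
  intro n r Z hZ U t i ht htn hir
  have ht0 : (0 : ℝ) < (t : ℝ) := by exact_mod_cast ht
  have hP : ∀ V J, 0 ≤ PhiF Z hZ U V J := fun V J =>
    Finset.sum_nonneg fun v _ => (hOX _ (uni Z hZ) _ (FJ Z U V J) (bit Z v)).1
  have hPE : ∀ V J, PhiF Z hZ U V J ≤ EntF Z hZ U V J := fun V J =>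
    Finset.sum_le_sum fun v _ => (hOX _ (uni Z hZ) _ (FJ Z U V J) (bit Z v)).2.1
  have hE : ∀ (V : Finset (Fin n)) (J : Finset (Fin r)), V.card = t →
      EntF Z hZ U V J ≤ (t : ℝ) := by
    intro V J hV
    unfold EntF
    refine (Finset.sum_le_card_nsmul V _ 1 fun v _ =>
      (hOX _ (uni Z hZ) _ (FJ Z U V J) (bit Z v)).2.2.1).trans (le_of_eq ?_)
    rw [hV, nsmul_eq_mul, mul_one]
  have hEa : ∀ a : ℝ, 0 < a → a ≤ 1 → ∀ (V : Finset (Fin n)) (J : Finset (Fin r)), V.card = t →
      EntF Z hZ U V J ≤ t * a + Real.log (1 / a) * PhiF Z hZ U V J := by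
    intro a ha ha1 V J hV
    unfold EntF PhiF
    refine (Finset.sum_le_sum fun v _ =>
      (hOX _ (uni Z hZ) _ (FJ Z U V J) (bit Z v)).2.2.2 a ha ha1).trans (le_of_eq ?_)
    rw [Finset.sum_add_distrib, Finset.sum_const, hV, nsmul_eq_mul, ← Finset.mul_sum]
  refine ⟨?_, ?_, ?_, fun a ha ha1 => ?_⟩
  · unfold oA
    refine div_nonneg ?_ ht0.le
    rw [← av_zero n r t i]
    exact av_mono fun V J _ _ => hP V J
  · unfold oA xA
    exact div_le_div_of_nonneg_right (av_mono fun V J _ _ => hPE V J) ht0.le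
  · unfold xA
    rw [div_le_one ht0]
    have h1 := av_affine htn hir (fun _ _ => (0 : ℝ)) (t : ℝ) 0
    have h2 : av n r t i (EntF Z hZ U) ≤ av n r t i (fun _ _ => (t : ℝ) + 0 * 0) :=
      av_mono fun V J hV _ => by
        rw [mul_zero, add_zero]
        exact hE V J hV
    rw [h1, zero_mul, add_zero] at h2
    exact h2
  · unfold xA oA
    rw [div_le_iff₀ ht0]
    have h2 : av n r t i (EntF Z hZ U) ≤
        av n r t i (fun V J => t * a + Real.log (1 / a) * PhiF Z hZ U V J) :=
      av_mono fun V J hV _ => hEa a ha ha1 V J hV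
    rw [av_affine htn hir (PhiF Z hZ U) (t * a) (Real.log (1 / a))] at h2
    refine h2.trans (le_of_eq ?_)
    field_simp

end Pool.Agent.TKN
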