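import Pool.Agent.TKN.St8

/-!
# Module AVO: `oA` is increasing in `t`
-/

set_option autoImplicit false

open Finset
open scoped Classical

namespace Pool.Agent.TKN

open NCE

namespace AVO61

/-- double counting of the pairs (set of size `t + 1`, element) -/
theorem dc (n t : ℕ) (F : Finset (Fin n) → ℝ) (ht : t ≤ n) :
    ∑ V ∈ powersetCard (t + 1) (univ : Finset (Fin n)), ∑ v ∈ V, F (V.erase v) =
      ((n : ℝ) - t) * ∑ V ∈ powersetCard t (univ : Finset (Fin n)), F V := by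
  have h1 : ∑ V ∈ powersetCard t (univ : Finset (Fin n)), ∑ _v ∈ Vᶜ, F V =
      ((n : ℝ) - t) * ∑ V ∈ powersetCard t (univ : Finset (Fin n)), F V := by
    rw [Finset.mul_sum]
    refine Finset.sum_congr rfl fun V hV => ?_
    have hc : V.card = t := (mem_powersetCard.1 hV).2
    rw [Finset.sum_const, nsmul_eq_mul, Finset.card_compl, Fintype.card_fin, hc,
      Nat.cast_sub ht]
  rw [← h1, Finset.sum_sigma', Finset.sum_sigma']
  refine Finset.sum_bij' (fun p _ => ⟨p.1.erase p.2, p.2⟩) (fun p _ => ⟨insert p.2 p.1, p.2⟩)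
    ?_ ?_ ?_ ?_ ?_
  · rintro ⟨V, v⟩ hp
    obtain ⟨hV, hv⟩ := Finset.mem_sigma.1 hp
    have hc : V.card = t + 1 := (mem_powersetCard.1 hV).2
    refine Finset.mem_sigma.2 ⟨mem_powersetCard.2 ⟨subset_univ _, ?_⟩, ?_⟩
    · rw [card_erase_of_mem hv, hc]
      rfl
    · exact mem_compl.2 (notMem_erase v V)
  · rintro ⟨V, v⟩ hp
    obtain ⟨hV, hv⟩ := Finset.mem_sigma.1 hp
    have hc : V.card = t := (mem_powersetCard.1 hV).2
    have hv' : v ∉ V := mem_compl.1 hv
    refine Finset.mem_sigma.2 ⟨mem_powersetCard.2 ⟨subset_univ _, ?_⟩, mem_insert_self _ _⟩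
    rw [card_insert_of_notMem hv', hc]
  · rintro ⟨V, v⟩ hp
    obtain ⟨hV, hv⟩ := Finset.mem_sigma.1 hp
    have e : insert v (V.erase v) = V := insert_erase hv
    simp only [e]
  · rintro ⟨V, v⟩ hp
    obtain ⟨hV, hv⟩ := Finset.mem_sigma.1 hp
    have e : (insert v V).erase v = V := erase_insert (mem_compl.1 hv)
    simp only [e]
  · rintro ⟨V, v⟩ hp
    rfl

/-- the sum over the pairs of different elements of `V` -/
theorem dc2 {n : ℕ} (V : Finset (Fin n)) (G : Fin n → ℝ) :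
    ∑ v₀ ∈ V, ∑ v ∈ V.erase v₀, G v = ((V.card : ℝ) - 1) * ∑ v ∈ V, G v := by
  have h1 : ∀ v₀ ∈ V, ∑ v ∈ V.erase v₀, G v = ∑ v ∈ V, G v - G v₀ := by
    intro v₀ hv
    rw [← Finset.add_sum_erase V G hv]
    ring
  rw [Finset.sum_congr rfl h1, Finset.sum_sub_distrib, Finset.sum_const, nsmul_eq_mul]
  ring

/-- the information outside of a smaller set is larger -/
theorem det {n r : ℕ} (Z : Finset (Fin n → Bool)) (hZ : Z.Nonempty)
    (U : Fin r → (Fin n → Bool) → Finset (Fin n)) (V : Finset (Fin n)) (J : Finset (Fin r))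
    (v₀ : Fin n) : DetS (uni Z hZ) (FJ Z U (V.erase v₀) J) (FJ Z U V J) := by
  intro ω ω' _ _ h
  have h1 : off (V.erase v₀) ω.1 = off (V.erase v₀) ω'.1 := congrArg Prod.fst h
  have h2 : (fun j => if j ∈ J then pat (U j ω.1) ω.1 else fun _ => none) =
      fun j => if j ∈ J then pat (U j ω'.1) ω'.1 else fun _ => none := congrArg Prod.snd h
  refine Prod.ext ?_ h2
  show off V ω.1 = off V ω'.1
  funext v
  have h3 := congrFun h1 v
  unfold off at h3 ⊢
  by_cases hv : v ∈ V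
  · rw [if_pos hv, if_pos hv]
  · have hv' : v ∉ V.erase v₀ := fun hh => hv (mem_of_mem_erase hh)
    rw [if_neg hv, if_neg hv]
    rwa [if_neg hv', if_neg hv'] at h3

theorem phi_le (hOM : S_OM) {n r : ℕ} (Z : Finset (Fin n → Bool)) (hZ : Z.Nonempty)
    (U : Fin r → (Fin n → Bool) → Finset (Fin n)) (V : Finset (Fin n)) (J : Finset (Fin r)) :
    ∑ v₀ ∈ V, PhiF Z hZ U (V.erase v₀) J ≤ ((V.card : ℝ) - 1) * PhiF Z hZ U V J := by
  have h1 : ∑ v₀ ∈ V, PhiF Z hZ U (V.erase v₀) J ≤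
      ∑ v₀ ∈ V, ∑ v ∈ V.erase v₀, O (uni Z hZ) (FJ Z U V J) (bit Z v) := by
    refine Finset.sum_le_sum fun v₀ _ => ?_
    unfold PhiF
    exact Finset.sum_le_sum fun v _ => hOM _ _ _ _ _ _ _ (det Z hZ U V J v₀)
  refine h1.trans (le_of_eq ?_)
  rw [dc2]
  rfl

end AVO61

open AVO61 in
/-- **AVO**: `oA` is increasing in `t`. -/
theorem t_AVO (hOM : S_OM) : S_AVO := by
  intro n r Z hZ U t i ht htn hi
  obtain ⟨F, hF⟩ : ∃ F : Finset (Fin n) → ℝ, ∀ V, F V =
      ∑ J ∈ powersetCard i (univ : Finset (Fin r)), PhiF Z hZ U V J := ⟨_, fun _ => rfl⟩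
  have hstep : ∀ V ∈ powersetCard (t + 1) (univ : Finset (Fin n)),
      ∑ v ∈ V, F (V.erase v) ≤ (t : ℝ) * F V := by
    intro V hV
    have hc : V.card = t + 1 := (mem_powersetCard.1 hV).2
    simp only [hF]
    rw [Finset.sum_comm, Finset.mul_sum]
    refine Finset.sum_le_sum fun J _ => ?_
    have h1 := phi_le hOM Z hZ U V J
    rw [hc] at h1
    push_cast at h1
    have e : ((t : ℝ) + 1 - 1) = t := by ring
    rwa [e] at h1
  have hsum : ((n : ℝ) - t) * ∑ V ∈ powersetCard t (univ : Finset (Fin n)), F V ≤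
      (t : ℝ) * ∑ V ∈ powersetCard (t + 1) (univ : Finset (Fin n)), F V := by
    rw [← dc n t F (by omega), Finset.mul_sum]
    exact Finset.sum_le_sum hstep
  have hch : ((n.choose (t + 1) : ℕ) : ℝ) * ((t : ℝ) + 1) = (n.choose t : ℝ) * ((n : ℝ) - t) := by
    have h1 := Nat.choose_succ_right_eq n t
    have h2 : ((n.choose (t + 1) * (t + 1) : ℕ) : ℝ) = ((n.choose t * (n - t) : ℕ) : ℝ) := by
      rw [h1]
    push_cast [Nat.cast_sub (show t ≤ n by omega)] at h2
    exact h2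
  have ht0 : (0 : ℝ) < t := by exact_mod_cast ht
  have hnt : (0 : ℝ) < (n : ℝ) - t := by
    have : ((t + 1 : ℕ) : ℝ) ≤ n := by exact_mod_cast htn
    push_cast at this
    linarith
  have hc0 : (0 : ℝ) < n.choose t := by exact_mod_cast Nat.choose_pos (show t ≤ n by omega)
  have hr0 : (0 : ℝ) < r.choose i := by exact_mod_cast Nat.choose_pos hi
  have e1 : oA Z hZ U t i = (∑ V ∈ powersetCard t (univ : Finset (Fin n)), F V) /
      ((n.choose t : ℝ) * r.choose i * t) := by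
    unfold oA av
    simp only [hF]
    rw [div_div]
  have e2 : oA Z hZ U (t + 1) i = (∑ V ∈ powersetCard (t + 1) (univ : Finset (Fin n)), F V) /
      ((n.choose t : ℝ) * r.choose i * ((n : ℝ) - t)) := by
    have e3 : (n.choose t : ℝ) * r.choose i * ((n : ℝ) - t) =
        (n.choose (t + 1) : ℝ) * r.choose i * ((t + 1 : ℕ) : ℝ) := by
      push_cast
      linear_combination (-(r.choose i : ℝ)) * hch
    rw [e3]
    unfold oA av
    simp only [hF]
    rw [div_div]
  rw [e1, e2, div_le_div_iff₀ (by positivity) (by positivity)]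
  have hk : 0 < (n.choose t : ℝ) * r.choose i := by positivity
  have h3 := mul_le_mul_of_nonneg_left hsum hk.le
  linarith

end Pool.Agent.TKN
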