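import Pool.Agent.TKN.St8
import Pool.Agent.TKN.P_TCA
import Pool.Agent.TKN.P_SCALE

/-!
# Module AVX: `xA` is increasing, the average total correlation
-/

set_option autoImplicit false

open Finset
open scoped Classical

namespace Pool.Agent.TKN

open NCE

namespace AVX94

/-- the averages of a supermodular set function -/
theorem avg (n : ℕ) (A : Finset (Fin n) → ℝ) (hA0 : A ∅ = 0)
    (hinc : ∀ V : Finset (Fin n), ∀ v, 0 ≤ A V - A (V.erase v))
    (hsup : ∀ V : Finset (Fin n), ∀ u ∈ V, ∀ v ∈ V, u ≠ v →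
      A (V.erase u) + A (V.erase v) ≤ A V + A ((V.erase u).erase v)) :
    ∃ α : ℕ → ℝ, α 0 = 0 ∧
      (∀ t, t ≤ n → ∑ V ∈ powersetCard t (univ : Finset (Fin n)), A V = α t * n.choose t) ∧
      (∀ t, t + 1 ≤ n → ∑ V ∈ powersetCard (t + 1) (univ : Finset (Fin n)),
        ∑ v ∈ V, (A V - A (V.erase v)) =
          ((t : ℝ) + 1) * n.choose (t + 1) * (α (t + 1) - α t)) ∧
      (∀ s < n, 0 ≤ α (s + 1) - α s) ∧
      (∀ s, s + 2 ≤ n → 2 * α (s + 1) ≤ α (s + 2) + α s) := by
  set S : ℕ → ℝ := fun t => ∑ V ∈ powersetCard t (univ : Finset (Fin n)), A V with hS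
  set c : ℕ → ℝ := fun t => (n.choose t : ℝ) with hc
  have hc0 : ∀ t ≤ n, 0 < c t := fun t ht => by
    simp only [hc]
    exact_mod_cast Nat.choose_pos ht
  have hcc : ∀ t ≤ n, c (t + 1) * (t + 1) = c t * (n - t) := by
    intro t ht
    have h1 := Nat.choose_succ_right_eq n t
    have h2 : ((n.choose (t + 1) * (t + 1) : ℕ) : ℝ) = ((n.choose t * (n - t) : ℕ) : ℝ) := by
      rw [h1]
    push_cast [Nat.cast_sub ht] at h2
    exact h2
  have hSα : ∀ t ≤ n, S t = S t / c t * c t := fun t ht => by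
    rw [div_mul_cancel₀ _ (hc0 t ht).ne']
  -- the sum of the increments
  have hD : ∀ t, t + 1 ≤ n → ∑ V ∈ powersetCard (t + 1) (univ : Finset (Fin n)),
      ∑ v ∈ V, (A V - A (V.erase v)) =
      (t + 1) * c (t + 1) * (S (t + 1) / c (t + 1) - S t / c t) := by
    intro t ht
    have h1 : ∑ V ∈ powersetCard (t + 1) (univ : Finset (Fin n)),
        ∑ v ∈ V, (A V - A (V.erase v)) = (t + 1) * S (t + 1) - (n - t) * S t := by
      have h2 : ∑ V ∈ powersetCard (t + 1) (univ : Finset (Fin n)), ∑ _v ∈ V, A V =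
          (t + 1) * S (t + 1) := by
        rw [hS, mul_sum]
        refine sum_congr rfl fun V hV => ?_
        rw [mem_powersetCard] at hV
        rw [sum_const, hV.2, nsmul_eq_mul]
        push_cast
        ring
      simp only [sum_sub_distrib]
      rw [h2, MSCALE.dc A t]
    rw [h1]
    have h3 := hcc t (by omega)
    have h4 := (hc0 (t + 1) ht).ne'
    have h5 := (hc0 t (by omega)).ne'
    field_simp
    linear_combination (S t) * h3
  have g0 : S 0 / c 0 = 0 := by
    simp only [hS, powersetCard_zero, sum_singleton, hA0, zero_div]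
  have g1 : ∀ s < n, 0 ≤ S (s + 1) / c (s + 1) - S s / c s := by
    intro s hs
    have h1 := hD s hs
    have hk : (0 : ℝ) < ((s : ℝ) + 1) * c (s + 1) :=
      mul_pos (by positivity) (hc0 (s + 1) hs)
    have h2 : 0 ≤ ∑ V ∈ powersetCard (s + 1) (univ : Finset (Fin n)),
        ∑ v ∈ V, (A V - A (V.erase v)) :=
      sum_nonneg fun V _ => sum_nonneg fun v _ => hinc V v
    rw [h1] at h2
    exact nonneg_of_mul_nonneg_right h2 hk
  have g2 : ∀ s, s + 2 ≤ n → 2 * (S (s + 1) / c (s + 1)) ≤ S (s + 2) / c (s + 2) + S s / c s := by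
    intro s hs
    have h1 : ∀ V ∈ powersetCard (s + 2) (univ : Finset (Fin n)),
        2 * ((s : ℝ) + 1) * ∑ u ∈ V, A (V.erase u) ≤ (s + 2) * (s + 1) * A V +
          ∑ u ∈ V, ∑ v ∈ V.erase u, A ((V.erase u).erase v) := by
      intro V hV
      rw [mem_powersetCard] at hV
      have h2 : ∑ u ∈ V, ∑ v ∈ V.erase u, (A (V.erase u) + A (V.erase v)) ≤
          ∑ u ∈ V, ∑ v ∈ V.erase u, (A V + A ((V.erase u).erase v)) := by
        refine sum_le_sum fun u hu => sum_le_sum fun v hv => ?_
        exact hsup V u hu v (mem_of_mem_erase hv) (ne_of_mem_erase hv).symm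
      have h3 : ∀ u ∈ V, ∑ _v ∈ V.erase u, A (V.erase u) = ((s : ℝ) + 1) * A (V.erase u) := by
        intro u hu
        rw [sum_const, card_erase_of_mem hu, hV.2, nsmul_eq_mul]
        congr 1
        have : s + 2 - 1 = s + 1 := rfl
        rw [this]
        push_cast
        ring
      have h4 : ∀ u ∈ V, ∑ v ∈ V.erase u, A (V.erase v) =
          ∑ v ∈ V, A (V.erase v) - A (V.erase u) := fun u hu => sum_erase_eq_sub hu
      have h5 : ∀ u ∈ V, ∑ _v ∈ V.erase u, A V = ((s : ℝ) + 1) * A V := by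
        intro u hu
        rw [sum_const, card_erase_of_mem hu, hV.2, nsmul_eq_mul]
        congr 1
        have : s + 2 - 1 = s + 1 := rfl
        rw [this]
        push_cast
        ring
      simp only [sum_add_distrib] at h2
      rw [sum_congr rfl h3, sum_congr rfl h4, sum_congr rfl h5, sum_sub_distrib, sum_const,
        sum_const, hV.2, nsmul_eq_mul, nsmul_eq_mul, ← mul_sum] at h2
      push_cast at h2
      linarith
    have h2 := sum_le_sum h1
    rw [← mul_sum, sum_add_distrib, ← mul_sum, MSCALE.dc A (s + 1),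
      MSCALE.dc (fun W => ∑ v ∈ W, A (W.erase v)) (s + 1), MSCALE.dc A s] at h2
    have e1 : ∑ V ∈ powersetCard (s + 2) (univ : Finset (Fin n)), A V =
        S (s + 2) / c (s + 2) * c (s + 2) := hSα (s + 2) hs
    have e2 : ∑ V ∈ powersetCard (s + 1) (univ : Finset (Fin n)), A V =
        S (s + 1) / c (s + 1) * c (s + 1) := hSα (s + 1) (by omega)
    have e3 : ∑ V ∈ powersetCard s (univ : Finset (Fin n)), A V =
        S s / c s * c s := hSα s (by omega)
    rw [e1, e2, e3] at h2
    have c1 := hcc (s + 1) (by omega)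
    have c2 := hcc s (by omega)
    push_cast at c1 h2
    have e : (s : ℝ) + 1 + 1 = s + 2 := by ring
    have e' : s + 1 + 1 = s + 2 := rfl
    rw [e, e'] at c1
    have hk : (0 : ℝ) < ((s : ℝ) + 1) * (s + 2) * c (s + 2) :=
      mul_pos (by positivity) (hc0 (s + 2) hs)
    have h3 : ((s : ℝ) + 1) * (s + 2) * c (s + 2) * (2 * (S (s + 1) / c (s + 1))) ≤
        ((s : ℝ) + 1) * (s + 2) * c (s + 2) * (S (s + 2) / c (s + 2) + S s / c s) := by
      have l1 : 2 * ((s : ℝ) + 1) * (((n : ℝ) - (s + 1)) * (S (s + 1) / c (s + 1) * c (s + 1))) =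
          ((s : ℝ) + 1) * (s + 2) * c (s + 2) * (2 * (S (s + 1) / c (s + 1))) := by
        linear_combination (-(2 * ((s : ℝ) + 1) * (S (s + 1) / c (s + 1)))) * c1
      have l2 : ((s : ℝ) + 2) * (s + 1) * (S (s + 2) / c (s + 2) * c (s + 2)) +
          ((n : ℝ) - (s + 1)) * (((n : ℝ) - s) * (S s / c s * c s)) =
          ((s : ℝ) + 1) * (s + 2) * c (s + 2) * (S (s + 2) / c (s + 2) + S s / c s) := by
        linear_combination (-(((n : ℝ) - (s + 1)) * (S s / c s))) * c2 +
          (-((s + 1) * (S s / c s))) * c1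
      rw [← l1, ← l2]
      exact h2
    exact le_of_mul_le_mul_left h3 hk
  exact ⟨fun t => S t / c t, g0, hSα, hD, g1, g2⟩

/-- the numerical part -/
theorem low (n : ℕ) (α : ℕ → ℝ) (h0 : α 0 = 0) (hinc : ∀ s < n, 0 ≤ α (s + 1) - α s)
    (hconv : ∀ s, s + 2 ≤ n → 2 * α (s + 1) ≤ α (s + 2) + α s) (s t : ℕ) (hst : s ≤ t)
    (ht : t < n) : ((t : ℝ) - s) * (α (s + 1) - α s) ≤ α (t + 1) := by
  have hmono : ∀ s t, s ≤ t → t < n → α (s + 1) - α s ≤ α (t + 1) - α t := by
    intro s t hst
    induction t, hst using Nat.le_induction with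
    | base => intro _; exact le_rfl
    | succ t hst ih =>
      intro ht
      have h1 := ih (by omega)
      have h2 := hconv t (by omega)
      have e : t + 1 + 1 = t + 2 := rfl
      rw [e]
      linarith
  have hpos : ∀ t, t ≤ n → 0 ≤ α t := by
    intro t
    induction t with
    | zero => intro _; rw [h0]
    | succ t ih =>
      intro ht
      have h1 := ih (by omega)
      have h2 := hinc t (by omega)
      linarith
  induction t, hst using Nat.le_induction with
  | base => rw [sub_self, zero_mul]; exact hpos _ ht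
  | succ t hst ih =>
    have h1 := ih (by omega)
    have h2 := hmono s (t + 1) (by omega) ht
    push_cast
    linarith

section
variable {n r : ℕ} (Z : Finset (Fin n → Bool)) (hZ : Z.Nonempty)
  (U : Fin r → (Fin n → Bool) → Finset (Fin n))

/-- the set function -/
noncomputable def B (i : ℕ) (V : Finset (Fin n)) : ℝ :=
  ∑ J ∈ powersetCard i (univ : Finset (Fin r)), MTCA.AJ Z hZ U J V

theorem ent (h1 : S_DTS) (i : ℕ) (V : Finset (Fin n)) :
    ∑ J ∈ powersetCard i (univ : Finset (Fin r)), EntF Z hZ U V J =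
      ∑ v ∈ V, (B Z hZ U i V - B Z hZ U i (V.erase v)) := by
  unfold EntF B
  rw [sum_comm]
  refine sum_congr rfl fun v _ => ?_
  rw [← sum_sub_distrib]
  exact sum_congr rfl fun J _ => (MTCA.AJ_sub Z hZ U h1 J V v).symm

theorem tcf (h1 : S_DTS) (i : ℕ) (V : Finset (Fin n)) :
    ∑ J ∈ powersetCard i (univ : Finset (Fin r)), TCF Z hZ U V J =
      ∑ v ∈ V, (B Z hZ U i V - B Z hZ U i (V.erase v)) - B Z hZ U i V := by
  have e : ∀ J ∈ powersetCard i (univ : Finset (Fin r)), TCF Z hZ U V J =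
      ∑ v ∈ V, (MTCA.AJ Z hZ U J V - MTCA.AJ Z hZ U J (V.erase v)) - MTCA.AJ Z hZ U J V :=
    fun J _ => MTCA.TC_eq Z hZ U h1 J V
  rw [sum_congr rfl e, sum_sub_distrib, sum_comm]
  unfold B
  congr 1
  refine sum_congr rfl fun v _ => ?_
  rw [sum_sub_distrib]

end

end AVX94

open AVX94 in
/-- **AVX**: `xA` is increasing in `t`; the average total correlation. -/
theorem t_AVX (h1 : S_DTS) (h2 : S_SBS) : S_AVX := by
  intro n r Z hZ U i hi
  obtain ⟨α, a0, a1, a2, a3, a4⟩ := avg n (B Z hZ U i)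
    (sum_eq_zero fun J _ => MTCA.AJ_empty Z hZ U h1 J)
    (fun V v => by
      unfold B
      rw [← sum_sub_distrib]
      exact sum_nonneg fun J _ => MTCA.AJ_nn Z hZ U h1 J V v)
    (fun V u _ v _ _ => by
      unfold B
      rw [← sum_add_distrib, ← sum_add_distrib]
      refine sum_le_sum fun J _ => ?_
      have h3 := MTCA.AJ_sup Z hZ U h2 J (erase_subset u V) (erase_subset v V)
      have e : V.erase u ∩ V.erase v = (V.erase u).erase v := by
        ext x
        simp only [mem_inter, mem_erase]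
        tauto
      rw [e] at h3
      exact h3)
  have hr0 : (0 : ℝ) < r.choose i := by exact_mod_cast Nat.choose_pos hi
  have hc0 : ∀ t, t ≤ n → (0 : ℝ) < n.choose t := fun t ht => by
    exact_mod_cast Nat.choose_pos ht
  have hx : ∀ s, s + 1 ≤ n → xA Z hZ U (s + 1) i = (α (s + 1) - α s) / r.choose i := by
    intro s hs
    unfold xA av
    rw [sum_congr rfl fun V _ => ent Z hZ U h1 i V, a2 s hs]
    have := hc0 (s + 1) hs
    push_cast
    field_simp
  have hy : ∀ s, s + 1 ≤ n → yA Z hZ U (s + 1) i =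
      (α (s + 1) - α s) / r.choose i - α (s + 1) / (((s : ℝ) + 1) * r.choose i) := by
    intro s hs
    unfold yA av
    rw [sum_congr rfl fun V _ => tcf Z hZ U h1 i V, sum_sub_distrib, a2 s hs, a1 (s + 1) hs]
    have := hc0 (s + 1) hs
    push_cast
    field_simp
  refine ⟨?_, ?_, ?_⟩
  · intro t ht htn
    obtain ⟨s, rfl⟩ : ∃ s, t = s + 1 := ⟨t - 1, by omega⟩
    rw [hx s (by omega), hx (s + 1) (by omega)]
    have h3 := a4 s (by omega)
    have e : s + 1 + 1 = s + 2 := rfl
    rw [e]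
    exact div_le_div_of_nonneg_right (by linarith) hr0.le
  · intro V J
    have h3 := MTCA.AJ_le_sum Z hZ U h1 h2 J V
    have h4 := MTCA.TC_eq Z hZ U h1 J V
    unfold TCF
    rw [h4]
    linarith
  · intro t t' ht' htt htn
    obtain ⟨s, rfl⟩ : ∃ s, t = s + 1 := ⟨t - 1, by omega⟩
    obtain ⟨s', rfl⟩ : ∃ s', t' = s' + 1 := ⟨t' - 1, by omega⟩
    rw [hy s htn, hx s htn, hx s' (by omega)]
    have h3 := low n α a0 a3 a4 s' s (by omega) (by omega)
    have hs0 : (0 : ℝ) < (s : ℝ) + 1 := by positivity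
    have h4 : ((s : ℝ) - s') * (α (s' + 1) - α s') / (((s : ℝ) + 1) * r.choose i) ≤
        α (s + 1) / (((s : ℝ) + 1) * r.choose i) :=
      div_le_div_of_nonneg_right h3 (by positivity)
    have e : (α (s' + 1) - α s') / (r.choose i : ℝ) -
        ((s' + 1 : ℕ) : ℝ) / ((s + 1 : ℕ) : ℝ) * ((α (s' + 1) - α s') / r.choose i) =
        ((s : ℝ) - s') * (α (s' + 1) - α s') / (((s : ℝ) + 1) * r.choose i) := by
      push_cast
      field_simp
      ring
    linarith

end Pool.Agent.TKN
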