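import Pool.Agent.TKN.St10
import Pool.Agent.URG.Blk

/-!
# Project TKQ, module BKQ (helper22): the numbers of the tests of the second kind
-/

set_option autoImplicit false

open Finset

namespace Pool.Agent.TKN.TWO

open Pool.Agent.URG (deg lg Zero)
open Pool.Agent.HPM.Fn (Coord)

namespace BKQAux

open Finset hiding val
open Pool.Agent.HPM (elt val)
open Pool.Agent.URG.BLK (card_ev card_zero card_bits card_noninj card_one)

variable {h : ℕ}

lemma bern (M k : ℕ) : M ^ (k + 1) + (k + 1) * M ^ k ≤ (M + 1) ^ (k + 1) := by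
  induction k with
  | zero => simp
  | succ k ih =>
    calc M ^ (k + 1 + 1) + (k + 1 + 1) * M ^ (k + 1)
        ≤ (M ^ (k + 1) + (k + 1) * M ^ k) * (M + 1) := by
          have e : (M ^ (k + 1) + (k + 1) * M ^ k) * (M + 1) =
              M ^ (k + 1 + 1) + (k + 1 + 1) * M ^ (k + 1) + (k + 1) * M ^ k := by ring
          rw [e]
          exact Nat.le_add_right _ _
      _ ≤ (M + 1) ^ (k + 1) * (M + 1) := Nat.mul_le_mul_right _ ih
      _ = (M + 1) ^ (k + 1 + 1) := (pow_succ _ _).symm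

/-- `2 (N - 1) ^ N ≤ N ^ N` -/
lemma half (N : ℕ) (hN : 1 ≤ N) : 2 * (N - 1) ^ N ≤ N ^ N := by
  obtain ⟨M, rfl⟩ : ∃ M, N = M + 1 := ⟨N - 1, by omega⟩
  rw [Nat.add_sub_cancel]
  have h1 := bern M M
  have h2 : M ^ (M + 1) ≤ (M + 1) * M ^ M := by
    rw [pow_succ, mul_comm]
    exact Nat.mul_le_mul_right _ (by omega)
  omega

lemma numer (l s g t : ℕ) (hl : l ≤ 2 ^ g) (ht : t = 2 ^ s * 2 ^ g) :
    2 ^ l * (2 ^ s - 1) ^ t ≤ 2 ^ (s * t) := by
  have h1 := half (2 ^ s) Nat.one_le_two_pow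
  have h2 := Nat.pow_le_pow_left h1 (2 ^ g)
  rw [mul_pow, ← pow_mul, ← pow_mul, ← ht, ← pow_mul] at h2
  exact (Nat.mul_le_mul_right _ (Nat.pow_le_pow_right (by norm_num) hl)).trans h2

open Classical in
/-- polynomials for which the first coordinates at the points of `Z` do not all vanish -/
lemma card_bitnot (β : Coord h) {t z : ℕ} (hz : z ≤ h) (Z : Finset (GaloisField 2 h))
    (hZ : Z.card = t) (S : Finset (Fin t → Fin h → Bool))
    (hS : ∀ q, q ∈ S ↔ ∀ w ∈ Z, ¬ ∀ i : Fin z,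
      β.repr (∑ k : Fin t, elt β (q k) * w ^ (k : ℕ)) (Fin.castLE hz i) = 0) :
    S.card * 2 ^ (z * t) = (2 ^ z - 1) ^ t * 2 ^ (h * t) := by
  have : Fintype (GaloisField 2 h) := Fintype.ofFinite _
  have h1 := card_ev Z hZ.le (fun w => ¬ ∀ i : Fin z, β.repr w (Fin.castLE hz i) = 0)
  have h2 := card_zero β hz
  have h5 : (univ.filter fun w : GaloisField 2 h =>
      ¬ ∀ i : Fin z, β.repr w (Fin.castLE hz i) = 0).card * 2 ^ z = (2 ^ z - 1) * 2 ^ h := by
    have h6 := card_filter_add_card_filter_not (s := (univ : Finset (GaloisField 2 h)))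
      (fun w : GaloisField 2 h => ∀ i : Fin z, β.repr w (Fin.castLE hz i) = 0)
    rw [card_univ, card_bits β] at h6
    have h7 : (univ.filter fun w : GaloisField 2 h =>
        ∀ i : Fin z, β.repr w (Fin.castLE hz i) = 0).card * 2 ^ z = 2 ^ h := h2
    have h8 : 2 ^ h * 2 ^ z = 2 ^ h + (univ.filter fun w : GaloisField 2 h =>
        ¬ ∀ i : Fin z, β.repr w (Fin.castLE hz i) = 0).card * 2 ^ z := by
      calc 2 ^ h * 2 ^ z = ((univ.filter fun w : GaloisField 2 h =>
            ∀ i : Fin z, β.repr w (Fin.castLE hz i) = 0).card +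
          (univ.filter fun w : GaloisField 2 h =>
            ¬ ∀ i : Fin z, β.repr w (Fin.castLE hz i) = 0).card) * 2 ^ z := by rw [h6]
        _ = _ := by rw [add_mul, h7]
    have h9 : (2 ^ z - 1) * 2 ^ h = 2 ^ h * 2 ^ z - 2 ^ h := by
      rw [Nat.sub_mul, one_mul, mul_comm]
    rw [h9, h8, Nat.add_sub_cancel_left]
  set A := (univ.filter fun w : GaloisField 2 h =>
    ¬ ∀ i : Fin z, β.repr w (Fin.castLE hz i) = 0).card with hA
  have h3 : S.card = (univ.filter fun q : Fin t → GaloisField 2 h => ∀ w ∈ Z, ¬ ∀ i : Fin z,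
      β.repr (∑ k : Fin t, q k * w ^ (k : ℕ)) (Fin.castLE hz i) = 0).card := by
    refine card_equiv (Equiv.piCongrRight fun _ => Pool.Agent.URG.BLK.eq β) fun q => ?_
    rw [hS q]
    simp only [mem_filter, mem_univ, true_and]
    exact Iff.rfl
  rw [card_bits β, hZ, ← pow_mul] at h1
  have h4 := Nat.eq_of_mul_eq_mul_right (by positivity) h1
  rw [h3, h4, pow_mul, ← mul_pow, h5, mul_pow, ← pow_mul]

open Classical in
theorem many {n t z w : ℕ} (β : Coord h) (hz : z ≤ h) (Z : Finset (Fin n → Bool))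
    (hZ : Z.card = t) (h1 : 2 ^ (w + 1) * (2 ^ z - 1) ^ t ≤ 2 ^ (z * t))
    (h2 : 2 ^ (w + 1) * (t * t * n) ≤ 2 ^ h) :
    2 ^ w * (univ.filter fun σ : (Fin h → Bool) × (Fin t → Fin h → Bool) =>
      ∀ x ∈ Z, ¬ Zero β hz σ.1 σ.2 x).card ≤
      Fintype.card ((Fin h → Bool) × (Fin t → Fin h → Bool)) := by
  have h3 : (univ.filter fun σ : (Fin h → Bool) × (Fin t → Fin h → Bool) =>
      ∀ x ∈ Z, ¬ Zero β hz σ.1 σ.2 x).card = ∑ a : Fin h → Bool,
      (univ.filter fun q : Fin t → Fin h → Bool => ∀ x ∈ Z, ¬ Zero β hz a q x).card := by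
    rw [Finset.card_filter, Fintype.sum_prod_type]
    refine Finset.sum_congr rfl fun a _ => ?_
    rw [Finset.card_filter]
  have h4 : ∀ a : Fin h → Bool, 2 ^ (w + 1) *
      (univ.filter fun q : Fin t → Fin h → Bool => ∀ x ∈ Z, ¬ Zero β hz a q x).card ≤
      (if ¬ Set.InjOn (fun z => val z (elt β a)) (Z : Set (Fin n → Bool)) then
        2 ^ (w + 1) * 2 ^ (h * t) else 0) + 2 ^ (h * t) := by
    intro a
    by_cases hinj : ¬ Set.InjOn (fun z => val z (elt β a)) (Z : Set (Fin n → Bool))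
    · rw [if_pos hinj]
      refine le_trans ?_ (Nat.le_add_right _ _)
      have h0 : (univ.filter fun q : Fin t → Fin h → Bool => ∀ x ∈ Z, ¬ Zero β hz a q x).card ≤
          2 ^ (h * t) := by
        refine (card_le_univ _).trans (le_of_eq ?_)
        rw [Fintype.card_fun, Fintype.card_fun, Fintype.card_bool, Fintype.card_fin,
          Fintype.card_fin, pow_mul]
      exact Nat.mul_le_mul_left _ h0
    · rw [if_neg hinj]
      rw [not_not] at hinj
      rw [zero_add]
      have h5 : (Z.image fun z => val z (elt β a)).card = t := by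
        rw [card_image_of_injOn hinj, hZ]
      have h6 := card_bitnot β (t := t) hz (Z.image fun z => val z (elt β a)) h5
        (univ.filter fun q : Fin t → Fin h → Bool => ∀ x ∈ Z, ¬ Zero β hz a q x) (fun q => by
          simp only [mem_filter, mem_univ, true_and, mem_image, forall_exists_index, and_imp,
            forall_apply_eq_imp_iff₂]
          exact Iff.rfl)
      set c := (univ.filter fun q : Fin t → Fin h → Bool => ∀ x ∈ Z, ¬ Zero β hz a q x).card
      refine Nat.le_of_mul_le_mul_right (c := 2 ^ (z * t)) ?_ (by positivity)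
      calc 2 ^ (w + 1) * c * 2 ^ (z * t) = 2 ^ (w + 1) * (c * 2 ^ (z * t)) := by ring
        _ = (2 ^ (w + 1) * (2 ^ z - 1) ^ t) * 2 ^ (h * t) := by rw [h6]; ring
        _ ≤ 2 ^ (z * t) * 2 ^ (h * t) := Nat.mul_le_mul_right _ h1
        _ = 2 ^ (h * t) * 2 ^ (z * t) := mul_comm _ _
  have h5 : 2 * (2 ^ w * ∑ a : Fin h → Bool,
      (univ.filter fun q : Fin t → Fin h → Bool => ∀ x ∈ Z, ¬ Zero β hz a q x).card) ≤
      2 * (2 ^ h * 2 ^ (h * t)) := by
    calc 2 * (2 ^ w * ∑ a : Fin h → Bool,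
          (univ.filter fun q : Fin t → Fin h → Bool => ∀ x ∈ Z, ¬ Zero β hz a q x).card)
        = ∑ a : Fin h → Bool, 2 ^ (w + 1) *
          (univ.filter fun q : Fin t → Fin h → Bool => ∀ x ∈ Z, ¬ Zero β hz a q x).card := by
          rw [← mul_sum]
          ring
      _ ≤ ∑ a : Fin h → Bool, ((if ¬ Set.InjOn (fun z => val z (elt β a))
            (Z : Set (Fin n → Bool)) then 2 ^ (w + 1) * 2 ^ (h * t) else 0) + 2 ^ (h * t)) :=
          sum_le_sum fun a _ => h4 a
      _ = ((univ : Finset (Fin h → Bool)).filter fun a =>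
            ¬ Set.InjOn (fun z => val z (elt β a)) (Z : Set (Fin n → Bool))).card *
            (2 ^ (w + 1) * 2 ^ (h * t)) + 2 ^ h * 2 ^ (h * t) := by
          rw [sum_add_distrib, ← sum_filter, sum_const, smul_eq_mul, sum_const, smul_eq_mul,
            card_univ, Fintype.card_fun, Fintype.card_bool, Fintype.card_fin]
      _ ≤ (t * t * n) * (2 ^ (w + 1) * 2 ^ (h * t)) + 2 ^ h * 2 ^ (h * t) := by
          have := card_noninj β Z
          rw [hZ] at this
          gcongr
      _ = (2 ^ (w + 1) * (t * t * n)) * 2 ^ (h * t) + 2 ^ h * 2 ^ (h * t) := by ring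
      _ ≤ 2 ^ h * 2 ^ (h * t) + 2 ^ h * 2 ^ (h * t) := by gcongr
      _ = _ := by ring
  rw [h3]
  refine (Nat.le_of_mul_le_mul_left h5 (by norm_num)).trans (le_of_eq ?_)
  rw [Fintype.card_prod, Fintype.card_fun, Fintype.card_fun, Fintype.card_fun, Fintype.card_bool,
    Fintype.card_fin, Fintype.card_fin, pow_mul]

lemma lt_lg (m : ℕ) : m < 2 ^ lg m := Nat.lt_pow_succ_log_self (by norm_num) m

end BKQAux

open BKQAux in
theorem t_BKQ : S_BKQ := by
  classical
  intro n e β hn he hs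
  refine ⟨fun z => ?_, fun Z hZ => ?_⟩
  · have h1 := Pool.Agent.URG.BLK.card_one β (t := 4 ^ e) (ss_le n e)
      (Nat.one_le_pow _ _ (by norm_num)) z
    have h2 := card_filter_add_card_filter_not (s := (univ : Finset
      ((Fin (deg n e) → Bool) × (Fin (4 ^ e) → Fin (deg n e) → Bool))))
      (fun σ => Zero β (ss_le n e) σ.1 σ.2 z)
    rw [card_univ] at h2
    set N := Fintype.card ((Fin (deg n e) → Bool) × (Fin (4 ^ e) → Fin (deg n e) → Bool))
    set P := (univ.filter fun σ : (Fin (deg n e) → Bool) × (Fin (4 ^ e) → Fin (deg n e) → Bool) =>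
      Zero β (ss_le n e) σ.1 σ.2 z).card
    set Q := (univ.filter fun σ : (Fin (deg n e) → Bool) × (Fin (4 ^ e) → Fin (deg n e) → Bool) =>
      ¬ Zero β (ss_le n e) σ.1 σ.2 z).card
    rw [Nat.sub_mul, one_mul]
    have h3 : 2 ^ ss n e * N = N + 2 ^ ss n e * Q := by
      calc 2 ^ ss n e * N = 2 ^ ss n e * (P + Q) := by rw [h2]
        _ = _ := by rw [mul_add, h1]
    omega
  · have hlg : 1 ≤ lg n := by unfold lg; omega
    have h2e : 2 * e = ss n e + lg (lg n) := by
      unfold ss at hs ⊢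
      omega
    refine many β (ss_le n e) Z hZ ?_ ?_
    · rw [Nat.sub_add_cancel hlg]
      refine numer (lg n) (ss n e) (lg (lg n)) (4 ^ e) (lt_lg _).le ?_
      rw [← pow_add, ← h2e, pow_mul]
      norm_num
    · rw [Nat.sub_add_cancel hlg]
      have h4 : (4 : ℕ) ^ e = 2 ^ (2 * e) := by
        rw [pow_mul]
        norm_num
      have h5 : n ≤ 2 ^ lg n := (lt_lg n).le
      calc 2 ^ lg n * (4 ^ e * 4 ^ e * n) ≤ 2 ^ lg n * (4 ^ e * 4 ^ e * 2 ^ lg n) := by gcongr
        _ = 2 ^ deg n e := by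
          rw [h4, ← pow_add, ← pow_add, ← pow_add]
          congr 1
          unfold deg
          omega

end Pool.Agent.TKN.TWO
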