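import Pool.Agent.TKN.St8

/-!
# TKQ: the chain of scales (helper52)
-/

set_option autoImplicit false

namespace Pool.Agent.TKN

namespace MCHAIN

theorem anti {f : ℕ → ℝ} {N : ℕ} (h : ∀ j, j < N → f (j + 1) ≤ f j) {a b : ℕ} (hab : a ≤ b)
    (hb : b ≤ N) : f b ≤ f a := by
  induction b, hab using Nat.le_induction with
  | base => exact le_rfl
  | succ n hn ih => exact (h n (by omega)).trans (ih (by omega))

theorem pig {x : ℕ → ℝ} {a K : ℕ} {τ μ : ℝ} (h1 : τ ≤ 1) (hx : x a ≤ 1)
    (hK : Real.exp (-(τ * K)) < μ) (hμ : μ ≤ x (a + K)) :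
    ∃ j, a ≤ j ∧ j < a + K ∧ x j - x (j + 1) ≤ τ * x j := by
  by_contra hcon
  push Not at hcon
  have key : ∀ n, n ≤ K → x (a + n) ≤ (1 - τ) ^ n := by
    intro n
    induction n with
    | zero => intro _; simpa using hx
    | succ n ih =>
      intro hn
      have h2 := ih (by omega)
      have h3 := hcon (a + n) (by omega) (by omega)
      have h4 : x (a + (n + 1)) ≤ (1 - τ) * x (a + n) := by
        have : x (a + (n + 1)) = x (a + n + 1) := by rw [add_assoc]
        rw [this]
        linarith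
      have h5 : (1 - τ) * x (a + n) ≤ (1 - τ) * (1 - τ) ^ n :=
        mul_le_mul_of_nonneg_left h2 (by linarith)
      rw [pow_succ, mul_comm ((1 - τ) ^ n)]
      exact h4.trans h5
  have h6 := key K le_rfl
  have h7 : (1 - τ) ^ K ≤ Real.exp (-(τ * K)) := by
    have h8 : 1 - τ ≤ Real.exp (-τ) := by
      have := Real.add_one_le_exp (-τ)
      linarith
    calc (1 - τ) ^ K ≤ Real.exp (-τ) ^ K := pow_le_pow_left₀ (by linarith) h8 K
      _ = Real.exp (-(τ * K)) := by
        rw [← Real.exp_nat_mul]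
        congr 1
        ring
  linarith

end MCHAIN

open MCHAIN in
theorem t_CHAIN : S_CHAIN := by
  intro r m0 K L k l o x y hm0 hmr hl hk hK hL hmono hrange hy hrec h0 hnum
  set μ : ℝ := Real.exp (1 - l) with hμdef
  have hμ0 : 0 < μ := Real.exp_pos _
  have hμ1 : μ ≤ 1 := by
    rw [hμdef]
    exact Real.exp_le_one_iff.2 (by linarith)
  have hlog : Real.log (1 / μ) = l - 1 := by
    rw [one_div, Real.log_inv, hμdef, Real.log_exp]
    ring
  have hr1 : 1 ≤ r := by omega
  have hrR : (1 : ℝ) ≤ r := by exact_mod_cast hr1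
  have hl0 : 0 < l := by linarith
  have hl3 : 1 ≤ l ^ 3 := one_le_pow₀ hl
  have hel : Real.exp l = Real.exp 1 / μ := by
    rw [hμdef, ← Real.exp_sub]
    congr 1
    ring
  have he1 : 1 ≤ Real.exp 1 := Real.one_le_exp (by norm_num)
  have helm : 1 / μ ≤ Real.exp l := by
    rw [hel]
    gcongr
  have hexl : Real.exp (-l) < μ := by
    rw [hμdef]
    exact Real.exp_lt_exp.2 (by linarith)
  have hL1 : 80 * (r : ℝ) / μ ≤ L := by
    have h1 : 80 * (r : ℝ) * (1 / μ) ≤ (80 * r + 16000 * l) * Real.exp l := by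
      apply mul_le_mul _ helm (by positivity) (by positivity)
      linarith
    calc 80 * (r : ℝ) / μ = 80 * (r : ℝ) * (1 / μ) := by ring
      _ ≤ _ := h1
      _ ≤ L := hL
  have hL2 : 16000 * l / μ ≤ L := by
    have h1 : 16000 * l * (1 / μ) ≤ (80 * r + 16000 * l) * Real.exp l := by
      apply mul_le_mul _ helm (by positivity) (by positivity)
      linarith
    calc 16000 * l / μ = 16000 * l * (1 / μ) := by ring
      _ ≤ _ := h1
      _ ≤ L := hL
  have hLpos : (0 : ℝ) < L := lt_of_lt_of_le (by positivity) hL1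
  have hinv1 : 8 * (1 / (L : ℝ)) ≤ μ / (10 * r) := by
    rw [div_le_iff₀ hμ0] at hL1
    rw [mul_one_div, div_le_div_iff₀ hLpos (by positivity)]
    linarith
  have hinv2 : 1 / (L : ℝ) ≤ μ / (16000 * l) := by
    rw [div_le_iff₀ hμ0] at hL2
    rw [div_le_div_iff₀ hLpos (by positivity)]
    linarith
  -- the claims for one value of `i`
  have hoanti : ∀ i ≤ r, ∀ a b : ℕ, a ≤ b → b ≤ r * K → o b i ≤ o a i := fun i hi a b hab hb =>
    anti (f := fun j => o j i) (N := r * K) (fun j hj => (hmono j i hj hi).1) hab hb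
  have hxl : ∀ j i, j ≤ r * K → i ≤ r → μ ≤ o j i → x j i ≤ l * o j i := by
    intro j i hj hi hμo
    have h1 := (hrange j i hj hi).2.2.2 μ hμ0 hμ1
    rw [hlog] at h1
    linarith
  have hmain : μ ≤ o ((r - (r - m0)) * K) (r - m0) := by
    apply hnum (fun i => o ((r - i) * K) i) (h0 _ (by simp))
    intro i hi hbi c0
    have hir : i < r := by omega
    have hirR : (0 : ℝ) < (r : ℝ) - i := by
      have : (i : ℝ) < r := by exact_mod_cast hir
      linarith
    have hJ : (r - i) * K = (r - (i + 1)) * K + K := by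
      have : r - i = r - (i + 1) + 1 := by omega
      rw [this]
      ring
    have hJr : (r - i) * K ≤ r * K := Nat.mul_le_mul_right K (Nat.sub_le r i)
    have hbi' : μ ≤ o ((r - i) * K) i := hbi
    obtain ⟨j, hj1, hj2, hj3⟩ := pig (x := fun j => x j i) (a := (r - (i + 1)) * K) (K := K)
      (τ := 1 / (r * l)) (μ := μ)
      (by
        rw [div_le_one (by positivity)]
        nlinarith)
      ((hrange _ i (by omega) hir.le).2.2.1)
      (by
        refine lt_of_le_of_lt (Real.exp_le_exp.2 ?_) hexl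
        have h1 : l ≤ 1 / (r * l) * K := by
          rw [one_div, ← div_eq_inv_mul, le_div_iff₀ (by positivity)]
          have h2 : l * (r * l) ≤ 16000 * r * l ^ 3 := by
            have h3 : l ^ 2 ≤ l ^ 3 := pow_le_pow_right₀ hl (by norm_num)
            have h4 : l * (r * l) = r * l ^ 2 := by ring
            have h5 : (r : ℝ) * l ^ 2 ≤ r * l ^ 3 := mul_le_mul_of_nonneg_left h3 (by positivity)
            have h6 : (0 : ℝ) ≤ r * l ^ 3 := by positivity
            rw [h4]
            linarith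
          linarith
        linarith)
      (by
        rw [← hJ]
        exact hbi'.trans (hrange _ i hJr hir.le).2.1)
    rw [← hJ] at hj2
    have hjr : j < r * K := by omega
    have hoj : o ((r - i) * K) i ≤ o j i := hoanti i hir.le j _ hj2.le hJr
    have hμo : μ ≤ o j i := hbi'.trans hoj
    have hx1 := hxl j i hjr.le hir.le hμo
    have hy1 := hy j i hjr hir.le
    have h4 := hrec j i hjr.le hir c0
    have hrl : 1 / ((r : ℝ) * l) * x j i ≤ 1 / r * o j i := by
      calc 1 / ((r : ℝ) * l) * x j i ≤ 1 / ((r : ℝ) * l) * (l * o j i) :=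
            mul_le_mul_of_nonneg_left hx1 (by positivity)
        _ = 1 / r * o j i := by field_simp
    have ho0 : 0 ≤ o j i := (hrange j i hjr.le hir.le).1
    have h8 : 8 * (1 / (r : ℝ)) ≤ 12 / ((r : ℝ) - i) := by
      rw [mul_one_div, div_le_div_iff₀ (by positivity) hirR]
      have : (0 : ℝ) ≤ i := Nat.cast_nonneg i
      linarith
    have h9 : 8 * y j i ≤ 12 / ((r : ℝ) - i) * o j i + μ / (10 * r) := by
      have h10 : 8 * (1 / (r : ℝ) * o j i) ≤ 12 / ((r : ℝ) - i) * o j i := by
        rw [← mul_assoc]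
        exact mul_le_mul_of_nonneg_right h8 ho0
      have hj3' : x j i - x (j + 1) i ≤ 1 / ((r : ℝ) * l) * x j i := hj3
      linarith
    have h11 : o j (i + 1) ≤ o ((r - (i + 1)) * K) (i + 1) :=
      hoanti (i + 1) hir _ j hj1 hjr.le
    have hg0 : 0 ≤ 12 / ((r : ℝ) - i) * (k * (((r : ℝ) - i) / r) ^ c0) := by positivity
    show o ((r - i) * K) i - 12 / ((r : ℝ) - i) * ((c0 + 1) * o ((r - i) * K) i +
      k * (((r : ℝ) - i) / r) ^ c0) - μ / (10 * r) ≤ o ((r - (i + 1)) * K) (i + 1)
    set G : ℝ := k * (((r : ℝ) - i) / r) ^ c0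
    set c : ℝ := 12 / ((r : ℝ) - i)
    have hμr : 0 ≤ μ / (10 * r) := by positivity
    by_cases hs : 0 ≤ 1 - c * (c0 + 1)
    · have h12 : (1 - c * (c0 + 1)) * o ((r - i) * K) i ≤ (1 - c * (c0 + 1)) * o j i :=
        mul_le_mul_of_nonneg_left hoj hs
      linarith
    · have h13 : (1 - c * (c0 + 1)) * o ((r - i) * K) i ≤ 0 :=
        mul_nonpos_of_nonpos_of_nonneg (by linarith) (hμ0.le.trans hbi')
      have h14 : 0 ≤ o ((r - (i + 1)) * K) (i + 1) :=
        (hrange _ (i + 1) (by omega) hir).1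
      linarith
  have hrm : r - (r - m0) = m0 := by omega
  rw [hrm] at hmain
  have hmK : m0 * K ≤ r * K := Nat.mul_le_mul_right K hmr.le
  have hKm : K ≤ m0 * K := Nat.le_mul_of_pos_left K hm0
  have hir : r - m0 ≤ r := Nat.sub_le r m0
  have hK0 : o (m0 * K) (r - m0) ≤ o K (r - m0) := hoanti _ hir _ _ hKm hmK
  obtain ⟨j, -, hj2, hj3⟩ := pig (x := fun j => x j (r - m0)) (a := 0) (K := K)
    (τ := 1 / (16000 * l ^ 2)) (μ := μ)
    (by
      rw [div_le_one (by positivity)]
      nlinarith)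
    ((hrange _ _ (by omega) hir).2.2.1)
    (by
      refine lt_of_le_of_lt (Real.exp_le_exp.2 ?_) hexl
      have h1 : l ≤ 1 / (16000 * l ^ 2) * K := by
        rw [one_div, ← div_eq_inv_mul, le_div_iff₀ (by positivity)]
        have h4 : l * (16000 * l ^ 2) = 16000 * l ^ 3 := by ring
        have h5 : 16000 * l ^ 3 ≤ 16000 * (r : ℝ) * l ^ 3 := by
          have h6 : (0 : ℝ) ≤ l ^ 3 := by positivity
          nlinarith
        linarith
      linarith)
    (by
      rw [zero_add]
      exact (hmain.trans hK0).trans (hrange _ _ (by omega) hir).2.1)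
  rw [zero_add] at hj2
  have hjr : j < r * K := by omega
  have hoj : o (m0 * K) (r - m0) ≤ o j (r - m0) := hoanti _ hir _ _ (by omega) hmK
  have hμo : μ ≤ o j (r - m0) := hmain.trans hoj
  refine ⟨j, hjr, hμo, ?_⟩
  have hx1 := hxl j _ hjr.le hir hμo
  have hy1 := hy j _ hjr hir
  have hj3' : x j (r - m0) - x (j + 1) (r - m0) ≤ 1 / (16000 * l ^ 2) * x j (r - m0) := hj3
  have h1 : 1 / (16000 * l ^ 2) * x j (r - m0) ≤ o j (r - m0) / (16000 * l) := by
    calc 1 / (16000 * l ^ 2) * x j (r - m0) ≤ 1 / (16000 * l ^ 2) * (l * o j (r - m0)) :=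
          mul_le_mul_of_nonneg_left hx1 (by positivity)
      _ = o j (r - m0) / (16000 * l) := by field_simp
  have h2 : μ / (16000 * l) ≤ o j (r - m0) / (16000 * l) := by gcongr
  have h3 : o j (r - m0) / (8000 * l) = o j (r - m0) / (16000 * l) + o j (r - m0) / (16000 * l) := by
    field_simp
    ring
  rw [h3]
  linarith

end Pool.Agent.TKN
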