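import Pool.Agent.TKN.St10

/-!
# Module CRQ (helper48): the three functions of part 10, for one `n`
-/

set_option autoImplicit false

open Finset

namespace Pool.Agent.TKN.TWO

open Pool.Agent.Lib_helper20.SRO (RectFree Rigid Agrees)
open Pool.Agent.CFT (Der)
open Pool.Agent.URG (VarA VarG VarX deg lg pols)
open Pool.Agent.HPM.Fn (Coord)

namespace CRQ

open Classical in
lemma goodA_iff {n e L : ℕ} (β : Coord (deg n e)) (v : VarA n e L → Bool) :
    goodA β v = true ↔ Good β (fun i => v (Sum.inl i)) fun p => v (Sum.inr p) := by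
  unfold goodA
  exact decide_eq_true_iff

open Classical in
lemma goodF_true {n e L : ℕ} (β : Coord (deg n e)) (v : VarG n e L → Bool)
    (hv : v (Sum.inl (Sum.inr ())) = true) :
    goodF β v = true ↔ Good β (fun i => v (Sum.inl (Sum.inl i))) fun p => v (Sum.inr p) := by
  unfold goodF
  rw [decide_eq_true_iff, hv]
  exact iff_true_right rfl

open Classical in
lemma goodF_false {n e L : ℕ} (β : Coord (deg n e)) (v : VarG n e L → Bool)
    (hv : v (Sum.inl (Sum.inr ())) = false) :
    (!goodF β v) = true ↔ Good β (fun i => v (Sum.inl (Sum.inl i))) fun p => v (Sum.inr p) := by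
  unfold goodF
  rw [Bool.not_eq_true', decide_eq_false_iff_not, hv]
  constructor
  · intro h
    by_contra h1
    exact h ⟨fun h2 => absurd h2 h1, fun h2 => absurd h2 Bool.false_ne_true⟩
  · intro h h1
    exact Bool.false_ne_true (h1.mp h)

/-- The lower bound if the tests are suitable. -/
theorem lowW (hG : S_GOOQ) (k : ℕ) (c : ℝ) (n : ℕ) (hlow : AR k c n)
    (e L s : ℕ) (β : Coord (deg n e)) (hN : NumQ c n e L) (hs : (s : ℝ) ≤ c * n) :
    ∃ u : VarX n e → Bool, ∀ (W Q : Type) [Fintype Q] [DecidableEq W]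
      (G : CFT.FP (W ⊕ (Fin L × Fin n)) Q) (w : W → Bool), G.Block s →
      (∀ y : Fin L × Fin n → Bool, G.Accepts (Sum.elim w y) ↔ Good β u y) →
      TimeFR G s (k * (n * L)) → (2 : ℝ) ^ (c * n) ≤ Fintype.card Q := by
  obtain ⟨hrig, u, hrect, hdense⟩ := hG n e β hN.hn hN.he hN.hl
  refine ⟨u, ?_⟩
  intro W Q _ _ G w hblk hacc' htime
  have hacc : ∀ y : Fin L × Fin n → Bool, G.Accepts (Sum.elim w y) ↔
      ∀ l, one β u (fun j => y (l, j)) = true := by
    intro y
    rw [hacc']
    unfold Good one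
    simp only [Bool.and_eq_true, decide_eq_true_eq]
  have hnn : (0 : ℝ) ≤ n := Nat.cast_nonneg n
  refine hlow L (2 ^ e) s W Q G w (one β u) hN.hL (hrig u) hrect
    Nat.one_le_two_pow (by exact_mod_cast hN.hm) ?_ hs hblk hacc ?_
  · have h3 : (2 : ℝ) ^ (24 * (n : ℝ) / 2 ^ e + 2 * lg n) * L ≤ 2 ^ (c * n) := by
      have e1 : (2 : ℝ) ^ (24 * (n : ℝ) / 2 ^ e + 2 * lg n) ≤ 2 ^ (c * n / 2) :=
        Real.rpow_le_rpow_of_exponent_le one_le_two hN.hd
      calc (2 : ℝ) ^ (24 * (n : ℝ) / 2 ^ e + 2 * lg n) * L ≤ 2 ^ (c * n / 2) * 2 ^ (c * n / 2) :=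
            mul_le_mul e1 hN.h4 (by positivity) (by positivity)
        _ = 2 ^ (c * n) := by
            rw [← Real.rpow_add (by norm_num)]
            congr 1
            ring
    calc (2 : ℝ) ^ n * L ≤ (2 ^ (24 * (n : ℝ) / 2 ^ e + 2 * lg n) *
          (univ.filter fun x : Fin n → Bool => one β u x = true).card) * L :=
          mul_le_mul_of_nonneg_right hdense (by positivity)
      _ = (2 ^ (24 * (n : ℝ) / 2 ^ e + 2 * lg n) * L) *
          (univ.filter fun x : Fin n → Bool => one β u x = true).card := by ring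
      _ ≤ _ := mul_le_mul_of_nonneg_right h3 (by positivity)
  · intro b hb
    exact htime _ hb

end CRQ

open CRQ in
theorem t_CRQ (hG : S_GOOQ) : S_CRQ := by
  intro k c n _ hAR e L β hN
  refine ⟨fun s hs Q _ G hblk hcomp htime => ?_, fun s hs Q _ G hblk hcomp htime => ?_,
    fun s hs Q _ G hblk hcomp htime => ?_⟩
  · obtain ⟨u, h⟩ := lowW hG k c n hAR e L s β hN hs
    refine h _ Q G u hblk (fun y => ?_) htime
    rw [hcomp]
    exact goodA_iff β _
  · obtain ⟨u, h⟩ := lowW hG k c n hAR e L s β hN hs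
    refine h _ Q G (Sum.elim u fun _ => true) hblk (fun y => ?_) htime
    rw [hcomp]
    exact goodF_true β _ rfl
  · obtain ⟨u, h⟩ := lowW hG k c n hAR e L s β hN hs
    refine h _ Q G (Sum.elim u fun _ => false) hblk (fun y => ?_) htime
    rw [hcomp]
    exact goodF_false β _ rfl

end Pool.Agent.TKN.TWO
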