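import Pool.Agent.TKN.St10
import Pool.Agent.TKN.O_DTA

/-!
# TKQ: module DTQ, the function is easy for deterministic oblivious machines (helper98)

Port of O_DTA.lean: `fA` is decided item by item.
-/

set_option autoImplicit false

open Finset

namespace Pool.Agent.TKN.TWO

open Pool.Agent.Lib_helper20.SRO (evenWeight)
open Pool.Agent.URG (VarA VarX deg lg pols)
open Pool.Agent.HPM (DecOs GMachs)
open Pool.Agent.HPM.Fn (Coord)
open Pool.Agent.TKN.ONE (cop pt blk size BV Bas Lay sw dat inp Aut)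
open Pool.Agent.TKN.ONE.MDTA (many Om dat_lt card_Om)

namespace MDTQ

/-- `fA` is the conjunction over the items -/
theorem fA_iff {M : ℕ} (β : Bas M) (ly : Lay M) (v : Fin (size M) → Bool) :
    fA β ly v = true ↔ ∀ ω : Om M, ¬ (v (sw ω.1) = true ∧ Bad (β ω.1) ω.2 (inp ly ω.1 v)) := by
  classical
  unfold fA
  rw [decide_eq_true_eq]
  constructor
  · rintro h ⟨e, x⟩ ⟨h1, h2⟩
    have h3 := h e h1
    unfold goodA at h3
    rw [decide_eq_true_eq] at h3
    rcases x with ⟨t, l⟩ | l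
    · exact h2 ((h3 l).2 t)
    · exact h2 (h3 l).1
  · intro h e he
    unfold goodA
    rw [decide_eq_true_eq]
    intro l
    refine ⟨?_, fun t => ?_⟩
    · by_contra hc
      exact h ⟨e, Sum.inr l⟩ ⟨he, hc⟩
    · by_contra hc
      exact h ⟨e, Sum.inl (t, l)⟩ ⟨he, hc⟩

/-- an automaton for one item, with a common set of states -/
theorem aut_item (h1 : ONE.S_CLO) (h2 : S_AUQ) (h3 : ONE.S_SIZ) {M : ℕ} (hM : 2 ^ 56 ≤ M) (β : Bas M)
    (ly : Lay M) (ω : Om M) :
    Aut (size M) (Fin (2 ^ (9 * lg M + 1)))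
      (fun v => ¬ (v (sw ω.1) = true ∧ Bad (β ω.1) ω.2 (inp ly ω.1 v))) := by
  obtain ⟨-, c2, c3, c4⟩ := h1
  obtain ⟨e, x⟩ := ω
  have hsz := (h3 M hM).2.2 (e.val + 1) (by omega) (by have := e.2; omega)
  obtain ⟨-, -, -, -, -, -, hdeg, -⟩ := hsz
  have a1 : Aut (size M) Bool fun v => v (sw e) = true := c2 (size M) (sw e) (fun b => b = true)
  have a2 : Aut (size M) _ fun v => Bad (β e) x (fun w => v (dat (ly.pos e w))) :=
    h2 (pt M (e.val + 1)) (e.val + 1) (cop (e.val + 1)) (size M) (β e)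
      (fun w => dat (ly.pos e w))
      (fun w w' h => ly.inj e (by
        have h4 := congrArg Fin.val h
        simp only [dat, Fin.val_natAdd] at h4
        exact Fin.ext (by omega)))
      (fun t i p => dat_lt (ly.lt₁ e t i p))
      (fun t q p => dat_lt (ly.lt₂ e t q p)) x
  have a3 := c3 (size M) Bool _ _ _ (fun p q => ¬ (p ∧ q)) a1 a2
  have hd : deg (pt M (e.val + 1)) (e.val + 1) ≠ 0 := by
    unfold deg
    omega
  have : Fintype (GaloisField 2 (deg (pt M (e.val + 1)) (e.val + 1))) := Fintype.ofFinite _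
  have hcard : Fintype.card (Bool × GaloisField 2 (deg (pt M (e.val + 1)) (e.val + 1)) ×
      GaloisField 2 (deg (pt M (e.val + 1)) (e.val + 1)) ×
      GaloisField 2 (deg (pt M (e.val + 1)) (e.val + 1))) ≤
      Fintype.card (Fin (2 ^ (9 * lg M + 1))) := by
    have hg : Fintype.card (GaloisField 2 (deg (pt M (e.val + 1)) (e.val + 1))) =
        2 ^ (deg (pt M (e.val + 1)) (e.val + 1)) := by
      rw [← Nat.card_eq_fintype_card, GaloisField.card 2 _ hd]
    rw [Fintype.card_prod, Fintype.card_prod, Fintype.card_prod, hg, Fintype.card_bool,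
      Fintype.card_fin]
    calc 2 * (2 ^ (deg (pt M (e.val + 1)) (e.val + 1)) *
          (2 ^ (deg (pt M (e.val + 1)) (e.val + 1)) * 2 ^ (deg (pt M (e.val + 1)) (e.val + 1))))
        = 2 ^ (deg (pt M (e.val + 1)) (e.val + 1) + deg (pt M (e.val + 1)) (e.val + 1) +
            deg (pt M (e.val + 1)) (e.val + 1) + 1) := by ring
      _ ≤ 2 ^ (9 * lg M + 1) := Nat.pow_le_pow_right (by norm_num) (by omega)
  obtain ⟨j⟩ := Function.Embedding.nonempty_of_card_le hcard
  exact c4 (size M) _ _ j _ j.injective a3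

end MDTQ

open MDTQ in
theorem t_DTQ (h1 : ONE.S_CLO) (h2 : S_AUQ) (h3 : ONE.S_SIZ) : S_DTQ := by
  intro M hM β ly
  obtain ⟨⟨s1, s2⟩, s3, s4⟩ := h3 M hM
  have hM1 : 1 ≤ M := le_trans (by norm_num) hM
  have hpos : 0 < size M := by omega
  have hs2 : 2 ≤ size M := by omega
  have : Nonempty (Fin (2 ^ (9 * lg M + 1))) := ⟨⟨0, by positivity⟩⟩
  have key := many hpos
    (fun (k : Fin (Fintype.card (Om M))) (v : Fin (size M) → Bool) =>
      ¬ (v (sw ((Fintype.equivFin (Om M)).symm k).1) = true ∧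
        Bad (β ((Fintype.equivFin (Om M)).symm k).1) ((Fintype.equivFin (Om M)).symm k).2
          (inp ly ((Fintype.equivFin (Om M)).symm k).1 v)))
    (fun k => aut_item h1 h2 h3 hM β ly ((Fintype.equivFin (Om M)).symm k))
  refine ⟨Bool × Fin (2 ^ (9 * lg M + 1)), inferInstance, Fintype.card (Om M) * size M,
    fun t _ => ⟨t % size M, Nat.mod_lt t hpos⟩, ?_, ?_, ?_⟩
  · rw [Fintype.card_prod, Fintype.card_bool, Fintype.card_fin]
    have hlg : 2 ^ lg M ≤ size M := by
      have h4 : 2 ^ Nat.log 2 M ≤ M := Nat.pow_log_le_self 2 (by omega)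
      unfold lg
      rw [pow_succ]
      omega
    calc 2 * 2 ^ (9 * lg M + 1) = 2 * 2 * (2 ^ lg M) ^ 9 := by rw [← pow_mul]; ring
      _ ≤ size M * size M * size M ^ 9 :=
          Nat.mul_le_mul (Nat.mul_le_mul hs2 hs2) (Nat.pow_le_pow_left hlg 9)
      _ = size M ^ 11 := by ring
      _ ≤ size M ^ 24 := Nat.pow_le_pow_right hpos (by norm_num)
  · calc Fintype.card (Om M) * size M ≤ size M ^ 4 * size M :=
        Nat.mul_le_mul_right _ (card_Om h3 hM)
      _ = size M ^ 5 := by ring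
      _ ≤ size M ^ 24 := Nat.pow_le_pow_right hpos (by norm_num)
  · obtain ⟨G, hq, hG⟩ := key
    refine ⟨G, hq, fun v => ?_⟩
    refine (fA_iff β ly v).trans (Iff.trans ?_ (hG v))
    constructor
    · intro h k
      exact h _
    · intro h ω
      have h6 := h (Fintype.equivFin (Om M) ω)
      rwa [Equiv.symm_apply_apply] at h6

end Pool.Agent.TKN.TWO
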