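import Pool.Agent.TKN.St10

/-!
# Project TKQ, module GOOQ: good tests (helper68)
-/

set_option autoImplicit false

open Finset

namespace Pool.Agent.TKN.TWO

open Pool.Agent.Lib_helper20.SRO (RectFree Rigid Agrees evenWeight NBP Walk)
open Pool.Agent.URG (VarA VarG VarX deg lg pols zs zs_le Zero lg_pos)
open Pool.Agent.HPM.Fn (Coord)

namespace GOOQ

lemma rigid_one {n e : ℕ} (β : Coord (deg n e)) (u : VarX n e → Bool) : Rigid (one β u) := by
  intro b x hb
  unfold one at hb ⊢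
  rw [Bool.and_eq_true] at hb
  rw [Pool.Agent.Lib_helper45.SRO.evenWeight_flip, hb.1]
  rfl

/-- the probability of passing all tests of the second kind -/
lemma pw (s K : ℕ) (hs : 1 ≤ s) :
    (2 : ℝ) ^ (s * K) ≤ (2 : ℝ) ^ (2 * (K : ℝ) / 2 ^ s) * ((2 : ℝ) ^ s - 1) ^ K := by
  have h2 : (2 : ℝ) ≤ 2 ^ s := by
    calc (2 : ℝ) = 2 ^ 1 := by norm_num
      _ ≤ 2 ^ s := pow_le_pow_right₀ (by norm_num) hs
  obtain ⟨x, hx⟩ : ∃ x : ℝ, x = 1 / 2 ^ s := ⟨_, rfl⟩
  have hx0 : 0 < x := by rw [hx]; positivity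
  have hx1 : x ≤ 1 / 2 := by
    rw [hx]
    exact div_le_div_of_nonneg_left (by norm_num) (by norm_num) h2
  have h := rpow_one_add_le_one_add_mul_self (s := -1 / 2) (p := 2 * x) (by norm_num)
    (by linarith) (by linarith)
  have h3 : (1 + -1 / 2 : ℝ) ^ (2 * x) ≤ 1 - x := by
    refine h.trans (le_of_eq ?_)
    ring
  have h4 : (2 : ℝ) ^ (2 * x) * (1 + -1 / 2 : ℝ) ^ (2 * x) = 1 := by
    rw [← Real.mul_rpow (by norm_num) (by norm_num)]
    norm_num
  have h5 : (2 : ℝ) ^ (2 * (K : ℝ) / 2 ^ s) = ((2 : ℝ) ^ (2 * x)) ^ K := by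
    rw [← Real.rpow_natCast ((2 : ℝ) ^ (2 * x)) K, ← Real.rpow_mul (by norm_num)]
    congr 1
    rw [hx]
    ring
  have h6 : (2 : ℝ) ^ s - 1 = 2 ^ s * (1 - x) := by
    rw [hx]
    field_simp
  have hp : (0 : ℝ) < 2 ^ (2 * x) := by positivity
  have h7 : (1 : ℝ) ≤ 2 ^ (2 * x) * (1 - x) :=
    h4.symm.le.trans (mul_le_mul_of_nonneg_left h3 hp.le)
  rw [h5, h6, mul_pow, ← pow_mul, mul_left_comm, ← mul_pow]
  have h8 : (1 : ℝ) ≤ (2 ^ (2 * x) * (1 - x)) ^ K := one_le_pow₀ h7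
  have h9 : (0 : ℝ) ≤ 2 ^ (s * K) := by positivity
  nlinarith

lemma two_lg {n : ℕ} (hl : 8 ≤ lg n) : (2 : ℝ) ^ lg (lg n) ≤ 2 * lg n := by
  have h : 2 ^ Nat.log 2 (lg n) ≤ lg n := Nat.pow_log_le_self 2 (by omega)
  have h2 : lg (lg n) = Nat.log 2 (lg n) + 1 := rfl
  rw [h2, pow_succ]
  have h3 : ((2 : ℝ)) ^ Nat.log 2 (lg n) ≤ lg n := by exact_mod_cast h
  linarith

/-- the number of the tests -/
lemma pols_le {n e : ℕ} : (pols n e : ℝ) ≤ 4 * (2 ^ e + 1) * n / lg n + 1 := by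
  unfold pols
  push_cast
  have h := @Nat.cast_div_le ℝ _ _ _ (4 * (2 ^ e + 1) * n) (lg n)
  push_cast at h
  linarith

lemma four_pow (e : ℕ) : (4 : ℝ) ^ e = 2 ^ e * 2 ^ e := by
  rw [← mul_pow]
  norm_num

/-- the numbers, first case -/
lemma num1 {n e : ℕ} (he : 1 ≤ e) (hl : 8 ≤ lg n) (h0 : 2 * e ≤ lg (lg n)) :
    ((zs n e * pols n e + 2 : ℕ) : ℝ) ≤ 24 * (n : ℝ) / 2 ^ e + 2 * lg n := by
  obtain ⟨l, hle⟩ : ∃ l : ℝ, l = lg n := ⟨_, rfl⟩
  have hl8 : 8 ≤ l := by rw [hle]; exact_mod_cast hl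
  obtain ⟨E, hE⟩ : ∃ E : ℝ, E = 2 ^ e := ⟨_, rfl⟩
  have hE2 : 2 ≤ E := by
    rw [hE]
    calc (2 : ℝ) = 2 ^ 1 := by norm_num
      _ ≤ 2 ^ e := pow_le_pow_right₀ (by norm_num) he
  have h4 : (4 : ℝ) ^ e = E * E := by rw [hE]; exact four_pow e
  have h5 : E * E ≤ 2 * l := by
    have h6 : (4 : ℝ) ^ e = 2 ^ (2 * e) := by rw [pow_mul]; norm_num
    rw [← h4, h6]
    refine (pow_le_pow_right₀ (by norm_num) h0).trans ?_
    rw [hle]
    exact two_lg hl
  have hEE : 0 < E * E := by nlinarith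
  have hz : (zs n e : ℝ) ≤ 3 * l / (E * E) := by
    unfold zs
    push_cast
    have h := @Nat.cast_div_le ℝ _ _ _ (lg n) (4 ^ e)
    push_cast at h
    rw [h4, ← hle] at h
    have h7 : 1 ≤ 2 * l / (E * E) := by
      rw [le_div_iff₀ hEE]
      linarith
    have h8 : 3 * l / (E * E) = l / (E * E) + 2 * l / (E * E) := by ring
    rw [h8]
    linarith
  have hp : (pols n e : ℝ) ≤ 4 * (E + 1) * n / l + 1 := by
    have h := @pols_le n e
    rw [← hle, ← hE] at h
    exact h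
  have hn : (0 : ℝ) ≤ n := Nat.cast_nonneg n
  have hl0 : 0 < l := by linarith
  push_cast
  rw [← hE, ← hle]
  have h9 : (zs n e : ℝ) * pols n e ≤ 3 * l / (E * E) * (4 * (E + 1) * n / l + 1) :=
    mul_le_mul hz hp (Nat.cast_nonneg _) (by positivity)
  have h10 : 3 * l / (E * E) * (4 * (E + 1) * n / l + 1) =
      12 * (E + 1) * n / (E * E) + 3 * l / (E * E) := by
    field_simp
    ring
  have h11 : 12 * (E + 1) * n / (E * E) ≤ 24 * n / E := by
    rw [div_le_div_iff₀ hEE (by linarith)]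
    have : 0 ≤ (n : ℝ) * E * (E - 1) := by
      refine mul_nonneg (mul_nonneg hn (by linarith)) (by linarith)
    nlinarith
  have h12 : 3 * l / (E * E) ≤ 3 * l / 4 :=
    div_le_div_of_nonneg_left (by positivity) (by norm_num) (by nlinarith)
  linarith

/-- the numbers, second case -/
lemma num2 {n e : ℕ} (he : 1 ≤ e) (hl : 8 ≤ lg n) (h0 : 1 ≤ ss n e) :
    2 * (pols n e : ℝ) / 2 ^ ss n e + 2 ≤ 24 * (n : ℝ) / 2 ^ e + 2 * lg n := by
  obtain ⟨l, hle⟩ : ∃ l : ℝ, l = lg n := ⟨_, rfl⟩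
  have hl8 : 8 ≤ l := by rw [hle]; exact_mod_cast hl
  obtain ⟨E, hE⟩ : ∃ E : ℝ, E = 2 ^ e := ⟨_, rfl⟩
  have hE2 : 2 ≤ E := by
    rw [hE]
    calc (2 : ℝ) = 2 ^ 1 := by norm_num
      _ ≤ 2 ^ e := pow_le_pow_right₀ (by norm_num) he
  have h4 : (4 : ℝ) ^ e = E * E := by rw [hE]; exact four_pow e
  have hEE : 0 < E * E := by nlinarith
  have hn : (0 : ℝ) ≤ n := Nat.cast_nonneg n
  have hl0 : 0 < l := by linarith
  have hp : (pols n e : ℝ) ≤ 4 * (E + 1) * n / l + 1 := by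
    have h := @pols_le n e
    rw [← hle, ← hE] at h
    exact h
  have hs : E * E = 2 ^ ss n e * 2 ^ lg (lg n) := by
    rw [← h4, ← pow_add]
    have h6 : (4 : ℝ) ^ e = 2 ^ (2 * e) := by rw [pow_mul]; norm_num
    rw [h6]
    congr 1
    unfold ss at h0 ⊢
    omega
  have hs2 : E * E ≤ 2 ^ ss n e * (2 * l) := by
    rw [hs, hle]
    exact mul_le_mul_of_nonneg_left (two_lg hl) (by positivity)
  have hS : (0 : ℝ) < 2 ^ ss n e := by positivity
  have h5 : 2 * (pols n e : ℝ) / 2 ^ ss n e ≤ 4 * l * pols n e / (E * E) := by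
    rw [div_le_div_iff₀ hS hEE]
    have h6 : (0 : ℝ) ≤ pols n e := Nat.cast_nonneg _
    calc 2 * (pols n e : ℝ) * (E * E) ≤ 2 * (pols n e : ℝ) * (2 ^ ss n e * (2 * l)) :=
          mul_le_mul_of_nonneg_left hs2 (by positivity)
      _ = _ := by ring
  have h7 : 4 * l * pols n e / (E * E) ≤ 4 * l * (4 * (E + 1) * n / l + 1) / (E * E) :=
    div_le_div_of_nonneg_right (mul_le_mul_of_nonneg_left hp (by positivity)) hEE.le
  have h10 : 4 * l * (4 * (E + 1) * n / l + 1) / (E * E) =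
      16 * (E + 1) * n / (E * E) + 4 * l / (E * E) := by
    field_simp
    ring
  have h11 : 16 * (E + 1) * n / (E * E) ≤ 24 * n / E := by
    rw [div_le_div_iff₀ hEE (by linarith)]
    have : 0 ≤ (n : ℝ) * E * (E - 2) := by
      refine mul_nonneg (mul_nonneg hn (by linarith)) (by linarith)
    nlinarith
  have h12 : 4 * l / (E * E) ≤ 4 * l / 4 :=
    div_le_div_of_nonneg_left (by positivity) (by norm_num) (by nlinarith)
  rw [← hE, ← hle]
  linarith

lemma num3 {n e : ℕ} (hn : 2 ≤ n) (hl : 8 ≤ lg n) :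
    pols n e + 2 + n + 2 * (n * 2 ^ e) ≤ (lg n - 1) * pols n e := by
  have h1 : 4 * (2 ^ e + 1) * n ≤ lg n * pols n e := by
    unfold pols
    exact (Nat.lt_mul_div_succ _ (by omega)).le
  obtain ⟨d, hd⟩ : ∃ d, lg n = d + 2 := ⟨lg n - 2, by omega⟩
  have hd6 : 6 ≤ d := by omega
  have h2 : 3 * (lg n * pols n e) ≤ 4 * (d * pols n e) := by
    rw [hd]
    have : 3 * (d + 2) ≤ 4 * d := by omega
    calc 3 * ((d + 2) * pols n e) = (3 * (d + 2)) * pols n e := by ring
      _ ≤ (4 * d) * pols n e := Nat.mul_le_mul_right _ this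
      _ = _ := by ring
  have h3 : lg n - 1 = d + 1 := by omega
  rw [h3, Nat.add_mul, one_mul]
  have h4 : 3 * ((2 ^ e + 1) * n) ≤ d * pols n e := by nlinarith
  have h5 : 3 * ((2 ^ e + 1) * n) = 3 * (n * 2 ^ e) + 3 * n := by ring
  have h6 : 0 ≤ n * 2 ^ e := Nat.zero_le _
  omega

lemma to_rpow {n a c : ℕ} {b : ℝ} (h : 2 ^ n ≤ 2 ^ a * c) (hab : (a : ℝ) ≤ b) :
    (2 : ℝ) ^ n ≤ (2 : ℝ) ^ b * c := by
  have h1 : (2 : ℝ) ^ n ≤ 2 ^ a * c := by exact_mod_cast h
  refine h1.trans (mul_le_mul_of_nonneg_right ?_ (Nat.cast_nonneg _))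
  rw [← Real.rpow_natCast]
  exact Real.rpow_le_rpow_of_exponent_le (by norm_num) hab

end GOOQ

theorem t_GOOQ (hUNQ : S_UNQ) (hBKQ : S_BKQ) : S_GOOQ := by
  classical
  intro n e β hn he hl
  refine ⟨fun u => GOOQ.rigid_one β u, ?_⟩
  rcases Nat.eq_zero_or_pos (ss n e) with h0 | h0
  · -- the tests of the first kind
    have h0' : 2 * e ≤ lg (lg n) := by
      unfold ss at h0
      omega
    obtain ⟨u, hu1, hu2⟩ := Pool.Agent.URG.t_good n e β hn he hl
    have hone : one β u = Pool.Agent.URG.one β u := by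
      funext x
      unfold one Pool.Agent.URG.one Pass
      simp only [if_pos h0]
      rfl
    refine ⟨u, ?_, ?_⟩
    · rw [hone]
      exact hu1
    · rw [hone]
      exact GOOQ.to_rpow hu2 (GOOQ.num1 he hl h0')
  · -- the tests of the second kind
    have hne : ss n e ≠ 0 := by omega
    let g₀ : (Fin (deg n e) → Bool) × (Fin (4 ^ e) → Fin (deg n e) → Bool) →
        (Fin n → Bool) → Bool := fun σ x => decide (¬ Zero β (ss_le n e) σ.1 σ.2 x)
    set E := univ.filter fun x : Fin n → Bool => evenWeight x = true with hE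
    have hE2 : 2 * E.card = 2 ^ n := Pool.Agent.Lib_helper45.SRO.card_even (by omega)
    have hmm : 2 ^ e * 2 ^ e = 4 ^ e := by
      rw [← mul_pow]
      norm_num
    obtain ⟨hb1, hb2⟩ := hBKQ n e β hn he h0
    obtain ⟨P, hrect, hdense⟩ := hUNQ n ((Fin (deg n e) → Bool) ×
        (Fin (4 ^ e) → Fin (deg n e) → Bool)) (ss n e) (lg n - 1) (pols n e) (2 ^ e) g₀ E h0
      (by
        have : 0 < 2 ^ n := by positivity
        omega)
      (fun z => by
        have h := hb1 z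
        simpa only [g₀, decide_eq_true_eq] using h)
      (fun Z hZ => by
        rw [hmm] at hZ
        have h := hb2 Z hZ
        simpa only [g₀, decide_eq_true_eq] using h)
      (GOOQ.num3 hn hl)
    set g : (Fin n → Bool) → Bool := fun x => decide (∀ t, g₀ (P t) x = true) with hg
    let u : VarX n e → Bool := fun p => Sum.elim (P p.1).1 (fun z => (P p.1).2 z.1 z.2) p.2
    have hone : ∀ x, one β u x = (evenWeight x && g x) := by
      intro x
      unfold one
      rw [hg]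
      simp only [g₀, decide_eq_true_eq]
      unfold Pass
      simp only [if_neg hne]
      rfl
    refine ⟨u, ?_, ?_⟩
    · intro U X Y hX hY hXm hYm
      obtain ⟨a, ha, a', ha', h⟩ := hrect U X Y hX hY hXm hYm
      refine ⟨a, ha, a', ha', ?_⟩
      rw [hone]
      have h' : g (fun x => if x ∈ U then a x else a' x) = false := h
      rw [h', Bool.and_false]
    · have h1 : (univ.filter fun x : Fin n → Bool => one β u x = true) =
          E.filter fun x : Fin n → Bool => g x = true := by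
        ext x
        rw [hE, filter_filter, mem_filter, mem_filter, hone, Bool.and_eq_true]
      rw [h1]
      obtain ⟨c, hc⟩ : ∃ c : ℕ, c = (E.filter fun x : Fin n → Bool => g x = true).card := ⟨_, rfl⟩
      have hdense' : (2 ^ ss n e - 1) ^ pols n e * E.card ≤
          2 ^ (ss n e * pols n e + 1) * c := by
        rw [hc]
        exact hdense
      rw [← hc]
      have hd : (((2 : ℝ) ^ ss n e - 1) ^ pols n e) * E.card ≤
          2 ^ (ss n e * pols n e + 1) * c := by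
        have h2 : (1 : ℕ) ≤ 2 ^ ss n e := Nat.one_le_two_pow
        have h3 : (((2 ^ ss n e - 1 : ℕ) : ℝ)) = (2 : ℝ) ^ ss n e - 1 := by
          rw [Nat.cast_sub h2]
          push_cast
          rfl
        have h4 : ((((2 ^ ss n e - 1) ^ pols n e * E.card : ℕ)) : ℝ) ≤
            ((2 ^ (ss n e * pols n e + 1) * c : ℕ) : ℝ) := by exact_mod_cast hdense'
        rw [Nat.cast_mul, Nat.cast_pow, h3] at h4
        refine h4.trans (le_of_eq ?_)
        push_cast
        rfl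
      have hE3 : (2 : ℝ) * E.card = 2 ^ n := by exact_mod_cast hE2
      have hpw := GOOQ.pw (ss n e) (pols n e) h0
      obtain ⟨Q, hQ⟩ : ∃ Q : ℝ, Q = (2 : ℝ) ^ (2 * (pols n e : ℝ) / 2 ^ ss n e) := ⟨_, rfl⟩
      rw [← hQ] at hpw
      have hQ0 : 0 < Q := by rw [hQ]; positivity
      have hT : (0 : ℝ) < 2 ^ (ss n e * pols n e) := by positivity
      have hn0 : (0 : ℝ) ≤ 2 ^ n := by positivity
      have h5 : (2 : ℝ) ^ (ss n e * pols n e) * 2 ^ n ≤
          2 ^ (ss n e * pols n e) * (Q * 4 * c) := by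
        calc (2 : ℝ) ^ (ss n e * pols n e) * 2 ^ n
            ≤ Q * ((2 : ℝ) ^ ss n e - 1) ^ pols n e * 2 ^ n :=
              mul_le_mul_of_nonneg_right hpw hn0
          _ = 2 * Q * ((((2 : ℝ) ^ ss n e - 1) ^ pols n e) * E.card) := by
              rw [← hE3]
              ring
          _ ≤ 2 * Q * (2 ^ (ss n e * pols n e + 1) * c) :=
              mul_le_mul_of_nonneg_left hd (by positivity)
          _ = _ := by
              rw [pow_succ]
              ring
      have h6 : (2 : ℝ) ^ n ≤ Q * 4 * c := le_of_mul_le_mul_left h5 hT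
      refine h6.trans (mul_le_mul_of_nonneg_right ?_ (Nat.cast_nonneg _))
      have h7 : Q * 4 = (2 : ℝ) ^ (2 * (pols n e : ℝ) / 2 ^ ss n e + 2) := by
        rw [Real.rpow_add (by norm_num), ← hQ]
        norm_num
      rw [h7]
      exact Real.rpow_le_rpow_of_exponent_le (by norm_num) (GOOQ.num2 he hl h0)

end Pool.Agent.TKN.TWO
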