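import Pool.Agent.TKN.St10
import Pool.Agent.TKN.O_LOW1
import Pool.Agent.TKN.O_SIZ

/-!
# TKN/TWO, module LWQ: the lower bounds for the one function, explicit dependence on `k`
-/

set_option autoImplicit false

open Finset

namespace Pool.Agent.TKN.TWO

open Pool.Agent.Lib_helper20.SRO (Agrees)
open Pool.Agent.URG (VarA VarG VarX deg lg)
open Pool.Agent.HPM.Fn (Coord)
open Pool.Agent.TKN.ONE (cop pt blk size BV Bas Lay sw dat inp HardR)

namespace MLWQ

open Pool.Agent.TKN.ONE.MLOW1 (put_apply put_of_not dat_ne_sw dat_inj sw_inj dl_inj pos' pos'_inj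
  cut)

/-- the restriction of `fA` to the inputs with only one switch on -/
lemma fA_put {M : ℕ} (β : Bas M) (ly : Lay M) (e : Fin (blk M)) (b : BV M (e.val + 1) → Bool) :
    fA β ly (ONE.put (fun w => dat (ly.pos e w)) (fun i => decide (i = sw e)) b) =
      goodA (β e) b := by
  classical
  have hι : Function.Injective fun w => dat (ly.pos e w) := fun x y h => ly.inj e (dat_inj h)
  have h1 : ∀ e' : Fin (blk M), ONE.put (fun w => dat (ly.pos e w)) (fun i => decide (i = sw e)) b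
      (sw e') = decide (e' = e) := by
    intro e'
    rw [put_of_not _ _ (fun x => dat_ne_sw _ e')]
    by_cases h : e' = e
    · rw [h]
      simp
    · have h2 : sw e' ≠ sw e := fun h' => h (sw_inj h')
      simp [h, h2]
  have h2 : inp ly e (ONE.put (fun w => dat (ly.pos e w)) (fun i => decide (i = sw e)) b) = b := by
    funext w
    exact put_apply hι _ b w
  unfold fA
  have h3 : (∀ e' : Fin (blk M),
      ONE.put (fun w => dat (ly.pos e w)) (fun i => decide (i = sw e)) b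
        (sw e') = true → goodA (β e')
        (inp ly e' (ONE.put (fun w => dat (ly.pos e w)) (fun i => decide (i = sw e)) b)) = true) ↔
      goodA (β e) b = true := by
    constructor
    · intro h
      have h4 := h e (by rw [h1]; simp)
      rwa [h2] at h4
    · intro h e' he'
      rw [h1, decide_eq_true_iff] at he'
      subst he'
      rwa [h2]
  rw [Bool.eq_iff_iff, decide_eq_true_iff]
  exact h3

lemma goodF_cut {n e L : ℕ} (β : Coord (deg n e)) (b : VarG n e L → Bool) :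
    goodF β b = decide (goodA β (cut b) = true ↔ b (Sum.inl (Sum.inr ())) = true) := by
  classical
  unfold goodF goodA
  rw [decide_eq_decide, decide_eq_true_iff]
  exact Iff.rfl

lemma fF_put {M : ℕ} (β : Bas M) (ly : Lay M) (e : Fin (blk M))
    (b : VarG (pt M (e.val + 1)) (e.val + 1) (cop (e.val + 1)) → Bool) :
    fF β ly (ONE.put (pos' ly e) (fun i => decide (i = (sw e).castSucc)) b) = goodF (β e) b := by
  classical
  have h1 : (fun i : Fin (size M) =>
      ONE.put (pos' ly e) (fun i => decide (i = (sw e).castSucc)) b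
      i.castSucc) = ONE.put (fun w => dat (ly.pos e w)) (fun i => decide (i = sw e)) (cut b) := by
    funext i
    by_cases h : ∃ w, dat (ly.pos e w) = i
    · obtain ⟨w, rfl⟩ := h
      have hι : Function.Injective fun w => dat (ly.pos e w) := fun x y h => ly.inj e (dat_inj h)
      have e1 : ONE.put (fun w => dat (ly.pos e w)) (fun i => decide (i = sw e)) (cut b)
          (dat (ly.pos e w)) = cut b w := put_apply hι (fun i => decide (i = sw e)) (cut b) w
      rw [e1]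
      rcases w with w | w
      · exact put_apply (pos'_inj ly e) (fun i => decide (i = (sw e).castSucc)) b
          (Sum.inl (Sum.inl w))
      · exact put_apply (pos'_inj ly e) (fun i => decide (i = (sw e).castSucc)) b (Sum.inr w)
    · have h' : ∀ w, dat (ly.pos e w) ≠ i := fun w hw => h ⟨w, hw⟩
      rw [put_of_not _ _ h', put_of_not]
      · have : (i.castSucc = (sw e).castSucc) ↔ i = sw e :=
          ⟨fun h => Fin.castSucc_injective _ h, fun h => by rw [h]⟩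
        rw [decide_eq_decide]
        exact this
      · rintro ((w | w) | w) hw
        · exact h' _ (Fin.castSucc_injective _ hw)
        · exact (Fin.castSucc_lt_last _).ne hw.symm
        · exact h' _ (Fin.castSucc_injective _ hw)
  have h2 : ONE.put (pos' ly e) (fun i => decide (i = (sw e).castSucc)) b (Fin.last _) =
      b (Sum.inl (Sum.inr ())) :=
    put_apply (pos'_inj ly e) (fun i => decide (i = (sw e).castSucc)) b (Sum.inl (Sum.inr ()))
  unfold fF
  rw [h1, h2, fA_put, goodF_cut]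

/-- the three lower bounds, from the block number `e` -/
lemma red_all (hREDR : ONE.S_REDR) {M : ℕ} (β : Bas M) (ly : Lay M) (e : Fin (blk M)) (K k : ℕ)
    (c0 c : ℝ) (hc : 0 < c)
    (g : CoreR K c0 (pt M (e.val + 1)) (cop (e.val + 1))
        (goodA (L := cop (e.val + 1)) (β e)) ∧
      CoreR K c0 (pt M (e.val + 1)) (cop (e.val + 1)) (goodF (L := cop (e.val + 1)) (β e)) ∧
      CoreR K c0 (pt M (e.val + 1)) (cop (e.val + 1))
        (fun v : VarG (pt M (e.val + 1)) (e.val + 1) (cop (e.val + 1)) → Bool =>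
          !goodF (β e) v))
    (h : ∀ N : ℕ, 2 * M ≤ N → N ≤ 3 * M →
      k * N ≤ K * (pt M (e.val + 1) * cop (e.val + 1)) ∧
      4 * (c * N) ≤ c0 * (pt M (e.val + 1) : ℕ) ∧ 1 ≤ c * (N : ℝ))
    (hs1 : 2 * M ≤ size M) (hs2 : size M + 1 ≤ 3 * M) :
    HardR k c (size M) (fA β ly) ∧ HardR k c (size M + 1) (fF β ly) ∧
      HardR k c (size M + 1) (fun v => !fF β ly v) := by
  obtain ⟨g1, g2, g3⟩ := g
  obtain ⟨a1, a2, a3⟩ := h (size M) hs1 (by omega)
  obtain ⟨b1, b2, b3⟩ := h (size M + 1) (by omega) hs2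
  refine ⟨?_, ?_, ?_⟩
  · exact hREDR K k _ _ (size M) c0 c _ (goodA (β e)) (fA β ly)
      (fun w => dat (ly.pos e w)) (fun i => decide (i = sw e))
      (dl_inj ly e) (fA_put β ly e) g1 a1 hc a2 a3
  · exact hREDR K k _ _ (size M + 1) c0 c _ (goodF (β e)) (fF β ly)
      (pos' ly e) (fun i => decide (i = (sw e).castSucc))
      (pos'_inj ly e) (fF_put β ly e) g2 b1 hc b2 b3
  · exact hREDR K k _ _ (size M + 1) c0 c _ (fun b => !goodF (β e) b) (fun v => !fF β ly v)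
      (pos' ly e) (fun i => decide (i = (sw e).castSucc))
      (pos'_inj ly e) (fun b => by rw [fF_put β ly e b]) g3 b1 hc b2 b3

/-- the exponents -/
lemma expo (B1 k : ℕ) (hk : 1 ≤ k) :
    8 * (6 * k + 1) ^ B1 + 67 ≤ (k + 1) ^ (3 * B1 + 7) := by
  have h1 : 6 * k + 1 ≤ (k + 1) ^ 3 := by
    obtain ⟨j, rfl⟩ : ∃ j, k = j + 1 := ⟨k - 1, by omega⟩
    ring_nf
    nlinarith [Nat.zero_le (j ^ 3), Nat.zero_le (j ^ 2)]
  have h2 : (6 * k + 1) ^ B1 ≤ (k + 1) ^ (3 * B1) := by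
    rw [pow_mul]
    exact Nat.pow_le_pow_left h1 B1
  have h3 : 1 ≤ (k + 1) ^ (3 * B1) := Nat.one_le_pow _ _ (by omega)
  have h4 : 128 ≤ (k + 1) ^ 7 :=
    calc 128 = 2 ^ 7 := by norm_num
      _ ≤ (k + 1) ^ 7 := Nat.pow_le_pow_left (by omega) 7
  calc 8 * (6 * k + 1) ^ B1 + 67 ≤ 128 * (k + 1) ^ (3 * B1) := by omega
    _ ≤ (k + 1) ^ 7 * (k + 1) ^ (3 * B1) := Nat.mul_le_mul_right _ h4
    _ = (k + 1) ^ (3 * B1 + 7) := by rw [← pow_add, add_comm 7 (3 * B1)]

end MLWQ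

open MLWQ

theorem t_LWQ (hLRQ : S_LRQ) (hARP : S_ARP) (hCRQ : S_CRQ) (hNMQ : S_NMQ) (hSIZ : ONE.S_SIZ)
    (hREDR : ONE.S_REDR) : S_LWQ := by
  obtain ⟨B1, hLR⟩ := hLRQ
  refine ⟨3 * B1 + 7, ?_⟩
  intro k M hk hM β ly
  have hE := expo B1 k hk
  have hLR' := hLR (6 * k) (by omega)
  generalize (6 * k + 1) ^ B1 = D at hE hLR'
  generalize (k + 1) ^ (3 * B1 + 7) = E at hE hM ⊢
  -- the constant of the core
  have hc0 : (0 : ℝ) < 1 / 2 ^ D := by positivity
  have hc1 : (1 : ℝ) / 2 ^ D ≤ 1 := by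
    rw [div_le_one (by positivity)]
    exact one_le_pow₀ (by norm_num)
  have hc : (0 : ℝ) < 1 / 2 ^ E := by positivity
  have hpw : ∀ a : ℕ, a ≤ E → 2 ^ a ≤ M := fun a ha =>
    (Nat.pow_le_pow_right (by norm_num) ha).trans hM
  obtain ⟨⟨hs1, hs2⟩, -, hsz⟩ := hSIZ M (hpw 56 (by omega))
  obtain ⟨f, hf⟩ : ∃ f, f = D + 6 := ⟨D + 6, rfl⟩
  have heb : f + 1 ≤ blk M := by
    unfold blk lg
    have : 8 * (f + 1) ≤ Nat.log 2 M := Nat.le_log_of_pow_le (by norm_num) (hpw _ (by omega))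
    omega
  obtain ⟨hp2, -, hcop, -, -, -, -, hM2⟩ := hsz (f + 1) (by omega) heb
  have hcl : cop (f + 1) ≤ 2 ^ (6 + 3 * (f + 1)) := ONE.MSIZ.cop_le (f + 1)
  have hpn : 2 ^ (4 * D + 40) ≤ pt M (f + 1) := by
    unfold pt
    refine (Nat.le_div_iff_mul_le (by omega)).2 ?_
    calc 2 ^ (4 * D + 40) * cop (f + 1) ≤ 2 ^ (4 * D + 40) * 2 ^ (6 + 3 * (f + 1)) :=
          Nat.mul_le_mul_left _ hcl
      _ = 2 ^ (4 * D + 40 + (6 + 3 * (f + 1))) := by rw [← pow_add]
      _ ≤ M := hpw _ (by omega)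
  have hnum : NumQ (1 / 2 ^ D) (pt M (f + 1)) (f + 1) (cop (f + 1)) := by
    have h := hNMQ D (pt M (f + 1)) hpn
    rw [show D + 7 = f + 1 by omega] at h
    exact h
  have hLRn : LR (6 * k) (1 / 2 ^ D) (pt M (f + 1)) :=
    hLR' _ ((Nat.pow_le_pow_right (by norm_num) (by omega)).trans hpn)
  have hAR := hARP (6 * k) (1 / 2 ^ D) (pt M (f + 1)) (by omega) hc0 hc1 hLRn
  have hMR : (M : ℝ) ≤ 2 * ((pt M (f + 1) : ℕ) * (cop (f + 1) : ℕ)) := by exact_mod_cast hM2
  have hER : (24 : ℝ) * cop (f + 1) * 2 ^ D ≤ 2 ^ E := by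
    have h1 : 24 * cop (f + 1) * 2 ^ D ≤ 2 ^ E :=
      calc 24 * cop (f + 1) * 2 ^ D ≤ 2 ^ 5 * 2 ^ (6 + 3 * (f + 1)) * 2 ^ D := by
            gcongr
            norm_num
        _ = 2 ^ (5 + (6 + 3 * (f + 1)) + D) := by rw [← pow_add, ← pow_add]
        _ ≤ 2 ^ E := Nat.pow_le_pow_right (by norm_num) (by omega)
    exact_mod_cast h1
  have hME : (2 : ℝ) ^ E ≤ M := by exact_mod_cast hM
  refine red_all hREDR β ly ⟨f, heb⟩ (6 * k) k (1 / 2 ^ D) _ hc
    (hCRQ (6 * k) (1 / 2 ^ D) (pt M (f + 1)) hc0 hAR (f + 1) (cop (f + 1)) (β ⟨f, heb⟩) hnum)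
    ?_ hs1 hs2
  intro N hN1 hN2
  show k * N ≤ 6 * k * (pt M (f + 1) * cop (f + 1)) ∧
    4 * (1 / 2 ^ E * (N : ℝ)) ≤ 1 / 2 ^ D * (pt M (f + 1) : ℕ) ∧
    1 ≤ 1 / 2 ^ E * (N : ℝ)
  have hN1R : 2 * (M : ℝ) ≤ N := by exact_mod_cast hN1
  have hN2R : (N : ℝ) ≤ 3 * M := by exact_mod_cast hN2
  generalize pt M (f + 1) = n at hM2 hMR ⊢
  refine ⟨?_, ?_, ?_⟩
  · calc k * N ≤ k * (3 * M) := Nat.mul_le_mul_left _ hN2
      _ ≤ k * (3 * (2 * (n * cop (f + 1)))) := by gcongr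
      _ = _ := by ring
  · have e1 : (N : ℝ) ≤ 6 * (n * cop (f + 1)) := by linarith
    have e2 : 4 * (1 / 2 ^ E * (N : ℝ)) = 4 * N / 2 ^ E := by ring
    have e3 : (1 : ℝ) / 2 ^ D * (n : ℝ) = n / 2 ^ D := by ring
    rw [e2, e3, div_le_div_iff₀ (by positivity) (by positivity)]
    calc 4 * (N : ℝ) * 2 ^ D ≤ 4 * (6 * (n * cop (f + 1))) * 2 ^ D := by gcongr
      _ = n * (24 * cop (f + 1) * 2 ^ D) := by ring
      _ ≤ n * 2 ^ E := by gcongr
  · rw [one_div, inv_mul_eq_div, le_div_iff₀ (by positivity), one_mul]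
    have hM0 : (0 : ℝ) ≤ M := Nat.cast_nonneg _
    linarith

end Pool.Agent.TKN.TWO
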