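import Pool.Agent.TKN.St10

/-!
# TKQ_NMQ: the numeric conditions
-/

set_option autoImplicit false

namespace Pool.Agent.TKN.TWO

open Pool.Agent.URG (lg)
open Pool.Agent.TKN.ONE (cop)

namespace NMQ

lemma two_pow_ge {j : ℕ} (hj : 10 ≤ j) : 16 * j ≤ 2 ^ j := by
  induction j, hj using Nat.le_induction with
  | base => norm_num
  | succ j hj ih =>
    rw [pow_succ]
    omega

lemma cop_le {e : ℕ} (he : 1 ≤ e) : cop e ≤ 2 ^ (3 * e + 6) := by
  have h2 : 2 ≤ 2 ^ e := by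
    calc 2 = 2 ^ 1 := rfl
      _ ≤ 2 ^ e := Nat.pow_le_pow_right (by norm_num) he
  have h4 : (4 : ℕ) ^ e = 2 ^ e * 2 ^ e := by
    rw [← mul_pow]
    norm_num
  have h8 : (2 : ℕ) ^ (3 * e + 6) = 64 * (2 ^ e * (2 ^ e * 2 ^ e)) := by
    rw [pow_add, mul_comm 3 e, pow_mul]
    ring
  rw [h8, cop, h4]
  generalize (2 : ℕ) ^ e = x at *
  nlinarith [Nat.mul_le_mul h2 h2, Nat.mul_le_mul (Nat.mul_le_mul h2 h2) h2,
    Nat.mul_le_mul (le_refl x) (Nat.mul_le_mul (le_refl x) h2),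
    Nat.mul_le_mul (le_refl x) (Nat.mul_le_mul h2 h2)]

end NMQ

theorem t_NMQ : S_NMQ := by
  intro D n hn
  obtain ⟨m, hm⟩ : ∃ m, m = Nat.log 2 n := ⟨_, rfl⟩
  have hn0 : n ≠ 0 := by
    have : 0 < 2 ^ (4 * D + 40) := pow_pos (by norm_num) _
    omega
  have hmD : 4 * D + 40 ≤ m := by
    rw [hm]
    exact Nat.le_log_of_pow_le (by norm_num) hn
  have hmn : 2 ^ m ≤ n := by
    rw [hm]
    exact Nat.pow_log_le_self 2 hn0
  have hlg : lg n = m + 1 := by rw [lg, hm]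
  obtain ⟨j, hj⟩ : ∃ j, m = j + D := ⟨m - D, by omega⟩
  have hj40 : 3 * D + 40 ≤ j := by omega
  have h16 := NMQ.two_pow_ge (j := j) (by omega)
  -- `2 ^ j ≤ n / 2 ^ D`
  have hx : (2 : ℝ) ^ j ≤ 1 / 2 ^ D * n := by
    have h1 : (2 : ℝ) ^ m ≤ n := by exact_mod_cast hmn
    rw [hj, pow_add] at h1
    rw [div_mul_eq_mul_div, one_mul, le_div_iff₀ (by positivity)]
    exact h1
  have h16' : (16 : ℝ) * j ≤ 2 ^ j := by exact_mod_cast h16
  have hjD : (3 : ℝ) * D + 40 ≤ j := by exact_mod_cast hj40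
  have hD0 : (0 : ℝ) ≤ D := Nat.cast_nonneg D
  refine ⟨?_, by omega, by omega, ?_, ?_, ?_, ?_⟩
  · have h1 : 2 ^ 1 ≤ 2 ^ (4 * D + 40) := Nat.pow_le_pow_right (by norm_num) (by omega)
    omega
  · rw [cop]
    omega
  · have h1 : 24 * (n : ℝ) / 2 ^ (D + 7) = 3 / 16 * (1 / 2 ^ D * n) := by
      rw [pow_add]
      field_simp
      norm_num
    rw [h1, hlg, hj]
    push_cast
    nlinarith
  · rw [← Real.rpow_natCast 2 (D + 7)]
    apply Real.rpow_le_rpow_of_exponent_le (by norm_num)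
    push_cast
    linarith
  · have h1 : ((cop (D + 7) : ℕ) : ℝ) ≤ 2 ^ (3 * (D + 7) + 6) := by
      exact_mod_cast NMQ.cop_le (e := D + 7) (by omega)
    refine h1.trans ?_
    rw [← Real.rpow_natCast 2 (3 * (D + 7) + 6)]
    apply Real.rpow_le_rpow_of_exponent_le (by norm_num)
    push_cast
    linarith

end Pool.Agent.TKN.TWO
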