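import Pool.Agent.TKN.St8

/-!
# TKQ, module NUMQ: the recursion with explicit bounds (helper45)

The recursion of the averages of the undetermined bits: one-step induction with the lower bound
`exp (- D (log (r / (r - i))) ^ 25)`, where `D` is a power of `k + 1`.
-/

set_option autoImplicit false

namespace Pool.Agent.TKN.NUMQx

lemma one_sub_ge (y : ℝ) (h0 : 0 ≤ y) (h1 : y ≤ 1 / 2) : Real.exp (-(2 * y)) ≤ 1 - y := by
  have h2 : 1 + 2 * y ≤ Real.exp (2 * y) := by
    have := Real.add_one_le_exp (2 * y); linarith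
  rw [Real.exp_neg, inv_le_comm₀ (Real.exp_pos _) (by linarith)]
  refine le_trans ?_ h2
  rw [inv_le_iff_one_le_mul₀ (by linarith)]
  nlinarith

/-- The recursion, for given constants. -/
theorem core (k1 K l0 D : ℝ) (R m0 r : ℕ) (hk : 1 ≤ k1) (hK : K = Real.log (4 * k1))
    (hl0 : l0 = 1 / (400 * k1)) (hDl : ∀ l : ℝ, l0 ≤ l → 24 * K + 96 * l + 3 ≤ D * l ^ 25)
    (hD0 : 0 < D) (hR8 : (8 : ℝ) ≤ R)
    (hm0a : 24 * (D * Real.log R ^ 24 + K / l0 + 4) ≤ m0) (hm0b : 500 * k1 ≤ m0)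
    (hr : r = R * m0) (hm0r : m0 < r) (b : ℕ → ℝ) (ho0 : 2 / 5 ≤ b 0)
    (hstep : ∀ i < r - m0, Real.exp (-(D * Real.log R ^ 25)) ≤ b i → ∀ c0 : ℕ,
      b i - 12 / ((r : ℝ) - i) * ((c0 + 1) * b i + k1 * (((r : ℝ) - i) / r) ^ c0) -
        Real.exp (-(D * Real.log R ^ 25)) / (10 * r) ≤ b (i + 1)) :
    Real.exp (-(D * Real.log R ^ 25)) ≤ b (r - m0) := by
  have hK0 : 0 < K := by
    rw [hK]
    exact Real.log_pos (by linarith)
  have hl0p : 0 < l0 := by
    rw [hl0]
    positivity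
  have hRp : (0 : ℝ) < R := by linarith
  have hlR : 0 ≤ Real.log R := Real.log_nonneg (by linarith)
  have hm0p : (0 : ℝ) < m0 := by linarith
  have hrR : (r : ℝ) = R * m0 := by rw [hr]; push_cast; ring
  have hrp : (0 : ℝ) < r := by rw [hrR]; positivity
  have hr8 : 8 * (m0 : ℝ) ≤ r := by rw [hrR]; gcongr
  have hr4000 : 4000 * k1 ≤ r := by linarith
  set mu : ℝ := Real.exp (-(D * Real.log R ^ 25)) with hmu
  have hmu0 : 0 < mu := Real.exp_pos _
  have hl0s : l0 ≤ 1 / 400 := by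
    rw [hl0]
    apply one_div_le_one_div_of_le (by norm_num)
    linarith
  have hexp3 : Real.exp (-3) ≤ 1 / 10 := by
    have e5 : (10 : ℝ) ≤ Real.exp 3 := by
      have e6 : Real.exp 3 = Real.exp 1 ^ 3 := by rw [← Real.exp_nat_mul]; norm_num
      rw [e6]
      have e7 := Real.exp_one_gt_d9
      have e8 : (2.7182818283 : ℝ) ^ 3 ≤ Real.exp 1 ^ 3 := by gcongr
      norm_num at e8 ⊢
      linarith
    rw [Real.exp_neg, inv_le_comm₀ (Real.exp_pos _) (by norm_num)]
    norm_num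
    exact e5
  have hmu10 : mu ≤ 1 / 10 := by
    refine le_trans ?_ hexp3
    rw [hmu, Real.exp_le_exp]
    have hlR1 : l0 ≤ Real.log R := by
      have e1 : 1 - (R : ℝ)⁻¹ ≤ Real.log R := Real.one_sub_inv_le_log_of_pos hRp
      have e2 : (R : ℝ)⁻¹ ≤ 1 / 8 := by
        rw [inv_le_comm₀ hRp (by norm_num)]
        norm_num
        exact_mod_cast hR8
      linarith
    have := hDl _ hlR1
    linarith
  -- first stage
  obtain ⟨i0, hi0a, hi0b⟩ : ∃ i0 : ℕ, (r : ℝ) * l0 ≤ i0 ∧ (i0 : ℝ) ≤ r * l0 + 1 :=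
    ⟨⌈(r : ℝ) * l0⌉₊, Nat.le_ceil _, (Nat.ceil_lt_add_one (by positivity)).le⟩
  have hi0c : (i0 : ℝ) ≤ r / 100 := by nlinarith
  have hi0d : i0 < r - m0 := by
    have : (i0 : ℝ) + m0 < r := by linarith
    have : i0 + m0 < r := by exact_mod_cast this
    omega
  set dl : ℝ := 24 * k1 / ((r : ℝ) - i0) + mu / (10 * r) with hdl
  have hdl0 : 0 ≤ dl := by
    have : (0 : ℝ) < r - i0 := by linarith
    positivity
  have hloss : (i0 : ℝ) * dl ≤ 3 / 10 := by
    have h2 : (i0 : ℝ) * (24 * k1 / ((r : ℝ) - i0)) ≤ 1 / 5 := by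
      rw [mul_div_assoc', div_le_iff₀ (by linarith)]
      have e1 : k1 * (r * l0) = r / 400 := by rw [hl0]; field_simp
      nlinarith
    have h3 : (i0 : ℝ) * (mu / (10 * r)) ≤ 1 / 10 := by
      rw [mul_div_assoc', div_le_iff₀ (by positivity)]
      have : (i0 : ℝ) * mu ≤ r * 1 := by
        have : (i0 : ℝ) ≤ r := by linarith
        have : mu ≤ 1 := by linarith
        gcongr
      linarith
    have h4 : (i0 : ℝ) * dl = i0 * (24 * k1 / ((r : ℝ) - i0)) + i0 * (mu / (10 * r)) := by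
      rw [hdl]; ring
    linarith
  have hfirst : ∀ i, i ≤ i0 → 2 / 5 - i * dl ≤ b i := by
    intro i
    induction i with
    | zero => intro _; simpa using ho0
    | succ i ih =>
      intro hi
      have h1 := ih (by omega)
      have h3 : (i : ℝ) ≤ i0 := by exact_mod_cast (by omega : i ≤ i0)
      have h3' : (i : ℝ) * dl ≤ 3 / 10 := by
        refine le_trans ?_ hloss
        gcongr
      have h2 := hstep i (by omega) (by linarith) 0
      have hp : (0 : ℝ) < r - i0 := by linarith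
      have hp' : (0 : ℝ) < r - i := by linarith
      have hp12 : 12 ≤ (r : ℝ) - i := by linarith
      have h4 : 12 / ((r : ℝ) - i) * ((((0 : ℕ) : ℝ) + 1) * b i +
          k1 * (((r : ℝ) - i) / r) ^ 0) = 12 / ((r : ℝ) - i) * b i + 12 * k1 / ((r : ℝ) - i) := by
        rw [pow_zero, Nat.cast_zero]
        ring
      rw [h4] at h2
      have h5 : 12 / ((r : ℝ) - i) ≤ 1 := by
        rw [div_le_one hp']
        exact hp12
      have h6 : (1 - 12 / ((r : ℝ) - i)) * (2 / 5 - i * dl) ≤ (1 - 12 / ((r : ℝ) - i)) * b i := by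
        have : 0 ≤ 1 - 12 / ((r : ℝ) - i) := by linarith
        gcongr
      have h7 : 12 / ((r : ℝ) - i) * (2 / 5 - i * dl) ≤ 12 / ((r : ℝ) - i) := by
        have e1 : 0 ≤ 12 / ((r : ℝ) - i) := by positivity
        have e2 : 2 / 5 - i * dl ≤ 1 := by
          have : 0 ≤ (i : ℝ) * dl := by positivity
          linarith
        nlinarith
      have h8 : 12 / ((r : ℝ) - i) + 12 * k1 / ((r : ℝ) - i) ≤ 24 * k1 / ((r : ℝ) - i0) := by
        rw [← add_div]
        have : 12 + 12 * k1 ≤ 24 * k1 := by linarith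
        gcongr
      have h9 : dl = 24 * k1 / ((r : ℝ) - i0) + mu / (10 * r) := hdl
      push_cast
      linarith
  have hstart : 1 / 10 ≤ b i0 := by
    have h1 := hfirst i0 le_rfl
    linarith
  -- the main induction
  have hmain : ∀ i, i0 ≤ i → i ≤ r - m0 →
      Real.exp (-(D * Real.log (r / ((r : ℝ) - i)) ^ 25)) ≤ b i := by
    intro i hi
    induction i, hi using Nat.le_induction with
    | base =>
      intro _
      refine le_trans ?_ hstart
      have h1 : l0 ≤ Real.log (r / ((r : ℝ) - i0)) := by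
        have e1 : Real.log (r / ((r : ℝ) - i0)) = -Real.log (((r : ℝ) - i0) / r) := by
          rw [← Real.log_inv, inv_div]
        have e2 := Real.log_le_sub_one_of_pos (x := ((r : ℝ) - i0) / r)
          (div_pos (by linarith) hrp)
        have e3 : ((r : ℝ) - i0) / r - 1 = -(i0 / r) := by field_simp; ring
        have e4 : l0 ≤ i0 / r := by rw [le_div_iff₀ hrp]; linarith
        linarith
      have h2 := hDl _ h1
      have h3 : Real.exp (-(D * Real.log (r / ((r : ℝ) - i0)) ^ 25)) ≤ Real.exp (-3) := by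
        rw [Real.exp_le_exp]
        linarith
      exact h3.trans hexp3
    | succ i hi ih =>
      intro hir
      have hir' : i < r - m0 := by omega
      have hprev := ih (by omega)
      have hi' : (i0 : ℝ) ≤ i := by exact_mod_cast hi
      set p : ℝ := (r : ℝ) - i with hp
      have hpm : (m0 : ℝ) + 1 ≤ p := by
        have h1 : i + m0 + 1 ≤ r := by omega
        have h2 : (i : ℝ) + m0 + 1 ≤ r := by exact_mod_cast h1
        rw [hp]; linarith
      have hpp : 0 < p := by linarith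
      have hp1 : 0 < p - 1 := by linarith
      have hpr : p ≤ r := by rw [hp]; have : (0 : ℝ) ≤ i := Nat.cast_nonneg i; linarith
      set l : ℝ := Real.log (r / p) with hl
      have hll0 : l0 ≤ l := by
        have e1 : l = -Real.log (p / r) := by
          rw [hl, ← Real.log_inv, inv_div]
        have e2 := Real.log_le_sub_one_of_pos (x := p / r) (div_pos hpp hrp)
        have e3 : p / r - 1 = -(i / r) := by rw [hp]; field_simp; ring
        have e4 : l0 ≤ i / r := by rw [le_div_iff₀ hrp]; linarith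
        linarith
      have hlp : 0 < l := lt_of_lt_of_le hl0p hll0
      have hlR' : l ≤ Real.log R := by
        rw [hl]
        apply Real.log_le_log (by positivity)
        rw [div_le_iff₀ hpp, hrR]
        have : (R : ℝ) * m0 ≤ R * p := by
          have : (m0 : ℝ) ≤ p := by linarith
          gcongr
        exact this
      set Φ : ℝ := D * l ^ 25 with hΦ
      have hΦ0 : 0 ≤ Φ := by positivity
      have hmuΦ : mu ≤ Real.exp (-Φ) := by
        rw [hmu, Real.exp_le_exp, hΦ]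
        have : l ^ 25 ≤ Real.log R ^ 25 := by gcongr
        nlinarith
      have hst := hstep i hir' (hmuΦ.trans hprev)
      -- the choice of c0
      set c0 : ℕ := ⌈(Φ + K) / l⌉₊ with hc0
      have hc1 : (Φ + K) / l ≤ c0 := Nat.le_ceil _
      have hc2 : (c0 : ℝ) ≤ (Φ + K) / l + 1 := (Nat.ceil_lt_add_one (by positivity)).le
      have hΦl : Φ / l = D * l ^ 24 := by rw [hΦ]; field_simp
      have hc3 : (c0 : ℝ) ≤ D * l ^ 24 + K / l + 1 := by
        rw [add_div, hΦl] at hc2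
        exact hc2
      have hpow : (p / r) ^ c0 ≤ Real.exp (-Φ) / (4 * k1) := by
        have e1 : p / r = Real.exp (-l) := by
          rw [hl, ← Real.log_inv, inv_div, Real.exp_log (div_pos hpp hrp)]
        have e2 : Real.exp (-Φ) / (4 * k1) = Real.exp (-(Φ + K)) := by
          rw [neg_add, Real.exp_add, Real.exp_neg K, hK, Real.exp_log (by linarith)]
          rfl
        rw [e1, e2, ← Real.exp_nat_mul, Real.exp_le_exp]
        have : Φ + K ≤ c0 * l := by rwa [div_le_iff₀ hlp] at hc1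
        linarith
      have h1 := hst c0
      have h2 : k1 * (p / r) ^ c0 ≤ Real.exp (-Φ) := by
        calc k1 * (p / r) ^ c0 ≤ k1 * (Real.exp (-Φ) / (4 * k1)) := by gcongr
          _ = Real.exp (-Φ) / 4 := by field_simp
          _ ≤ Real.exp (-Φ) := by
            have := (Real.exp_pos (-Φ)).le
            linarith
      have h3 : mu / (10 * r) ≤ 12 / p * Real.exp (-Φ) := by
        have e2 : mu / (10 * r) ≤ 12 / p * mu := by
          rw [div_mul_eq_mul_div, div_le_div_iff₀ (by positivity) hpp]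
          nlinarith
        refine e2.trans ?_
        gcongr
      have hy0 : 12 * ((c0 : ℝ) + 3) / p ≤ 1 / 2 := by
        rw [div_le_iff₀ hpp]
        have e1 : l ^ 24 ≤ Real.log R ^ 24 := by gcongr
        have e2 : K / l ≤ K / l0 := by gcongr
        have e3 : D * l ^ 24 ≤ D * Real.log R ^ 24 := by gcongr
        linarith
      have hy1 : 0 ≤ 12 * ((c0 : ℝ) + 3) / p := by positivity
      have h4 : Real.exp (-Φ) * (1 - 12 * ((c0 : ℝ) + 3) / p) ≤ b (i + 1) := by
        have e0 : 0 ≤ 1 - 12 * ((c0 : ℝ) + 1) / p := by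
          have : 12 * ((c0 : ℝ) + 3) / p = 12 * ((c0 : ℝ) + 1) / p + 24 / p := by ring
          have : 0 < 24 / p := by positivity
          linarith
        have e1 : Real.exp (-Φ) * (1 - 12 * ((c0 : ℝ) + 1) / p) ≤
            b i * (1 - 12 * ((c0 : ℝ) + 1) / p) := by
          gcongr
        have e2 : 12 / p * ((c0 + 1) * b i + k1 * (p / r) ^ c0) ≤
            12 / p * ((c0 + 1) * b i + Real.exp (-Φ)) := by gcongr
        have e3 : Real.exp (-Φ) * (1 - 12 * ((c0 : ℝ) + 3) / p) =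
          Real.exp (-Φ) * (1 - 12 * ((c0 : ℝ) + 1) / p) - 12 / p * Real.exp (-Φ) -
            12 / p * Real.exp (-Φ) := by ring
        have e4 : 12 / p * ((c0 + 1) * b i + Real.exp (-Φ)) =
          b i - b i * (1 - 12 * ((c0 : ℝ) + 1) / p) + 12 / p * Real.exp (-Φ) := by ring
        linarith
      refine le_trans ?_ h4
      have h5 := one_sub_ge _ hy1 hy0
      refine le_trans ?_ (mul_le_mul_of_nonneg_left h5 (Real.exp_pos (-Φ)).le)
      rw [← Real.exp_add, Real.exp_le_exp]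
      -- the increment of the exponent
      set l' : ℝ := Real.log (r / ((r : ℝ) - ((i + 1 : ℕ) : ℝ))) with hl'
      have hl'l : l + 1 / p ≤ l' := by
        have e1 : (r : ℝ) - ((i + 1 : ℕ) : ℝ) = p - 1 := by rw [hp]; push_cast; ring
        have e2 : r / (p - 1) = r / p * (p / (p - 1)) := by field_simp
        rw [hl', e1, e2, Real.log_mul (by positivity) (by positivity), ← hl]
        have e3 : Real.log (p / (p - 1)) = -Real.log ((p - 1) / p) := by
          rw [← Real.log_inv, inv_div]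
        have e4 := Real.log_le_sub_one_of_pos (x := (p - 1) / p) (by positivity)
        have e5 : (p - 1) / p - 1 = -(1 / p) := by field_simp; ring
        linarith
      have h6 : l ^ 25 + 25 * l ^ 24 * (1 / p) ≤ l' ^ 25 := by
        have e1 : (l + 1 / p) ^ 25 ≤ l' ^ 25 := by gcongr
        refine le_trans ?_ e1
        have e2 := one_add_mul_le_pow (a := 1 / (p * l)) (by
          have : 0 < 1 / (p * l) := by positivity
          linarith) 25
        have e3 : (l + 1 / p) ^ 25 = l ^ 25 * (1 + 1 / (p * l)) ^ 25 := by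
          rw [← mul_pow]; congr 1; field_simp
        have e4 : l ^ 25 + 25 * l ^ 24 * (1 / p) = l ^ 25 * (1 + 25 * (1 / (p * l))) := by
          field_simp
        rw [e3, e4]
        push_cast at e2
        gcongr
      have h7 : 24 * ((c0 : ℝ) + 3) ≤ 25 * (D * l ^ 24) := by
        have e1 := hDl l hll0
        have e2 : 24 * (K / l) + 96 ≤ D * l ^ 24 := by
          have : 24 * (K / l) + 96 = (24 * K + 96 * l) / l := by field_simp
          rw [this, div_le_iff₀ hlp]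
          calc 24 * K + 96 * l ≤ D * l ^ 25 := by linarith
            _ = D * l ^ 24 * l := by ring
        linarith
      have h8 : 2 * (12 * ((c0 : ℝ) + 3) / p) ≤ 25 * (D * l ^ 24) * (1 / p) := by
        calc 2 * (12 * ((c0 : ℝ) + 3) / p) = 24 * ((c0 : ℝ) + 3) * (1 / p) := by ring
          _ ≤ 25 * (D * l ^ 24) * (1 / p) := by gcongr
      have h9 : D * (l ^ 25 + 25 * l ^ 24 * (1 / p)) ≤ D * l' ^ 25 := by gcongr
      have h10 : D * (l ^ 25 + 25 * l ^ 24 * (1 / p)) = Φ + 25 * (D * l ^ 24) * (1 / p) := by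
        rw [hΦ]; ring
      linarith
  have hfin := hmain (r - m0) hi0d.le le_rfl
  have e1 : (r : ℝ) / ((r : ℝ) - ((r - m0 : ℕ) : ℝ)) = R := by
    rw [Nat.cast_sub hm0r.le]
    rw [sub_sub_cancel, hrR]
    field_simp
  rw [e1] at hfin
  exact hfin

/-- Powers of a number which is at least two. -/
lemma pw (q : ℝ) (hq : 2 ≤ q) {a c : ℕ} (h : a ≤ c) : q ^ a ≤ q ^ c :=
  pow_le_pow_right₀ (by linarith) h

lemma cst (q : ℝ) (hq : 2 ≤ q) (x : ℝ) (a : ℕ) (h : x ≤ 2 ^ a) : x ≤ q ^ a :=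
  h.trans (pow_le_pow_left₀ (by norm_num) hq a)

/-- The inequality for `D`. -/
lemma Dl (k : ℕ) (q K l0 D : ℝ) (hk1 : (1 : ℝ) ≤ k) (hq2 : 2 ≤ q) (hl0p : 0 < l0)
    (hil0 : 1 / l0 = 400 * k) (hK1 : K ≤ 4 * k) (h400 : (400 : ℝ) * k ≤ q ^ 10)
    (h96 : (96 : ℝ) * k ≤ q ^ 8) (hD : D = q ^ 260) (l : ℝ) (hl : l0 ≤ l) :
    24 * K + 96 * l + 3 ≤ D * l ^ 25 := by
  have hq0 : 0 < q := by linarith
  have hl' : 0 < l := lt_of_lt_of_le hl0p hl
  have h1 : 1 ≤ 400 * k * l := by
    rw [← hil0, div_mul_eq_mul_div, one_mul, one_le_div hl0p]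
    exact hl
  have h2 : 1 ≤ q ^ 10 * l := h1.trans (by gcongr)
  have h3 : 1 ≤ (q ^ 10 * l) ^ 25 := one_le_pow₀ h2
  have h4 : 1 ≤ (q ^ 10 * l) ^ 24 := one_le_pow₀ h2
  have p25 : (q ^ 10 * l) ^ 25 = q ^ 250 * l ^ 25 := by rw [mul_pow, ← pow_mul]
  have p24 : (q ^ 10 * l) ^ 24 = q ^ 240 * l ^ 24 := by rw [mul_pow, ← pow_mul]
  have e1 : 24 * K ≤ q ^ 258 * l ^ 25 := by
    calc 24 * K ≤ q ^ 8 * 1 := by linarith
      _ ≤ q ^ 8 * (q ^ 10 * l) ^ 25 := by gcongr
      _ = q ^ 258 * l ^ 25 := by rw [p25, ← mul_assoc, ← pow_add]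
  have e2 : 96 * l ≤ q ^ 258 * l ^ 25 := by
    have := cst q hq2 96 7 (by norm_num)
    calc 96 * l ≤ q ^ 7 * l * 1 := by
          rw [mul_one]
          gcongr
      _ ≤ q ^ 7 * l * (q ^ 10 * l) ^ 24 := by gcongr
      _ = q ^ 247 * l ^ 25 := by
          rw [p24]
          calc q ^ 7 * l * (q ^ 240 * l ^ 24) = (q ^ 7 * q ^ 240) * (l ^ 24 * l) := by ring
            _ = q ^ 247 * l ^ 25 := by rw [← pow_add, ← pow_succ]
      _ ≤ q ^ 258 * l ^ 25 := by
          have := pw q hq2 (show 247 ≤ 258 by norm_num)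
          gcongr
  have e3 : 3 ≤ q ^ 258 * l ^ 25 := by
    have := cst q hq2 3 2 (by norm_num)
    calc (3 : ℝ) ≤ q ^ 2 * 1 := by linarith
      _ ≤ q ^ 2 * (q ^ 10 * l) ^ 25 := by gcongr
      _ = q ^ 252 * l ^ 25 := by rw [p25, ← mul_assoc, ← pow_add]
      _ ≤ q ^ 258 * l ^ 25 := by
          have := pw q hq2 (show 252 ≤ 258 by norm_num)
          gcongr
  have e4 : 3 * (q ^ 258 * l ^ 25) ≤ D * l ^ 25 := by
    have := cst q hq2 3 2 (by norm_num)
    calc 3 * (q ^ 258 * l ^ 25) ≤ q ^ 2 * (q ^ 258 * l ^ 25) := by gcongr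
      _ = D * l ^ 25 := by rw [hD, ← mul_assoc, ← pow_add]
  linarith

end Pool.Agent.TKN.NUMQx

namespace Pool.Agent.TKN

open NUMQx in
theorem t_NUMQ : S_NUMQ := by
  refine ⟨1624, fun k hk => ?_⟩
  have hk1 : (1 : ℝ) ≤ k := by exact_mod_cast hk
  obtain ⟨q, hq⟩ : ∃ q : ℝ, q = (k : ℝ) + 1 := ⟨_, rfl⟩
  have hq2 : (2 : ℝ) ≤ q := by linarith
  have hq0 : (0 : ℝ) < q := by linarith
  have hkq : (k : ℝ) ≤ q := by linarith
  obtain ⟨R, hRq⟩ : ∃ R : ℕ, (R : ℝ) = q ^ 1024 :=
    ⟨(k + 1) ^ 1024, by rw [hq, Nat.cast_pow, Nat.cast_add, Nat.cast_one]⟩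
  obtain ⟨m0, hm0q⟩ : ∃ m0 : ℕ, (m0 : ℝ) = q ^ 600 :=
    ⟨(k + 1) ^ 600, by rw [hq, Nat.cast_pow, Nat.cast_add, Nat.cast_one]⟩
  obtain ⟨r, hr⟩ : ∃ r : ℕ, r = R * m0 := ⟨_, rfl⟩
  rw [← hq]
  obtain ⟨K, hK⟩ : ∃ K : ℝ, K = Real.log (4 * k) := ⟨_, rfl⟩
  obtain ⟨l0, hl0⟩ : ∃ l0 : ℝ, l0 = 1 / (400 * (k : ℝ)) := ⟨_, rfl⟩
  have hl0p : 0 < l0 := by rw [hl0]; positivity
  obtain ⟨D, hD⟩ : ∃ D : ℝ, D = q ^ 260 := ⟨_, rfl⟩
  have hD0 : 0 < D := by rw [hD]; positivity
  have hK0 : 0 < K := by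
    rw [hK]
    exact Real.log_pos (by linarith)
  have hK1 : K ≤ 4 * k := by
    have := Real.log_le_sub_one_of_pos (x := 4 * (k : ℝ)) (by positivity)
    rw [hK]
    linarith
  have h400 : (400 : ℝ) * k ≤ q ^ 10 := by
    calc (400 : ℝ) * k ≤ q ^ 9 * q := by
          have := cst q hq2 400 9 (by norm_num)
          gcongr
      _ = q ^ 10 := (pow_succ q 9).symm
  have h96 : (96 : ℝ) * k ≤ q ^ 8 := by
    calc (96 : ℝ) * k ≤ q ^ 7 * q := by
          have := cst q hq2 96 7 (by norm_num)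
          gcongr
      _ = q ^ 8 := (pow_succ q 7).symm
  have hil0 : 1 / l0 = 400 * k := by
    rw [hl0, one_div_one_div]
  have hDl : ∀ l : ℝ, l0 ≤ l → 24 * K + 96 * l + 3 ≤ D * l ^ 25 := by
    intro l hl
    exact Dl k q K l0 D hk1 hq2 hl0p hil0 hK1 h400 h96 hD l hl
  have hR1 : (1 : ℝ) ≤ R := by
    rw [hRq]
    exact one_le_pow₀ (by linarith)
  obtain ⟨X, hX⟩ : ∃ X : ℝ, X = Real.log R := ⟨_, rfl⟩
  have hX0 : 0 ≤ X := by
    rw [hX]
    exact Real.log_nonneg hR1
  have hX1 : 1 + X ≤ q ^ 11 := by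
    have hXq : X = 1024 * Real.log q := by rw [hX, hRq, Real.log_pow]; norm_num
    have hlogq : Real.log q ≤ q - 1 := Real.log_le_sub_one_of_pos hq0
    have h1024 : (1024 : ℝ) ≤ q ^ 10 := cst q hq2 1024 10 (by norm_num)
    calc 1 + X ≤ 1024 * q := by rw [hXq]; linarith
      _ ≤ q ^ 10 * q := by gcongr
      _ = q ^ 11 := (pow_succ q 10).symm
  have hX11 : X ≤ q ^ 11 := le_trans (by linarith) hX1
  obtain ⟨Y, hY⟩ : ∃ Y : ℝ, Y = D * X ^ 25 := ⟨_, rfl⟩
  have hY0 : 0 ≤ Y := by rw [hY]; positivity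
  have hY1 : 1 + Y ≤ q ^ 536 := by
    have e1 : Y ≤ q ^ 535 := by
      calc Y ≤ q ^ 260 * (q ^ 11) ^ 25 := by rw [hY, hD]; gcongr
        _ = q ^ 535 := by rw [← pow_mul, ← pow_add]
    have e2 : (1 : ℝ) ≤ q ^ 535 := one_le_pow₀ (by linarith)
    calc 1 + Y ≤ q ^ 535 + q ^ 535 := add_le_add e2 e1
      _ = q ^ 535 * 2 := (mul_two _).symm
      _ ≤ q ^ 535 * q := by gcongr
      _ = q ^ 536 := (pow_succ q 535).symm
  have hrq : (r : ℝ) = q ^ 1624 := by
    rw [hr, Nat.cast_mul, hRq, hm0q, ← pow_add]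
  have hm0p : (0 : ℝ) < m0 := by rw [hm0q]; positivity
  have hm0n : 0 < m0 := by exact_mod_cast hm0p
  have hrp : (0 : ℝ) < r := by rw [hrq]; positivity
  have hm0r : m0 < r := by
    have : (m0 : ℝ) < r := by
      rw [hm0q, hrq]
      exact pow_lt_pow_right₀ (by linarith) (by norm_num)
    exact_mod_cast this
  have hratio : 4 * ((k : ℝ) * m0 / r) = 4 * k / q ^ 1024 := by
    rw [hr, Nat.cast_mul, ← hRq]
    have hR0 : (0 : ℝ) < R := by linarith
    field_simp
  have h80000 : (80000 : ℝ) * k ≤ q ^ 18 := by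
    calc (80000 : ℝ) * k ≤ q ^ 17 * q := by
          have := cst q hq2 80000 17 (by norm_num)
          gcongr
      _ = q ^ 18 := (pow_succ q 17).symm
  have hm0a : 24 * (D * X ^ 24 + K / l0 + 4) ≤ m0 := by
    have e1 : D * X ^ 24 ≤ q ^ 524 := by
      calc D * X ^ 24 ≤ q ^ 260 * (q ^ 11) ^ 24 := by rw [hD]; gcongr
        _ = q ^ 524 := by rw [← pow_mul, ← pow_add]
    have e2 : K / l0 ≤ q ^ 524 := by
      calc K / l0 = K * (1 / l0) := by rw [mul_one_div]
        _ ≤ (96 * k) * q ^ 10 := by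
            rw [hil0]
            have : K ≤ 96 * k := by linarith
            gcongr
        _ ≤ q ^ 8 * q ^ 10 := by gcongr
        _ = q ^ 18 := by rw [← pow_add]
        _ ≤ q ^ 524 := pw q hq2 (by norm_num)
    have e3 : (4 : ℝ) ≤ q ^ 524 := (cst q hq2 4 2 (by norm_num)).trans (pw q hq2 (by norm_num))
    have e4 : (72 : ℝ) ≤ q ^ 7 := cst q hq2 72 7 (by norm_num)
    rw [hm0q]
    calc 24 * (D * X ^ 24 + K / l0 + 4) ≤ 24 * (q ^ 524 + q ^ 524 + q ^ 524) := by gcongr
      _ = 72 * q ^ 524 := by ring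
      _ ≤ q ^ 7 * q ^ 524 := by gcongr
      _ = q ^ 531 := by rw [← pow_add]
      _ ≤ q ^ 600 := pw q hq2 (by norm_num)
  have hm0b : 500 * (k : ℝ) ≤ m0 := by
    rw [hm0q]
    calc 500 * (k : ℝ) ≤ q ^ 9 * q := by
          have := cst q hq2 500 9 (by norm_num)
          gcongr
      _ = q ^ 10 := (pow_succ q 9).symm
      _ ≤ q ^ 600 := pw q hq2 (by norm_num)
  have hR8 : (8 : ℝ) ≤ R := by
    rw [hRq]
    exact (cst q hq2 8 3 (by norm_num)).trans (pw q hq2 (by norm_num))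
  refine ⟨r, m0, 1 + Y, hm0n, hm0r, by linarith, ?_, ?_, ?_, ?_, ?_⟩
  · exact hrq.le
  · exact hY1.trans (pw q hq2 (by norm_num))
  · rw [hratio, div_le_div_iff₀ (by positivity) (by norm_num), one_mul]
    calc 4 * (k : ℝ) * 20000 = 80000 * k := by ring
      _ ≤ q ^ 18 := h80000
      _ ≤ q ^ 1024 := pw q hq2 (by norm_num)
  · rw [hratio]
    unfold eta
    have e1 : 1 + Real.log (1 / (4 * k / q ^ 1024)) ≤ q ^ 11 := by
      refine le_trans ?_ hX1
      have : Real.log (1 / (4 * k / q ^ 1024)) ≤ X := by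
        rw [hX, hRq]
        apply Real.log_le_log (by positivity)
        rw [one_div_div]
        have h5 : (0 : ℝ) ≤ q ^ 1024 := by positivity
        exact div_le_self h5 (by linarith)
      linarith
    calc 20000 * (1 + Y) * (4 * k / q ^ 1024 * (1 + Real.log (1 / (4 * k / q ^ 1024))))
        ≤ 20000 * (1 + Y) * (4 * k / q ^ 1024 * q ^ 11) := by gcongr
      _ ≤ 20000 * q ^ 536 * (4 * k / q ^ 1024 * q ^ 11) := by gcongr
      _ = (80000 * k) * (q ^ 536 * q ^ 11) / q ^ 1024 := by ring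
      _ ≤ q ^ 18 * (q ^ 536 * q ^ 11) / q ^ 1024 := by gcongr
      _ = q ^ 565 / q ^ 1024 := by rw [← pow_add, ← pow_add]
      _ ≤ 1 := by
        rw [div_le_one (by positivity)]
        exact pw q hq2 (by norm_num)
  · intro b hb0 hst
    have e : 1 - (1 + Y) = -(D * Real.log R ^ 25) := by rw [hY, hX]; ring
    rw [e]
    rw [e] at hst
    rw [hX] at hm0a
    exact core (k : ℝ) K l0 D R m0 r hk1 hK hl0 hDl hD0 hR8 hm0a hm0b hr hm0r b hb0 hst

end Pool.Agent.TKN
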