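import Pool.Agent.TKN.St8
import Pool.Agent.TKN.P_SBI

/-!
# Module TKQ_OM: the uncertainty decreases if the information increases

`O P F b` is twice the smallest mean square error of an estimate of the bit `b` by a function of `F`.
-/

set_option autoImplicit false

open Finset
open scoped Classical

namespace Pool.Agent.TKN

open NCE

namespace ROM

section
variable {Ω : Type} [Fintype Ω] {γ δ : Type}

/-- the mass of `F = f`, bit `= c` -/
noncomputable def ms (P : FP Ω) (F : Ω → γ) (b : Ω → Bool) (f : γ) (c : Bool) : ℝ :=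
  MSBI.sf P F f (fun ω => MSBI.ind (b ω = c))

lemma ms_nn (P : FP Ω) (F : Ω → γ) (b : Ω → Bool) (f : γ) (c : Bool) : 0 ≤ ms P F b f c :=
  MSBI.sf_nonneg P F f fun _ => MSBI.ind_nn _

lemma ex_fb (P : FP Ω) (F : Ω → γ) (b : Ω → Bool) (g : γ → Bool → ℝ) :
    ex P (fun ω => g (F ω) (b ω)) =
      ∑ f ∈ univ.image F, (ms P F b f true * g f true + ms P F b f false * g f false) := by
  rw [MSBI.ex_sf P F]
  refine Finset.sum_congr rfl fun f _ => ?_
  rw [MSBI.sf_congr P F f (g' := fun ω => 1 * g f (b ω)) fun ω h => by rw [h, one_mul],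
    MSBI.bsplit P F f b (fun _ => 1) (g f)]
  unfold ms
  simp only [mul_one]

lemma mass (P : FP Ω) (F : Ω → γ) (b : Ω → Bool) (f : γ) :
    pr P F f = ms P F b f true + ms P F b f false := by
  rw [MSBI.pr_one]
  unfold ms
  rw [← MSBI.sf_add]
  refine MSBI.sf_congr P F f fun ω _ => ?_
  cases b ω <;> simp [MSBI.ind]

lemma O_eq (P : FP Ω) (F : Ω → γ) (b : Ω → Bool) :
    O P F b = ∑ f ∈ univ.image F,
      (ms P F b f true * (ms P F b f false / (ms P F b f true + ms P F b f false)) +
        ms P F b f false * (ms P F b f true / (ms P F b f true + ms P F b f false))) := by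
  have h := ex_fb P F b fun f c =>
    ms P F b f (!c) / (ms P F b f true + ms P F b f false)
  simp only [Bool.not_true, Bool.not_false] at h
  rw [← h]
  unfold O
  congr 1
  funext ω
  unfold opp
  rw [MSBI.pr_pair, mass P F b]
  rfl

/-- the mean square error of the estimate `x` of the bit `b` -/
noncomputable def er (P : FP Ω) (F : Ω → γ) (b : Ω → Bool) (x : γ → ℝ) : ℝ :=
  ex P fun ω => 2 * ((if b ω then 1 else 0) - x (F ω)) ^ 2

lemma er_eq (P : FP Ω) (F : Ω → γ) (b : Ω → Bool) (x : γ → ℝ) :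
    er P F b x = ∑ f ∈ univ.image F,
      (ms P F b f true * (2 * (1 - x f) ^ 2) + ms P F b f false * (2 * (0 - x f) ^ 2)) := by
  have h := ex_fb P F b fun f c => 2 * ((if c then 1 else 0) - x f) ^ 2
  simpa [er] using h

lemma point (p q x : ℝ) (hp : 0 ≤ p) (hq : 0 ≤ q) :
    p * (q / (p + q)) + q * (p / (p + q)) ≤ p * (2 * (1 - x) ^ 2) + q * (2 * (0 - x) ^ 2) := by
  rcases (add_nonneg hp hq).eq_or_lt with h | h
  · have h1 : p = 0 := by linarith
    have h2 : q = 0 := by linarith
    simp [h1, h2]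
  · have h1 : p * (q / (p + q)) + q * (p / (p + q)) = 2 * (p * q) / (p + q) := by
      field_simp
      ring
    rw [h1, div_le_iff₀ h]
    nlinarith [sq_nonneg (p * (1 - x) - q * x)]

lemma point_eq (p q : ℝ) (hp : 0 ≤ p) (hq : 0 ≤ q) :
    p * (2 * (1 - p / (p + q)) ^ 2) + q * (2 * (0 - p / (p + q)) ^ 2) =
      p * (q / (p + q)) + q * (p / (p + q)) := by
  rcases (add_nonneg hp hq).eq_or_lt with h | h
  · have h1 : p = 0 := by linarith
    have h2 : q = 0 := by linarith
    simp [h1, h2]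
  · field_simp
    ring

lemma O_le_er (P : FP Ω) (F : Ω → γ) (b : Ω → Bool) (x : γ → ℝ) : O P F b ≤ er P F b x := by
  rw [O_eq, er_eq]
  exact Finset.sum_le_sum fun f _ => point _ _ _ (ms_nn P F b f true) (ms_nn P F b f false)

lemma exists_er (P : FP Ω) (F : Ω → γ) (b : Ω → Bool) : ∃ x : γ → ℝ, er P F b x = O P F b := by
  refine ⟨fun f => ms P F b f true / (ms P F b f true + ms P F b f false), ?_⟩
  rw [O_eq, er_eq]
  exact Finset.sum_congr rfl fun f _ => point_eq _ _ (ms_nn P F b f true) (ms_nn P F b f false)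

end

end ROM

/-- The uncertainty decreases if the information increases. -/
theorem t_OM : S_OM := by
  intro Ω _ P γ δ F G b hdet
  obtain ⟨x, hx⟩ := ROM.exists_er P F b
  rw [← hx]
  -- the estimate as a function of `G`
  let y : δ → ℝ := fun g => if h : ∃ ω, P.p ω ≠ 0 ∧ G ω = g then x (F h.choose) else 0
  have hy : ∀ ω, P.p ω ≠ 0 → y (G ω) = x (F ω) := by
    intro ω hω
    have h : ∃ ω', P.p ω' ≠ 0 ∧ G ω' = G ω := ⟨ω, hω, rfl⟩
    have h1 : y (G ω) = x (F h.choose) := dif_pos h
    rw [h1, hdet h.choose ω h.choose_spec.1 hω h.choose_spec.2]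
  refine (ROM.O_le_er P G b y).trans (le_of_eq ?_)
  unfold ROM.er ex
  refine Finset.sum_congr rfl fun ω _ => ?_
  by_cases hω : P.p ω = 0
  · rw [hω, zero_mul, zero_mul]
  · simp only [hy ω hω]

end Pool.Agent.TKN
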