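import Pool.Agent.TKN.St8
import Pool.Agent.TKN.P_BIN

/-!
# Module TKQ_OX: uncertainty and entropy of a bit
-/

set_option autoImplicit false

open Finset
open scoped Classical

namespace Pool.Agent.TKN

open NCE

namespace ROX

section
variable {Ω : Type} [Fintype Ω] {γ : Type}

lemma pr_nn {α : Type} (P : FP Ω) (X : Ω → α) (x : α) : 0 ≤ pr P X x := by
  unfold pr
  refine Finset.sum_nonneg fun ω _ => ?_
  split_ifs
  · exact P.nn ω
  · exact le_rfl

lemma opp_nn (P : FP Ω) (F : Ω → γ) (b : Ω → Bool) (ω : Ω) : 0 ≤ opp P F b ω :=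
  div_nonneg (pr_nn _ _ _) (pr_nn _ _ _)

lemma opp_le (P : FP Ω) (F : Ω → γ) (b : Ω → Bool) (ω : Ω) : opp P F b ω ≤ 1 := by
  have h := MBIN.pr_add P F b (F ω) (b ω)
  have h1 := pr_nn P (fun ω' => (F ω', b ω')) (F ω, b ω)
  exact div_le_one_of_le₀ (by linarith) (pr_nn _ _ _)

/-- The uncertainty is the mean of `2 p (1 - p)`. -/
lemma O_eq (P : FP Ω) (F : Ω → γ) (b : Ω → Bool) :
    O P F b = ex P (fun ω => 2 * (opp P F b ω * (1 - opp P F b ω))) := by
  set m : γ → Bool → ℝ := fun f c => pr P (fun ω' => (F ω', b ω')) (f, c) with hm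
  set M : γ → ℝ := fun f => pr P F f with hM
  have hR : ex P (fun ω => 2 * (opp P F b ω * (1 - opp P F b ω))) =
      ∑ c : Bool, ex P (fun ω => m (F ω) c / M (F ω) * (m (F ω) (!c) / M (F ω))) := by
    unfold ex
    rw [Finset.sum_comm]
    refine Finset.sum_congr rfl fun ω _ => ?_
    rw [← Finset.mul_sum]
    by_cases hp : P.p ω = 0
    · rw [hp, zero_mul, zero_mul]
    · have h2 : 0 < M (F ω) := MBIN.pr_pos P F ω hp
      have h3 : m (F ω) (b ω) + m (F ω) (!b ω) = M (F ω) := MBIN.pr_add P F b (F ω) (b ω)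
      have h4 : 1 - m (F ω) (!b ω) / M (F ω) = m (F ω) (b ω) / M (F ω) := by
        rw [← h3] at h2 ⊢
        field_simp
        ring
      have h6 : opp P F b ω = m (F ω) (!b ω) / M (F ω) := rfl
      have h5 : 2 * (opp P F b ω * (1 - opp P F b ω)) =
          ∑ c : Bool, m (F ω) c / M (F ω) * (m (F ω) (!c) / M (F ω)) := by
        rw [h6, h4, Fintype.sum_bool]
        cases b ω <;> simp <;> ring
      show P.p ω * (2 * (opp P F b ω * (1 - opp P F b ω))) = _
      rw [h5]
  rw [hR, Finset.sum_congr rfl fun c _ =>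
    MBIN.condexp P F b (fun f => m f (!c) / M f) c]
  unfold O ex
  rw [Finset.sum_comm]
  refine Finset.sum_congr rfl fun ω _ => ?_
  rw [← Finset.mul_sum]
  congr 1
  rw [Finset.sum_ite_eq]
  simp
  rfl

lemma ex_mono (P : FP Ω) {f g : Ω → ℝ} (h : ∀ ω, f ω ≤ g ω) : ex P f ≤ ex P g :=
  Finset.sum_le_sum fun ω _ => mul_le_mul_of_nonneg_left (h ω) (P.nn ω)

lemma ex_affine (P : FP Ω) (a k : ℝ) (g : Ω → ℝ) :
    ex P (fun ω => a + k * g ω) = a + k * ex P g := by
  unfold ex
  have h : ∀ ω, P.p ω * (a + k * g ω) = a * P.p ω + k * (P.p ω * g ω) := fun ω => by ring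
  rw [Finset.sum_congr rfl fun ω _ => h ω, Finset.sum_add_distrib, ← Finset.mul_sum,
    ← Finset.mul_sum, P.one, mul_one]

end

lemma ptA (h3 : S_HE3) {p : ℝ} (h0 : 0 ≤ p) (h1 : p ≤ 1) :
    2 * (p * (1 - p)) ≤ Real.binEntropy p := by
  have h := h3 p h0 h1
  have hl : 1 / 2 ≤ Real.log 2 := by
    have := Real.log_two_gt_d9
    linarith
  nlinarith [mul_nonneg (sub_nonneg.2 hl) (mul_nonneg h0 (sub_nonneg.2 h1))]

lemma ptC0 {p a : ℝ} (h0 : 0 ≤ p) (h1 : p ≤ 1 / 2) (ha : 0 < a) (ha1 : a ≤ 1) :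
    Real.binEntropy p ≤ a + Real.log (1 / a) * (2 * (p * (1 - p))) := by
  have hla : 0 ≤ Real.log (1 / a) := Real.log_nonneg (by rw [le_div_iff₀ ha]; linarith)
  rcases h0.eq_or_lt with hp | hp
  · rw [← hp]
    simp
    exact ha.le
  · have hq : 0 < 1 - p := by linarith
    have e1 : (1 - p) * Real.log (1 - p)⁻¹ ≤ p := by
      have h2 := Real.log_le_sub_one_of_pos (inv_pos.2 hq)
      have h3 := mul_le_mul_of_nonneg_left h2 hq.le
      have h4 : (1 - p) * ((1 - p)⁻¹ - 1) = p := by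
        field_simp
        ring
      linarith
    have e2 : p * Real.log p⁻¹ ≤ a - p + p * Real.log (1 / a) := by
      have h2 := Real.log_le_sub_one_of_pos (div_pos ha hp)
      have h3 := mul_le_mul_of_nonneg_left h2 hp.le
      have h4 : p * (a / p - 1) = a - p := by
        field_simp
      have h5 : Real.log (a / p) = Real.log p⁻¹ - Real.log (1 / a) := by
        rw [Real.log_div ha.ne' hp.ne', Real.log_inv, one_div, Real.log_inv]
        ring
      rw [h4, h5] at h3
      linarith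
    have e3 : p * Real.log (1 / a) ≤ Real.log (1 / a) * (2 * (p * (1 - p))) := by
      have h2 : p ≤ 2 * (p * (1 - p)) := by nlinarith
      have h3 := mul_le_mul_of_nonneg_left h2 hla
      linarith
    unfold Real.binEntropy
    linarith

lemma ptC {p a : ℝ} (h0 : 0 ≤ p) (h1 : p ≤ 1) (ha : 0 < a) (ha1 : a ≤ 1) :
    Real.binEntropy p ≤ a + Real.log (1 / a) * (2 * (p * (1 - p))) := by
  rcases le_total p (1 / 2) with h | h
  · exact ptC0 h0 h ha ha1
  · have h2 := ptC0 (p := 1 - p) (by linarith) (by linarith) ha ha1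
    rw [Real.binEntropy_one_sub] at h2
    have h3 : (1 - p) * (1 - (1 - p)) = p * (1 - p) := by ring
    rwa [h3] at h2

end ROX

open ROX in
theorem t_OX (hBIN : S_BIN) (hHE3 : S_HE3) : S_OX := by
  intro Ω _ P γ F b
  have hO := O_eq P F b
  have hC := hBIN Ω P γ F b
  refine ⟨?_, ?_, ?_, ?_⟩
  · unfold O ex
    exact Finset.sum_nonneg fun ω _ => mul_nonneg (P.nn ω) (opp_nn P F b ω)
  · rw [hO, hC]
    exact ex_mono P fun ω => ptA hHE3 (opp_nn P F b ω) (opp_le P F b ω)
  · rw [hC]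
    have h1 : ex P (fun _ => (1 : ℝ)) = 1 := by
      have h := ex_affine P 1 0 (fun _ => 0)
      simpa using h
    refine (ex_mono P (g := fun _ => (1 : ℝ)) fun ω => ?_).trans h1.le
    refine Real.binEntropy_le_log_two.trans ?_
    have := Real.log_two_lt_d9
    linarith
  · intro a ha ha1
    rw [hO, hC, ← ex_affine]
    exact ex_mono P fun ω => ptC (opp_nn P F b ω) (opp_le P F b ω) ha ha1

end Pool.Agent.TKN
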