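import Pool.Agent.TKN.St8
import Pool.Agent.TKN.P_REC
import Pool.Agent.TKN.P_CHV

/-!
# Project TKQ: module RE2, the recursion averaged over `V` and `J`
-/

set_option autoImplicit false

open Finset
open scoped Classical

namespace Pool.Agent.TKN

open NCE

namespace MRE2

open MREC

/-- The recursion for one set `V`, before the division. -/
theorem one (hSTEP : S_STEP) (hCHO : S_CHO) {n r w : ℕ} (Z : Finset (Fin n → Bool))
    (hZ : Z.Nonempty) (U : Fin r → (Fin n → Bool) → Finset (Fin n)) (hF : Fam n r w Z U)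
    (V : Finset (Fin n)) {i : ℕ} (hi : i < r) (c0 : ℕ) :
    ((r : ℝ) - i) * ∑ J ∈ powersetCard i (univ : Finset (Fin r)), PhiF Z hZ U V J -
        (i + 1) * ∑ J ∈ powersetCard (i + 1) (univ : Finset (Fin r)), PhiF Z hZ U V J ≤
      12 * (c0 * ∑ J ∈ powersetCard i (univ : Finset (Fin r)), PhiF Z hZ U V J +
        ((((r : ℝ) - i) / r) ^ c0 * r.choose i) *
          ∑ v ∈ V, ex (uni Z hZ) (fun ω => (cnt U ω.1 v : ℝ))) +
        8 * (((r : ℝ) - i) * ∑ J ∈ powersetCard i (univ : Finset (Fin r)), TCF Z hZ U V J) := by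
  obtain ⟨Φ, hΦ⟩ : ∃ Φ : Finset (Fin r) → ℝ, Φ = PhiF Z hZ U V := ⟨_, rfl⟩
  have hΦ' : ∀ J, ∑ v ∈ V, O (uni Z hZ) (FJ Z U V J) (bit Z v) = Φ J := fun J => by
    rw [hΦ]
    rfl
  obtain ⟨T, hT⟩ : ∃ T : Finset (Fin r) → ℝ, T = TCF Z hZ U V := ⟨_, rfl⟩
  have hT' : ∀ J, TC (uni Z hZ) (FJ Z U V J) V Subtype.val = T J := fun J => by
    rw [hT]
    rfl
  rw [← hΦ, ← hT]
  obtain ⟨C, hC⟩ : ∃ C : ℝ, C = (r.choose i : ℝ) := ⟨_, rfl⟩
  have hC0 : 0 < C := by rw [hC]; exact_mod_cast Nat.choose_pos hi.le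
  have hiR : (0 : ℝ) < (r : ℝ) - i := by
    have : (i : ℝ) < r := by exact_mod_cast hi
    linarith
  obtain ⟨S, hS⟩ : ∃ S : ℝ, S = ∑ J ∈ powersetCard i (univ : Finset (Fin r)), Φ J := ⟨_, rfl⟩
  obtain ⟨S', hS'⟩ : ∃ S' : ℝ, S' = ∑ J ∈ powersetCard (i + 1) (univ : Finset (Fin r)), Φ J :=
    ⟨_, rfl⟩
  obtain ⟨y, hy⟩ : ∃ y, y = (((r : ℝ) - i) / r) ^ c0 := ⟨_, rfl⟩
  have hy0 : 0 ≤ y := by
    rw [hy]
    exact pow_nonneg (div_nonneg hiR.le (Nat.cast_nonneg _)) _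
  -- the sum over all pairs
  have h1 : ∑ J ∈ powersetCard i (univ : Finset (Fin r)),
      ∑ j ∈ univ.filter (fun j => j ∉ J), (Φ J - Φ (insert j J)) =
      ((r : ℝ) - i) * S - (i + 1) * S' := by
    have h2 : ∀ J ∈ powersetCard i (univ : Finset (Fin r)),
        ∑ j ∈ univ.filter (fun j => j ∉ J), (Φ J - Φ (insert j J)) =
        ((r : ℝ) - i) * Φ J - ∑ j ∈ univ.filter (fun j => j ∉ J), Φ (insert j J) := by
      intro J hJ
      rw [sum_sub_distrib, sum_const, nsmul_eq_mul, card_compl (mem_powersetCard.1 hJ).2]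
    rw [sum_congr rfl h2, sum_sub_distrib, ← mul_sum, pair_sum, ← hS, ← hS']
  -- one set of segments
  have h3 : ∀ J ∈ powersetCard i (univ : Finset (Fin r)),
      ∑ j ∈ univ.filter (fun j => j ∉ J), (Φ J - Φ (insert j J)) ≤
      12 * (c0 * Φ J + ∑ v ∈ V, ex (uni Z hZ) (fun ω =>
        if Disjoint (RR U ω.1 v) J then max ((cnt U ω.1 v : ℝ) - c0) 0 else 0)) +
        8 * (((r : ℝ) - i) * T J) := by
    intro J hJ
    have h4 : ∀ j ∈ univ.filter (fun j => j ∉ J), Φ J - Φ (insert j J) ≤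
        12 * (∑ v ∈ V, ex (uni Z hZ) (fun ω => if v ∈ U j ω.1 then
          opp (uni Z hZ) (FJ Z U V J) (bit Z v) ω else 0)) + 8 * T J := by
      intro j hj
      have h5 := hSTEP n r w Z hZ U hF V J j (mem_filter.1 hj).2
      rw [sum_sub_distrib, hΦ', hΦ', hT'] at h5
      exact h5
    refine (sum_le_sum h4).trans ?_
    rw [sum_add_distrib, sum_const, nsmul_eq_mul, card_compl (mem_powersetCard.1 hJ).2,
      ← mul_sum, sum_comm]
    have h7 : ∑ v ∈ V, ∑ j ∈ univ.filter (fun j => j ∉ J), ex (uni Z hZ) (fun ω =>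
        if v ∈ U j ω.1 then opp (uni Z hZ) (FJ Z U V J) (bit Z v) ω else 0) ≤
        c0 * Φ J + ∑ v ∈ V, ex (uni Z hZ) (fun ω =>
          if Disjoint (RR U ω.1 v) J then max ((cnt U ω.1 v : ℝ) - c0) 0 else 0) := by
      rw [← hΦ' J, mul_sum, ← sum_add_distrib]
      refine sum_le_sum fun v _ => ?_
      rw [ex_sum]
      unfold O
      rw [← ex_mul, ← ex_add]
      exact ex_mono _ fun ω => point Z hZ U V J v ω c0
    linarith
  have h8 : ∑ J ∈ powersetCard i (univ : Finset (Fin r)), ∑ v ∈ V, ex (uni Z hZ) (fun ω =>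
        if Disjoint (RR U ω.1 v) J then max ((cnt U ω.1 v : ℝ) - c0) 0 else 0) ≤
      (y * C) * ∑ v ∈ V, ex (uni Z hZ) (fun ω => (cnt U ω.1 v : ℝ)) := by
    rw [sum_comm, mul_sum]
    refine sum_le_sum fun v _ => ?_
    rw [ex_sum, ← ex_mul]
    refine ex_mono _ fun ω => ?_
    rw [hy, hC]
    exact avg hCHO hi U ω.1 v c0
  rw [← hS, ← hS', ← hy, ← hC, ← h1]
  refine (sum_le_sum h3).trans ?_
  rw [sum_add_distrib, ← mul_sum, sum_add_distrib, ← mul_sum, ← hS, ← mul_sum, ← mul_sum]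
  linarith

/-- The last division. -/
theorem fin_step {N C C' d a t S S' T c0 k y : ℝ} (hN : 0 < N) (hC : 0 < C) (hd : 0 < d)
    (ht : 0 < t) (h1 : d * S - (a + 1) * S' ≤ 12 * (c0 * S + y * C * (k * t * N)) + 8 * (d * T))
    (h2 : C' * (a + 1) = C * d) :
    S / (N * C) / t - 12 / d * (c0 * (S / (N * C) / t) + k * y) - 8 * (T / (N * C) / t) ≤
      S' / (N * C') / t := by
  have ha : (a + 1) ≠ 0 := by
    intro h
    rw [h, mul_zero] at h2
    exact (mul_pos hC hd).ne h2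
  have e : S' / (N * C') / t = (a + 1) * S' / (N * (C * d) * t) := by
    rw [← h2, div_div]
    have e1 : N * (C' * (a + 1)) * t = (a + 1) * (N * C' * t) := by ring
    rw [e1, mul_div_mul_left _ _ ha]
  rw [e, le_div_iff₀ (by positivity)]
  have e2 : (S / (N * C) / t - 12 / d * (c0 * (S / (N * C) / t) + k * y) -
      8 * (T / (N * C) / t)) * (N * (C * d) * t) =
      d * S - 12 * (c0 * S + y * C * (k * t * N)) - 8 * (d * T) := by
    have hN' := hN.ne'
    have hC' := hC.ne'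
    have hd' := hd.ne'
    have ht' := ht.ne'
    field_simp
  rw [e2]
  linarith

end MRE2

open MRE2 in
/-- RE2 -/
theorem t_RE2 (hSTEP : S_STEP) (hCHO : S_CHO) : S_RE2 := by
  intro n r w k Z hZ U hF hk t i ht htn hi c0
  have hn0 : (0 : ℝ) < n := by
    have : 0 < n := by omega
    exact_mod_cast this
  have ht0 : (0 : ℝ) < t := by exact_mod_cast ht
  have hN : (0 : ℝ) < (n.choose t : ℝ) := by exact_mod_cast Nat.choose_pos htn
  have hC : (0 : ℝ) < (r.choose i : ℝ) := by exact_mod_cast Nat.choose_pos hi.le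
  have hd : (0 : ℝ) < (r : ℝ) - i := by
    have : (i : ℝ) < r := by exact_mod_cast hi
    linarith
  have hκ : ∑ V ∈ powersetCard t (univ : Finset (Fin n)),
      ∑ v ∈ V, ex (uni Z hZ) (fun ω => (cnt U ω.1 v : ℝ)) ≤ k * t * n.choose t := by
    have h1 := MCHV.double (n := n) (m := t)
      (fun v => ex (uni Z hZ) (fun ω => (cnt U ω.1 v : ℝ))) ht (by omega)
    have h2 := MCHV.sum_ex_cnt (k := k) hZ hF hk
    refine le_of_mul_le_mul_left ?_ hn0
    rw [h1]
    calc (t : ℝ) * (n.choose t : ℝ) * ∑ v, ex (uni Z hZ) (fun ω => (cnt U ω.1 v : ℝ))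
        ≤ (t : ℝ) * (n.choose t : ℝ) * (k * n) := mul_le_mul_of_nonneg_left h2 (by positivity)
      _ = n * (k * t * n.choose t) := by ring
  have hy0 : (0 : ℝ) ≤ (((r : ℝ) - i) / r) ^ c0 :=
    pow_nonneg (div_nonneg hd.le (Nat.cast_nonneg _)) _
  have h11 : ((r.choose (i + 1) : ℕ) : ℝ) * ((i : ℝ) + 1) = (r.choose i : ℝ) * ((r : ℝ) - i) := by
    have h12 := Nat.choose_succ_right_eq r i
    rw [← Nat.cast_sub hi.le]
    exact_mod_cast h12
  have h13 := sum_le_sum fun V (_ : V ∈ powersetCard t (univ : Finset (Fin n))) =>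
    one hSTEP hCHO Z hZ U hF V hi c0
  rw [sum_sub_distrib, ← mul_sum, ← mul_sum, sum_add_distrib, ← mul_sum, sum_add_distrib,
    ← mul_sum, ← mul_sum, ← mul_sum, ← mul_sum] at h13
  unfold oA yA av
  refine fin_step hN hC hd ht0 ?_ h11
  refine h13.trans ?_
  have h14 := mul_le_mul_of_nonneg_left hκ
    (mul_nonneg hy0 (Nat.cast_nonneg (r.choose i)) :
      (0 : ℝ) ≤ (((r : ℝ) - i) / r) ^ c0 * (r.choose i : ℝ))
  linarith

end Pool.Agent.TKN
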