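import Pool.Agent.TKN.St8

/-!
# Project TKQ, module SEL: the choice of `V` and `J` at the end
-/

set_option autoImplicit false

open Finset
open scoped Classical

namespace Pool.Agent.TKN

open NCE

namespace RSEL

theorem opp_le {Ω γ : Type} [Fintype Ω] (P : FP Ω) (F : Ω → γ) (b : Ω → Bool) (ω : Ω) :
    opp P F b ω ≤ 1 := by
  unfold opp
  have h1 : pr P (fun ω' => (F ω', b ω')) (F ω, !b ω) ≤ pr P F (F ω) := by
    unfold pr
    refine Finset.sum_le_sum fun ω' _ => ?_
    by_cases h : (F ω', b ω') = (F ω, !b ω)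
    · rw [if_pos h, if_pos (congrArg Prod.fst h)]
    · rw [if_neg h]
      split_ifs
      · exact P.nn ω'
      · exact le_rfl
  have h0 : 0 ≤ pr P F (F ω) := by
    unfold pr
    refine Finset.sum_nonneg fun ω' _ => ?_
    split_ifs
    · exact P.nn ω'
    · exact le_rfl
  exact div_le_one_of_le₀ h1 h0

theorem O_le {Ω γ : Type} [Fintype Ω] (P : FP Ω) (F : Ω → γ) (b : Ω → Bool) : O P F b ≤ 1 := by
  unfold O ex
  calc ∑ ω, P.p ω * opp P F b ω ≤ ∑ ω, P.p ω := Finset.sum_le_sum fun ω _ =>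
        mul_le_of_le_one_right (P.nn ω) (opp_le P F b ω)
    _ = 1 := P.one

theorem Phi_le {n r : ℕ} (Z : Finset (Fin n → Bool)) (hZ : Z.Nonempty)
    (U : Fin r → (Fin n → Bool) → Finset (Fin n)) (V : Finset (Fin n)) (J : Finset (Fin r)) :
    PhiF Z hZ U V J ≤ V.card := by
  unfold PhiF
  calc ∑ v ∈ V, O (uni Z hZ) (FJ Z U V J) (bit Z v) ≤ ∑ _v ∈ V, (1 : ℝ) :=
        Finset.sum_le_sum fun v _ => O_le _ _ _
    _ = V.card := by simp

/-- an average is attained -/
theorem pick {n r t i : ℕ} (ht : t ≤ n) (hi : i ≤ r) (g : Finset (Fin n) → Finset (Fin r) → ℝ)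
    (c : ℝ) (h : c ≤ av n r t i g) : ∃ V J, V.card = t ∧ J.card = i ∧ c ≤ g V J := by
  by_contra hcon
  push Not at hcon
  have hne1 : (powersetCard t (univ : Finset (Fin n))).Nonempty :=
    powersetCard_nonempty.2 (by simpa using ht)
  have hne2 : (powersetCard i (univ : Finset (Fin r))).Nonempty :=
    powersetCard_nonempty.2 (by simpa using hi)
  have h1 : (0 : ℝ) < (n.choose t : ℝ) := by exact_mod_cast Nat.choose_pos ht
  have h2 : (0 : ℝ) < (r.choose i : ℝ) := by exact_mod_cast Nat.choose_pos hi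
  have h3 : ∑ V ∈ powersetCard t (univ : Finset (Fin n)),
      ∑ J ∈ powersetCard i (univ : Finset (Fin r)), g V J <
      ∑ V ∈ powersetCard t (univ : Finset (Fin n)),
        ∑ J ∈ powersetCard i (univ : Finset (Fin r)), c := by
    refine Finset.sum_lt_sum_of_nonempty hne1 fun V hV => ?_
    refine Finset.sum_lt_sum_of_nonempty hne2 fun J hJ => ?_
    exact hcon V J (mem_powersetCard.1 hV).2 (mem_powersetCard.1 hJ).2
  simp only [Finset.sum_const, card_powersetCard, card_univ, Fintype.card_fin, nsmul_eq_mul] at h3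
  unfold av at h
  rw [le_div_iff₀ (mul_pos h1 h2)] at h
  have h4 : (n.choose t : ℝ) * ((r.choose i : ℝ) * c) = c * ((n.choose t : ℝ) * (r.choose i : ℝ)) := by
    ring
  rw [h4] at h3
  exact absurd h3 (not_lt.2 h)

theorem av_lin (n r t i : ℕ) (a b c : Finset (Fin n) → Finset (Fin r) → ℝ) (x y : ℝ) :
    av n r t i (fun V J => a V J - b V J * x - y * c V J) =
      av n r t i a - av n r t i b * x - y * av n r t i c := by
  unfold av
  simp only [Finset.sum_sub_distrib, ← Finset.sum_mul, ← Finset.mul_sum]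
  ring

/-- sampling in `Fin n`, with its own decidable equality -/
theorem heavy (hSMP : S_SMP) {n : ℕ} {ι : Type} (W : Finset ι) (U : ι → Finset (Fin n)) (t : ℕ)
    (ε : ℝ) (ht : t ≤ n) (h1 : 1 ≤ t) (hε : 0 < ε) (hW : ∀ i ∈ W, ((U i).card : ℝ) ≤ ε * n) :
    ∑ V ∈ powersetCard t (univ : Finset (Fin n)),
      ((W.filter fun i => 2 * ε * t < ((U i ∩ V).card : ℝ)).card : ℝ) ≤
      W.card / (ε ^ 2 * t) * (n.choose t) := by
  have key : ∀ A B : Finset (Fin n),
      @Inter.inter _ (@Finset.instInter _ (fun a b => Classical.propDecidable (a = b))) A B =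
        A ∩ B := fun A B => by
    ext x
    simp only [Finset.mem_inter]
  have h := hSMP (Fin n) ι (univ : Finset (Fin n)) W U t ε (by simpa using ht) h1 hε
    (fun i hi => by
      rw [key, Finset.inter_univ, card_univ, Fintype.card_fin]
      exact hW i hi)
  simp only [key, card_univ, Fintype.card_fin] at h
  exact h

theorem UJ_card {n r w : ℕ} {Z : Finset (Fin n → Bool)}
    {U : Fin r → (Fin n → Bool) → Finset (Fin n)} (hU : Fam n r w Z U) (J : Finset (Fin r))
    (z : Fin n → Bool) (hz : z ∈ Z) : (UJ U J z).card ≤ J.card * w := by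
  unfold UJ
  calc (J.biUnion fun j => U j z).card ≤ ∑ j ∈ J, (U j z).card := card_biUnion_le
    _ ≤ ∑ _j ∈ J, w := Finset.sum_le_sum fun j _ => hU.width j z hz
    _ = J.card * w := by simp

/-- the pair is bad -/
noncomputable def bad {n r : ℕ} (Z : Finset (Fin n → Bool))
    (U : Fin r → (Fin n → Bool) → Finset (Fin n)) (t : ℕ) (ε θ : ℝ) (V : Finset (Fin n))
    (J : Finset (Fin r)) : ℝ :=
  if θ * Z.card < ((Z.filter fun z => 2 * ε * t < ((UJ U Jᶜ z ∩ V).card : ℝ)).card : ℝ) then 1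
  else 0

theorem bad_le {n r : ℕ} {Z : Finset (Fin n → Bool)} (hZ : Z.Nonempty)
    (U : Fin r → (Fin n → Bool) → Finset (Fin n)) (t : ℕ) (ε θ : ℝ) (hθ : 0 < θ)
    (V : Finset (Fin n)) (J : Finset (Fin r)) : bad Z U t ε θ V J ≤
      ((Z.filter fun z => 2 * ε * t < ((UJ U Jᶜ z ∩ V).card : ℝ)).card : ℝ) / (θ * Z.card) := by
  have hZc : (0 : ℝ) < (Z.card : ℝ) := by exact_mod_cast hZ.card_pos
  unfold bad
  split_ifs with h
  · rw [one_le_div (mul_pos hθ hZc)]
    exact h.le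
  · positivity

theorem bad_av (hSMP : S_SMP) {n r w : ℕ} {Z : Finset (Fin n → Bool)} (hZ : Z.Nonempty)
    {U : Fin r → (Fin n → Bool) → Finset (Fin n)} (hU : Fam n r w Z U) {t i : ℕ} {ε θ μ : ℝ}
    (ht1 : 1 ≤ t) (ht : t ≤ n) (hi : i ≤ r) (hε : 0 < ε) (hθ : 0 < θ)
    (hw : ((r : ℝ) - i) * w ≤ ε * n) (hμ : 1 / (ε ^ 2 * t * θ) ≤ μ / 4) :
    av n r t i (bad Z U t ε θ) ≤ μ / 4 := by
  have h1 : (0 : ℝ) < (n.choose t : ℝ) := by exact_mod_cast Nat.choose_pos ht
  have h2 : (0 : ℝ) < (r.choose i : ℝ) := by exact_mod_cast Nat.choose_pos hi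
  have hZc : (0 : ℝ) < (Z.card : ℝ) := by exact_mod_cast hZ.card_pos
  have ht0 : (0 : ℝ) < (t : ℝ) := by exact_mod_cast ht1
  unfold av
  rw [div_le_iff₀ (mul_pos h1 h2), Finset.sum_comm]
  have key : ∀ J ∈ powersetCard i (univ : Finset (Fin r)),
      ∑ V ∈ powersetCard t (univ : Finset (Fin n)), bad Z U t ε θ V J ≤
        μ / 4 * (n.choose t : ℝ) := by
    intro J hJ
    have hJc := (mem_powersetCard.1 hJ).2
    have h3 : ∀ z ∈ Z, ((UJ U Jᶜ z).card : ℝ) ≤ ε * n := by
      intro z hz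
      have h4 : ((UJ U Jᶜ z).card : ℝ) ≤ (Jᶜ.card : ℝ) * w := by
        exact_mod_cast UJ_card hU Jᶜ z hz
      have h5 : (Jᶜ.card : ℝ) = (r : ℝ) - i := by
        rw [card_compl, Fintype.card_fin, hJc, Nat.cast_sub hi]
      rw [h5] at h4
      exact h4.trans hw
    have h6 := heavy hSMP Z (fun z => UJ U Jᶜ z) t ε ht ht1 hε h3
    calc ∑ V ∈ powersetCard t (univ : Finset (Fin n)), bad Z U t ε θ V J
        ≤ ∑ V ∈ powersetCard t (univ : Finset (Fin n)),
          ((Z.filter fun z => 2 * ε * t < ((UJ U Jᶜ z ∩ V).card : ℝ)).card : ℝ) /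
            (θ * Z.card) := Finset.sum_le_sum fun V _ => bad_le hZ U t ε θ hθ V J
      _ = (∑ V ∈ powersetCard t (univ : Finset (Fin n)),
          ((Z.filter fun z => 2 * ε * t < ((UJ U Jᶜ z ∩ V).card : ℝ)).card : ℝ)) /
            (θ * Z.card) := (Finset.sum_div _ _ _).symm
      _ ≤ (Z.card / (ε ^ 2 * t) * (n.choose t)) / (θ * Z.card) :=
          div_le_div_of_nonneg_right h6 (mul_pos hθ hZc).le
      _ = 1 / (ε ^ 2 * t * θ) * (n.choose t : ℝ) := by field_simp
      _ ≤ μ / 4 * (n.choose t : ℝ) := mul_le_mul_of_nonneg_right hμ h1.le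
  refine (Finset.sum_le_sum key).trans (le_of_eq ?_)
  rw [Finset.sum_const, card_powersetCard, card_univ, Fintype.card_fin, nsmul_eq_mul]
  ring

end RSEL

open RSEL in
theorem t_SEL (hSMP : S_SMP) (hAVX : S_AVX) : S_SEL := by
  intro n r w Z hZ U hU t i ε θ μ ρ ht1 ht hi hε hθ hμ hρ hw hO hY hbd
  have ht0 : (0 : ℝ) < (t : ℝ) := by exact_mod_cast ht1
  have hTC : ∀ V J, 0 ≤ TCF Z hZ U V J := (hAVX n r Z hZ U i hi).2.1
  have hb := bad_av hSMP hZ hU ht1 ht hi hε hθ hw hbd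
  have h1 : av n r t i (PhiF Z hZ U) = t * oA Z hZ U t i := by
    unfold oA
    field_simp
  have h2 : av n r t i (TCF Z hZ U) = t * yA Z hZ U t i := by
    unfold yA
    field_simp
  have h3 : μ / 2 * t ≤ av n r t i
      (fun V J => PhiF Z hZ U V J - TCF Z hZ U V J * (1 / ρ) - t * bad Z U t ε θ V J) := by
    rw [av_lin, h1, h2]
    have h4 : t * yA Z hZ U t i * (1 / ρ) ≤ t * (oA Z hZ U t i / 4) := by
      have h5 : yA Z hZ U t i * (1 / ρ) ≤ oA Z hZ U t i / 4 := by
        rw [mul_one_div, div_le_iff₀ hρ]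
        linarith
      calc t * yA Z hZ U t i * (1 / ρ) = t * (yA Z hZ U t i * (1 / ρ)) := by ring
        _ ≤ t * (oA Z hZ U t i / 4) := mul_le_mul_of_nonneg_left h5 ht0.le
    have h6 : t * av n r t i (bad Z U t ε θ) ≤ t * (μ / 4) :=
      mul_le_mul_of_nonneg_left hb ht0.le
    have h7 : t * μ ≤ t * oA Z hZ U t i := mul_le_mul_of_nonneg_left hO ht0.le
    linarith
  obtain ⟨V, J, hV, hJ, hVJ⟩ := pick ht hi _ _ h3
  have hpos : 0 < μ / 2 * t := by positivity
  have hT := hTC V J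
  have hT' : 0 ≤ TCF Z hZ U V J * (1 / ρ) := mul_nonneg hT (by positivity)
  have hbad : bad Z U t ε θ V J = 0 := by
    by_contra hne
    have h8 : bad Z U t ε θ V J = 1 := by
      unfold bad at hne ⊢
      split_ifs at hne ⊢ with h
      · rfl
      · exact absurd rfl hne
    have h9 := Phi_le Z hZ U V J
    rw [hV] at h9
    rw [h8] at hVJ
    linarith
  rw [hbad, mul_zero, sub_zero] at hVJ
  refine ⟨V, J, hV, hJ, by linarith, ?_, ?_⟩
  · have h10 : TCF Z hZ U V J * (1 / ρ) ≤ PhiF Z hZ U V J := by linarith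
    rw [mul_one_div, div_le_iff₀ hρ] at h10
    linarith
  · unfold bad at hbad
    split_ifs at hbad with h
    · exact absurd hbad one_ne_zero
    · exact not_lt.1 h

end Pool.Agent.TKN
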