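import Pool.Agent.TKN.St8

/-!
# Project TKQ, module ST2: the start, averaged
-/

set_option autoImplicit false

open Finset
open scoped Classical

namespace Pool.Agent.TKN

open NCE

theorem t_ST2 (h : S_START) : S_ST2 := by
  intro n r Z hZ U d hd t ht htn
  have ht0 : (0 : ℝ) < t := by exact_mod_cast (show 0 < t by omega)
  have hc : (0 : ℝ) < (n.choose t : ℝ) := by exact_mod_cast Nat.choose_pos htn
  have h1 : (n.choose t : ℝ) * ((t : ℝ) / 2 - d) ≤
      ∑ V ∈ powersetCard t (univ : Finset (Fin n)),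
        ∑ J ∈ powersetCard 0 (univ : Finset (Fin r)), PhiF Z hZ U V J := by
    have h2 : ∀ V ∈ powersetCard t (univ : Finset (Fin n)), (t : ℝ) / 2 - d ≤
        ∑ J ∈ powersetCard 0 (univ : Finset (Fin r)), PhiF Z hZ U V J := by
      intro V hV
      rw [powersetCard_zero, sum_singleton]
      have h3 := h n r Z hZ U V d hd
      rw [(mem_powersetCard.1 hV).2] at h3
      exact h3
    have h4 := card_nsmul_le_sum _ _ _ h2
    rw [card_powersetCard, card_univ, Fintype.card_fin, nsmul_eq_mul] at h4
    exact h4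
  have h5 : (t : ℝ) / 2 - d ≤ av n r t 0 (PhiF Z hZ U) := by
    unfold av
    rw [Nat.choose_zero_right, Nat.cast_one, mul_one, le_div_iff₀ hc, mul_comm]
    exact h1
  unfold oA
  rw [le_div_iff₀ ht0, sub_mul, div_mul_cancel₀ _ ht0.ne']
  linarith

end Pool.Agent.TKN
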