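import Pool.Agent.TKN.St10
import Pool.Agent.TKN.O_UPA

/-!
# Project TKQ: module UAQ

The complement of `fA` (second function) is easy.
-/

set_option autoImplicit false

open Finset

namespace Pool.Agent.TKN.TWO

open Pool.Agent.Lib_helper20.SRO (RectFree Rigid Agrees evenWeight NBP Walk)
open Pool.Agent.URG (VarA VarG VarX deg lg pols zs zs_le Zero)
open Pool.Agent.HPM.Fn (Coord)
open Pool.Agent.TKN.ONE (cop pt blk size BV Bas Lay sw dat inp Aut HardR)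
open Pool.Agent.TKN.ONE.MUPA (Om exists_inj card_Om num)

namespace MUAQ

lemma bad_iff {n e L : ℕ} (β : Coord (deg n e)) (u : VarA n e L → Bool) :
    (∃ x, Bad β x u) ↔ ¬ goodA β u = true := by
  have h0 : goodA β u = true ↔ ∀ l, evenWeight (fun j => u (Sum.inr (l, j))) = true ∧
      ∀ t, Pass β (fun i => u (Sum.inl i)) t (fun j => u (Sum.inr (l, j))) := by
    unfold goodA
    exact @decide_eq_true_iff _ (Classical.propDecidable _)
  rw [h0, not_forall]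
  constructor
  · rintro ⟨x, hx⟩
    rcases x with ⟨t, l⟩ | l
    · exact ⟨l, fun h => hx (h.2 t)⟩
    · exact ⟨l, fun h => hx h.1⟩
  · rintro ⟨l, hl⟩
    by_cases h : evenWeight (fun j => u (Sum.inr (l, j))) = true
    · by_contra hc
      apply hl
      refine ⟨h, fun t => ?_⟩
      by_contra ht
      exact hc ⟨Sum.inl (t, l), ht⟩
    · exact ⟨Sum.inr l, h⟩

/-- the item is bad and its switch is on -/
def PP {M : ℕ} (β : Bas M) (ly : Lay M) (ω : Om M) (v : Fin (size M) → Bool) : Prop :=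
  v (sw ω.1) = true ∧ Bad (β ω.1) ω.2 (inp ly ω.1 v)

lemma fA_iff {M : ℕ} (β : Bas M) (ly : Lay M) (v : Fin (size M) → Bool) :
    (∃ ω, PP β ly ω v) ↔ ¬ fA β ly v = true := by
  unfold fA
  rw [decide_eq_true_eq]
  push Not
  constructor
  · rintro ⟨⟨e, x⟩, h1, h2⟩
    exact ⟨e, h1, (bad_iff _ _).1 ⟨x, h2⟩⟩
  · rintro ⟨e, h1, h2⟩
    obtain ⟨x, hx⟩ := (bad_iff _ _).2 h2
    exact ⟨⟨e, x⟩, h1, hx⟩

lemma aut (hCLO : ONE.S_CLO) (hAUQ : S_AUQ) {M : ℕ} (hd : ∀ e : ℕ, 1 ≤ e → e ≤ blk M →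
    deg (pt M e) e ≤ 3 * lg M) (β : Bas M) (ly : Lay M) (ω : Om M) :
    Aut (size M) (Fin (2 ^ (9 * lg M + 1))) (PP β ly ω) := by
  obtain ⟨e, x⟩ := ω
  have h1 := hAUQ (pt M (e.val + 1)) (e.val + 1) (cop (e.val + 1)) (size M) (β e)
    (fun w => dat (ly.pos e w))
    (fun a b h => ly.inj e (Fin.natAdd_injective _ _ h))
    (fun t i p => (Fin.natAdd_lt_natAdd_iff _).2 (ly.lt₁ e t i p))
    (fun t q p => (Fin.natAdd_lt_natAdd_iff _).2 (ly.lt₂ e t q p)) x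
  have h2 := hCLO.2.1 (size M) (sw e) (fun b => b = true)
  have h3 := hCLO.2.2.1 (size M) _ _ _ _ And h2 h1
  have hlg := Pool.Agent.URG.lg_pos (pt M (e.val + 1))
  have hdeg := hd (e.val + 1) (by omega) (by have := e.isLt; omega)
  obtain ⟨j, hj⟩ := exists_inj (deg (pt M (e.val + 1)) (e.val + 1)) (9 * lg M + 1)
    (by unfold deg; omega) (by omega)
  exact hCLO.2.2.2 (size M) _ _ j _ hj h3

end MUAQ

open MUAQ in
theorem t_UAQ (hCLO : ONE.S_CLO) (hNBP : ONE.S_NBP) (hAUQ : S_AUQ) (hSIZ : ONE.S_SIZ) : S_UAQ := by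
  intro M hM β ly
  obtain ⟨⟨hs1, hs2⟩, -, hsz⟩ := hSIZ M hM
  have hM0 : M ≠ 0 := by
    have : 1 ≤ M := le_trans (by norm_num) hM
    omega
  have hP : ∀ ω : Om M, Aut (size M) (Fin (2 ^ (9 * lg M + 1))) (PP β ly ω) := fun ω =>
    aut hCLO hAUQ (fun e h1 h2 => (hsz e h1 h2).2.2.2.2.2.2.1) β ly ω
  obtain ⟨Q, hQ, G, h1, h2, h3⟩ := hNBP (size M) (Fin (2 ^ (9 * lg M + 1))) (Om M) (PP β ly) hP
  refine ⟨Q, hQ, G, h1, fun v => ?_, ?_⟩
  · rw [h2 v, fA_iff β ly v]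
    cases hf : fA β ly v <;> simp [hf]
  · rw [h3, Fintype.card_fin]
    exact num hM hs1 hs2 (card_Om hM0 fun e h4 h5 =>
      ⟨(hsz e h4 h5).2.2.2.1, (hsz e h4 h5).2.2.2.2.1⟩)

end Pool.Agent.TKN.TWO
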