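import Pool.Agent.TKN.St10

/-!
# Project TKQ: the function with two kinds of tests is in PP mode of automata
-/

set_option autoImplicit false

open Finset

namespace Pool.Agent.TKN.TWO

open Pool.Agent.URG (VarA VarG VarX deg lg pols)
open Pool.Agent.TKN.ONE (cop pt blk size BV Bas Lay sw dat inp Aut HardR)
open Pool.Agent.HPM (DecOs)
open Pool.Agent.HPM.SCH (inPP_of_count)
open Pool.Agent.HPM.Fn (Coord)
open Pool.Agent.Lib_helper20.SRO (evenWeight)

namespace MUFQ

/-- the items of the function with the parameter `e` -/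
abbrev It (M e : ℕ) : Type := (Fin (pols (pt M e) e) × Fin (cop e)) ⊕ Fin (cop e)

/-- all items -/
abbrev Om (M : ℕ) : Type := Σ e : Fin (blk M), It M (e.val + 1)

/-- the switch is on and the item is bad -/
def Ps {M : ℕ} (β : Bas M) (ly : Lay M) (ω : Om M) (v : Fin (size M) → Bool) : Prop :=
  v (sw ω.1) = true ∧ Bad (β ω.1) ω.2 (inp ly ω.1 v)

lemma good_iff {n e L : ℕ} (β : Coord (deg n e)) (u : VarA n e L → Bool) :
    goodA β u = true ↔ ∀ x, ¬ Bad β x u := by
  classical
  unfold goodA
  rw [decide_eq_true_iff]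
  unfold Good
  constructor
  · rintro h (⟨t, l⟩ | l) hb
    · exact hb ((h l).2 t)
    · exact hb (h l).1
  · intro h l
    refine ⟨?_, fun t => ?_⟩
    · by_contra hc
      exact h (Sum.inr l) hc
    · by_contra hc
      exact h (Sum.inl (t, l)) hc

lemma fA_iff {M : ℕ} (β : Bas M) (ly : Lay M) (v : Fin (size M) → Bool) :
    fA β ly v = true ↔ ∀ ω, ¬ Ps β ly ω v := by
  classical
  unfold fA
  rw [decide_eq_true_iff]
  constructor
  · rintro h ⟨e, x⟩ ⟨h1, h2⟩
    exact (good_iff _ _).1 (h e h1) x h2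
  · intro h e he
    rw [good_iff]
    intro x hx
    exact h ⟨e, x⟩ ⟨he, hx⟩

lemma fF_iff {M : ℕ} (β : Bas M) (ly : Lay M) (v : Fin (size M + 1) → Bool) :
    fF β ly v = true ↔
      ((∀ ω, ¬ Ps β ly ω (fun i => v i.castSucc)) ↔ v (Fin.last _) = true) := by
  classical
  unfold fF
  rw [decide_eq_true_iff, fA_iff]

/-- the members -/
def Mem {M : ℕ} (β : Bas M) (ly : Lay M) (k : ℕ) :
    Om M ⊕ Fin k → (Fin (size M + 1) → Bool) → Prop
  | Sum.inl ω, v => Ps β ly ω (fun i => v i.castSucc) ↔ v (Fin.last _) = false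
  | Sum.inr _, v => v (Fin.last _) = false

lemma count_iff {M : ℕ} (β : Bas M) (ly : Lay M) (hne : 1 ≤ Fintype.card (Om M))
    (v : Fin (size M + 1) → Bool) :
    fF β ly v = true ↔ Fintype.card (Om M) - 1 <
      Nat.card {ω // Mem β ly (Fintype.card (Om M) - 1) ω v} := by
  classical
  rw [fF_iff, Nat.card_congr (Equiv.subtypeSum), Nat.card_sum]
  have e1 : Nat.card {ω : Om M // Mem β ly (Fintype.card (Om M) - 1) (Sum.inl ω) v} =
      (univ.filter fun ω : Om M => Ps β ly ω (fun i => v i.castSucc) ↔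
        v (Fin.last _) = false).card := by
    rw [Nat.card_eq_fintype_card, Fintype.card_subtype]
    congr 1
    ext ω
    rw [mem_filter, mem_filter]
    exact Iff.rfl
  rw [e1]
  rcases hp : v (Fin.last _) with _ | _
  · have e2 : Nat.card {a : Fin (Fintype.card (Om M) - 1) //
        Mem β ly (Fintype.card (Om M) - 1) (Sum.inr a) v} = Fintype.card (Om M) - 1 := by
      have : ∀ a : Fin (Fintype.card (Om M) - 1),
          Mem β ly (Fintype.card (Om M) - 1) (Sum.inr a) v := fun a => hp
      rw [Nat.card_congr (Equiv.subtypeUnivEquiv this), Nat.card_fin]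
    rw [e2]
    simp only [Bool.false_eq_true, iff_false, not_forall, not_not, iff_true]
    constructor
    · rintro ⟨ω, hω⟩
      have : 0 < (univ.filter fun ω : Om M => Ps β ly ω (fun i => v i.castSucc)).card :=
        card_pos.2 ⟨ω, mem_filter.2 ⟨mem_univ _, hω⟩⟩
      omega
    · intro h
      have : 0 < (univ.filter fun ω : Om M => Ps β ly ω (fun i => v i.castSucc)).card := by
        omega
      obtain ⟨ω, hω⟩ := card_pos.1 this
      exact ⟨ω, (mem_filter.1 hω).2⟩
  · have e2 : Nat.card {a : Fin (Fintype.card (Om M) - 1) //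
        Mem β ly (Fintype.card (Om M) - 1) (Sum.inr a) v} = 0 := by
      rw [Nat.card_eq_zero]
      left
      refine ⟨fun a => ?_⟩
      have h1 : v (Fin.last _) = false := a.2
      rw [hp] at h1
      exact absurd h1 (by simp)
    rw [e2]
    simp only [iff_true, Bool.true_eq_false, iff_false, add_zero]
    have h1 := card_filter_le (univ : Finset (Om M)) (fun ω => ¬ Ps β ly ω (fun i => v i.castSucc))
    have h2 : (univ.filter fun ω : Om M => ¬ Ps β ly ω (fun i => v i.castSucc)).card =
        (univ : Finset (Om M)).card ↔ ∀ ω : Om M, ¬ Ps β ly ω (fun i => v i.castSucc) := by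
      rw [card_filter_eq_iff]
      simp
    rw [← h2]
    rw [card_univ] at h1 ⊢
    omega

lemma lg_le (M : ℕ) (hM : 1 ≤ M) : lg M ≤ M := by
  unfold lg
  exact Nat.log_lt_self 2 (by omega)

lemma two_pow_lg (M : ℕ) (hM : 1 ≤ M) : 2 ^ lg M ≤ 2 * M := by
  unfold lg
  rw [pow_succ, mul_comm]
  exact Nat.mul_le_mul_left 2 (Nat.pow_log_le_self 2 (by omega))

end MUFQ

open MUFQ in
theorem t_UFQ (hCLO : ONE.S_CLO) (hDEC : ONE.S_DEC) (hAUT : S_AUQ) (hSIZ : ONE.S_SIZ) : S_UFQ := by
  classical
  intro M hM β ly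
  obtain ⟨⟨hs1, hs2⟩, hb1, hsz⟩ := hSIZ M hM
  obtain ⟨c1, c2, c3, c4⟩ := hCLO
  have hM1 : 1 ≤ M := le_trans Nat.one_le_two_pow hM
  have hMbig : 4 ≤ M := le_trans (by norm_num) hM
  have hsM : 2 * M ≤ size M := hs1
  -- the number of the items
  have hK : Fintype.card (Om M) ≤ M * (M * M + M) := by
    rw [Fintype.card_sigma]
    calc ∑ e : Fin (blk M), Fintype.card (It M (e.val + 1))
        ≤ ∑ e : Fin (blk M), (M * M + M) := by
          refine sum_le_sum fun e _ => ?_
          obtain ⟨-, -, -, h1, h2, -⟩ := hsz (e.val + 1) (by omega) (by have := e.2; omega)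
          rw [Fintype.card_sum, Fintype.card_prod, Fintype.card_fin, Fintype.card_fin]
          exact Nat.add_le_add (Nat.mul_le_mul h2 h1) h1
      _ = blk M * (M * M + M) := by simp
      _ ≤ M * (M * M + M) := Nat.mul_le_mul_right _
          (((Nat.div_le_self _ _).trans (lg_le M hM1)))
  have hne : 1 ≤ Fintype.card (Om M) := by
    have h1 := (hsz 1 le_rfl hb1).2.2.1
    exact Fintype.card_pos_iff.2 ⟨⟨⟨0, hb1⟩, Sum.inr ⟨0, h1⟩⟩⟩
  set K := Fintype.card (Om M) with hKdef
  -- the automata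
  obtain ⟨V, hV⟩ : ∃ V : Type, V = Fin (2 ^ (9 * lg M + 2)) := ⟨_, rfl⟩
  have hVf : Fintype V := by rw [hV]; infer_instance
  have hVc : Fintype.card V = 2 ^ (9 * lg M + 2) := by
    subst hV
    rw [← Nat.card_eq_fintype_card, Nat.card_fin]
  have hVn : Nonempty V := by
    rw [← Fintype.card_pos_iff, hVc]
    positivity
  have emb : ∀ (U : Type) [Finite U] (P : (Fin (size M + 1) → Bool) → Prop),
      Nat.card U ≤ 2 ^ (9 * lg M + 2) → Aut (size M + 1) U P → Aut (size M + 1) V P := by
    intro U _ P hU hA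
    have : Fintype U := Fintype.ofFinite U
    rw [Nat.card_eq_fintype_card, ← hVc] at hU
    obtain ⟨j⟩ := Function.Embedding.nonempty_of_card_le hU
    exact c4 _ _ _ j P j.injective hA
  have hpos : 0 < size M + 1 := Nat.succ_pos _
  have hlast : Aut (size M + 1) Bool (fun v => v (Fin.last _) = false) :=
    c2 _ (Fin.last _) (fun b => b = false)
  have hmem : ∀ ω, Aut (size M + 1) V (Mem β ly (K - 1) ω) := by
    rintro (⟨e, x⟩ | p)
    · obtain ⟨h2, -, -, -, -, -, hdeg, -⟩ := hsz (e.val + 1) (by omega) (by have := e.2; omega)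
      have hA := hAUT (pt M (e.val + 1)) (e.val + 1) (cop (e.val + 1)) (size M + 1) (β e)
        (fun w => (dat (ly.pos e w)).castSucc) (fun w w' h => ly.inj e (by
          have h3 := Fin.castSucc_injective _ h
          exact Fin.natAdd_injective _ _ h3))
        (fun t i p => by
          have := ly.lt₁ e t i p
          rw [Fin.lt_def] at this ⊢
          simp only [dat, Fin.val_castSucc, Fin.val_natAdd]
          omega)
        (fun t q p => by
          have := ly.lt₂ e t q p
          rw [Fin.lt_def] at this ⊢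
          simp only [dat, Fin.val_castSucc, Fin.val_natAdd]
          omega) x
      have hS : Aut (size M + 1) Bool (fun v => v (sw e).castSucc = true) :=
        c2 _ (sw e).castSucc (fun b => b = true)
      have h4 := c3 _ _ _ _ _ (fun A B => (A ↔ B))
        (c3 _ _ _ _ _ (fun A B => A ∧ B) hS hA) hlast
      refine emb _ _ ?_ h4
      have hne0 : deg (pt M (e.val + 1)) (e.val + 1) ≠ 0 := by
        unfold Pool.Agent.URG.deg Pool.Agent.URG.lg
        omega
      rw [Nat.card_prod, Nat.card_prod, Nat.card_prod, Nat.card_prod, GaloisField.card 2 _ hne0,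
        Nat.card_eq_fintype_card, Fintype.card_bool]
      calc 2 * (2 ^ deg (pt M (e.val + 1)) (e.val + 1) * (2 ^ deg (pt M (e.val + 1)) (e.val + 1) *
            2 ^ deg (pt M (e.val + 1)) (e.val + 1))) * 2
          = 2 ^ (3 * deg (pt M (e.val + 1)) (e.val + 1) + 2) := by ring
        _ ≤ 2 ^ (9 * lg M + 2) := Nat.pow_le_pow_right (by norm_num) (by omega)
    · refine emb Bool _ ?_ hlast
      rw [Nat.card_eq_fintype_card, Fintype.card_bool]
      calc 2 = 2 ^ 1 := rfl
        _ ≤ _ := Nat.pow_le_pow_right (by norm_num) (by omega)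
  refine ⟨V, hVf, (Nat.log 2 K + 1) + 1, ?_, ?_, ?_⟩
  · rw [hVc]
    have h1 := two_pow_lg M hM1
    calc 2 ^ (9 * lg M + 2) = (2 ^ lg M) ^ 9 * 4 := by rw [pow_add, mul_comm 9, pow_mul]; norm_num
      _ ≤ (size M) ^ 9 * (size M) ^ 15 := by
          refine Nat.mul_le_mul (Nat.pow_le_pow_left (h1.trans hsM) 9) ?_
          calc 4 ≤ size M := by omega
            _ = size M ^ 1 := (pow_one _).symm
            _ ≤ size M ^ 15 := Nat.pow_le_pow_right (by omega) (by norm_num)
      _ = size M ^ 24 := by rw [← pow_add]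
  · have h1 : 2 ^ Nat.log 2 K ≤ K := Nat.pow_log_le_self 2 (by omega)
    calc 2 ^ (Nat.log 2 K + 1 + 1) = 4 * 2 ^ Nat.log 2 K := by ring
      _ ≤ 4 * (M * (M * M + M)) := Nat.mul_le_mul_left _ (h1.trans hK)
      _ ≤ (2 * M) ^ 3 := by
          have : M ≤ M * M := Nat.le_mul_of_pos_left M hM1
          calc 4 * (M * (M * M + M)) ≤ 4 * (M * (M * M + M * M)) :=
                Nat.mul_le_mul_left _ (Nat.mul_le_mul_left _ (Nat.add_le_add_left this _))
            _ = (2 * M) ^ 3 := by ring
      _ ≤ size M ^ 3 := Nat.pow_le_pow_left hsM 3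
      _ ≤ size M ^ 24 := Nat.pow_le_pow_right (by omega) (by norm_num)
  · have hlog : K < 2 ^ (Nat.log 2 K + 1) := Nat.lt_pow_succ_log_self (by norm_num) _
    refine inPP_of_count (hDEC _ _ _ hpos (c1 _ _ True)) (hDEC _ _ _ hpos (c1 _ _ False))
      (Mem β ly (K - 1)) (fun ω => hDEC _ _ _ hpos (hmem ω)) (Nat.log 2 K + 1) (K - 1) ?_ ?_ _
      fun x => count_iff β ly hne x
    · omega
    · rw [Fintype.card_sum, Fintype.card_fin, ← hKdef]
      omega

end Pool.Agent.TKN.TWO
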