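import Pool.Agent.TKN.St10
import Pool.Agent.URG.Uni

/-!
# TKQ, UNQ: the union bound for tests that are passed with probability `1 - 2 ^ (- s)`

After `Pool.Agent.URG.Uni`.
-/

set_option autoImplicit false

open Finset

namespace Pool.Agent.TKN.TWO

open Pool.Agent.Lib_helper20.SRO (RectFree)
open Pool.Agent.Lib_helper20.LG.Av (card_all mix Zof)

/-- UNQ -/
theorem t_UNQ : S_UNQ := by
  intro n S _ _ s w K m g E hs hE h1 h2 h3
  classical
  by_contra hcon
  push Not at hcon
  set Ω := Fintype.card (Fin K → S) with hΩ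
  have hΩ0 : 0 < Ω := Fintype.card_pos
  have hΩS : Ω = Fintype.card S ^ K := by
    rw [hΩ, Fintype.card_fun, Fintype.card_fin]
  have hs2 : 2 ≤ 2 ^ s := by
    calc 2 = 2 ^ 1 := rfl
      _ ≤ 2 ^ s := Nat.pow_le_pow_right (by norm_num) hs
  obtain ⟨a, ha⟩ : ∃ a, a = 2 ^ s - 1 := ⟨_, rfl⟩
  have ha1 : 1 ≤ a := by omega
  have hab : 2 ^ s ≤ 2 * a := by omega
  rw [← ha] at h1
  simp only [← ha] at hcon
  -- the bad families
  set B : Finset (Fin K → S) := univ.filter (fun P =>
    ¬ RectFree (fun x => decide (∀ t, g (P t) x = true)) m) with hB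
  have hBcard : 2 ^ (w * K) * B.card ≤ 2 ^ (n + 2 * (n * m)) * Ω := by
    set I := (univ : Finset (Finset (Fin n) × (Fin m → Fin n → Bool) ×
      (Fin m → Fin n → Bool))).filter (fun i => (Zof i).card = m * m) with hI
    have a1 : B ⊆ I.biUnion (fun i => univ.filter
        (fun P : Fin K → S => ∀ t, ∀ z ∈ Zof i, g (P t) z = true)) := by
      intro P hP
      rw [hB, mem_filter] at hP
      obtain ⟨i, hi1, hi2⟩ := URG.UNI.rect g P hP.2
      rw [mem_biUnion]
      refine ⟨i, ?_, ?_⟩
      · rw [hI, mem_filter]; exact ⟨mem_univ _, hi1⟩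
      · rw [mem_filter]; exact ⟨mem_univ _, hi2⟩
    have a3 : ∀ i ∈ I, 2 ^ (w * K) * (univ.filter (fun P : Fin K → S =>
        ∀ t, ∀ z ∈ Zof i, g (P t) z = true)).card ≤ Ω := by
      intro i hi
      rw [card_all (fun σ : S => ∀ z ∈ Zof i, g σ z = true), hΩS, pow_mul, ← mul_pow]
      exact Nat.pow_le_pow_left (h2 (Zof i) (mem_filter.mp hi).2) K
    have a2 : 2 ^ (w * K) * B.card ≤ ∑ i ∈ I, Ω := by
      refine (Nat.mul_le_mul_left _ ((card_le_card a1).trans card_biUnion_le)).trans ?_
      rw [Finset.mul_sum]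
      exact Finset.sum_le_sum a3
    rw [Finset.sum_const, smul_eq_mul] at a2
    refine a2.trans (Nat.mul_le_mul_right _ ?_)
    refine (card_filter_le _ _).trans ?_
    rw [card_univ]
    simp only [Fintype.card_prod, Fintype.card_finset, Fintype.card_fin, Fintype.card_fun,
      Fintype.card_bool]
    rw [← pow_mul, ← pow_add, ← pow_add]
    refine Nat.pow_le_pow_right (by norm_num) (le_of_eq ?_)
    ring
  -- the sum of the numbers of accepted points
  set acc : (Fin K → S) → ℕ := fun P =>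
    (E.filter (fun x : Fin n → Bool => decide (∀ t, g (P t) x = true) = true)).card
    with hacc
  have hup : ∀ P, 2 ^ (s * K + 1) * acc P ≤
      (if P ∈ B then 2 ^ (s * K + 1) * E.card else 0) + a ^ K * E.card := by
    intro P
    by_cases hP : P ∈ B
    · rw [if_pos hP]
      have h4 : acc P ≤ E.card := card_filter_le _ _
      have h5 := Nat.mul_le_mul_left (2 ^ (s * K + 1)) h4
      exact h5.trans (Nat.le_add_right _ _)
    · rw [if_neg hP, zero_add]
      rw [hB, mem_filter, not_and, not_not] at hP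
      exact (hcon _ (hP (mem_univ _))).le
  have hsum1 : 2 ^ (s * K + 1) * ∑ P, acc P ≤
      B.card * (2 ^ (s * K + 1) * E.card) + Ω * (a ^ K * E.card) := by
    rw [Finset.mul_sum]
    refine (Finset.sum_le_sum (fun P _ => hup P)).trans ?_
    rw [Finset.sum_add_distrib, Finset.sum_ite_mem, Finset.univ_inter, Finset.sum_const,
      Finset.sum_const, smul_eq_mul, smul_eq_mul, card_univ]
  have hoff : ∀ b : Fin n → Bool, 2 ^ (s * K) *
      (univ.filter (fun P : Fin K → S => ∀ t, g (P t) b = true)).card = a ^ K * Ω := by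
    intro b
    rw [card_all (fun σ : S => g σ b = true), hΩS, pow_mul, ← mul_pow, h1, mul_pow]
  have hsum2 : 2 ^ (s * K) * ∑ P, acc P = E.card * (a ^ K * Ω) := by
    have e1 : ∑ P, acc P = ∑ b ∈ E,
        (univ.filter (fun P : Fin K → S => ∀ t, g (P t) b = true)).card := by
      have e2 : ∀ P, acc P = ∑ b ∈ E,
          if (∀ t, g (P t) b = true) then 1 else 0 := by
        intro P
        rw [← card_filter]
        simp only [hacc]
        refine congrArg Finset.card (Finset.filter_congr fun b _ => ?_)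
        simp
      rw [Finset.sum_congr rfl (fun P _ => e2 P), Finset.sum_comm]
      refine Finset.sum_congr rfl fun b _ => ?_
      rw [← card_filter]
    have e4 : ∑ _b ∈ E, a ^ K * Ω = E.card * (a ^ K * Ω) := by
      rw [Finset.sum_const, smul_eq_mul]
    rw [e1, Finset.mul_sum, ← e4]
    exact Finset.sum_congr rfl (fun b _ => hoff b)
  -- conclusion
  have f1 : E.card * (a ^ K * Ω) ≤ E.card * (2 ^ (s * K + 1) * B.card) := by
    have h4 : 2 ^ (s * K + 1) * ∑ P, acc P = 2 * (2 ^ (s * K) * ∑ P, acc P) := by ring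
    rw [h4, hsum2] at hsum1
    have h3 : B.card * (2 ^ (s * K + 1) * E.card) = E.card * (2 ^ (s * K + 1) * B.card) := by ring
    have h5 : Ω * (a ^ K * E.card) = E.card * (a ^ K * Ω) := by ring
    rw [h3, h5] at hsum1
    omega
  have f2 : a ^ K * Ω ≤ 2 ^ (s * K + 1) * B.card := Nat.le_of_mul_le_mul_left f1 hE
  have f3 : 2 ^ (n + 2 * (n * m)) * (2 ^ (K + 2) * B.card) ≤ 2 ^ (n + 2 * (n * m)) * Ω := by
    refine le_trans ?_ hBcard
    rw [← mul_assoc, ← pow_add]
    refine Nat.mul_le_mul_right _ (Nat.pow_le_pow_right (by norm_num) ?_)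
    omega
  have f4 : 2 ^ (K + 2) * B.card ≤ Ω := Nat.le_of_mul_le_mul_left f3 (by positivity)
  have haK : 0 < a ^ K := by positivity
  have f5 : 0 < B.card := by
    rcases Nat.eq_zero_or_pos B.card with h0 | h0
    · rw [h0, mul_zero] at f2
      have := Nat.mul_pos haK hΩ0
      omega
    · exact h0
  have f6 : a ^ K * (2 ^ (K + 2) * B.card) ≤ 2 ^ (s * K + 1) * B.card :=
    (Nat.mul_le_mul_left _ f4).trans f2
  have f7 : (2 ^ s) ^ K ≤ (2 * a) ^ K := Nat.pow_le_pow_left hab K
  have f8 : a ^ K * (2 ^ (K + 2) * B.card) = 4 * (2 * a) ^ K * B.card := by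
    rw [mul_pow]
    ring
  have f9 : 2 ^ (s * K + 1) * B.card = 2 * (2 ^ s) ^ K * B.card := by
    rw [pow_succ, pow_mul]
    ring
  rw [f8, f9] at f6
  have f10 := Nat.le_of_mul_le_mul_right f6 f5
  have f11 : 0 < (2 ^ s) ^ K := by positivity
  omega

end Pool.Agent.TKN.TWO
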