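import Pool.Agent.TKN.Defs

/-!
# Project TKN: statements, part 1 (entropy, noise, the hazard inequality)

Every module proves one `S_XXX` as `theorem Pool.Agent.TKN.t_XXX : S_XXX`, or, if it uses other
statements, `theorem t_XXX (h : S_YYY) ... : S_XXX` with exactly the hypotheses named in the
doc string, in this order; so nobody waits.  The landed entropy library NCE may be used freely:
`NCE.t_DET : S_DET`, `NCE.t_SUB : S_DET → S_SUB`, `NCE.t_GIB`, `NCE.t_CNT : S_GIB → S_CNT`,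
`NCE.t_CON : S_CON` (files Pool/Agent/NCE/{DET,SUB,GIB,CNT,CND}.lean).
-/

set_option autoImplicit false

open Finset
open scoped Classical

namespace Pool.Agent.TKN

open NCE

/-- DTS.  Data processing on the support.
Proof: as `NCE.t_DET` (in `pr` only points of positive weight contribute). -/
def S_DTS : Prop := ∀ (Ω : Type) [Fintype Ω] (P : FP Ω) (α β : Type) (V : Ω → α) (W : Ω → β),
  DetS P V W → H P W ≤ H P V

/-- SBS (uses `NCE.S_SUB` and `S_DTS`).  Submodularity on the support.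
Proof: if some `ω₀` has positive weight (the weights have sum 1), let `ρ ω = ω` if `p ω ≠ 0` and
`ω₀` otherwise; replace every variable `X` by `X ∘ ρ` (the entropy is the same, by DTS in both
directions), and apply `S_SUB`. -/
def S_SBS : Prop := ∀ (Ω : Type) [Fintype Ω] (P : FP Ω) (α β γ δ : Type)
  (U : Ω → α) (V₁ : Ω → β) (V₂ : Ω → γ) (W : Ω → δ), DetS P V₁ U → DetS P V₂ U →
    DetS P (fun ω => (V₁ ω, V₂ ω)) W → H P W + H P U ≤ H P V₁ + H P V₂

/-- SBA (uses `S_DTS`, `S_SBS`).  Subadditivity of the conditional entropy of a word; the letters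
outside `V` are functions of `F`.
Proof: induction on `V`, for the words `fun ω v => if v ∈ V then X ω v else x₀`-like restrictions
(for example `fun ω v => if v ∈ V then some (X ω v) else none`):
`H (F, X|(insert v V)) + H F ≤ H (F, X|V) + H (F, X v)` by SBS.  At the end `(F, X)` and
`(F, X|V)` determine each other on the support. -/
def S_SBA : Prop := ∀ (Ω : Type) [Fintype Ω] (P : FP Ω) (γ β : Type) (F : Ω → γ) (n : ℕ)
  (X : Ω → Fin n → β) (V : Finset (Fin n)),
  (∀ v, v ∉ V → DetS P F (fun ω => X ω v)) →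
    CH P F X ≤ ∑ v ∈ V, CH P F (fun ω => X ω v)

/-- BIN.  The conditional entropy of a bit.
Proof: both sides are sums over the pairs `(F ω, b ω)`; for a value `f` of `F` of probability `M`
with `m c = pr (F, b) (f, c)` both are `M * binEntropy (m true / M)`.  In detail:
`H (F, b) - H F = ex (log (pr F (F ω) / pr (F, b) (F ω, b ω)))`; group the points `ω` by `F ω`,
`b ω` (`ex f = ∑ over the finite set of the values of (F, b)`), and `opp = m (!c) / M`,
`m c / M = 1 - opp` on the points of positive weight. -/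
def S_BIN : Prop := ∀ (Ω : Type) [Fintype Ω] (P : FP Ω) (γ : Type) (F : Ω → γ) (b : Ω → Bool),
  CH P F b = ex P (fun ω => Real.binEntropy (opp P F b ω))

/-- NOI.  Independent noise bits `ζ v` with the probabilities `e ω v`.
Proof: `Ω' = Ω × (Fin n → Bool)`, weight `P.p ω * ∏ v, (if ζ v then e ω v else 1 - e ω v)`.
For the entropy: `log` of the weight is the sum of the logs (points of weight 0 do not count), and
`∑ over ζ of (∏ ...) * g (ζ v)` is `e * g true + (1 - e) * g false` (`Finset.prod_univ_sum`,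
`Fintype.piFinset_univ`). -/
def S_NOI : Prop := ∀ (Ω : Type) [Fintype Ω] (P : FP Ω) (n : ℕ) (e : Ω → Fin n → ℝ),
  (∀ ω v, 0 ≤ e ω v ∧ e ω v ≤ 1) →
  ∃ (Ω' : Type) (_ : Fintype Ω') (P' : FP Ω') (π : Ω' → Ω) (ζ : Ω' → Fin n → Bool),
    SL P' π P id ∧
    (∀ q, P'.p q ≠ 0 → P.p (π q) ≠ 0 ∧ ∀ v, (ζ q v = true → e (π q) v ≠ 0) ∧
      (ζ q v = false → e (π q) v ≠ 1)) ∧
    (∀ (v : Fin n) (f : Ω → Bool → ℝ), ex P' (fun q => f (π q) (ζ q v)) =
      ex P (fun ω => e ω v * f ω true + (1 - e ω v) * f ω false)) ∧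
    H P' (fun q => (π q, ζ q)) = H P id + ∑ v, ex P (fun ω => Real.binEntropy (e ω v))

/-- HE1.  Proof: concavity of `x ↦ binEntropy (x e) - x binEntropy e` on `[0, 1]`, with value `0`
and derivative `log (1 - e)` at `x = 1`, so it is `≤ (1 - x) * (- log (1 - e))`, and
`- log (1 - e) ≤ 2 e log 2` for `0 ≤ e ≤ 1 / 2` (convexity, equality at `0` and `1 / 2`). -/
def S_HE1 : Prop := ∀ x e : ℝ, 0 ≤ x → x ≤ 1 → 0 ≤ e → e ≤ 1 / 2 →
  Real.binEntropy (x * e) - x * Real.binEntropy e ≤ (1 - x) * (2 * Real.log 2 * e)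

/-- HE2.  Proof: second derivative: `- h'' = 1 / (p (1 - p)) ≥ 4`. -/
def S_HE2 : Prop := ∀ p : ℝ, 0 ≤ p → p ≤ 1 →
  2 * (p - 1 / 2) ^ 2 ≤ Real.log 2 - Real.binEntropy p

/-- HE3.  Proof: `4 log 2 * p (1 - p) ≤ binEntropy p` (equality at `0`, `1 / 2`, `1`; the difference
`g = binEntropy p - 4 log 2 * p (1 - p)` is symmetric, `g'' = - 1 / (p (1 - p)) + 8 log 2` is
negative near `0` and positive near `1 / 2`, `g' (1 / 2) = 0`, so `g` first increases and then
decreases on `[0, 1 / 2]`). -/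
def S_HE3 : Prop := ∀ p : ℝ, 0 ≤ p → p ≤ 1 →
  Real.log 2 - Real.binEntropy p ≤ 4 * Real.log 2 * (p - 1 / 2) ^ 2

/-- RI (uses `S_HE1`, `S_HE2`, `S_HE3`).  The inequality for one bit, given the value of `F`.
`a c t` is the mass of (bit `= c`, pattern `t`, bit not read), `r c` the mass of (bit `= c`, read).
Proof (note TKN (2)): with `A c = ∑ t, a c t`, `m c = A c + r c`, `M = m true + m false`,
`e c = m (!c) / (2 M)`, `N c = A c * e c`.  If `m true = 0` or `m false = 0` both sides vanish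
(up to signs; division by `0` is `0`).  Otherwise let `x c = A c / m c`, `p c t = a c t / m c`,
`G = m true * m false / M ^ 2`.  HE1: `A c h(e c) - m c h(A c e c / m c) ≥ - r c * 2 log 2 * e c`,
in total `- log 2 * ∑ r c * m (!c) / M`.  The last two terms: `a c t * e c = p c t * M * G / 2`,
`(N t + N f) h(..) - ∑ t (..) h(..) = (M G / 2) * [(x₁+x₀) h(x₁/(x₁+x₀)) - ∑ t (p₁+p₀) h(p₁/(p₁+p₀))]`
and the bracket is `∑ t (p₁+p₀)(log 2 - h(p₁/(p₁+p₀))) - (x₁+x₀)(log 2 - h(x₁/(x₁+x₀)))`, which by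
HE2 and HE3 is at least `∑ t (p₁ t - p₀ t)^2/(2 (p₁ t + p₀ t)) - log 2 * |x₁ - x₀|`, and
`|x₁ - x₀| ≤ (1 - x₁) + (1 - x₀)`.  On the other side
`2 m₁ m₀ / M - ∑ t 2 a₁ a₀/(a₁+a₀) = 2 M G (1 - ∑ t p₁ p₀/(π₁ p₁ + π₀ p₀))`, `π c = m c / M`, and
`π₁ p₀ + π₀ p₁ - p₁ p₀/(π₁ p₁ + π₀ p₀) = π₁π₀(p₁-p₀)²/(π₁p₁+π₀p₀) ≤ (p₁-p₀)²/(p₁+p₀)`,
`∑ t (π₁ p₀ t + π₀ p₁ t) = π₁ x₀ + π₀ x₁ ≥ 1 - (1 - x₁) - (1 - x₀)`.
Numerically checked (constants `1/8`, `13/10` have room). -/
def S_RI : Prop := ∀ (ι : Type) (T : Finset ι) (a : Bool → ι → ℝ) (r A m e : Bool → ℝ) (M : ℝ),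
  (∀ c, ∀ t ∈ T, 0 ≤ a c t) → (∀ c, 0 ≤ r c) → (∀ c, A c = ∑ t ∈ T, a c t) →
  (∀ c, m c = A c + r c) → M = m true + m false → (∀ c, e c = m (!c) / (2 * M)) →
  (1 / 8) * (2 * m true * m false / M -
      ∑ t ∈ T, 2 * a true t * a false t / (a true t + a false t)) -
    (13 / 10) * (r true * m false / M + r false * m true / M) ≤
  (A true * Real.binEntropy (e true) - m true * Real.binEntropy (A true * e true / m true)) +
  (A false * Real.binEntropy (e false) - m false * Real.binEntropy (A false * e false / m false)) +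
  (A true * e true + A false * e false) *
    Real.binEntropy (A true * e true / (A true * e true + A false * e false)) -
  ∑ t ∈ T, (a true t * e true + a false t * e false) *
    Real.binEntropy (a true t * e true / (a true t * e true + a false t * e false))

/-- SBI (uses `S_DTS`, `S_BIN`, `S_RI`).  The inequality for one bit `b`, given `F`; `T` is the
pattern, `u` says that the bit is read (a function of `T`, and then the bit is a function of `T`).
The noise bit `ζ` erases the bit with probability `opp / 2` if it is not read.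
Proof: let `W = if ζ then none else some b`.  (a) `(F, W, b)` and `(F, b, ζ)` determine each other,
so `CH (F) W + CH (F, W) b = CH F b + CH (F, b) ζ`; the right side of the claim is
`ex h(e) - CH (F, b) ζ + CH (F, W) b - CH (F, W, T) b`.  (b) Each term is a sum over the values `f`
of `F` (BIN): with `m c = pr (F, b) (f, c)`, `M = pr F f`, `a c t = pr (F, b, T) (f, c, t)` for the
patterns `t` in which the bit is not read, `A c = ∑ t, a c t`, `r c = m c - A c`,
`e c = m (!c) / (2 M)`: the law of `(F, b, T, ζ = true)` is `a c t * e c` (the third fact of NOI,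
for indicator functions), so
`ex h(e) = ∑ f, ∑ c, A c h(e c)`, `CH (F, b) ζ = ∑ f, ∑ c, m c h(A c e c / m c)`,
`CH (F, W) b = ∑ f, (N₁ + N₀) h(N₁ / (N₁ + N₀))`, `N c = A c e c`, and
`CH (F, W, T) b = ∑ f, ∑ t, (a₁ e₁ + a₀ e₀) h(..)` (if `W ≠ none` then `b` is known, and if the bit
is read then `W ≠ none`); `O F b = ∑ f, 2 m₁ m₀ / M`,
`O (F, T) b = ∑ f, ∑ t, 2 a₁ a₀ / (a₁ + a₀)`, and the expectation with `u` is
`∑ f, ∑ c, r c * m (!c) / M`.  Now `S_RI` for each `f`. -/
def S_SBI : Prop := ∀ (Ω Ω' : Type) [Fintype Ω] [Fintype Ω'] (P : FP Ω) (P' : FP Ω') (γ β : Type)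
  (F : Ω → γ) (b : Ω → Bool) (T : Ω → β) (u : Ω → Prop) (π : Ω' → Ω) (ζ : Ω' → Bool),
  (∀ ω ω', T ω = T ω' → (u ω ↔ u ω')) → (∀ ω ω', T ω = T ω' → u ω → b ω = b ω') →
  SL P' π P id →
  (∀ f : Ω → Bool → ℝ, ex P' (fun q => f (π q) (ζ q)) =
    ex P (fun ω => (if u ω then 0 else opp P F b ω / 2) * f ω true +
      (1 - (if u ω then 0 else opp P F b ω / 2)) * f ω false)) →
  (1 / 8) * (O P F b - O P (fun ω => (F ω, T ω)) b) -
      (13 / 10) * ex P (fun ω => if u ω then opp P F b ω else 0) ≤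
    CH P F b + ex P (fun ω => Real.binEntropy (if u ω then 0 else opp P F b ω / 2)) -
      CH P' (fun q => F (π q)) (fun q => if ζ q then none else some (b (π q))) -
      CH P' (fun q => (F (π q), (if ζ q then none else some (b (π q))), T (π q)))
        (fun q => b (π q))

/-- HZ (uses `S_DTS`, `S_SBS`, `S_SBA`, `S_NOI`, `S_SBI`).  THE HAZARD INEQUALITY.  `Ω` is a set of
words (`z` injective), `F` determines the bits outside `V`, `U ω` is the set of the variables of the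
pattern `pat (U ω) (z ω)`, chosen canonically.
Proof: noise (NOI) with `e ω v = if v ∈ V ∧ v ∉ U ω then opp P F (z v) ω / 2 else 0` (`opp ≤ 1`);
`W q v = if ζ q v then none else some (z (π q) v)`, `T = pat (U ω) (z ω)`.
(a) On the support `(F, W)` determines `T`: if `F`, `W` agree at `q`, `q'` then `z`, `z'` agree
outside `V` and, as nothing is erased in `U ω`, `U ω'`, also in `U ω ∪ U ω'`; canonicity.
(b) `H (F, W) ≤ H F + ∑ v ∈ V, CH F (W v)` (SBA; outside `V` nothing is erased).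
(c) `H (F, W, z) = H (ω, ζ) = H id + ∑ v, ex h(e v)` (on the support `ζ` and `W` determine each
other), `H (F ω, z ω) = H id = H F + ∑ v ∈ V, CH F (z v) - TC`.
(d) `H (F, W, z) - H (F, W) = CH (F, W, T) z ≤ ∑ v ∈ V, CH (F, W, T) (z v) ≤
∑ v ∈ V, CH (F, W v, T) (z v)` (SBA, SBS).
So `∑ v ∈ V, (CH F (z v) + ex h(e v) - CH F (W v) - CH (F, W v, T) (z v)) ≤ TC`, and SBI for every
`v ∈ V` (`b = z v`, `u ω = (v ∈ U ω)`); multiply by `8`. -/
def S_HZ : Prop := ∀ (Ω : Type) [Fintype Ω] (P : FP Ω) (γ : Type) (F : Ω → γ) (n : ℕ)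
  (z : Ω → Fin n → Bool) (V : Finset (Fin n)) (U : Ω → Finset (Fin n)),
  Function.Injective z →
  (∀ ω ω', F ω = F ω' → ∀ v, v ∉ V → z ω v = z ω' v) →
  (∀ ω ω', F ω = F ω' → (∀ v ∈ U ω, z ω v = z ω' v) → (∀ v ∈ U ω', z ω v = z ω' v) →
    U ω = U ω') →
  ∑ v ∈ V, (O P F (fun ω => z ω v) - O P (fun ω => (F ω, pat (U ω) (z ω))) (fun ω => z ω v)) ≤
    12 * (∑ v ∈ V, ex P (fun ω => if v ∈ U ω then opp P F (fun ω' => z ω' v) ω else 0)) +
      8 * TC P F V z

/-- D1 (uses `S_DTS`, `S_SBS`, `S_SBA`, `S_BIN`, `S_NOI`).  The random set `D` of undetermined bits.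
Proof: noise with `e ω v = if v ∈ V then min 1 (opp ω / (1 - opp ω)) else 0` where
`opp = opp P F (z v)` (for `opp = 1`, which has weight `0`, the quotient is `0`; put `1` if
`opp ≥ 1 / 2`), `D q = {v | ζ q v}`.
(1) if `v ∈ D q` then `e ≠ 0`, so `opp ≠ 0`: some `ω'` of positive weight has the same `F` and the
other bit.  (2) if `v ∈ V`, `v ∉ D q` then `e ≠ 1`, so `opp < 1 / 2` at `π q`, and at `π q'`; if the
bits were different then the two values of `opp` would have sum `1`.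
(3) Given `F = f`, for `v ∈ V` with the conditional probabilities `π₁, π₀` of the bit:
`P (v ∈ D, bit = c | f) = min π₁ π₀` for both `c`.  So `ex |D| = ∑ v, ex (2 min π₁ π₀ (F ω))
≥ ∑ v, O F (z v)`.
(4) `H (F, D, z) = H (ω, ζ) = H id + ∑ v, ex h(e v)`, `H (F, D) ≤ H F + ∑ v ∈ V, CH F (v ∈ D)`, so
`CH (F, D) z ≥ ∑ v ∈ V, (CH F (z v) + ex h(e v) - CH F (v ∈ D)) - TC`, and for one `v` the bracket
is `CH F (z v, ζ v) - CH F (ζ v) = CH (F, ζ v) (z v) = ex h(opp (F, ζ v)) ≥ log 2 * P (ζ v)` by BIN: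
on `ζ v = true` the bit is unbiased given `F`. -/
def S_D1 : Prop := ∀ (Ω : Type) [Fintype Ω] (P : FP Ω) (γ : Type) (F : Ω → γ) (n : ℕ)
  (z : Ω → Fin n → Bool) (V : Finset (Fin n)), Function.Injective z →
  (∀ ω ω', F ω = F ω' → ∀ v, v ∉ V → z ω v = z ω' v) →
  ∃ (Ω' : Type) (_ : Fintype Ω') (P' : FP Ω') (π : Ω' → Ω) (D : Ω' → Finset (Fin n)),
    SL P' π P id ∧
    (∀ q, P'.p q ≠ 0 → P.p (π q) ≠ 0 ∧ D q ⊆ V ∧ ∀ v ∈ D q, ∃ ω', P.p ω' ≠ 0 ∧
      F ω' = F (π q) ∧ z ω' v ≠ z (π q) v) ∧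
    (∀ q q', P'.p q ≠ 0 → P'.p q' ≠ 0 → F (π q) = F (π q') → D q = D q' →
      ∀ v, v ∉ D q → z (π q) v = z (π q') v) ∧
    ∑ v ∈ V, O P F (fun ω => z ω v) ≤ ex P' (fun q => ((D q).card : ℝ)) ∧
    Real.log 2 * ex P' (fun q => ((D q).card : ℝ)) - TC P F V z ≤
      CH P' (fun q => (F (π q), D q)) (fun q => z (π q))

end Pool.Agent.TKN
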