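import Pool.Agent.TKN.St3
import Pool.Agent.CFT.Stmts
import Pool.Agent.CFT.LOW
import Pool.Agent.STK.Hard

/-!
# Project TKN: statements, part 4 (from programs to the core)

Here `CFT.FP` is the type of the fork programs (AND/OR circuits) and `NCE.FP` is not used.
-/

set_option autoImplicit false

open Finset

namespace Pool.Agent.TKN

open Pool.Agent.Lib_helper20.SRO (RectFree Rigid Agrees)
open Pool.Agent.CFT (Der fixF)
open Pool.Agent.URG (VarA VarG VarX goodA goodF deg Num cnt)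
open Pool.Agent.HPM.Fn (Coord)

/-- Every accepted input has an accepting tree with at most `T` tests. -/
def TimeF {V N : Type} (G : CFT.FP V N) (T : ℕ) : Prop :=
  ∀ b, G.Accepts b → ∃ l, Der G G.source l ∧ Agrees b l ∧ l.length ≤ T

/-- Every accepted input has an accepting run with at most `T` tests. -/
def TimeS {V Γ N : Type} {k : ℕ} (G : STK.Prog V k Γ N) (T : ℕ) : Prop :=
  ∀ b, G.Accepts b → ∃ l, G.Full l ∧ Agrees b l ∧ l.length ≤ T

/-- FAM (uses `CFT.Stmt_ASM`, `CFT.Stmt_CUT`).  From short trees to an intersection of unions.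
Proof: for `root : Fin (K+1) → N` with `root 0 = G.source` let `C i b` say that there is a list `l`
with `Ctx G (fun u => ∃ j, i < j ∧ root j = u) (root i) l`, `l.length ≤ 2 h + s`, `Agrees b l`, and
`Z root = {b | ∀ i, C i b}`.  By CUT every `b ∈ B` is in some `Z root` (the tests of `ls i` are tests
of `l`), so `|B| ≤ |N|^(K+1) * |Z root|` for the largest one (a sum over the functions `root`; if `B`
is empty take `Z = ∅`).  By ASM the `b ∈ Z root` are accepted.  Let `l i b` be the list with the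
least `Encodable.encode` among those of `C i b` and `U i b` the set of its variables
(`((l i b).map Prod.fst).toFinset`, of size `≤ 2 h + s`).  `canon`: if `z, z'` agree on `U i z` and
on `U i z'` then `l i z` is good for `z'` and conversely, so the lists are equal.  `mix`: if `b`
agrees with `z ∈ Z` on `U i z` then `l i z` is good for `b`. -/
def S_FAM : Prop := ∀ (n : ℕ) (N : Type) [Fintype N] (G : CFT.FP (Fin n) N)
  (f : (Fin n → Bool) → Bool) (h s K T : ℕ) (B : Finset (Fin n → Bool)), G.Block s →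
  (∀ b, G.Accepts b → f b = true) →
  (∀ b ∈ B, ∃ l, Der G G.source l ∧ Agrees b l ∧ l.length ≤ T) → T < h * (K + 1) →
  ∃ (Z : Finset (Fin n → Bool)) (U : Fin (K + 1) → (Fin n → Bool) → Finset (Fin n)),
    Fam n (K + 1) (2 * h + s) Z U ∧ (∀ z ∈ Z, f z = true) ∧
    B.card ≤ Fintype.card N ^ (K + 1) * Z.card

/-- LOWF (uses `S_FAM`, `S_CORE`).  The lower bound for fork programs on `n` bits.
Proof: CORE with `4 k` gives `r`, `δ`, `n0`; `K + 1 = r`, `h = k n / r + 1` (so `k n < h r`),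
`r (2 h + s) ≤ 2 k n + 2 r + r c n ≤ 4 k n` for `c ≤ 1 / r` and large `n`.  If `|N| < 2^(c n)` then
`2^n ≤ 2^(c n) |B0| ≤ 2^(c n (1 + r)) |Z| ≤ exp (δ n) |Z|` for `c` small (`log 2 ≤ 1`), and
`m ≤ 2^(c n) ≤ exp (δ n)`. -/
def S_LOWF : Prop := ∀ k : ℕ, 1 ≤ k → ∃ c : ℝ, 0 < c ∧ ∃ n0 : ℕ, ∀ n ≥ n0, ∀ (N : Type) [Fintype N]
  (G : CFT.FP (Fin n) N) (f : (Fin n → Bool) → Bool) (m s : ℕ) (B0 : Finset (Fin n → Bool)),
  (s : ℝ) ≤ c * n → G.Block s → (∀ b, G.Accepts b → f b = true) → Rigid f →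
  (∀ b ∈ B0, ∃ l, Der G G.source l ∧ Agrees b l ∧ l.length ≤ k * n) →
  1 ≤ m → (m : ℝ) ≤ 2 ^ (c * n) → RectFree f m →
  (2 : ℝ) ^ n ≤ 2 ^ (c * n) * B0.card → (2 : ℝ) ^ (c * n) ≤ Fintype.card N

/-- AVT (uses `S_LOWF`, `CFT.Stmt_FIX`).  From one point to many points.
Proof: port of `CFT.t_AVG` (file Pool/Agent/CFT/AVG.lean); `R y i k` now says that some tree for
`unc y` has at most `k` tests of the variables `(i, j)`, `j < n`; among the `L` copies one has at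
most `k n` of the `k (n L)` tests (`URG.pigeon`).  The list `restr ι l` has as many elements as `l`
has tests in the range of `ι` (`filterMap`). -/
def S_AVT : Prop := ∀ k : ℕ, 1 ≤ k → ∃ c : ℝ, 0 < c ∧ c ≤ 1 ∧ ∃ n0 : ℕ, ∀ n ≥ n0,
  ∀ (L m s : ℕ) (W Q : Type) [Fintype Q] [DecidableEq W] (G : CFT.FP (W ⊕ (Fin L × Fin n)) Q)
    (w : W → Bool) (g : (Fin n → Bool) → Bool), 1 ≤ L → Rigid g → RectFree g m → 1 ≤ m →
    (m : ℝ) ≤ 2 ^ (c * n) →
    (2 : ℝ) ^ n * L ≤ 2 ^ (c * n) * (univ.filter fun x => g x = true).card →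
    (s : ℝ) ≤ c * n → G.Block s →
    (∀ b : Fin L × Fin n → Bool, G.Accepts (Sum.elim w b) ↔ ∀ l, g (fun j => b (l, j)) = true) →
    (∀ b : Fin L × Fin n → Bool, G.Accepts (Sum.elim w b) → ∃ l, Der G G.source l ∧
      Agrees (Sum.elim w b) l ∧ l.length ≤ k * (n * L)) →
    (2 : ℝ) ^ (c * n) ≤ Fintype.card Q

/-- the core lower bound for a function `f` and fork programs -/
def CoreT {W : Type} (k : ℕ) (c : ℝ) (n L : ℕ) (f : (W ⊕ (Fin L × Fin n) → Bool) → Bool) :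
    Prop :=
  ∀ s : ℕ, (s : ℝ) ≤ c * n → ∀ (Q : Type) [Fintype Q]
    (G : CFT.FP (W ⊕ (Fin L × Fin n)) Q), G.Block s → G.Computes f → TimeF G (k * (n * L)) →
    (2 : ℝ) ^ (c * n) ≤ Fintype.card Q

/-- COT (uses `S_AVT`).  The three functions.
Proof: port of `CFT.t_lowWP`, `CFT.t_coreP` (file Pool/Agent/CFT/LOW.lean), with `r = 0` in `Num`. -/
def S_COT : Prop := ∀ k : ℕ, 1 ≤ k → ∃ c : ℝ, 0 < c ∧ c ≤ 1 ∧ ∃ n0 : ℕ, ∀ n ≥ n0,
  ∀ (e L : ℕ) (β : Coord (deg n e)), Num c n e L 0 →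
    CoreT k c n L (goodA (L := L) β) ∧ CoreT k c n L (goodF (L := L) β) ∧
      CoreT k c n L (fun v : VarG n e L → Bool => !goodF β v)

/-- MAT (uses `S_COT`).  The main theorem.
Proof: port of `STK.mainA0`, `STK.mainF0`, `STK.hardS_of`, `STK.hardC_of` (files
Pool/Agent/STK/{Main0,Hard}.lean): with `N ≤ 2 n L` the time bound `k N` is `≤ (2 k) (n L)`; use COT
for `2 k`, `URG.t_num c0` for `e`, `L`, and `STK.ONE.toFP`, `ONE.accepts_iff`, `ONE.full_iff`. -/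
def S_MAT : Prop := ∀ k : ℕ, 1 ≤ k → ∃ c : ℝ, 0 < c ∧ ∃ e L κ n0 : ℕ, ∀ n ≥ n0,
  Nonempty (Coord (deg n e)) ∧
  (∀ (β : Coord (deg n e)) (N : ℕ), N = Fintype.card (VarA n e L) →
    (n * L ≤ N ∧ N ≤ 2 * (n * L)) ∧
    (∃ (Q : Type) (_ : Fintype Q) (G : STK.Prog (VarA n e L) 0 Empty Q), G.Blocks 1 ∧
      G.ReadOnce ∧ G.Computes (fun v => !goodA β v) ∧ Fintype.card Q ≤ N ^ κ) ∧
    (∀ (Γ Q : Type) [Fintype Q] (G : STK.Prog (VarA n e L) 1 Γ Q) (s : ℕ), (s : ℝ) ≤ c * N →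
      G.Blocks s → TimeS G (k * N) → G.Computes (goodA β) → (2 : ℝ) ^ (c * N) ≤ Fintype.card Q) ∧
    (∀ (Q : Type) [Fintype Q] (G : CFT.FP (VarA n e L) Q) (s : ℕ), (s : ℝ) ≤ c * N →
      G.Block s → TimeF G (k * N) → G.Computes (goodA β) → (2 : ℝ) ^ (c * N) ≤ Fintype.card Q)) ∧
  ∀ (β : Coord (deg n e)) (N : ℕ), N = Fintype.card (VarG n e L) →
    (n * L ≤ N ∧ N ≤ 2 * (n * L)) ∧
    (∀ (Γ Q : Type) [Fintype Q] (G : STK.Prog (VarG n e L) 1 Γ Q) (s : ℕ), (s : ℝ) ≤ c * N →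
      G.Blocks s → TimeS G (k * N) →
      G.Computes (goodF β) ∨ G.Computes (fun v => !goodF β v) →
      (2 : ℝ) ^ (c * N) ≤ Fintype.card Q) ∧
    ∃ (V : Type) (_ : Fintype V) (w : ℕ), Fintype.card V ≤ N ^ κ ∧ 2 ^ w ≤ N ^ κ ∧
      ∀ (s T : ℕ) (σ : Fin T → Fin s → VarG n e L), (∀ i, ∃ t j, σ t j = i) →
        UM.InPP (HPM.DecOs s (VarG n e L) V T σ) w (fun v => goodF β v = true)

end Pool.Agent.TKN
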