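import Pool.Agent.TKN.St4
import Pool.Agent.TKN.St5

/-!
# Project TKN: statements, part 6 (ONE function for all `k`: lower bounds)
-/

set_option autoImplicit false

open Finset

namespace Pool.Agent.TKN.ONE

open Pool.Agent.Lib_helper20.SRO (Agrees)
open Pool.Agent.CFT (Der)
open Pool.Agent.URG (VarA VarG VarX goodA goodF deg Num)
open Pool.Agent.HPM.Fn (Coord)

/-- NM2: the numeric conditions with a free number of points.
Proof. Part of `URG.t_num` (file Pool/Agent/URG/Nume.lean): `36 < c0 * 2 ^ e`. -/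
def S_NM2 : Prop := ∀ c0 : ℝ, 0 < c0 → c0 ≤ 1 → ∃ e : ℕ, 1 ≤ e ∧ ∀ L : ℕ, 1 ≤ L →
  ∃ n1 : ℕ, ∀ n ≥ n1, Num c0 n e L 0

/-- The lower bound for programs with one stack and for fork programs with accepting runs (trees)
with at most `k N` tests. -/
def HardT (k : ℕ) (c : ℝ) (N : ℕ) (f : (Fin N → Bool) → Bool) : Prop :=
  (∀ (Γ Q : Type) [Fintype Q] (G : STK.Prog (Fin N) 1 Γ Q) (s : ℕ), (s : ℝ) ≤ c * N →
    G.Blocks s → TimeS G (k * N) → G.Computes f → (2 : ℝ) ^ (c * N) ≤ Fintype.card Q) ∧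
  ∀ (Q : Type) [Fintype Q] (G : CFT.FP (Fin N) Q) (s : ℕ), (s : ℝ) ≤ c * N →
    G.Block s → TimeF G (k * N) → G.Computes f → (2 : ℝ) ^ (c * N) ≤ Fintype.card Q

open Classical in
/-- `b` on the range of `ι`, `a` elsewhere -/
noncomputable def put {U V : Type} (ι : U → V) (a : V → Bool) (b : U → Bool) : V → Bool :=
  fun y => if h : ∃ x, ι x = y then b h.choose else a y

/-- RED: fixing variables.
Proof. As `CFT.fixF`, `CFT.t_FIX` (file Pool/Agent/CFT/FIX.lean) but for `ι : U → V` with any types: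
the fork program `G` with the tests outside the range of `ι` checked against `a` (an edge is kept if
they are right) and removed. It has the same nodes, blocks and trees are not longer, and it computes
`f'`; so `CoreT` applies: `s ≤ c N ≤ c0 n`, `k N ≤ K (n L)`. For programs with one stack first pass
to `STK.ONE.toFP` (`STK.ONE.accepts_iff`, `full_iff`, `block`, `card_node`: `q + q ^ 2` nodes): if
`q < 2 ^ (c N)` then `q + q ^ 2 < 2 * 2 ^ (2 c N) ≤ 2 ^ (4 c N) ≤ 2 ^ (c0 n)`. -/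
def S_RED : Prop := ∀ (K k n L N : ℕ) (c0 c : ℝ) (W : Type)
  (f' : (W ⊕ (Fin L × Fin n) → Bool) → Bool) (f : (Fin N → Bool) → Bool)
  (ι : W ⊕ (Fin L × Fin n) → Fin N) (a : Fin N → Bool), Function.Injective ι →
  (∀ b, f (put ι a b) = f' b) → CoreT K c0 n L f' → k * N ≤ K * (n * L) → 0 < c →
  4 * (c * N) ≤ c0 * n → 1 ≤ c * N → HardT k c N f

/-- LOW (uses `S_COT`, `S_NM2`, `S_SIZ`, `S_RED`): the lower bounds.
Proof. `S_COT` for `6 k` gives `c0`, `n0`; `S_NM2` gives `e`, and `n1` for `L = cop e`. For large `M`: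
`e ≤ blk M`, `n = pt M e ≥ n0, n1`, `2 ^ 56 ≤ M`. `N ≤ 3 M ≤ 6 (n L)`; `c = c0 / (24 cop e)`. Apply
`S_RED` with `ι w = dat (ly.pos e' w)` (`e' = e - 1 : Fin (blk M)`) and `a` = `true` at the switch `e'`,
`false` elsewhere; for `fF` and its complement `VarG n e L = (VarX ⊕ Unit) ⊕ points`, the polarity
bit goes to `Fin.last`. -/
def S_LOW1 : Prop := ∀ k : ℕ, 1 ≤ k → ∃ c : ℝ, 0 < c ∧ ∃ M0 : ℕ, ∀ M ≥ M0, ∀ (β : Bas M)
  (ly : Lay M), HardT k c (size M) (fA β ly) ∧ HardT k c (size M + 1) (fF β ly) ∧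
    HardT k c (size M + 1) (fun v => !fF β ly v)

end Pool.Agent.TKN.ONE
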