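import Pool.Agent.TKN.St6

/-!
# Project TKN: statements, part 7 (the tests of few variables are not counted)

Strengthening of the lower bounds of parts 4 and 6: an accepted input has an accepting tree (run)
with at most `T` tests of variables outside a set `R` of at most `s` variables; `R` may depend on the
input and on the run, and the variables in `R` may be tested arbitrarily often. This contains the old
condition `FewRereads s` (`T` = the number of variables).
-/

set_option autoImplicit false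

open Finset

namespace Pool.Agent.TKN

open Pool.Agent.Lib_helper20.SRO (RectFree Rigid Agrees)
open Pool.Agent.CFT (Der fixF)
open Pool.Agent.URG (VarA VarG VarX goodA goodF deg Num)
open Pool.Agent.HPM.Fn (Coord)

open Classical in
/-- the number of the tests of variables outside `R` -/
noncomputable def Out {V : Type} (R : Finset V) (l : List (V × Bool)) : ℕ :=
  (l.filter fun p => p.1 ∉ R).length

/-- Every accepted input has an accepting tree with at most `T` tests of variables outside a set of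
at most `s` variables. -/
def TimeFR {V N : Type} (G : CFT.FP V N) (s T : ℕ) : Prop :=
  ∀ b, G.Accepts b → ∃ l, Der G G.source l ∧ Agrees b l ∧ ∃ R : Finset V, R.card ≤ s ∧ Out R l ≤ T

/-- Every accepted input has an accepting run with at most `T` tests of variables outside a set of
at most `s` variables. -/
def TimeSR {V Γ N : Type} {k : ℕ} (G : STK.Prog V k Γ N) (s T : ℕ) : Prop :=
  ∀ b, G.Accepts b → ∃ l, G.Full l ∧ Agrees b l ∧ ∃ R : Finset V, R.card ≤ s ∧ Out R l ≤ T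

/-- EXC (uses `S_LOWF`, `S_SUBS`).
Proof. LOWF for `k + 1` gives `c'`, `n0`; take `c ≤ 1`, `c ≤ c' / 8` with `eta c ≤ c' / 8` (for
example from `eta c ≤ 2 √c`: `log (1/c) = 2 log (1/√c) ≤ 2 (1/√c - 1)`), and `n` large. For `b ∈ B0`
let `R_b` be the set and `a_b = pat R_b b`. There are at most `exp (eta c * n)` sets of size `≤ c n`
(`S_SUBS` for `univ`) and at most `2 ^ (c n)` words `pat R b` for each of them, so for some `R`, `a`
the set `B1 = {b ∈ B0 | R_b = R, pat R b = pat R a}` has `|B0| ≤ exp (eta c * n) * 2 ^ (c n) * |B1|`;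
so `2^n ≤ 2 ^ (c' n) * |B1|` (`exp (eta c * n) ≤ 2 ^ (2 eta c * n)` as `log 2 ≥ 1/2`).
New program with the nodes `Option N` and the source `none`: an edge `none → some G.source` with the
block of the tests `(x, a x)`, `x ∈ R` (at most `s` tests); edges `some v → some u` for the edges
`v → u` of `G` with the tests `t` such that all tests `(x, c) ∈ t` with `x ∈ R` have `c = a x`, the
new block is `t.filter (fun p => p.1 ∉ R)`; forks and `fin` as in `G`. (1) if it accepts `b` then `b`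
agrees with `a` on `R` and `G` accepts `b` (the removed tests are right), so `f b = true`. (2) for
`b ∈ B1` the tree for `b` becomes a tree with the list `R-tests ++ l.filter (∉ R)` of length
`≤ s + k n ≤ (k + 1) n`. (3) LOWF: `2 ^ (c' n) ≤ |N| + 1`, so `2 ^ (c n) ≤ |N|` for large `n`. -/
def S_LOWR : Prop := ∀ k : ℕ, 1 ≤ k → ∃ c : ℝ, 0 < c ∧ ∃ n0 : ℕ, ∀ n ≥ n0, ∀ (N : Type) [Fintype N]
  (G : CFT.FP (Fin n) N) (f : (Fin n → Bool) → Bool) (m s : ℕ) (B0 : Finset (Fin n → Bool)),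
  (s : ℝ) ≤ c * n → G.Block s → (∀ b, G.Accepts b → f b = true) → Rigid f →
  (∀ b ∈ B0, ∃ l, Der G G.source l ∧ Agrees b l ∧ ∃ R : Finset (Fin n), R.card ≤ s ∧
    Out R l ≤ k * n) →
  1 ≤ m → (m : ℝ) ≤ 2 ^ (c * n) → RectFree f m →
  (2 : ℝ) ^ n ≤ 2 ^ (c * n) * B0.card → (2 : ℝ) ^ (c * n) ≤ Fintype.card N

/-- AVR (uses `S_LOWR`, `CFT.Stmt_FIX`).
Proof: port of `t_AVT` (file P_AVT.lean) with `R y i t` := some tree for `unc y` and some set `R`
with `R.card ≤ s` have `len i (l.filter (∉ R)) ≤ t`. For the point `i` take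
`R' = univ.filter (fun j => Sum.inr (i, j) ∈ R)` (`R'.card ≤ R.card`, injection);
`(restr ι l).filter (∉ R') = restr ι (l.filter (∉ R))`, `ι j = Sum.inr (i, j)`. -/
def S_AVR : Prop := ∀ k : ℕ, 1 ≤ k → ∃ c : ℝ, 0 < c ∧ c ≤ 1 ∧ ∃ n0 : ℕ, ∀ n ≥ n0,
  ∀ (L m s : ℕ) (W Q : Type) [Fintype Q] [DecidableEq W] (G : CFT.FP (W ⊕ (Fin L × Fin n)) Q)
    (w : W → Bool) (g : (Fin n → Bool) → Bool), 1 ≤ L → Rigid g → RectFree g m → 1 ≤ m →
    (m : ℝ) ≤ 2 ^ (c * n) →
    (2 : ℝ) ^ n * L ≤ 2 ^ (c * n) * (univ.filter fun x => g x = true).card →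
    (s : ℝ) ≤ c * n → G.Block s →
    (∀ b : Fin L × Fin n → Bool, G.Accepts (Sum.elim w b) ↔ ∀ l, g (fun j => b (l, j)) = true) →
    (∀ b : Fin L × Fin n → Bool, G.Accepts (Sum.elim w b) → ∃ l, Der G G.source l ∧
      Agrees (Sum.elim w b) l ∧ ∃ R : Finset (W ⊕ (Fin L × Fin n)), R.card ≤ s ∧
        Out R l ≤ k * (n * L)) →
    (2 : ℝ) ^ (c * n) ≤ Fintype.card Q

/-- the core lower bound for a function `f` and fork programs -/
def CoreR {W : Type} (k : ℕ) (c : ℝ) (n L : ℕ) (f : (W ⊕ (Fin L × Fin n) → Bool) → Bool) :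
    Prop :=
  ∀ s : ℕ, (s : ℝ) ≤ c * n → ∀ (Q : Type) [Fintype Q]
    (G : CFT.FP (W ⊕ (Fin L × Fin n)) Q), G.Block s → G.Computes f → TimeFR G s (k * (n * L)) →
    (2 : ℝ) ^ (c * n) ≤ Fintype.card Q

/-- COR (uses `S_AVR`): port of `t_COT` (file P_COT.lean). -/
def S_COR : Prop := ∀ k : ℕ, 1 ≤ k → ∃ c : ℝ, 0 < c ∧ c ≤ 1 ∧ ∃ n0 : ℕ, ∀ n ≥ n0,
  ∀ (e L : ℕ) (β : Coord (deg n e)), Num c n e L 0 →
    CoreR k c n L (goodA (L := L) β) ∧ CoreR k c n L (goodF (L := L) β) ∧
      CoreR k c n L (fun v : VarG n e L → Bool => !goodF β v)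

namespace ONE

/-- The lower bound for programs with one stack and for fork programs with accepting runs (trees)
with at most `k N` tests; the tests of `s` variables are not counted. -/
def HardR (k : ℕ) (c : ℝ) (N : ℕ) (f : (Fin N → Bool) → Bool) : Prop :=
  (∀ (Γ Q : Type) [Fintype Q] (G : STK.Prog (Fin N) 1 Γ Q) (s : ℕ), (s : ℝ) ≤ c * N →
    G.Blocks s → TimeSR G s (k * N) → G.Computes f → (2 : ℝ) ^ (c * N) ≤ Fintype.card Q) ∧
  ∀ (Q : Type) [Fintype Q] (G : CFT.FP (Fin N) Q) (s : ℕ), (s : ℝ) ≤ c * N →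
    G.Block s → TimeFR G s (k * N) → G.Computes f → (2 : ℝ) ^ (c * N) ≤ Fintype.card Q

/-- REDR: fixing variables; port of `S_RED` (St6.lean). For `ι : U → V` the new exceptional set is
`{u | ι u ∈ R}` (`card ≤`, injection). -/
def S_REDR : Prop := ∀ (K k n L N : ℕ) (c0 c : ℝ) (W : Type)
  (f' : (W ⊕ (Fin L × Fin n) → Bool) → Bool) (f : (Fin N → Bool) → Bool)
  (ι : W ⊕ (Fin L × Fin n) → Fin N) (a : Fin N → Bool), Function.Injective ι →
  (∀ b, f (put ι a b) = f' b) → CoreR K c0 n L f' → k * N ≤ K * (n * L) → 0 < c →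
  4 * (c * N) ≤ c0 * n → 1 ≤ c * N → HardR k c N f

/-- LOWR1 (uses `S_COR`, `S_NM2`, `S_SIZ`, `S_REDR`): the lower bounds; port of the proof of
`S_LOW1`. -/
def S_LOWR1 : Prop := ∀ k : ℕ, 1 ≤ k → ∃ c : ℝ, 0 < c ∧ ∃ M0 : ℕ, ∀ M ≥ M0, ∀ (β : Bas M)
  (ly : Lay M), HardR k c (size M) (fA β ly) ∧ HardR k c (size M + 1) (fF β ly) ∧
    HardR k c (size M + 1) (fun v => !fF β ly v)

end ONE

end Pool.Agent.TKN
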