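import Pool.Agent.TKN.OneAllR
import Pool.Agent.TKN.R_OM
import Pool.Agent.TKN.R_OX
import Pool.Agent.TKN.R_AVO
import Pool.Agent.TKN.R_AVX
import Pool.Agent.TKN.R_AVB
import Pool.Agent.TKN.R_RE2
import Pool.Agent.TKN.R_ST2
import Pool.Agent.TKN.R_SEL
import Pool.Agent.TKN.R_CHAIN
import Pool.Agent.TKN.R_NUMQ
import Pool.Agent.TKN.R_COREQ
import Pool.Agent.TKN.R_LFQ
import Pool.Agent.TKN.R_LRQ
import Pool.Agent.TKN.R_ARP
import Pool.Agent.TKN.R_UNQ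
import Pool.Agent.TKN.R_BKQ
import Pool.Agent.TKN.R_GOOQ
import Pool.Agent.TKN.R_CRQ
import Pool.Agent.TKN.R_NMQ
import Pool.Agent.TKN.R_LWQ
import Pool.Agent.TKN.R_AUQ
import Pool.Agent.TKN.R_UAQ
import Pool.Agent.TKN.R_DTQ
import Pool.Agent.TKN.TwoCor

/-!
# Project TKQ: the theorems with explicit dependence on `k`
-/

set_option autoImplicit false

namespace Pool.Agent.TKN

theorem coreQ : S_COREQ :=
  have hSBS : S_SBS := t_SBS t_DTS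
  have hSBA : S_SBA := t_SBA t_DTS hSBS
  have hSMP : S_SMP := t_SMP t_HYP
  have hAVX : S_AVX := t_AVX t_DTS hSBS
  have hSTART : S_START := t_START t_DTS hSBA t_BIN t_HE2
  have hDSX : S_DSX := t_DSX (t_D1 t_DTS hSBS hSBA t_BIN t_NOI)
  t_COREQ t_NUMQ t_CHAIN (t_AVO t_OM) hAVX (t_AVB (t_OX t_BIN t_HE3))
    (t_RE2 (t_STEP t_DTS hz) t_CHO) (t_ST2 hSTART) (t_SEL hSMP hAVX) hDSX t_COV t_UPP
    (t_LOW t_DTS hSBS) t_SUBS (t_CTE t_COV (t_RCT t_COV) t_SUBS) t_LEV hSMP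

theorem lfq : S_LFQ := t_LFQ t_FAM coreQ

theorem lrq : S_LRQ := t_LRQ lfq t_SUBS

theorem arp : S_ARP := t_ARP CFT.t_FIX

namespace TWO

open Pool.Agent.STK (Prog ofNBP blocks_ofNBP full_ofNBP computes_ofNBP)
open Pool.Agent.HPM (DecOs)
open Pool.Agent.TKN.ONE (size Bas Lay HardR lay t_SIZ t_CLO t_NBP t_DEC t_REDR)

theorem crq : S_CRQ := t_CRQ (t_GOOQ t_UNQ t_BKQ)

theorem lwq : S_LWQ := t_LWQ lrq arp crq t_NMQ t_SIZ t_REDR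

theorem uaq : S_UAQ := t_UAQ t_CLO t_NBP t_AUQ t_SIZ

theorem dtq : S_DTQ := t_DTQ t_CLO t_AUQ t_SIZ

/-- The theorem without polarity bit. -/
theorem mainA : (∀ M : ℕ, 2 ^ 56 ≤ M → (2 * M ≤ size M ∧ size M ≤ 3 * M) ∧ Nonempty (Bas M) ∧
      Nonempty (Lay M) ∧ ∀ (β : Bas M) (ly : Lay M),
      (∃ (Q : Type) (_ : Fintype Q) (G : Prog (Fin (size M)) 0 Empty Q), G.Blocks 1 ∧
        (∀ l, G.Full l → (l.map Prod.fst).Pairwise (· < ·)) ∧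
        G.Computes (fun v => !fA β ly v) ∧ Fintype.card Q ≤ size M ^ 24) ∧
      ∃ (V : Type) (_ : Fintype V) (T : ℕ) (σ : Fin T → Fin 1 → Fin (size M)),
        Fintype.card V ≤ size M ^ 24 ∧ T ≤ size M ^ 24 ∧
        DecOs 1 (Fin (size M)) V T σ (fun v => fA β ly v = true)) ∧
    ∃ B : ℕ, ∀ k M : ℕ, 1 ≤ k → 2 ^ ((k + 1) ^ B) ≤ M → ∀ (β : Bas M) (ly : Lay M),
      HardR k (1 / 2 ^ ((k + 1) ^ B)) (size M) (fA β ly) := by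
  refine ⟨fun M hM => ?_, ?_⟩
  · obtain ⟨⟨h1, h2⟩, -, -⟩ := t_SIZ M hM
    refine ⟨⟨h1, by omega⟩, (lay M hM).1, (lay M hM).2, fun β ly => ⟨?_, dtq M hM β ly⟩⟩
    obtain ⟨Q, _, G, g1, g2, g3⟩ := uaq M hM β ly
    exact ⟨Q, inferInstance, ofNBP 0 Empty G, blocks_ofNBP G,
      fun l hl => g1 l (full_ofNBP.1 hl), computes_ofNBP.2 g2, g3⟩
  · obtain ⟨B, h⟩ := lwq
    exact ⟨B, fun k M hk hM β ly => (h k M hk hM β ly).1⟩

/-- The superlinear lengths, for both functions. -/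
theorem superlin : ∃ a : ℝ, 0 < a ∧ ∀ ε : ℝ, 0 < ε → ∃ M0 : ℕ, ∀ M ≥ M0, ∀ (β : Bas M) (ly : Lay M),
    (∀ s T : ℕ, (s : ℝ) ≤ (size M : ℝ) ^ (1 - ε) → (T : ℝ) ≤ size M * Real.log (size M) ^ a →
      LongR (size M) s T ((size M : ℝ) ^ (1 - ε)) (fA β ly)) ∧
    (∀ s T : ℕ, (s : ℝ) ≤ ((size M + 1 : ℕ) : ℝ) ^ (1 - ε) →
      (T : ℝ) ≤ (size M + 1 : ℕ) * Real.log (size M + 1 : ℕ) ^ a →
      LongR (size M + 1) s T (((size M + 1 : ℕ) : ℝ) ^ (1 - ε)) (fF β ly) ∧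
      LongR (size M + 1) s T (((size M + 1 : ℕ) : ℝ) ^ (1 - ε)) (fun v => !fF β ly v)) := by
  obtain ⟨B, h⟩ := lwq
  refine ⟨1 / (2 * B + 2), by positivity, fun ε hε => ?_⟩
  obtain ⟨N1, h1⟩ := longR (sz := fun M => size M) B ε hε
  obtain ⟨N2, h2⟩ := longR (sz := fun M => size M + 1) B ε hε
  refine ⟨2 ^ 56 + N1 + N2, fun M hM β ly => ?_⟩
  obtain ⟨⟨hs1, hs2⟩, -, -⟩ := t_SIZ M (by omega)
  refine ⟨h1 M (by omega) (by omega) _ fun k hk hkM => (h k M hk hkM β ly).1, fun s T hs hT => ⟨?_, ?_⟩⟩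
  · exact h2 M (by omega) (by omega) _ (fun k hk hkM => (h k M hk hkM β ly).2.1) s T hs hT
  · exact h2 M (by omega) (by omega) _ (fun k hk hkM => (h k M hk hkM β ly).2.2) s T hs hT

end TWO

end Pool.Agent.TKN
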