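import Pool.Agent.TKN.TwoAll
import Pool.Agent.TKN.R_UFQ

/-!
# Project TKQ: the function with polarity bit
-/

set_option autoImplicit false

namespace Pool.Agent.TKN.TWO

open Pool.Agent.HPM (DecOs)
open Pool.Agent.TKN.ONE (size Bas Lay HardR lay t_SIZ t_CLO t_DEC)

theorem ufq : S_UFQ := t_UFQ t_CLO t_DEC t_AUQ t_SIZ

/-- The theorem with polarity bit. -/
theorem mainF : (∀ M : ℕ, 2 ^ 56 ≤ M → (2 * M ≤ size M + 1 ∧ size M + 1 ≤ 3 * M) ∧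
      Nonempty (Bas M) ∧ Nonempty (Lay M) ∧ ∀ (β : Bas M) (ly : Lay M),
      ∃ (V : Type) (_ : Fintype V) (w : ℕ), Fintype.card V ≤ size M ^ 24 ∧
        2 ^ w ≤ size M ^ 24 ∧
        UM.InPP (DecOs 1 (Fin (size M + 1)) V (size M + 1) (fun t _ => t)) w
          (fun v => fF β ly v = true)) ∧
    ∃ B : ℕ, ∀ k M : ℕ, 1 ≤ k → 2 ^ ((k + 1) ^ B) ≤ M → ∀ (β : Bas M) (ly : Lay M),
      HardR k (1 / 2 ^ ((k + 1) ^ B)) (size M + 1) (fF β ly) ∧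
      HardR k (1 / 2 ^ ((k + 1) ^ B)) (size M + 1) (fun v => !fF β ly v) := by
  refine ⟨fun M hM => ?_, ?_⟩
  · obtain ⟨⟨h1, h2⟩, -, -⟩ := t_SIZ M hM
    exact ⟨⟨by omega, h2⟩, (lay M hM).1, (lay M hM).2, fun β ly => ufq M hM β ly⟩
  · obtain ⟨B, h⟩ := lwq
    exact ⟨B, fun k M hk hM β ly => (h k M hk hM β ly).2⟩

end Pool.Agent.TKN.TWO
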