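import Pool.Agent.TKN.St7

/-!
# Project TKQ: lower bounds for programs of length `T`
-/

set_option autoImplicit false

namespace Pool.Agent.TKN.TWO

open Pool.Agent.CFT (FP)
open Pool.Agent.STK (Prog)
open Pool.Agent.TKN (TimeSR TimeFR)

/-- Each program for `f` with ONE stack and blocks of at most `s` tests, and each fork program
(AND/OR circuit) for `f` with such blocks, has at least `2 ^ b` nodes, if each accepted input has an
accepting run (proof tree) with at most `T` tests of variables outside a set of at most `s`
variables. -/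
def LongR (N s T : ℕ) (b : ℝ) (f : (Fin N → Bool) → Bool) : Prop :=
  (∀ (Γ Q : Type) [Fintype Q] (G : Prog (Fin N) 1 Γ Q), G.Blocks s → TimeSR G s T →
    G.Computes f → (2 : ℝ) ^ b ≤ Fintype.card Q) ∧
  ∀ (Q : Type) [Fintype Q] (G : FP (Fin N) Q), G.Block s → TimeFR G s T →
    G.Computes f → (2 : ℝ) ^ b ≤ Fintype.card Q

end Pool.Agent.TKN.TWO
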